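import Pool.Agent.Lib.MP_6d40c9_pr.SpecK

/-!
# AOFacts: sums over pairs
-/

set_option autoImplicit false

namespace Pool.Agent.Lib.MP_6d40c9_pr

open Finset
open scoped BigOperators symmDiff

theorem aoF_bdy {E G : Type} [DecidableEq E] [AddCommGroup G] (h2 : ∀ g : G, g + g = 0)
    (bd : E → G) (η γ : Finset E) : bdy bd (η ∆ γ) = bdy bd η + bdy bd γ := by
  unfold bdy
  have h1 : ∑ e ∈ η ∆ γ, bd e = ∑ e ∈ η \ γ, bd e + ∑ e ∈ γ \ η, bd e := by
    have hd : Disjoint (η \ γ) (γ \ η) := by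
      rw [Finset.disjoint_left]
      intro x hx hx'
      exact (Finset.mem_sdiff.1 hx).2 (Finset.mem_sdiff.1 hx').1
    rw [← Finset.sum_union hd]
    rfl
  have h3 : ∑ e ∈ η, bd e = ∑ e ∈ η \ γ, bd e + ∑ e ∈ η ∩ γ, bd e := by
    rw [add_comm]
    exact (Finset.sum_inter_add_sum_sdiff η γ bd).symm
  have h4 : ∑ e ∈ γ, bd e = ∑ e ∈ γ \ η, bd e + ∑ e ∈ η ∩ γ, bd e := by
    rw [add_comm, Finset.inter_comm]
    exact (Finset.sum_inter_add_sum_sdiff γ η bd).symm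
  rw [h1, h3, h4]
  have h5 := h2 (∑ e ∈ η ∩ γ, bd e)
  calc ∑ e ∈ η \ γ, bd e + ∑ e ∈ γ \ η, bd e =
      ∑ e ∈ η \ γ, bd e + ∑ e ∈ γ \ η, bd e + 0 := (add_zero _).symm
    _ = ∑ e ∈ η \ γ, bd e + ∑ e ∈ γ \ η, bd e +
        (∑ e ∈ η ∩ γ, bd e + ∑ e ∈ η ∩ γ, bd e) := by rw [h5]
    _ = _ := by abel

theorem aoF_chi {E : Type} [DecidableEq E] (χ : E → ℝ) (O : Finset E)
    (hχ : ∀ e ∈ O, χ e = 1 ∨ χ e = -1) (η γ : Finset E) (hη : η ⊆ O) :
    ∏ e ∈ η ∆ γ, χ e = (∏ e ∈ η, χ e) * ∏ e ∈ γ, χ e := by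
  have h1 : ∏ e ∈ η ∆ γ, χ e = (∏ e ∈ η \ γ, χ e) * ∏ e ∈ γ \ η, χ e := by
    have hd : Disjoint (η \ γ) (γ \ η) := by
      rw [Finset.disjoint_left]
      intro x hx hx'
      exact (Finset.mem_sdiff.1 hx).2 (Finset.mem_sdiff.1 hx').1
    rw [← Finset.prod_union hd]
    rfl
  have h3 : ∏ e ∈ η, χ e = (∏ e ∈ η ∩ γ, χ e) * ∏ e ∈ η \ γ, χ e :=
    (Finset.prod_inter_mul_prod_sdiff η γ χ).symm
  have h4 : ∏ e ∈ γ, χ e = (∏ e ∈ η ∩ γ, χ e) * ∏ e ∈ γ \ η, χ e := by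
    rw [Finset.inter_comm]
    exact (Finset.prod_inter_mul_prod_sdiff γ η χ).symm
  have h5 : (∏ e ∈ η ∩ γ, χ e) * (∏ e ∈ η ∩ γ, χ e) = 1 := by
    rw [← Finset.prod_mul_distrib]
    apply Finset.prod_eq_one
    intro e he
    rcases hχ e (hη (Finset.mem_inter.1 he).1) with h | h <;> rw [h] <;> norm_num
  rw [h1, h3, h4]
  linear_combination (-(∏ e ∈ η \ γ, χ e) * ∏ e ∈ γ \ η, χ e) * h5

theorem aoF_sub {E : Type} [DecidableEq E] {O η γ : Finset E} (hη : η ⊆ O) (hγ : γ ⊆ O) :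
    η ∆ γ ⊆ O := by
  intro x hx
  rw [Finset.mem_symmDiff] at hx
  rcases hx with h | h
  · exact hη h.1
  · exact hγ h.1

/-- reindexing by `γ ↦ η ∆ γ` -/
theorem aoF_reindex {E : Type} [DecidableEq E] (O η : Finset E) (hη : η ⊆ O)
    (F : Finset E → ℝ) : ∑ γ ∈ O.powerset, F γ = ∑ γ ∈ O.powerset, F (η ∆ γ) := by
  refine Finset.sum_bij' (fun γ _ => η ∆ γ) (fun γ _ => η ∆ γ) ?_ ?_ ?_ ?_ ?_
  · intro γ hγ
    exact Finset.mem_powerset.2 (aoF_sub hη (Finset.mem_powerset.1 hγ))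
  · intro γ hγ
    exact Finset.mem_powerset.2 (aoF_sub hη (Finset.mem_powerset.1 hγ))
  · intro γ _
    exact symmDiff_symmDiff_cancel_left η γ
  · intro γ _
    exact symmDiff_symmDiff_cancel_left η γ
  · intro γ _
    rw [symmDiff_symmDiff_cancel_left]

theorem aoF_chi_pm {E : Type} [DecidableEq E] (χ : E → ℝ) (O : Finset E)
    (hχ : ∀ e ∈ O, χ e = 1 ∨ χ e = -1) (γ : Finset E) (hγ : γ ⊆ O) :
    ∏ e ∈ γ, χ e = 1 ∨ ∏ e ∈ γ, χ e = -1 := by
  have h : (∏ e ∈ γ, χ e) * ∏ e ∈ γ, χ e = 1 := by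
    rw [← Finset.prod_mul_distrib]
    apply Finset.prod_eq_one
    intro e he
    rcases hχ e (hγ he) with h | h <;> rw [h] <;> norm_num
  exact mul_self_eq_one_iff.1 h

open Classical in
/-- the sum of the signs over the even sets is nonnegative -/
theorem aoF_sum_nonneg {E G : Type} [DecidableEq E] [AddCommGroup G] (h2 : ∀ g : G, g + g = 0)
    (bd : E → G) (χ : E → ℝ) (O : Finset E) (hχ : ∀ e ∈ O, χ e = 1 ∨ χ e = -1) :
    0 ≤ ∑ η ∈ O.powerset, if bdy bd η = 0 then ∏ e ∈ η, χ e else 0 := by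
  by_cases hall : ∀ γ ⊆ O, bdy bd γ = 0 → ∏ e ∈ γ, χ e = 1
  · apply Finset.sum_nonneg
    intro η hη
    split_ifs with h
    · rw [hall η (Finset.mem_powerset.1 hη) h]
      norm_num
    · exact le_rfl
  · push Not at hall
    obtain ⟨γ, hγ, hb, hne⟩ := hall
    have hγ1 : ∏ e ∈ γ, χ e = -1 := (aoF_chi_pm χ O hχ γ hγ).resolve_left hne
    have h1 := aoF_reindex O γ hγ (fun η => if bdy bd η = 0 then ∏ e ∈ η, χ e else 0)
    have h3 : ∑ η ∈ O.powerset, (if bdy bd (γ ∆ η) = 0 then ∏ e ∈ γ ∆ η, χ e else 0) =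
        -∑ η ∈ O.powerset, (if bdy bd η = 0 then ∏ e ∈ η, χ e else 0) := by
      rw [← Finset.sum_neg_distrib]
      refine Finset.sum_congr rfl fun η _ => ?_
      rw [aoF_bdy h2, hb, zero_add, aoF_chi χ O hχ γ η hγ, hγ1]
      split_ifs
      · ring
      · ring
    rw [h3] at h1
    have h4 : ∑ η ∈ O.powerset, (if bdy bd η = 0 then ∏ e ∈ η, χ e else 0) = 0 := by
      have h5 : ∑ η ∈ O.powerset, (if bdy bd η = 0 then ∏ e ∈ η, χ e else 0) =
        -∑ η ∈ O.powerset, (if bdy bd η = 0 then ∏ e ∈ η, χ e else 0) := h1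
      linarith
    exact h4.symm.le

theorem aoF_pW_nonneg {E : Type} [DecidableEq E] (D : Finset E) (x : E → ℝ) (O : Finset E)
    (hO : O ⊆ D) (h0 : ∀ e ∈ D, 0 ≤ x e) (h1 : ∀ e ∈ D, x e ≤ 1) (ν : Finset E) :
    0 ≤ pW D x O ν := by
  unfold pW
  apply mul_nonneg
  · apply Finset.prod_nonneg
    intro e he
    have := h0 e (hO he)
    split_ifs
    · exact this
    · positivity
  · apply Finset.prod_nonneg
    intro e he
    have h2 := h0 e (Finset.mem_sdiff.1 he).1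
    have h3 := h1 e (Finset.mem_sdiff.1 he).1
    nlinarith

theorem aOFacts : AOFacts := by
  classical
  intro E G _ _ h2 bd D x χ O hO h0 h1 hχ
  refine ⟨?_, ?_, ?_⟩
  · intro f g hne
    unfold aO at hne
    obtain ⟨η₁, hη₁, hne1⟩ := Finset.exists_ne_zero_of_sum_ne_zero hne
    obtain ⟨η₂, hη₂, hne2⟩ := Finset.exists_ne_zero_of_sum_ne_zero hne1
    split_ifs at hne2 with hc
    · exact ⟨⟨η₁, Finset.mem_powerset.1 hη₁, hc.1⟩, ⟨η₂, Finset.mem_powerset.1 hη₂, hc.2⟩⟩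
    · exact absurd rfl hne2
  · intro f g
    unfold aO
    apply Finset.sum_nonneg
    intro η₁ _
    apply Finset.sum_nonneg
    intro η₂ _
    split_ifs
    · rw [Finset.prod_const_one, one_mul]
      exact aoF_pW_nonneg D x O hO h0 h1 _
    · exact le_rfl
  · intro f
    have hS := aoF_sum_nonneg h2 bd χ O hχ
    have key : aO bd D x χ O 0 f =
        (∑ ν ∈ O.powerset, if bdy bd ν = f then pW D x O ν else 0) *
          ∑ η ∈ O.powerset, if bdy bd η = 0 then ∏ e ∈ η, χ e else 0 := by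
      unfold aO
      rw [mul_comm, Finset.sum_mul_sum]
      refine Finset.sum_congr rfl fun η hη => ?_
      rw [aoF_reindex O η (Finset.mem_powerset.1 hη)]
      refine Finset.sum_congr rfl fun ν _ => ?_
      rw [symmDiff_symmDiff_cancel_left, aoF_bdy h2]
      by_cases hb : bdy bd η = 0
      · rw [hb, zero_add, if_pos rfl]
        by_cases hf : bdy bd ν = f
        · rw [if_pos ⟨rfl, hf⟩, if_pos hf]
        · rw [if_neg (fun h => hf h.2), if_neg hf, mul_zero]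
      · rw [if_neg (fun h => hb h.1), if_neg hb, zero_mul]
    rw [key]
    apply mul_nonneg _ hS
    apply Finset.sum_nonneg
    intro ν _
    split_ifs
    · exact aoF_pW_nonneg D x O hO h0 h1 _
    · exact le_rfl

end Pool.Agent.Lib.MP_6d40c9_pr
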