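import Pool.Agent.Lib.MP_6d40c9_pr.SpecM

/-!
# Monotonicity and submultiplicativity of the block magnetization
-/

set_option autoImplicit false
set_option linter.unusedSectionVars false

namespace Pool.Agent.Lib.MP_6d40c9_pr

open Finset
open scoped BigOperators symmDiff

section AaFactsAux

private lemma aaF_mem_box {z v : Pt} {n : ℕ} :
    v ∈ box z n ↔ (z.1 - n ≤ v.1 ∧ v.1 ≤ z.1 + n) ∧ (z.2 - n ≤ v.2 ∧ v.2 ≤ z.2 + n) := by
  unfold box
  rw [Finset.mem_product, Finset.mem_Icc, Finset.mem_Icc]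

private lemma aaF_box_mono {z : Pt} {n m : ℕ} (h : n ≤ m) : box z n ⊆ box z m := by
  intro v hv
  rw [aaF_mem_box] at hv ⊢
  have : (n : ℤ) ≤ m := by exact_mod_cast h
  omega

private lemma aaF_LF_mono {F F' : Finset Pt} (h : F ⊆ F') : LF F ⊆ LF F' :=
  Finset.biUnion_subset_biUnion_of_subset_left _ h

private lemma aaF_LI_mono {F F' : Finset Pt} (h : F ⊆ F') : LI F ⊆ LI F' := by
  intro e he
  unfold LI at he ⊢
  rw [Finset.mem_filter] at he ⊢
  exact ⟨aaF_LF_mono h he.1, h he.2.1, h he.2.2⟩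

private lemma aaF_EV_mono {F F' : Finset Pt} (h : F ⊆ F') : EV F ⊆ EV F' :=
  Finset.biUnion_subset_biUnion_of_subset_left _ h

private lemma aaF_mem_EV {Λ : Finset Pt} {e : Edge} : e ∈ EV Λ ↔ src e ∈ Λ ∨ tgt e ∈ Λ := by
  unfold EV src tgt
  obtain ⟨⟨a, b⟩, c⟩ := e
  simp only [Finset.mem_biUnion, Finset.mem_insert, Finset.mem_singleton, Prod.mk.injEq]
  constructor
  · rintro ⟨⟨p, q⟩, hv, h | h | h | h⟩
    · obtain ⟨⟨rfl, rfl⟩, rfl⟩ := h
      left; exact hv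
    · obtain ⟨⟨rfl, rfl⟩, rfl⟩ := h
      left; exact hv
    · obtain ⟨⟨rfl, rfl⟩, rfl⟩ := h
      right; simpa using hv
    · obtain ⟨⟨rfl, rfl⟩, rfl⟩ := h
      right; simpa using hv
  · rintro (h | h)
    · refine ⟨(a, b), h, ?_⟩
      cases c <;> simp
    · cases c
      · refine ⟨(a + 1, b), by simpa using h, ?_⟩
        simp
      · refine ⟨(a, b + 1), by simpa using h, ?_⟩
        simp

private lemma aaF_sgs (w : Finset Edge) (u : Pt) : sgs {u} w = sgn w u := by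
  unfold sgs
  rw [Finset.prod_singleton]

private lemma aaF_aa (n N : ℕ) : aa n N = lE (LF (box 0 N) \ LI (box 0 n)) (sgs {0}) := by
  unfold aa c1
  congr 1
  funext w
  exact (aaF_sgs w 0).symm

private lemma aaF_xc : 0 ≤ xc ∧ xc ≤ 1 := by
  unfold xc
  have h1 : (1 : ℝ) ≤ Real.sqrt 2 := Real.one_le_sqrt.mpr (by norm_num)
  have h2 : Real.sqrt 2 ≤ 2 := by
    rw [Real.sqrt_le_left (by norm_num)]
    norm_num
  constructor <;> linarith

private lemma aaF_xblk (z : Pt) (n : ℕ) (e : Edge) : 0 ≤ xblk z n e ∧ xblk z n e ≤ 1 := by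
  unfold xblk
  split_ifs
  · norm_num
  · exact aaF_xc

private lemma aaF_xblk_mono (z : Pt) {n m : ℕ} (h : n ≤ m) (e : Edge) :
    xblk z n e ≤ xblk z m e := by
  unfold xblk
  by_cases h1 : src e ∈ box z n ∧ tgt e ∈ box z n
  · have h2 : src e ∈ box z m ∧ tgt e ∈ box z m := ⟨aaF_box_mono h h1.1, aaF_box_mono h h1.2⟩
    rw [if_pos h1, if_pos h2]
  · rw [if_neg h1]
    split_ifs
    · exact aaF_xc.2
    · exact le_refl _

/-- Monotonicity of the random cluster probability in the event. -/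
private lemma aaF_fkP_mono (bd : Edge → Pt → ZMod 2) (D : Finset Edge) (x : Edge → ℝ)
    (hx : ∀ e, 0 ≤ x e ∧ x e ≤ 1) (P Q : Finset Edge → Prop) (hPQ : ∀ ω ⊆ D, P ω → Q ω) :
    fkP bd D x P ≤ fkP bd D x Q := by
  classical
  unfold fkP fkE
  have hZ : 0 ≤ Zp bd D x 0 := by
    unfold Zp
    refine Finset.sum_nonneg fun η _ => ?_
    split_ifs
    · exact Finset.prod_nonneg fun e _ => (hx e).1
    · exact le_refl _
  refine div_le_div_of_nonneg_right ?_ hZ
  refine Finset.sum_le_sum fun ω hω => ?_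
  have hW : 0 ≤ fkW bd D x ω := by
    unfold fkW evn
    refine mul_nonneg ?_ (mul_nonneg (Finset.prod_nonneg fun e _ => (hx e).1)
      (Finset.prod_nonneg fun e _ => by linarith [(hx e).2]))
    refine Finset.sum_nonneg fun η _ => ?_
    split_ifs <;> norm_num
  refine mul_le_mul_of_nonneg_left ?_ hW
  show (if P ω then (1 : ℝ) else 0) ≤ if Q ω then 1 else 0
  by_cases h : P ω
  · rw [if_pos h, if_pos (hPQ ω (Finset.mem_powerset.mp hω) h)]
  · rw [if_neg h]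
    split_ifs <;> norm_num

private lemma aaF_reach_mono {ω ω' : Finset Edge} (h : ω ⊆ ω') {a b : Pt} (hr : Reach ω a b) :
    Reach ω' a b := by
  unfold Reach at hr ⊢
  refine Relation.ReflTransGen.mono ?_ _ _ hr
  rintro p q ⟨e, he, h'⟩
  exact ⟨e, h he, h'⟩

private lemma aaF_arm_mono {Λ Λ' : Finset Pt} {ω ω' : Finset Edge} (h : ω ⊆ ω')
    (hr : Arm Λ Λ' ω) : Arm Λ Λ' ω' := by
  obtain ⟨a, ha, b, hb, hab⟩ := hr
  exact ⟨a, ha, b, hb, aaF_reach_mono h hab⟩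

/-- Stop at the first corner outside. -/
private lemma aaF_first (ω : Finset Edge) (Λ : Finset Pt) (b : Pt) (hb : b ∉ Λ) {a : Pt}
    (hr : Reach ω a b) : a ∈ Λ → ∃ b', b' ∉ Λ ∧ Reach (ω ∩ EV Λ) a b' := by
  unfold Reach at hr
  induction hr using Relation.ReflTransGen.head_induction_on with
  | refl => intro h; exact absurd h hb
  | head h1 hr' ih =>
    rename_i p q
    intro hp
    obtain ⟨e, he, hpq⟩ := h1
    have heV : e ∈ EV Λ := by
      rw [aaF_mem_EV]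
      rcases hpq with ⟨h, _⟩ | ⟨_, h⟩
      · left; rw [h]; exact hp
      · right; rw [h]; exact hp
    have hstep : Reach (ω ∩ EV Λ) p q :=
      Relation.ReflTransGen.single ⟨e, Finset.mem_inter.mpr ⟨he, heV⟩, hpq⟩
    by_cases hq : q ∈ Λ
    · obtain ⟨b', h1, h2⟩ := ih hq
      exact ⟨b', h1, Relation.ReflTransGen.trans hstep h2⟩
    · exact ⟨q, hq, hstep⟩

private lemma aaF_adj_box {z : Pt} {k : ℕ} {e : Edge} {a c : Pt} (ha : a ∈ box z k)
    (h : (src e = a ∧ tgt e = c) ∨ (src e = c ∧ tgt e = a)) : c ∈ box z (k + 1) := by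
  obtain ⟨⟨p, q⟩, t⟩ := e
  rw [aaF_mem_box] at ha ⊢
  unfold src tgt at h
  rcases h with ⟨h1, h2⟩ | ⟨h1, h2⟩
  · subst h1
    subst h2
    push_cast
    cases t <;> simp <;> simp at ha <;> omega
  · subst h1
    subst h2
    push_cast
    cases t <;> simp <;> simp at ha <;> omega

/-- Start after the last corner in the box. -/
private lemma aaF_last (ω : Finset Edge) (z : Pt) (k : ℕ) (b : Pt) (hb : b ∉ box z k) {a : Pt}
    (hr : Reach ω a b) : (a ∉ box z k ∧ Reach (ω \ EV (box z k)) a b) ∨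
      ∃ a' ∈ box z (k + 1), Reach (ω \ EV (box z k)) a' b := by
  unfold Reach at hr
  induction hr using Relation.ReflTransGen.head_induction_on with
  | refl => exact Or.inl ⟨hb, Relation.ReflTransGen.refl⟩
  | head h1 hr' ih =>
    rename_i p q
    rcases ih with ⟨hq, hqb⟩ | h
    · obtain ⟨e, he, hpq⟩ := h1
      by_cases hp : p ∈ box z k
      · exact Or.inr ⟨q, aaF_adj_box hp hpq, hqb⟩
      · left
        refine ⟨hp, ?_⟩
        have heV : e ∉ EV (box z k) := by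
          rw [aaF_mem_EV]
          rintro (h | h)
          · rcases hpq with ⟨h1, _⟩ | ⟨h1, _⟩
            · rw [h1] at h; exact hp h
            · rw [h1] at h; exact hq h
          · rcases hpq with ⟨_, h1⟩ | ⟨_, h1⟩
            · rw [h1] at h; exact hq h
            · rw [h1] at h; exact hp h
        have hstep : Reach (ω \ EV (box z k)) p q :=
          Relation.ReflTransGen.single ⟨e, Finset.mem_sdiff.mpr ⟨he, heV⟩, hpq⟩
        exact Relation.ReflTransGen.trans hstep hqb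
    · exact Or.inr h

private lemma aaF_char (g : Pt → ZMod 2) : g + g = 0 := by
  funext v
  exact CharTwo.add_self_eq_zero _

private lemma aaF_bdy_apply (bd : Edge → Pt → ZMod 2) (η : Finset Edge) (v : Pt) :
    bdy bd η v = ∑ e ∈ η, bd e v := by
  unfold bdy
  rw [Finset.sum_apply]

private lemma aaF_ker {k N : ℕ} (hkN : k ≤ N) (η₁ η₂ : Finset Edge)
    (h1 : η₁ ⊆ EV (box 0 N) \ EV (box 0 k)) (h2 : η₂ ⊆ EV (box 0 k))
    (h : bdy (bdR (box 0 N)) (η₁ ∪ η₂) = 0) : bdy (bdR (box 0 k)) η₂ = 0 := by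
  classical
  funext v
  rw [aaF_bdy_apply]
  by_cases hv : v ∈ box 0 k
  · have hvN : v ∈ box 0 N := aaF_box_mono hkN hv
    have hd : Disjoint η₁ η₂ := by
      rw [Finset.disjoint_left]
      intro e he1 he2
      exact (Finset.mem_sdiff.mp (h1 he1)).2 (h2 he2)
    have h' := congrFun h v
    rw [aaF_bdy_apply, Finset.sum_union hd] at h'
    have hz : ∑ e ∈ η₁, bdR (box 0 N) e v = 0 := by
      refine Finset.sum_eq_zero fun e he => ?_
      have hne := (Finset.mem_sdiff.mp (h1 he)).2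
      rw [aaF_mem_EV, not_or] at hne
      unfold bdR
      rw [if_pos hvN]
      unfold bdV
      rw [Pi.add_apply, Pi.single_eq_of_ne, Pi.single_eq_of_ne, add_zero]
      · rintro rfl; exact hne.2 hv
      · rintro rfl; exact hne.1 hv
    rw [hz, zero_add] at h'
    have hc : ∑ e ∈ η₂, bdR (box 0 k) e v = ∑ e ∈ η₂, bdR (box 0 N) e v := by
      refine Finset.sum_congr rfl fun e _ => ?_
      unfold bdR
      rw [if_pos hv, if_pos hvN]
    rw [hc, h']
  · refine Finset.sum_eq_zero fun e _ => ?_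
    unfold bdR
    rw [if_neg hv]

end AaFactsAux

theorem aaFacts (h1 : MonoC) (h2 : Idents) (h3 : ProdDom) (h4 : StochDom) : AaFacts := by
  classical
  have part1 : ∀ n n' N N' : ℕ, n ≤ n' → n' ≤ N → N ≤ N' →
      0 ≤ aa n N' ∧ aa n N' ≤ aa n' N ∧ aa n N ≤ 1 := by
    intro n n' N N' hn _ hN
    have hsub : LF (box 0 N) \ LI (box 0 n') ⊆ LF (box 0 N') \ LI (box 0 n) :=
      Finset.sdiff_subset_sdiff (aaF_LF_mono (aaF_box_mono hN)) (aaF_LI_mono (aaF_box_mono hn))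
    have hA := h1 (LF (box 0 N') \ LI (box 0 n)) (LF (box 0 N) \ LI (box 0 n')) {0} {0} hsub
    have hB := h1 (LF (box 0 N) \ LI (box 0 n)) (LF (box 0 N) \ LI (box 0 n)) {0} {0}
      (Finset.Subset.refl _)
    rw [← aaF_aa, ← aaF_aa] at hA
    rw [← aaF_aa] at hB
    exact ⟨hA.1, hA.2.1, hB.2.2.1⟩
  refine ⟨part1, ?_⟩
  intro n k N hnk hkN
  have hkN' : k ≤ N := by omega
  set D₂ : Finset Edge := EV (box 0 k) with hD₂
  set D₁ : Finset Edge := EV (box 0 N) \ EV (box 0 k) with hD₁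
  have hsub : EV (box (0 : Pt) k) ⊆ EV (box 0 N) := aaF_EV_mono (aaF_box_mono hkN')
  have hU : D₁ ∪ D₂ = EV (box 0 N) := Finset.sdiff_union_of_subset hsub
  have hdisj : Disjoint D₁ D₂ := Finset.sdiff_disjoint
  let P₁ : Finset Edge → Prop := fun ω => Arm (box 0 (k + 1)) (box 0 N) (ω ∩ D₁)
  let P₂ : Finset Edge → Prop := fun ω => Arm (box 0 n) (box 0 k) (ω ∩ D₂)
  have hdep1 : DepOn D₁ P₁ := by
    intro ω
    show Arm _ _ (ω ∩ D₁) ↔ Arm _ _ (ω ∩ D₁ ∩ D₁)
    rw [Finset.inter_assoc, Finset.inter_self]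
  have hdep2 : DepOn D₂ P₂ := by
    intro ω
    show Arm _ _ (ω ∩ D₂) ↔ Arm _ _ (ω ∩ D₂ ∩ D₂)
    rw [Finset.inter_assoc, Finset.inter_self]
  have hinc2 : Incr D₂ P₂ := by
    intro ω ω' hω _ h
    exact aaF_arm_mono (Finset.inter_subset_inter_right hω) h
  have hinc1 : Incr (EV (box 0 N)) P₁ := by
    intro ω ω' hω _ h
    exact aaF_arm_mono (Finset.inter_subset_inter_right hω) h
  have hx : ∀ e, 0 ≤ xblk 0 n e ∧ xblk 0 n e ≤ 1 := fun e => aaF_xblk 0 n e
  have e0 : aa n N ≤ fkP (bdR (box 0 N)) (D₁ ∪ D₂) (xblk 0 n) (fun ω => P₁ ω ∧ P₂ ω) := by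
    rw [← h2.2.1 0 n N (by omega), hU]
    unfold fkB
    refine aaF_fkP_mono _ _ _ hx _ _ ?_
    intro ω hω hArm
    obtain ⟨a, ha, b, hb, hab⟩ := hArm
    have hak : a ∈ box (0 : Pt) k := aaF_box_mono hnk ha
    have hbk : b ∉ box (0 : Pt) k := fun h => hb (aaF_box_mono hkN' h)
    constructor
    · rcases aaF_last ω 0 k b hbk hab with ⟨h, _⟩ | ⟨a', ha', hr⟩
      · exact absurd hak h
      · refine ⟨a', ha', b, hb, aaF_reach_mono ?_ hr⟩
        intro e he
        rw [Finset.mem_sdiff] at he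
        exact Finset.mem_inter.mpr ⟨he.1, Finset.mem_sdiff.mpr ⟨hω he.1, he.2⟩⟩
    · obtain ⟨b', hb', hr⟩ := aaF_first ω (box 0 k) b hbk hab hak
      exact ⟨a, ha, b', hb', hr⟩
  have e1 := h3 Edge (Pt → ZMod 2) (Pt → ZMod 2) aaF_char aaF_char (bdR (box 0 N))
    (bdR (box 0 k)) D₁ D₂ (xblk 0 n) hdisj (fun e _ => (hx e).1) (fun e _ => (hx e).2)
    (fun η₁ hη₁ η₂ hη₂ h => aaF_ker hkN' η₁ η₂ hη₁ hη₂ h) P₁ P₂ hdep1 hdep2 hinc2
  have e2 : fkP (bdR (box 0 k)) D₂ (xblk 0 n) P₂ ≤ aa n k := by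
    rw [← h2.2.1 0 n k hnk]
    unfold fkB
    refine aaF_fkP_mono _ _ _ hx _ _ ?_
    intro ω _ h
    exact aaF_arm_mono Finset.inter_subset_left h
  have e3 : fkP (bdR (box 0 N)) (D₁ ∪ D₂) (xblk 0 n) P₁ ≤ aa (k + 1) N := by
    rw [hU, ← h2.2.1 0 (k + 1) N hkN]
    have e4 := h4 Edge (Pt → ZMod 2) (Pt → ZMod 2) aaF_char aaF_char (bdR (box 0 N))
      (bdR (box 0 N)) (EV (box 0 N)) (EV (box 0 N)) (xblk 0 n) (xblk 0 (k + 1))
      (Finset.Subset.refl _) (fun e _ => (hx e).1)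
      (fun e _ => aaF_xblk_mono 0 (by omega) e) (fun e _ => (aaF_xblk 0 (k + 1) e).1)
      (fun e _ => (aaF_xblk 0 (k + 1) e).2) (fun η _ h => h) P₁ hinc1
    refine le_trans e4 ?_
    unfold fkB
    refine aaF_fkP_mono _ _ _ (fun e => aaF_xblk 0 (k + 1) e) _ _ ?_
    intro ω _ h
    exact aaF_arm_mono Finset.inter_subset_left h
  have e5 : 0 ≤ fkP (bdR (box 0 k)) D₂ (xblk 0 n) P₂ := by
    have h0 := aaF_fkP_mono (bdR (box 0 k)) D₂ (xblk 0 n) hx (fun _ => False) P₂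
      (fun _ _ h => h.elim)
    refine le_trans ?_ h0
    unfold fkP fkE
    simp
  have p1 := (part1 (k + 1) (k + 1) N N (le_refl _) hkN (le_refl _)).1
  calc aa n N ≤ fkP (bdR (box 0 N)) (D₁ ∪ D₂) (xblk 0 n) (fun ω => P₁ ω ∧ P₂ ω) := e0
    _ ≤ fkP (bdR (box 0 N)) (D₁ ∪ D₂) (xblk 0 n) P₁ *
        fkP (bdR (box 0 k)) D₂ (xblk 0 n) P₂ := e1
    _ ≤ aa (k + 1) N * aa n k := mul_le_mul e3 e2 e5 p1
    _ = aa n k * aa (k + 1) N := mul_comm _ _

end Pool.Agent.Lib.MP_6d40c9_pr
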