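import Pool.Agent.Lib.MP_6d40c9_pr.SpecM

/-!
# AaKapS: the magnetization of a rigid block in a large box is bounded away from one
-/

set_option autoImplicit false

namespace Pool.Agent.Lib.MP_6d40c9_pr

open Finset MeasureTheory Filter Topology TopologicalSpace
open scoped BigOperators symmDiff

private lemma kap_xc_pos : 0 < xc := by
  unfold xc
  have h : (1 : ℝ) < Real.sqrt 2 := by
    rw [show (1 : ℝ) = Real.sqrt 1 from Real.sqrt_one.symm]
    exact Real.sqrt_lt_sqrt (by norm_num) (by norm_num)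
  linarith

private lemma kap_Zp_pos (D : Finset Edge) : 0 < Zp bdV D (fun _ => xc) 0 := by
  unfold Zp
  refine Finset.sum_pos' (fun η _ => ?_) ⟨∅, by simp, ?_⟩
  · split_ifs
    · exact Finset.prod_nonneg (fun _ _ => kap_xc_pos.le)
    · exact le_refl 0
  · simp [bdy]

private lemma kap_mono (D : Finset Edge) (g h : Finset Edge → ℝ)
    (H : ∀ η, η ⊆ D → Even' η → g η ≤ h η) : lE D g ≤ lE D h := by
  unfold lE lpE
  refine div_le_div_of_nonneg_right ?_ (kap_Zp_pos D).le
  refine Finset.sum_le_sum (fun η hη => ?_)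
  split_ifs with h0
  · exact mul_le_mul_of_nonneg_left (H η (Finset.mem_powerset.1 hη) h0)
      (Finset.prod_nonneg (fun _ _ => kap_xc_pos.le))
  · exact le_refl 0

private lemma kap_const (D : Finset Edge) (a : ℝ) : lE D (fun _ => a) = a := by
  unfold lE lpE
  rw [div_eq_iff (kap_Zp_pos D).ne']
  unfold Zp
  rw [Finset.mul_sum]
  refine Finset.sum_congr rfl (fun η _ => ?_)
  split_ifs
  · ring
  · ring

open Classical in
private lemma kap_lin (D : Finset Edge) (P : Finset Edge → Prop) :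
    lE D (fun w => 1 - 2 * (if P w then 1 else 0)) = 1 - 2 * lP D P := by
  unfold lP lpP lE lpE
  rw [div_eq_iff (kap_Zp_pos D).ne', sub_mul, mul_assoc, div_mul_cancel₀ _ (kap_Zp_pos D).ne']
  unfold Zp
  rw [one_mul, Finset.mul_sum, ← Finset.sum_sub_distrib]
  refine Finset.sum_congr rfl (fun η _ => ?_)
  by_cases h0 : bdy bdV η = 0
  · simp only [h0, if_true]
    ring
  · simp only [h0, if_false]
    ring

private lemma kap_sgn (w : Finset Edge) (u : Pt) [Decidable (Odd (cnt w u))] :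
    sgn w u = if Odd (cnt w u) then -1 else 1 := by
  unfold sgn
  split_ifs with h
  · exact h.neg_one_pow
  · exact (Nat.not_odd_iff_even.1 h).neg_one_pow

private lemma kap_mem_box (z : Pt) (n : ℕ) (u : Pt) :
    u ∈ box z n ↔ (z.1 - n ≤ u.1 ∧ u.1 ≤ z.1 + n) ∧ (z.2 - n ≤ u.2 ∧ u.2 ≤ z.2 + n) := by
  unfold box
  rw [Finset.mem_product, Finset.mem_Icc, Finset.mem_Icc]

private lemma kap_mem_LF (F : Finset Pt) (e : Edge) :
    e ∈ LF F ↔ ∃ u ∈ F, e = (u, false) ∨ e = (u, true) ∨ e = ((u.1, u.2 + 1), false) ∨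
      e = ((u.1 + 1, u.2), true) := by
  unfold LF
  rw [Finset.mem_biUnion]
  simp only [Finset.mem_insert, Finset.mem_singleton]

private lemma kap_ref {δ : ℝ} (hδ : 0 < δ) (x : ℝ × ℝ) :
    (δ * (ref δ x).1 ≤ x.1 ∧ x.1 < δ * ((ref δ x).1 + 1)) ∧
      (δ * (ref δ x).2 ≤ x.2 ∧ x.2 < δ * ((ref δ x).2 + 1)) := by
  unfold ref
  have key : ∀ t : ℝ, δ * (⌊t / δ⌋ : ℝ) ≤ t ∧ t < δ * ((⌊t / δ⌋ : ℝ) + 1) := by
    intro t
    have h1 := Int.floor_le (t / δ)
    have h2 := Int.lt_floor_add_one (t / δ)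
    rw [le_div_iff₀ hδ] at h1
    rw [div_lt_iff₀ hδ] at h2
    constructor
    · linarith
    · linarith
  exact ⟨key x.1, key x.2⟩

private lemma kap_dist_lt (p q : ℝ × ℝ) (r : ℝ) :
    dist p q < r ↔ |p.1 - q.1| < r ∧ |p.2 - q.2| < r := by
  rw [Prod.dist_eq, max_lt_iff, Real.dist_eq, Real.dist_eq]

private lemma kap_dist_le (p q : ℝ × ℝ) (r : ℝ) :
    dist p q ≤ r ↔ |p.1 - q.1| ≤ r ∧ |p.2 - q.2| ≤ r := by
  rw [Prod.dist_eq, max_le_iff, Real.dist_eq, Real.dist_eq]

private lemma kap_seg_mem (δ : ℝ) (hδ : 0 < δ) (e : Edge) :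
    ((δ * (src e).1, δ * (src e).2) : ℝ × ℝ) ∈ seg δ e := by
  obtain ⟨⟨i, j⟩, b⟩ := e
  cases b
  · simp only [seg, src, tgt, Set.mem_setOf_eq]
    refine ⟨le_refl _, ?_, le_refl _, ?_⟩
    · simp only [Bool.false_eq_true, if_false]
      push_cast
      nlinarith
    · simp
  · simp only [seg, src, tgt, Set.mem_setOf_eq]
    refine ⟨le_refl _, ?_, le_refl _, ?_⟩
    · simp
    · simp only [if_true]
      push_cast
      nlinarith

/-- An edge whose segment comes close to `x` is a side of a face of the box. -/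
private lemma kap_in {δ : ℝ} (hδ : 0 < δ) (x : ℝ × ℝ) (n : ℕ) (e : Edge) (p : ℝ × ℝ)
    (hp : p ∈ seg δ e) (hd : dist x p < δ * n) : e ∈ LF (box (ref δ x) n) := by
  obtain ⟨⟨h1, h2⟩, h3, h4⟩ := kap_ref hδ x
  rw [kap_dist_lt, abs_lt, abs_lt] at hd
  obtain ⟨⟨a1, a2⟩, a3, a4⟩ := hd
  set u := ref δ x with hu
  obtain ⟨⟨i, j⟩, b⟩ := e
  have key : ∀ s t : ℤ, δ * (s : ℝ) < δ * (t : ℝ) → s < t := by
    intro s t h
    have := lt_of_mul_lt_mul_left h hδ.le
    exact_mod_cast this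
  rw [kap_mem_LF]
  refine ⟨(i, j), ?_, ?_⟩
  · rw [kap_mem_box]
    cases b
    · simp only [seg, src, tgt, Set.mem_setOf_eq, Bool.false_eq_true, if_false] at hp
      push_cast at hp
      obtain ⟨b1, b2, b3, b4⟩ := hp
      have k1 : u.1 - n < i + 1 := key _ _ (by push_cast; linarith)
      have k2 : i < u.1 + n + 1 := key _ _ (by push_cast; linarith)
      have k3 : u.2 - n < j := key _ _ (by push_cast; linarith)
      have k4 : j < u.2 + n + 1 := key _ _ (by push_cast; linarith)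
      simp only
      omega
    · simp only [seg, src, tgt, Set.mem_setOf_eq, if_true] at hp
      push_cast at hp
      obtain ⟨b1, b2, b3, b4⟩ := hp
      have k1 : u.1 - n < i := key _ _ (by push_cast; linarith)
      have k2 : i < u.1 + n + 1 := key _ _ (by push_cast; linarith)
      have k3 : u.2 - n < j + 1 := key _ _ (by push_cast; linarith)
      have k4 : j < u.2 + n + 1 := key _ _ (by push_cast; linarith)
      simp only
      omega
  · cases b
    · left; rfl
    · right; left; rfl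

/-- The first corner of a side of a face of the box is not far from `x`. -/
private lemma kap_out {δ : ℝ} (hδ : 0 < δ) (x : ℝ × ℝ) (n : ℕ) (e : Edge)
    (he : e ∈ LF (box (ref δ x) n)) :
    dist x ((δ * (src e).1, δ * (src e).2) : ℝ × ℝ) ≤ δ * (n + 1) := by
  obtain ⟨⟨h1, h2⟩, h3, h4⟩ := kap_ref hδ x
  rw [kap_mem_LF] at he
  obtain ⟨v, hv, he⟩ := he
  rw [kap_mem_box] at hv
  set u := ref δ x with hu
  have key : ∀ s t : ℤ, s ≤ t → δ * (s : ℝ) ≤ δ * (t : ℝ) := by
    intro s t h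
    exact mul_le_mul_of_nonneg_left (by exact_mod_cast h) hδ.le
  have hc : u.1 - n ≤ (src e).1 ∧ (src e).1 ≤ u.1 + n + 1 ∧ u.2 - n ≤ (src e).2 ∧
      (src e).2 ≤ u.2 + n + 1 := by
    unfold src
    rcases he with rfl | rfl | rfl | rfl <;> simp only <;> omega
  obtain ⟨c1', c2', c3', c4'⟩ := hc
  have d1 := key _ _ c1'
  have d2 := key _ _ c2'
  have d3 := key _ _ c3'
  have d4 := key _ _ c4'
  push_cast at d1 d2 d3 d4
  rw [kap_dist_le, abs_le, abs_le]
  refine ⟨⟨?_, ?_⟩, ?_, ?_⟩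
  · simp only; linarith
  · simp only; linarith
  · simp only; linarith
  · simp only; linarith

private lemma kap_K1_mem {δ : ℝ} {k : Finset Edge} {e : Edge} (he : e ∈ k) {p : ℝ × ℝ}
    (hp : p ∈ seg δ e) : p ∈ K1 δ k := by
  unfold K1
  rw [Set.mem_iUnion₂]
  exact ⟨e, he, hp⟩

/-- The faces contained in a bounded set lie in a box. -/
private lemma kap_faces {Ω : Set (ℝ × ℝ)} {A δ : ℝ} (hδ : 0 < δ) (x : ℝ × ℝ) (N : ℕ)
    (hA : Ω ⊆ Metric.closedBall 0 A) (hN : A + ‖x‖ + δ ≤ δ * N) :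
    faces Ω δ ⊆ box (ref δ x) N := by
  intro u hu
  have hu' : cell δ u ⊆ Ω := by
    unfold faces at hu
    split_ifs at hu with h
    · rw [Set.Finite.mem_toFinset] at hu
      exact hu
    · simp at hu
  have hp : ((δ * u.1, δ * u.2) : ℝ × ℝ) ∈ cell δ u := by
    simp only [cell, Set.mem_setOf_eq]
    refine ⟨le_refl _, ?_, le_refl _, ?_⟩ <;> nlinarith
  have hb := hA (hu' hp)
  rw [Metric.mem_closedBall, kap_dist_le] at hb
  simp only [Prod.fst_zero, Prod.snd_zero, sub_zero] at hb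
  obtain ⟨b1, b2⟩ := hb
  rw [abs_le] at b1 b2
  obtain ⟨⟨h1, h2⟩, h3, h4⟩ := kap_ref hδ x
  have n1 : |x.1| ≤ ‖x‖ := by
    rw [← Real.norm_eq_abs]
    exact norm_fst_le x
  have n2 : |x.2| ≤ ‖x‖ := by
    rw [← Real.norm_eq_abs]
    exact norm_snd_le x
  rw [abs_le] at n1 n2
  have key : ∀ s t : ℤ, δ * (s : ℝ) ≤ δ * (t : ℝ) → s ≤ t := by
    intro s t h
    have := le_of_mul_le_mul_left h hδ
    exact_mod_cast this
  rw [kap_mem_box]
  set v := ref δ x with hv
  refine ⟨⟨?_, ?_⟩, ?_, ?_⟩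
  · apply key
    push_cast
    linarith [n1.1, n1.2, b1.1, b1.2]
  · apply key
    push_cast
    linarith [n1.1, n1.2, b1.1, b1.2]
  · apply key
    push_cast
    linarith [n2.1, n2.2, b2.1, b2.2]
  · apply key
    push_cast
    linarith [n2.1, n2.2, b2.1, b2.2]

private lemma kap_LF_mono {F F' : Finset Pt} (h : F ⊆ F') : LF F ⊆ LF F' := by
  unfold LF
  exact Finset.biUnion_subset_biUnion_of_subset_left _ h

open Classical in
private lemma kap_rest {D V : Finset Edge} {T : Edge → Prop} {e : Edge} (he : e ∈ rest D V T) :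
    e ∈ D ∧ ¬ T e := by
  unfold rest at he
  rw [Finset.mem_filter] at he
  exact ⟨he.1, he.2.1⟩

private lemma kap_comps_cnt (h2 : CompFacts) (T : Edge → Prop) (w : Finset Edge) (u : Pt)
    (Q : Finset Edge → Prop) [DecidablePred Q]
    (hQ : ∀ k ∈ comps w, (Q k ↔ (∀ a ∈ k, ¬ T a) ∧ Odd (cnt k u)))
    (hodd : Odd ((comps w).filter Q).card) : sgn (w \ tc T w) u = -1 := by
  classical
  rw [h2.2.2.1]
  have h5 := (h2.2.2.2.1 T w).2.2.2.2.2
  rw [Finset.prod_congr rfl (fun k _ => kap_sgn k u), Finset.prod_ite, Finset.prod_const,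
    Finset.prod_const_one, mul_one]
  have h6 : (comps (w \ tc T w)).filter (fun k => Odd (cnt k u)) = (comps w).filter Q := by
    ext k
    rw [Finset.mem_filter, Finset.mem_filter]
    rw [h5 k]
    constructor
    · rintro ⟨⟨a, b⟩, c⟩
      exact ⟨a, (hQ k a).2 ⟨b, c⟩⟩
    · rintro ⟨a, b⟩
      exact ⟨⟨a, ((hQ k a).1 b).1⟩, ((hQ k a).1 b).2⟩
  rw [h6]
  exact hodd.neg_one_pow

theorem aaKapS (h0 : GridFacts) (h1 : MonoC) (h2 : CompFacts) (h3 : Markov) (h4 : Transl) :
    AaKapS := by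
  classical
  intro Ω hΩ hin
  obtain ⟨z₀, r₀, l, c, δ₀, hl, hlr, hc, hδ₀, H⟩ := hin
  have hr : 0 < r₀ := hl.trans hlr
  obtain ⟨A, hA⟩ := hΩ.subset_closedBall 0
  obtain ⟨R₀, hR₀⟩ := exists_nat_ge (2 * (|A| + ‖z₀‖) / r₀)
  obtain ⟨n₁, hn₁⟩ := exists_nat_gt (r₀ / δ₀)
  obtain ⟨n₂, hn₂⟩ := exists_nat_gt (r₀ / l)
  refine ⟨R₀ + 1, max 1 (max n₁ n₂), 1 - 2 * c, by linarith, ?_⟩
  intro n hn
  have hn1 : 1 ≤ n := (le_max_left _ _).trans hn
  have hnn₁ : n₁ ≤ n := (le_max_left _ _).trans ((le_max_right _ _).trans hn)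
  have hnn₂ : n₂ ≤ n := (le_max_right _ _).trans ((le_max_right _ _).trans hn)
  have hn1' : (1 : ℝ) ≤ n := by exact_mod_cast hn1
  have hnn₁' : (n₁ : ℝ) ≤ n := by exact_mod_cast hnn₁
  have hnn₂' : (n₂ : ℝ) ≤ n := by exact_mod_cast hnn₂
  set δ : ℝ := r₀ / (n + 1) with hδdef
  have hpos : (0 : ℝ) < n + 1 := by positivity
  have hδ : 0 < δ := div_pos hr hpos
  have hδn : δ * (n + 1) = r₀ := by
    rw [hδdef]
    field_simp
  have hδlt : δ < δ₀ := by
    rw [hδdef, div_lt_iff₀ hpos]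
    rw [div_lt_iff₀ hδ₀] at hn₁
    nlinarith
  have hδl : δ < l := by
    rw [hδdef, div_lt_iff₀ hpos]
    rw [div_lt_iff₀ hl] at hn₂
    nlinarith
  have Hδ := H δ hδ hδlt
  set u₀ : Pt := ref δ z₀ with hu₀
  set D : Finset Edge := DD Ω δ with hD
  set T : Edge → Prop := fun e => e ∈ LF (box u₀ n) with hT
  set N : ℕ := (R₀ + 1) * n with hN
  -- the faces are in the box
  have hfaces : faces Ω δ ⊆ box u₀ N := by
    refine kap_faces hδ z₀ N (hA.trans (Metric.closedBall_subset_closedBall (le_abs_self A))) ?_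
    rw [hN]
    push_cast
    rw [div_le_iff₀ hr] at hR₀
    have hA0 : 0 ≤ |A| + ‖z₀‖ := by positivity
    have e1 : δ * n ≥ r₀ / 2 := by
      have : δ * n * 2 ≥ δ * (n + 1) := by nlinarith
      linarith
    have e2 : 2 * (|A| + ‖z₀‖) ≤ (R₀ : ℝ) * (2 * (δ * n)) := by
      refine hR₀.trans ?_
      refine mul_le_mul_of_nonneg_left ?_ (Nat.cast_nonneg _)
      linarith
    nlinarith
  have hDsub : D ⊆ LF (box u₀ N) := by
    rw [hD]
    unfold DD
    exact kap_LF_mono hfaces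
  -- lower bound
  have hlow : aa n N ≤ lE D (fun w => sgn (w \ tc T w) u₀) := by
    have hm := h3.2 D T (fun _ w' => sgn w' u₀)
    have hm' : lE D (fun w => sgn (w \ tc T w) u₀) =
        lE D (fun w => lE (rest D (tc T w) T) (fun w' => sgn w' u₀)) := by
      convert hm using 2
    rw [hm']
    rw [← kap_const D (aa n N)]
    refine kap_mono D _ _ (fun η _ _ => ?_)
    rw [← (h4.2.2.1 u₀ n N).1]
    have hs : ∀ E : Finset Edge, c1 E u₀ = lE E (sgs {u₀}) := by
      intro E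
      unfold c1 sgs
      simp only [Finset.prod_singleton]
    have hsub : rest D (tc T η) T ⊆ LF (box u₀ N) \ LI (box u₀ n) := by
      intro e he
      have he' := kap_rest he
      rw [Finset.mem_sdiff]
      refine ⟨hDsub he'.1, fun hLI => he'.2 ?_⟩
      unfold LI at hLI
      exact (Finset.mem_filter.1 hLI).1
    have hmon := (h1 (LF (box u₀ N) \ LI (box u₀ n)) (rest D (tc T η) T) {u₀} {u₀} hsub).2.1
    rw [← hs, ← hs] at hmon
    exact hmon
  -- upper bound
  have hup : lE D (fun w => sgn (w \ tc T w) u₀) ≤ 1 - 2 * c := by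
    refine le_trans ?_ (sub_le_sub_left (mul_le_mul_of_nonneg_left Hδ (by norm_num)) 1)
    rw [← kap_lin]
    refine kap_mono D _ _ (fun η _ hη => ?_)
    split_ifs with hP
    · obtain ⟨ho, hall⟩ := hP
      have := kap_comps_cnt h2 T η u₀
        (fun k => r₀ + l ≤ Metric.infDist z₀ (K1 δ k) ∧ Odd (cnt k (ref δ z₀))) ?_ ?_
      · rw [this]; norm_num
      · intro k hk
        have hkne : k.Nonempty := ((h2.1 η).1 k hk).2.1
        constructor
        · rintro ⟨hk1, hk2⟩
          refine ⟨fun a ha hTa => ?_, hk2⟩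
          have hd := kap_out hδ z₀ n a hTa
          have hi := Metric.infDist_le_dist_of_mem (x := z₀)
            (kap_K1_mem (δ := δ) ha (kap_seg_mem δ hδ a))
          rw [hδn] at hd
          linarith
        · rintro ⟨hk1, hk2⟩
          refine ⟨?_, hk2⟩
          rcases hall k hk hk2 with h | h
          · exfalso
            have hne : (K1 δ k).Nonempty := by
              obtain ⟨a, ha⟩ := hkne
              exact ⟨_, kap_K1_mem ha (kap_seg_mem δ hδ a)⟩
            have hlt : Metric.infDist z₀ (K1 δ k) < δ * n := by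
              have : δ * n = r₀ - δ := by linarith
              rw [this]
              linarith
            rw [Metric.infDist_lt_iff hne] at hlt
            obtain ⟨p, hp, hpd⟩ := hlt
            unfold K1 at hp
            rw [Set.mem_iUnion₂] at hp
            obtain ⟨e, he, hpe⟩ := hp
            exact hk1 e he (kap_in hδ z₀ n e p hpe hpd)
          · exact h
      · convert ho using 2
    · have : sgn (η \ tc T η) u₀ ≤ 1 := by
        rw [kap_sgn]
        split_ifs <;> norm_num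
      linarith
  exact hlow.trans hup

end Pool.Agent.Lib.MP_6d40c9_pr
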