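import Pool.Agent.Lib.MP_6d40c9_pr.SpecM

/-!
# AaZeroS: the one arm magnetizations of rigid blocks tend to zero
-/

set_option autoImplicit false

namespace Pool.Agent.Lib.MP_6d40c9_pr

open Finset
open scoped BigOperators symmDiff

private lemma aaZeroS_empty : c1 ∅ 0 = 1 := by
  unfold c1 lE lpE Zp
  simp [bdy, sgn, cnt]

private lemma aaZeroS_sub (n : ℕ) (hn : 1 ≤ n) : LF (box 0 0) \ LI (box 0 n) = ∅ := by
  rw [Finset.sdiff_eq_empty_iff_subset]
  intro e he
  unfold LF at he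
  rw [Finset.mem_biUnion] at he
  obtain ⟨u, hu, he⟩ := he
  have hu0 : u = (0, 0) := by
    unfold box at hu
    rw [Finset.mem_product, Finset.mem_Icc, Finset.mem_Icc] at hu
    simp only [Prod.fst_zero, Prod.snd_zero] at hu
    ext
    · simp only [] at *; omega
    · simp only [] at *; omega
  subst hu0
  have hb : ∀ a b : ℤ, -1 ≤ a → a ≤ 1 → -1 ≤ b → b ≤ 1 → ((a, b) : Pt) ∈ box 0 n := by
    intro a b h1 h2 h3 h4
    unfold box
    rw [Finset.mem_product, Finset.mem_Icc, Finset.mem_Icc]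
    simp only [Prod.fst_zero, Prod.snd_zero]
    omega
  have hLF : e ∈ LF (box 0 n) := by
    unfold LF
    rw [Finset.mem_biUnion]
    exact ⟨(0, 0), hb 0 0 (by norm_num) (by norm_num) (by norm_num) (by norm_num), he⟩
  unfold LI
  rw [Finset.mem_filter]
  refine ⟨hLF, ?_⟩
  simp only [Finset.mem_insert, Finset.mem_singleton] at he
  rcases he with rfl | rfl | rfl | rfl
  · exact ⟨hb 0 0 (by norm_num) (by norm_num) (by norm_num) (by norm_num),
      hb 0 (0 - 1) (by norm_num) (by norm_num) (by norm_num) (by norm_num)⟩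
  · exact ⟨hb 0 0 (by norm_num) (by norm_num) (by norm_num) (by norm_num),
      hb (0 - 1) 0 (by norm_num) (by norm_num) (by norm_num) (by norm_num)⟩
  · exact ⟨hb 0 (0 + 1) (by norm_num) (by norm_num) (by norm_num) (by norm_num),
      hb 0 (0 + 1 - 1) (by norm_num) (by norm_num) (by norm_num) (by norm_num)⟩
  · exact ⟨hb (0 + 1) 0 (by norm_num) (by norm_num) (by norm_num) (by norm_num),
      hb (0 + 1 - 1) 0 (by norm_num) (by norm_num) (by norm_num) (by norm_num)⟩

private lemma aaZeroS_one (n : ℕ) (hn : 1 ≤ n) : aa n 0 = 1 := by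
  unfold aa
  rw [aaZeroS_sub n hn, aaZeroS_empty]

private lemma aaZeroS_step (h : AaFacts) (R n₀ : ℕ) (κ : ℝ) (hR : 1 ≤ R) (hκ0 : 0 ≤ κ)
    (hn₀ : 1 ≤ n₀) (hk : ∀ n, n₀ ≤ n → aa n (R * n) ≤ κ) (j : ℕ) :
    ∀ n N : ℕ, n₀ ≤ n → (R + 1) ^ j * n ≤ N → aa n N ≤ κ ^ j := by
  induction j with
  | zero =>
    intro n N hn hN
    rw [pow_zero, one_mul] at hN
    rw [pow_zero]
    exact (h.1 n n N N le_rfl hN le_rfl).2.2
  | succ j ih =>
    intro n N hn hN
    have hn1 : 1 ≤ n := hn₀.trans hn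
    have hRn : n ≤ R * n := Nat.le_mul_of_pos_left n hR
    have hp : 1 ≤ (R + 1) ^ j := Nat.one_le_pow _ _ (by omega)
    have h1 : (R + 1) ^ j * (R * n + 1) ≤ N := by
      calc (R + 1) ^ j * (R * n + 1) ≤ (R + 1) ^ j * ((R + 1) * n) := by
            apply Nat.mul_le_mul_left
            nlinarith
        _ = (R + 1) ^ (j + 1) * n := by ring
        _ ≤ N := hN
    have h2 : R * n + 1 ≤ N := (Nat.le_mul_of_pos_left _ hp).trans h1
    have h3 := h.2 n (R * n) N hRn h2
    have h4 := ih (R * n + 1) N (by omega) h1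
    have h5 : aa n (R * n) ≤ κ := hk n hn
    have h6 : 0 ≤ aa (R * n + 1) N := (h.1 _ _ N N le_rfl h2 le_rfl).1
    calc aa n N ≤ aa n (R * n) * aa (R * n + 1) N := h3
      _ ≤ κ * κ ^ j := mul_le_mul h5 h4 h6 hκ0
      _ = κ ^ (j + 1) := by ring

/-- The one arm magnetizations tend to zero if they are bounded away from one at some ratio. -/
theorem aaZeroS (h : AaFacts) : AaZeroS := by
  rintro ⟨R, n₀, κ, hκ, hk⟩
  intro ε hε
  rcases Nat.eq_zero_or_pos R with hR | hR
  · exfalso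
    have h1 := hk (max n₀ 1) (le_max_left _ _)
    rw [hR, zero_mul, aaZeroS_one _ (le_max_right _ _)] at h1
    linarith
  · obtain ⟨j, hj⟩ := exists_pow_lt_of_lt_one hε (max_lt hκ one_pos)
    refine ⟨(R + 1) ^ j, max n₀ 1, ?_⟩
    intro n N hn hN
    refine (aaZeroS_step h R (max n₀ 1) (max κ 0) hR (le_max_right _ _) (le_max_right _ _)
      (fun m hm => (hk m ((le_max_left _ _).trans hm)).trans (le_max_left _ _)) j n N hn hN).trans
      hj.le

end Pool.Agent.Lib.MP_6d40c9_pr
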