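import Pool.Agent.Lib.MP_6d40c9_pr.SpecL

/-!
# MP_6d40c9_pr: choice of generic parameters (`ApproxS`)
-/

set_option autoImplicit false

namespace Pool.Agent.Lib.MP_6d40c9_pr

open Finset MeasureTheory Filter Topology TopologicalSpace Metric
open scoped BigOperators

/-- an interval is not contained in a countable set -/
theorem approxS_pick {C : Set ℝ} (hC : C.Countable) {a b : ℝ} (hab : a < b) :
    ∃ t, a < t ∧ t < b ∧ t ∉ C := by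
  obtain ⟨t, ht, h1, h2⟩ := (hC.dense_compl ℝ).exists_between hab
  exact ⟨t, h1, h2, ht⟩

/-- a value which is generic for finitely many functions -/
theorem approxS_gen (h2 : GenS) {X : Type} [MeasurableSpace X] (P : Measure X)
    [IsProbabilityMeasure P] (Ω : Set (ℝ × ℝ)) (σ : (ℝ × ℝ → ℝ) → X → ℝ)
    (Γ : X → Set (NonemptyCompacts (ℝ × ℝ))) (hL : Lim Ω P σ Γ) {I : Type} (s : Finset I)
    (F : I → NonemptyCompacts (ℝ × ℝ) → ℝ) (hF : ∀ i, Continuous (F i)) {a b : ℝ} (hab : a < b) :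
    ∃ t, a < t ∧ t < b ∧ ∀ i ∈ s, ∀ᵐ ω ∂P, ∀ K ∈ Γ ω, 0 < diam (K : Set (ℝ × ℝ)) → F i K ≠ t := by
  have hC : (⋃ i ∈ s, {t : ℝ | ¬ ∀ᵐ ω ∂P, ∀ K ∈ Γ ω, 0 < diam (K : Set (ℝ × ℝ)) →
      F i K ≠ t}).Countable :=
    Set.Countable.biUnion (Finset.countable_toSet s) (fun i _ => h2 X P Ω σ Γ hL (F i) (hF i))
  obtain ⟨t, h3, h4, h5⟩ := approxS_pick hC hab
  refine ⟨t, h3, h4, fun i hi => ?_⟩
  by_contra hcon
  exact h5 (Set.mem_biUnion hi hcon)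

theorem approxS_lP {D : Finset Edge} {Q Q' : Finset Edge → Prop}
    (h : ∀ w, Even' w → (Q w ↔ Q' w)) : lP D Q = lP D Q' := by
  unfold lP lpP lpE
  congr 1
  apply Finset.sum_congr rfl
  intro w _
  by_cases hw : bdy bdV w = 0
  · rw [if_pos hw, if_pos hw]
    beta_reduce
    by_cases hq : Q w
    · rw [if_pos hq, if_pos ((h w hw).1 hq)]
    · rw [if_neg hq, if_neg (fun h' => hq ((h w hw).2 h'))]
  · rw [if_neg hw, if_neg hw]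

theorem approxS_inE1 (h3 : InGenS) (h5 : StatFacts) {X : Type} [MeasurableSpace X] (P : Measure X)
    [IsProbabilityMeasure P] (Ω : Set (ℝ × ℝ)) (σ : (ℝ × ℝ → ℝ) → X → ℝ)
    (Γ : X → Set (NonemptyCompacts (ℝ × ℝ))) (hL : Lim Ω P σ Γ) (x : ℝ × ℝ) (R : ℝ)
    (hR : ∀ᵐ ω ∂P, ∀ K ∈ Γ ω, 0 < diam (K : Set (ℝ × ℝ)) → infDist x (K : Set (ℝ × ℝ)) ≠ R) :
    InE1 Ω x R := by
  intro d hd ε hε
  obtain ⟨l, hl, δ₀, hδ₀, H⟩ := h3 X P Ω σ Γ hL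
    (fun K : NonemptyCompacts (ℝ × ℝ) => infDist x (K : Set (ℝ × ℝ))) R (h5.1.1 x) hR d hd ε hε
  refine ⟨l, hl, δ₀, hδ₀, fun δ hδ hδ' => ?_⟩
  refine le_trans (le_of_eq ?_) (H δ hδ hδ')
  apply approxS_lP
  intro w hw
  unfold E1
  constructor
  · rintro ⟨c, hc, hc1, hc2⟩
    refine ⟨c, hc, hc1, ?_⟩
    rw [(h5.2.2.2.2 δ w hδ hw c hc).1]
    exact hc2
  · rintro ⟨c, hc, hc1, hc2⟩
    refine ⟨c, hc, hc1, ?_⟩
    rw [(h5.2.2.2.2 δ w hδ hw c hc).1] at hc2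
    exact hc2

theorem approxS (h1 : PFinS) (h2 : GenS) (h3 : InGenS) (h4 : InE2S) (h5 : StatFacts) (h6 : SfBdS)
    (h7 : T4S) (h8 : MeasS) : ApproxS := by
  intro hM hW X _ P _ Ω σ Γ δs hL hδpos hδlim hLJ f hf ε hε
  obtain ⟨A, hA, hΩ⟩ := hL.bdd.subset_closedBall_lt 0 0
  have hE2 : InE2 Ω := h4 X P Ω σ Γ hL
  obtain ⟨r₀, hr₀, Hr⟩ := h1 hM hW Ω A f hL.op hL.conn hA hΩ hf hE2 ε hε
  set r := r₀ / 2 with hrdef
  have hr : 0 < r := by positivity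
  obtain ⟨R, hR1, hR2, hR3⟩ := approxS_gen h2 P Ω σ Γ hL (Ix A r)
    (fun b K => infDist (cen r b) (K : Set (ℝ × ℝ))) (fun b => h5.1.1 _)
    (show 5 / 8 * r < 3 / 4 * r by linarith)
  have hE1 : ∀ b ∈ Ix A r, InE1 Ω (cen r b) R :=
    fun b hb => approxS_inE1 h3 h5 P Ω σ Γ hL _ _ (hR3 b hb)
  obtain ⟨κ₀, hκ₀, Hκ⟩ := Hr r hr (by linarith) R hR1 hR2 hE1
  obtain ⟨κ, hκ1, hκ2, hκ3⟩ := approxS_gen h2 P Ω σ Γ hL ({()} : Finset Unit)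
    (fun _ K => diam (K : Set (ℝ × ℝ))) (fun _ => h5.1.2)
    (show 0 < min κ₀ (r / 8) from lt_min hκ₀ (by positivity))
  obtain ⟨η₀, hη₀, Hη⟩ := Hκ κ hκ1 (lt_of_lt_of_le hκ2 (min_le_left _ _))
  set η := η₀ / 2 with hηdef
  have hη : 0 < η := by positivity
  obtain ⟨S, hS1, hS2, hS3⟩ := approxS_gen h2 P Ω σ Γ hL (Ix A η)
    (fun b K => infDist (cen η b) (K : Set (ℝ × ℝ))) (fun b => h5.1.1 _)
    (show η / 2 < η by linarith)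
  obtain ⟨δ₀, hδ₀, Hδ⟩ := Hη η hη (by linarith) S hS1 hS2
  obtain ⟨C, δ₁, hδ₁, HC⟩ := h6 hM Ω hL.op hL.bdd hL.conn f hf
  have hgood : (Par.mk Ω A r R κ η S).Good :=
    ⟨hr, hA, hR1, hR2, hκ1, (lt_of_lt_of_le hκ2 (min_le_right _ _)).le, hη, hS1, hS2, hΩ⟩
  have hgen : GenP (Par.mk Ω A r R κ η S) P Γ :=
    ⟨hR3, hS3, hκ3 () (Finset.mem_singleton_self _)⟩
  have hev0 : ∀ᶠ k in atTop, δs k < δ₀ := hδlim.eventually (gt_mem_nhds hδ₀)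
  have hev1 : ∀ᶠ k in atTop, δs k < δ₁ := hδlim.eventually (gt_mem_nhds hδ₁)
  obtain ⟨h, hh⟩ := h7 X P (Par.mk Ω A r R κ η S) σ Γ δs hgood hL hgen hδpos hδlim hLJ f hf C ε hε
    (by filter_upwards [hev1] with k hk using HC (δs k) (hδpos k) hk)
    (by filter_upwards [hev0] with k hk using Hδ (δs k) (hδpos k) hk)
  obtain ⟨Y, hY, hYe⟩ := h8 X P (Par.mk Ω A r R κ η S) σ Γ hgood hL hgen h
  refine ⟨Y, hY, le_trans (le_of_eq ?_) hh⟩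
  apply lintegral_congr_ae
  filter_upwards [hYe] with ω hω
  rw [← hω]

end Pool.Agent.Lib.MP_6d40c9_pr
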