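import Pool.Agent.Lib.MP_6d40c9_pr.SpecM

/-!
# Lower bound for an arm in a large wired box
-/

set_option autoImplicit false

namespace Pool.Agent.Lib.MP_6d40c9_pr

open Finset
open scoped BigOperators symmDiff

/-! ### Elementary facts about the grid -/

private theorem armLow_two (g : Pt → ZMod 2) : g + g = 0 := by
  funext v
  exact CharTwo.add_self_eq_zero (g v)

private theorem armLow_xc : 0 ≤ xc ∧ xc ≤ 1 := by
  unfold xc
  have h1 : (1 : ℝ) ≤ Real.sqrt 2 := by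
    rw [Real.le_sqrt (by norm_num) (by norm_num)]; norm_num
  have h2 : Real.sqrt 2 ≤ 2 := by
    rw [Real.sqrt_le_left (by norm_num)]; norm_num
  constructor <;> linarith

private theorem armLow_mem_LF (F : Finset Pt) (e : Edge) : e ∈ LF F ↔ fa e ∈ F ∨ fb e ∈ F := by
  obtain ⟨⟨i, j⟩, b⟩ := e
  simp only [LF, mem_biUnion, mem_insert, mem_singleton]
  cases b
  · simp only [Prod.mk.injEq, fa, fb]
    constructor
    · rintro ⟨⟨a, c⟩, hu, h | h | h | h⟩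
      · left; rw [h.1]; exact hu
      · simp at h
      · right
        simp only at h ⊢
        obtain ⟨⟨h1, h2⟩, -⟩ := h
        subst h1 h2
        simpa using hu
      · simp at h
    · rintro (h | h)
      · exact ⟨_, h, Or.inl ⟨rfl, trivial⟩⟩
      · refine ⟨_, h, Or.inr (Or.inr (Or.inl ?_))⟩
        simp
  · simp only [Prod.mk.injEq, fa, fb]
    constructor
    · rintro ⟨⟨a, c⟩, hu, h | h | h | h⟩
      · simp at h
      · left; rw [h.1]; exact hu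
      · simp at h
      · right
        simp only at h ⊢
        obtain ⟨⟨h1, h2⟩, -⟩ := h
        subst h1 h2
        simpa using hu
    · rintro (h | h)
      · exact ⟨_, h, Or.inr (Or.inl ⟨rfl, trivial⟩)⟩
      · refine ⟨_, h, Or.inr (Or.inr (Or.inr ?_))⟩
        simp

private theorem armLow_mem_EV (F : Finset Pt) (e : Edge) : e ∈ EV F ↔ src e ∈ F ∨ tgt e ∈ F := by
  obtain ⟨⟨i, j⟩, b⟩ := e
  simp only [EV, mem_biUnion, mem_insert, mem_singleton]
  cases b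
  · simp only [Prod.mk.injEq, src, tgt]
    constructor
    · rintro ⟨⟨a, c⟩, hu, h | h | h | h⟩
      · left; rw [h.1]; exact hu
      · simp at h
      · right
        simp only at h ⊢
        obtain ⟨⟨h1, h2⟩, -⟩ := h
        subst h1 h2
        simpa using hu
      · simp at h
    · rintro (h | h)
      · exact ⟨_, h, Or.inl ⟨rfl, trivial⟩⟩
      · refine ⟨_, h, Or.inr (Or.inr (Or.inl ?_))⟩
        simp
  · simp only [Prod.mk.injEq, src, tgt]
    constructor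
    · rintro ⟨⟨a, c⟩, hu, h | h | h | h⟩
      · simp at h
      · left; rw [h.1]; exact hu
      · simp at h
      · right
        simp only at h ⊢
        obtain ⟨⟨h1, h2⟩, -⟩ := h
        subst h1 h2
        simpa using hu
    · rintro (h | h)
      · exact ⟨_, h, Or.inr (Or.inl ⟨rfl, trivial⟩)⟩
      · refine ⟨_, h, Or.inr (Or.inr (Or.inr ?_))⟩
        simp

private theorem armLow_box (z v : Pt) (n : ℕ) :
    v ∈ box z n ↔ z.1 - n ≤ v.1 ∧ v.1 ≤ z.1 + n ∧ z.2 - n ≤ v.2 ∧ v.2 ≤ z.2 + n := by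
  unfold box
  rw [mem_product, mem_Icc, mem_Icc]
  tauto

private theorem armLow_self (z : Pt) (n : ℕ) : z ∈ box z n := by
  rw [armLow_box]
  omega

private theorem armLow_EV_mono {A B : Finset Pt} (h : A ⊆ B) : EV A ⊆ EV B :=
  Finset.biUnion_subset_biUnion_of_subset_left _ h

private theorem armLow_LF_mono {A B : Finset Pt} (h : A ⊆ B) : LF A ⊆ LF B :=
  Finset.biUnion_subset_biUnion_of_subset_left _ h

private theorem armLow_box_sub {u : Pt} {n k N : ℕ} (hu : u ∈ box 0 n) (h : n + k ≤ N) :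
    box u k ⊆ box 0 N := by
  intro v hv
  rw [armLow_box] at hu hv ⊢
  simp only [Prod.fst_zero, Prod.snd_zero] at hu ⊢
  omega

private theorem armLow_tgt (e : Edge) :
    (tgt e = (e.1.1, e.1.2 + 1)) ∨ (tgt e = (e.1.1 + 1, e.1.2)) := by
  obtain ⟨v, b⟩ := e
  cases b <;> simp [tgt]

private theorem armLow_EV_disj {u v : Pt} {k : ℕ} (h : 2 * k + 2 ≤ ldist u v) :
    Disjoint (EV (box u k)) (EV (box v k)) := by
  rw [Finset.disjoint_left]
  intro e he he'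
  rw [armLow_mem_EV, armLow_box, armLow_box] at he he'
  unfold ldist at h
  have h1 : src e = e.1 := rfl
  rw [h1] at he he'
  rcases armLow_tgt e with h2 | h2 <;> rw [h2] at he he' <;> simp only at he he' <;> omega

/-! ### Paths -/

private theorem armLow_symm (ω : Finset Edge) (a b : Pt) (h : Reach ω a b) : Reach ω b a := by
  induction h with
  | refl => exact Relation.ReflTransGen.refl
  | tail _ hbc ih =>
    obtain ⟨e, he, h | h⟩ := hbc
    · exact Relation.ReflTransGen.head ⟨e, he, Or.inr h⟩ ih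
    · exact Relation.ReflTransGen.head ⟨e, he, Or.inl h⟩ ih

private theorem armLow_mono (ω ω' : Finset Edge) (h : ω ⊆ ω') (a b : Pt)
    (hr : Reach ω a b) : Reach ω' a b := by
  induction hr with
  | refl => exact Relation.ReflTransGen.refl
  | tail _ hbc ih =>
    obtain ⟨e, he, h'⟩ := hbc
    exact ih.tail ⟨e, h he, h'⟩

private theorem armLow_cut (Λ : Finset Pt) (ω : Finset Edge) (a b : Pt) (ha : a ∈ Λ)
    (h : Reach ω a b) :
    (b ∈ Λ ∧ Reach (ω ∩ EV Λ) a b) ∨ ∃ c, c ∉ Λ ∧ Reach (ω ∩ EV Λ) a c := by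
  induction h with
  | refl => exact Or.inl ⟨ha, Relation.ReflTransGen.refl⟩
  | @tail b c _ hbc ih =>
    rcases ih with ⟨hb, hr⟩ | hc
    · obtain ⟨e, he, h'⟩ := hbc
      have heV : e ∈ EV Λ := by
        rw [armLow_mem_EV]
        rcases h' with h' | h'
        · exact Or.inl (h'.1 ▸ hb)
        · exact Or.inr (h'.2 ▸ hb)
      have hr' : Reach (ω ∩ EV Λ) a c := hr.tail ⟨e, mem_inter.2 ⟨he, heV⟩, h'⟩
      by_cases hcΛ : c ∈ Λ
      · exact Or.inl ⟨hcΛ, hr'⟩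
      · exact Or.inr ⟨c, hcΛ, hr'⟩
    · exact Or.inr hc

private theorem armLow_arm_cut (z : Pt) (k : ℕ) (ω : Finset Edge) :
    Arm {z} (box z k) ω ↔ Arm {z} (box z k) (ω ∩ EV (box z k)) := by
  constructor
  · rintro ⟨a, ha, b, hb, h⟩
    have ha' : a = z := mem_singleton.1 ha
    subst ha'
    rcases armLow_cut (box a k) ω a b (armLow_self a k) h with h1 | ⟨c, hc, h1⟩
    · exact absurd h1.1 hb
    · exact ⟨a, ha, c, hc, h1⟩
  · rintro ⟨a, ha, b, hb, h⟩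
    exact ⟨a, ha, b, hb, armLow_mono _ _ inter_subset_left _ _ h⟩

private theorem armLow_dep (z : Pt) (k : ℕ) (S : Finset Edge) (hS : EV (box z k) ⊆ S) :
    DepOn S (Arm {z} (box z k)) := by
  intro ω
  rw [armLow_arm_cut z k ω, armLow_arm_cut z k (ω ∩ S), inter_assoc, inter_eq_right.2 hS]

private theorem armLow_incr (A Λ : Finset Pt) (D : Finset Edge) : Incr D (Arm A Λ) := by
  rintro ω ω' h - ⟨a, ha, b, hb, hr⟩
  exact ⟨a, ha, b, hb, armLow_mono _ _ h _ _ hr⟩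

/-! ### Random cluster probabilities -/

private theorem armLow_coup (h7 : Coupling) (Λ : Finset Pt) (D : Finset Edge) :
    (∑ ω ∈ D.powerset, fkW (bdR Λ) D (fun _ => xc) ω = Zp (bdR Λ) D (fun _ => xc) 0) ∧
    1 ≤ Zp (bdR Λ) D (fun _ => xc) 0 ∧ ∀ ω ⊆ D, 0 ≤ fkW (bdR Λ) D (fun _ => xc) ω := by
  have h := h7 Edge (Pt → ZMod 2) armLow_two (bdR Λ) D (fun _ => xc) (fun _ _ => armLow_xc.1)
    (fun _ _ => armLow_xc.2)
  exact ⟨h.1, h.2.2.2.2.2.1.1, h.2.2.2.2.2.1.2⟩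

private theorem armLow_le (h7 : Coupling) (Λ : Finset Pt) (D : Finset Edge)
    (P Q : Finset Edge → Prop) (h : ∀ ω ⊆ D, P ω → Q ω) :
    fkP (bdR Λ) D (fun _ => xc) P ≤ fkP (bdR Λ) D (fun _ => xc) Q := by
  obtain ⟨-, hZ, hW⟩ := armLow_coup h7 Λ D
  unfold fkP fkE
  apply div_le_div_of_nonneg_right _ (by linarith)
  apply Finset.sum_le_sum
  intro ω hω
  rw [mem_powerset] at hω
  apply mul_le_mul_of_nonneg_left _ (hW ω hω)
  beta_reduce
  by_cases hP : P ω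
  · rw [if_pos hP, if_pos (h ω hω hP)]
  · rw [if_neg hP]
    split_ifs <;> norm_num

private theorem armLow_nonneg (h7 : Coupling) (Λ : Finset Pt) (D : Finset Edge)
    (P : Finset Edge → Prop) : 0 ≤ fkP (bdR Λ) D (fun _ => xc) P := by
  obtain ⟨-, hZ, hW⟩ := armLow_coup h7 Λ D
  unfold fkP fkE
  apply div_nonneg _ (by linarith)
  apply Finset.sum_nonneg
  intro ω hω
  rw [mem_powerset] at hω
  apply mul_nonneg (hW ω hω)
  beta_reduce
  split_ifs <;> norm_num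

private theorem armLow_true (h7 : Coupling) (Λ : Finset Pt) (D : Finset Edge) :
    fkP (bdR Λ) D (fun _ => xc) (fun _ => True) = 1 := by
  obtain ⟨h1, hZ, hW⟩ := armLow_coup h7 Λ D
  unfold fkP fkE
  simp only [if_true, mul_one]
  rw [h1, div_self (by linarith)]

private theorem armLow_prod (h5 : ProdDom) {Λ Λ' : Finset Pt} (hsub : Λ' ⊆ Λ)
    (P₁ P₂ : Finset Edge → Prop) (hP₁ : DepOn (EV Λ \ EV Λ') P₁) (hP₂ : DepOn (EV Λ') P₂)
    (hinc : Incr (EV Λ') P₂) :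
    fkP (bdR Λ) (EV Λ) (fun _ => xc) (fun ω => P₁ ω ∧ P₂ ω) ≤
      fkP (bdR Λ) (EV Λ) (fun _ => xc) P₁ * fkP (bdR Λ') (EV Λ') (fun _ => xc) P₂ := by
  have key := h5 Edge (Pt → ZMod 2) (Pt → ZMod 2) armLow_two armLow_two (bdR Λ) (bdR Λ')
    (EV Λ \ EV Λ') (EV Λ') (fun _ => xc) sdiff_disjoint (fun _ _ => armLow_xc.1)
    (fun _ _ => armLow_xc.2) ?_ P₁ P₂ hP₁ hP₂ hinc
  · rwa [sdiff_union_of_subset (armLow_EV_mono hsub)] at key
  · intro η₁ hη₁ η₂ hη₂ h0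
    funext p
    have hbd : ∀ (Γ : Finset Pt) (η : Finset Edge), bdy (bdR Γ) η p = ∑ e ∈ η, bdR Γ e p := by
      intro Γ η
      unfold bdy
      rw [Finset.sum_apply]
    rw [hbd]
    by_cases hp : p ∈ Λ'
    · have h1 : bdy (bdR Λ) (η₁ ∪ η₂) p = 0 := by rw [h0]; rfl
      have hdis : Disjoint η₁ η₂ :=
        Finset.disjoint_of_subset_left hη₁ (Finset.disjoint_of_subset_right hη₂ sdiff_disjoint)
      rw [hbd, Finset.sum_union hdis] at h1
      have h2 : ∑ e ∈ η₁, bdR Λ e p = 0 := by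
        apply Finset.sum_eq_zero
        intro e he
        have h3 := (mem_sdiff.1 (hη₁ he)).2
        rw [armLow_mem_EV] at h3
        unfold bdR
        rw [if_pos (hsub hp)]
        unfold bdV
        have h4 : p ≠ src e := fun h => h3 (Or.inl (h ▸ hp))
        have h5' : p ≠ tgt e := fun h => h3 (Or.inr (h ▸ hp))
        rw [Pi.add_apply, Pi.single_eq_of_ne h4, Pi.single_eq_of_ne h5', add_zero]
      rw [h2, zero_add] at h1
      refine Eq.trans ?_ h1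
      apply Finset.sum_congr rfl
      intro e _
      unfold bdR
      rw [if_pos hp, if_pos (hsub hp)]
    · apply Finset.sum_eq_zero
      intro e _
      unfold bdR
      rw [if_neg hp]

/-- A single arm in a large box: independence of the position. -/
private theorem armLow_shift (h5 : ProdDom) (h6 : Transl) (h7 : Coupling) {u : Pt}
    {n k N : ℕ} (hu : u ∈ box 0 n) (hk : k ≤ N) :
    fkB 0 (N + n) (fun _ => xc) (Arm {u} (box u k)) ≤
      fkB 0 N (fun _ => xc) (Arm {0} (box 0 k)) := by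
  have hsub : box u N ⊆ box 0 (N + n) := armLow_box_sub hu (by omega)
  have hku : box u k ⊆ box u N := by
    intro v hv
    rw [armLow_box] at hv ⊢
    omega
  have h1 := armLow_prod h5 hsub (fun _ => True) (Arm {u} (box u k)) (fun _ => Iff.rfl)
    (armLow_dep u k _ (armLow_EV_mono hku)) (armLow_incr _ _ _)
  rw [armLow_true h7, one_mul] at h1
  have h2 := h6.2.2.2.2.1 u 0 0 k N
  have hb : ∀ z : Pt, box z 0 = {z} := by
    intro z
    ext v
    rw [armLow_box, mem_singleton]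
    constructor
    · intro h
      apply Prod.ext <;> push_cast at h <;> omega
    · rintro rfl
      push_cast
      omega
  rw [hb, hb] at h2
  rw [← h2]
  refine le_trans ?_ h1
  unfold fkB
  exact armLow_le h7 _ _ _ _ fun ω _ h => ⟨trivial, h⟩

/-- Far pairs. -/
private theorem armLow_far (h3 : Idents) (h4 : ReachFacts) (h5 : ProdDom)
    (h6 : Transl) (h7 : Coupling) {u v : Pt} {n k N : ℕ} (hu : u ∈ box 0 n) (hv : v ∈ box 0 n)
    (hk : k ≤ N) (huv : 2 * k + 2 ≤ ldist u v) :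
    c2 (LF (box 0 (N + n))) u v ≤ fkB 0 N (fun _ => xc) (Arm {0} (box 0 k)) * mm k := by
  have hsu : box u k ⊆ box 0 (N + n) := armLow_box_sub hu (by omega)
  have hsv : box v k ⊆ box 0 (N + n) := armLow_box_sub hv (by omega)
  have hu' := hsu (armLow_self u k)
  have hv' := hsv (armLow_self v k)
  rw [h3.2.2 0 (N + n) u v hu' hv']
  have hne : v ∉ box u k := by
    rw [armLow_box]
    unfold ldist at huv
    omega
  have hne' : u ∉ box v k := by
    rw [armLow_box]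
    unfold ldist at huv
    omega
  have h1 : fkB 0 (N + n) (fun _ => xc) (fun ω => Conn (bdR (box 0 (N + n))) ω (pt u + pt v)) ≤
      fkB 0 (N + n) (fun _ => xc) (fun ω => Arm {u} (box u k) ω ∧ Arm {v} (box v k) ω) := by
    unfold fkB
    apply armLow_le h7
    intro ω _ hω
    rw [h4.2.2.1 (box 0 (N + n)) ω u v hu' hv'] at hω
    rcases hω with hω | ⟨⟨c, hc, hr⟩, d, hd, hr'⟩
    · exact ⟨⟨u, mem_singleton_self u, v, hne, hω⟩, v, mem_singleton_self v, u, hne',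
        armLow_symm _ _ _ hω⟩
    · exact ⟨⟨u, mem_singleton_self u, c, fun h => hc (hsu h), hr⟩, v, mem_singleton_self v, d,
        fun h => hd (hsv h), hr'⟩
  have h2 := armLow_prod h5 hsv (Arm {u} (box u k)) (Arm {v} (box v k))
    (armLow_dep u k _ (fun e he => mem_sdiff.2 ⟨armLow_EV_mono hsu he, fun h =>
      (Finset.disjoint_left.1 (armLow_EV_disj huv)) he h⟩))
    (armLow_dep v k _ (Finset.Subset.refl _)) (armLow_incr _ _ _)
  have h8 := h3.1 v k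
  have h9 := armLow_shift h5 h6 h7 hu hk
  have h10 : 0 ≤ mm k := by
    rw [← h8]
    unfold fkB
    exact armLow_nonneg h7 _ _ _
  calc _ ≤ _ := h1
    _ ≤ fkB 0 (N + n) (fun _ => xc) (Arm {u} (box u k)) * fkB v k (fun _ => xc)
        (Arm {v} (box v k)) := h2
    _ = fkB 0 (N + n) (fun _ => xc) (Arm {u} (box u k)) * mm k := by rw [h8]
    _ ≤ _ := mul_le_mul_of_nonneg_right h9 h10

/-! ### Near pairs -/

private theorem armLow_c2_le_one (h1 : MonoC) (D : Finset Edge) (u v : Pt) : c2 D u v ≤ 1 := by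
  by_cases h : u = v
  · subst h
    have h2 := (h1 D D ∅ ∅ (Finset.Subset.refl _)).2.2.1
    have h3 : sgs ∅ = fun w => sgn w u * sgn w u := by
      funext w
      unfold sgs sgn
      rw [prod_empty, ← pow_add, ← two_mul, pow_mul]
      norm_num
    rw [h3] at h2
    exact h2
  · have h2 := (h1 D D {u, v} ∅ (Finset.Subset.refl _)).2.2.1
    have h3 : sgs {u, v} = fun w => sgn w u * sgn w v := by
      funext w
      unfold sgs
      rw [prod_pair h]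
    rw [h3] at h2
    exact h2

private theorem armLow_mm_nonneg (h1 : MonoC) (k : ℕ) : 0 ≤ mm k := by
  have h2 := (h1 (LF (box 0 k)) (LF (box 0 k)) {0} ∅ (Finset.Subset.refl _)).1
  have h3 : sgs {0} = fun w => sgn w 0 := by
    funext w
    simp [sgs]
  rw [h3] at h2
  exact h2

private theorem armLow_near (h1 : MonoC) (h2 : TwoBox) {C : ℝ} (hC1 : 1 ≤ C)
    (hC : ∀ N : ℕ, 1 ≤ N → mm N ≤ C * (N : ℝ) ^ (-(1 / 8) : ℝ)) {u v : Pt} {n N : ℕ}
    (hu : u ∈ box 0 n) (hv : v ∈ box 0 n) (hN : n ≤ N) :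
    c2 (LF (box 0 (N + n))) u v ≤ 6 * C ^ 2 * ((ldist u v : ℝ) + 1) ^ (-(1 / 4) : ℝ) := by
  set l := ldist u v with hl
  have hl2 : l ≤ 2 * n := by
    rw [armLow_box] at hu hv
    simp only [Prod.fst_zero, Prod.snd_zero] at hu hv
    rw [hl]
    unfold ldist
    omega
  have hpos : (0 : ℝ) < (l : ℝ) + 1 := by positivity
  have hC2 : 1 ≤ C ^ 2 := by nlinarith
  have h6 : (6 : ℝ) ^ (1 / 4 : ℝ) ≤ 6 := by
    calc (6 : ℝ) ^ (1 / 4 : ℝ) ≤ (6 : ℝ) ^ (1 : ℝ) :=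
          Real.rpow_le_rpow_of_exponent_le (by norm_num) (by norm_num)
      _ = 6 := Real.rpow_one 6
  -- it is enough to compare with a number
  have hcmp : ∀ j : ℝ, 0 < j → (l : ℝ) + 1 ≤ 6 * j →
      j ^ (-(1 / 4) : ℝ) ≤ 6 * ((l : ℝ) + 1) ^ (-(1 / 4) : ℝ) := by
    intro j hj hle
    have h3 : (6 * j) ^ (-(1 / 4) : ℝ) ≤ ((l : ℝ) + 1) ^ (-(1 / 4) : ℝ) :=
      Real.rpow_le_rpow_of_nonpos hpos hle (by norm_num)
    rw [Real.mul_rpow (by norm_num) hj.le] at h3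
    have h4 : (6 : ℝ) ^ (1 / 4 : ℝ) * (6 : ℝ) ^ (-(1 / 4) : ℝ) = 1 := by
      rw [← Real.rpow_add (by norm_num)]
      norm_num
    have h5 : 0 ≤ ((l : ℝ) + 1) ^ (-(1 / 4) : ℝ) := by positivity
    calc j ^ (-(1 / 4) : ℝ) = (6 : ℝ) ^ (1 / 4 : ℝ) *
          ((6 : ℝ) ^ (-(1 / 4) : ℝ) * j ^ (-(1 / 4) : ℝ)) := by
            rw [← mul_assoc, h4, one_mul]
      _ ≤ (6 : ℝ) ^ (1 / 4 : ℝ) * ((l : ℝ) + 1) ^ (-(1 / 4) : ℝ) :=
          mul_le_mul_of_nonneg_left h3 (by positivity)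
      _ ≤ 6 * ((l : ℝ) + 1) ^ (-(1 / 4) : ℝ) := mul_le_mul_of_nonneg_right h6 h5
  rcases Nat.lt_or_ge l 4 with h4 | h4
  · have h3 := armLow_c2_le_one h1 (LF (box 0 (N + n))) u v
    have h5 := hcmp 1 one_pos (by
      have : (l : ℝ) + 1 ≤ 4 := by exact_mod_cast h4
      linarith)
    rw [Real.one_rpow] at h5
    have h7 : 0 ≤ 6 * ((l : ℝ) + 1) ^ (-(1 / 4) : ℝ) := by positivity
    nlinarith
  · -- the boxes of radius j
    obtain ⟨j, hj⟩ : ∃ j, j = (l - 2) / 2 := ⟨_, rfl⟩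
    have hj1 : 1 ≤ j := by omega
    have hjn : j ≤ n := by omega
    have hjl : l + 1 ≤ 6 * j := by omega
    have h3 := h2 j u v (LF (box 0 (N + n))) (by omega)
      (armLow_LF_mono (armLow_box_sub hu (by omega)))
      (armLow_LF_mono (armLow_box_sub hv (by omega)))
    have h5 := hC j hj1
    have h7 := armLow_mm_nonneg h1 j
    have hjp : (0 : ℝ) < j := by exact_mod_cast hj1
    have h8 : mm j * mm j ≤ (C * (j : ℝ) ^ (-(1 / 8) : ℝ)) * (C * (j : ℝ) ^ (-(1 / 8) : ℝ)) :=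
      mul_le_mul h5 h5 h7 (h7.trans h5)
    have h9 : (C * (j : ℝ) ^ (-(1 / 8) : ℝ)) * (C * (j : ℝ) ^ (-(1 / 8) : ℝ)) =
        C ^ 2 * (j : ℝ) ^ (-(1 / 4) : ℝ) := by
      have : (j : ℝ) ^ (-(1 / 8) : ℝ) * (j : ℝ) ^ (-(1 / 8) : ℝ) = (j : ℝ) ^ (-(1 / 4) : ℝ) := by
        rw [← Real.rpow_add hjp]
        norm_num
      rw [← this]
      ring
    have h10 := hcmp j hjp (by exact_mod_cast hjl)
    calc _ ≤ mm j * mm j := h3
      _ ≤ C ^ 2 * (j : ℝ) ^ (-(1 / 4) : ℝ) := by rw [← h9]; exact h8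
      _ ≤ C ^ 2 * (6 * ((l : ℝ) + 1) ^ (-(1 / 4) : ℝ)) :=
          mul_le_mul_of_nonneg_left h10 (by positivity)
      _ = _ := by ring

private theorem armLow_card (u : Pt) (s : Finset Pt) (l : ℕ) (hs : ∀ v ∈ s, ldist u v = l) :
    s.card ≤ 8 * l + 8 := by
  have hsub : s ⊆ (({u.1 - l, u.1 + l} : Finset ℤ) ×ˢ Finset.Icc (u.2 - l) (u.2 + l)) ∪
      (Finset.Icc (u.1 - l) (u.1 + l) ×ˢ ({u.2 - l, u.2 + l} : Finset ℤ)) := by
    intro v hv
    have h := hs v hv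
    unfold ldist at h
    rw [mem_union, mem_product, mem_product, mem_Icc, mem_Icc, mem_insert, mem_singleton,
      mem_insert, mem_singleton]
    omega
  refine (Finset.card_le_card hsub).trans ((Finset.card_union_le _ _).trans ?_)
  rw [Finset.card_product, Finset.card_product, Int.card_Icc, Int.card_Icc]
  have h1 : ({u.1 - (l : ℤ), u.1 + l} : Finset ℤ).card ≤ 2 := Finset.card_le_two
  have h2 : ({u.2 - (l : ℤ), u.2 + l} : Finset ℤ).card ≤ 2 := Finset.card_le_two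
  have h3 : (u.2 + (l : ℤ) + 1 - (u.2 - l)).toNat = 2 * l + 1 := by omega
  have h4 : (u.1 + (l : ℤ) + 1 - (u.1 - l)).toNat = 2 * l + 1 := by omega
  rw [h3, h4]
  nlinarith

private theorem armLow_sum (u : Pt) (s : Finset Pt) (L : ℕ) (hs : ∀ v ∈ s, ldist u v < L) :
    ∑ v ∈ s, ((ldist u v : ℝ) + 1) ^ (-(1 / 4) : ℝ) ≤ 8 * (L : ℝ) ^ (7 / 4 : ℝ) := by
  rw [← Finset.sum_fiberwise_of_maps_to (g := fun v => ldist u v) (t := Finset.range L)
    (fun v hv => mem_range.2 (hs v hv))]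
  have h1 : ∀ l ∈ Finset.range L, ∑ v ∈ s with ldist u v = l,
      ((ldist u v : ℝ) + 1) ^ (-(1 / 4) : ℝ) ≤ 8 * (L : ℝ) ^ (3 / 4 : ℝ) := by
    intro l hl
    rw [mem_range] at hl
    have hpos : (0 : ℝ) < (l : ℝ) + 1 := by positivity
    have h2 : ∀ v ∈ s.filter (fun v => ldist u v = l),
        ((ldist u v : ℝ) + 1) ^ (-(1 / 4) : ℝ) = ((l : ℝ) + 1) ^ (-(1 / 4) : ℝ) := by
      intro v hv
      rw [(mem_filter.1 hv).2]
    rw [Finset.sum_congr rfl h2, Finset.sum_const, nsmul_eq_mul]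
    have h3 := armLow_card u (s.filter (fun v => ldist u v = l)) l fun v hv => (mem_filter.1 hv).2
    have h4 : ((s.filter (fun v => ldist u v = l)).card : ℝ) ≤ 8 * ((l : ℝ) + 1) := by
      have : ((s.filter (fun v => ldist u v = l)).card : ℝ) ≤ ((8 * l + 8 : ℕ) : ℝ) := by
        exact_mod_cast h3
      push_cast at this
      linarith
    calc _ ≤ 8 * ((l : ℝ) + 1) * ((l : ℝ) + 1) ^ (-(1 / 4) : ℝ) :=
          mul_le_mul_of_nonneg_right h4 (by positivity)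
      _ = 8 * ((l : ℝ) + 1) ^ (3 / 4 : ℝ) := by
          have : ((l : ℝ) + 1) ^ (3 / 4 : ℝ) =
              ((l : ℝ) + 1) * ((l : ℝ) + 1) ^ (-(1 / 4) : ℝ) := by
            nth_rw 2 [← Real.rpow_one ((l : ℝ) + 1)]
            rw [← Real.rpow_add hpos]
            norm_num
          rw [this]
          ring
      _ ≤ 8 * (L : ℝ) ^ (3 / 4 : ℝ) := by
          have hlL : (l : ℝ) + 1 ≤ L := by exact_mod_cast hl
          exact mul_le_mul_of_nonneg_left
            (Real.rpow_le_rpow hpos.le hlL (by norm_num)) (by norm_num)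
  refine (Finset.sum_le_sum h1).trans ?_
  rw [Finset.sum_const, card_range, nsmul_eq_mul]
  rcases Nat.eq_zero_or_pos L with h0 | h0
  · subst h0
    simp
  · have hL : (0 : ℝ) < L := by exact_mod_cast h0
    have : (L : ℝ) ^ (7 / 4 : ℝ) = (L : ℝ) * (L : ℝ) ^ (3 / 4 : ℝ) := by
      nth_rw 2 [← Real.rpow_one (L : ℝ)]
      rw [← Real.rpow_add hL]
      norm_num
    rw [this]
    apply le_of_eq
    ring

private theorem armLow_box_card (n : ℕ) : ((box 0 n).card : ℝ) = (2 * (n : ℝ) + 1) ^ 2 := by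
  unfold box
  rw [Finset.card_product, Int.card_Icc, Int.card_Icc]
  simp only [Prod.fst_zero, Prod.snd_zero]
  have h3 : ((0 : ℤ) + (n : ℤ) + 1 - (0 - n)).toNat = 2 * n + 1 := by omega
  rw [h3]
  push_cast
  ring

/-! ### The theorem -/

theorem armLowS (h1 : MonoC) (h2 : TwoBox) (h3 : Idents) (h4 : ReachFacts) (h5 : ProdDom)
    (h6 : Transl) (h7 : Coupling) : ArmLowS := by
  rintro ⟨Kb, nb, cb, hcb, hb⟩ ⟨C₀, hC₀⟩
  -- constants
  set C : ℝ := max C₀ 1 with hCdef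
  have hC1 : 1 ≤ C := le_max_right _ _
  have hC : ∀ N : ℕ, 1 ≤ N → mm N ≤ C * (N : ℝ) ^ (-(1 / 8) : ℝ) := fun N hN =>
    (hC₀ N hN).trans (mul_le_mul_of_nonneg_right (le_max_left _ _) (by positivity))
  obtain ⟨Q₀, hQ₀⟩ := exists_nat_ge (13824 * C ^ 2 / cb)
  obtain ⟨Q, hQdef⟩ : ∃ Q, Q = Q₀ + 1 := ⟨_, rfl⟩
  have hQ1 : 1 ≤ Q := by omega
  have hQr : (1 : ℝ) ≤ Q := by exact_mod_cast hQ1
  have hQpos : (0 : ℝ) < Q := by linarith
  have hQ : 13824 * C ^ 2 ≤ cb * Q := by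
    have h8 : 13824 * C ^ 2 / cb ≤ Q := by
      rw [hQdef]
      push_cast
      linarith
    rw [div_le_iff₀ hcb] at h8
    linarith
  refine ⟨Kb * Q + Q, nb + 1, cb * (Q : ℝ) ^ (15 / 4 : ℝ) / (162 * Q ^ 4 * C), by positivity, ?_⟩
  intro k N hk hN
  have hk1 : 1 ≤ k := by omega
  have hkr : (1 : ℝ) ≤ k := by exact_mod_cast hk1
  have hkpos : (0 : ℝ) < k := by linarith
  obtain ⟨n, hn⟩ : ∃ n, n = Q * k := ⟨_, rfl⟩
  have hkn : k ≤ n := by rw [hn]; exact Nat.le_mul_of_pos_left k (by omega)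
  have hnN : n ≤ N := by
    rw [hn]
    calc Q * k ≤ (Kb * Q + Q) * k := Nat.mul_le_mul_right k (Nat.le_add_left _ _)
      _ ≤ N := hN
  have hKN : Kb * n ≤ N + n := by
    rw [hn]
    calc Kb * (Q * k) = (Kb * Q) * k := by ring
      _ ≤ (Kb * Q + Q) * k := Nat.mul_le_mul_right k (Nat.le_add_right _ _)
      _ ≤ N := hN
      _ ≤ N + Q * k := Nat.le_add_right _ _
  have hbulk := hb n (N + n) (by omega) hKN
  set π : ℝ := fkB 0 N (fun _ => xc) (Arm {0} (box 0 k)) with hπ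
  have hπ0 : 0 ≤ π := by
    rw [hπ]
    unfold fkB
    exact armLow_nonneg h7 _ _ _
  have hnr : (n : ℝ) = Q * k := by rw [hn]; push_cast; ring
  have hn1 : (1 : ℝ) ≤ n := by rw [hnr]; nlinarith
  -- the inner sum
  have hinner : ∀ u ∈ box 0 n, ∑ v ∈ box 0 n, c2 (LF (box 0 (N + n))) u v ≤
      6 * C ^ 2 * (8 * ((2 * k + 2 : ℕ) : ℝ) ^ (7 / 4 : ℝ)) +
        (2 * (n : ℝ) + 1) ^ 2 * (π * (C * (k : ℝ) ^ (-(1 / 8) : ℝ))) := by
    intro u hu
    rw [← Finset.sum_filter_add_sum_filter_not (box 0 n) (fun v => ldist u v < 2 * k + 2)]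
    apply add_le_add
    · calc _ ≤ ∑ v ∈ (box 0 n).filter (fun v => ldist u v < 2 * k + 2),
            6 * C ^ 2 * ((ldist u v : ℝ) + 1) ^ (-(1 / 4) : ℝ) := by
            apply Finset.sum_le_sum
            intro v hv
            exact armLow_near h1 h2 hC1 hC hu (mem_filter.1 hv).1 hnN
        _ = 6 * C ^ 2 * ∑ v ∈ (box 0 n).filter (fun v => ldist u v < 2 * k + 2),
            ((ldist u v : ℝ) + 1) ^ (-(1 / 4) : ℝ) := by rw [Finset.mul_sum]
        _ ≤ _ := by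
            apply mul_le_mul_of_nonneg_left _ (by positivity)
            exact armLow_sum u _ _ fun v hv => (mem_filter.1 hv).2
    · calc _ ≤ ∑ v ∈ (box 0 n).filter (fun v => ¬ ldist u v < 2 * k + 2),
            π * (C * (k : ℝ) ^ (-(1 / 8) : ℝ)) := by
            apply Finset.sum_le_sum
            intro v hv
            have hv' := mem_filter.1 hv
            refine (armLow_far h3 h4 h5 h6 h7 hu hv'.1 (hkn.trans hnN) (not_lt.1 hv'.2)).trans ?_
            exact mul_le_mul_of_nonneg_left (hC k hk1) hπ0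
        _ = (((box 0 n).filter (fun v => ¬ ldist u v < 2 * k + 2)).card : ℝ) *
            (π * (C * (k : ℝ) ^ (-(1 / 8) : ℝ))) := by
            rw [Finset.sum_const, nsmul_eq_mul]
        _ ≤ _ := by
            apply mul_le_mul_of_nonneg_right _ (by positivity)
            rw [← armLow_box_card]
            exact_mod_cast Finset.card_filter_le _ _
  have htot : cb * (n : ℝ) ^ (15 / 4 : ℝ) ≤ (2 * (n : ℝ) + 1) ^ 2 *
      (6 * C ^ 2 * (8 * ((2 * k + 2 : ℕ) : ℝ) ^ (7 / 4 : ℝ)) +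
        (2 * (n : ℝ) + 1) ^ 2 * (π * (C * (k : ℝ) ^ (-(1 / 8) : ℝ)))) := by
    refine hbulk.trans ((Finset.sum_le_sum hinner).trans ?_)
    rw [Finset.sum_const, nsmul_eq_mul, armLow_box_card]
  -- arithmetic
  have h9 : (2 * (n : ℝ) + 1) ^ 2 ≤ 9 * n ^ 2 := by nlinarith
  have h10 : ((2 * k + 2 : ℕ) : ℝ) ^ (7 / 4 : ℝ) ≤ 16 * (k : ℝ) ^ (7 / 4 : ℝ) := by
    calc ((2 * k + 2 : ℕ) : ℝ) ^ (7 / 4 : ℝ) ≤ (4 * (k : ℝ)) ^ (7 / 4 : ℝ) := by
          apply Real.rpow_le_rpow (by positivity) _ (by norm_num)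
          push_cast
          linarith
      _ = (4 : ℝ) ^ (7 / 4 : ℝ) * (k : ℝ) ^ (7 / 4 : ℝ) :=
          Real.mul_rpow (by norm_num) hkpos.le
      _ ≤ 16 * (k : ℝ) ^ (7 / 4 : ℝ) := by
          apply mul_le_mul_of_nonneg_right _ (by positivity)
          calc (4 : ℝ) ^ (7 / 4 : ℝ) ≤ (4 : ℝ) ^ (2 : ℝ) :=
                Real.rpow_le_rpow_of_exponent_le (by norm_num) (by norm_num)
            _ = 16 := by norm_num
  have hn154 : (n : ℝ) ^ (15 / 4 : ℝ) = (Q : ℝ) ^ (15 / 4 : ℝ) * (k : ℝ) ^ (15 / 4 : ℝ) := by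
    rw [hnr]
    exact Real.mul_rpow hQpos.le hkpos.le
  have hk154 : (k : ℝ) ^ (15 / 4 : ℝ) = (k : ℝ) ^ 2 * (k : ℝ) ^ (7 / 4 : ℝ) := by
    rw [← Real.rpow_natCast (k : ℝ) 2, ← Real.rpow_add hkpos]
    norm_num
  have hQ154 : (Q : ℝ) ^ 2 * Q ≤ (Q : ℝ) ^ (15 / 4 : ℝ) := by
    calc (Q : ℝ) ^ 2 * Q = (Q : ℝ) ^ (3 : ℝ) := by
          rw [show (3 : ℝ) = ((3 : ℕ) : ℝ) by norm_num, Real.rpow_natCast]
          ring
      _ ≤ (Q : ℝ) ^ (15 / 4 : ℝ) := Real.rpow_le_rpow_of_exponent_le hQr (by norm_num)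
  -- the near part is at most half
  have hA : (2 * (n : ℝ) + 1) ^ 2 * (6 * C ^ 2 * (8 * ((2 * k + 2 : ℕ) : ℝ) ^ (7 / 4 : ℝ))) ≤
      cb / 2 * (n : ℝ) ^ (15 / 4 : ℝ) := by
    have hk74 : 0 ≤ (k : ℝ) ^ (7 / 4 : ℝ) := by positivity
    calc (2 * (n : ℝ) + 1) ^ 2 * (6 * C ^ 2 * (8 * ((2 * k + 2 : ℕ) : ℝ) ^ (7 / 4 : ℝ)))
        ≤ (9 * (n : ℝ) ^ 2) * (6 * C ^ 2 * (8 * (16 * (k : ℝ) ^ (7 / 4 : ℝ)))) := by
          gcongr
      _ = 6912 * C ^ 2 * (Q : ℝ) ^ 2 * ((k : ℝ) ^ 2 * (k : ℝ) ^ (7 / 4 : ℝ)) := by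
          rw [hnr]; ring
      _ = 6912 * C ^ 2 * (Q : ℝ) ^ 2 * (k : ℝ) ^ (15 / 4 : ℝ) := by rw [← hk154]
      _ ≤ (cb / 2 * Q) * (Q : ℝ) ^ 2 * (k : ℝ) ^ (15 / 4 : ℝ) :=
          mul_le_mul_of_nonneg_right (mul_le_mul_of_nonneg_right (by linarith) (by positivity))
            (by positivity)
      _ = cb / 2 * ((Q : ℝ) ^ 2 * Q) * (k : ℝ) ^ (15 / 4 : ℝ) := by ring
      _ ≤ cb / 2 * (Q : ℝ) ^ (15 / 4 : ℝ) * (k : ℝ) ^ (15 / 4 : ℝ) := by gcongr
      _ = cb / 2 * (n : ℝ) ^ (15 / 4 : ℝ) := by rw [hn154]; ring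
  have hB : (2 * (n : ℝ) + 1) ^ 2 *
      ((2 * (n : ℝ) + 1) ^ 2 * (π * (C * (k : ℝ) ^ (-(1 / 8) : ℝ)))) ≤
      81 * (Q : ℝ) ^ 4 * C * (π * ((k : ℝ) ^ 4 * (k : ℝ) ^ (-(1 / 8) : ℝ))) := by
    calc _ ≤ (9 * (n : ℝ) ^ 2) * ((9 * (n : ℝ) ^ 2) * (π * (C * (k : ℝ) ^ (-(1 / 8) : ℝ)))) := by
          gcongr
      _ = _ := by rw [hnr]; ring
  have hmain : cb / 2 * ((Q : ℝ) ^ (15 / 4 : ℝ) * (k : ℝ) ^ (15 / 4 : ℝ)) ≤
      81 * (Q : ℝ) ^ 4 * C * (π * ((k : ℝ) ^ 4 * (k : ℝ) ^ (-(1 / 8) : ℝ))) := by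
    rw [mul_add] at htot
    rw [← hn154]
    linarith
  -- divide by the powers of k
  have hk1 : (k : ℝ) ^ (15 / 4 : ℝ) =
      (k : ℝ) ^ (-(1 / 8) : ℝ) * ((k : ℝ) ^ 4 * (k : ℝ) ^ (-(1 / 8) : ℝ)) := by
    rw [← Real.rpow_natCast (k : ℝ) 4, ← Real.rpow_add hkpos, ← Real.rpow_add hkpos]
    norm_num
  have hkk : 0 < (k : ℝ) ^ 4 * (k : ℝ) ^ (-(1 / 8) : ℝ) := by positivity
  rw [hk1] at hmain
  have hmain' : (cb / 2 * (Q : ℝ) ^ (15 / 4 : ℝ) * (k : ℝ) ^ (-(1 / 8) : ℝ)) *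
      ((k : ℝ) ^ 4 * (k : ℝ) ^ (-(1 / 8) : ℝ)) ≤
      (81 * (Q : ℝ) ^ 4 * C * π) * ((k : ℝ) ^ 4 * (k : ℝ) ^ (-(1 / 8) : ℝ)) := by
    calc _ = cb / 2 * ((Q : ℝ) ^ (15 / 4 : ℝ) *
          ((k : ℝ) ^ (-(1 / 8) : ℝ) * ((k : ℝ) ^ 4 * (k : ℝ) ^ (-(1 / 8) : ℝ)))) := by ring
      _ ≤ _ := hmain
      _ = _ := by ring
  have hfin := le_of_mul_le_mul_right hmain' hkk
  rw [div_mul_eq_mul_div, div_le_iff₀ (by positivity)]
  linarith

end Pool.Agent.Lib.MP_6d40c9_pr
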