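import Pool.Agent.Lib.MP_6d40c9_pr.SpecG

set_option autoImplicit false

/-!
# MP_6d40c9_pr: boxes and pairs of distant boxes are simple (statement `BoxSimp`)
-/

namespace Pool.Agent.Lib.MP_6d40c9_pr

open Finset
open scoped BigOperators symmDiff

lemma bsimp_mem_box {z p : Pt} {n : ℕ} :
    p ∈ box z n ↔ (z.1 - n ≤ p.1 ∧ p.1 ≤ z.1 + n) ∧ (z.2 - n ≤ p.2 ∧ p.2 ≤ z.2 + n) := by
  unfold box
  rw [Finset.mem_product, Finset.mem_Icc, Finset.mem_Icc]

lemma bsimp_mem_LF {F : Finset Pt} {e : Edge} : e ∈ LF F ↔ fa e ∈ F ∨ fb e ∈ F := by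
  obtain ⟨⟨x, y⟩, b⟩ := e
  unfold LF fa fb
  rw [Finset.mem_biUnion]
  cases b
  · simp only [Bool.false_eq_true, if_false]
    constructor
    · rintro ⟨u, hu, he⟩
      simp only [Finset.mem_insert, Finset.mem_singleton, Prod.mk.injEq, Bool.false_eq_true,
        and_true, and_false, or_false, false_or] at he
      rcases he with he | ⟨h1, h2⟩
      · left; rw [he]; exact hu
      · right
        have : (x, y - 1) = u := by
          ext
          · exact h1
          · show y - 1 = u.2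
            omega
        rw [this]; exact hu
    · rintro (h | h)
      · exact ⟨_, h, by simp⟩
      · refine ⟨_, h, ?_⟩
        simp
  · simp only [if_true]
    constructor
    · rintro ⟨u, hu, he⟩
      simp only [Finset.mem_insert, Finset.mem_singleton, Prod.mk.injEq, Bool.true_eq_false,
        and_true, and_false, or_false, false_or] at he
      rcases he with he | ⟨h1, h2⟩
      · left; rw [he]; exact hu
      · right
        have : (x - 1, y) = u := by
          ext
          · show x - 1 = u.1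
            omega
          · exact h2
        rw [this]; exact hu
    · rintro (h | h)
      · exact ⟨_, h, by simp⟩
      · refine ⟨_, h, ?_⟩
        simp

lemma bsimp_mem_walls {A : Finset Pt} {e : Edge} : e ∈ walls A ↔ ¬ (fa e ∈ A ↔ fb e ∈ A) := by
  unfold walls
  rw [Finset.mem_filter, bsimp_mem_LF]
  tauto

/-- moving one step to the right between two faces outside `F` -/
lemma bsimp_step (h : GridFacts) {F : Finset Pt} {w : Finset Edge} (hw : w ⊆ LF F) (he : Even' w)
    {x y : ℤ} (h1 : (x, y) ∉ F) (h2 : (x + 1, y) ∉ F) :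
    (Even (cnt w (x, y)) ↔ Even (cnt w (x + 1, y))) := by
  have h3 := h.1 w he ((x + 1, y), true)
  have hfa : fa ((x + 1, y), true) = (x + 1, y) := rfl
  have hfb : fb ((x + 1, y), true) = (x, y) := by
    simp [fb]
  rw [hfa, hfb] at h3
  have h4 : (((x + 1, y), true) : Edge) ∉ w := by
    intro hin
    have := bsimp_mem_LF.mp (hw hin)
    rw [hfa, hfb] at this
    tauto
  have h5 : ¬ Odd (cnt w (x + 1, y) + cnt w (x, y)) := fun ho => h4 (h3.mp ho)
  rw [Nat.not_odd_iff_even, Nat.even_add] at h5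
  exact h5.symm

lemma bsimp_row (h : GridFacts) {F : Finset Pt} {w : Finset Edge} (hw : w ⊆ LF F) (he : Even' w)
    {y : ℤ} (hy : ∀ x, (x, y) ∉ F) (x : ℤ) (m : ℕ) :
    (Even (cnt w (x, y)) ↔ Even (cnt w (x + m, y))) := by
  induction m with
  | zero => simp
  | succ m ih =>
    rw [ih, bsimp_step h hw he (hy _) (hy _)]
    have : x + (m : ℤ) + 1 = x + ((m + 1 : ℕ) : ℤ) := by push_cast; ring
    rw [this]

lemma bsimp_cnt_zero {w : Finset Edge} {u : Pt}
    (h : ∀ k : ℤ, u.2 < k → (((u.1, k), false) : Edge) ∉ w) : cnt w u = 0 := by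
  unfold cnt
  rw [Finset.card_eq_zero, Finset.filter_eq_empty_iff]
  rintro ⟨⟨a, b⟩, c⟩ hin ⟨h1, h2, h3⟩
  simp only at h1 h2 h3
  subst h1
  subst h2
  exact h b h3 hin

lemma bsimp_one (h : GridFacts) (z : Pt) (n : ℕ) : Simp (box z n) := by
  intro w hw he u hu
  obtain ⟨x, y⟩ := u
  have col : ∀ x' y' : ℤ, (x' < z.1 - n ∨ z.1 + n < x' ∨ z.2 + n < y') → cnt w (x', y') = 0 := by
    intro x' y' hx
    apply bsimp_cnt_zero
    intro k hk hin
    have h1 := bsimp_mem_LF.mp (hw hin)
    have h2 : fb (((x', k), false) : Edge) = (x', k - 1) := by simp [fb]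
    have h3 : fa (((x', k), false) : Edge) = (x', k) := rfl
    rw [h2, h3, bsimp_mem_box, bsimp_mem_box] at h1
    simp only at h1 hk
    omega
  by_cases h1 : x < z.1 - n ∨ z.1 + n < x ∨ z.2 + n < y
  · rw [col x y h1]; exact Even.zero
  · have hy : y < z.2 - n := by
      rw [bsimp_mem_box] at hu
      simp only at hu
      omega
    have hrow : ∀ x', (x', y) ∉ box z n := by
      intro x' hx'
      rw [bsimp_mem_box] at hx'
      simp only at hx'
      omega
    have h2 := bsimp_row h hw he hrow x (z.1 + n + 1 - x).toNat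
    rw [h2]
    have h3 : cnt w (x + ((z.1 + n + 1 - x).toNat : ℤ), y) = 0 := by
      apply col
      right; left
      omega
    rw [h3]; exact Even.zero

/-- corners of the sides of a box -/
lemma bsimp_corner {z : Pt} {n : ℕ} {e : Edge} (he : e ∈ LF (box z n)) (v : Pt)
    (hv : v = src e ∨ v = tgt e) :
    (z.1 - n ≤ v.1 ∧ v.1 ≤ z.1 + n + 1) ∧ (z.2 - n ≤ v.2 ∧ v.2 ≤ z.2 + n + 1) := by
  have h1 := bsimp_mem_LF.mp he
  obtain ⟨⟨x, y⟩, b⟩ := e
  cases b
  · have h2 : fb (((x, y), false) : Edge) = (x, y - 1) := by simp [fb]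
    have h3 : fa (((x, y), false) : Edge) = (x, y) := rfl
    have h4 : src (((x, y), false) : Edge) = (x, y) := rfl
    have h5 : tgt (((x, y), false) : Edge) = (x + 1, y) := by simp [tgt]
    rw [h2, h3, bsimp_mem_box, bsimp_mem_box] at h1
    rw [h4, h5] at hv
    rcases hv with rfl | rfl
    · simp only at h1 ⊢
      omega
    · simp only at h1 ⊢
      omega
  · have h2 : fb (((x, y), true) : Edge) = (x - 1, y) := by simp [fb]
    have h3 : fa (((x, y), true) : Edge) = (x, y) := rfl
    have h4 : src (((x, y), true) : Edge) = (x, y) := rfl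
    have h5 : tgt (((x, y), true) : Edge) = (x, y + 1) := by simp [tgt]
    rw [h2, h3, bsimp_mem_box, bsimp_mem_box] at h1
    rw [h4, h5] at hv
    rcases hv with rfl | rfl
    · simp only at h1 ⊢
      omega
    · simp only at h1 ⊢
      omega

lemma bsimp_far {z z' : Pt} {n n' : ℕ} (hd : n + n' + 2 ≤ ldist z z') {v : Pt}
    (h1 : (z.1 - n ≤ v.1 ∧ v.1 ≤ z.1 + n + 1) ∧ (z.2 - n ≤ v.2 ∧ v.2 ≤ z.2 + n + 1))
    (h2 : (z'.1 - n' ≤ v.1 ∧ v.1 ≤ z'.1 + n' + 1) ∧ (z'.2 - n' ≤ v.2 ∧ v.2 ≤ z'.2 + n' + 1)) :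
    False := by
  unfold ldist at hd
  rw [le_max_iff] at hd
  omega

lemma bsimp_bdy_zero {w : Finset Edge} {v : Pt} (h : ∀ e ∈ w, v ≠ src e ∧ v ≠ tgt e) :
    bdy bdV w v = 0 := by
  unfold bdy
  rw [Finset.sum_apply]
  apply Finset.sum_eq_zero
  intro e he
  obtain ⟨h1, h2⟩ := h e he
  unfold bdV
  rw [Pi.add_apply, Pi.single_eq_of_ne h1, Pi.single_eq_of_ne h2, add_zero]

lemma bsimp_disj {z z' : Pt} {n n' : ℕ} (hd : n + n' + 2 ≤ ldist z z') :
    Disjoint (LF (box z n)) (LF (box z' n')) := by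
  rw [Finset.disjoint_left]
  intro e h1 h2
  exact bsimp_far hd (bsimp_corner h1 (src e) (Or.inl rfl)) (bsimp_corner h2 (src e) (Or.inl rfl))

lemma bsimp_even_left {z z' : Pt} {n n' : ℕ} (hd : n + n' + 2 ≤ ldist z z') {w : Finset Edge}
    (hw : w ⊆ LF (box z n) ∪ LF (box z' n')) (he : Even' w) : Even' (w ∩ LF (box z n)) := by
  unfold Even' at he ⊢
  have hsum : bdy bdV w = bdy bdV (w ∩ LF (box z n)) + bdy bdV (w ∩ LF (box z' n')) := by
    unfold bdy
    rw [← Finset.sum_union]
    · congr 1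
      rw [← Finset.inter_union_distrib_left, Finset.inter_eq_left.mpr hw]
    · exact (bsimp_disj hd).mono Finset.inter_subset_right Finset.inter_subset_right
  funext v
  by_cases hv : (z.1 - n ≤ v.1 ∧ v.1 ≤ z.1 + n + 1) ∧ (z.2 - n ≤ v.2 ∧ v.2 ≤ z.2 + n + 1)
  · have h2 : bdy bdV (w ∩ LF (box z' n')) v = 0 := by
      apply bsimp_bdy_zero
      intro e hin
      have hin' := (Finset.mem_inter.mp hin).2
      refine ⟨fun hE => ?_, fun hE => ?_⟩
      · exact bsimp_far hd hv (bsimp_corner hin' v (Or.inl hE))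
      · exact bsimp_far hd hv (bsimp_corner hin' v (Or.inr hE))
    have h3 := congrFun (hsum.symm.trans he) v
    rw [Pi.add_apply, h2, add_zero] at h3
    exact h3
  · apply bsimp_bdy_zero
    intro e hin
    have hin' := (Finset.mem_inter.mp hin).2
    exact ⟨fun hE => hv (bsimp_corner hin' v (Or.inl hE)),
      fun hE => hv (bsimp_corner hin' v (Or.inr hE))⟩

lemma bsimp_ldist_comm (z z' : Pt) : ldist z z' = ldist z' z := by
  unfold ldist
  have h1 : (z.1 - z'.1).natAbs = (z'.1 - z.1).natAbs := by omega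
  have h2 : (z.2 - z'.2).natAbs = (z'.2 - z.2).natAbs := by omega
  rw [h1, h2]

lemma bsimp_LF_union (F F' : Finset Pt) : LF (F ∪ F') = LF F ∪ LF F' := by
  ext e
  rw [Finset.mem_union, bsimp_mem_LF, bsimp_mem_LF, bsimp_mem_LF, Finset.mem_union,
    Finset.mem_union]
  tauto

theorem boxSimp (h : GridFacts) : BoxSimp := by
  refine ⟨bsimp_one h, ?_⟩
  intro z z' n n' hd
  have hd' : n' + n + 2 ≤ ldist z' z := by
    rw [bsimp_ldist_comm]; omega
  refine ⟨?_, bsimp_disj hd, ?_⟩
  · intro w hw he u hu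
    rw [bsimp_LF_union] at hw
    have e1 := bsimp_even_left hd hw he
    have e2 : Even' (w ∩ LF (box z' n')) := by
      apply bsimp_even_left hd' _ he
      rwa [Finset.union_comm]
    have hu1 : u ∉ box z n := fun hin => hu (Finset.mem_union_left _ hin)
    have hu2 : u ∉ box z' n' := fun hin => hu (Finset.mem_union_right _ hin)
    have c1 := bsimp_one h z n _ Finset.inter_subset_right e1 u hu1
    have c2 := bsimp_one h z' n' _ Finset.inter_subset_right e2 u hu2
    have hc : cnt w u = cnt (w ∩ LF (box z n)) u + cnt (w ∩ LF (box z' n')) u := by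
      unfold cnt
      rw [← Finset.card_union_of_disjoint, ← Finset.filter_union,
        ← Finset.inter_union_distrib_left, Finset.inter_eq_left.mpr hw]
      exact Finset.disjoint_filter_filter
        ((bsimp_disj hd).mono Finset.inter_subset_right Finset.inter_subset_right)
    rw [hc]
    exact c1.add c2
  · intro A hA A' hA'
    ext e
    rw [Finset.mem_union, bsimp_mem_walls, bsimp_mem_walls, bsimp_mem_walls, Finset.mem_union,
      Finset.mem_union]
    have key : ¬ ((fa e ∈ A ∨ fb e ∈ A) ∧ (fa e ∈ A' ∨ fb e ∈ A')) := by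
      rintro ⟨h1, h2⟩
      have h3 : e ∈ LF (box z n) := bsimp_mem_LF.mpr (h1.imp (fun q => hA q) (fun q => hA q))
      have h4 : e ∈ LF (box z' n') := bsimp_mem_LF.mpr (h2.imp (fun q => hA' q) (fun q => hA' q))
      exact Finset.disjoint_left.mp (bsimp_disj hd) h3 h4
    tauto

end Pool.Agent.Lib.MP_6d40c9_pr
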