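import Pool.Agent.Lib.MP_6d40c9_pr.SpecM

/-!
# MP_6d40c9_pr: `BulkS`, lower bound for the second moment in a large box
-/

set_option autoImplicit false

namespace Pool.Agent.Lib.MP_6d40c9_pr

open Finset MeasureTheory Filter Topology TopologicalSpace
open scoped BigOperators symmDiff

private lemma bulkXcPos : 0 < xc := by
  unfold xc
  have : (1 : ℝ) < Real.sqrt 2 := by
    rw [show (1 : ℝ) = Real.sqrt 1 by simp]
    exact Real.sqrt_lt_sqrt (by norm_num) (by norm_num)
  linarith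

open Classical in
private lemma bulkZPos (D : Finset Edge) : 0 < Zp bdV D (fun _ => xc) 0 := by
  unfold Zp
  have hnn : ∀ η ∈ D.powerset, 0 ≤ (if bdy bdV η = 0 then ∏ e ∈ η, (fun _ => xc) e else 0 : ℝ) := by
    intro η _
    split_ifs
    · exact Finset.prod_nonneg fun _ _ => bulkXcPos.le
    · exact le_rfl
  refine lt_of_lt_of_le ?_ (Finset.single_le_sum hnn (Finset.empty_mem_powerset D))
  simp [bdy]

private lemma bulkMono (D : Finset Edge) (f g : Finset Edge → ℝ)
    (h : ∀ w, w ⊆ D → Even' w → f w ≤ g w) : lE D f ≤ lE D g := by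
  unfold lE lpE
  refine div_le_div_of_nonneg_right ?_ (bulkZPos D).le
  refine Finset.sum_le_sum fun η hη => ?_
  split_ifs with h0
  · exact mul_le_mul_of_nonneg_left (h η (Finset.mem_powerset.1 hη) h0)
      (Finset.prod_nonneg fun _ _ => bulkXcPos.le)
  · exact le_rfl

private lemma bulkCongr (D : Finset Edge) (f g : Finset Edge → ℝ)
    (h : ∀ w, w ⊆ D → Even' w → f w = g w) : lE D f = lE D g :=
  le_antisymm (bulkMono D f g fun w a b => (h w a b).le)
    (bulkMono D g f fun w a b => (h w a b).ge)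

private lemma bulkMul (D : Finset Edge) (c : ℝ) (f : Finset Edge → ℝ) :
    lE D (fun w => f w * c) = lE D f * c := by
  unfold lE lpE
  rw [div_mul_eq_mul_div, Finset.sum_mul]
  congr 1
  refine Finset.sum_congr rfl fun η _ => ?_
  split_ifs
  · ring
  · ring

private lemma bulkSum (D : Finset Edge) {κ : Type} (s : Finset κ) (f : κ → Finset Edge → ℝ) :
    lE D (fun w => ∑ i ∈ s, f i w) = ∑ i ∈ s, lE D (f i) := by
  unfold lE lpE
  rw [← Finset.sum_div, Finset.sum_comm]
  congr 1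
  refine Finset.sum_congr rfl fun η _ => ?_
  split_ifs
  · rw [Finset.mul_sum]
  · simp

private lemma bulkAdd (D : Finset Edge) (f g : Finset Edge → ℝ) :
    lE D (fun w => f w + g w) = lE D f + lE D g := by
  unfold lE lpE
  rw [← add_div, ← Finset.sum_add_distrib]
  congr 1
  refine Finset.sum_congr rfl fun η _ => ?_
  split_ifs
  · ring
  · ring

private lemma bulkOne (D : Finset Edge) : lE D (fun _ => 1) = 1 := by
  have hZ := bulkZPos D
  unfold lE lpE
  rw [div_eq_one_iff_eq hZ.ne']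
  unfold Zp
  refine Finset.sum_congr rfl fun η _ => ?_
  simp

private lemma bulkSgnSq (w : Finset Edge) (u : Pt) : sgn w u * sgn w u = 1 := by
  unfold sgn
  rw [← pow_add, ← two_mul, pow_mul]
  norm_num

private lemma bulkSgs (w : Finset Edge) (u v : Pt) :
    sgs ({u} ∆ {v}) w = sgn w u * sgn w v := by
  by_cases h : u = v
  · subst h
    rw [symmDiff_self, bulkSgnSq]
    simp [sgs]
  · have : ({u} : Finset Pt) ∆ {v} = {u, v} := by
      ext x
      simp only [Finset.mem_symmDiff, Finset.mem_singleton, Finset.mem_insert]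
      constructor
      · rintro (⟨a, _⟩ | ⟨a, _⟩)
        · exact Or.inl a
        · exact Or.inr a
      · rintro (a | a)
        · exact Or.inl ⟨a, fun b => h (a ▸ b)⟩
        · exact Or.inr ⟨a, fun b => h (b ▸ a)⟩
    rw [this]
    unfold sgs
    rw [Finset.prod_pair h]

private lemma bulkC2 (D : Finset Edge) (u v : Pt) : c2 D u v = lE D (sgs ({u} ∆ {v})) := by
  unfold c2
  exact bulkCongr D _ _ fun w _ _ => (bulkSgs w u v).symm

private lemma bulkSq (D : Finset Edge) (B : Finset Pt) :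
    lE D (fun w => (∑ u ∈ B, sgn w u) * ∑ v ∈ B, sgn w v) = ∑ u ∈ B, ∑ v ∈ B, c2 D u v := by
  have h : ∀ w : Finset Edge, (∑ u ∈ B, sgn w u) * ∑ v ∈ B, sgn w v
      = ∑ u ∈ B, ∑ v ∈ B, sgn w u * sgn w v := fun w => Finset.sum_mul_sum _ _ _ _
  simp only [h]
  rw [bulkSum]
  refine Finset.sum_congr rfl fun u _ => ?_
  rw [bulkSum]
  rfl

private lemma bulkSymm {w : Finset Edge} {a b : Edge} (ha : a ∈ w) (h : connE w a b) :
    b ∈ w ∧ connE w b a := by
  unfold connE at h ⊢
  induction h with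
  | refl => exact ⟨ha, Relation.ReflTransGen.refl⟩
  | tail _ hbc ih =>
    refine ⟨hbc.1, Relation.ReflTransGen.head ⟨ih.1, ?_⟩ ih.2⟩
    have := hbc.2
    unfold adjE at this ⊢
    tauto

private lemma bulkParity (h0 : GridFacts) {V : Finset Edge} (hV : Even' V) {n : ℕ}
    (hd : ∀ a ∈ V, a ∉ LF (box 0 n)) : ∀ u ∈ box 0 n, sgn V u = sgn V 0 := by
  have hmem : ∀ u : Pt, u ∈ box 0 n ↔ (-(n : ℤ) ≤ u.1 ∧ u.1 ≤ n) ∧ (-(n : ℤ) ≤ u.2 ∧ u.2 ≤ n) := by
    intro u
    simp [box]
  -- one step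
  have hstep : ∀ e : Edge, fa e ∈ box 0 n → fb e ∈ box 0 n → sgn V (fa e) = sgn V (fb e) := by
    intro e h1 h2
    have hLF : e ∈ LF (box 0 n) := by
      unfold LF
      refine Finset.mem_biUnion.2 ⟨fa e, h1, ?_⟩
      rcases e with ⟨⟨i, j⟩, b⟩
      cases b <;> simp [fa]
    have hnot : e ∉ V := fun h => hd e h hLF
    have := (h0.1 V hV e).not.2 hnot
    rw [Nat.not_odd_iff_even] at this
    unfold sgn
    rcases Nat.even_or_odd (cnt V (fa e)) with ha | ha
    · have hb : Even (cnt V (fb e)) := (Nat.even_add.1 this).1 ha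
      rw [ha.neg_one_pow, hb.neg_one_pow]
    · have hb : Odd (cnt V (fb e)) := by
        rw [← Nat.not_even_iff_odd] at ha ⊢
        exact fun h => ha ((Nat.even_add.1 this).2 h)
      rw [ha.neg_one_pow, hb.neg_one_pow]
  have hx : ∀ (k : ℕ) (j : ℤ), k ≤ n → -(n : ℤ) ≤ j → j ≤ n →
      sgn V ((k : ℤ), j) = sgn V (0, j) ∧ sgn V (-(k : ℤ), j) = sgn V (0, j) := by
    intro k j hk hj1 hj2
    induction k with
    | zero => simp
    | succ k ih =>
      obtain ⟨ih1, ih2⟩ := ih (by omega)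
      constructor
      · have h := hstep (((k : ℤ) + 1, j), true)
          (by simp only [fa, hmem]; omega) (by simp [fb]; rw [hmem]; simp; omega)
        simp only [fa, fb, if_true, add_sub_cancel_right] at h
        push_cast
        rw [h, ih1]
      · have h := hstep ((-(k : ℤ), j), true)
          (by simp only [fa, hmem]; omega) (by simp [fb]; rw [hmem]; simp; omega)
        simp only [fa, fb, if_true] at h
        push_cast
        rw [show -((k : ℤ) + 1) = -(k : ℤ) - 1 by ring, ← h, ih2]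
  have hy : ∀ k : ℕ, k ≤ n →
      sgn V (0, (k : ℤ)) = sgn V 0 ∧ sgn V (0, -(k : ℤ)) = sgn V 0 := by
    intro k hk
    induction k with
    | zero => exact ⟨rfl, by simp; rfl⟩
    | succ k ih =>
      obtain ⟨ih1, ih2⟩ := ih (by omega)
      constructor
      · have h := hstep ((0, (k : ℤ) + 1), false)
          (by simp only [fa, hmem]; omega) (by simp [fb]; rw [hmem]; simp; omega)
        simp only [fa, fb, Bool.false_eq_true, if_false, add_sub_cancel_right] at h
        push_cast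
        rw [h, ih1]
      · have h := hstep ((0, -(k : ℤ)), false)
          (by simp only [fa, hmem]; omega) (by simp [fb]; rw [hmem]; simp; omega)
        simp only [fa, fb, Bool.false_eq_true, if_false] at h
        push_cast
        rw [show -((k : ℤ) + 1) = -(k : ℤ) - 1 by ring, ← h, ih2]
  rintro ⟨i, j⟩ hu
  rw [hmem] at hu
  simp only at hu
  have h1 : sgn V (i, j) = sgn V (0, j) := by
    rcases Int.eq_nat_or_neg i with ⟨k, rfl | rfl⟩
    · exact (hx k j (by omega) hu.2.1 hu.2.2).1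
    · exact (hx k j (by omega) hu.2.1 hu.2.2).2
  have h2 : sgn V (0, j) = sgn V 0 := by
    rcases Int.eq_nat_or_neg j with ⟨k, rfl | rfl⟩
    · exact (hy k (by omega)).1
    · exact (hy k (by omega)).2
  rw [h1, h2]

private lemma bulkSplit {w V : Finset Edge} (hV : V ⊆ w) (u : Pt) :
    sgn w u = sgn V u * sgn (w \ V) u := by
  unfold sgn
  rw [← pow_add]
  congr 1
  unfold cnt
  rw [← Finset.card_union_of_disjoint]
  · congr 1
    rw [← Finset.filter_union, Finset.union_sdiff_of_subset hV]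
  · refine Finset.disjoint_filter_filter ?_
    exact Finset.disjoint_sdiff

private lemma bulkCardBox (n : ℕ) : (box 0 n).card = (2 * n + 1) ^ 2 := by
  unfold box
  rw [Finset.card_product, Int.card_Icc, Int.card_Icc, sq]
  congr 1 <;> simp <;> omega

private lemma bulkLFmono {F G : Finset Pt} (h : F ⊆ G) : LF F ⊆ LF G :=
  Finset.biUnion_subset_biUnion_of_subset_left _ h

open Classical in
theorem bulkS (h0 : GridFacts) (h1 : MonoC) (h2 : Markov) (h3 : NoCross) (_h4 : AaFacts)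
    (h5 : Transl) (h6 : CompFacts) : BulkS := by
  intro hz hmm
  obtain ⟨K₀, n₀, hK⟩ := hz (1 / 2) (by norm_num)
  obtain ⟨c, hc, hmc⟩ := hmm
  set K₁ : ℕ := 2 * K₀ + 3 with hK₁
  have hK₁pos : (0 : ℝ) < K₁ := by
    rw [hK₁]
    positivity
  refine ⟨K₁, max n₀ 1, 1 / 2 * (16 * (c ^ 2 * (2 * K₁ : ℝ) ^ (-(1 / 4) : ℝ))), by positivity,
    fun n N hn hN => ?_⟩
  have hn1 : 1 ≤ n := le_trans (le_max_right _ _) hn
  have hn0 : n₀ ≤ n := le_trans (le_max_left _ _) hn
  set M : ℕ := K₁ * n with hM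
  have hM3 : 3 * n ≤ M := by
    rw [hM]
    exact Nat.mul_le_mul_right n (by omega)
  set D : Finset Edge := LF (box 0 N) with hD
  set B : Finset Pt := box 0 n with hB
  obtain ⟨T, hT⟩ : ∃ T : Edge → Prop, ∀ e, T e ↔ e ∉ LF (box 0 M) := ⟨_, fun _ => Iff.rfl⟩
  obtain ⟨good, hgood⟩ : ∃ good : Finset Edge → Prop, ∀ V, good V ↔ ∀ a ∈ V, a ∉ LF B :=
    ⟨_, fun _ => Iff.rfl⟩
  obtain ⟨bad, hbd⟩ : ∃ bad : Finset Edge → Prop, bad = fun w => ∃ a ∈ w, ∃ b ∈ w,
    a ∈ LF (box 0 n) ∧ b ∉ LF (box 0 M) ∧ connE w a b := ⟨_, rfl⟩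
  set S : Finset Edge → ℝ := fun w => ∑ u ∈ B, sgn w u with hS
  set Q : ℝ := ∑ u ∈ B, ∑ v ∈ B, c2 (LF (box 0 M)) u v with hQ
  -- the probability of the good event
  have hbad : lP D bad ≤ 1 / 2 := by
    rw [hbd]
    refine (h3 D 0 n M (by omega)).trans (hK (n + 1) (M - 1) (by omega) ?_)
    have : K₀ * (n + 1) + 1 ≤ M := by
      rw [hM, hK₁]
      nlinarith
    omega
  have hgoodP : 1 / 2 ≤ lE D (fun w => if good (tc T w) then 1 else 0) := by
    have hsum : 1 ≤ lE D (fun w => (if good (tc T w) then (1 : ℝ) else 0) +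
        (if bad w then 1 else 0)) := by
      refine (bulkOne D).ge.trans ?_
      refine bulkMono D _ _ fun w _ _ => ?_
      by_cases hg : good (tc T w)
      · rw [if_pos hg]
        split_ifs <;> norm_num
      · rw [if_neg hg]
        have hex : bad w := by
          rw [hbd]
          rw [hgood] at hg
          simp only [not_forall, not_not] at hg
          obtain ⟨a, ha, haL⟩ := hg
          unfold tc at ha
          obtain ⟨haw, b, hb, hTb, hba⟩ := Finset.mem_filter.1 ha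
          exact ⟨a, haw, b, hb, haL, (hT b).1 hTb, (bulkSymm hb hba).2⟩
        rw [if_pos hex]
        norm_num
    rw [bulkAdd] at hsum
    have : lE D (fun w => if bad w then (1 : ℝ) else 0) ≤ 1 / 2 := hbad
    linarith
  -- lower bound for the conditional expectation
  have hrest : ∀ V : Finset Edge, Q ≤ lE (rest D V T) (fun w' => S w' * S w') := by
    intro V
    have h7 : lE (rest D V T) (fun w' => S w' * S w') =
        ∑ u ∈ B, ∑ v ∈ B, c2 (rest D V T) u v := bulkSq _ _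
    rw [h7, hQ]
    refine Finset.sum_le_sum fun u _ => Finset.sum_le_sum fun v _ => ?_
    rw [bulkC2, bulkC2]
    refine (h1 (LF (box 0 M)) (rest D V T) ({u} ∆ {v}) ∅ ?_).2.1
    intro e he
    unfold rest at he
    have := (Finset.mem_filter.1 he).2.1
    rw [hT, not_not] at this
    exact this
  -- the main inequality
  have hmain : 1 / 2 * Q ≤ ∑ u ∈ B, ∑ v ∈ B, c2 D u v := by
    have hQ0 : 0 ≤ Q := by
      refine Finset.sum_nonneg fun u _ => Finset.sum_nonneg fun v _ => ?_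
      rw [bulkC2]
      exact (h1 (LF (box 0 M)) (LF (box 0 M)) ({u} ∆ {v}) ∅ (Finset.Subset.refl _)).1
    calc 1 / 2 * Q ≤ lE D (fun w => if good (tc T w) then 1 else 0) * Q :=
          mul_le_mul_of_nonneg_right hgoodP hQ0
      _ = lE D (fun w => (if good (tc T w) then 1 else 0) * Q) := (bulkMul _ _ _).symm
      _ ≤ lE D (fun w => lE (rest D (tc T w) T)
            (fun w' => (if good (tc T w) then S w' * S w' else 0))) := by
          refine bulkMono D _ _ fun w _ _ => ?_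
          by_cases hg : good (tc T w)
          · simp only [if_pos hg, one_mul]
            exact hrest _
          · simp only [if_neg hg, zero_mul]
            have : lE (rest D (tc T w) T) (fun _ => (0 : ℝ)) = 0 := by
              have h8 := bulkMul (rest D (tc T w) T) 0 (fun _ => 1)
              simpa using h8
            rw [this]
      _ = lE D (fun w => if good (tc T w) then S (w \ tc T w) * S (w \ tc T w) else 0) :=
          (h2.2 D T (fun V w' => if good V then S w' * S w' else 0)).symm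
      _ ≤ lE D (fun w => S w * S w) := by
          refine bulkMono D _ _ fun w _ hw => ?_
          split_ifs with hg
          · have hsub : tc T w ⊆ w := (h6.2.2.2.1 T w).1
            have hev : Even' (tc T w) := (h6.2.2.2.1 T w).2.2.1 hw
            have hSw : S w = sgn (tc T w) 0 * S (w \ tc T w) := by
              simp only [hS]
              rw [Finset.mul_sum]
              refine Finset.sum_congr rfl fun u hu => ?_
              rw [bulkSplit hsub u, bulkParity h0 hev ((hgood _).1 hg) u hu]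
            rw [hSw]
            have h9 := bulkSgnSq (tc T w) 0
            have : sgn (tc T w) 0 * S (w \ tc T w) * (sgn (tc T w) 0 * S (w \ tc T w)) =
                (sgn (tc T w) 0 * sgn (tc T w) 0) * (S (w \ tc T w) * S (w \ tc T w)) := by ring
            rw [this, h9, one_mul]
          · exact mul_self_nonneg _
      _ = ∑ u ∈ B, ∑ v ∈ B, c2 D u v := bulkSq _ _
  -- lower bound for Q
  have hm2 : c * (2 * M : ℝ) ^ (-(1 / 8) : ℝ) ≤ mm (2 * M) := by
    have := hmc (2 * M) (by omega)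
    push_cast at this
    exact this
  have hmm0 : 0 ≤ c * (2 * M : ℝ) ^ (-(1 / 8) : ℝ) := by positivity
  have hQlow : ((2 * n + 1 : ℝ) ^ 2) ^ 2 * (c * (2 * M : ℝ) ^ (-(1 / 8) : ℝ)) ^ 2 ≤ Q := by
    have hone : ∀ u ∈ B, c * (2 * M : ℝ) ^ (-(1 / 8) : ℝ) ≤ lE (LF (box 0 M)) (sgs {u}) := by
      intro u hu
      have h8 : c1 (LF (box u (2 * M))) u = mm (2 * M) := (h5.2.2.1 u 0 (2 * M)).2.1
      have h9 : c1 (LF (box u (2 * M))) u = lE (LF (box u (2 * M))) (sgs {u}) := by
        unfold c1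
        exact bulkCongr _ _ _ fun w _ _ => by simp [sgs]
      rw [h9] at h8
      rw [← h8] at hm2
      refine hm2.trans ?_
      refine (h1 (LF (box u (2 * M))) (LF (box 0 M)) {u} ∅ ?_).2.1
      refine bulkLFmono ?_
      intro x hx
      rw [hB] at hu
      simp only [box, Finset.mem_product, Finset.mem_Icc, Prod.fst_zero, Prod.snd_zero] at hx hu ⊢
      push_cast
      omega
    have htwo : ∀ u ∈ B, ∀ v ∈ B, (c * (2 * M : ℝ) ^ (-(1 / 8) : ℝ)) ^ 2 ≤
        c2 (LF (box 0 M)) u v := by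
      intro u hu v hv
      rw [bulkC2, sq]
      refine le_trans (mul_le_mul (hone u hu) (hone v hv) hmm0 (hmm0.trans (hone u hu))) ?_
      exact (h1 (LF (box 0 M)) (LF (box 0 M)) {u} {v} (Finset.Subset.refl _)).2.2.2
    have h10 : ∑ u ∈ B, ∑ v ∈ B, (c * (2 * M : ℝ) ^ (-(1 / 8) : ℝ)) ^ 2 ≤ Q :=
      Finset.sum_le_sum fun u hu => Finset.sum_le_sum fun v hv => htwo u hu v hv
    rw [Finset.sum_const, Finset.sum_const, hB, bulkCardBox, nsmul_eq_mul, nsmul_eq_mul] at h10
    push_cast at h10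
    nlinarith [h10]
  refine le_trans ?_ hmain
  -- numbers
  have hnpos : (0 : ℝ) < n := by exact_mod_cast hn1
  have e1 : (2 * M : ℝ) = (2 * K₁) * n := by
    rw [hM]
    push_cast
    ring
  have e2 : ((2 * M : ℝ) ^ (-(1 / 8) : ℝ)) ^ 2 =
      (2 * K₁ : ℝ) ^ (-(1 / 4) : ℝ) * (n : ℝ) ^ (-(1 / 4) : ℝ) := by
    rw [e1, ← Real.rpow_natCast, ← Real.rpow_mul (by positivity),
      Real.mul_rpow (by positivity) hnpos.le]
    norm_num
  have e3 : (n : ℝ) ^ (15 / 4 : ℝ) = (n : ℝ) ^ 4 * (n : ℝ) ^ (-(1 / 4) : ℝ) := by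
    rw [← Real.rpow_natCast, ← Real.rpow_add hnpos]
    norm_num
  have e4 : 16 * (n : ℝ) ^ 4 ≤ ((2 * n + 1 : ℝ) ^ 2) ^ 2 := by
    have h1 : (2 * n : ℝ) ^ 4 ≤ (2 * n + 1 : ℝ) ^ 4 :=
      pow_le_pow_left₀ (by positivity) (by linarith) 4
    calc 16 * (n : ℝ) ^ 4 = (2 * n : ℝ) ^ 4 := by ring
      _ ≤ (2 * n + 1 : ℝ) ^ 4 := h1
      _ = _ := by ring
  have e5 : 16 * (c ^ 2 * (2 * K₁ : ℝ) ^ (-(1 / 4) : ℝ)) * (n : ℝ) ^ (15 / 4 : ℝ) ≤ Q := by
    refine le_trans ?_ hQlow
    rw [mul_pow, e2, e3]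
    have e6 : 0 ≤ c ^ 2 * ((2 * K₁ : ℝ) ^ (-(1 / 4) : ℝ) * (n : ℝ) ^ (-(1 / 4) : ℝ)) := by
      positivity
    calc 16 * (c ^ 2 * (2 * K₁ : ℝ) ^ (-(1 / 4) : ℝ)) *
          ((n : ℝ) ^ 4 * (n : ℝ) ^ (-(1 / 4) : ℝ))
        = 16 * (n : ℝ) ^ 4 * (c ^ 2 * ((2 * K₁ : ℝ) ^ (-(1 / 4) : ℝ) *
            (n : ℝ) ^ (-(1 / 4) : ℝ))) := by ring
      _ ≤ _ := mul_le_mul_of_nonneg_right e4 e6
  calc 1 / 2 * (16 * (c ^ 2 * (2 * K₁ : ℝ) ^ (-(1 / 4) : ℝ))) * (n : ℝ) ^ (15 / 4 : ℝ)
      = 1 / 2 * (16 * (c ^ 2 * (2 * K₁ : ℝ) ^ (-(1 / 4) : ℝ)) * (n : ℝ) ^ (15 / 4 : ℝ)) := by ring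
    _ ≤ 1 / 2 * Q := by linarith

end Pool.Agent.Lib.MP_6d40c9_pr
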