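import Pool.Agent.Lib.MP_6d40c9_pr.SpecG

/-!
# MP_6d40c9_pr: components of sets of edges
-/

set_option autoImplicit false

namespace Pool.Agent.Lib.MP_6d40c9_pr

open Finset
open scoped BigOperators symmDiff

theorem cfx_adj_symm {a b : Edge} (h : adjE a b) : adjE b a := by
  rcases h with h | h | h | h
  · exact Or.inl h.symm
  · exact Or.inr (Or.inr (Or.inl h.symm))
  · exact Or.inr (Or.inl h.symm)
  · exact Or.inr (Or.inr (Or.inr h.symm))

theorem cfx_conn_mem {w : Finset Edge} {a b : Edge} (ha : a ∈ w) (h : connE w a b) : b ∈ w := by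
  induction h with
  | refl => exact ha
  | tail _ h2 _ => exact h2.1

theorem cfx_conn_symm {w : Finset Edge} {a b : Edge} (ha : a ∈ w) (h : connE w a b) :
    connE w b a := by
  induction h with
  | refl => exact Relation.ReflTransGen.refl
  | tail h1 h2 ih => exact Relation.ReflTransGen.head ⟨cfx_conn_mem ha h1, cfx_adj_symm h2.2⟩ ih

theorem cfx_conn_mono {w C : Finset Edge} (hC : C ⊆ w) {a b : Edge} (h : connE C a b) :
    connE w a b := by
  induction h with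
  | refl => exact Relation.ReflTransGen.refl
  | tail _ h2 ih => exact ih.tail ⟨hC h2.1, h2.2⟩

/-- `C` is a union of components of `w`. -/
def CfClosed (w C : Finset Edge) : Prop := C ⊆ w ∧ ∀ a ∈ C, ∀ b ∈ w, adjE a b → b ∈ C

theorem cfx_closed_conn {w C : Finset Edge} (hC : CfClosed w C) {a b : Edge} (ha : a ∈ C)
    (h : connE w a b) : b ∈ C ∧ connE C a b := by
  induction h with
  | refl => exact ⟨ha, Relation.ReflTransGen.refl⟩
  | tail _ h2 ih =>
    have hb := hC.2 _ ih.1 _ h2.1 h2.2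
    exact ⟨hb, ih.2.tail ⟨hb, h2.2⟩⟩

theorem cfx_closed_compl {w C : Finset Edge} (hC : CfClosed w C) : CfClosed w (w \ C) := by
  refine ⟨sdiff_subset, fun a ha b hb hab => ?_⟩
  rw [mem_sdiff] at ha ⊢
  exact ⟨hb, fun hbC => ha.2 (hC.2 b hbC a ha.1 (cfx_adj_symm hab))⟩

theorem cfx_bdV_ne {e : Edge} {v : Pt} (h : bdV e v ≠ 0) : src e = v ∨ tgt e = v := by
  by_contra hcon
  push Not at hcon
  apply h
  unfold bdV
  rw [Pi.add_apply, Pi.single_eq_of_ne (Ne.symm hcon.1), Pi.single_eq_of_ne (Ne.symm hcon.2),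
    add_zero]

theorem cfx_touch {a b : Edge} {v : Pt} (ha : src a = v ∨ tgt a = v) (hb : src b = v ∨ tgt b = v) :
    adjE a b := by
  rcases ha with ha | ha <;> rcases hb with hb | hb
  · exact Or.inl (ha.trans hb.symm)
  · exact Or.inr (Or.inl (ha.trans hb.symm))
  · exact Or.inr (Or.inr (Or.inl (ha.trans hb.symm)))
  · exact Or.inr (Or.inr (Or.inr (ha.trans hb.symm)))

theorem cfx_closed_even {w C : Finset Edge} (hC : CfClosed w C) (hw : Even' w) : Even' C := by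
  unfold Even' bdy at hw ⊢
  funext v
  have hwv := congrFun hw v
  rw [Finset.sum_apply, Pi.zero_apply] at hwv ⊢
  by_cases h : ∃ a ∈ C, bdV a v ≠ 0
  · obtain ⟨a, ha, hav⟩ := h
    rw [← hwv]
    refine sum_subset hC.1 fun e he heC => ?_
    by_contra hne
    exact heC (hC.2 a ha e he (cfx_touch (cfx_bdV_ne hav) (cfx_bdV_ne hne)))
  · push Not at h
    exact sum_eq_zero h

theorem cfx_mem_comp {w : Finset Edge} {a b : Edge} : b ∈ comp w a ↔ b ∈ w ∧ connE w a b := by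
  simp only [comp, mem_filter]

theorem cfx_self {w : Finset Edge} {a : Edge} (ha : a ∈ w) : a ∈ comp w a :=
  cfx_mem_comp.2 ⟨ha, Relation.ReflTransGen.refl⟩

theorem cfx_comp_eq {w : Finset Edge} {a b : Edge} (ha : a ∈ w) (hb : b ∈ comp w a) :
    comp w b = comp w a := by
  rw [cfx_mem_comp] at hb
  ext x
  rw [cfx_mem_comp, cfx_mem_comp]
  constructor
  · rintro ⟨hx, h⟩
    exact ⟨hx, hb.2.trans h⟩
  · rintro ⟨hx, h⟩
    exact ⟨hx, (cfx_conn_symm ha hb.2).trans h⟩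

theorem cfx_comp_closed (w : Finset Edge) (a : Edge) : CfClosed w (comp w a) := by
  refine ⟨fun x hx => (cfx_mem_comp.1 hx).1, fun x hx b hb hxb => ?_⟩
  rw [cfx_mem_comp] at hx ⊢
  exact ⟨hb, hx.2.tail ⟨hb, hxb⟩⟩

theorem cfx_comp_closed_eq {w C : Finset Edge} (hC : CfClosed w C) {a : Edge} (ha : a ∈ C) :
    comp C a = comp w a := by
  ext x
  rw [cfx_mem_comp, cfx_mem_comp]
  constructor
  · rintro ⟨hx, h⟩
    exact ⟨hC.1 hx, cfx_conn_mono hC.1 h⟩
  · rintro ⟨_, h⟩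
    exact cfx_closed_conn hC ha h

theorem cfx_mem_comps {w c : Finset Edge} : c ∈ comps w ↔ ∃ a ∈ w, comp w a = c := by
  unfold comps
  rw [mem_image]

theorem cfx_mem_comps_closed {w C c : Finset Edge} (hC : CfClosed w C) :
    c ∈ comps C ↔ ∃ a ∈ C, comp w a = c := by
  rw [cfx_mem_comps]
  constructor
  · rintro ⟨a, ha, h⟩
    exact ⟨a, ha, (cfx_comp_closed_eq hC ha).symm.trans h⟩
  · rintro ⟨a, ha, h⟩
    exact ⟨a, ha, (cfx_comp_closed_eq hC ha).trans h⟩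

theorem cfx_mem_tc {T : Edge → Prop} {w : Finset Edge} {b : Edge} :
    b ∈ tc T w ↔ b ∈ w ∧ ∃ a ∈ w, T a ∧ connE w a b := by
  simp only [tc, mem_filter]

theorem cfx_tc_closed (T : Edge → Prop) (w : Finset Edge) : CfClosed w (tc T w) := by
  refine ⟨fun x hx => (cfx_mem_tc.1 hx).1, fun x hx b hb hxb => ?_⟩
  rw [cfx_mem_tc] at hx ⊢
  obtain ⟨_, a, ha, hT, h⟩ := hx
  exact ⟨hb, a, ha, hT, h.tail ⟨hb, hxb⟩⟩

theorem cfx_cnt (w : Finset Edge) (u : Pt) : cnt w u = ∑ c ∈ comps w, cnt c u := by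
  classical
  unfold cnt
  have h1 : ∀ a ∈ w.filter (fun e => e.2 = false ∧ e.1.1 = u.1 ∧ u.2 < e.1.2),
      comp w a ∈ comps w := fun a ha => cfx_mem_comps.2 ⟨a, (mem_filter.1 ha).1, rfl⟩
  rw [card_eq_sum_card_fiberwise h1]
  refine sum_congr rfl fun c hc => ?_
  congr 1
  ext x
  simp only [mem_filter]
  obtain ⟨a, ha, rfl⟩ := cfx_mem_comps.1 hc
  constructor
  · rintro ⟨⟨hx, hP⟩, h⟩
    refine ⟨?_, hP⟩
    rw [← h]
    exact cfx_self hx
  · rintro ⟨hx, hP⟩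
    exact ⟨⟨(cfx_mem_comp.1 hx).1, hP⟩, cfx_comp_eq ha hx⟩

theorem cfx_reach {c : Finset Edge} {a b : Edge} (ha : a ∈ c) (h : connE c a b) :
    Reach c (src a) (src b) := by
  induction h with
  | refl => exact Relation.ReflTransGen.refl
  | @tail x y h1 h2 ih =>
    have hx := cfx_conn_mem ha h1
    rcases h2.2 with h | h | h | h
    · rw [← h]
      exact ih
    · rw [h] at ih
      exact ih.tail ⟨y, h2.1, Or.inr ⟨rfl, rfl⟩⟩
    · refine ih.tail ⟨x, hx, Or.inl ⟨rfl, h⟩⟩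
    · exact (ih.tail ⟨x, hx, Or.inl ⟨rfl, rfl⟩⟩).tail ⟨y, h2.1, Or.inr ⟨rfl, h.symm⟩⟩

theorem compFacts : CompFacts := by
  refine ⟨fun w => ⟨?_, ?_, ?_⟩, ?_, ?_, ?_, ?_⟩
  · intro c hc
    obtain ⟨a, ha, rfl⟩ := cfx_mem_comps.1 hc
    have hcl := cfx_comp_closed w a
    refine ⟨hcl.1, ⟨a, cfx_self ha⟩, fun b hb => (cfx_comp_eq ha hb).symm, ?_, hcl.2⟩
    intro x hx y hy
    have hxw := (cfx_mem_comp.1 hx).1
    have h1 : connE w x y :=
      (cfx_conn_symm ha (cfx_mem_comp.1 hx).2).trans (cfx_mem_comp.1 hy).2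
    exact (cfx_closed_conn hcl hx h1).2
  · intro c hc c' hc' hne
    obtain ⟨a, ha, rfl⟩ := cfx_mem_comps.1 hc
    obtain ⟨a', ha', rfl⟩ := cfx_mem_comps.1 hc'
    constructor
    · rw [disjoint_left]
      intro x hx hx'
      exact hne ((cfx_comp_eq ha hx).symm.trans (cfx_comp_eq ha' hx'))
    · intro x hx y hy hxy
      have hy' := (cfx_comp_closed w a).2 x hx y (cfx_mem_comp.1 hy).1 hxy
      exact hne ((cfx_comp_eq ha hy').symm.trans (cfx_comp_eq ha' hy))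
  · intro a ha
    exact ⟨comp w a, cfx_mem_comps.2 ⟨a, ha, rfl⟩, cfx_self ha⟩
  · intro w hw c hc
    obtain ⟨a, ha, rfl⟩ := cfx_mem_comps.1 hc
    exact cfx_closed_even (cfx_comp_closed w a) hw
  · intro w u
    unfold sgn
    rw [cfx_cnt, ← prod_pow_eq_pow_sum]
  · intro T w
    have hcl := cfx_tc_closed T w
    have hcl' := cfx_closed_compl hcl
    refine ⟨hcl.1, ?_, cfx_closed_even hcl, cfx_closed_even hcl', ?_, ?_⟩
    · refine Subset.antisymm (cfx_tc_closed T _).1 fun b hb => ?_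
      obtain ⟨_, a, ha, hT, h⟩ := cfx_mem_tc.1 hb
      have ha' : a ∈ tc T w := cfx_mem_tc.2 ⟨ha, a, ha, hT, Relation.ReflTransGen.refl⟩
      exact cfx_mem_tc.2 ⟨hb, a, ha', hT, (cfx_closed_conn hcl ha' h).2⟩
    · intro c
      rw [cfx_mem_comps_closed hcl]
      constructor
      · rintro ⟨b, hb, rfl⟩
        obtain ⟨hbw, a, ha, hT, h⟩ := cfx_mem_tc.1 hb
        exact ⟨cfx_mem_comps.2 ⟨b, hbw, rfl⟩, a, cfx_mem_comp.2 ⟨ha, cfx_conn_symm ha h⟩, hT⟩
      · rintro ⟨hc, a, hac, hT⟩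
        obtain ⟨b, hb, rfl⟩ := cfx_mem_comps.1 hc
        obtain ⟨ha, h⟩ := cfx_mem_comp.1 hac
        exact ⟨b, cfx_mem_tc.2 ⟨hb, a, ha, hT, cfx_conn_symm hb h⟩, rfl⟩
    · intro c
      rw [cfx_mem_comps_closed hcl']
      constructor
      · rintro ⟨b, hb, rfl⟩
        obtain ⟨hbw, hbt⟩ := mem_sdiff.1 hb
        refine ⟨cfx_mem_comps.2 ⟨b, hbw, rfl⟩, fun a hac hT => hbt ?_⟩
        obtain ⟨ha, h⟩ := cfx_mem_comp.1 hac
        exact cfx_mem_tc.2 ⟨hbw, a, ha, hT, cfx_conn_symm hbw h⟩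
      · rintro ⟨hc, hT⟩
        obtain ⟨b, hb, rfl⟩ := cfx_mem_comps.1 hc
        refine ⟨b, mem_sdiff.2 ⟨hb, fun hbt => ?_⟩, rfl⟩
        obtain ⟨_, a, ha, hTa, h⟩ := cfx_mem_tc.1 hbt
        exact hT a (cfx_mem_comp.2 ⟨ha, cfx_conn_symm ha h⟩) hTa
  · intro c a b ha _ h
    exact cfx_reach ha h

end Pool.Agent.Lib.MP_6d40c9_pr
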