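import Pool.Agent.Lib.MP_6d40c9_pr.SpecP

/-!
# Conditional expectation for the loop measure
-/

set_option autoImplicit false

namespace Pool.Agent.Lib.MP_6d40c9_pr

open Finset MeasureTheory Filter Topology TopologicalSpace Metric
open scoped BigOperators symmDiff

open Classical in
private theorem condE_congr (h : LEFacts) (D : Finset Edge) (g g' : Finset Edge → ℝ)
    (hg : ∀ w ⊆ D, g w = g' w) : lE D g = lE D g' :=
  le_antisymm (h.2.2.1 D g g' fun w hw _ => (hg w hw).le)
    (h.2.2.1 D g' g fun w hw _ => (hg w hw).ge)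

private theorem condE_smul (h : LEFacts) (D : Finset Edge) (a : ℝ) (g : Finset Edge → ℝ) :
    lE D (fun w => a * g w) = a * lE D g := by
  have := h.2.1 D a 0 g g
  rw [zero_mul, add_zero] at this
  rw [← this]
  congr 1
  funext w
  ring

private theorem condE_sub (h : LEFacts) (D : Finset Edge) (g g' : Finset Edge → ℝ) :
    lE D (fun w => g w - g' w) = lE D g - lE D g' := by
  have := h.2.1 D 1 (-1) g g'
  have e : (fun w => g w - g' w) = fun w => 1 * g w + -1 * g' w := by funext w; ring
  rw [e, this]
  ring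

private theorem condE_add (h : LEFacts) (D : Finset Edge) (g g' : Finset Edge → ℝ) :
    lE D (fun w => g w + g' w) = lE D g + lE D g' := by
  have := h.2.1 D 1 1 g g'
  have e : (fun w => g w + g' w) = fun w => 1 * g w + 1 * g' w := by funext w; ring
  rw [e, this]
  ring

open Classical in
private theorem condE_one (h : LEFacts) {Q : Type} (D : Finset Edge) (q : Finset Edge → Q)
    (F : Finset Edge → ℝ) (v : Q) :
    lE D (fun w => if q w = v then F w - cE D q F v else 0) = 0 := by
  have e1 : (fun w => if q w = v then F w - cE D q F v else 0) =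
      fun w => (if q w = v then F w else 0) - cE D q F v * (if q w = v then (1 : ℝ) else 0) := by
    funext w
    split_ifs <;> simp
  rw [e1, condE_sub h, condE_smul h]
  have hP : lE D (fun w => if q w = v then (1 : ℝ) else 0) = lP D (fun w => q w = v) := by
    rfl
  rw [hP]
  unfold cE
  by_cases h0 : lP D (fun w => q w = v) = 0
  · rw [h0, mul_zero, sub_zero]
    have h1 := h.2.2.2.1 D (fun w => if q w = v then (1 : ℝ) else 0) F
    have e2 : (fun w => (if q w = v then (1 : ℝ) else 0) ^ 2) =
        fun w => if q w = v then (1 : ℝ) else 0 := by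
      funext w; split_ifs <;> simp
    have e3 : (fun w => (if q w = v then (1 : ℝ) else 0) * F w) =
        fun w => if q w = v then F w else 0 := by
      funext w; split_ifs <;> simp
    rw [e2, e3, hP, h0, zero_mul] at h1
    exact pow_eq_zero_iff (two_ne_zero) |>.1 (le_antisymm h1 (sq_nonneg _))
  · rw [div_mul_cancel₀ _ h0, sub_self]

open Classical in
private theorem condE_main (h : LEFacts) {Q : Type} (D : Finset Edge) (q : Finset Edge → Q)
    (F : Finset Edge → ℝ) (g : Q → ℝ) :
    lE D (fun w => (F w - cE D q F (q w)) * g (q w)) = 0 := by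
  set s : Finset Q := D.powerset.image q with hs
  have e1 : lE D (fun w => (F w - cE D q F (q w)) * g (q w)) =
      lE D (fun w => ∑ v ∈ s, g v * (if q w = v then F w - cE D q F v else 0)) := by
    refine condE_congr h D _ _ fun w hw => ?_
    have hm : q w ∈ s := mem_image_of_mem _ (mem_powerset.2 hw)
    rw [Finset.sum_eq_single_of_mem (q w) hm]
    · rw [if_pos rfl]; ring
    · intro v _ hv
      rw [if_neg (fun hh => hv hh.symm), mul_zero]
  rw [e1, h.2.2.2.2.1 D Q s (fun v w => g v * (if q w = v then F w - cE D q F v else 0))]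
  refine Finset.sum_eq_zero fun v _ => ?_
  rw [condE_smul h, condE_one h, mul_zero]

open Classical in
private theorem condE_sq (h : LEFacts) {Q : Type} (D : Finset Edge) (q : Finset Edge → Q)
    (F : Finset Edge → ℝ) (ψ : Q → ℝ) :
    lE D (fun w => ψ (q w) * (F w - cE D q F (q w)) ^ 2) =
      lE D (fun w => ψ (q w) * F w ^ 2) - lE D (fun w => ψ (q w) * cE D q F (q w) ^ 2) := by
  have h1 := condE_main h D q F (fun v => ψ v * cE D q F v)
  have e1 : (fun w => ψ (q w) * (F w - cE D q F (q w)) ^ 2) = fun w =>
      (ψ (q w) * F w ^ 2 - ψ (q w) * cE D q F (q w) ^ 2) -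
        2 * ((F w - cE D q F (q w)) * (ψ (q w) * cE D q F (q w))) := by
    funext w; ring
  rw [e1, condE_sub h, condE_sub h, condE_smul h, h1, mul_zero, sub_zero]

theorem condE (h : LEFacts) : CondE := by
  classical
  intro Q D q F
  have hnn : ∀ g : Finset Edge → ℝ, (∀ w, 0 ≤ g w) → 0 ≤ lE D g := by
    intro g hg
    have h1 := h.2.2.1 D (fun _ => 0) g fun w _ _ => hg w
    have h2 := condE_smul h D 0 (fun _ => 1)
    simp only [zero_mul] at h2
    rwa [h2] at h1
  refine ⟨fun g => condE_main h D q F g, ?_, ?_, ?_⟩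
  · intro C
    have h1 := condE_sq h D q F (fun v => if C v then (1 : ℝ) else 0)
    have h2 : 0 ≤ lE D (fun w => (if C (q w) then (1 : ℝ) else 0) *
        (F w - cE D q F (q w)) ^ 2) := by
      refine hnn _ fun w => mul_nonneg ?_ (sq_nonneg _)
      split_ifs <;> norm_num
    have e1 : (fun w => if C (q w) then cE D q F (q w) ^ 2 else 0) =
        fun w => (if C (q w) then (1 : ℝ) else 0) * cE D q F (q w) ^ 2 := by
      funext w; split_ifs <;> simp
    have e2 : (fun w => if C (q w) then F w ^ 2 else 0) =
        fun w => (if C (q w) then (1 : ℝ) else 0) * F w ^ 2 := by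
      funext w; split_ifs <;> simp
    rw [e1, e2]
    linarith
  · have h1 := condE_sq h D q F (fun v => cE D q F v ^ 2)
    have h2 : 0 ≤ lE D (fun w => cE D q F (q w) ^ 2 * (F w - cE D q F (q w)) ^ 2) :=
      hnn _ fun w => mul_nonneg (sq_nonneg _) (sq_nonneg _)
    have e1 : (fun w => cE D q F (q w) ^ 2 * cE D q F (q w) ^ 2) =
        fun w => cE D q F (q w) ^ 4 := by funext w; ring
    rw [e1] at h1
    have h3 : lE D (fun w => cE D q F (q w) ^ 2 * F w ^ 2) ≤
        lE D (fun w => 1 / 2 * cE D q F (q w) ^ 4 + 1 / 2 * F w ^ 4) := by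
      refine h.2.2.1 D _ _ fun w _ _ => ?_
      nlinarith [sq_nonneg (cE D q F (q w) ^ 2 - F w ^ 2)]
    rw [h.2.1 D (1 / 2) (1 / 2) (fun w => cE D q F (q w) ^ 4) (fun w => F w ^ 4)] at h3
    linarith
  · have h1 := condE_sq h D q F (fun _ => 1)
    simp only [one_mul] at h1
    have h2 : 0 ≤ lE D (fun w => cE D q F (q w) ^ 2) := hnn _ fun w => sq_nonneg _
    linarith

end Pool.Agent.Lib.MP_6d40c9_pr
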