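import Pool.Agent.Lib.MP_6d40c9_pr.SpecL

/-!
# `ConnS`: connectedness of the loops passes to the limit
-/

set_option autoImplicit false

namespace Pool.Agent.Lib.MP_6d40c9_pr

open Finset MeasureTheory Filter Topology TopologicalSpace Metric
open scoped BigOperators

/-- The set of the compact sets which are not connected is open. -/
private lemma connS_open (K₀ : NonemptyCompacts (ℝ × ℝ)) (h : ¬ IsConnected (K₀ : Set (ℝ × ℝ))) :
    ∃ l > 0, ∀ K : NonemptyCompacts (ℝ × ℝ), dist K K₀ < l → ¬ IsConnected (K : Set (ℝ × ℝ)) := by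
  have hK₀ : IsCompact (K₀ : Set (ℝ × ℝ)) := K₀.isCompact
  have hpre : ¬ IsPreconnected (K₀ : Set (ℝ × ℝ)) := fun hp => h ⟨K₀.nonempty, hp⟩
  rw [isPreconnected_iff_subset_of_fully_disjoint_closed hK₀.isClosed] at hpre
  push Not at hpre
  obtain ⟨u, v, hu, hv, hsub, hdis, hnu, hnv⟩ := hpre
  have hc1 : IsCompact ((K₀ : Set (ℝ × ℝ)) ∩ u) := hK₀.inter_right hu
  have hc2 : IsCompact ((K₀ : Set (ℝ × ℝ)) ∩ v) := hK₀.inter_right hv
  have hd : Disjoint ((K₀ : Set (ℝ × ℝ)) ∩ u) ((K₀ : Set (ℝ × ℝ)) ∩ v) :=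
    hdis.mono Set.inter_subset_right Set.inter_subset_right
  obtain ⟨l, hl, hth⟩ := hd.exists_thickenings hc1 hc2.isClosed
  refine ⟨l, hl, fun K hK hcon => ?_⟩
  have hfin : hausdorffEDist (K : Set (ℝ × ℝ)) (K₀ : Set (ℝ × ℝ)) ≠ ⊤ :=
    hausdorffEDist_ne_top_of_nonempty_of_bounded K.nonempty K₀.nonempty K.isCompact.isBounded
      K₀.isCompact.isBounded
  rw [NonemptyCompacts.dist_eq] at hK
  obtain ⟨x, hx, hxu⟩ := Set.not_subset.1 hnu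
  obtain ⟨y, hy, hyv⟩ := Set.not_subset.1 hnv
  have hxv : x ∈ v := (hsub hx).resolve_left hxu
  have hyu : y ∈ u := (hsub hy).resolve_right hyv
  have hcov : (K : Set (ℝ × ℝ)) ⊆ thickening l ((K₀ : Set (ℝ × ℝ)) ∩ u) ∪
      thickening l ((K₀ : Set (ℝ × ℝ)) ∩ v) := by
    intro z hz
    obtain ⟨w, hw, hzw⟩ := exists_dist_lt_of_hausdorffDist_lt hz hK hfin
    rcases hsub hw with h1 | h1
    · exact Or.inl (mem_thickening_iff.2 ⟨w, ⟨hw, h1⟩, hzw⟩)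
    · exact Or.inr (mem_thickening_iff.2 ⟨w, ⟨hw, h1⟩, hzw⟩)
  obtain ⟨x', hx', hxx'⟩ := exists_dist_lt_of_hausdorffDist_lt' hx hK hfin
  obtain ⟨y', hy', hyy'⟩ := exists_dist_lt_of_hausdorffDist_lt' hy hK hfin
  obtain ⟨z, -, hz⟩ := hcon.isPreconnected _ _ isOpen_thickening isOpen_thickening hcov
    ⟨y', hy', mem_thickening_iff.2 ⟨y, ⟨hy, hyu⟩, hyy'⟩⟩
    ⟨x', hx', mem_thickening_iff.2 ⟨x, ⟨hx, hxv⟩, hxx'⟩⟩
  exact Set.disjoint_left.1 hth hz.1 hz.2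

/-- If the statistic vanishes on the lattice it vanishes in the limit. -/
private lemma connS_zero {X : Type} [MeasurableSpace X] {P : Measure X} [IsProbabilityMeasure P]
    {Ω : Set (ℝ × ℝ)} {σ : (ℝ × ℝ → ℝ) → X → ℝ} {Γ : X → Set (NonemptyCompacts (ℝ × ℝ))}
    (hL : Lim Ω P σ Γ) (φ : LoopSp → ℝ) (hφ : LoopFn φ)
    (h0 : ∀ (δ : ℝ) (w : Finset Edge), 0 < δ → Even' w → wSt δ φ w = 0) :
    ∀ᵐ ω ∂P, loopStat φ (Γ ω) = 0 := by
  have hcv := hL.cvW 1 (fun _ => φ) (fun _ => hφ) (fun y => min 1 |y 0|)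
    (by fun_prop) ⟨1, fun y => by
      rw [abs_of_nonneg (le_min zero_le_one (abs_nonneg _))]
      exact min_le_left _ _⟩
  have hz : ∀ᶠ δ : ℝ in 𝓝[>] 0, lE (DD Ω δ) (fun w =>
      (fun y : Fin 1 → ℝ => min 1 |y 0|) (fun _ => wSt δ φ w)) = 0 := by
    filter_upwards [self_mem_nhdsWithin] with δ hδ
    unfold lE lpE
    rw [div_eq_zero_iff]
    left
    refine Finset.sum_eq_zero fun η _ => ?_
    split_ifs with hη
    · have : wSt δ φ η = 0 := h0 δ η hδ hη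
      simp [this]
    · rfl
  have hlim : ∫ ω, (fun y : Fin 1 → ℝ => min 1 |y 0|) (fun _ => loopStat φ (Γ ω)) ∂P = 0 := by
    refine tendsto_nhds_unique hcv ?_
    exact (tendsto_congr' hz).2 tendsto_const_nhds
  have hmeas : Measurable fun ω => min 1 |loopStat φ (Γ ω)| :=
    measurable_const.min (hL.measW φ hφ).norm
  have hint : Integrable (fun ω => min 1 |loopStat φ (Γ ω)|) P := by
    refine Integrable.of_bound hmeas.aestronglyMeasurable 1 (Eventually.of_forall fun ω => ?_)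
    rw [Real.norm_eq_abs, abs_of_nonneg (le_min zero_le_one (abs_nonneg _))]
    exact min_le_left _ _
  have h1 := (integral_eq_zero_iff_of_nonneg
    (fun ω => le_min zero_le_one (abs_nonneg (loopStat φ (Γ ω)))) hint).1 hlim
  filter_upwards [h1] with ω hω
  have h2 : min 1 |loopStat φ (Γ ω)| = 0 := hω
  rcases min_choice 1 |loopStat φ (Γ ω)| with h3 | h3
  · rw [h3] at h2; norm_num at h2
  · rw [h3] at h2; exact abs_eq_zero.1 h2

theorem connS (h1 : StatFacts) : ConnS := by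
  intro X _ P _ Ω σ Γ hL
  obtain ⟨⟨-, hdiam⟩, hramp, hstat, -, hK1⟩ := h1
  -- radii
  have hl : ∀ K₀ : NonemptyCompacts (ℝ × ℝ), ∃ l > 0, ¬ IsConnected (K₀ : Set (ℝ × ℝ)) →
      ∀ K : NonemptyCompacts (ℝ × ℝ), dist K K₀ < l → ¬ IsConnected (K : Set (ℝ × ℝ)) := by
    intro K₀
    by_cases h : IsConnected (K₀ : Set (ℝ × ℝ))
    · exact ⟨1, one_pos, fun h' => absurd h h'⟩
    · obtain ⟨l, hl, hl2⟩ := connS_open K₀ h
      exact ⟨l, hl, fun _ => hl2⟩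
  choose l hlpos hl2 using hl
  -- countable subcover
  obtain ⟨T, hTc, hTU⟩ := TopologicalSpace.isOpen_iUnion_countable
    (fun K₀ : {K : NonemptyCompacts (ℝ × ℝ) // ¬ IsConnected (K : Set (ℝ × ℝ))} =>
      ball K₀.1 (l K₀.1 / 4)) (fun _ => isOpen_ball)
  -- test functions
  obtain ⟨φ, hφdef⟩ : ∃ φ : NonemptyCompacts (ℝ × ℝ) → ℕ → LoopSp → ℝ, ∀ K₀ k K,
      φ K₀ k K = ramp (l K₀ / 4) (l K₀ / 2) (dist K.1 K₀) *
        (1 - ramp (1 / ((k : ℝ) + 1) / 2) (1 / ((k : ℝ) + 1)) (diam (K.1 : Set (ℝ × ℝ)))) :=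
    ⟨_, fun _ _ _ => rfl⟩
  have hab1 : ∀ K₀ : NonemptyCompacts (ℝ × ℝ), l K₀ / 4 < l K₀ / 2 := by
    intro K₀; have := hlpos K₀; linarith
  have hab2 : ∀ k : ℕ, 1 / ((k : ℝ) + 1) / 2 < 1 / ((k : ℝ) + 1) := by
    intro k
    have : (0 : ℝ) < 1 / ((k : ℝ) + 1) := by positivity
    linarith
  have hφL : ∀ K₀ k, LoopFn (φ K₀ k) := by
    intro K₀ k
    obtain ⟨c1, b1, -⟩ := hramp _ _ (hab1 K₀)
    obtain ⟨c2, b2, e2, -⟩ := hramp _ _ (hab2 k)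
    refine ⟨?_, 1 / ((k : ℝ) + 1) / 2, by positivity, ?_⟩
    · have : φ K₀ k = fun K => ramp (l K₀ / 4) (l K₀ / 2) (dist K.1 K₀) *
        (1 - ramp (1 / ((k : ℝ) + 1) / 2) (1 / ((k : ℝ) + 1)) (diam (K.1 : Set (ℝ × ℝ)))) := by
        funext K; exact hφdef K₀ k K
      rw [this]
      refine (c1.comp (continuous_fst.dist continuous_const)).mul (continuous_const.sub ?_)
      exact c2.comp (hdiam.comp continuous_fst)
    · intro K hK
      rw [hφdef, e2 _ hK.le]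
      ring
  have hφnn : ∀ K₀ k K, 0 ≤ φ K₀ k K := by
    intro K₀ k K
    obtain ⟨-, b1, -⟩ := hramp _ _ (hab1 K₀)
    obtain ⟨-, b2, -⟩ := hramp _ _ (hab2 k)
    rw [hφdef]
    exact mul_nonneg (b1 _).1 (sub_nonneg.2 (b2 _).2)
  have hφz : ∀ K₀ : NonemptyCompacts (ℝ × ℝ), ¬ IsConnected (K₀ : Set (ℝ × ℝ)) → ∀ k,
      ∀ᵐ ω ∂P, loopStat (φ K₀ k) (Γ ω) = 0 := by
    intro K₀ hK₀ k
    refine connS_zero hL _ (hφL K₀ k) ?_
    intro δ w hδ hw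
    unfold wSt
    refine Finset.sum_eq_zero fun c hc => ?_
    obtain ⟨e1, -, e3⟩ := hK1 δ w hδ hw c hc
    have hd : l K₀ ≤ dist (toNC (K1 δ c)) K₀ := by
      by_contra hlt
      push Not at hlt
      apply hl2 K₀ hK₀ _ hlt
      rw [e1]; exact e3
    obtain ⟨-, -, -, z1, -⟩ := hramp _ _ (hab1 K₀)
    rw [hφdef]
    have := hlpos K₀
    rw [z1 _ (by show l K₀ / 2 ≤ dist (toNC (K1 δ c)) K₀; linarith)]
    ring
  have hall : ∀ᵐ ω ∂P, ∀ K₀ ∈ T, ∀ k : ℕ, loopStat (φ K₀.1 k) (Γ ω) = 0 := by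
    rw [ae_ball_iff hTc]
    intro K₀ _
    rw [ae_all_iff]
    intro k
    exact hφz K₀.1 K₀.2 k
  filter_upwards [hall, hL.nest.finite] with ω hω hfin K hK hKd
  by_contra hcon
  have hmem : K ∈ ⋃ K₀ : {K : NonemptyCompacts (ℝ × ℝ) // ¬ IsConnected (K : Set (ℝ × ℝ))},
      ball K₀.1 (l K₀.1 / 4) :=
    Set.mem_iUnion.2 ⟨⟨K, hcon⟩, mem_ball_self (by have := hlpos K; positivity)⟩
  rw [← hTU] at hmem
  obtain ⟨K₀, hK₀T, hKball⟩ := Set.mem_iUnion₂.1 hmem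
  obtain ⟨k, hk⟩ := exists_nat_one_div_lt hKd
  have h2 := (hstat (Γ ω) hfin (φ K₀.1 k) (hφL _ _)).2.1 (hφnn _ _)
  have h3 := h2.2.1 K hK
  rw [hω K₀ hK₀T k, hφdef] at h3
  obtain ⟨-, -, o1, -⟩ := hramp _ _ (hab1 K₀.1)
  obtain ⟨-, -, -, z2, -⟩ := hramp _ _ (hab2 k)
  rw [o1 _ (mem_ball.1 hKball).le, z2 _ hk.le] at h3
  norm_num at h3

end Pool.Agent.Lib.MP_6d40c9_pr
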