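import Pool.Agent.Lib.MP_6d40c9_pr.SpecK

/-!
# `ConnSq`: a connection in the loop configuration costs the square of the correlation
-/

set_option autoImplicit false

namespace Pool.Agent.Lib.MP_6d40c9_pr

open Finset
open scoped BigOperators symmDiff

/-- The weight `pW` is nonnegative. -/
private lemma connSq_pW_nonneg {E : Type} [DecidableEq E] (D : Finset E) (x : E → ℝ)
    (O ν : Finset E) (hO : O ⊆ D) (h0 : ∀ e ∈ D, 0 ≤ x e) (h1 : ∀ e ∈ D, x e ≤ 1) :
    0 ≤ pW D x O ν := by
  unfold pW
  apply mul_nonneg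
  · apply Finset.prod_nonneg
    intro e he
    have := h0 e (hO he)
    split_ifs
    · exact this
    · positivity
  · apply Finset.prod_nonneg
    intro e he
    have he' := (Finset.mem_sdiff.mp he).1
    have a := h0 e he'
    have b := h1 e he'
    nlinarith

/-- The sum over the open sets of the weight of a pair. -/
private lemma connSq_key {E : Type} [DecidableEq E] (D : Finset E) (x : E → ℝ)
    (a b : Finset E) (ha : a ⊆ D) (hb : b ⊆ D) :
    ∑ O ∈ D.powerset, (if a ⊆ O ∧ b ⊆ O then pW D x O (a ∆ b) else 0) =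
      (∏ e ∈ a, x e) * ∏ e ∈ b, x e := by
  have e1 : (∏ e ∈ a, x e) = ∏ e ∈ D, (if e ∈ a then x e else 1) := by
    rw [Finset.prod_ite_mem, Finset.inter_eq_right.mpr ha]
  have e2 : (∏ e ∈ b, x e) = ∏ e ∈ D, (if e ∈ b then x e else 1) := by
    rw [Finset.prod_ite_mem, Finset.inter_eq_right.mpr hb]
  have e3 : (∏ e ∈ D, (if e ∈ a then x e else 1)) * (∏ e ∈ D, (if e ∈ b then x e else 1)) =
      ∏ e ∈ D, ((if e ∈ a ∆ b then x e else x e ^ 2) +
        (if e ∈ a ∨ e ∈ b then 0 else 1 - x e ^ 2)) := by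
    rw [← Finset.prod_mul_distrib]
    apply Finset.prod_congr rfl
    intro e _
    by_cases h1 : e ∈ a <;> by_cases h2 : e ∈ b <;>
      simp [Finset.mem_symmDiff, h1, h2, pow_two]
  rw [e1, e2, e3, Finset.prod_add]
  apply Finset.sum_congr rfl
  intro O hO
  have hO' := Finset.mem_powerset.mp hO
  split_ifs with h
  · unfold pW
    congr 1
    apply Finset.prod_congr rfl
    intro e he
    have he' := (Finset.mem_sdiff.mp he).2
    have n1 : e ∉ a := fun q => he' (h.1 q)
    have n2 : e ∉ b := fun q => he' (h.2 q)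
    simp [n1, n2]
  · have : ∃ e, e ∈ D \ O ∧ (e ∈ a ∨ e ∈ b) := by
      by_contra hc
      apply h
      constructor
      · intro e he
        by_contra hne
        exact hc ⟨e, Finset.mem_sdiff.mpr ⟨ha he, hne⟩, Or.inl he⟩
      · intro e he
        by_contra hne
        exact hc ⟨e, Finset.mem_sdiff.mpr ⟨hb he, hne⟩, Or.inr he⟩
    obtain ⟨e, he, hab⟩ := this
    symm
    apply mul_eq_zero_of_right
    apply Finset.prod_eq_zero he
    simp [hab]

open Classical in
/-- Exchange of the sums for a general condition on the pair. -/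
private lemma connSq_sum {E : Type} [DecidableEq E] (D : Finset E) (x : E → ℝ)
    (P Q : Finset E → Prop) :
    (∑ a ∈ D.powerset, if P a then ∏ e ∈ a, x e else 0) *
      (∑ b ∈ D.powerset, if Q b then ∏ e ∈ b, x e else 0) =
    ∑ O ∈ D.powerset, ∑ a ∈ O.powerset, ∑ b ∈ O.powerset,
      if P a ∧ Q b then pW D x O (a ∆ b) else 0 := by
  have r1 : (∑ a ∈ D.powerset, if P a then ∏ e ∈ a, x e else 0) *
      (∑ b ∈ D.powerset, if Q b then ∏ e ∈ b, x e else 0) =
      ∑ a ∈ D.powerset, ∑ b ∈ D.powerset, ∑ O ∈ D.powerset,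
        (if a ⊆ O ∧ b ⊆ O then (if P a ∧ Q b then pW D x O (a ∆ b) else 0) else 0) := by
    rw [Finset.sum_mul_sum]
    apply Finset.sum_congr rfl
    intro a ha
    apply Finset.sum_congr rfl
    intro b hb
    by_cases hP : P a
    · by_cases hQ : Q b
      · simp only [hP, hQ, if_true, and_self]
        exact (connSq_key D x a b (Finset.mem_powerset.mp ha) (Finset.mem_powerset.mp hb)).symm
      · simp [hP, hQ]
    · simp [hP]
  have r2 : (∑ a ∈ D.powerset, ∑ b ∈ D.powerset, ∑ O ∈ D.powerset,
        (if a ⊆ O ∧ b ⊆ O then (if P a ∧ Q b then pW D x O (a ∆ b) else 0) else 0)) =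
      ∑ O ∈ D.powerset, ∑ a ∈ D.powerset, ∑ b ∈ D.powerset,
        (if a ⊆ O ∧ b ⊆ O then (if P a ∧ Q b then pW D x O (a ∆ b) else 0) else 0) := by
    rw [Finset.sum_comm]
    have : ∀ b ∈ D.powerset, (∑ a ∈ D.powerset, ∑ O ∈ D.powerset,
        (if a ⊆ O ∧ b ⊆ O then (if P a ∧ Q b then pW D x O (a ∆ b) else 0) else 0)) =
        ∑ O ∈ D.powerset, ∑ a ∈ D.powerset,
        (if a ⊆ O ∧ b ⊆ O then (if P a ∧ Q b then pW D x O (a ∆ b) else 0) else 0) :=
      fun b _ => Finset.sum_comm
    rw [Finset.sum_congr rfl this, Finset.sum_comm]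
    apply Finset.sum_congr rfl
    intro O _
    exact Finset.sum_comm
  rw [r1, r2]
  apply Finset.sum_congr rfl
  intro O hO
  have hO' := Finset.mem_powerset.mp hO
  have hsub : O.powerset ⊆ D.powerset := Finset.powerset_mono.mpr hO'
  rw [← Finset.sum_subset hsub]
  · apply Finset.sum_congr rfl
    intro a ha
    have ha' := Finset.mem_powerset.mp ha
    rw [← Finset.sum_subset hsub]
    · apply Finset.sum_congr rfl
      intro b hb
      have hb' := Finset.mem_powerset.mp hb
      rw [if_pos ⟨ha', hb'⟩]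
    · intro b _ hb
      rw [if_neg]
      intro q
      exact hb (Finset.mem_powerset.mpr q.2)
  · intro a _ ha
    apply Finset.sum_eq_zero
    intro b _
    rw [if_neg]
    intro q
    exact ha (Finset.mem_powerset.mpr q.1)

theorem connSq (h2 : Toggle) (h3 : AOFacts) : ConnSq := by
  classical
  intro E G _ _ hG bd D x h0 h1 f
  have s1 := connSq_sum D x
    (fun η => bdy bd η = 0 ∧ Conn bd (η ∪ D.filter (fun e => x e = 1)) f)
    (fun η => bdy bd η = 0)
  have s2 := connSq_sum D x (fun η => bdy bd η = f) (fun η => bdy bd η = f)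
  have t1 : Zp bd D x f ^ 2 = ∑ O ∈ D.powerset, aO bd D x (fun _ => 1) O f f := by
    rw [pow_two]
    unfold Zp
    refine Eq.trans ?_ (s2.trans ?_)
    · congr 1
    · apply Finset.sum_congr rfl
      intro O _
      unfold aO
      apply Finset.sum_congr rfl
      intro a _
      apply Finset.sum_congr rfl
      intro b _
      simp
  have t2 : (∑ η ∈ D.powerset, if bdy bd η = 0 ∧ Conn bd (η ∪ D.filter (fun e => x e = 1)) f
      then ∏ e ∈ η, x e else 0) * Zp bd D x 0 =
      ∑ O ∈ D.powerset, ∑ a ∈ O.powerset, ∑ b ∈ O.powerset,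
      if (bdy bd a = 0 ∧ Conn bd (a ∪ D.filter (fun e => x e = 1)) f) ∧ bdy bd b = 0
        then pW D x O (a ∆ b) else 0 := by
    unfold Zp
    refine Eq.trans ?_ (s1.trans ?_)
    · congr 1
      apply Finset.sum_congr rfl
      intro a _
      congr!
    · apply Finset.sum_congr rfl
      intro O _
      apply Finset.sum_congr rfl
      intro a _
      apply Finset.sum_congr rfl
      intro b _
      congr!
  rw [t1]
  refine le_trans (le_of_eq ?_) (le_trans (le_of_eq t2) ?_)
  · congr
  apply Finset.sum_le_sum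
  intro O hO
  have hO' := Finset.mem_powerset.mp hO
  by_cases hc : Conn bd O f
  · obtain ⟨γ, hγ, hγf⟩ := hc
    have ht := h2 E G hG bd D x (fun _ => 1) O (fun e _ => Or.inl rfl) γ hγ f f
    rw [hγf, hG f] at ht
    rw [ht]
    simp only [Finset.prod_const_one, one_mul]
    unfold aO
    apply Finset.sum_le_sum
    intro a _
    apply Finset.sum_le_sum
    intro b _
    have hp := connSq_pW_nonneg D x O (a ∆ b) hO' h0 h1
    by_cases q1 : bdy bd a = 0 <;> by_cases q2 : bdy bd b = 0
    · rw [if_pos (show bdy bd a = 0 ∧ bdy bd b = 0 from ⟨q1, q2⟩)]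
      simp only [Finset.prod_const_one, one_mul]
      split_ifs
      · exact le_refl _
      · exact hp
    · simp [q1, q2]
    · simp [q1, q2]
    · simp [q1, q2]
  · have hz : ∑ a ∈ O.powerset, ∑ b ∈ O.powerset,
      (if (bdy bd a = 0 ∧ Conn bd (a ∪ D.filter (fun e => x e = 1)) f) ∧ bdy bd b = 0
        then pW D x O (a ∆ b) else 0) = 0 := by
      apply Finset.sum_eq_zero
      intro a ha
      have ha' := Finset.mem_powerset.mp ha
      apply Finset.sum_eq_zero
      intro b _
      split_ifs with h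
      · obtain ⟨⟨_, γ, hγ, hγf⟩, _⟩ := h
        have : ∃ e ∈ D, x e = 1 ∧ e ∉ O := by
          by_contra hcon
          push Not at hcon
          apply hc
          refine ⟨γ, ?_, hγf⟩
          intro e he
          rcases Finset.mem_union.mp (hγ he) with q | q
          · exact ha' q
          · exact hcon e (Finset.mem_filter.mp q).1 (Finset.mem_filter.mp q).2
        obtain ⟨e, heD, hx1, heO⟩ := this
        unfold pW
        apply mul_eq_zero_of_right
        apply Finset.prod_eq_zero (Finset.mem_sdiff.mpr ⟨heD, heO⟩)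
        rw [hx1]
        norm_num
      · rfl
    have hpos := (h3 E G hG bd D x (fun _ => 1) O hO' h0 h1 (fun e _ => Or.inl rfl)).2.1 f f
    calc _ = (0 : ℝ) := hz
      _ ≤ _ := hpos

end Pool.Agent.Lib.MP_6d40c9_pr
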