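import Pool.Agent.Lib.MP_6d40c9_pr.SpecK

/-!
# Monotonicity of the correlations in the weights
-/

set_option autoImplicit false

namespace Pool.Agent.Lib.MP_6d40c9_pr

open Finset
open scoped BigOperators symmDiff

section

variable {E G : Type} [DecidableEq E] [AddCommGroup G]

theorem corrMono_insert (h2 : ∀ g : G, g + g = 0) (bd : E → G) (D : Finset E) (x : E → ℝ) (f : G)
    (e : E) (he : e ∉ D) :
    Zp bd (insert e D) x f = Zp bd D x f + x e * Zp bd D x (f + bd e) := by
  classical
  unfold Zp
  rw [Finset.sum_powerset_insert he, Finset.mul_sum]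
  congr 1
  apply Finset.sum_congr rfl
  intro η hη
  have heη : e ∉ η := fun h => he (Finset.mem_powerset.1 hη h)
  have h3 : bdy bd (insert e η) = bd e + bdy bd η := by
    unfold bdy
    rw [Finset.sum_insert heη]
  have h4 : bd e + bdy bd η = f ↔ bdy bd η = f + bd e := by
    constructor
    · rintro rfl
      rw [add_comm (bd e), add_assoc, h2, add_zero]
    · intro h
      rw [h, add_comm f, ← add_assoc, h2, zero_add]
  rw [h3, Finset.prod_insert heη]
  by_cases h : bdy bd η = f + bd e
  · rw [if_pos (h4.2 h), if_pos h]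
  · rw [if_neg (fun h' => h (h4.1 h')), if_neg h, mul_zero]

theorem corrMono_congr (bd : E → G) (D : Finset E) (x y : E → ℝ) (f : G)
    (h : ∀ e ∈ D, x e = y e) : Zp bd D x f = Zp bd D y f := by
  classical
  unfold Zp
  apply Finset.sum_congr rfl
  intro η hη
  rw [Finset.prod_congr rfl (fun e he => h e (Finset.mem_powerset.1 hη he))]

theorem corrMono_one_le (bd : E → G) (D : Finset E) (x : E → ℝ) (h : ∀ e ∈ D, 0 ≤ x e) :
    1 ≤ Zp bd D x 0 := by
  classical
  unfold Zp
  have h1 : (if bdy bd (∅ : Finset E) = 0 then ∏ e ∈ (∅ : Finset E), x e else 0) = 1 := by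
    rw [if_pos (by unfold bdy; rw [Finset.sum_empty]), Finset.prod_empty]
  refine le_trans h1.ge (Finset.single_le_sum
    (f := fun η => if bdy bd η = 0 then ∏ e ∈ η, x e else 0) ?_ (Finset.empty_mem_powerset D))
  intro η hη
  show 0 ≤ if bdy bd η = 0 then ∏ e ∈ η, x e else 0
  split_ifs
  · exact Finset.prod_nonneg fun e he => h e (Finset.mem_powerset.1 hη he)
  · exact le_rfl

theorem corrMono_restrict (bd : E → G) (D H : Finset E) (x : E → ℝ) (f : G) (hH : H ⊆ D) :
    Zp bd H x f = Zp bd D (fun e => if e ∈ H then x e else 0) f := by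
  classical
  unfold Zp
  have h1 : ∑ η ∈ H.powerset, (if bdy bd η = f then ∏ e ∈ η, x e else 0) =
      ∑ η ∈ H.powerset, (if bdy bd η = f then ∏ e ∈ η, (if e ∈ H then x e else 0) else 0) := by
    apply Finset.sum_congr rfl
    intro η hη
    rw [Finset.prod_congr rfl
      (fun e he => (if_pos (Finset.mem_powerset.1 hη he) : (if e ∈ H then x e else 0) = x e))]
  rw [h1]
  apply Finset.sum_subset (Finset.powerset_mono.2 hH)
  intro η _ hη
  rw [Finset.mem_powerset, Finset.not_subset] at hη
  obtain ⟨e, he, heH⟩ := hη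
  have : ∏ e ∈ η, (if e ∈ H then x e else 0) = 0 := Finset.prod_eq_zero he (if_neg heH)
  rw [this, ite_self]

/-- One edge. -/
theorem corrMono_step (hG : Gks) (h2 : ∀ g : G, g + g = 0) (bd : E → G) (D : Finset E)
    (x x' : E → ℝ) (e : E) (he : e ∈ D) (h0 : ∀ e ∈ D, 0 ≤ x e) (h1 : ∀ e ∈ D, x e ≤ 1)
    (hne : ∀ a ∈ D, a ≠ e → x a = x' a) (hle : x e ≤ x' e) (f : G) :
    Zp bd D x f * Zp bd D x' 0 ≤ Zp bd D x' f * Zp bd D x 0 := by
  have hD : insert e (D.erase e) = D := Finset.insert_erase he
  have he' : e ∉ D.erase e := Finset.notMem_erase e D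
  have hs : ∀ a ∈ D.erase e, a ∈ D := fun a ha => Finset.mem_of_mem_erase ha
  have hc : ∀ g : G, Zp bd (D.erase e) x' g = Zp bd (D.erase e) x g := fun g =>
    (corrMono_congr bd (D.erase e) x x' g
      (fun a ha => hne a (hs a ha) (Finset.ne_of_mem_erase ha))).symm
  have e1 : ∀ g : G, Zp bd D x g = Zp bd (D.erase e) x g + x e * Zp bd (D.erase e) x (g + bd e) := by
    intro g
    conv_lhs => rw [← hD]
    exact corrMono_insert h2 bd (D.erase e) x g e he'
  have e2 : ∀ g : G, Zp bd D x' g =
      Zp bd (D.erase e) x g + x' e * Zp bd (D.erase e) x (g + bd e) := by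
    intro g
    conv_lhs => rw [← hD]
    rw [corrMono_insert h2 bd (D.erase e) x' g e he', hc, hc]
  have hk := hG E G h2 bd (D.erase e) x (fun a ha => h0 a (hs a ha))
    (fun a ha => h1 a (hs a ha)) f (bd e)
  rw [e1, e1, e2, e2, zero_add]
  have hd : 0 ≤ x' e - x e := by linarith
  have := mul_le_mul_of_nonneg_left hk hd
  nlinarith

theorem corrMono_hybrid (hG : Gks) (h2 : ∀ g : G, g + g = 0) (bd : E → G) (D : Finset E)
    (x x' : E → ℝ) (h0 : ∀ e ∈ D, 0 ≤ x e) (hle : ∀ e ∈ D, x e ≤ x' e) (h1 : ∀ e ∈ D, x' e ≤ 1)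
    (f : G) (T : Finset E) (hT : T ⊆ D) :
    Zp bd D x f * Zp bd D (fun e => if e ∈ T then x' e else x e) 0 ≤
      Zp bd D (fun e => if e ∈ T then x' e else x e) f * Zp bd D x 0 := by
  induction T using Finset.induction_on with
  | empty =>
    have : (fun e => if e ∈ (∅ : Finset E) then x' e else x e) = x := by
      funext e
      rw [if_neg (Finset.notMem_empty e)]
    rw [this]
  | insert a T haT ih =>
    have haD : a ∈ D := hT (Finset.mem_insert_self a T)
    have ih' := ih ((Finset.subset_insert a T).trans hT)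
    set y : E → ℝ := fun e => if e ∈ T then x' e else x e with hy
    set z : E → ℝ := fun e => if e ∈ insert a T then x' e else x e with hz
    have hy0 : ∀ e ∈ D, 0 ≤ y e := by
      intro e he
      rw [hy]
      show 0 ≤ if e ∈ T then x' e else x e
      split_ifs
      · exact (h0 e he).trans (hle e he)
      · exact h0 e he
    have hy1 : ∀ e ∈ D, y e ≤ 1 := by
      intro e he
      rw [hy]
      show (if e ∈ T then x' e else x e) ≤ 1
      split_ifs
      · exact h1 e he
      · exact (hle e he).trans (h1 e he)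
    have hyz : ∀ e ∈ D, e ≠ a → y e = z e := by
      intro e _ hea
      rw [hy, hz]
      show (if e ∈ T then x' e else x e) = if e ∈ insert a T then x' e else x e
      by_cases h : e ∈ T
      · rw [if_pos h, if_pos (Finset.mem_insert_of_mem h)]
      · rw [if_neg h, if_neg]
        rw [Finset.mem_insert]
        rintro (h' | h')
        · exact hea h'
        · exact h h'
    have hya : y a ≤ z a := by
      rw [hy, hz]
      show (if a ∈ T then x' a else x a) ≤ if a ∈ insert a T then x' a else x a
      rw [if_neg haT, if_pos (Finset.mem_insert_self a T)]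
      exact hle a haD
    have hstep := corrMono_step hG h2 bd D y z a haD hy0 hy1 hyz hya f
    have hpos : 0 < Zp bd D y 0 := lt_of_lt_of_le one_pos (corrMono_one_le bd D y hy0)
    have hx0 : 0 < Zp bd D x 0 := lt_of_lt_of_le one_pos (corrMono_one_le bd D x h0)
    have hz0 : 0 < Zp bd D z 0 := by
      refine lt_of_lt_of_le one_pos (corrMono_one_le bd D z ?_)
      intro e he
      by_cases hea : e = a
      · subst hea
        exact (hy0 e he).trans hya
      · rw [← hyz e he hea]
        exact hy0 e he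
    have k1 := mul_le_mul_of_nonneg_right ih' hz0.le
    have k2 := mul_le_mul_of_nonneg_right hstep hx0.le
    have k3 : (Zp bd D x f * Zp bd D z 0) * Zp bd D y 0 ≤
        (Zp bd D z f * Zp bd D x 0) * Zp bd D y 0 := by
      nlinarith
    exact le_of_mul_le_mul_right k3 hpos

end

theorem corrMono (h : Gks) : CorrMono := by
  have key : ∀ (E G : Type) [DecidableEq E] [AddCommGroup G], (∀ g : G, g + g = 0) →
      ∀ (bd : E → G) (D : Finset E) (x x' : E → ℝ), (∀ e ∈ D, 0 ≤ x e) → (∀ e ∈ D, x e ≤ x' e) →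
      (∀ e ∈ D, x' e ≤ 1) → ∀ f : G,
      Zp bd D x f * Zp bd D x' 0 ≤ Zp bd D x' f * Zp bd D x 0 := by
    intro E G _ _ h2 bd D x x' h0 hle h1 f
    have hh := corrMono_hybrid h h2 bd D x x' h0 hle h1 f D (Finset.Subset.refl D)
    have hc : ∀ g : G, Zp bd D (fun e => if e ∈ D then x' e else x e) g = Zp bd D x' g :=
      fun g => corrMono_congr bd D _ _ g (fun e he => if_pos he)
    rwa [hc, hc] at hh
  refine ⟨key, ?_⟩
  intro E G _ _ h2 bd D H x hH h0 h1 f
  rw [corrMono_restrict bd D H x f hH, corrMono_restrict bd D H x 0 hH]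
  refine key E G h2 bd D (fun e => if e ∈ H then x e else 0) x ?_ ?_ h1 f
  · intro e he
    show 0 ≤ if e ∈ H then x e else 0
    split_ifs
    · exact h0 e he
    · exact le_rfl
  · intro e he
    show (if e ∈ H then x e else 0) ≤ x e
    split_ifs
    · exact le_rfl
    · exact h0 e he

end Pool.Agent.Lib.MP_6d40c9_pr
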