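import Pool.Agent.Lib.MP_6d40c9_pr.SpecK

/-!
# The coupling of the loop measure and the random cluster measure
-/

set_option autoImplicit false

namespace Pool.Agent.Lib.MP_6d40c9_pr

open Finset
open scoped BigOperators symmDiff

section CouplingAux

variable {E G : Type*}

/-- The product weight of a set of open edges. -/
noncomputable def couplingW [DecidableEq E] (D : Finset E) (x : E → ℝ) (ω : Finset E) : ℝ :=
  (∏ e ∈ ω, x e) * ∏ e ∈ D \ ω, (1 - x e)

lemma coupling_bdy [DecidableEq E] [AddCommGroup G] (h2 : ∀ g : G, g + g = 0) (bd : E → G)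
    (η γ : Finset E) : bdy bd (η ∆ γ) = bdy bd η + bdy bd γ := by
  unfold bdy
  have h1 : ∑ e ∈ η, bd e = ∑ e ∈ η \ γ, bd e + ∑ e ∈ η ∩ γ, bd e := by
    rw [← Finset.sum_union (Finset.disjoint_sdiff_inter η γ), Finset.sdiff_union_inter]
  have h3 : ∑ e ∈ γ, bd e = ∑ e ∈ γ \ η, bd e + ∑ e ∈ η ∩ γ, bd e := by
    rw [Finset.inter_comm, ← Finset.sum_union (Finset.disjoint_sdiff_inter γ η),
      Finset.sdiff_union_inter]
  have h4 : ∑ e ∈ η ∆ γ, bd e = ∑ e ∈ η \ γ, bd e + ∑ e ∈ γ \ η, bd e := by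
    have h5 : η ∆ γ = (η \ γ) ∪ (γ \ η) := rfl
    rw [h5, Finset.sum_union]
    exact Finset.disjoint_of_subset_right Finset.sdiff_subset Finset.sdiff_disjoint
  rw [h4, h1, h3]
  have h6 := h2 (∑ e ∈ η ∩ γ, bd e)
  calc ∑ e ∈ η \ γ, bd e + ∑ e ∈ γ \ η, bd e
      = ∑ e ∈ η \ γ, bd e + ∑ e ∈ γ \ η, bd e + (∑ e ∈ η ∩ γ, bd e + ∑ e ∈ η ∩ γ, bd e) := by
        rw [h6, add_zero]
    _ = _ := by abel

lemma coupling_key [DecidableEq E] (D W : Finset E) (x : E → ℝ) (hW : W ⊆ D) :
    ∑ ω ∈ D.powerset, (if W ⊆ ω then couplingW D x ω else 0) = ∏ e ∈ W, x e := by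
  have h1 := Finset.prod_add (fun e => x e) (fun e => if e ∈ W then 0 else 1 - x e) D
  have h2 : ∏ e ∈ D, (x e + if e ∈ W then 0 else 1 - x e) = ∏ e ∈ W, x e := by
    rw [← Finset.prod_subset hW (f := fun e => x e + if e ∈ W then 0 else 1 - x e)]
    · refine Finset.prod_congr rfl fun e he => ?_
      rw [if_pos he, add_zero]
    · intro e _ he
      rw [if_neg he]
      ring
  rw [h2] at h1
  rw [h1]
  refine Finset.sum_congr rfl fun ω hω => ?_
  unfold couplingW
  by_cases h : W ⊆ ω
  · rw [if_pos h]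
    congr 1
    refine Finset.prod_congr rfl fun e he => ?_
    rw [if_neg]
    intro hc
    exact (Finset.mem_sdiff.1 he).2 (h hc)
  · rw [if_neg h]
    obtain ⟨e, he, he2⟩ := Finset.not_subset.1 h
    rw [Finset.prod_eq_zero (i := e) (s := D \ ω), mul_zero]
    · exact Finset.mem_sdiff.2 ⟨hW he, he2⟩
    · rw [if_pos he]

lemma coupling_exch [DecidableEq E] (D : Finset E) (x : E → ℝ) (F : Finset E → ℝ) :
    ∑ ω ∈ D.powerset, ∑ W ∈ ω.powerset, F W * couplingW D x ω =
      ∑ W ∈ D.powerset, F W * ∏ e ∈ W, x e := by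
  have h1 : ∀ ω ∈ D.powerset, ∑ W ∈ ω.powerset, F W * couplingW D x ω =
      ∑ W ∈ D.powerset, F W * (if W ⊆ ω then couplingW D x ω else 0) := by
    intro ω hω
    rw [Finset.mem_powerset] at hω
    rw [← Finset.sum_subset (Finset.powerset_mono.2 hω)]
    · refine Finset.sum_congr rfl fun W hW => ?_
      rw [if_pos (Finset.mem_powerset.1 hW)]
    · intro W _ hW
      rw [if_neg (fun h => hW (Finset.mem_powerset.2 h)), mul_zero]
  rw [Finset.sum_congr rfl h1, Finset.sum_comm]
  refine Finset.sum_congr rfl fun W hW => ?_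
  rw [← Finset.mul_sum, coupling_key D W x (Finset.mem_powerset.1 hW)]

open Classical in
lemma coupling_count [DecidableEq E] [AddCommGroup G] (h2 : ∀ g : G, g + g = 0) (bd : E → G)
    (ω : Finset E) (f : G) :
    ∑ η ∈ ω.powerset, (if bdy bd η = f then (1 : ℝ) else 0) =
      evn bd ω * (if Conn bd ω f then 1 else 0) := by
  by_cases hc : Conn bd ω f
  · rw [if_pos hc, mul_one]
    obtain ⟨γ, hγ, hγf⟩ := hc
    unfold evn
    refine Finset.sum_nbij' (fun η => η ∆ γ) (fun η => η ∆ γ) ?_ ?_ ?_ ?_ ?_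
    · intro η hη
      rw [Finset.mem_powerset] at hη ⊢
      intro e he
      rw [Finset.mem_symmDiff] at he
      rcases he with he | he
      · exact hη he.1
      · exact hγ he.1
    · intro η hη
      rw [Finset.mem_powerset] at hη ⊢
      intro e he
      rw [Finset.mem_symmDiff] at he
      rcases he with he | he
      · exact hη he.1
      · exact hγ he.1
    · intro η _
      exact symmDiff_symmDiff_cancel_right γ η
    · intro η _
      exact symmDiff_symmDiff_cancel_right γ η
    · intro η _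
      have h3 : bdy bd (η ∆ γ) = bdy bd η + f := by rw [coupling_bdy h2, hγf]
      by_cases h4 : bdy bd η = f
      · rw [if_pos h4, if_pos]
        rw [h3, h4, h2]
      · rw [if_neg h4, if_neg]
        intro h5
        rw [h3] at h5
        apply h4
        calc bdy bd η = bdy bd η + (f + f) := by rw [h2, add_zero]
          _ = (bdy bd η + f) + f := by abel
          _ = f := by rw [h5, zero_add]
  · rw [if_neg hc, mul_zero]
    refine Finset.sum_eq_zero fun η hη => ?_
    rw [if_neg]
    intro h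
    exact hc ⟨η, Finset.mem_powerset.1 hη, h⟩

lemma couplingW_nonneg [DecidableEq E] (D : Finset E) (x : E → ℝ) (h0 : ∀ e ∈ D, 0 ≤ x e)
    (h1 : ∀ e ∈ D, x e ≤ 1) (ω : Finset E) (hω : ω ⊆ D) : 0 ≤ couplingW D x ω := by
  unfold couplingW
  refine mul_nonneg (Finset.prod_nonneg fun e he => h0 e (hω he))
    (Finset.prod_nonneg fun e he => ?_)
  have := h1 e (Finset.mem_sdiff.1 he).1
  linarith

lemma coupling_evn_nonneg [AddCommGroup G] (bd : E → G) (ω : Finset E) : 0 ≤ evn bd ω := by
  unfold evn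
  refine Finset.sum_nonneg fun η _ => ?_
  split_ifs <;> norm_num

lemma coupling_Zp_one [AddCommGroup G] (bd : E → G) (D : Finset E) (x : E → ℝ)
    (h0 : ∀ e ∈ D, 0 ≤ x e) : 1 ≤ Zp bd D x 0 := by
  classical
  unfold Zp
  have h1 : ∀ η ∈ D.powerset, 0 ≤ (if bdy bd η = 0 then ∏ e ∈ η, x e else 0) := by
    intro η hη
    split_ifs
    · exact Finset.prod_nonneg fun e he => h0 e (Finset.mem_powerset.1 hη he)
    · exact le_refl _
  have h3 := Finset.single_le_sum h1 (Finset.empty_mem_powerset D)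
  have h4 : (if bdy bd (∅ : Finset E) = 0 then ∏ e ∈ (∅ : Finset E), x e else 0) = 1 := by
    rw [if_pos (by simp [bdy]), Finset.prod_empty]
  rw [h4] at h3
  exact h3

end CouplingAux

theorem coupling : Coupling := by
  intro E G _ _ h2 bd D x h0 h1
  have hZ := coupling_Zp_one bd D x h0
  have hZ0 : 0 ≤ Zp bd D x 0 := by linarith
  have p7 : ∀ P Q : Finset E → Finset E → Prop,
      (∀ W ω, W ⊆ ω → ω ⊆ D → bdy bd W = 0 → P W ω → Q W ω) → jP bd D x P ≤ jP bd D x Q := by
    intro P Q hPQ
    unfold jP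
    refine div_le_div_of_nonneg_right ?_ hZ0
    refine Finset.sum_le_sum fun ω hω => Finset.sum_le_sum fun W hW => ?_
    rw [Finset.mem_powerset] at hω hW
    have hw := couplingW_nonneg D x h0 h1 ω hω
    unfold couplingW at hw
    by_cases h : bdy bd W = 0 ∧ P W ω
    · rw [if_pos h, if_pos ⟨h.1, hPQ W ω hW hω h.1 h.2⟩]
    · rw [if_neg h]
      split_ifs
      · exact hw
      · exact le_refl _
  have p2 : ∀ P : Finset E → Prop, jP bd D x (fun W _ => P W) = lpP bd D x P := by
    intro P
    classical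
    unfold jP lpP lpE
    congr 1
    have h3 := coupling_exch D x (fun W => if bdy bd W = 0 ∧ P W then 1 else 0)
    calc _ = ∑ ω ∈ D.powerset, ∑ W ∈ ω.powerset,
          (if bdy bd W = 0 ∧ P W then (1 : ℝ) else 0) * couplingW D x ω := by
          refine Finset.sum_congr rfl fun ω _ => Finset.sum_congr rfl fun W _ => ?_
          unfold couplingW
          by_cases h : bdy bd W = 0 ∧ P W
          · rw [if_pos h, if_pos h, one_mul]
          · rw [if_neg h, if_neg h, zero_mul]
      _ = _ := h3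
      _ = _ := by
          refine Finset.sum_congr rfl fun W _ => ?_
          beta_reduce
          by_cases h : bdy bd W = 0
          · by_cases h' : P W
            · rw [if_pos ⟨h, h'⟩, if_pos h, if_pos h', one_mul, mul_one]
            · rw [if_neg (fun hh => h' hh.2), if_pos h, if_neg h', zero_mul, mul_zero]
          · rw [if_neg (fun hh => h hh.1), if_neg h, zero_mul]
  have p3 : ∀ P : Finset E → Prop, jP bd D x (fun _ ω => P ω) = fkP bd D x P := by
    intro P
    classical
    unfold jP fkP fkE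
    congr 1
    refine Finset.sum_congr rfl fun ω _ => ?_
    beta_reduce
    by_cases h' : P ω
    · rw [if_pos h', mul_one]
      unfold fkW evn
      rw [Finset.sum_mul]
      refine Finset.sum_congr rfl fun W _ => ?_
      by_cases h : bdy bd W = 0
      · rw [if_pos ⟨h, h'⟩, if_pos h, one_mul]
      · rw [if_neg (fun hh => h hh.1), if_neg h, zero_mul]
    · rw [if_neg h', mul_zero]
      refine Finset.sum_eq_zero fun W _ => ?_
      rw [if_neg (fun hh => h' hh.2)]
  have p4 : ∀ f : G, ∑ ω ∈ D.powerset, fkW bd D x ω *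
      (@ite ℝ (Conn bd ω f) (Classical.propDecidable _) 1 0) = Zp bd D x f := by
    intro f
    classical
    have h3 := coupling_exch D x (fun W => if bdy bd W = f then 1 else 0)
    have h5 : ∑ ω ∈ D.powerset, fkW bd D x ω *
        (@ite ℝ (Conn bd ω f) (Classical.propDecidable _) 1 0) =
        ∑ ω ∈ D.powerset, ∑ W ∈ ω.powerset,
          (if bdy bd W = f then (1 : ℝ) else 0) * couplingW D x ω := by
      refine Finset.sum_congr rfl fun ω _ => ?_
      rw [← Finset.sum_mul]
      have h6 := coupling_count h2 bd ω f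
      have h7 : ∑ W ∈ ω.powerset, (if bdy bd W = f then (1 : ℝ) else 0) =
          evn bd ω * (@ite ℝ (Conn bd ω f) (Classical.propDecidable _) 1 0) := by
        rw [← h6]
      rw [h7]
      unfold fkW couplingW
      ring
    rw [h5, h3]
    unfold Zp
    refine Finset.sum_congr rfl fun W _ => ?_
    by_cases h : bdy bd W = f
    · rw [if_pos h, if_pos h, one_mul]
    · rw [if_neg h, if_neg h, zero_mul]
  refine ⟨?_, p2, p3, ?_, ?_, ⟨hZ, ?_⟩, p7⟩
  · rw [← p4 0]
    refine Finset.sum_congr rfl fun ω _ => ?_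
    rw [if_pos, mul_one]
    exact ⟨∅, Finset.empty_subset _, by simp [bdy]⟩
  · intro f
    unfold fkP fkE
    rw [← p4 f]
  · intro P hP
    rw [← p2, ← p3]
    exact p7 _ _ fun W ω hW hω _ hPW => hP W ω hW hω hPW
  · intro ω hω
    exact mul_nonneg (coupling_evn_nonneg bd ω) (couplingW_nonneg D x h0 h1 ω hω)

end Pool.Agent.Lib.MP_6d40c9_pr
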