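import Pool.Agent.Lib.MP_6d40c9_pr.SpecP

/-!
# Orthogonality
-/

set_option autoImplicit false

namespace Pool.Agent.Lib.MP_6d40c9_pr

open Finset MeasureTheory Filter Topology TopologicalSpace Metric
open scoped BigOperators symmDiff

section CrossAux

private lemma cross_smul (h4 : LEFacts) (D : Finset Edge) (a : ℝ) (g : Finset Edge → ℝ) :
    lE D (fun w => a * g w) = a * lE D g := by
  have h := h4.2.1 D a 0 g g
  simpa using h

private lemma cross_sub (h4 : LEFacts) (D : Finset Edge) (g g' : Finset Edge → ℝ) :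
    lE D (fun w => g w - g' w) = lE D g - lE D g' := by
  have h := h4.2.1 D 1 (-1) g g'
  have e1 : (fun w => 1 * g w + -1 * g' w) = fun w => g w - g' w := by
    funext w; ring
  rw [e1] at h
  rw [h]
  ring

private lemma cross_zero (h4 : LEFacts) (D : Finset Edge) : lE D (fun _ => 0) = 0 := by
  have h := cross_smul h4 D 0 (fun _ => 1)
  simpa using h

private lemma cross_congr (h4 : LEFacts) (D : Finset Edge) (g g' : Finset Edge → ℝ)
    (h : ∀ w ⊆ D, Even' w → g w = g' w) : lE D g = lE D g' :=
  le_antisymm (h4.2.2.1 D g g' fun w hw he => (h w hw he).le)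
    (h4.2.2.1 D g' g fun w hw he => (h w hw he).ge)

private lemma cross_nonneg (h4 : LEFacts) (D : Finset Edge) (g : Finset Edge → ℝ)
    (h : ∀ w, 0 ≤ g w) : 0 ≤ lE D g := by
  have h' := h4.2.2.1 D (fun _ => 0) g fun w _ _ => h w
  rwa [cross_zero h4 D] at h'

private lemma cross_lP (D : Finset Edge) (P : Finset Edge → Prop) [DecidablePred P] :
    lP D P = lE D (fun w => if P w then 1 else 0) := by
  have h : lP D P = lE D (fun w => @ite ℝ (P w) (Classical.propDecidable (P w)) 1 0) := rfl
  rw [h]
  congr 1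
  funext w
  by_cases hw : P w
  · rw [if_pos hw, if_pos hw]
  · rw [if_neg hw, if_neg hw]

private lemma cross_key (h4 : LEFacts) (D : Finset Edge) (G : Finset Edge → ℝ)
    (P : Finset Edge → Prop) [DecidablePred P] :
    lE D (fun w => |G w| * (if P w then 1 else 0)) ≤
      Real.sqrt (lE D (fun w => G w ^ 2)) * Real.sqrt (lP D P) := by
  have h := h4.2.2.2.1 D (fun w => |G w|) (fun w => if P w then 1 else 0)
  have e1 : (fun w => |G w| ^ 2) = fun w => G w ^ 2 := by
    funext w; exact sq_abs _
  have e2 : (fun w => (if P w then (1 : ℝ) else 0) ^ 2) = fun w => if P w then (1 : ℝ) else 0 := by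
    funext w
    split_ifs <;> simp
  rw [e1, e2, ← cross_lP] at h
  have h0 : 0 ≤ lE D (fun w => G w ^ 2) := cross_nonneg h4 D _ fun w => sq_nonneg _
  rw [← Real.sqrt_mul h0]
  exact le_trans (le_abs_self _) (Real.abs_le_sqrt h)

end CrossAux

open Classical in
theorem cross (h1 : Markov) (h2 : TVar) (h3 : CondE) (h4 : LEFacts) : Cross := by
  intro Q D T q F M T' Ψ Ψ' OK B hB hΨ hΨ' hM
  set G0 : Finset Edge → ℝ := fun V =>
    F V - cE D (fun w => q (tc T w)) (fun w => F (tc T w)) (q V) with hG0
  set X : ℝ := lE D (fun w => G0 (tc T w) ^ 2) with hX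
  set E1 : Finset Edge → Prop := fun w => OK (q (tc T w)) ∧
    ∃ e ∈ tc (T' (q (tc T w))) (w \ tc T w), e ∈ M (q (tc T w)) with hE1
  set E2 : Finset Edge → Prop := fun w => OK (q (tc T w)) ∧
    Ψ (tc T w) (w \ tc T w) ≠ Ψ' (q (tc T w)) (tc (T' (q (tc T w))) (w \ tc T w)) with hE2
  set A1 : Finset Edge → ℝ := fun w => if OK (q (tc T w)) then
    G0 (tc T w) * Ψ (tc T w) (w \ tc T w) else 0 with hA1
  set A2 : Finset Edge → ℝ := fun w => if OK (q (tc T w)) then
    G0 (tc T w) * Ψ' (q (tc T w)) (tc (T' (q (tc T w))) (w \ tc T w)) else 0 with hA2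
  show |lE D A1| ≤ 2 * B * Real.sqrt X * (Real.sqrt (lP D E1) + Real.sqrt (lP D E2))
  -- replace `Ψ` by `Ψ'`
  have step2 : |lE D A1 - lE D A2| ≤ 2 * B * (Real.sqrt X * Real.sqrt (lP D E2)) := by
    rw [← cross_sub h4]
    refine le_trans (h4.2.2.2.2.2.1 D _) ?_
    have hle : lE D (fun w => |A1 w - A2 w|) ≤
        lE D (fun w => 2 * B * (|G0 (tc T w)| * (if E2 w then 1 else 0))) := by
      refine h4.2.2.1 D _ _ fun w _ _ => ?_
      by_cases hOK : OK (q (tc T w))
      · by_cases hne : Ψ (tc T w) (w \ tc T w) =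
            Ψ' (q (tc T w)) (tc (T' (q (tc T w))) (w \ tc T w))
        · have hz : A1 w - A2 w = 0 := by
            rw [hA1, hA2]
            dsimp only
            rw [if_pos hOK, if_pos hOK, hne, sub_self]
          rw [hz, abs_zero]
          refine mul_nonneg (by linarith) (mul_nonneg (abs_nonneg _) ?_)
          split_ifs <;> norm_num
        · have hE : E2 w := ⟨hOK, hne⟩
          rw [if_pos hE, mul_one]
          have hz : A1 w - A2 w = G0 (tc T w) * (Ψ (tc T w) (w \ tc T w) -
              Ψ' (q (tc T w)) (tc (T' (q (tc T w))) (w \ tc T w))) := by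
            rw [hA1, hA2]
            dsimp only
            rw [if_pos hOK, if_pos hOK]
            ring
          rw [hz, abs_mul, mul_comm]
          refine mul_le_mul_of_nonneg_right ?_ (abs_nonneg _)
          have b1 := hΨ (tc T w) (w \ tc T w)
          have b2 := hΨ' (q (tc T w)) (tc (T' (q (tc T w))) (w \ tc T w))
          rw [abs_le] at b1 b2 ⊢
          constructor <;> linarith [b1.1, b1.2, b2.1, b2.2]
      · have hz : A1 w - A2 w = 0 := by
          rw [hA1, hA2]
          dsimp only
          rw [if_neg hOK, if_neg hOK, sub_self]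
        rw [hz, abs_zero]
        refine mul_nonneg (by linarith) (mul_nonneg (abs_nonneg _) ?_)
        split_ifs <;> norm_num
    refine le_trans hle ?_
    rw [cross_smul h4]
    exact mul_le_mul_of_nonneg_left (cross_key h4 D (fun w => G0 (tc T w)) E2) (by linarith)
  -- the main term
  have step3 : |lE D A2| ≤ 2 * B * (Real.sqrt X * Real.sqrt (lP D E1)) := by
    set I : Finset Edge → ℝ := fun V =>
      lE (rest D V T) (fun w' => Ψ' (q V) (tc (T' (q V)) w')) with hI
    set J : Q → ℝ := fun v => lE (D \ M v) (fun w' => Ψ' v (tc (T' v) w')) with hJ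
    have m1 : lE D A2 = lE D (fun w => if OK (q (tc T w)) then G0 (tc T w) * I (tc T w) else 0) := by
      have hmk := h1.2 D T (fun V w' => if OK (q V) then
        G0 V * Ψ' (q V) (tc (T' (q V)) w') else 0)
      refine Eq.trans hmk ?_
      congr 1
      funext w
      by_cases hOK : OK (q (tc T w))
      · simp only [if_pos hOK]
        rw [cross_smul h4]
      · simp only [if_neg hOK]
        exact cross_zero h4 _
    have m2 : lE D (fun w => if OK (q (tc T w)) then G0 (tc T w) * J (q (tc T w)) else 0) = 0 := by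
      have hc := (h3 Q D (fun w => q (tc T w)) (fun w => F (tc T w))).1
        (fun v => if OK v then J v else 0)
      refine Eq.trans ?_ hc
      congr 1
      funext w
      by_cases hOK : OK (q (tc T w))
      · simp only [if_pos hOK, hG0]
      · simp only [if_neg hOK, mul_zero]
    have m3 : lE D A2 = lE D (fun w =>
        (if OK (q (tc T w)) then G0 (tc T w) * I (tc T w) else 0) -
          (if OK (q (tc T w)) then G0 (tc T w) * J (q (tc T w)) else 0)) := by
      rw [cross_sub h4, m2, sub_zero, m1]
    rw [m3]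
    refine le_trans (h4.2.2.2.2.2.1 D _) ?_
    have hle : lE D (fun w => |(if OK (q (tc T w)) then G0 (tc T w) * I (tc T w) else 0) -
          (if OK (q (tc T w)) then G0 (tc T w) * J (q (tc T w)) else 0)|) ≤
        lE D (fun w => 2 * B * lE (rest D (tc T w) T) (fun w' => |G0 (tc T w)| *
          (if OK (q (tc T w)) ∧ ∃ e ∈ tc (T' (q (tc T w))) w', e ∈ M (q (tc T w))
            then 1 else 0))) := by
      refine h4.2.2.1 D _ _ fun w hw he => ?_
      by_cases hOK : OK (q (tc T w))
      · rw [if_pos hOK, if_pos hOK, ← mul_sub, abs_mul, cross_smul h4]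
        have htv := h2 (rest D (tc T w) T) (M (q (tc T w))) (T' (q (tc T w)))
          (Ψ' (q (tc T w))) B (hΨ' (q (tc T w)))
        have hset : rest D (tc T w) T \ M (q (tc T w)) = D \ M (q (tc T w)) := by
          apply Finset.Subset.antisymm
          · intro e he'
            rw [Finset.mem_sdiff] at he' ⊢
            refine ⟨?_, he'.2⟩
            have := he'.1
            unfold rest at this
            exact (Finset.mem_filter.mp this).1
          · intro e he'
            exact Finset.mem_sdiff.mpr ⟨hM w hw he hOK he', (Finset.mem_sdiff.mp he').2⟩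
        rw [hset] at htv
        have hP : lE (rest D (tc T w) T) (fun w' => if OK (q (tc T w)) ∧
            ∃ e ∈ tc (T' (q (tc T w))) w', e ∈ M (q (tc T w)) then (1 : ℝ) else 0) =
            lP (rest D (tc T w) T) (fun w' => ∃ e ∈ tc (T' (q (tc T w))) w',
              e ∈ M (q (tc T w))) := by
          rw [cross_lP]
          congr 1
          funext w'
          by_cases h5 : ∃ e ∈ tc (T' (q (tc T w))) w', e ∈ M (q (tc T w))
          · rw [if_pos ⟨hOK, h5⟩, if_pos h5]
          · rw [if_neg (fun h6 => h5 h6.2), if_neg h5]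
        rw [hP]
        have : |I (tc T w) - J (q (tc T w))| ≤ 2 * B * lP (rest D (tc T w) T) (fun w' =>
            ∃ e ∈ tc (T' (q (tc T w))) w', e ∈ M (q (tc T w))) := htv
        calc |G0 (tc T w)| * |I (tc T w) - J (q (tc T w))| ≤
            |G0 (tc T w)| * (2 * B * lP (rest D (tc T w) T) (fun w' =>
              ∃ e ∈ tc (T' (q (tc T w))) w', e ∈ M (q (tc T w)))) :=
              mul_le_mul_of_nonneg_left this (abs_nonneg _)
          _ = _ := by ring
      · rw [if_neg hOK, if_neg hOK, sub_zero, abs_zero]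
        refine mul_nonneg (by linarith) (cross_nonneg h4 _ _ fun w' => ?_)
        refine mul_nonneg (abs_nonneg _) ?_
        split_ifs <;> norm_num
    refine le_trans hle ?_
    rw [cross_smul h4]
    have hmk := h1.2 D T (fun V w' => |G0 V| *
      (if OK (q V) ∧ ∃ e ∈ tc (T' (q V)) w', e ∈ M (q V) then 1 else 0))
    rw [← hmk]
    exact mul_le_mul_of_nonneg_left (cross_key h4 D (fun w => G0 (tc T w)) E1) (by linarith)
  have h5 : |lE D A1| ≤ |lE D A1 - lE D A2| + |lE D A2| := by
    have := abs_add_le (lE D A1 - lE D A2) (lE D A2)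
    rwa [sub_add_cancel] at this
  calc |lE D A1| ≤ |lE D A1 - lE D A2| + |lE D A2| := h5
    _ ≤ 2 * B * (Real.sqrt X * Real.sqrt (lP D E2)) +
        2 * B * (Real.sqrt X * Real.sqrt (lP D E1)) := add_le_add step2 step3
    _ = 2 * B * Real.sqrt X * (Real.sqrt (lP D E1) + Real.sqrt (lP D E2)) := by ring

end Pool.Agent.Lib.MP_6d40c9_pr
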