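import Mathlib

/-!
# MP_6d40c9_pr: basic definitions (codes with product weights, the square grid, components)

Part K is abstract: `E` is a type of edges, `bd : E → G` the boundary of an edge in a commutative group in which
`g + g = 0`. Part G is the square grid: corners and faces are both indexed by `ℤ × ℤ`; the face `v` is the unit square
whose lower left corner is `v`; the edge `(v, false)` goes from the corner `v` to `v + (1, 0)`, the edge `(v, true)` from
`v` to `v + (0, 1)`.
-/

set_option autoImplicit false

namespace Pool.Agent.Lib.MP_6d40c9_pr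

open Finset
open scoped BigOperators symmDiff

/-! ### Part K: codes with product weights -/

section Core

variable {E G : Type*}

/-- The boundary of a finite set of edges. -/
def bdy [AddCommMonoid G] (bd : E → G) (η : Finset E) : G := ∑ e ∈ η, bd e

open Classical in
/-- Partition function: sum of `∏ e ∈ η, x e` over the `η ⊆ D` with boundary `f`. -/
noncomputable def Zp [AddCommMonoid G] (bd : E → G) (D : Finset E) (x : E → ℝ) (f : G) : ℝ :=
  ∑ η ∈ D.powerset, if bdy bd η = f then ∏ e ∈ η, x e else 0

/-- `f` is the boundary of a subset of `ω`. -/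
def Conn [AddCommMonoid G] (bd : E → G) (ω : Finset E) (f : G) : Prop :=
  ∃ γ ⊆ ω, bdy bd γ = f

open Classical in
/-- The number of `η ⊆ ω` with boundary `0`. -/
noncomputable def evn [AddCommMonoid G] (bd : E → G) (ω : Finset E) : ℝ :=
  ∑ η ∈ ω.powerset, if bdy bd η = 0 then 1 else 0

open Classical in
/-- Expectation for the loop measure: `η ⊆ D` with boundary `0` has weight `∏ e ∈ η, x e`. -/
noncomputable def lpE [AddCommMonoid G] (bd : E → G) (D : Finset E) (x : E → ℝ)
    (g : Finset E → ℝ) : ℝ :=
  (∑ η ∈ D.powerset, if bdy bd η = 0 then (∏ e ∈ η, x e) * g η else 0) / Zp bd D x 0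

open Classical in
/-- Probability for the loop measure. -/
noncomputable def lpP [AddCommMonoid G] (bd : E → G) (D : Finset E) (x : E → ℝ)
    (P : Finset E → Prop) : ℝ := lpE bd D x (fun η => if P η then 1 else 0)

/-- Weight of `ω` in the random cluster (FK) measure. -/
noncomputable def fkW [AddCommMonoid G] [DecidableEq E] (bd : E → G) (D : Finset E) (x : E → ℝ)
    (ω : Finset E) : ℝ := evn bd ω * ((∏ e ∈ ω, x e) * ∏ e ∈ D \ ω, (1 - x e))

/-- Expectation for the random cluster measure. -/
noncomputable def fkE [AddCommMonoid G] [DecidableEq E] (bd : E → G) (D : Finset E) (x : E → ℝ)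
    (g : Finset E → ℝ) : ℝ := (∑ ω ∈ D.powerset, fkW bd D x ω * g ω) / Zp bd D x 0

open Classical in
/-- Probability for the random cluster measure. -/
noncomputable def fkP [AddCommMonoid G] [DecidableEq E] (bd : E → G) (D : Finset E) (x : E → ℝ)
    (P : Finset E → Prop) : ℝ := fkE bd D x (fun ω => if P ω then 1 else 0)

open Classical in
/-- Joint probability: `W ⊆ ω ⊆ D`, `bdy bd W = 0`, the pair has weight `∏ e ∈ ω, x e * ∏ e ∈ D \ ω, (1 - x e)`; the
first marginal is the loop measure and the second one the random cluster measure. -/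
noncomputable def jP [AddCommMonoid G] [DecidableEq E] (bd : E → G) (D : Finset E) (x : E → ℝ)
    (P : Finset E → Finset E → Prop) : ℝ :=
  (∑ ω ∈ D.powerset, ∑ W ∈ ω.powerset,
    if bdy bd W = 0 ∧ P W ω then (∏ e ∈ ω, x e) * ∏ e ∈ D \ ω, (1 - x e) else 0) / Zp bd D x 0

/-- Weight of a pair of sets with symmetric difference `ν` and open set `O` (switching). -/
noncomputable def pW [DecidableEq E] (D : Finset E) (x : E → ℝ) (O ν : Finset E) : ℝ :=
  (∏ e ∈ O, if e ∈ ν then x e else x e ^ 2) * ∏ e ∈ D \ O, (1 - x e ^ 2)

open Classical in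
/-- Sum over the pairs `η₁, η₂ ⊆ O` with boundaries `f`, `g`, with a sign `χ` for the first one. -/
noncomputable def aO [AddCommMonoid G] [DecidableEq E] (bd : E → G) (D : Finset E) (x χ : E → ℝ)
    (O : Finset E) (f g : G) : ℝ :=
  ∑ η₁ ∈ O.powerset, ∑ η₂ ∈ O.powerset,
    if bdy bd η₁ = f ∧ bdy bd η₂ = g then (∏ e ∈ η₁, χ e) * pW D x O (η₁ ∆ η₂) else 0

/-- `P` is an increasing property of the subsets of `D`. -/
def Incr (D : Finset E) (P : Finset E → Prop) : Prop :=
  ∀ ω ω' : Finset E, ω ⊆ ω' → ω' ⊆ D → P ω → P ω'

/-- `P` depends only on the edges of `S`. -/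
def DepOn [DecidableEq E] (S : Finset E) (P : Finset E → Prop) : Prop :=
  ∀ ω : Finset E, P ω ↔ P (ω ∩ S)

end Core

/-! ### Part G: the grid -/

/-- Corners and faces. -/
abbrev Pt := ℤ × ℤ

/-- Edges. -/
abbrev Edge := (ℤ × ℤ) × Bool

/-- First corner of an edge. -/
def src (e : Edge) : Pt := e.1

/-- Second corner of an edge. -/
def tgt (e : Edge) : Pt := if e.2 then (e.1.1, e.1.2 + 1) else (e.1.1 + 1, e.1.2)

/-- The face above or to the right of an edge. -/
def fa (e : Edge) : Pt := e.1

/-- The face below or to the left of an edge. -/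
def fb (e : Edge) : Pt := if e.2 then (e.1.1 - 1, e.1.2) else (e.1.1, e.1.2 - 1)

/-- Boundary of an edge modulo two. -/
def bdV (e : Edge) : Pt → ZMod 2 := Pi.single (src e) 1 + Pi.single (tgt e) 1

/-- Boundary of an edge modulo two, seen only in the finite set `Λ` (everything outside `Λ` is one
further vertex, which is not recorded). -/
def bdR (Λ : Finset Pt) (e : Edge) : Pt → ZMod 2 := fun v => if v ∈ Λ then bdV e v else 0

/-- The indicator function of a point, modulo two. -/
def pt (v : Pt) : Pt → ZMod 2 := Pi.single v 1

/-- `even` sets of edges. -/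
def Even' (w : Finset Edge) : Prop := bdy bdV w = 0

/-- Two corners are joined in `ω`. -/
def Reach (ω : Finset Edge) (a b : Pt) : Prop :=
  Relation.ReflTransGen (fun a b => ∃ e ∈ ω, (src e = a ∧ tgt e = b) ∨ (src e = b ∧ tgt e = a)) a b

/-- The box of radius `n` around `z` (as a set of corners or as a set of faces). -/
noncomputable def box (z : Pt) (n : ℕ) : Finset Pt :=
  Finset.Icc (z.1 - n) (z.1 + n) ×ˢ Finset.Icc (z.2 - n) (z.2 + n)

/-- Maximum distance. -/
noncomputable def ldist (z z' : Pt) : ℕ := max (z.1 - z'.1).natAbs (z.2 - z'.2).natAbs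

/-- The edges which are sides of a face of `F`. -/
def LF (F : Finset Pt) : Finset Edge :=
  F.biUnion fun u => {(u, false), (u, true), ((u.1, u.2 + 1), false), ((u.1 + 1, u.2), true)}

/-- The edges which have an end in `Λ`. -/
def EV (Λ : Finset Pt) : Finset Edge :=
  Λ.biUnion fun v => {(v, false), (v, true), ((v.1 - 1, v.2), false), ((v.1, v.2 - 1), true)}

/-- The edges which have both ends in `Λ`. -/
def EB (Λ : Finset Pt) : Finset Edge := (EV Λ).filter fun e => src e ∈ Λ ∧ tgt e ∈ Λ

/-- The edges both of whose adjacent faces lie in `F`. -/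
def LI (F : Finset Pt) : Finset Edge := (LF F).filter fun e => fa e ∈ F ∧ fb e ∈ F

/-- The number of horizontal edges of `w` above the face `u`. -/
def cnt (w : Finset Edge) (u : Pt) : ℕ :=
  (w.filter fun e => e.2 = false ∧ e.1.1 = u.1 ∧ u.2 < e.1.2).card

/-- The spin of the face `u` in the configuration with domain walls `w`. -/
noncomputable def sgn (w : Finset Edge) (u : Pt) : ℝ := (-1) ^ cnt w u

/-- The critical weight. -/
noncomputable def xc : ℝ := Real.sqrt 2 - 1

/-- Loop expectation on the edge set `D` of the grid, at the critical weight. -/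
noncomputable def lE (D : Finset Edge) (g : Finset Edge → ℝ) : ℝ := lpE bdV D (fun _ => xc) g

/-- Loop probability on the edge set `D` of the grid, at the critical weight. -/
noncomputable def lP (D : Finset Edge) (P : Finset Edge → Prop) : ℝ := lpP bdV D (fun _ => xc) P

/-- Product of the spins of a finite set of faces. -/
noncomputable def sgs (U : Finset Pt) (w : Finset Edge) : ℝ := ∏ u ∈ U, sgn w u

/-- One point function. -/
noncomputable def c1 (D : Finset Edge) (u : Pt) : ℝ := lE D fun w => sgn w u

/-- Two point function. -/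
noncomputable def c2 (D : Finset Edge) (u v : Pt) : ℝ := lE D fun w => sgn w u * sgn w v

/-- Magnetization at the centre of a box with `+` boundary condition. -/
noncomputable def mm (N : ℕ) : ℝ := c1 (LF (box 0 N)) 0

/-- Magnetization of the rigid block of radius `n` in the box of radius `N`. -/
noncomputable def aa (n N : ℕ) : ℝ := c1 (LF (box 0 N) \ LI (box 0 n)) 0

/-- Domain walls of the configuration whose `-` faces are `A`. -/
def walls (A : Finset Pt) : Finset Edge := (LF A).filter fun e => ¬ (fa e ∈ A ↔ fb e ∈ A)

/-- Every even set of sides of `F` has spin `+` outside `F` (the complement of `F` is connected). -/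
def Simp (F : Finset Pt) : Prop :=
  ∀ w : Finset Edge, w ⊆ LF F → Even' w → ∀ u, u ∉ F → Even (cnt w u)

/-- Two edges share an end. -/
def adjE (a b : Edge) : Prop := src a = src b ∨ src a = tgt b ∨ tgt a = src b ∨ tgt a = tgt b

/-- `a` and `b` are joined by a chain of edges of `w` (with `a` not required to be in `w`). -/
def connE (w : Finset Edge) (a b : Edge) : Prop :=
  Relation.ReflTransGen (fun a b => b ∈ w ∧ adjE a b) a b

open Classical in
/-- The component of the edge `a` in `w`. -/
noncomputable def comp (w : Finset Edge) (a : Edge) : Finset Edge := w.filter fun b => connE w a b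

open Classical in
/-- The set of the components of `w`. -/
noncomputable def comps (w : Finset Edge) : Finset (Finset Edge) := w.image (comp w)

open Classical in
/-- The union of the components of `w` which contain an edge with the property `T`. -/
noncomputable def tc (T : Edge → Prop) (w : Finset Edge) : Finset Edge :=
  w.filter fun b => ∃ a ∈ w, T a ∧ connE w a b

open Classical in
/-- What remains free when `tc T w = V`. -/
noncomputable def rest (D V : Finset Edge) (T : Edge → Prop) : Finset Edge :=
  D.filter fun e => ¬ T e ∧ ∀ a ∈ V, ¬ adjE a e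

/-- Some corner of `Λ` is joined in `ω` to a corner outside `Λ'`. -/
def Arm (Λ Λ' : Finset Pt) (ω : Finset Edge) : Prop := ∃ a ∈ Λ, ∃ b, b ∉ Λ' ∧ Reach ω a b

/-- Two sets of corners are joined in `ω`. -/
def Join (Λ Λ' : Finset Pt) (ω : Finset Edge) : Prop := ∃ a ∈ Λ, ∃ b ∈ Λ', Reach ω a b

/-- `c` is a connected even set of edges in the box of radius `m` around `z`, and the faces of the box of
radius `n` are inside. -/
def IsCirc (z : Pt) (n m : ℕ) (c : Finset Edge) : Prop :=
  c.Nonempty ∧ Even' c ∧ (∀ a ∈ c, ∀ b ∈ c, connE c a b) ∧ c ⊆ EB (box z m) ∧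
    ∀ u ∈ box z n, Odd (cnt c u)

/-- `ω` contains a circuit. -/
def Circ (z : Pt) (n m : ℕ) (ω : Finset Edge) : Prop := ∃ c ⊆ ω, IsCirc z n m c

/-- Weights equal to one inside the box of radius `n` around `z`. -/
noncomputable def xblk (z : Pt) (n : ℕ) (e : Edge) : ℝ :=
  if src e ∈ box z n ∧ tgt e ∈ box z n then 1 else xc

/-- Random cluster probability in the box of radius `N` around `z`, wired outside. -/
noncomputable def fkB (z : Pt) (N : ℕ) (x : Edge → ℝ) (P : Finset Edge → Prop) : ℝ :=
  fkP (bdR (box z N)) (EV (box z N)) x P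

/-- Free random cluster probability on the edge set `D` at the critical weight. -/
noncomputable def fkF (D : Finset Edge) (P : Finset Edge → Prop) : ℝ :=
  fkP bdV D (fun _ => xc) P

/-- Indicator of a finite set of points, modulo two. -/
noncomputable def pts (U : Finset Pt) : Pt → ZMod 2 := ∑ u ∈ U, pt u

/-- Boundary of an edge as a pair of adjacent faces, seen only in `F`. -/
def bdFc (F : Finset Pt) (e : Edge) : Pt → ZMod 2 :=
  fun v => if v ∈ F then (pt (fa e) + pt (fb e)) v else 0

/-- The spin configuration which is `-` on `A`, `+` on `F \ A` and `ζ` outside `F`. -/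
noncomputable def sp (F A : Finset Pt) (ζ : Pt → ℝ) (u : Pt) : ℝ :=
  if u ∈ F then (if u ∈ A then -1 else 1) else ζ u

/-- The sign of an edge for the boundary condition `ζ` outside `F`. -/
noncomputable def chiO (F : Finset Pt) (ζ : Pt → ℝ) (e : Edge) : ℝ :=
  (if fa e ∈ F then 1 else ζ (fa e)) * (if fb e ∈ F then 1 else ζ (fb e))

/-- The edge whose corners are the faces adjacent to `e`. -/
def iota (e : Edge) : Edge :=
  if e.2 then ((e.1.1 - 1, e.1.2), false) else ((e.1.1, e.1.2 - 1), true)

/-- Translation of an edge. -/
def shE (z : Pt) (e : Edge) : Edge := ((e.1.1 + z.1, e.1.2 + z.2), e.2)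

/-- Crossing probability from the box of radius `n` to the outside of the box of radius `N`, wired outside. -/
noncomputable def uu (n N : ℕ) : ℝ := fkB 0 N (fun _ => xc) (Arm (box 0 n) (box 0 N))

end Pool.Agent.Lib.MP_6d40c9_pr
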