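import Pool.Agent.Lib.MP_6d40c9_pr.SpecG

/-!
# Duality
-/

set_option autoImplicit false

namespace Pool.Agent.Lib.MP_6d40c9_pr

open Finset
open scoped BigOperators symmDiff

private lemma dual_mem_LF_fa {A : Finset Pt} {e : Edge} (h : fa e ∈ A) : e ∈ LF A := by
  unfold LF
  rw [Finset.mem_biUnion]
  refine ⟨fa e, h, ?_⟩
  obtain ⟨⟨i, j⟩, b⟩ := e
  cases b <;> simp [fa]

private lemma dual_mem_LF_fb {A : Finset Pt} {e : Edge} (h : fb e ∈ A) : e ∈ LF A := by
  unfold LF
  rw [Finset.mem_biUnion]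
  refine ⟨fb e, h, ?_⟩
  obtain ⟨⟨i, j⟩, b⟩ := e
  cases b <;> simp [fb]

private lemma dual_LF_mono {A F : Finset Pt} (h : A ⊆ F) : LF A ⊆ LF F := by
  unfold LF
  exact Finset.biUnion_subset_biUnion_of_subset_left _ h

private lemma dual_mem_walls {A : Finset Pt} {e : Edge} :
    e ∈ walls A ↔ ¬ (fa e ∈ A ↔ fb e ∈ A) := by
  unfold walls
  rw [Finset.mem_filter]
  constructor
  · exact fun h => h.2
  · intro h
    refine ⟨?_, h⟩
    by_cases ha : fa e ∈ A
    · exact dual_mem_LF_fa ha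
    · by_cases hb : fb e ∈ A
      · exact dual_mem_LF_fb hb
      · exact absurd (iff_of_false ha hb) h

private lemma dual_sp {F A : Finset Pt} (h : A ⊆ F) (u : Pt) :
    sp F A (fun _ => 1) u = if u ∈ A then -1 else 1 := by
  unfold sp
  by_cases hu : u ∈ F
  · rw [if_pos hu]
  · rw [if_neg hu, if_neg (fun h' => hu (h h'))]

private lemma dual_sp_mul {F A : Finset Pt} (h : A ⊆ F) (e : Edge) :
    sp F A (fun _ => 1) (fa e) * sp F A (fun _ => 1) (fb e) = if e ∈ walls A then -1 else 1 := by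
  rw [dual_sp h, dual_sp h]
  by_cases ha : fa e ∈ A <;> by_cases hb : fb e ∈ A <;> simp [dual_mem_walls, ha, hb]

private lemma dual_xc : (1 - xc) / (1 + xc) = xc := by
  have h2 : Real.sqrt 2 ^ 2 = 2 := Real.sq_sqrt (by norm_num)
  have h0 : 0 < Real.sqrt 2 := Real.sqrt_pos.2 (by norm_num)
  have h1 : 1 + xc = Real.sqrt 2 := by unfold xc; ring
  rw [h1, div_eq_iff h0.ne']
  unfold xc
  nlinarith

private lemma dual_xc_pos : 0 < xc := by
  unfold xc
  have : (1 : ℝ) < Real.sqrt 2 := by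
    rw [Real.lt_sqrt (by norm_num)]
    norm_num
  linarith

private lemma dual_prod {F A : Finset Pt} (h : A ⊆ F) (M : Finset Edge) :
    ∏ e ∈ LF F, (1 + (if e ∈ M then (1 : ℝ) else xc) *
        (sp F A (fun _ => 1) (fa e) * sp F A (fun _ => 1) (fb e))) =
      (∏ e ∈ LF F, (1 + (if e ∈ M then (1 : ℝ) else xc))) *
        ∏ e ∈ walls A, (if e ∈ M then (0 : ℝ) else xc) := by
  have hsub : walls A ⊆ LF F := by
    refine Finset.Subset.trans ?_ (dual_LF_mono h)
    unfold walls
    exact Finset.filter_subset _ _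
  have h1 : ∏ e ∈ walls A, (if e ∈ M then (0 : ℝ) else xc) =
      ∏ e ∈ LF F, (if e ∈ walls A then (if e ∈ M then (0 : ℝ) else xc) else 1) := by
    rw [← Finset.prod_subset hsub (f := fun e => if e ∈ walls A then
      (if e ∈ M then (0 : ℝ) else xc) else 1)]
    · refine Finset.prod_congr rfl ?_
      intro e he
      simp only [if_pos he]
    · intro e _ he
      simp only [if_neg he]
  rw [h1, ← Finset.prod_mul_distrib]
  refine Finset.prod_congr rfl ?_
  intro e _
  rw [dual_sp_mul h]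
  have hx := dual_xc
  have hp := dual_xc_pos
  rw [div_eq_iff (by linarith)] at hx
  by_cases hw : e ∈ walls A
  · rw [if_pos hw, if_pos hw]
    by_cases hM : e ∈ M
    · rw [if_pos hM, if_pos hM]; norm_num
    · rw [if_neg hM, if_neg hM]; linarith
  · rw [if_neg hw, if_neg hw]; ring

private lemma dual_sgs (h1 : GridFacts) {F A U : Finset Pt} (h : A ⊆ F) :
    ∏ u ∈ U, sp F A (fun _ => 1) u = sgs U (walls A) := by
  unfold sgs
  refine Finset.prod_congr rfl ?_
  intro u _
  rw [dual_sp h]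
  unfold sgn
  have h2 := (h1.2.1 A).2.2 u
  by_cases hu : u ∈ A
  · rw [if_pos hu, (h2.2 hu).neg_one_pow]
  · rw [if_neg hu]
    have : Even (cnt (walls A) u) := by
      rw [← Nat.not_odd_iff_even]
      exact fun ho => hu (h2.1 ho)
    rw [this.neg_one_pow]

private lemma dual_low {F : Finset Pt} (M : Finset Edge) (g : Finset Edge → ℝ) :
    (∑ w ∈ (LF F).powerset,
      @ite ℝ (Even' w) (Classical.propDecidable _)
        ((∏ e ∈ w, (if e ∈ M then (0 : ℝ) else xc)) * g w) 0) =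
      ∑ w ∈ (LF F \ M).powerset,
      @ite ℝ (bdy bdV w = 0) (Classical.propDecidable _) ((∏ _e ∈ w, xc) * g w) 0 := by
  have hsub : (LF F \ M).powerset ⊆ (LF F).powerset :=
    Finset.powerset_mono.2 Finset.sdiff_subset
  rw [← Finset.sum_subset hsub]
  · refine Finset.sum_congr rfl ?_
    intro w hw
    rw [Finset.mem_powerset] at hw
    have hp : ∏ e ∈ w, (if e ∈ M then (0 : ℝ) else xc) = ∏ _e ∈ w, xc := by
      refine Finset.prod_congr rfl ?_
      intro e he
      rw [if_neg (Finset.mem_sdiff.1 (hw he)).2]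
    rw [hp]
    unfold Even'
    rfl
  · intro w hw hw'
    rw [Finset.mem_powerset] at hw hw'
    have hex : ∃ e ∈ w, e ∈ M := by
      by_contra hc
      push Not at hc
      exact hw' (fun e he => Finset.mem_sdiff.2 ⟨hw he, hc e he⟩)
    obtain ⟨e, he, hM⟩ := hex
    have h0 : ∏ e ∈ w, (if e ∈ M then (0 : ℝ) else xc) = 0 := by
      refine Finset.prod_eq_zero he ?_
      rw [if_pos hM]
    rw [h0, zero_mul]
    exact ite_self _

private lemma dual_key (h1 : GridFacts) (h2 : LowTemp) (h3 : HighTemp) {F : Finset Pt}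
    (hF : Simp F) (M : Finset Edge) {U : Finset Pt} (hU : U ⊆ F) :
    (∏ e ∈ LF F, (1 + (if e ∈ M then (1 : ℝ) else xc))) *
      (∑ w ∈ (LF F \ M).powerset,
        @ite ℝ (bdy bdV w = 0) (Classical.propDecidable _) ((∏ _e ∈ w, xc) * sgs U w) 0) =
      2 ^ F.card * Zp (bdFc F) (LF F) (fun e => if e ∈ M then 1 else xc) (pts U) := by
  have h4 := h3 F (LF F) (fun e => if e ∈ M then 1 else xc) (fun _ => 1) U hU
  have h5 : (fun e => chiO F (fun _ => 1) e * (if e ∈ M then (1 : ℝ) else xc)) =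
      fun e => if e ∈ M then 1 else xc := by
    funext e
    unfold chiO
    simp
  rw [h5] at h4
  rw [← h4, ← dual_low M (sgs U), ← h2 F hF, Finset.mul_sum]
  refine Finset.sum_congr rfl ?_
  intro A hA
  rw [Finset.mem_powerset] at hA
  rw [dual_prod hA M, dual_sgs h1 hA]
  ring

/-- **Duality.** -/
theorem dual (h1 : GridFacts) (h2 : LowTemp) (h3 : HighTemp) : Dual := by
  intro F hF M hM U hU
  have hk := dual_key h1 h2 h3 hF M hU
  have hk0 := dual_key h1 h2 h3 hF M (Finset.empty_subset F)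
  have hp0 : pts (∅ : Finset Pt) = 0 := by unfold pts; simp
  rw [hp0] at hk0
  have hC : 0 < ∏ e ∈ LF F, (1 + (if e ∈ M then (1 : ℝ) else xc)) := by
    refine Finset.prod_pos ?_
    intro e _
    have := dual_xc_pos
    split_ifs <;> linarith
  have h2p : (0 : ℝ) < 2 ^ F.card := by positivity
  unfold lE lpE
  have hZ : Zp bdV (LF F \ M) (fun _ => xc) 0 = ∑ w ∈ (LF F \ M).powerset,
        @ite ℝ (bdy bdV w = 0) (Classical.propDecidable _) ((∏ _e ∈ w, xc) * sgs ∅ w) 0 := by
    unfold Zp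
    refine Finset.sum_congr rfl ?_
    intro w _
    unfold sgs
    simp
  rw [hZ]
  generalize (∑ w ∈ (LF F \ M).powerset,
        @ite ℝ (bdy bdV w = 0) (Classical.propDecidable _) ((∏ _e ∈ w, xc) * sgs U w) 0) = S at hk ⊢
  generalize (∑ w ∈ (LF F \ M).powerset,
        @ite ℝ (bdy bdV w = 0) (Classical.propDecidable _) ((∏ _e ∈ w, xc) * sgs ∅ w) 0) = T at hk0 ⊢
  generalize Zp (bdFc F) (LF F) (fun e => if e ∈ M then 1 else xc) (pts U) = P at hk ⊢
  generalize Zp (bdFc F) (LF F) (fun e => if e ∈ M then 1 else xc) 0 = R at hk0 ⊢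
  generalize (∏ e ∈ LF F, (1 + (if e ∈ M then (1 : ℝ) else xc))) = C at hk hk0 hC
  have hS : S = 2 ^ F.card / C * P := by
    field_simp
    linarith
  have hT : T = 2 ^ F.card / C * R := by
    field_simp
    linarith
  rw [hS, hT]
  have hne : (2 : ℝ) ^ F.card / C ≠ 0 := (div_pos h2p hC).ne'
  exact mul_div_mul_left _ _ hne

end Pool.Agent.Lib.MP_6d40c9_pr
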