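import Pool.Agent.Lib.MP_6d40c9_pr.SpecM

/-!
# MP_6d40c9_pr: the faces contained in a domain with connected complement are simple (`FacesSimp`)
-/

set_option autoImplicit false

namespace Pool.Agent.Lib.MP_6d40c9_pr

open Finset Filter Topology
open scoped BigOperators

lemma facesSimp_mem_LF {F : Finset Pt} {e : Edge} (h : e ∈ LF F) : fa e ∈ F ∨ fb e ∈ F := by
  obtain ⟨⟨x, y⟩, b⟩ := e
  unfold LF at h
  rw [Finset.mem_biUnion] at h
  obtain ⟨u, hu, he⟩ := h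
  unfold fa fb
  cases b
  · simp only [Bool.false_eq_true, if_false]
    simp only [Finset.mem_insert, Finset.mem_singleton, Prod.mk.injEq, Bool.false_eq_true,
      and_true, and_false, or_false, false_or] at he
    rcases he with he | ⟨h1, h2⟩
    · left; rw [he]; exact hu
    · right
      have : (x, y - 1) = u := by
        ext
        · exact h1
        · show y - 1 = u.2
          omega
      rw [this]; exact hu
  · simp only [if_true]
    simp only [Finset.mem_insert, Finset.mem_singleton, Prod.mk.injEq, Bool.true_eq_false,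
      and_true, and_false, or_false, false_or] at he
    rcases he with he | ⟨h1, h2⟩
    · left; rw [he]; exact hu
    · right
      have : (x - 1, y) = u := by
        ext
        · show x - 1 = u.1
          omega
        · exact h2
      rw [this]; exact hu

/-- The parity does not change across an edge whose two faces are not in `F`. -/
lemma facesSimp_edge (h : GridFacts) {F : Finset Pt} {w : Finset Edge} (hw : w ⊆ LF F)
    (he : Even' w) (e : Edge) (h1 : fa e ∉ F) (h2 : fb e ∉ F) :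
    (Even (cnt w (fa e)) ↔ Even (cnt w (fb e))) := by
  have h4 : e ∉ w := by
    intro hin
    rcases facesSimp_mem_LF (hw hin) with h5 | h5
    · exact h1 h5
    · exact h2 h5
  have h5 : ¬ Odd (cnt w (fa e) + cnt w (fb e)) := fun ho => h4 ((h.1 w he e).mp ho)
  rwa [Nat.not_odd_iff_even, Nat.even_add] at h5

lemma facesSimp_h (h : GridFacts) {F : Finset Pt} {w : Finset Edge} (hw : w ⊆ LF F)
    (he : Even' w) {x x' y : ℤ} (hx : x' ≤ x + 1) (hx' : x ≤ x' + 1) (h1 : (x, y) ∉ F)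
    (h2 : (x', y) ∉ F) : (Even (cnt w (x, y)) ↔ Even (cnt w (x', y))) := by
  have hc : x' = x ∨ x' = x + 1 ∨ x = x' + 1 := by omega
  rcases hc with rfl | rfl | rfl
  · exact Iff.rfl
  · have e1 : fb (((x + 1, y), true) : Edge) = (x, y) := by simp [fb]
    have := facesSimp_edge h hw he ((x + 1, y), true) h2 (by rw [e1]; exact h1)
    rw [e1] at this
    exact this.symm
  · have e1 : fb (((x' + 1, y), true) : Edge) = (x', y) := by simp [fb]
    have := facesSimp_edge h hw he ((x' + 1, y), true) h1 (by rw [e1]; exact h2)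
    rw [e1] at this
    exact this

lemma facesSimp_v (h : GridFacts) {F : Finset Pt} {w : Finset Edge} (hw : w ⊆ LF F)
    (he : Even' w) {x y y' : ℤ} (hy : y' ≤ y + 1) (hy' : y ≤ y' + 1) (h1 : (x, y) ∉ F)
    (h2 : (x, y') ∉ F) : (Even (cnt w (x, y)) ↔ Even (cnt w (x, y'))) := by
  have hc : y' = y ∨ y' = y + 1 ∨ y = y' + 1 := by omega
  rcases hc with rfl | rfl | rfl
  · exact Iff.rfl
  · have e1 : fb (((x, y + 1), false) : Edge) = (x, y) := by simp [fb]
    have := facesSimp_edge h hw he ((x, y + 1), false) h2 (by rw [e1]; exact h1)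
    rw [e1] at this
    exact this.symm
  · have e1 : fb (((x, y' + 1), false) : Edge) = (x, y') := by simp [fb]
    have := facesSimp_edge h hw he ((x, y' + 1), false) h1 (by rw [e1]; exact h2)
    rw [e1] at this
    exact this

lemma facesSimp_mem_cell {δ : ℝ} (hδ : 0 < δ) (u : Pt) (p : ℝ × ℝ) :
    p ∈ cell δ u ↔ ((u.1 : ℝ) ≤ p.1 / δ ∧ p.1 / δ ≤ u.1 + 1) ∧
      ((u.2 : ℝ) ≤ p.2 / δ ∧ p.2 / δ ≤ u.2 + 1) := by
  unfold cell
  rw [Set.mem_setOf_eq, le_div_iff₀ hδ, div_le_iff₀ hδ, le_div_iff₀ hδ, div_le_iff₀ hδ,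
    mul_comm δ (u.1 : ℝ), mul_comm δ ((u.1 : ℝ) + 1), mul_comm δ (u.2 : ℝ),
    mul_comm δ ((u.2 : ℝ) + 1)]
  tauto

lemma facesSimp_ref {δ : ℝ} (hδ : 0 < δ) (p : ℝ × ℝ) : p ∈ cell δ (ref δ p) := by
  rw [facesSimp_mem_cell hδ]
  unfold ref
  exact ⟨⟨Int.floor_le _, (Int.lt_floor_add_one _).le⟩,
    ⟨Int.floor_le _, (Int.lt_floor_add_one _).le⟩⟩

lemma facesSimp_floor (a : ℝ) : ∀ᶠ x in 𝓝 a, ((⌊x⌋ : ℤ) : ℝ) ≤ a ∧ a ≤ (⌊x⌋ : ℤ) + 1 := by
  have h1 : ((⌈a⌉ : ℤ) : ℝ) - 1 < a := by linarith [Int.ceil_lt_add_one a]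
  have h2 : a < ((⌊a⌋ : ℤ) : ℝ) + 1 := Int.lt_floor_add_one a
  filter_upwards [Ioo_mem_nhds h1 h2] with x hx
  constructor
  · have h3 : ⌊x⌋ < ⌊a⌋ + 1 := by
      rw [Int.floor_lt]
      push_cast
      exact hx.2
    have h4 : ⌊x⌋ ≤ ⌊a⌋ := by omega
    have h5 : ((⌊x⌋ : ℤ) : ℝ) ≤ ((⌊a⌋ : ℤ) : ℝ) := by exact_mod_cast h4
    exact h5.trans (Int.floor_le a)
  · have h3 : ⌈a⌉ - 1 ≤ ⌊x⌋ := by
      rw [Int.le_floor]
      push_cast
      exact hx.1.le
    have h5 : ((⌈a⌉ : ℤ) : ℝ) - 1 ≤ ((⌊x⌋ : ℤ) : ℝ) := by exact_mod_cast h3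
    linarith [Int.le_ceil a]

lemma facesSimp_near {δ : ℝ} (hδ : 0 < δ) (p : ℝ × ℝ) : ∀ᶠ q in 𝓝 p, p ∈ cell δ (ref δ q) := by
  have c1 : Tendsto (fun q : ℝ × ℝ => q.1 / δ) (𝓝 p) (𝓝 (p.1 / δ)) :=
    (continuous_fst.div_const δ).tendsto p
  have c2 : Tendsto (fun q : ℝ × ℝ => q.2 / δ) (𝓝 p) (𝓝 (p.2 / δ)) :=
    (continuous_snd.div_const δ).tendsto p
  filter_upwards [c1.eventually (facesSimp_floor _), c2.eventually (facesSimp_floor _)] with q h1 h2
  rw [facesSimp_mem_cell hδ]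
  exact ⟨h1, h2⟩

lemma facesSimp_cells (h : GridFacts) {F : Finset Pt} {w : Finset Edge} (hw : w ⊆ LF F)
    (he : Even' w) {δ : ℝ} (hδ : 0 < δ) {p : ℝ × ℝ} (hp : ∀ v, p ∈ cell δ v → v ∉ F)
    {u u' : Pt} (hu : p ∈ cell δ u) (hu' : p ∈ cell δ u') :
    (Even (cnt w u) ↔ Even (cnt w u')) := by
  obtain ⟨x, y⟩ := u
  obtain ⟨x', y'⟩ := u'
  have h1 := (facesSimp_mem_cell hδ _ _).mp hu
  have h2 := (facesSimp_mem_cell hδ _ _).mp hu'
  simp only at h1 h2
  have hm : p ∈ cell δ (x, y') := by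
    rw [facesSimp_mem_cell hδ]
    exact ⟨h1.1, h2.2⟩
  have a1 : (x : ℝ) ≤ x' + 1 := by linarith [h1.1.1, h2.1.2]
  have a2 : (x' : ℝ) ≤ x + 1 := by linarith [h2.1.1, h1.1.2]
  have a3 : (y : ℝ) ≤ y' + 1 := by linarith [h1.2.1, h2.2.2]
  have a4 : (y' : ℝ) ≤ y + 1 := by linarith [h2.2.1, h1.2.2]
  have b1 : x ≤ x' + 1 := by exact_mod_cast a1
  have b2 : x' ≤ x + 1 := by exact_mod_cast a2
  have b3 : y ≤ y' + 1 := by exact_mod_cast a3
  have b4 : y' ≤ y + 1 := by exact_mod_cast a4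
  exact (facesSimp_v h hw he b4 b3 (hp _ hu) (hp _ hm)).trans
    (facesSimp_h h hw he b2 b1 (hp _ hm) (hp _ hu'))

theorem facesSimp (h : GridFacts) : FacesSimp := by
  classical
  intro Ω δ hΩ hc hδ
  obtain ⟨R, hR⟩ := hΩ.exists_norm_le
  -- finiteness
  have hfin : {u : Pt | cell δ u ⊆ Ω}.Finite := by
    refine ((Set.finite_Icc ⌈-(R / δ)⌉ ⌊R / δ⌋).prod (Set.finite_Icc ⌈-(R / δ)⌉ ⌊R / δ⌋)).subset ?_
    intro u hu
    have hu' : cell δ u ⊆ Ω := hu
    have hp : ((δ * u.1, δ * u.2) : ℝ × ℝ) ∈ cell δ u := by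
      unfold cell
      refine ⟨le_rfl, ?_, le_rfl, ?_⟩
      · exact mul_le_mul_of_nonneg_left (by linarith) hδ.le
      · exact mul_le_mul_of_nonneg_left (by linarith) hδ.le
    have h1 := hR _ (hu' hp)
    have h2 : |δ * (u.1 : ℝ)| ≤ R := (norm_fst_le ((δ * u.1, δ * u.2) : ℝ × ℝ)).trans h1
    have h3 : |δ * (u.2 : ℝ)| ≤ R := (norm_snd_le ((δ * u.1, δ * u.2) : ℝ × ℝ)).trans h1
    have key : ∀ k : ℤ, |δ * (k : ℝ)| ≤ R → k ∈ Set.Icc ⌈-(R / δ)⌉ ⌊R / δ⌋ := by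
      intro k hk
      rw [abs_mul, abs_of_pos hδ, mul_comm, ← le_div_iff₀ hδ, abs_le] at hk
      exact ⟨Int.ceil_le.mpr hk.1, Int.le_floor.mpr hk.2⟩
    exact ⟨key _ h2, key _ h3⟩
  have hmem : ∀ u, u ∈ faces Ω δ ↔ cell δ u ⊆ Ω := by
    intro u
    unfold faces
    rw [dif_pos hfin, Set.Finite.mem_toFinset]
    rfl
  refine ⟨?_, hmem⟩
  intro w hw he u hu
  have hout : ∀ p, p ∉ Ω → ∀ v, p ∈ cell δ v → v ∉ faces Ω δ := by
    intro p hp v hv hvF
    exact hp ((hmem v).mp hvF hv)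
  -- the parity is locally constant on the complement
  set f : ℝ × ℝ → Bool := fun p => decide (Even (cnt w (ref δ p))) with hf
  have hcont : ContinuousOn f Ωᶜ := by
    intro p hp
    have hev : ∀ᶠ q in 𝓝[Ωᶜ] p, f q = f p := by
      have h1 : ∀ᶠ q in 𝓝[Ωᶜ] p, p ∈ cell δ (ref δ q) :=
        (facesSimp_near hδ p).filter_mono nhdsWithin_le_nhds
      filter_upwards [h1] with q hq
      have := facesSimp_cells h hw he hδ (hout p hp) hq (facesSimp_ref hδ p)
      simp only [hf]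
      exact decide_eq_decide.mpr this
    exact (tendsto_const_nhds (x := f p)).congr' (hev.mono fun q hq => hq.symm)
  -- a far point
  obtain ⟨K, hK⟩ := (w.image (fun e : Edge => e.1.2)).exists_le
  set M : ℤ := max K (⌊R / δ⌋ + 1) with hM
  set p₀ : ℝ × ℝ := (0, δ * M) with hp₀
  have hp₀Ω : p₀ ∈ Ωᶜ := by
    intro hin
    have h1 := hR _ hin
    have h2 : |δ * (M : ℝ)| ≤ R := (norm_snd_le p₀).trans h1
    have h3 : δ * (M : ℝ) ≤ R := (le_abs_self _).trans h2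
    rw [mul_comm, ← le_div_iff₀ hδ] at h3
    have h4 : ((⌊R / δ⌋ + 1 : ℤ) : ℝ) ≤ M := by exact_mod_cast le_max_right _ _
    have h5 := Int.lt_floor_add_one (R / δ)
    push_cast at h4
    linarith
  have href : ref δ p₀ = (0, M) := by
    unfold ref
    rw [hp₀]
    simp only
    rw [mul_div_cancel_left₀ _ hδ.ne']
    simp
  have hcnt : cnt w (0, M) = 0 := by
    unfold cnt
    rw [Finset.card_eq_zero, Finset.filter_eq_empty_iff]
    rintro e hin ⟨-, -, h3⟩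
    have h4 := hK _ (Finset.mem_image_of_mem (fun e : Edge => e.1.2) hin)
    have h5 : K ≤ M := le_max_left _ _
    simp only at h3 h4
    omega
  have hf₀ : f p₀ = true := by
    simp only [hf, href, hcnt]
    simp
  -- a point of the cell of `u` outside
  have hu' : ¬ cell δ u ⊆ Ω := fun hh => hu ((hmem u).mpr hh)
  obtain ⟨p, hpc, hpΩ⟩ := Set.not_subset.mp hu'
  have h1 := hc.isPreconnected.constant hcont (x := p) (y := p₀) hpΩ hp₀Ω
  rw [hf₀] at h1
  have h2 : Even (cnt w (ref δ p)) := by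
    simpa [hf] using h1
  exact (facesSimp_cells h hw he hδ (hout p hpΩ) hpc (facesSimp_ref hδ p)).mpr h2

end Pool.Agent.Lib.MP_6d40c9_pr
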