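import Pool.Agent.Lib.MP_6d40c9_pr.SpecP

/-!
# MP_6d40c9_pr: pairs of boxes without common component
-/

set_option autoImplicit false

namespace Pool.Agent.Lib.MP_6d40c9_pr

open Finset MeasureTheory Filter Topology TopologicalSpace Metric
open scoped BigOperators symmDiff

namespace FarPairAux

lemma lE_mono (h6 : LEFacts) (D : Finset Edge) (g g' : Finset Edge → ℝ)
    (h : ∀ w ⊆ D, Even' w → g w ≤ g' w) : lE D g ≤ lE D g' := h6.2.2.1 D g g' h

lemma lE_congr (h6 : LEFacts) (D : Finset Edge) (g g' : Finset Edge → ℝ)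
    (h : ∀ w ⊆ D, Even' w → g w = g' w) : lE D g = lE D g' :=
  le_antisymm (lE_mono h6 D g g' fun w h1 h2 => (h w h1 h2).le)
    (lE_mono h6 D g' g fun w h1 h2 => (h w h1 h2).ge)

lemma lE_add (h6 : LEFacts) (D : Finset Edge) (g g' : Finset Edge → ℝ) :
    lE D (fun w => g w + g' w) = lE D g + lE D g' := by
  have := h6.2.1 D 1 1 g g'
  simpa using this

lemma lE_smul (h6 : LEFacts) (D : Finset Edge) (a : ℝ) (g : Finset Edge → ℝ) :
    lE D (fun w => a * g w) = a * lE D g := by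
  have := h6.2.1 D a 0 g g
  simpa using this

lemma lE_zero (h6 : LEFacts) (D : Finset Edge) : lE D (fun _ => 0) = 0 := by
  have := lE_smul h6 D 0 (fun _ => 1)
  simpa using this

lemma lE_nonneg (h6 : LEFacts) (D : Finset Edge) (g : Finset Edge → ℝ)
    (h : ∀ w, 0 ≤ g w) : 0 ≤ lE D g := by
  rw [← lE_zero h6 D]
  exact lE_mono h6 D _ _ fun w _ _ => h w

lemma cs (h6 : LEFacts) (D : Finset Edge) (g g' : Finset Edge → ℝ) :
    |lE D (fun w => g w * g' w)| ≤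
      Real.sqrt (lE D (fun w => g w ^ 2)) * Real.sqrt (lE D (fun w => g' w ^ 2)) := by
  have h := h6.2.2.2.1 D g g'
  rw [← Real.sqrt_mul (lE_nonneg h6 D _ fun w => sq_nonneg _)]
  exact Real.abs_le_sqrt h

open Classical in
lemma lP_eq (D : Finset Edge) (P : Finset Edge → Prop) :
    lP D P = lE D (fun w => if P w then 1 else 0) := rfl

open Classical in
lemma lP_or (h6 : LEFacts) (D : Finset Edge) (P P' : Finset Edge → Prop) :
    lP D (fun w => P w ∨ P' w) ≤ lP D P + lP D P' := by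
  rw [lP_eq, lP_eq, lP_eq, ← lE_add h6]
  refine lE_mono h6 D _ _ fun w _ _ => ?_
  by_cases h1 : P w <;> by_cases h2 : P' w <;> simp [h1, h2]

lemma lP_mono (h6 : LEFacts) (D : Finset Edge) (P P' : Finset Edge → Prop)
    (h : ∀ w ⊆ D, Even' w → P w → P' w) : lP D P ≤ lP D P' :=
  (h6.2.2.2.2.2.2 D P P' h).2.1

lemma clp_abs (T x : ℝ) (hT : 0 ≤ T) : |clp T x| ≤ T := by
  unfold clp
  rw [abs_le]
  exact ⟨le_max_left _ _, max_le (by linarith) (min_le_left _ _)⟩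

lemma clp_diff (T x : ℝ) (hT : 0 < T) : (x - clp T x) ^ 2 ≤ 1 / T ^ 2 * x ^ 4 := by
  have hT2 : 0 < T ^ 2 := by positivity
  have key : (x - clp T x) ^ 2 * T ^ 2 ≤ x ^ 4 := by
    unfold clp
    rcases le_total T x with h | h
    · rw [min_eq_left h, max_eq_right (by linarith)]
      have h0 : 0 ≤ (x - T) * T := mul_nonneg (by linarith) hT.le
      have h1 : (x - T) * T ≤ x ^ 2 := by nlinarith
      calc (x - T) ^ 2 * T ^ 2 = ((x - T) * T) ^ 2 := by ring
        _ ≤ (x ^ 2) ^ 2 := pow_le_pow_left₀ h0 h1 2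
        _ = x ^ 4 := by ring
    · rw [min_eq_right h]
      rcases le_total (-T) x with h' | h'
      · rw [max_eq_right h']
        have : 0 ≤ x ^ 4 := by positivity
        simpa using this
      · rw [max_eq_left h']
        have h0 : 0 ≤ (-x - T) * T := mul_nonneg (by linarith) hT.le
        have h1 : (-x - T) * T ≤ x ^ 2 := by nlinarith
        calc (x - -T) ^ 2 * T ^ 2 = ((-x - T) * T) ^ 2 := by ring
          _ ≤ (x ^ 2) ^ 2 := pow_le_pow_left₀ h0 h1 2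
          _ = x ^ 4 := by ring
  calc (x - clp T x) ^ 2 = 1 / T ^ 2 * ((x - clp T x) ^ 2 * T ^ 2) := by field_simp
    _ ≤ 1 / T ^ 2 * x ^ 4 := by
        apply mul_le_mul_of_nonneg_left key; positivity

open Classical in
/-- The part where the second factor is not separated. -/
lemma second (h6 : LEFacts) (D : Finset Edge) (P : Finset Edge → Prop) (X Y : Finset Edge → ℝ)
    (K : ℝ) (hX : lE D (fun w => X w ^ 4) ≤ K) (hY : lE D (fun w => Y w ^ 4) ≤ K) :
    |lE D (fun w => if P w then X w * Y w else 0)| ≤ Real.sqrt (lP D P) * Real.sqrt K := by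
  have hK : 0 ≤ K := (lE_nonneg h6 D _ fun w => by positivity).trans hX
  have e1 : lE D (fun w => if P w then X w * Y w else 0) =
      lE D (fun w => (if P w then (1 : ℝ) else 0) * (X w * Y w)) := by
    refine lE_congr h6 D _ _ fun w _ _ => ?_
    by_cases h : P w <;> simp [h]
  rw [e1]
  refine (cs h6 D _ _).trans ?_
  have e2 : lE D (fun w => (if P w then (1 : ℝ) else 0) ^ 2) = lP D P := by
    rw [lP_eq]
    refine lE_congr h6 D _ _ fun w _ _ => ?_
    by_cases h : P w <;> simp [h]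
  rw [e2]
  apply mul_le_mul_of_nonneg_left _ (Real.sqrt_nonneg _)
  apply Real.sqrt_le_sqrt
  have e3 : lE D (fun w => (X w * Y w) ^ 2) = lE D (fun w => X w ^ 2 * Y w ^ 2) := by
    refine lE_congr h6 D _ _ fun w _ _ => ?_
    ring
  rw [e3]
  refine (le_abs_self _).trans ((cs h6 D _ _).trans ?_)
  have e4 : ∀ Z : Finset Edge → ℝ, lE D (fun w => (Z w ^ 2) ^ 2) = lE D (fun w => Z w ^ 4) := by
    intro Z
    refine lE_congr h6 D _ _ fun w _ _ => ?_
    ring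
  rw [e4, e4]
  calc Real.sqrt (lE D fun w => X w ^ 4) * Real.sqrt (lE D fun w => Y w ^ 4)
      ≤ Real.sqrt K * Real.sqrt K :=
        mul_le_mul (Real.sqrt_le_sqrt hX) (Real.sqrt_le_sqrt hY) (Real.sqrt_nonneg _)
          (Real.sqrt_nonneg _)
    _ = K := Real.mul_self_sqrt hK

open Classical in
/-- The error of the truncation. -/
lemma first (h6 : LEFacts) (D : Finset Edge) (P : Finset Edge → Prop) (X Y : Finset Edge → ℝ)
    (K2 K4 T : ℝ) (hT : 0 < T) (hX : lE D (fun w => X w ^ 2) ≤ K2)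
    (hY : lE D (fun w => Y w ^ 4) ≤ K4) :
    |lE D (fun w => if P w then X w * (Y w - clp T (Y w)) else 0)| ≤
      Real.sqrt K2 * (Real.sqrt K4 / T) := by
  have hK4 : 0 ≤ K4 := (lE_nonneg h6 D _ fun w => by positivity).trans hY
  have e1 : lE D (fun w => if P w then X w * (Y w - clp T (Y w)) else 0) =
      lE D (fun w => X w * (if P w then (Y w - clp T (Y w)) else 0)) := by
    refine lE_congr h6 D _ _ fun w _ _ => ?_
    by_cases h : P w <;> simp [h]
  rw [e1]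
  refine (cs h6 D _ _).trans ?_
  have e2 : Real.sqrt K4 / T = Real.sqrt (1 / T ^ 2 * K4) := by
    rw [Real.sqrt_mul (by positivity), Real.sqrt_div (by norm_num), Real.sqrt_one,
      Real.sqrt_sq hT.le]
    ring
  rw [e2]
  refine mul_le_mul (Real.sqrt_le_sqrt hX) (Real.sqrt_le_sqrt ?_) (Real.sqrt_nonneg _)
    (Real.sqrt_nonneg _)
  calc lE D (fun w => (if P w then (Y w - clp T (Y w)) else 0) ^ 2)
      ≤ lE D (fun w => 1 / T ^ 2 * Y w ^ 4) := by
        refine lE_mono h6 D _ _ fun w _ _ => ?_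
        by_cases h : P w
        · simp only [h, if_true]
          exact clp_diff T (Y w) hT
        · simp only [h, if_false]
          have : 0 ≤ 1 / T ^ 2 * Y w ^ 4 := by positivity
          simpa using this
    _ = 1 / T ^ 2 * lE D (fun w => Y w ^ 4) := lE_smul h6 D _ _
    _ ≤ 1 / T ^ 2 * K4 := by
        apply mul_le_mul_of_nonneg_left hY; positivity

/-- Moments of the difference. -/
lemma moments (h4 : Split) (h5 : CondE) (h6 : LEFacts) (p : Par) (δ : ℝ) (f : ℝ × ℝ → ℝ)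
    (hp : p.Good) (hδ : 0 < δ) (hδr : 16 * δ ≤ p.r) (b : Pt) (hb : b ∈ Ix p.A p.r) (K2 K4 : ℝ)
    (hK2 : lE (DD p.Ω δ) (fun w => aV p δ f b w ^ 2) ≤ K2)
    (hK4 : lE (DD p.Ω δ) (fun w => aV p δ f b w ^ 4) ≤ K4) :
    (∀ w, Even' w → DB p δ f b w = ep p δ b w *
      (aV p δ f b (vB p δ b w) - aB p δ f b (qB p δ b w))) ∧
    lE (DD p.Ω δ) (fun w => (aV p δ f b (vB p δ b w) - aB p δ f b (qB p δ b w)) ^ 2) ≤ K2 ∧
    lE (DD p.Ω δ) (fun w => DB p δ f b w ^ 2) ≤ K2 ∧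
    lE (DD p.Ω δ) (fun w => DB p δ f b w ^ 4) ≤ 16 * K4 := by
  obtain ⟨_, hs⟩ := h4 p δ f hp hδ hδr
  have hsplit : ∀ w, Even' w → DB p δ f b w = ep p δ b w *
      (aV p δ f b (vB p δ b w) - aB p δ f b (qB p δ b w)) := by
    intro w hw
    have h1 := (hs b hb w hw).1
    unfold DB XB
    rw [h1]
    ring
  have hep2 : ∀ w, Even' w → ep p δ b w ^ 2 = 1 := by
    intro w hw
    rcases (hs b hb w hw).2.2.2 with h | h <;> rw [h] <;> norm_num
  obtain ⟨_, _, hc4, hc2⟩ := h5 (St → ℕ) (DD p.Ω δ) (fun w => qB p δ b w)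
    (fun w => aV p δ f b (vB p δ b w))
  have eF2 : lE (DD p.Ω δ) (fun w => aV p δ f b (vB p δ b w) ^ 2) =
      lE (DD p.Ω δ) (fun w => aV p δ f b w ^ 2) := by
    refine lE_congr h6 _ _ _ fun w _ hw => ?_
    rw [(hs b hb w hw).1, mul_pow, hep2 w hw, one_mul]
  have eF4 : lE (DD p.Ω δ) (fun w => aV p δ f b (vB p δ b w) ^ 4) =
      lE (DD p.Ω δ) (fun w => aV p δ f b w ^ 4) := by
    refine lE_congr h6 _ _ _ fun w _ hw => ?_
    have : ep p δ b w ^ 4 = 1 := by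
      have := hep2 w hw
      calc ep p δ b w ^ 4 = (ep p δ b w ^ 2) ^ 2 := by ring
        _ = 1 := by rw [this]; norm_num
    rw [(hs b hb w hw).1, mul_pow, this, one_mul]
  have hG2 : lE (DD p.Ω δ)
      (fun w => (aV p δ f b (vB p δ b w) - aB p δ f b (qB p δ b w)) ^ 2) ≤ K2 :=
    (hc2.trans eF2.le).trans hK2
  refine ⟨hsplit, hG2, ?_, ?_⟩
  · refine le_trans (le_of_eq ?_) hG2
    refine lE_congr h6 _ _ _ fun w _ hw => ?_
    rw [hsplit w hw, mul_pow, hep2 w hw, one_mul]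
  · have e5 : lE (DD p.Ω δ) (fun w => DB p δ f b w ^ 4) ≤
        lE (DD p.Ω δ) (fun w => 8 * aV p δ f b (vB p δ b w) ^ 4 +
          8 * aB p δ f b (qB p δ b w) ^ 4) := by
      refine lE_mono h6 _ _ _ fun w _ hw => ?_
      have : ep p δ b w ^ 4 = 1 := by
        have := hep2 w hw
        calc ep p δ b w ^ 4 = (ep p δ b w ^ 2) ^ 2 := by ring
          _ = 1 := by rw [this]; norm_num
      rw [hsplit w hw, mul_pow, this, one_mul]
      generalize aV p δ f b (vB p δ b w) = x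
      generalize aB p δ f b (qB p δ b w) = y
      nlinarith [sq_nonneg (x + y), sq_nonneg (x ^ 2 - y ^ 2), sq_nonneg (x * x + y * y),
        sq_nonneg (x * (x + y)), sq_nonneg (y * (x + y)), sq_nonneg ((x + y) ^ 2),
        sq_nonneg ((x - y) * (x + y))]
    have e6 : lE (DD p.Ω δ) (fun w => 8 * aV p δ f b (vB p δ b w) ^ 4 +
          8 * aB p δ f b (qB p δ b w) ^ 4) =
        8 * lE (DD p.Ω δ) (fun w => aV p δ f b (vB p δ b w) ^ 4) +
        8 * lE (DD p.Ω δ) (fun w => aB p δ f b (qB p δ b w) ^ 4) :=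
      h6.2.1 (DD p.Ω δ) 8 8 _ _
    have e7 : lE (DD p.Ω δ) (fun w => aB p δ f b (qB p δ b w) ^ 4) ≤
        lE (DD p.Ω δ) (fun w => aV p δ f b (vB p δ b w) ^ 4) := hc4
    rw [eF4] at e7 e6
    linarith

/-- Uniform version of the input `InE1`. -/
lemma unif (Ω : Set (ℝ × ℝ)) (r R : ℝ) (h6 : LEFacts) (s : Finset Pt)
    (h : ∀ b ∈ s, InE1 Ω (cen r b) R) (d : ℝ) (hd : 0 < d) (ε : ℝ) (hε : 0 < ε) :
    ∃ l > 0, ∃ δ₀ > 0, ∀ δ, 0 < δ → δ < δ₀ → ∀ b ∈ s, ∀ l' ≤ l,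
      lP (DD Ω δ) (E1 δ (cen r b) R d l') ≤ ε := by
  classical
  induction s using Finset.induction_on with
  | empty => exact ⟨1, one_pos, 1, one_pos, fun δ _ _ b hb => by simp at hb⟩
  | insert a s ha ih =>
    obtain ⟨l1, hl1, d1, hd1, H1⟩ := ih (fun b hb => h b (Finset.mem_insert_of_mem hb))
    obtain ⟨l2, hl2, d2, hd2, H2⟩ := h a (Finset.mem_insert_self a s) d hd ε hε
    refine ⟨min l1 l2, lt_min hl1 hl2, min d1 d2, lt_min hd1 hd2, ?_⟩
    intro δ hδ hδ' b hb l' hl'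
    rcases Finset.mem_insert.mp hb with rfl | hb
    · refine (lP_mono h6 _ _ _ fun w _ _ hE => ?_).trans
        (H2 δ hδ (hδ'.trans_le (min_le_right _ _)))
      obtain ⟨c, hc, h1, h2⟩ := hE
      exact ⟨c, hc, h1, h2.trans (hl'.trans (min_le_right _ _))⟩
    · exact H1 δ hδ (hδ'.trans_le (min_le_left _ _)) b hb l' (hl'.trans (min_le_left _ _))

lemma e2_mono (h6 : LEFacts) (D : Finset Edge) (δ d l l' : ℝ) (h : l' ≤ l) :
    lP D (E2 δ d l') ≤ lP D (E2 δ d l) := by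
  refine lP_mono h6 _ _ _ fun w _ _ hE => ?_
  obtain ⟨c, hc, c', hc', h1, h2, h3, y, hy, y', hy', h4⟩ := hE
  exact ⟨c, hc, c', hc', h1, h2, h3, y, hy, y', hy', h4.trans h⟩

end FarPairAux

open FarPairAux in
open Classical in
theorem farPairS (h1 : PairGeo) (h2 : Cross) (h3 : MomS) (h4 : Split) (h5 : CondE)
    (h6 : LEFacts) : FarPairS := by
  intro hMm Ω A M r R f hΩc hA hΩA hfM hr hR hR' hE1 hE2 ε hε
  obtain ⟨C, hC, hmom⟩ := h3 hMm
  set K2 : ℝ := C * M ^ 2 * r ^ (15 / 4 : ℝ) with hK2def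
  set K4' : ℝ := C * M ^ 4 * r ^ (15 / 2 : ℝ) with hK4'def
  set K4 : ℝ := 16 * K4' with hK4def
  set T : ℝ := 4 * (Real.sqrt K2 * Real.sqrt K4) / ε + 1 with hTdef
  have hs2 : 0 ≤ Real.sqrt K2 := Real.sqrt_nonneg _
  have hs4 : 0 ≤ Real.sqrt K4 := Real.sqrt_nonneg _
  have hT : 0 < T := by positivity
  have hTε : Real.sqrt K2 * (Real.sqrt K4 / T) ≤ ε / 4 := by
    have e1 : Real.sqrt K2 * (Real.sqrt K4 / T) = (Real.sqrt K2 * Real.sqrt K4) / T := by ring
    rw [e1, div_le_iff₀ hT]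
    have e2 : ε / 4 * T = Real.sqrt K2 * Real.sqrt K4 + ε / 4 := by
      rw [hTdef]; field_simp
    rw [e2]
    linarith
  set q : ℝ := min (ε / (4 * (Real.sqrt K4 + 1))) (ε / (4 * (2 * T * Real.sqrt K2 + 1))) with hqdef
  have hq : 0 < q := lt_min (by positivity) (by positivity)
  have hq1 : Real.sqrt K4 * q ≤ ε / 4 := by
    have e1 : q ≤ ε / (4 * (Real.sqrt K4 + 1)) := min_le_left _ _
    rw [le_div_iff₀ (by positivity)] at e1
    have e2 : q * (4 * (Real.sqrt K4 + 1)) = 4 * (Real.sqrt K4 * q) + 4 * q := by ring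
    linarith
  have hq2 : 2 * T * Real.sqrt K2 * q ≤ ε / 4 := by
    have e1 : q ≤ ε / (4 * (2 * T * Real.sqrt K2 + 1)) := min_le_right _ _
    rw [le_div_iff₀ (by positivity)] at e1
    have e2 : q * (4 * (2 * T * Real.sqrt K2 + 1)) = 4 * (2 * T * Real.sqrt K2 * q) + 4 * q := by
      ring
    linarith
  set ε' : ℝ := q ^ 2 / 2 with hε'def
  have hε' : 0 < ε' := by positivity
  obtain ⟨l1, hl1, d1, hd1, H1⟩ := unif Ω r R h6 (Ix A r) hE1 (r / 2) (by positivity) ε' hε'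
  set ρ₁ : ℝ := min (l1 / 3) (r / 32) with hρ₁def
  have hρ₁ : 0 < ρ₁ := lt_min (by positivity) (by positivity)
  have hρ₁l : 3 * ρ₁ ≤ l1 := by
    have : ρ₁ ≤ l1 / 3 := min_le_left _ _
    linarith
  have hρ₁r : 32 * ρ₁ ≤ r := by
    have : ρ₁ ≤ r / 32 := min_le_right _ _
    linarith
  obtain ⟨l2, hl2, d2, hd2, H2⟩ := hE2 ρ₁ hρ₁ ε' hε'
  obtain ⟨l3, hl3, d3, hd3, H3⟩ := unif Ω r R h6 (Ix A r) hE1 (r / 4) (by positivity) ε' hε'
  set ρ : ℝ := min (l2 / 3) (min (l3 / 3) (ρ₁ / 4)) with hρdef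
  have hρ : 0 < ρ := lt_min (by positivity) (lt_min (by positivity) (by positivity))
  have hρ2 : 3 * ρ ≤ l2 := by
    have : ρ ≤ l2 / 3 := min_le_left _ _
    linarith
  have hρ3 : 3 * ρ ≤ l3 := by
    have : ρ ≤ l3 / 3 := (min_le_right _ _).trans (min_le_left _ _)
    linarith
  have hρρ₁ : 4 * ρ ≤ ρ₁ := by
    have : ρ ≤ ρ₁ / 4 := (min_le_right _ _).trans (min_le_right _ _)
    linarith
  obtain ⟨l4, hl4, d4, hd4, H4⟩ := unif Ω r R h6 (Ix A r) hE1 ρ hρ ε' hε'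
  refine ⟨min l4 ρ, lt_min hl4 hρ, fun κ hκ hκ' => ?_⟩
  have hκ4 : κ ≤ l4 := (hκ'.trans_le (min_le_left _ _)).le
  have hκρ : κ ≤ ρ := (hκ'.trans_le (min_le_right _ _)).le
  obtain ⟨l5, hl5, d5, hd5, H5⟩ := hE2 κ hκ ε' hε'
  refine ⟨min (l5 / 2) (κ / 4), lt_min (by positivity) (by positivity), fun η hη hη' S hS hS' => ?_⟩
  have hη5 : 2 * η ≤ l5 := by
    have : η < l5 / 2 := hη'.trans_le (min_le_left _ _)
    linarith
  have hηκ : 4 * η ≤ κ := by
    have : η < κ / 4 := hη'.trans_le (min_le_right _ _)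
    linarith
  refine ⟨min d1 (min d2 (min d3 (min d4 (min d5 (r / 16))))),
    lt_min hd1 (lt_min hd2 (lt_min hd3 (lt_min hd4 (lt_min hd5 (by positivity))))),
    fun δ hδ hδ' b hb b' hb' hbb hball hball' => ?_⟩
  simp only [lt_min_iff] at hδ'
  obtain ⟨g1, g2, g3, g4, g5, g6⟩ := hδ'
  set p : Par := ⟨Ω, A, r, R, κ, η, S⟩ with hp
  have h16 : 16 * δ ≤ p.r := by
    change 16 * δ ≤ r
    linarith
  have hG : p.Good :=
    { hr := hr
      hA := hA
      hR := hR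
      hR' := hR'
      hκ := hκ
      hκ' := by change κ ≤ r / 8; linarith
      hη := hη
      hS := hS
      hS' := hS'
      hΩ := hΩA }
  obtain ⟨m2, m4⟩ := hmom p δ f M b hG hΩc hδ h16 hball hfM
  obtain ⟨m2', m4'⟩ := hmom p δ f M b' hG hΩc hδ h16 hball' hfM
  obtain ⟨hsplit, hGm, hX2, hX4⟩ := moments h4 h5 h6 p δ f hG hδ h16 b hb K2 K4' m2 m4
  obtain ⟨_, _, hY2, hY4⟩ := moments h4 h5 h6 p δ f hG hδ h16 b' hb' K2 K4' m2' m4'
  have hgeo := fun w hw hwe => h1 p δ f T ρ ρ₁ hG hδ h16 hT.le hηκ hκρ hρρ₁ hρ₁r b hb b' hb' hbb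
    w hw hwe
  have hsgn : ∀ (w : Finset Edge) (u : Pt), |sgn w u| = 1 := by
    intro w u
    unfold sgn
    rw [abs_pow, abs_neg, abs_one, one_pow]
  have hcross : |lE (DD p.Ω δ) (fun w => if OKq p ρ b b' (qB p δ b w) then
        (aV p δ f b (vB p δ b w) - aB p δ f b (qB p δ b w)) *
          psi p δ f T b b' (vB p δ b w) (w \ vB p δ b w) else 0)| ≤
      2 * T * Real.sqrt (lE (DD p.Ω δ) (fun w =>
        (aV p δ f b (vB p δ b w) - aB p δ f b (qB p δ b w)) ^ 2)) *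
      (Real.sqrt (lP (DD p.Ω δ) (fun w => OKq p ρ b b' (qB p δ b w) ∧
          ∃ e ∈ tc (Tq p δ ρ b (qB p δ b w)) (w \ vB p δ b w), e ∈ Mq p δ b (qB p δ b w))) +
        Real.sqrt (lP (DD p.Ω δ) (fun w => OKq p ρ b b' (qB p δ b w) ∧
          psi p δ f T b b' (vB p δ b w) (w \ vB p δ b w) ≠
            psi' p δ f T b b' (qB p δ b w)
              (tc (Tq p δ ρ b (qB p δ b w)) (w \ vB p δ b w))))) := by
    refine h2 (St → ℕ) (DD p.Ω δ) (tB p δ b) (nst p δ) (aV p δ f b) (Mq p δ b) (Tq p δ ρ b)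
      (psi p δ f T b b') (psi' p δ f T b b') (OKq p ρ b b') T hT.le ?_ ?_ ?_
    · intro V w
      unfold psi
      rw [abs_mul, hsgn, one_mul]
      exact clp_abs T _ hT.le
    · intro v w
      unfold psi'
      rw [abs_mul, hsgn, one_mul]
      exact clp_abs T _ hT.le
    · intro w hw hwe _
      exact (hgeo w hw hwe).1
  -- the decomposition
  have hdec : lE (DD p.Ω δ) (fun w => if Tch p δ b b' w then 0 else
        DB p δ f b w * DB p δ f b' w) =
      lE (DD p.Ω δ) (fun w => if OKq p ρ b b' (qB p δ b w) then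
        DB p δ f b w * (DB p δ f b' w - clp T (DB p δ f b' w)) else 0) +
      (lE (DD p.Ω δ) (fun w => if OKq p ρ b b' (qB p δ b w) then
        (aV p δ f b (vB p δ b w) - aB p δ f b (qB p δ b w)) *
          psi p δ f T b b' (vB p δ b w) (w \ vB p δ b w) else 0) +
      lE (DD p.Ω δ) (fun w => if (¬ OKq p ρ b b' (qB p δ b w) ∧ ¬ Tch p δ b b' w) then
        DB p δ f b w * DB p δ f b' w else 0)) := by
    rw [← lE_add h6, ← lE_add h6]
    refine lE_congr h6 _ _ _ fun w hw hwe => ?_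
    obtain ⟨_, _, hOKT, _, _⟩ := hgeo w hw hwe
    by_cases hOK : OKq p ρ b b' (qB p δ b w)
    · have hT' := hOKT hOK
      have hV : vB p δ b w ∪ (w \ vB p δ b w) = w := by
        apply Finset.union_sdiff_of_subset
        unfold vB tc
        exact Finset.filter_subset _ _
      simp only [hOK, hT', if_true, if_false, not_true, false_and, add_zero]
      unfold psi
      rw [hV]
      have hep : sgn (w \ vB p δ b w) (ref δ (cen p.r b)) = ep p δ b w := rfl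
      rw [hep]
      have := hsplit w hwe
      calc DB p δ f b w * DB p δ f b' w
          = DB p δ f b w * (DB p δ f b' w - clp T (DB p δ f b' w)) +
            DB p δ f b w * clp T (DB p δ f b' w) := by ring
        _ = DB p δ f b w * (DB p δ f b' w - clp T (DB p δ f b' w)) +
            (ep p δ b w * (aV p δ f b (vB p δ b w) - aB p δ f b (qB p δ b w))) *
              clp T (DB p δ f b' w) := by rw [← this]
        _ = _ := by ring
    · by_cases hTc : Tch p δ b b' w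
      · simp [hOK, hTc]
      · simp [hOK, hTc]
  change |lE (DD p.Ω δ) (fun w => if Tch p δ b b' w then 0 else
        DB p δ f b w * DB p δ f b' w)| ≤ ε
  rw [hdec]
  -- probabilities
  have hP1 : Real.sqrt (lP (DD p.Ω δ) (fun w => OKq p ρ b b' (qB p δ b w) ∧
      ∃ e ∈ tc (Tq p δ ρ b (qB p δ b w)) (w \ vB p δ b w), e ∈ Mq p δ b (qB p δ b w))) ≤ q := by
    apply Real.sqrt_le_iff.mpr
    refine ⟨hq.le, ?_⟩
    calc _ ≤ lP (DD p.Ω δ) (fun w => E1 δ (cen p.r b) p.R ρ p.κ w ∨ E2 δ p.κ (2 * p.η) w) :=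
          lP_mono h6 _ _ _ fun w hw hwe hh => (hgeo w hw hwe).2.1 hh.2
      _ ≤ lP (DD p.Ω δ) (E1 δ (cen p.r b) p.R ρ p.κ) + lP (DD p.Ω δ) (E2 δ p.κ (2 * p.η)) :=
          lP_or h6 _ _ _
      _ ≤ ε' + ε' := add_le_add (H4 δ hδ g4 b hb κ hκ4)
          ((e2_mono h6 _ δ κ _ _ hη5).trans (H5 δ hδ g5))
      _ = q ^ 2 := by rw [hε'def]; ring
  have hP2 : Real.sqrt (lP (DD p.Ω δ) (fun w => OKq p ρ b b' (qB p δ b w) ∧
          psi p δ f T b b' (vB p δ b w) (w \ vB p δ b w) ≠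
            psi' p δ f T b b' (qB p δ b w)
              (tc (Tq p δ ρ b (qB p δ b w)) (w \ vB p δ b w)))) ≤ q := by
    apply Real.sqrt_le_iff.mpr
    refine ⟨hq.le, ?_⟩
    calc _ ≤ lP (DD p.Ω δ) (fun w => E1 δ (cen p.r b) p.R (p.r / 2) (3 * ρ₁) w ∨
            E2 δ ρ₁ (3 * ρ) w) :=
          lP_mono h6 _ _ _ fun w hw hwe hh => (hgeo w hw hwe).2.2.2.2 hh.1 hh.2
      _ ≤ lP (DD p.Ω δ) (E1 δ (cen p.r b) p.R (p.r / 2) (3 * ρ₁)) +
            lP (DD p.Ω δ) (E2 δ ρ₁ (3 * ρ)) := lP_or h6 _ _ _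
      _ ≤ ε' + ε' := add_le_add (H1 δ hδ g1 b hb _ hρ₁l)
          ((e2_mono h6 _ δ ρ₁ _ _ hρ2).trans (H2 δ hδ g2))
      _ = q ^ 2 := by rw [hε'def]; ring
  have hP3 : Real.sqrt (lP (DD p.Ω δ) (fun w => ¬ OKq p ρ b b' (qB p δ b w) ∧
      ¬ Tch p δ b b' w)) ≤ q := by
    apply Real.sqrt_le_iff.mpr
    refine ⟨hq.le, ?_⟩
    calc _ ≤ lP (DD p.Ω δ) (E1 δ (cen p.r b') p.R (p.r / 4) (3 * ρ)) :=
          lP_mono h6 _ _ _ fun w hw hwe hh => (hgeo w hw hwe).2.2.2.1 hh.1 hh.2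
      _ ≤ ε' := H3 δ hδ g3 b' hb' _ hρ3
      _ ≤ q ^ 2 := by
          have e9 : 0 ≤ q ^ 2 := sq_nonneg q
          rw [hε'def]
          linarith
  have a1 := first h6 (DD p.Ω δ) (fun w => OKq p ρ b b' (qB p δ b w)) (DB p δ f b)
    (DB p δ f b') K2 K4 T hT hX2 hY4
  have a3 : |lE (DD p.Ω δ) (fun w => if (¬ OKq p ρ b b' (qB p δ b w) ∧ ¬ Tch p δ b b' w) then
        DB p δ f b w * DB p δ f b' w else 0)| ≤
      Real.sqrt (lP (DD p.Ω δ) (fun w => ¬ OKq p ρ b b' (qB p δ b w) ∧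
      ¬ Tch p δ b b' w)) * Real.sqrt K4 := by
    refine le_trans (le_of_eq ?_) (second h6 (DD p.Ω δ)
      (fun w => ¬ OKq p ρ b b' (qB p δ b w) ∧ ¬ Tch p δ b b' w)
      (DB p δ f b) (DB p δ f b') K4 hX4 hY4)
    congr 1
    refine lE_congr h6 _ _ _ fun w _ _ => ?_
    split_ifs <;> rfl
  have a2 : |lE (DD p.Ω δ) (fun w => if OKq p ρ b b' (qB p δ b w) then
        (aV p δ f b (vB p δ b w) - aB p δ f b (qB p δ b w)) *
          psi p δ f T b b' (vB p δ b w) (w \ vB p δ b w) else 0)| ≤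
      2 * T * Real.sqrt K2 * (q + q) := by
    refine hcross.trans ?_
    refine mul_le_mul ?_ (add_le_add hP1 hP2) (by positivity) (by positivity)
    exact mul_le_mul_of_nonneg_left (Real.sqrt_le_sqrt hGm) (by positivity)
  have a3' : Real.sqrt (lP (DD p.Ω δ) (fun w => ¬ OKq p ρ b b' (qB p δ b w) ∧
      ¬ Tch p δ b b' w)) * Real.sqrt K4 ≤ q * Real.sqrt K4 :=
    mul_le_mul_of_nonneg_right hP3 hs4
  refine (abs_add_le _ _).trans ?_
  refine (add_le_add a1 ((abs_add_le _ _).trans (add_le_add a2 (a3.trans a3')))).trans ?_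
  have e9 : 2 * T * Real.sqrt K2 * (q + q) = 2 * (2 * T * Real.sqrt K2 * q) := by ring
  have e10 : q * Real.sqrt K4 = Real.sqrt K4 * q := mul_comm _ _
  linarith

end Pool.Agent.Lib.MP_6d40c9_pr
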