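import Pool.Agent.Lib.MP_6d40c9_pr.SpecL

/-!
# Topology of filled compact sets in the plane
-/

set_option autoImplicit false

namespace Pool.Agent.Lib.MP_6d40c9_pr

open Set Metric Filter Topology

/-- A ray outside `K` makes the component unbounded. -/
private lemma ff_ray {K : Set (ℝ × ℝ)} {x v : ℝ × ℝ} (hv : v ≠ 0) {s : ℝ}
    (h : ∀ t, s ≤ t → x + t • v ∉ K) :
    ¬ Bornology.IsBounded (connectedComponentIn Kᶜ (x + s • v)) := by
  intro hb
  have hpre : IsPreconnected ((fun t : ℝ => x + t • v) '' Ici s) := by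
    apply isPreconnected_Ici.image
    fun_prop
  have hsub : (fun t : ℝ => x + t • v) '' Ici s ⊆ Kᶜ := by
    rintro _ ⟨t, ht, rfl⟩
    exact h t ht
  have hmem : x + s • v ∈ (fun t : ℝ => x + t • v) '' Ici s := ⟨s, le_refl s, rfl⟩
  have hsub2 := hpre.subset_connectedComponentIn hmem hsub
  have hb2 := hb.subset hsub2
  obtain ⟨M, hM⟩ := hb2.exists_norm_le
  have hvn : 0 < ‖v‖ := norm_pos_iff.mpr hv
  have h1 := hM _ ⟨max s ((M + ‖x‖ + 1) / ‖v‖), mem_Ici.mpr (le_max_left _ _), rfl⟩
  have h2 : (M + ‖x‖ + 1) / ‖v‖ ≤ max s ((M + ‖x‖ + 1) / ‖v‖) := le_max_right _ _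
  rw [div_le_iff₀ hvn] at h2
  have h3 : max s ((M + ‖x‖ + 1) / ‖v‖) * ‖v‖ ≤ ‖max s ((M + ‖x‖ + 1) / ‖v‖) • v‖ := by
    rw [norm_smul]
    exact mul_le_mul_of_nonneg_right (le_abs_self _) hvn.le
  have h4 : ‖max s ((M + ‖x‖ + 1) / ‖v‖) • v‖ ≤
      ‖x + max s ((M + ‖x‖ + 1) / ‖v‖) • v‖ + ‖x‖ := by
    have := norm_sub_le (x + max s ((M + ‖x‖ + 1) / ‖v‖) • v) x
    simpa using this
  simp only at h1
  linarith

private lemma ff_mem {K : Set (ℝ × ℝ)} {z : ℝ × ℝ} (hz : z ∈ fill K) (hzK : z ∉ K) :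
    Bornology.IsBounded (connectedComponentIn Kᶜ z) := by
  rcases hz with h | h
  · exact absurd h hzK
  · exact h

/-- Filling is contained in closed balls containing the set. -/
private lemma ff_ball {K : Set (ℝ × ℝ)} (hne : K.Nonempty) {x : ℝ × ℝ} {a : ℝ}
    (h : K ⊆ closedBall x a) : fill K ⊆ closedBall x a := by
  intro z hz
  by_contra hza
  have hzK : z ∉ K := fun h' => hza (h h')
  have hb := ff_mem hz hzK
  obtain ⟨y, hy⟩ := hne
  have ha : 0 ≤ a := le_trans dist_nonneg (mem_closedBall.mp (h hy))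
  have hd : a < dist z x := by
    rw [mem_closedBall] at hza
    exact not_le.mp hza
  have hv : z - x ≠ 0 := by
    intro h0
    rw [sub_eq_zero] at h0
    rw [h0, dist_self] at hd
    linarith
  have hr := ff_ray (K := K) (x := x) (v := z - x) hv (s := 1) (by
    intro t ht hK
    have h1 := mem_closedBall.mp (h hK)
    rw [dist_eq_norm, add_sub_cancel_left, norm_smul, ← dist_eq_norm, Real.norm_eq_abs] at h1
    have h2 : (1 : ℝ) ≤ |t| := le_trans ht (le_abs_self t)
    have h3 : 0 ≤ dist z x := dist_nonneg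
    nlinarith)
  rw [one_smul, add_sub_cancel] at hr
  exact hr hb

private lemma ff_compact {K : Set (ℝ × ℝ)} (hK : IsCompact K) (hne : K.Nonempty) :
    IsCompact (fill K) := by
  obtain ⟨a, ha⟩ := hK.isBounded.subset_closedBall (0 : ℝ × ℝ)
  apply isCompact_of_isClosed_isBounded
  · rw [← isOpen_compl_iff, isOpen_iff_mem_nhds]
    intro z hz
    have hz' : z ∉ K ∧ ¬ Bornology.IsBounded (connectedComponentIn Kᶜ z) := by
      constructor
      · intro h
        exact hz (Or.inl h)
      · intro h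
        exact hz (Or.inr h)
    have hop : IsOpen (connectedComponentIn Kᶜ z) :=
      (hK.isClosed.isOpen_compl).connectedComponentIn
    refine mem_of_superset (hop.mem_nhds (mem_connectedComponentIn hz'.1)) ?_
    intro y hy hyf
    have hyK : y ∉ K := connectedComponentIn_subset _ _ hy
    have hb := ff_mem hyf hyK
    rw [← connectedComponentIn_eq hy] at hb
    exact hz'.2 hb
  · exact isBounded_closedBall.subset (ff_ball hne ha)

private lemma ff_pre {K C : Set (ℝ × ℝ)} (hC : IsPreconnected C) (hd : Disjoint C K) :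
    C ⊆ fill K ∨ Disjoint C (fill K) := by
  by_cases h : ∃ z ∈ C, z ∈ fill K
  · left
    obtain ⟨z, hzC, hzf⟩ := h
    have hsub : C ⊆ Kᶜ := fun y hy hyK => Set.disjoint_left.mp hd hy hyK
    have hb := ff_mem hzf (hsub hzC)
    have hC2 := hC.subset_connectedComponentIn hzC hsub
    intro y hy
    right
    rw [← connectedComponentIn_eq (hC2 hy)]
    exact hb
  · right
    rw [Set.disjoint_left]
    intro y hy hyf
    exact h ⟨y, hy, hyf⟩

private lemma ff_three {K : Set (ℝ × ℝ)} {z : ℝ × ℝ} {ρ : ℝ} (hne : K.Nonempty)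
    (h0 : 0 ≤ ρ) (h1 : ρ < infDist z K) :
    (z ∈ fill K ∧ closedBall z ρ ⊆ fill K ∧ infDist z (fill K) = 0) ∨
      (z ∉ fill K ∧ ρ ≤ infDist z (fill K)) := by
  have hd : Disjoint (closedBall z ρ) K := by
    rw [Set.disjoint_left]
    intro y hy hyK
    have h2 := infDist_le_dist_of_mem (x := z) hyK
    rw [mem_closedBall, dist_comm] at hy
    linarith
  have hself : z ∈ closedBall z ρ := mem_closedBall_self h0
  rcases ff_pre (convex_closedBall z ρ).isPreconnected hd with h | h
  · left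
    exact ⟨h hself, h, infDist_zero_of_mem (h hself)⟩
  · right
    refine ⟨Set.disjoint_left.mp h hself, ?_⟩
    have hnf : (fill K).Nonempty := by
      obtain ⟨y, hy⟩ := hne
      exact ⟨y, Or.inl hy⟩
    rw [le_infDist hnf]
    intro y hy
    by_contra hlt
    rw [not_le, dist_comm] at hlt
    exact Set.disjoint_left.mp h (mem_closedBall.mpr hlt.le) hy

private lemma ff_four {K : Set (ℝ × ℝ)} {z : ℝ × ℝ} (hK : IsCompact K) (hne : K.Nonempty)
    (hz : z ∈ fill K) (hzK : z ∉ K) : 0 < infDist z K ∧ infDist z K ≤ diam K := by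
  refine ⟨(hK.isClosed.notMem_iff_infDist_pos hne).mp hzK, ?_⟩
  by_contra hlt
  rw [not_le] at hlt
  obtain ⟨ρ, hρ1, hρ2⟩ := exists_between hlt
  have hρ0 : 0 ≤ ρ := le_trans diam_nonneg hρ1.le
  have hsub : closedBall z ρ ⊆ fill K := by
    rcases ff_three hne hρ0 hρ2 with h | h
    · exact h.2.1
    · exact absurd hz h.1
  obtain ⟨y, hy⟩ := hne
  have hKb : K ⊆ closedBall y (diam K) := by
    intro w hw
    exact mem_closedBall.mpr (dist_le_diam_of_mem hK.isBounded hw hy)
  have hfb := ff_ball ⟨y, hy⟩ hKb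
  have h1 : z + (ρ, 0) ∈ closedBall z ρ := by
    rw [mem_closedBall, dist_eq_norm, add_sub_cancel_left, Prod.norm_def]
    simp [abs_of_nonneg hρ0, hρ0]
  have h2 : z - (ρ, 0) ∈ closedBall z ρ := by
    rw [mem_closedBall, dist_eq_norm, sub_sub_cancel_left, norm_neg, Prod.norm_def]
    simp [abs_of_nonneg hρ0, hρ0]
  have h3 := mem_closedBall.mp (hfb (hsub h1))
  have h4 := mem_closedBall.mp (hfb (hsub h2))
  have h5 := dist_triangle_right (z + (ρ, 0)) (z - (ρ, 0)) y
  have h6 : dist (z + (ρ, 0)) (z - (ρ, 0)) = 2 * ρ := by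
    rw [dist_eq_norm, Prod.norm_def]
    have : (z + (ρ, 0)) - (z - (ρ, 0)) = (2 * ρ, (0 : ℝ)) := by
      ext <;> simp; ring
    rw [this]
    simp [abs_of_nonneg hρ0, hρ0]
  rw [h6] at h5
  linarith

/-- If `K'` is at the same distance from `z` as `K`, then it is contained in `fill K`. -/
private lemma ff_inside {K K' : Set (ℝ × ℝ)} {z : ℝ × ℝ} (hK : IsCompact K) (hK' : IsCompact K')
    (hc' : IsConnected K') (hne : K.Nonempty) (hd : Disjoint K K')
    (hz : z ∈ fill K) (hzK : z ∉ K) (he : infDist z K = infDist z K') : K' ⊆ fill K := by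
  obtain ⟨y', hy', hdist⟩ := hK'.exists_infDist_eq_dist hc'.nonempty z
  have hr : 0 < infDist z K := (hK.isClosed.notMem_iff_infDist_pos hne).mp hzK
  set r := infDist z K with hrdef
  have hpre : IsPreconnected (ball z r ∪ {y'}) := by
    apply (convex_ball z r).isPreconnected.subset_closure subset_union_left
    rw [closure_ball z hr.ne']
    rintro w (hw | hw)
    · exact ball_subset_closedBall hw
    · rw [mem_singleton_iff] at hw
      rw [hw, mem_closedBall, dist_comm, ← hdist, he]
  have hdis : Disjoint (ball z r ∪ {y'}) K := by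
    rw [Set.disjoint_left]
    rintro w (hw | hw) hwK
    · have h2 := infDist_le_dist_of_mem (x := z) hwK
      rw [mem_ball, dist_comm] at hw
      linarith
    · rw [mem_singleton_iff] at hw
      rw [hw] at hwK
      exact Set.disjoint_left.mp hd hwK hy'
  have hzmem : z ∈ ball z r ∪ {y'} := Or.inl (mem_ball_self hr)
  have hy'f : y' ∈ fill K := by
    rcases ff_pre hpre hdis with h | h
    · exact h (Or.inr rfl)
    · exact absurd hz (Set.disjoint_left.mp h hzmem)
  rcases ff_pre hc'.isPreconnected hd.symm with h | h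
  · exact h
  · exact absurd hy'f (Set.disjoint_left.mp h hy')

/-- The point of `K ∪ K'` with the largest first coordinate cannot be in `K`. -/
private lemma ff_extreme {K K' : Set (ℝ × ℝ)} (hd : Disjoint K K') (hsub : K ⊆ fill K')
    {x : ℝ × ℝ} (hx : x ∈ K) (hmax : ∀ y ∈ K', y.1 ≤ x.1) : False := by
  have hxK' : x ∉ K' := Set.disjoint_left.mp hd hx
  have hb := ff_mem (hsub hx) hxK'
  have hr := ff_ray (K := K') (x := x) (v := ((1 : ℝ), (0 : ℝ))) (by simp) (s := 0) (by
    intro t ht hK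
    have h1 := hmax _ hK
    simp only [Prod.fst_add, Prod.smul_fst, smul_eq_mul, mul_one] at h1
    have ht0 : t = 0 := le_antisymm (by linarith) ht
    rw [ht0, zero_smul, add_zero] at hK
    exact hxK' hK)
  rw [zero_smul, add_zero] at hr
  exact hr hb

private lemma ff_five {K K' : Set (ℝ × ℝ)} {z : ℝ × ℝ} (hK : IsCompact K) (hK' : IsCompact K')
    (hc : IsConnected K) (hc' : IsConnected K') (hd : Disjoint K K')
    (hz : z ∈ fill K) (hzK : z ∉ K) (hz' : z ∈ fill K') (hzK' : z ∉ K') :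
    infDist z K ≠ infDist z K' := by
  intro he
  have h1 : K' ⊆ fill K := ff_inside hK hK' hc' hc.nonempty hd hz hzK he
  have h2 : K ⊆ fill K' := ff_inside hK' hK hc hc'.nonempty hd.symm hz' hzK' he.symm
  obtain ⟨x, hx, hmax⟩ := (hK.union hK').exists_isMaxOn (hc.nonempty.mono subset_union_left)
    (continuous_fst.continuousOn (s := K ∪ K'))
  rcases hx with hx | hx
  · exact ff_extreme hd h2 hx (fun y hy => hmax (Or.inr hy))
  · exact ff_extreme hd.symm h1 hx (fun y hy => hmax (Or.inl hy))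

/-- Facts on filled compact sets in the plane. -/
theorem fillFacts : FillFacts := by
  refine ⟨?_, ?_, ?_, ?_, ?_⟩
  · intro K hK hne
    refine ⟨ff_compact hK hne, fun y hy => Or.inl hy, ?_, fun x a h => ff_ball hne h⟩
    exact hne.mono (fun y hy => Or.inl hy)
  · intro K C _ _ hC hd
    exact ff_pre hC hd
  · intro K z ρ _ hne h0 h1
    exact ff_three hne h0 h1
  · intro K z hK hne hz hzK
    exact ff_four hK hne hz hzK
  · intro K K' z hK hK' hc hc' hd hz hzK hz' hzK'
    exact ff_five hK hK' hc hc' hd hz hzK hz' hzK'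

end Pool.Agent.Lib.MP_6d40c9_pr
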