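import Pool.Agent.Lib.MP_6d40c9_pr.SpecM

/-!
# Four point function
-/

set_option autoImplicit false

namespace Pool.Agent.Lib.MP_6d40c9_pr

open Finset
open scoped BigOperators symmDiff

private lemma fourPt_two (g : Pt → ZMod 2) : g + g = 0 := by
  funext v
  exact CharTwo.add_self_eq_zero (g v)

private lemma fourPt_sq (w : Finset Edge) (u : Pt) : sgn w u * sgn w u = 1 := by
  unfold sgn
  rw [← mul_pow]
  norm_num

private lemma fourPt_step (F U : Finset Pt) (hU : U ⊆ F) (u : Pt) (hu : u ∈ F) :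
    ∃ U' ⊆ F, pts U' = pts U + pt u ∧ ∀ w, sgs U' w = sgs U w * sgn w u := by
  by_cases h : u ∈ U
  · refine ⟨U.erase u, (Finset.erase_subset u U).trans hU, ?_, ?_⟩
    · have h1 : pts U = pts (U.erase u) + pt u := by
        unfold pts
        exact (Finset.sum_erase_add U pt h).symm
      rw [h1, add_assoc, fourPt_two, add_zero]
    · intro w
      have h1 : sgs U w = sgs (U.erase u) w * sgn w u := by
        unfold sgs
        exact (Finset.prod_erase_mul U (fun v => sgn w v) h).symm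
      rw [h1, mul_assoc, fourPt_sq, mul_one]
  · refine ⟨insert u U, Finset.insert_subset hu hU, ?_, ?_⟩
    · unfold pts
      rw [Finset.sum_insert h, add_comm]
    · intro w
      unfold sgs
      rw [Finset.prod_insert h, mul_comm]

private lemma fourPt_empty : pts ∅ = 0 ∧ ∀ w, sgs ∅ w = 1 := by
  constructor
  · unfold pts
    rw [Finset.sum_empty]
  · intro w
    unfold sgs
    rw [Finset.prod_empty]

private lemma fourPt_pair (F : Finset Pt) (a b : Pt) (ha : a ∈ F) (hb : b ∈ F) :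
    ∃ U ⊆ F, pts U = pt a + pt b ∧ ∀ w, sgs U w = sgn w a * sgn w b := by
  obtain ⟨U₁, h1, p1, s1⟩ := fourPt_step F ∅ (Finset.empty_subset F) a ha
  obtain ⟨U₂, h2, p2, s2⟩ := fourPt_step F U₁ h1 b hb
  refine ⟨U₂, h2, ?_, ?_⟩
  · rw [p2, p1, fourPt_empty.1, zero_add]
  · intro w
    rw [s2, s1, fourPt_empty.2, one_mul]

private lemma fourPt_lE (hD : Dual) (F : Finset Pt) (hF : Simp F) (U : Finset Pt) (hU : U ⊆ F)
    (f : Pt → ZMod 2) (hf : pts U = f) (g : Finset Edge → ℝ) (hg : ∀ w, sgs U w = g w) :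
    lE (LF F) g = Zp (bdFc F) (LF F) (fun _ => xc) f / Zp (bdFc F) (LF F) (fun _ => xc) 0 := by
  have h := hD F hF ∅ (Finset.empty_subset _) U hU
  have e1 : sgs U = g := funext hg
  have e2 : (fun e : Edge => if e ∈ (∅ : Finset Edge) then (1 : ℝ) else xc) = fun _ => xc := by
    funext e
    rw [if_neg (Finset.notMem_empty e)]
  rw [Finset.sdiff_empty, e1, e2, hf] at h
  exact h

private lemma fourPt_iota_inj : Function.Injective iota := by
  rintro ⟨v, b⟩ ⟨w, c⟩ h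
  cases b <;> cases c <;> simp [iota] at h
  · exact Prod.ext (Prod.ext h.1 (by simpa using h.2)) rfl
  · exact Prod.ext (Prod.ext (by simpa using h.1) h.2) rfl

private lemma fourPt_src (e : Edge) : src (iota e) = fb e := by
  obtain ⟨v, b⟩ := e
  cases b <;> rfl

private lemma fourPt_tgt (e : Edge) : tgt (iota e) = fa e := by
  obtain ⟨v, b⟩ := e
  cases b
  · simp [iota, tgt, fa]
  · simp [iota, tgt, fa]

private lemma fourPt_bd (F : Finset Pt) (e : Edge) : bdFc F e = bdR F (iota e) := by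
  funext v
  unfold bdFc bdR bdV
  rw [fourPt_src, fourPt_tgt]
  unfold pt
  rw [add_comm]

private lemma fourPt_conn (F : Finset Pt) (O : Finset Edge) (f : Pt → ZMod 2) :
    Conn (bdFc F) O f ↔ Conn (bdR F) (O.image iota) f := by
  have key : ∀ γ : Finset Edge, bdy (bdR F) (γ.image iota) = bdy (bdFc F) γ := by
    intro γ
    unfold bdy
    rw [Finset.sum_image (fun a _ b _ h => fourPt_iota_inj h)]
    exact Finset.sum_congr rfl (fun e _ => (fourPt_bd F e).symm)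
  constructor
  · rintro ⟨γ, hγ, h⟩
    exact ⟨γ.image iota, Finset.image_subset_image hγ, by rw [key, h]⟩
  · rintro ⟨γ, hγ, h⟩
    refine ⟨O.filter (fun e => iota e ∈ γ), Finset.filter_subset _ _, ?_⟩
    rw [← key, ← h]
    congr 1
    ext e
    rw [Finset.mem_image]
    constructor
    · rintro ⟨a, ha, rfl⟩
      exact (Finset.mem_filter.1 ha).2
    · intro he
      obtain ⟨a, ha, rfl⟩ := Finset.mem_image.1 (hγ he)
      exact ⟨a, Finset.mem_filter.2 ⟨ha, he⟩, rfl⟩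

private lemma fourPt_xc : 0 ≤ xc ∧ xc ≤ 1 := by
  unfold xc
  have h1 : (1 : ℝ) ≤ Real.sqrt 2 := by
    rw [Real.one_le_sqrt]; norm_num
  have h2 : Real.sqrt 2 ≤ 2 := by
    rw [Real.sqrt_le_left (by norm_num)]; norm_num
  constructor <;> linarith

private lemma fourPt_nonneg {E G : Type} [AddCommGroup G] (bd : E → G) (D : Finset E)
    (x : E → ℝ) (hx : ∀ e ∈ D, 0 ≤ x e) (f : G) : 0 ≤ Zp bd D x f := by
  unfold Zp
  refine Finset.sum_nonneg fun η hη => ?_
  split_ifs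
  · exact Finset.prod_nonneg fun e he => hx e (Finset.mem_powerset.1 hη he)
  · exact le_rfl

private lemma fourPt_pos {E G : Type} [AddCommGroup G] (bd : E → G) (D : Finset E)
    (x : E → ℝ) (hx : ∀ e ∈ D, 0 ≤ x e) : 0 < Zp bd D x 0 := by
  classical
  unfold Zp
  have h1 : (∅ : Finset E) ∈ D.powerset := Finset.empty_mem_powerset D
  refine Finset.sum_pos' ?_ ⟨∅, h1, ?_⟩
  · intro η hη
    split_ifs
    · exact Finset.prod_nonneg fun e he => hx e (Finset.mem_powerset.1 hη he)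
    · exact le_rfl
  · rw [if_pos]
    · simp
    · simp [bdy]

theorem fourPt (h1 : Dual) (h2 : Leb) (h3 : ReachFacts) : FourPt := by
  intro F hF u₁ hu₁ u₂ hu₂ u₃ hu₃ u₄ hu₄
  have hx0 : ∀ e ∈ LF F, (0 : ℝ) ≤ (fun _ : Edge => xc) e := fun _ _ => fourPt_xc.1
  have hx1 : ∀ e ∈ LF F, (fun _ : Edge => xc) e ≤ (1 : ℝ) := fun _ _ => fourPt_xc.2
  have hpos := fourPt_pos (bdFc F) (LF F) (fun _ => xc) hx0
  -- two point functions
  have hc2 : ∀ a ∈ F, ∀ b ∈ F, c2 (LF F) a b =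
      Zp (bdFc F) (LF F) (fun _ => xc) (pt a + pt b) / Zp (bdFc F) (LF F) (fun _ => xc) 0 := by
    intro a ha b hb
    obtain ⟨U, hU, hp, hs⟩ := fourPt_pair F a b ha hb
    exact fourPt_lE h1 F hF U hU _ hp _ hs
  -- the four point function
  obtain ⟨U₂, hU₂, p2, s2⟩ := fourPt_pair F u₁ u₂ hu₁ hu₂
  obtain ⟨U₃, hU₃, p3, s3⟩ := fourPt_step F U₂ hU₂ u₃ hu₃
  obtain ⟨U₄, hU₄, p4, s4⟩ := fourPt_step F U₃ hU₃ u₄ hu₄
  have h4 : lE (LF F) (fun w => sgn w u₁ * sgn w u₂ * sgn w u₃ * sgn w u₄) =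
      Zp (bdFc F) (LF F) (fun _ => xc) (pt u₁ + pt u₂ + pt u₃ + pt u₄) /
        Zp (bdFc F) (LF F) (fun _ => xc) 0 := by
    refine fourPt_lE h1 F hF U₄ hU₄ _ ?_ _ ?_
    · rw [p4, p3, p2]
    · intro w
      rw [s4, s3, s2]
  rw [h4, hc2 u₁ hu₁ u₂ hu₂, hc2 u₃ hu₃ u₄ hu₄, hc2 u₁ hu₁ u₃ hu₃, hc2 u₂ hu₂ u₄ hu₄,
    hc2 u₁ hu₁ u₄ hu₄, hc2 u₂ hu₂ u₃ hu₃]
  constructor
  · exact div_nonneg (fourPt_nonneg _ _ _ hx0 _) hpos.le
  · have hL := h2 Edge (Pt → ZMod 2) fourPt_two (bdFc F) (LF F) (fun _ => xc) hx0 hx1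
      (pt u₁) (pt u₂) (pt u₃) (pt u₄) (by
        intro O _ hO
        rw [fourPt_conn] at hO
        simp only [fourPt_conn]
        exact h3.2.2.2.1 F (O.image iota) u₁ u₂ u₃ u₄ hu₁ hu₂ hu₃ hu₄ hO)
    set Z := Zp (bdFc F) (LF F) (fun _ => xc) 0 with hZ
    have e1 : ∀ a b c d e f : ℝ, a / Z * (b / Z) + c / Z * (d / Z) + e / Z * (f / Z) =
        (a * b + c * d + e * f) / (Z * Z) := by
      intro a b c d e f
      field_simp
    rw [e1, div_le_div_iff₀ hpos (by positivity)]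
    have := mul_le_mul_of_nonneg_right hL hpos.le
    linarith

end Pool.Agent.Lib.MP_6d40c9_pr
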