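import Pool.Agent.Lib.MP_6d40c9_pr.SpecM

/-!
# The fourth moment of the spin field
-/

set_option autoImplicit false

namespace Pool.Agent.Lib.MP_6d40c9_pr

open Finset
open scoped BigOperators symmDiff

private theorem fourth_lE_sum {ι : Type*} (D : Finset Edge) (s : Finset ι) (a : ι → ℝ)
    (f : ι → Finset Edge → ℝ) :
    lE D (fun w => ∑ i ∈ s, a i * f i w) = ∑ i ∈ s, a i * lE D (f i) := by
  classical
  unfold lE lpE
  simp only [mul_div_assoc']
  rw [← Finset.sum_div]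
  congr 1
  simp only [Finset.mul_sum]
  rw [Finset.sum_comm]
  refine Finset.sum_congr rfl fun η _ => ?_
  by_cases h : bdy bdV η = 0
  · simp only [h, if_true]
    refine Finset.sum_congr rfl fun i _ => ?_
    ring
  · simp [h]

private theorem fourth_pow4 (F : Finset Pt) (a : Pt → ℝ) :
    (∑ u ∈ F, a u) ^ 4 = ∑ p ∈ F ×ˢ F ×ˢ F ×ˢ F, a p.1 * a p.2.1 * a p.2.2.1 * a p.2.2.2 := by
  rw [Finset.sum_product]
  simp only [Finset.sum_product]
  have h : (∑ u ∈ F, a u) ^ 4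
      = (∑ u ∈ F, a u) * ((∑ u ∈ F, a u) * ((∑ u ∈ F, a u) * (∑ u ∈ F, a u))) := by ring
  rw [h, Finset.sum_mul]
  refine Finset.sum_congr rfl fun i _ => ?_
  rw [Finset.sum_mul, Finset.mul_sum]
  refine Finset.sum_congr rfl fun j _ => ?_
  rw [Finset.sum_mul, Finset.mul_sum, Finset.mul_sum]
  refine Finset.sum_congr rfl fun k _ => ?_
  rw [Finset.mul_sum, Finset.mul_sum, Finset.mul_sum]
  refine Finset.sum_congr rfl fun l _ => ?_
  ring

private theorem fourth_pow2 (F : Finset Pt) (a : Pt → ℝ) :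
    (∑ u ∈ F, a u) ^ 2 = ∑ p ∈ F ×ˢ F, a p.1 * a p.2 := by
  rw [Finset.sum_product, pow_two, Finset.sum_mul]
  refine Finset.sum_congr rfl fun i _ => ?_
  rw [Finset.mul_sum]

theorem fourth (h : FourPt) : Fourth := by
  intro F hF g
  -- expansions
  have e4 : lE (LF F) (fun w => (∑ u ∈ F, g u * sgn w u) ^ 4)
      = ∑ p ∈ F ×ˢ F ×ˢ F ×ˢ F, (g p.1 * g p.2.1 * g p.2.2.1 * g p.2.2.2) *
        lE (LF F) (fun w => sgn w p.1 * sgn w p.2.1 * sgn w p.2.2.1 * sgn w p.2.2.2) := by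
    rw [← fourth_lE_sum]
    congr 1
    funext w
    rw [fourth_pow4]
    refine Finset.sum_congr rfl fun p _ => ?_
    ring
  have e2 : lE (LF F) (fun w => (∑ u ∈ F, |g u| * sgn w u) ^ 2)
      = ∑ p ∈ F ×ˢ F, (|g p.1| * |g p.2|) * c2 (LF F) p.1 p.2 := by
    unfold c2
    rw [← fourth_lE_sum]
    congr 1
    funext w
    rw [fourth_pow2]
    refine Finset.sum_congr rfl fun p _ => ?_
    ring
  set c : Pt → Pt → ℝ := c2 (LF F) with hc
  set S : ℝ := ∑ p ∈ F ×ˢ F, (|g p.1| * |g p.2|) * c p.1 p.2 with hS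
  -- the three sums
  have s1 : ∑ p ∈ F ×ˢ F ×ˢ F ×ˢ F, (|g p.1| * |g p.2.1| * |g p.2.2.1| * |g p.2.2.2|) *
      (c p.1 p.2.1 * c p.2.2.1 p.2.2.2) = S ^ 2 := by
    rw [hS, pow_two, Finset.sum_product, Finset.sum_product]
    simp only [Finset.sum_product]
    rw [Finset.sum_mul]
    refine Finset.sum_congr rfl fun i _ => ?_
    rw [Finset.sum_mul]
    refine Finset.sum_congr rfl fun j _ => ?_
    rw [Finset.mul_sum]
    refine Finset.sum_congr rfl fun k _ => ?_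
    rw [Finset.mul_sum]
    refine Finset.sum_congr rfl fun l _ => ?_
    ring
  have s2 : ∑ p ∈ F ×ˢ F ×ˢ F ×ˢ F, (|g p.1| * |g p.2.1| * |g p.2.2.1| * |g p.2.2.2|) *
      (c p.1 p.2.2.1 * c p.2.1 p.2.2.2) = S ^ 2 := by
    rw [← s1, Finset.sum_product, Finset.sum_product]
    simp only [Finset.sum_product]
    refine Finset.sum_congr rfl fun i _ => ?_
    rw [Finset.sum_comm]
    refine Finset.sum_congr rfl fun j _ => ?_
    refine Finset.sum_congr rfl fun k _ => ?_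
    refine Finset.sum_congr rfl fun l _ => ?_
    ring
  have s3 : ∑ p ∈ F ×ˢ F ×ˢ F ×ˢ F, (|g p.1| * |g p.2.1| * |g p.2.2.1| * |g p.2.2.2|) *
      (c p.1 p.2.2.2 * c p.2.1 p.2.2.1) = S ^ 2 := by
    rw [← s2, Finset.sum_product, Finset.sum_product]
    simp only [Finset.sum_product]
    refine Finset.sum_congr rfl fun i _ => ?_
    refine Finset.sum_congr rfl fun j _ => ?_
    rw [Finset.sum_comm]
    refine Finset.sum_congr rfl fun k _ => ?_
    refine Finset.sum_congr rfl fun l _ => ?_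
    ring
  rw [e4, e2]
  calc ∑ p ∈ F ×ˢ F ×ˢ F ×ˢ F, (g p.1 * g p.2.1 * g p.2.2.1 * g p.2.2.2) *
        lE (LF F) (fun w => sgn w p.1 * sgn w p.2.1 * sgn w p.2.2.1 * sgn w p.2.2.2)
      ≤ ∑ p ∈ F ×ˢ F ×ˢ F ×ˢ F, (|g p.1| * |g p.2.1| * |g p.2.2.1| * |g p.2.2.2|) *
        (c p.1 p.2.1 * c p.2.2.1 p.2.2.2 + c p.1 p.2.2.1 * c p.2.1 p.2.2.2
          + c p.1 p.2.2.2 * c p.2.1 p.2.2.1) := by
        refine Finset.sum_le_sum fun p hp => ?_
        simp only [Finset.mem_product] at hp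
        obtain ⟨h1, h2, h3, h4⟩ := hp
        obtain ⟨h5, h6⟩ := h F hF p.1 h1 p.2.1 h2 p.2.2.1 h3 p.2.2.2 h4
        have h7 : g p.1 * g p.2.1 * g p.2.2.1 * g p.2.2.2
            ≤ |g p.1| * |g p.2.1| * |g p.2.2.1| * |g p.2.2.2| := by
          rw [← abs_mul, ← abs_mul, ← abs_mul]
          exact le_abs_self _
        have h8 : 0 ≤ |g p.1| * |g p.2.1| * |g p.2.2.1| * |g p.2.2.2| := by positivity
        exact (mul_le_mul_of_nonneg_right h7 h5).trans (mul_le_mul_of_nonneg_left h6 h8)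
    _ = 3 * S ^ 2 := by
        simp only [mul_add, Finset.sum_add_distrib]
        rw [s1, s2, s3]
        ring

end Pool.Agent.Lib.MP_6d40c9_pr
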