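import Pool.Agent.Lib.MP_6d40c9_pr.SpecL

/-!
# A component does not come close to the ball from inside
-/

set_option autoImplicit false

namespace Pool.Agent.Lib.MP_6d40c9_pr

open Finset MeasureTheory Filter Topology TopologicalSpace Metric
open scoped BigOperators symmDiff

private lemma gapS_ball {x y : ℝ × ℝ} {ρ : ℝ} :
    y ∈ closedBall x ρ ↔ |y.1 - x.1| ≤ ρ ∧ |y.2 - x.2| ≤ ρ := by
  rw [mem_closedBall, Prod.dist_eq, max_le_iff, Real.dist_eq, Real.dist_eq]

theorem gapS (h : GeoFacts) : GapS := by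
  obtain ⟨h1, h2, h3, -, -, -, h7⟩ := h
  intro δ ρ x c hδ hρ hc hne hlt
  have hno : ∀ e ∈ c, ¬ (seg δ e ∩ closedBall x ρ).Nonempty := by
    intro e he hn
    exact absurd ((h2 δ ρ x c hδ hne).2 ⟨e, he, hn⟩) (not_le.2 hlt)
  rcases Nat.even_or_odd (cnt c (ref δ x)) with hev | hodd
  · right
    refine ⟨hev, ?_⟩
    by_contra hcon
    rw [not_le] at hcon
    have hK1ne := (h1 δ c hδ).2.1 hne
    have hK2ne : (K2 δ c).Nonempty := by
      obtain ⟨y, hy⟩ := hK1ne
      exact ⟨y, Or.inl hy⟩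
    obtain ⟨y, hy, hyd⟩ := ((h1 δ c hδ).2.2 hc).exists_infDist_eq_dist hK2ne x
    have hyd2 : dist y x < 3 / 4 * ρ := by
      rw [dist_comm, ← hyd]
      exact hcon
    have hyb : y ∈ closedBall x (3 / 4 * ρ) := hyd2.le
    rcases hy with hy | hy
    · have : infDist x (K1 δ c) ≤ dist x y := infDist_le_dist_of_mem hy
      rw [dist_comm] at this
      nlinarith
    · simp only [Set.mem_iUnion, exists_prop] at hy
      obtain ⟨u, hu, hyu⟩ := hy
      have hu' : Odd (cnt c u) := hu
      have hyu' : δ * u.1 ≤ y.1 ∧ y.1 ≤ δ * (u.1 + 1) ∧ δ * u.2 ≤ y.2 ∧ y.2 ≤ δ * (u.2 + 1) := hyu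
      rw [gapS_ball] at hyb
      have g1 := abs_le.1 hyb.1
      have g2 := abs_le.1 hyb.2
      have hcu : ctr δ u ∈ closedBall x ρ := by
        rw [gapS_ball]
        unfold ctr
        simp only
        constructor
        · rw [abs_le]
          constructor <;> nlinarith
        · rw [abs_le]
          constructor <;> nlinarith
      have hcr : ctr δ (ref δ x) ∈ closedBall x ρ :=
        closedBall_subset_closedBall (by linarith) (h7 δ x hδ).2
      have hs := h3 δ ρ x c hδ hc hno u (ref δ x) hcu hcr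
      unfold sgn at hs
      rw [hu'.neg_one_pow, hev.neg_one_pow] at hs
      norm_num at hs
  · left
    have hx : x ∈ K2 δ c := by
      refine Or.inr ?_
      simp only [Set.mem_iUnion, exists_prop]
      exact ⟨ref δ x, hodd, (h7 δ x hδ).1⟩
    exact ⟨hodd, infDist_zero_of_mem hx, hx⟩

end Pool.Agent.Lib.MP_6d40c9_pr
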