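import Pool.Agent.Lib.MP_6d40c9_pr.SpecL

/-!
# Generic thresholds
-/

set_option autoImplicit false

namespace Pool.Agent.Lib.MP_6d40c9_pr

open Finset MeasureTheory Filter Topology TopologicalSpace Metric
open scoped BigOperators ENNReal

namespace GenSAux

/-- separation of finitely many reals -/
lemma exists_sep (I : Finset ℝ) : ∃ l : ℝ, 0 < l ∧ ∀ t ∈ I, ∀ t' ∈ I, t ≠ t' → 2 * l ≤ |t - t'| := by
  have h1 : ∀ t ∈ I, ∀ t' ∈ I, ∀ᶠ l in 𝓝[>] (0 : ℝ), t ≠ t' → 2 * l ≤ |t - t'| := by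
    intro t _ t' _
    by_cases h : t = t'
    · exact Eventually.of_forall fun l hl => absurd h hl
    · have h2 : 0 < |t - t'| / 2 := by
        have := abs_pos.2 (sub_ne_zero.2 h)
        linarith
      filter_upwards [Ioo_mem_nhdsGT h2] with l hl _
      have := hl.2
      linarith
  have h2 : ∀ᶠ l in 𝓝[>] (0 : ℝ), ∀ t ∈ I, ∀ t' ∈ I, t ≠ t' → 2 * l ≤ |t - t'| := by
    rw [Filter.eventually_all_finset]
    intro t ht
    rw [Filter.eventually_all_finset]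
    intro t' ht'
    exact h1 t ht t' ht'
  have h3 : ∀ᶠ l in 𝓝[>] (0 : ℝ), 0 < l := self_mem_nhdsWithin
  obtain ⟨l, hl1, hl2⟩ := (h3.and h2).exists
  exact ⟨l, hl1, hl2⟩

/-- tent function -/
noncomputable def tent (l t x : ℝ) : ℝ := max 0 (1 - |x - t| / l)

lemma tent_nonneg (l t x : ℝ) : 0 ≤ tent l t x := le_max_left _ _

lemma tent_le (l t x : ℝ) (hl : 0 < l) : tent l t x ≤ 1 := by
  unfold tent
  refine max_le zero_le_one ?_
  have : 0 ≤ |x - t| / l := by positivity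
  linarith

lemma tent_self (l t : ℝ) : tent l t t = 1 := by
  unfold tent
  simp

lemma tent_zero (l t x : ℝ) (hl : 0 < l) (h : l ≤ |x - t|) : tent l t x = 0 := by
  unfold tent
  refine max_eq_left ?_
  have : 1 ≤ |x - t| / l := by rw [le_div_iff₀ hl]; linarith
  linarith

lemma tent_sum (I : Finset ℝ) (l x : ℝ) (hl : 0 < l)
    (h : ∀ t ∈ I, ∀ t' ∈ I, t ≠ t' → 2 * l ≤ |t - t'|) : ∑ t ∈ I, tent l t x ≤ 1 := by
  by_cases hex : ∃ t ∈ I, |x - t| < l
  · obtain ⟨t₀, ht₀, hx⟩ := hex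
    rw [Finset.sum_eq_single_of_mem t₀ ht₀]
    · exact tent_le l t₀ x hl
    · intro t ht hne
      refine tent_zero l t x hl ?_
      have h1 := h t ht t₀ ht₀ hne
      have h2 : |t - t₀| ≤ |x - t| + |x - t₀| := by
        have := abs_sub_le t x t₀
        rw [abs_sub_comm t x] at this
        exact this
      linarith
  · push Not at hex
    rw [Finset.sum_eq_zero fun t ht => tent_zero l t x hl (hex t ht)]
    exact zero_le_one

lemma continuous_tent (l t : ℝ) : Continuous (tent l t) := by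
  unfold tent
  fun_prop

/-- A loop statistic as a finite sum. -/
lemma loopStat_eq (G : Set (NonemptyCompacts (ℝ × ℝ))) (ρ : ℝ)
    (hf : {K ∈ G | ρ ≤ diam (K : Set (ℝ × ℝ))}.Finite) (φ : LoopSp → ℝ)
    (hφ : ∀ K : LoopSp, diam (K.1 : Set (ℝ × ℝ)) < ρ → φ K = 0) :
    loopStat φ G = ∑ K ∈ hf.toFinset, φ (K, toNC (fill (K : Set (ℝ × ℝ)))) := by
  unfold loopStat
  refine finsum_mem_eq_sum_of_inter_support_eq _ ?_
  ext K
  simp only [Set.mem_inter_iff, Function.mem_support, Set.Finite.coe_toFinset, Set.mem_ofPred_eq]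
  constructor
  · rintro ⟨h1, h2⟩
    refine ⟨⟨h1, ?_⟩, h2⟩
    by_contra h3
    exact h2 (hφ _ (not_le.1 h3))
  · rintro ⟨⟨h1, -⟩, h2⟩
    exact ⟨h1, h2⟩

/-- the cut-off in the diameter -/
noncomputable def chi (d : ℝ) (K : LoopSp) : ℝ := 1 - ramp (d / 2) d (diam (K.1 : Set (ℝ × ℝ)))

/-- the cut-off times a tent -/
noncomputable def phit (d l : ℝ) (F : NonemptyCompacts (ℝ × ℝ) → ℝ) (t : ℝ) (K : LoopSp) : ℝ :=
  chi d K * tent l t (F K.1)

section

variable (hS : StatFacts) (d l : ℝ) (hd : 0 < d) (hl : 0 < l)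
  (F : NonemptyCompacts (ℝ × ℝ) → ℝ) (hF : Continuous F)

include hS hd

lemma chi_bounds (K : LoopSp) : 0 ≤ chi d K ∧ chi d K ≤ 1 := by
  have h := (hS.2.1 (d / 2) d (by linarith)).2.1 (diam (K.1 : Set (ℝ × ℝ)))
  unfold chi
  constructor <;> linarith [h.1, h.2]

lemma chi_zero (K : LoopSp) (h : diam (K.1 : Set (ℝ × ℝ)) < d / 2) : chi d K = 0 := by
  unfold chi
  rw [(hS.2.1 (d / 2) d (by linarith)).2.2.1 _ h.le, sub_self]

lemma chi_one (K : LoopSp) (h : d ≤ diam (K.1 : Set (ℝ × ℝ))) : chi d K = 1 := by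
  unfold chi
  rw [(hS.2.1 (d / 2) d (by linarith)).2.2.2.1 _ h, sub_zero]

lemma chi_cont : Continuous (chi d) := by
  have h1 := (hS.2.1 (d / 2) d (by linarith)).1
  have h2 : Continuous fun K : LoopSp => diam (K.1 : Set (ℝ × ℝ)) := hS.1.2.comp continuous_fst
  exact continuous_const.sub (h1.comp h2)

lemma chi_loopFn : LoopFn (chi d) :=
  ⟨chi_cont hS d hd, d / 2, by positivity, fun K hK => chi_zero hS d hd K hK⟩

include hF in
lemma phit_loopFn (t : ℝ) : LoopFn (phit d l F t) := by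
  refine ⟨(chi_cont hS d hd).mul ((continuous_tent l t).comp (hF.comp continuous_fst)),
    d / 2, by positivity, fun K hK => ?_⟩
  unfold phit
  rw [chi_zero hS d hd K hK, zero_mul]

end

/-- pointwise bounds for the statistics -/
lemma stat_bounds (hS : StatFacts) (d l : ℝ) (hd : 0 < d) (hl : 0 < l)
    (F : NonemptyCompacts (ℝ × ℝ) → ℝ) (I : Finset ℝ)
    (hsep : ∀ t ∈ I, ∀ t' ∈ I, t ≠ t' → 2 * l ≤ |t - t'|) (G : Set (NonemptyCompacts (ℝ × ℝ)))
    (hf : ∀ ρ > 0, {K ∈ G | ρ ≤ diam (K : Set (ℝ × ℝ))}.Finite) :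
    (∀ t, 0 ≤ loopStat (phit d l F t) G) ∧
    (∀ t, (∃ K ∈ G, d ≤ diam (K : Set (ℝ × ℝ)) ∧ F K = t) → 1 ≤ loopStat (phit d l F t) G) ∧
    ∑ t ∈ I, loopStat (phit d l F t) G ≤ loopStat (chi d) G := by
  have hd2 : 0 < d / 2 := by positivity
  obtain ⟨q, hq⟩ : ∃ q : NonemptyCompacts (ℝ × ℝ) → LoopSp,
    q = fun K : NonemptyCompacts (ℝ × ℝ) => (K, toNC (fill (K : Set (ℝ × ℝ)))) := ⟨_, rfl⟩
  have hq1 : ∀ K, (q K).1 = K := fun K => by rw [hq]
  have hz : ∀ t, ∀ K : LoopSp, diam (K.1 : Set (ℝ × ℝ)) < d / 2 → phit d l F t K = 0 := by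
    intro t K hK
    unfold phit
    rw [chi_zero hS d hd K hK, zero_mul]
  obtain ⟨S, hS2⟩ : ∃ S : Finset (NonemptyCompacts (ℝ × ℝ)), S = (hf _ hd2).toFinset := ⟨_, rfl⟩
  have e1 : ∀ t, loopStat (phit d l F t) G = ∑ K ∈ S, phit d l F t (q K) := by
    intro t
    rw [hS2, hq]
    exact loopStat_eq G (d / 2) (hf _ hd2) (phit d l F t) (hz t)
  have e2 : loopStat (chi d) G = ∑ K ∈ S, chi d (q K) := by
    rw [hS2, hq]
    exact loopStat_eq G (d / 2) (hf _ hd2) (chi d) (fun K hK => chi_zero hS d hd K hK)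
  have hnn : ∀ t (K : LoopSp), 0 ≤ phit d l F t K := fun t K =>
    mul_nonneg (chi_bounds hS d hd K).1 (tent_nonneg _ _ _)
  refine ⟨?_, ?_, ?_⟩
  · intro t
    rw [e1]
    exact Finset.sum_nonneg fun K _ => hnn t _
  · rintro t ⟨K, hK, hKd, hKt⟩
    rw [e1]
    have h1 : phit d l F t (q K) = 1 := by
      unfold phit
      rw [chi_one hS d hd _ (by rw [hq1]; exact hKd), one_mul, hq1, hKt, tent_self]
    rw [← h1]
    refine Finset.single_le_sum (f := fun K : NonemptyCompacts (ℝ × ℝ) =>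
      phit d l F t (q K)) (fun K _ => hnn t _) ?_
    rw [hS2, Set.Finite.mem_toFinset]
    exact ⟨hK, by linarith⟩
  · rw [Finset.sum_congr rfl fun t _ => e1 t, e2, Finset.sum_comm]
    refine Finset.sum_le_sum fun K _ => ?_
    have h1 := tent_sum I l (F (q K).1) hl hsep
    have h2 := (chi_bounds hS d hd (q K)).1
    calc ∑ t ∈ I, phit d l F t (q K) = chi d (q K) * ∑ t ∈ I, tent l t (F (q K).1) := by
          rw [Finset.mul_sum]; rfl
      _ ≤ chi d (q K) * 1 := mul_le_mul_of_nonneg_left h1 h2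
      _ = _ := mul_one _

lemma finite_big (hS : StatFacts) (X : Type) [MeasurableSpace X] (P : Measure X)
    [IsProbabilityMeasure P] (Ω : Set (ℝ × ℝ)) (σ : (ℝ × ℝ → ℝ) → X → ℝ)
    (Γ : X → Set (NonemptyCompacts (ℝ × ℝ))) (hL : Lim Ω P σ Γ)
    (F : NonemptyCompacts (ℝ × ℝ) → ℝ) (hF : Continuous F) (d : ℝ) (hd : 0 < d) (ε : ℝ≥0∞)
    (hε : ε ≠ 0) (hε' : ε ≠ ∞) :
    {t : ℝ | ε < P {ω | ∃ K ∈ Γ ω, d ≤ diam (K : Set (ℝ × ℝ)) ∧ F K = t}}.Finite := by
  by_contra hinf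
  have hfin := hL.nest.finite
  have hχm : Measurable fun ω => loopStat (chi d) (Γ ω) := hL.measW _ (chi_loopFn hS d hd)
  have hε2 : ε / 2 ≠ 0 := by
    rw [ENNReal.div_ne_zero]
    exact ⟨hε, by norm_num⟩
  -- the level `m`
  obtain ⟨m, hm⟩ : ∃ m : ℕ, P {ω | (m : ℝ) < loopStat (chi d) (Γ ω)} ≤ ε / 2 := by
    have hmeas : ∀ n : ℕ, MeasurableSet {ω | (n : ℝ) < loopStat (chi d) (Γ ω)} := fun n =>
      measurableSet_lt measurable_const hχm
    have hanti : Antitone fun n : ℕ => {ω | (n : ℝ) < loopStat (chi d) (Γ ω)} := by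
      intro a b hab ω hω
      have h1 : (a : ℝ) ≤ b := by exact_mod_cast hab
      exact lt_of_le_of_lt h1 hω
    have h1 := tendsto_measure_iInter_atTop (μ := P)
      (fun n => (hmeas n).nullMeasurableSet) hanti ⟨0, measure_ne_top _ _⟩
    have h2 : ⋂ n : ℕ, {ω | (n : ℝ) < loopStat (chi d) (Γ ω)} = ∅ := by
      ext ω
      simp only [Set.mem_iInter, Set.mem_ofPred_eq, Set.mem_empty_iff_false, iff_false, not_forall,
        not_lt]
      exact exists_nat_ge _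
    rw [h2, measure_empty] at h1
    have h3 : ∀ᶠ n : ℕ in atTop, P {ω | (n : ℝ) < loopStat (chi d) (Γ ω)} < ε / 2 :=
      (tendsto_order.1 h1).2 _ (pos_iff_ne_zero.2 hε2)
    obtain ⟨n, hn⟩ := h3.exists
    exact ⟨n, hn.le⟩
  obtain ⟨N, hN⟩ := ENNReal.exists_nat_mul_gt hε2 (ENNReal.natCast_ne_top m)
  obtain ⟨I, hI, hIc⟩ := (show Set.Infinite _ from hinf).exists_subset_card_eq N
  obtain ⟨l, hl, hsep⟩ := exists_sep I
  -- the events
  have hmA : ∀ t, MeasurableSet {ω | 1 ≤ loopStat (phit d l F t) (Γ ω)} := fun t =>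
    measurableSet_le measurable_const (hL.measW _ (phit_loopFn hS d l hd F hF t))
  have hmM : MeasurableSet {ω | loopStat (chi d) (Γ ω) ≤ (m : ℝ)} :=
    measurableSet_le hχm measurable_const
  have hpt : ∀ t ∈ I, ε / 2 ≤ P ({ω | 1 ≤ loopStat (phit d l F t) (Γ ω)} ∩
      {ω | loopStat (chi d) (Γ ω) ≤ (m : ℝ)}) := by
    intro t ht
    have h1 : ε < P {ω | ∃ K ∈ Γ ω, d ≤ diam (K : Set (ℝ × ℝ)) ∧ F K = t} := hI ht
    have h2 : P {ω | ∃ K ∈ Γ ω, d ≤ diam (K : Set (ℝ × ℝ)) ∧ F K = t} ≤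
        P {ω | 1 ≤ loopStat (phit d l F t) (Γ ω)} := by
      refine measure_mono_ae ?_
      filter_upwards [hfin] with ω hω hB
      exact (stat_bounds hS d l hd hl F I hsep (Γ ω) hω).2.1 t hB
    have h3 : P {ω | 1 ≤ loopStat (phit d l F t) (Γ ω)} ≤
        P ({ω | 1 ≤ loopStat (phit d l F t) (Γ ω)} ∩
          {ω | loopStat (chi d) (Γ ω) ≤ (m : ℝ)}) + ε / 2 := by
      refine le_trans (measure_mono ?_) ((measure_union_le _ _).trans (add_le_add le_rfl hm))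
      intro ω hω
      by_cases h : loopStat (chi d) (Γ ω) ≤ (m : ℝ)
      · exact Or.inl ⟨hω, h⟩
      · exact Or.inr (not_le.1 h)
    have h4 : ε / 2 + ε / 2 ≤ P ({ω | 1 ≤ loopStat (phit d l F t) (Γ ω)} ∩
          {ω | loopStat (chi d) (Γ ω) ≤ (m : ℝ)}) + ε / 2 := by
      rw [ENNReal.add_halves]
      exact (h1.le.trans h2).trans h3
    exact (ENNReal.add_le_add_iff_right (ENNReal.div_ne_top hε' (by norm_num))).1 h4
  have hsum : ∑ t ∈ I, P ({ω | 1 ≤ loopStat (phit d l F t) (Γ ω)} ∩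
      {ω | loopStat (chi d) (Γ ω) ≤ (m : ℝ)}) ≤ m := by
    have e1 : ∀ t ∈ I, P ({ω | 1 ≤ loopStat (phit d l F t) (Γ ω)} ∩
        {ω | loopStat (chi d) (Γ ω) ≤ (m : ℝ)}) =
        ∫⁻ ω, ({ω | 1 ≤ loopStat (phit d l F t) (Γ ω)} ∩
          {ω | loopStat (chi d) (Γ ω) ≤ (m : ℝ)}).indicator (fun _ => (1 : ℝ≥0∞)) ω ∂P := by
      intro t _
      rw [lintegral_indicator ((hmA t).inter hmM), setLIntegral_const, one_mul]
    rw [Finset.sum_congr rfl e1, ← lintegral_finsetSum _ fun t _ =>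
      (measurable_const.indicator ((hmA t).inter hmM))]
    have h1 : ∫⁻ ω, ∑ t ∈ I, ({ω | 1 ≤ loopStat (phit d l F t) (Γ ω)} ∩
          {ω | loopStat (chi d) (Γ ω) ≤ (m : ℝ)}).indicator (fun _ => (1 : ℝ≥0∞)) ω ∂P ≤
        ∫⁻ _, (m : ℝ≥0∞) ∂P := by
      refine lintegral_mono_ae ?_
      filter_upwards [hfin] with ω hω
      obtain ⟨b1, -, b3⟩ := stat_bounds hS d l hd hl F I hsep (Γ ω) hω
      by_cases h : loopStat (chi d) (Γ ω) ≤ (m : ℝ)
      · classical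
        have h2 : ∑ t ∈ I, ({ω | 1 ≤ loopStat (phit d l F t) (Γ ω)} ∩
            {ω | loopStat (chi d) (Γ ω) ≤ (m : ℝ)}).indicator (fun _ => (1 : ℝ≥0∞)) ω =
            ((I.filter fun t => 1 ≤ loopStat (phit d l F t) (Γ ω)).card : ℝ≥0∞) := by
          rw [Finset.card_filter]
          push_cast
          refine Finset.sum_congr rfl fun t _ => ?_
          by_cases h3 : 1 ≤ loopStat (phit d l F t) (Γ ω)
          · rw [if_pos h3, Set.indicator_of_mem]
            exact ⟨h3, h⟩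
          · rw [if_neg h3, Set.indicator_of_notMem]
            exact fun h4 => h3 h4.1
        rw [h2]
        have h3 : ((I.filter fun t => 1 ≤ loopStat (phit d l F t) (Γ ω)).card : ℝ) ≤ m := by
          calc ((I.filter fun t => 1 ≤ loopStat (phit d l F t) (Γ ω)).card : ℝ)
              = ∑ t ∈ I.filter (fun t => 1 ≤ loopStat (phit d l F t) (Γ ω)), (1 : ℝ) := by simp
            _ ≤ ∑ t ∈ I.filter (fun t => 1 ≤ loopStat (phit d l F t) (Γ ω)),
                loopStat (phit d l F t) (Γ ω) :=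
              Finset.sum_le_sum fun t ht => (Finset.mem_filter.1 ht).2
            _ ≤ ∑ t ∈ I, loopStat (phit d l F t) (Γ ω) :=
              Finset.sum_le_sum_of_subset_of_nonneg (Finset.filter_subset _ _) fun t _ _ => b1 t
            _ ≤ _ := b3.trans h
        exact_mod_cast h3
      · rw [Finset.sum_eq_zero]
        · exact zero_le
        · intro t _
          rw [Set.indicator_of_notMem]
          exact fun h4 => h h4.2
    refine h1.trans ?_
    rw [lintegral_const, measure_univ, mul_one]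
  have hlow : (N : ℝ≥0∞) * (ε / 2) ≤ ∑ t ∈ I, P ({ω | 1 ≤ loopStat (phit d l F t) (Γ ω)} ∩
      {ω | loopStat (chi d) (Γ ω) ≤ (m : ℝ)}) := by
    rw [← hIc, ← nsmul_eq_mul, ← Finset.sum_const]
    exact Finset.sum_le_sum hpt
  exact absurd (hlow.trans hsum) (not_le.2 hN)

end GenSAux

open GenSAux in
theorem genS (h1 : StatFacts) : GenS := by
  intro X _ P _ Ω σ Γ hL F hF
  have hsub : {t : ℝ | ¬ ∀ᵐ ω ∂P, ∀ K ∈ Γ ω, 0 < diam (K : Set (ℝ × ℝ)) → F K ≠ t} ⊆
      ⋃ k : ℕ, ⋃ j : ℕ, {t : ℝ | ((j : ℝ≥0∞) + 1)⁻¹ <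
        P {ω | ∃ K ∈ Γ ω, 1 / ((k : ℝ) + 1) ≤ diam (K : Set (ℝ × ℝ)) ∧ F K = t}} := by
    intro t ht
    by_contra hcon
    apply ht
    simp only [Set.mem_iUnion, Set.mem_ofPred_eq, not_exists, not_lt] at hcon
    have h2 : ∀ k : ℕ, ∀ᵐ ω ∂P, ¬ ∃ K ∈ Γ ω, 1 / ((k : ℝ) + 1) ≤ diam (K : Set (ℝ × ℝ)) ∧
        F K = t := by
      intro k
      rw [ae_iff]
      simp only [not_not]
      refine le_antisymm ?_ zero_le
      refine ENNReal.le_of_forall_pos_le_add ?_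
      intro η hη _
      obtain ⟨j, hj⟩ := ENNReal.exists_inv_nat_lt (a := (η : ℝ≥0∞)) (by
        simpa using hη.ne')
      rw [zero_add]
      refine (hcon k j).trans (le_trans ?_ hj.le)
      rw [ENNReal.inv_le_inv]
      exact le_self_add
    rw [← ae_all_iff] at h2
    filter_upwards [h2] with ω hω K hK hd hFK
    obtain ⟨k, hk⟩ := exists_nat_one_div_lt hd
    exact hω k ⟨K, hK, hk.le, hFK⟩
  refine Set.Countable.mono hsub ?_
  refine Set.countable_iUnion fun k => Set.countable_iUnion fun j => ?_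
  refine (finite_big h1 X P Ω σ Γ hL F hF (1 / ((k : ℝ) + 1)) (by positivity)
    (((j : ℝ≥0∞) + 1)⁻¹) ?_ ?_).countable
  · rw [ENNReal.inv_ne_zero]
    exact ENNReal.add_ne_top.2 ⟨ENNReal.natCast_ne_top j, ENNReal.one_ne_top⟩
  · rw [ENNReal.inv_ne_top]
    simp

end Pool.Agent.Lib.MP_6d40c9_pr
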