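import Pool.Agent.Lib.MP_6d40c9_pr.SpecP

/-!
# Geometry of segments, cells and balls
-/

set_option autoImplicit false

namespace Pool.Agent.Lib.MP_6d40c9_pr

open Finset MeasureTheory Filter Topology TopologicalSpace Metric
open scoped BigOperators symmDiff

private lemma gf_ball {x y : ℝ × ℝ} {ρ : ℝ} :
    y ∈ closedBall x ρ ↔ |y.1 - x.1| ≤ ρ ∧ |y.2 - x.2| ≤ ρ := by
  rw [mem_closedBall, Prod.dist_eq, max_le_iff, Real.dist_eq, Real.dist_eq]

private lemma gf_seg_f {δ : ℝ} {a b : ℤ} {y : ℝ × ℝ} :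
    y ∈ seg δ ((a, b), false) ↔ δ * a ≤ y.1 ∧ y.1 ≤ δ * (a + 1) ∧ y.2 = δ * b := by
  unfold seg src tgt
  simp only [Set.mem_ofPred_eq, Bool.false_eq_true, if_false]
  push_cast
  constructor
  · rintro ⟨h1, h2, h3, h4⟩
    exact ⟨h1, h2, le_antisymm h4 h3⟩
  · rintro ⟨h1, h2, h3⟩
    exact ⟨h1, h2, h3.ge, h3.le⟩

private lemma gf_seg_t {δ : ℝ} {a b : ℤ} {y : ℝ × ℝ} :
    y ∈ seg δ ((a, b), true) ↔ y.1 = δ * a ∧ δ * b ≤ y.2 ∧ y.2 ≤ δ * (b + 1) := by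
  unfold seg src tgt
  simp only [Set.mem_ofPred_eq, if_true]
  push_cast
  constructor
  · rintro ⟨h1, h2, h3, h4⟩
    exact ⟨le_antisymm h2 h1, h3, h4⟩
  · rintro ⟨h1, h2, h3⟩
    exact ⟨h1.ge, h1.le, h2, h3⟩

private lemma gf_seg_compact (δ : ℝ) (e : Edge) : IsCompact (seg δ e) := by
  have h1 : seg δ e = Set.Icc ((δ * (src e).1, δ * (src e).2) : ℝ × ℝ)
      (δ * (tgt e).1, δ * (tgt e).2) := by
    ext p
    unfold seg
    simp only [Set.mem_ofPred_eq, Set.mem_Icc, Prod.le_def]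
    tauto
  rw [h1]
  exact isCompact_Icc

private lemma gf_cell_compact (δ : ℝ) (u : Pt) : IsCompact (cell δ u) := by
  have h1 : cell δ u = Set.Icc ((δ * u.1, δ * u.2) : ℝ × ℝ)
      (δ * (u.1 + 1), δ * (u.2 + 1)) := by
    ext p
    unfold cell
    simp only [Set.mem_ofPred_eq, Set.mem_Icc, Prod.le_def]
    tauto
  rw [h1]
  exact isCompact_Icc

private lemma gf_K1_compact (δ : ℝ) (c : Finset Edge) : IsCompact (K1 δ c) := by
  unfold K1
  exact c.isCompact_biUnion fun e _ => gf_seg_compact δ e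

private lemma gf_seg_nonempty {δ : ℝ} (hδ : 0 < δ) (e : Edge) : (seg δ e).Nonempty := by
  obtain ⟨⟨a, b⟩, t⟩ := e
  cases t
  · refine ⟨(δ * a, δ * b), gf_seg_f.2 ⟨le_rfl, ?_, rfl⟩⟩
    simp only
    nlinarith
  · refine ⟨(δ * a, δ * b), gf_seg_t.2 ⟨rfl, le_rfl, ?_⟩⟩
    simp only
    nlinarith

private lemma gf_mem_K1 {δ : ℝ} {c : Finset Edge} {y : ℝ × ℝ} :
    y ∈ K1 δ c ↔ ∃ e ∈ c, y ∈ seg δ e := by
  unfold K1
  simp only [Set.mem_iUnion, exists_prop]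

private lemma gf_K1_nonempty {δ : ℝ} (hδ : 0 < δ) {c : Finset Edge} (hc : c.Nonempty) :
    (K1 δ c).Nonempty := by
  obtain ⟨e, he⟩ := hc
  obtain ⟨y, hy⟩ := gf_seg_nonempty hδ e
  exact ⟨y, gf_mem_K1.2 ⟨e, he, hy⟩⟩

private lemma gf_box (c : Finset Edge) : ∃ m : ℕ, c ⊆ EB (box 0 m) := by
  refine ⟨c.sup (fun e => e.1.1.natAbs + e.1.2.natAbs + 1), ?_⟩
  intro e he
  have h1 : e.1.1.natAbs + e.1.2.natAbs + 1 ≤
      c.sup (fun e => e.1.1.natAbs + e.1.2.natAbs + 1) :=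
    Finset.le_sup (f := fun e : Edge => e.1.1.natAbs + e.1.2.natAbs + 1) he
  generalize c.sup (fun e => e.1.1.natAbs + e.1.2.natAbs + 1) = m at h1
  obtain ⟨⟨a, b⟩, t⟩ := e
  simp only at h1
  have hs : src ((a, b), t) ∈ box 0 m := by
    unfold box src
    simp only [Finset.mem_product, Finset.mem_Icc, Prod.fst_zero, Prod.snd_zero]
    omega
  have ht : tgt ((a, b), t) ∈ box 0 m := by
    unfold box tgt
    cases t <;>
    · simp only [Finset.mem_product, Finset.mem_Icc, Prod.fst_zero, Prod.snd_zero,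
        Bool.false_eq_true, if_false, if_true]
      omega
  unfold EB
  rw [Finset.mem_filter]
  refine ⟨?_, hs, ht⟩
  unfold EV
  rw [Finset.mem_biUnion]
  refine ⟨src ((a, b), t), hs, ?_⟩
  cases t <;> simp [src]

private lemma gf_K2_compact (h : GridFacts) (δ : ℝ) (c : Finset Edge) (hc : Even' c) :
    IsCompact (K2 δ c) := by
  obtain ⟨m, hm⟩ := gf_box c
  unfold K2
  refine (gf_K1_compact δ c).union ?_
  have hfin : {u : Pt | Odd (cnt c u)}.Finite := by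
    refine (box 0 m).finite_toSet.subset ?_
    intro u hu
    by_contra hcon
    have h5 := h.2.2.2.2 c 0 m hc hm u (fun h => hcon (Finset.mem_coe.2 h))
    exact (Nat.not_even_iff_odd.2 hu) h5
  exact hfin.isCompact_biUnion fun u _ => gf_cell_compact δ u

private lemma gf_two {δ ρ : ℝ} {x : ℝ × ℝ} {c : Finset Edge} (hδ : 0 < δ) (hc : c.Nonempty) :
    infDist x (K1 δ c) ≤ ρ ↔ ∃ e ∈ c, (seg δ e ∩ closedBall x ρ).Nonempty := by
  constructor
  · intro h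
    obtain ⟨y, hy, hd⟩ := (gf_K1_compact δ c).exists_infDist_eq_dist (gf_K1_nonempty hδ hc) x
    obtain ⟨e, he, hye⟩ := gf_mem_K1.1 hy
    refine ⟨e, he, y, hye, ?_⟩
    rw [mem_closedBall, dist_comm, ← hd]
    exact h
  · rintro ⟨e, he, y, hy1, hy2⟩
    refine (infDist_le_dist_of_mem (gf_mem_K1.2 ⟨e, he, hy1⟩)).trans ?_
    rw [dist_comm]
    exact hy2

private lemma gf_sgn {w : Finset Edge} {u v : Pt} (h : Even (cnt w u + cnt w v)) :
    sgn w u = sgn w v := by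
  unfold sgn
  rw [Nat.even_add] at h
  by_cases h1 : Even (cnt w u)
  · rw [h1.neg_one_pow, (h.1 h1).neg_one_pow]
  · have h2 : ¬ Even (cnt w v) := fun h3 => h1 (h.2 h3)
    rw [(Nat.not_even_iff_odd.1 h1).neg_one_pow, (Nat.not_even_iff_odd.1 h2).neg_one_pow]

private lemma gf_hstep (h : GridFacts) {δ ρ : ℝ} {x : ℝ × ℝ} {w : Finset Edge} (hδ : 0 < δ)
    (hw : Even' w) (hno : ∀ e ∈ w, ¬ (seg δ e ∩ closedBall x ρ).Nonempty) (t b : ℤ)
    (h1 : ctr δ (t, b) ∈ closedBall x ρ) (h2 : ctr δ (t + 1, b) ∈ closedBall x ρ) :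
    sgn w (t, b) = sgn w (t + 1, b) := by
  have h3 := h.1 w hw ((t + 1, b), true)
  have hfa : fa ((t + 1, b), true) = (t + 1, b) := rfl
  have hfb : fb ((t + 1, b), true) = (t, b) := by
    unfold fb
    simp
  rw [hfa, hfb] at h3
  have hnot : ((t + 1, b), true) ∉ w := by
    intro hin
    apply hno _ hin
    refine ⟨(δ * (t + 1), δ * (b + 1 / 2)), gf_seg_t.2 ⟨?_, ?_, ?_⟩, gf_ball.2 ⟨?_, ?_⟩⟩
    · push_cast
      rfl
    · simp only
      nlinarith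
    · simp only
      nlinarith
    · rw [gf_ball] at h1 h2
      have h4 := abs_le.1 h1.1
      have h5 := abs_le.1 h2.1
      unfold ctr at h4 h5
      push_cast at h4 h5
      simp only at h4 h5 ⊢
      rw [abs_le]
      constructor <;> nlinarith
    · rw [gf_ball] at h1
      exact h1.2
  have h6 : Even (cnt w (t + 1, b) + cnt w (t, b)) := by
    rw [← Nat.not_odd_iff_even]
    exact fun hh => hnot (h3.1 hh)
  exact (gf_sgn h6).symm

private lemma gf_vstep (h : GridFacts) {δ ρ : ℝ} {x : ℝ × ℝ} {w : Finset Edge} (hδ : 0 < δ)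
    (hw : Even' w) (hno : ∀ e ∈ w, ¬ (seg δ e ∩ closedBall x ρ).Nonempty) (a t : ℤ)
    (h1 : ctr δ (a, t) ∈ closedBall x ρ) (h2 : ctr δ (a, t + 1) ∈ closedBall x ρ) :
    sgn w (a, t) = sgn w (a, t + 1) := by
  have h3 := h.1 w hw ((a, t + 1), false)
  have hfa : fa ((a, t + 1), false) = (a, t + 1) := rfl
  have hfb : fb ((a, t + 1), false) = (a, t) := by
    unfold fb
    simp
  rw [hfa, hfb] at h3
  have hnot : ((a, t + 1), false) ∉ w := by
    intro hin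
    apply hno _ hin
    refine ⟨(δ * (a + 1 / 2), δ * (t + 1)), gf_seg_f.2 ⟨?_, ?_, ?_⟩, gf_ball.2 ⟨?_, ?_⟩⟩
    · simp only
      nlinarith
    · simp only
      nlinarith
    · push_cast
      rfl
    · rw [gf_ball] at h1
      exact h1.1
    · rw [gf_ball] at h1 h2
      have h4 := abs_le.1 h1.2
      have h5 := abs_le.1 h2.2
      unfold ctr at h4 h5
      push_cast at h4 h5
      simp only at h4 h5 ⊢
      rw [abs_le]
      constructor <;> nlinarith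
  have h6 : Even (cnt w (a, t + 1) + cnt w (a, t)) := by
    rw [← Nat.not_odd_iff_even]
    exact fun hh => hnot (h3.1 hh)
  exact (gf_sgn h6).symm

private lemma gf_between {δ ρ x : ℝ} (hδ : 0 < δ) {a s a' : ℤ} (h1 : a ≤ s) (h2 : s ≤ a')
    (ha : |δ * ((a : ℝ) + 1 / 2) - x| ≤ ρ) (ha' : |δ * ((a' : ℝ) + 1 / 2) - x| ≤ ρ) :
    |δ * ((s : ℝ) + 1 / 2) - x| ≤ ρ := by
  have e1 : (a : ℝ) ≤ s := by exact_mod_cast h1
  have e2 : (s : ℝ) ≤ a' := by exact_mod_cast h2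
  have h4 := abs_le.1 ha
  have h5 := abs_le.1 ha'
  rw [abs_le]
  constructor <;> nlinarith

private lemma gf_hwalk (h : GridFacts) {δ ρ : ℝ} {x : ℝ × ℝ} {w : Finset Edge} (hδ : 0 < δ)
    (hw : Even' w) (hno : ∀ e ∈ w, ¬ (seg δ e ∩ closedBall x ρ).Nonempty) (n : ℕ) :
    ∀ t b : ℤ, ctr δ (t, b) ∈ closedBall x ρ → ctr δ (t + n, b) ∈ closedBall x ρ →
    sgn w (t, b) = sgn w (t + n, b) := by
  induction n with
  | zero => intro t b _ _; simp
  | succ n ih =>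
    intro t b h1 h2
    have e1 : t + ((n + 1 : ℕ) : ℤ) = (t + n) + 1 := by push_cast; ring
    rw [e1] at h2 ⊢
    have h3 : ctr δ (t + n, b) ∈ closedBall x ρ := by
      rw [gf_ball] at h1 h2 ⊢
      refine ⟨?_, h1.2⟩
      exact gf_between hδ (by omega) (by omega) h1.1 h2.1
    rw [ih t b h1 h3]
    exact gf_hstep h hδ hw hno _ _ h3 h2

private lemma gf_vwalk (h : GridFacts) {δ ρ : ℝ} {x : ℝ × ℝ} {w : Finset Edge} (hδ : 0 < δ)
    (hw : Even' w) (hno : ∀ e ∈ w, ¬ (seg δ e ∩ closedBall x ρ).Nonempty) (n : ℕ) :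
    ∀ a t : ℤ, ctr δ (a, t) ∈ closedBall x ρ → ctr δ (a, t + n) ∈ closedBall x ρ →
    sgn w (a, t) = sgn w (a, t + n) := by
  induction n with
  | zero => intro a t _ _; simp
  | succ n ih =>
    intro a t h1 h2
    have e1 : t + ((n + 1 : ℕ) : ℤ) = (t + n) + 1 := by push_cast; ring
    rw [e1] at h2 ⊢
    have h3 : ctr δ (a, t + n) ∈ closedBall x ρ := by
      rw [gf_ball] at h1 h2 ⊢
      refine ⟨h1.1, ?_⟩
      exact gf_between hδ (by omega) (by omega) h1.2 h2.2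
    rw [ih a t h1 h3]
    exact gf_vstep h hδ hw hno _ _ h3 h2

private lemma gf_three (h : GridFacts) {δ ρ : ℝ} {x : ℝ × ℝ} {w : Finset Edge} (hδ : 0 < δ)
    (hw : Even' w) (hno : ∀ e ∈ w, ¬ (seg δ e ∩ closedBall x ρ).Nonempty) (u u' : Pt)
    (h1 : ctr δ u ∈ closedBall x ρ) (h2 : ctr δ u' ∈ closedBall x ρ) : sgn w u = sgn w u' := by
  obtain ⟨a, b⟩ := u
  obtain ⟨a', b'⟩ := u'
  have h3 : ctr δ (a', b) ∈ closedBall x ρ := by
    rw [gf_ball] at h1 h2 ⊢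
    exact ⟨h2.1, h1.2⟩
  have e1 : sgn w (a, b) = sgn w (a', b) := by
    rcases le_total a a' with hle | hle
    · obtain ⟨n, hn⟩ := Int.le.dest hle
      rw [← hn] at h3 ⊢
      exact gf_hwalk h hδ hw hno n a b h1 h3
    · obtain ⟨n, hn⟩ := Int.le.dest hle
      rw [← hn] at h1 ⊢
      exact (gf_hwalk h hδ hw hno n a' b h3 h1).symm
  have e2 : sgn w (a', b) = sgn w (a', b') := by
    rcases le_total b b' with hle | hle
    · obtain ⟨n, hn⟩ := Int.le.dest hle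
      rw [← hn] at h2 ⊢
      exact gf_vwalk h hδ hw hno n a' b h3 h2
    · obtain ⟨n, hn⟩ := Int.le.dest hle
      rw [← hn] at h3 ⊢
      exact (gf_vwalk h hδ hw hno n a' b' h2 h3).symm
  rw [e1, e2]

private lemma gf_ref {δ : ℝ} (hδ : 0 < δ) (x : ℝ) :
    δ * (⌊x / δ⌋ : ℝ) ≤ x ∧ x < δ * ((⌊x / δ⌋ : ℝ) + 1) := by
  have h1 := Int.floor_le (x / δ)
  have h2 := Int.lt_floor_add_one (x / δ)
  rw [le_div_iff₀ hδ] at h1
  rw [div_lt_iff₀ hδ] at h2
  constructor <;> linarith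

private lemma gf_seven {δ : ℝ} (hδ : 0 < δ) (x : ℝ × ℝ) :
    x ∈ cell δ (ref δ x) ∧ ctr δ (ref δ x) ∈ closedBall x (δ / 2) := by
  have h1 := gf_ref hδ x.1
  have h2 := gf_ref hδ x.2
  constructor
  · unfold cell ref
    exact ⟨h1.1, h1.2.le, h2.1, h2.2.le⟩
  · rw [gf_ball]
    unfold ctr ref
    simp only
    constructor
    · rw [abs_le]
      constructor <;> nlinarith
    · rw [abs_le]
      constructor <;> nlinarith

private lemma gf_above {c : Finset Edge} {u : Pt} (hodd : Odd (cnt c u)) :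
    ∃ k : ℤ, u.2 < k ∧ ((u.1, k), false) ∈ c := by
  have hpos : 0 < cnt c u := hodd.pos
  unfold cnt at hpos
  obtain ⟨⟨⟨a, b⟩, t⟩, he⟩ := Finset.card_pos.1 hpos
  rw [Finset.mem_filter] at he
  obtain ⟨he1, he2, he3, he4⟩ := he
  simp only at he2 he3 he4
  subst he2
  subst he3
  exact ⟨b, he4, he1⟩

private lemma gf_below (h : GridFacts) {c : Finset Edge} (hc : Even' c) {u : Pt}
    (hodd : Odd (cnt c u)) : ∃ k : ℤ, k ≤ u.2 ∧ ((u.1, k), false) ∈ c := by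
  obtain ⟨m, hm⟩ := gf_box c
  by_contra hcon
  push Not at hcon
  set j : ℤ := min u.2 (-(m : ℤ) - 1) with hj
  have h1 : (u.1, j) ∉ box 0 m := by
    unfold box
    simp only [Finset.mem_product, Finset.mem_Icc, Prod.fst_zero, Prod.snd_zero]
    omega
  have h5 := h.2.2.2.2 c 0 m hc hm (u.1, j) h1
  have h2 : cnt c (u.1, j) = cnt c u := by
    unfold cnt
    congr 1
    ext e
    simp only [Finset.mem_filter]
    constructor
    · rintro ⟨g1, g2, g3, g4⟩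
      refine ⟨g1, g2, g3, ?_⟩
      by_contra g5
      push Not at g5
      apply hcon e.1.2 g5
      obtain ⟨⟨a, b⟩, t⟩ := e
      simp only at g2 g3 ⊢
      rw [← g2, ← g3]
      exact g1
    · rintro ⟨g1, g2, g3, g4⟩
      exact ⟨g1, g2, g3, by omega⟩
  rw [h2] at h5
  exact (Nat.not_even_iff_odd.2 hodd) h5

private lemma gf_four (h : GridFacts) {δ ρ : ℝ} {x : ℝ × ℝ} {c : Finset Edge} (hδ : 0 < δ)
    (hρ : δ ≤ ρ) (hc : Even' c) (hno : ∀ e ∈ c, ¬ (seg δ e ∩ closedBall x ρ).Nonempty)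
    (hodd : Odd (cnt c (ref δ x))) :
    2 * ρ ≤ diam (K1 δ c) ∧
    ∃ y ∈ K1 δ c, ∃ y' ∈ K1 δ c, |y.1 - x.1| ≤ δ ∧ |y'.1 - x.1| ≤ δ ∧ x.2 + ρ < y.2 ∧
      y'.2 < x.2 - ρ := by
  have r1 := gf_ref hδ x.1
  have r2 := gf_ref hδ x.2
  obtain ⟨k, hk1, hk2⟩ := gf_above hodd
  obtain ⟨k', hk1', hk2'⟩ := gf_below h hc hodd
  have hu1 : (ref δ x).1 = ⌊x.1 / δ⌋ := rfl
  have hu2 : (ref δ x).2 = ⌊x.2 / δ⌋ := rfl
  rw [hu1] at hk2 hk2'
  rw [hu2] at hk1 hk1'
  have hy : ((x.1, δ * k) : ℝ × ℝ) ∈ seg δ ((⌊x.1 / δ⌋, k), false) :=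
    gf_seg_f.2 ⟨r1.1, r1.2.le, rfl⟩
  have hy' : ((x.1, δ * k') : ℝ × ℝ) ∈ seg δ ((⌊x.1 / δ⌋, k'), false) :=
    gf_seg_f.2 ⟨r1.1, r1.2.le, rfl⟩
  have hk3 : (⌊x.2 / δ⌋ : ℝ) + 1 ≤ k := by exact_mod_cast hk1
  have hk3' : (k' : ℝ) ≤ (⌊x.2 / δ⌋ : ℝ) := by exact_mod_cast hk1'
  have b1 : ¬ |δ * (k : ℝ) - x.2| ≤ ρ := by
    intro hle
    refine hno _ hk2 ⟨_, hy, gf_ball.2 ⟨?_, hle⟩⟩
    simp only [sub_self, abs_zero]
    linarith
  have b2 : ¬ |δ * (k' : ℝ) - x.2| ≤ ρ := by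
    intro hle
    refine hno _ hk2' ⟨_, hy', gf_ball.2 ⟨?_, hle⟩⟩
    simp only [sub_self, abs_zero]
    linarith
  have c1 : x.2 ≤ δ * k := by nlinarith
  have c2 : δ * k' ≤ x.2 := by nlinarith
  rw [abs_of_nonneg (by linarith), not_le] at b1
  rw [abs_of_nonpos (by linarith), not_le] at b2
  have hyK := gf_mem_K1.2 ⟨_, hk2, hy⟩
  have hyK' := gf_mem_K1.2 ⟨_, hk2', hy'⟩
  refine ⟨?_, _, hyK, _, hyK', ?_, ?_, ?_, ?_⟩
  · have h1 := dist_le_diam_of_mem (gf_K1_compact δ c).isBounded hyK hyK'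
    refine le_trans ?_ h1
    rw [Prod.dist_eq]
    refine le_trans ?_ (le_max_right _ _)
    rw [Real.dist_eq]
    refine le_trans ?_ (le_abs_self _)
    simp only
    linarith
  · simp only [sub_self, abs_zero]
    exact hδ.le
  · simp only [sub_self, abs_zero]
    exact hδ.le
  · simp only
    linarith
  · simp only
    linarith

private lemma gf_five (h : GridFacts) {δ ρ : ℝ} {x : ℝ × ℝ} {c : Finset Edge} (hδ : 0 < δ)
    (hρ : 4 * δ ≤ ρ) (hc : Even' c) (hne : c.Nonempty)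
    (hno : ∀ e ∈ c, ¬ (seg δ e ∩ closedBall x ρ).Nonempty) :
    infDist x (K2 δ c) ≤ ρ / 2 ↔ Odd (cnt c (ref δ x)) := by
  constructor
  · intro hd
    have hK2ne : (K2 δ c).Nonempty := by
      obtain ⟨y, hy⟩ := gf_K1_nonempty hδ hne
      exact ⟨y, Or.inl hy⟩
    obtain ⟨y, hy, hyd⟩ := (gf_K2_compact h δ c hc).exists_infDist_eq_dist hK2ne x
    have hyd2 : dist y x ≤ ρ / 2 := by
      rw [dist_comm, ← hyd]
      exact hd
    have hyb : y ∈ closedBall x (ρ / 2) := hyd2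
    rcases hy with hy | hy
    · obtain ⟨e, he, hye⟩ := gf_mem_K1.1 hy
      exfalso
      exact hno e he ⟨y, hye, closedBall_subset_closedBall (by linarith) hyb⟩
    · simp only [Set.mem_iUnion, exists_prop] at hy
      obtain ⟨u, hu, hyu⟩ := hy
      have hu' : Odd (cnt c u) := hu
      have hyu' : δ * u.1 ≤ y.1 ∧ y.1 ≤ δ * (u.1 + 1) ∧ δ * u.2 ≤ y.2 ∧ y.2 ≤ δ * (u.2 + 1) := hyu
      rw [gf_ball] at hyb
      have g1 := abs_le.1 hyb.1
      have g2 := abs_le.1 hyb.2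
      have hcu : ctr δ u ∈ closedBall x ρ := by
        rw [gf_ball]
        unfold ctr
        simp only
        constructor
        · rw [abs_le]
          constructor <;> nlinarith
        · rw [abs_le]
          constructor <;> nlinarith
      have hcr : ctr δ (ref δ x) ∈ closedBall x ρ :=
        closedBall_subset_closedBall (by linarith) (gf_seven hδ x).2
      have hs := gf_three h hδ hc hno u (ref δ x) hcu hcr
      by_contra hcon
      rw [Nat.not_odd_iff_even] at hcon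
      unfold sgn at hs
      rw [hu'.neg_one_pow, hcon.neg_one_pow] at hs
      norm_num at hs
  · intro hodd
    have hx : x ∈ K2 δ c := by
      refine Or.inr ?_
      simp only [Set.mem_iUnion, exists_prop]
      exact ⟨ref δ x, hodd, (gf_seven hδ x).1⟩
    rw [infDist_zero_of_mem hx]
    linarith

private lemma gf_six {Ω : Set (ℝ × ℝ)} {δ : ℝ} (hδ : 0 < δ) (e : Edge) (he : e ∈ DD Ω δ) :
    seg δ e ⊆ Ω := by
  unfold DD LF at he
  rw [Finset.mem_biUnion] at he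
  obtain ⟨⟨a, b⟩, hu, he⟩ := he
  have hcell : cell δ (a, b) ⊆ Ω := by
    unfold faces at hu
    split_ifs at hu with hfin
    · rw [Set.Finite.mem_toFinset] at hu
      exact hu
    · simp at hu
  refine Set.Subset.trans ?_ hcell
  intro y hy
  change δ * (a : ℝ) ≤ y.1 ∧ y.1 ≤ δ * ((a : ℝ) + 1) ∧ δ * (b : ℝ) ≤ y.2 ∧
    y.2 ≤ δ * ((b : ℝ) + 1)
  simp only [Finset.mem_insert, Finset.mem_singleton] at he
  rcases he with rfl | rfl | rfl | rfl
  · rw [gf_seg_f] at hy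
    refine ⟨hy.1, hy.2.1, hy.2.2.ge, ?_⟩
    nlinarith [hy.2.2]
  · rw [gf_seg_t] at hy
    refine ⟨hy.1.ge, ?_, hy.2.1, hy.2.2⟩
    nlinarith [hy.1]
  · rw [gf_seg_f] at hy
    have h3 := hy.2.2
    push_cast at h3
    refine ⟨hy.1, hy.2.1, ?_, h3.le⟩
    nlinarith
  · rw [gf_seg_t] at hy
    have h3 := hy.1
    push_cast at h3
    refine ⟨?_, h3.le, hy.2.1, hy.2.2⟩
    nlinarith

theorem geoFacts (h : GridFacts) : GeoFacts :=
  ⟨fun δ c hδ => ⟨gf_K1_compact δ c, gf_K1_nonempty hδ, gf_K2_compact h δ c⟩,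
    fun _ _ _ _ hδ hc => gf_two hδ hc,
    fun _ _ _ _ hδ hw hno u u' h1 h2 => gf_three h hδ hw hno u u' h1 h2,
    fun _ _ _ _ hδ hρ hc hno hodd => gf_four h hδ hρ hc hno hodd,
    fun _ _ _ _ hδ hρ hc hne hno => gf_five h hδ hρ hc hne hno,
    fun _ _ _ hδ e he => gf_six hδ e he,
    fun _ x hδ => gf_seven hδ x⟩

end Pool.Agent.Lib.MP_6d40c9_pr
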