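import Pool.Agent.Lib.MP_6d40c9_pr.SpecK

/-!
# Second Griffiths inequality
-/

set_option autoImplicit false

namespace Pool.Agent.Lib.MP_6d40c9_pr

open Finset
open scoped BigOperators symmDiff

theorem gks (h1 : PairSum) (h2 : Toggle) (h3 : AOFacts) : Gks := by
  intro E G _ _ hG bd D x hx0 hx1 f g
  have e1 := h1 E G bd D x (fun _ => 1) f g
  have e2 := h1 E G bd D x (fun _ => 1) 0 (f + g)
  simp only [one_mul] at e1 e2
  rw [e1, e2]
  apply Finset.sum_le_sum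
  intro O hO
  rw [Finset.mem_powerset] at hO
  have hχ : ∀ e ∈ O, (fun _ : E => (1 : ℝ)) e = 1 ∨ (fun _ : E => (1 : ℝ)) e = -1 :=
    fun _ _ => Or.inl rfl
  obtain ⟨f1, f2, -⟩ := h3 E G hG bd D x (fun _ => 1) O hO hx0 hx1 hχ
  by_cases h0 : aO bd D x (fun _ => 1) O f g = 0
  · rw [h0]
    exact f2 0 (f + g)
  · obtain ⟨⟨γ, hγ, hγf⟩, -⟩ := f1 f g h0
    have e3 := h2 E G hG bd D x (fun _ => 1) O hχ γ hγ f g
    rw [hγf, hG f, add_comm g f] at e3
    simp only [Finset.prod_const_one, one_mul] at e3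
    exact e3.le

end Pool.Agent.Lib.MP_6d40c9_pr
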