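import Pool.Agent.Lib.MP_6d40c9_pr.SpecG

/-!
# Crossing parity on the grid
-/

set_option autoImplicit false

namespace Pool.Agent.Lib.MP_6d40c9_pr

open Finset
open scoped BigOperators symmDiff

/-- The edge `e` is counted above the face `u`. -/
private def gfPhi (u : Pt) (e : Edge) : ZMod 2 :=
  if e.2 = false ∧ e.1.1 = u.1 ∧ u.2 < e.1.2 then 1 else 0

private lemma gf_cnt (w : Finset Edge) (u : Pt) : ((cnt w u : ℕ) : ZMod 2) = ∑ e ∈ w, gfPhi u e := by
  unfold cnt gfPhi
  rw [Finset.card_filter]
  push_cast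
  rfl

private lemma gf_even (w : Finset Edge) (h : Even' w) (C : Pt → Prop) [DecidablePred C] :
    ∑ e ∈ w, ((if C (src e) then (1 : ZMod 2) else 0) + (if C (tgt e) then 1 else 0)) = 0 := by
  classical
  set K : Finset Pt := (w.image src ∪ w.image tgt).filter C with hK
  have h1 : ∑ p ∈ K, (bdy bdV w) p = 0 := by
    have h' : bdy bdV w = 0 := h
    rw [h']
    simp
  unfold bdy at h1
  simp only [Finset.sum_apply] at h1
  rw [Finset.sum_comm] at h1
  have h2 : ∀ q : Pt, q ∈ w.image src ∪ w.image tgt →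
      ∑ p ∈ K, (Pi.single q (1 : ZMod 2) : Pt → ZMod 2) p = if C q then 1 else 0 := by
    intro q hq
    rw [Finset.sum_pi_single']
    simp only [hK, Finset.mem_filter, hq, true_and]
  refine Eq.trans (Finset.sum_congr rfl ?_) h1
  intro e he
  simp only [bdV, Pi.add_apply, Finset.sum_add_distrib]
  rw [h2 (src e) (Finset.mem_union_left _ (Finset.mem_image_of_mem src he)),
    h2 (tgt e) (Finset.mem_union_right _ (Finset.mem_image_of_mem tgt he))]

private lemma gf_two (x : ZMod 2) : x + x = 0 := by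
  revert x
  decide

/-- Sum over a symmetric difference. -/
private lemma gf_symm {M : Type*} [AddCommMonoid M] (h2 : ∀ x : M, x + x = 0) (g : Edge → M)
    (w w' : Finset Edge) : ∑ e ∈ w ∆ w', g e = ∑ e ∈ w, g e + ∑ e ∈ w', g e := by
  have e1 : ∑ e ∈ w, g e = ∑ e ∈ w \ w', g e + ∑ e ∈ w ∩ w', g e := by
    rw [← Finset.sum_union (Finset.disjoint_sdiff_inter w w'), Finset.sdiff_union_inter]
  have e2 : ∑ e ∈ w', g e = ∑ e ∈ w' \ w, g e + ∑ e ∈ w ∩ w', g e := by
    rw [Finset.inter_comm, ← Finset.sum_union (Finset.disjoint_sdiff_inter w' w),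
      Finset.sdiff_union_inter]
  have e3 : w ∆ w' = (w \ w') ∪ (w' \ w) := rfl
  have e4 : Disjoint (w \ w') (w' \ w) := disjoint_sdiff_sdiff
  rw [e3, Finset.sum_union e4, e1, e2]
  calc ∑ e ∈ w \ w', g e + ∑ e ∈ w' \ w, g e
      = ∑ e ∈ w \ w', g e + ∑ e ∈ w' \ w, g e + 0 := by rw [add_zero]
    _ = ∑ e ∈ w \ w', g e + ∑ e ∈ w' \ w, g e + (∑ e ∈ w ∩ w', g e + ∑ e ∈ w ∩ w', g e) := by
      rw [h2]
    _ = _ := by abel

/-- Fact 1 modulo two. -/
private lemma gf_one (w : Finset Edge) (h : Even' w) (e₀ : Edge) :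
    ((cnt w (fa e₀) : ℕ) : ZMod 2) + ((cnt w (fb e₀) : ℕ) : ZMod 2) = if e₀ ∈ w then 1 else 0 := by
  have hsum : ∑ e ∈ w, (if e = e₀ then (1 : ZMod 2) else 0) = if e₀ ∈ w then 1 else 0 :=
    Finset.sum_ite_eq' w e₀ _
  rw [gf_cnt, gf_cnt, ← Finset.sum_add_distrib, ← hsum]
  obtain ⟨⟨i, j⟩, b⟩ := e₀
  cases b
  · apply Finset.sum_congr rfl
    rintro ⟨⟨a, b⟩, c⟩ -
    simp only [gfPhi, fa, fb, Prod.mk.injEq, Bool.false_eq_true, if_false]
    cases c
    · by_cases ha : a = i
      · subst ha
        rcases lt_trichotomy b j with hb | hb | hb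
        · simp [show ¬ j < b by omega, show ¬ j - 1 < b by omega, show b ≠ j by omega]
        · subst hb
          simp
        · simp [hb, show j - 1 < b by omega, show b ≠ j by omega]
          decide
      · simp [ha]
    · simp
  · have h1 := gf_even w h (fun p => p.1 = i ∧ j < p.2)
    have h3 : ∀ e ∈ w, gfPhi (fa ((i, j), true)) e + gfPhi (fb ((i, j), true)) e =
        (if e = ((i, j), true) then (1 : ZMod 2) else 0) +
          ((if (src e).1 = i ∧ j < (src e).2 then (1 : ZMod 2) else 0) +
            (if (tgt e).1 = i ∧ j < (tgt e).2 then 1 else 0)) := ?_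
    rw [Finset.sum_congr rfl h3, Finset.sum_add_distrib, h1, add_zero]
    rintro ⟨⟨a, b⟩, c⟩ -
    simp only [gfPhi, fa, fb, src, tgt, Prod.mk.injEq, if_true]
    cases c
    · simp only [true_and, Bool.false_eq_true, if_false, and_false, if_false]
      have e1 : (a + 1 = i ∧ j < b) ↔ (a = i - 1 ∧ j < b) := by
        constructor <;> rintro ⟨h1, h2⟩ <;> exact ⟨by omega, h2⟩
      rw [zero_add]
      simp only [e1]
      congr 1
    · simp only [Bool.true_eq_false, false_and, if_false, if_true, and_true, add_zero]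
      by_cases ha : a = i
      · subst ha
        rcases lt_trichotomy b j with hb | hb | hb
        · simp [show ¬ j < b by omega, show ¬ j < b + 1 by omega, show b ≠ j by omega]
        · subst hb
          simp
          decide
        · simp [hb, show j < b + 1 by omega, show b ≠ j by omega]
          decide
      · simp [ha]

/-- Sum over the walls. -/
private lemma gf_walls {M : Type*} [AddCommMonoid M] (h2 : ∀ x : M, x + x = 0) (g : Edge → M)
    (A : Finset Pt) : ∑ e ∈ walls A, g e =
      ∑ u ∈ A, ((g (u, false) + g (u, true)) +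
        (g ((u.1, u.2 + 1), false) + g ((u.1 + 1, u.2), true))) := by
  have e1 : ∑ e ∈ walls A, g e =
      ∑ e ∈ (LF A).filter (fun e => fa e ∈ A), g e +
        ∑ e ∈ (LF A).filter (fun e => fb e ∈ A), g e := by
    unfold walls
    rw [Finset.sum_filter, Finset.sum_filter, Finset.sum_filter, ← Finset.sum_add_distrib]
    apply Finset.sum_congr rfl
    intro e _
    by_cases c1 : fa e ∈ A <;> by_cases c2 : fb e ∈ A <;> simp [c1, c2, h2]
  have mem_LF : ∀ e : Edge, e ∈ LF A ↔ fa e ∈ A ∨ fb e ∈ A := by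
    rintro ⟨⟨a, b⟩, c⟩
    simp only [LF, Finset.mem_biUnion, Finset.mem_insert, Finset.mem_singleton, Prod.mk.injEq]
    cases c
    · simp only [fa, fb, Bool.false_eq_true, if_false, and_false, or_false, and_true, false_or]
      constructor
      · rintro ⟨⟨x, y⟩, hu, h | h⟩
        · simp only [Prod.mk.injEq] at h
          left
          rw [h.1, h.2]
          exact hu
        · simp only at h
          right
          rw [h.1, h.2]
          simpa using hu
      · rintro (h | h)
        · exact ⟨(a, b), h, Or.inl rfl⟩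
        · exact ⟨(a, b - 1), h, Or.inr ⟨rfl, by simp⟩⟩
    · simp only [fa, fb, Bool.true_eq_false, if_true, and_false, and_true, false_or]
      constructor
      · rintro ⟨⟨x, y⟩, hu, h | h⟩
        · simp only [Prod.mk.injEq] at h
          left
          rw [h.1, h.2]
          exact hu
        · simp only at h
          right
          rw [h.1, h.2]
          simpa using hu
      · rintro (h | h)
        · exact ⟨(a, b), h, Or.inl rfl⟩
        · exact ⟨(a - 1, b), h, Or.inr ⟨by simp, rfl⟩⟩
  have e2 : ∑ e ∈ (LF A).filter (fun e => fa e ∈ A), g e =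
      ∑ u ∈ A, (g (u, false) + g (u, true)) := by
    rw [← Finset.sum_fiberwise_of_maps_to (s := (LF A).filter (fun e => fa e ∈ A)) (t := A)
      (g := fa) (fun e he => (Finset.mem_filter.1 he).2)]
    apply Finset.sum_congr rfl
    intro u hu
    have e3 : ((LF A).filter (fun e => fa e ∈ A)).filter (fun e => fa e = u) =
        {(u, false), (u, true)} := by
      ext e
      rw [Finset.mem_filter, Finset.mem_filter, mem_LF, Finset.mem_insert, Finset.mem_singleton]
      obtain ⟨p, c⟩ := e
      constructor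
      · rintro ⟨-, h⟩
        have h' : p = u := h
        subst h'
        cases c
        · exact Or.inl rfl
        · exact Or.inr rfl
      · rintro (h | h)
        · rw [h]
          exact ⟨⟨Or.inl hu, hu⟩, rfl⟩
        · rw [h]
          exact ⟨⟨Or.inl hu, hu⟩, rfl⟩
    rw [e3, Finset.sum_pair (by simp)]
  have e2' : ∑ e ∈ (LF A).filter (fun e => fb e ∈ A), g e =
      ∑ u ∈ A, (g ((u.1, u.2 + 1), false) + g ((u.1 + 1, u.2), true)) := by
    rw [← Finset.sum_fiberwise_of_maps_to (s := (LF A).filter (fun e => fb e ∈ A)) (t := A)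
      (g := fb) (fun e he => (Finset.mem_filter.1 he).2)]
    apply Finset.sum_congr rfl
    intro u hu
    have e3 : ((LF A).filter (fun e => fb e ∈ A)).filter (fun e => fb e = u) =
        {((u.1, u.2 + 1), false), ((u.1 + 1, u.2), true)} := by
      ext e
      rw [Finset.mem_filter, Finset.mem_filter, mem_LF, Finset.mem_insert, Finset.mem_singleton]
      obtain ⟨⟨a, b⟩, c⟩ := e
      obtain ⟨x, y⟩ := u
      constructor
      · rintro ⟨-, h⟩
        cases c
        · left
          have h' : (a, b - 1) = (x, y) := h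
          rw [Prod.mk.injEq] at h'
          rw [Prod.mk.injEq, Prod.mk.injEq]
          exact ⟨⟨h'.1, by simp only; omega⟩, rfl⟩
        · right
          have h' : (a - 1, b) = (x, y) := h
          rw [Prod.mk.injEq] at h'
          rw [Prod.mk.injEq, Prod.mk.injEq]
          exact ⟨⟨by simp only; omega, h'.2⟩, rfl⟩
      · rintro (h | h)
        · have h' : fb ((a, b), c) = (x, y) := by
            rw [h]
            simp [fb]
          rw [h']
          exact ⟨⟨Or.inr hu, hu⟩, rfl⟩
        · have h' : fb ((a, b), c) = (x, y) := by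
            rw [h]
            simp [fb]
          rw [h']
          exact ⟨⟨Or.inr hu, hu⟩, rfl⟩
    rw [e3, Finset.sum_pair (by simp)]
  rw [e1, e2, e2', ← Finset.sum_add_distrib]

private lemma gf_walls_even (A : Finset Pt) : Even' (walls A) := by
  have h2 : ∀ x : Pt → ZMod 2, x + x = 0 := by
    intro x
    funext p
    exact gf_two _
  change bdy bdV (walls A) = 0
  unfold bdy
  rw [gf_walls h2]
  apply Finset.sum_eq_zero
  rintro ⟨x, y⟩ -
  simp only [bdV, src, tgt, if_true, Bool.false_eq_true, if_false]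
  have e : ∀ a b c d : Pt → ZMod 2, a + b + (a + c) + (c + d + (b + d)) = 0 := by
    intro a b c d
    have : a + b + (a + c) + (c + d + (b + d)) = (a + a) + (b + b) + (c + c) + (d + d) := by abel
    rw [this, h2 a, h2 b, h2 c, h2 d]
    simp
  exact e _ _ _ _

private lemma gf_walls_cnt (A : Finset Pt) (u : Pt) :
    ((cnt (walls A) u : ℕ) : ZMod 2) = if u ∈ A then 1 else 0 := by
  rw [gf_cnt, gf_walls gf_two]
  have hsum : ∑ v ∈ A, (if v = u then (1 : ZMod 2) else 0) = if u ∈ A then 1 else 0 :=
    Finset.sum_ite_eq' A u _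
  rw [← hsum]
  apply Finset.sum_congr rfl
  rintro ⟨x, y⟩ -
  obtain ⟨a, b⟩ := u
  simp only [gfPhi, Prod.mk.injEq, Bool.true_eq_false, false_and, if_false, add_zero, true_and]
  by_cases hx : x = a
  · subst hx
    rcases lt_trichotomy y b with hb | hb | hb
    · simp [show ¬ b < y by omega, show ¬ b < y + 1 by omega, show y ≠ b by omega]
    · subst hb
      simp
    · simp [hb, show b < y + 1 by omega, show y ≠ b by omega]
      decide
  · simp [hx]

private lemma gf_odd (n : ℕ) : Odd n ↔ (n : ZMod 2) = 1 := ZMod.natCast_eq_one_iff_odd.symm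

private lemma gf_evn (n : ℕ) : Even n ↔ (n : ZMod 2) = 0 := ZMod.natCast_eq_zero_iff_even.symm

private lemma gf_sgn (w w' : Finset Edge) (u : Pt) : sgn (w ∆ w') u = sgn w u * sgn w' u := by
  unfold sgn
  have h := gf_symm gf_two (gfPhi u) w w'
  rw [← gf_cnt, ← gf_cnt, ← gf_cnt] at h
  have h1 : (cnt (w ∆ w') u : ZMod 2) = ((cnt w u + cnt w' u : ℕ) : ZMod 2) := by
    rw [h]
    push_cast
    rfl
  rw [← pow_add]
  rcases Nat.even_or_odd (cnt (w ∆ w') u) with h3 | h3
  · have h4 : Even (cnt w u + cnt w' u) := by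
      rw [gf_evn] at h3 ⊢
      rw [← h1]
      exact h3
    rw [h3.neg_one_pow, h4.neg_one_pow]
  · have h4 : Odd (cnt w u + cnt w' u) := by
      rw [gf_odd] at h3 ⊢
      rw [← h1]
      exact h3
    rw [h3.neg_one_pow, h4.neg_one_pow]

private lemma gf_fact1 (w : Finset Edge) (h : Even' w) (e : Edge) :
    Odd (cnt w (fa e) + cnt w (fb e)) ↔ e ∈ w := by
  rw [gf_odd]
  push_cast
  rw [gf_one w h e]
  by_cases he : e ∈ w <;> simp [he]

/-- The number of horizontal edges in a column is even. -/
private lemma gf_column (w : Finset Edge) (h : Even' w) (i : ℤ) :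
    ∑ e ∈ w, (if e.2 = false ∧ e.1.1 = i then (1 : ZMod 2) else 0) = 0 := by
  have h1 := gf_even w h (fun p => p.1 ≤ i)
  refine Eq.trans (Finset.sum_congr rfl ?_) h1
  rintro ⟨⟨a, b⟩, c⟩ -
  simp only [src, tgt]
  cases c
  · simp only [true_and, Bool.false_eq_true, if_false]
    rcases lt_trichotomy a i with ha | ha | ha
    · simp [show a ≠ i by omega, show a ≤ i by omega, show a + 1 ≤ i by omega]
      decide
    · subst ha
      simp
    · simp [show a ≠ i by omega, show ¬ a ≤ i by omega, show ¬ a + 1 ≤ i by omega]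
  · simp only [Bool.true_eq_false, false_and, if_false, if_true]
    exact (gf_two _).symm

private lemma gf_mem_box (p z : Pt) (m : ℕ) :
    p ∈ box z m ↔ (z.1 - m ≤ p.1 ∧ p.1 ≤ z.1 + m) ∧ (z.2 - m ≤ p.2 ∧ p.2 ≤ z.2 + m) := by
  unfold box
  rw [Finset.mem_product, Finset.mem_Icc, Finset.mem_Icc]

private lemma gf_five (w : Finset Edge) (z : Pt) (m : ℕ) (h : Even' w) (hw : w ⊆ EB (box z m))
    (u : Pt) (hu : u ∉ box z m) : Even (cnt w u) := by
  have hb : ∀ e ∈ w, src e ∈ box z m ∧ tgt e ∈ box z m := by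
    intro e he
    have h1 := hw he
    unfold EB at h1
    exact (Finset.mem_filter.1 h1).2
  rw [gf_evn, gf_cnt]
  by_cases c1 : z.1 - m ≤ u.1 ∧ u.1 ≤ z.1 + m
  · by_cases c2 : u.2 < z.2 - m
    · rw [← gf_column w h u.1]
      apply Finset.sum_congr rfl
      intro e he
      have h1 := (gf_mem_box _ _ _).1 (hb e he).1
      have h2 : (src e).2 = e.1.2 := rfl
      unfold gfPhi
      have h3 : u.2 < e.1.2 := by
        rw [← h2]
        omega
      simp only [h3, and_true]
    · have c3 : z.2 + m < u.2 := by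
        by_contra hcon
        exact hu ((gf_mem_box _ _ _).2 ⟨c1, by omega, by omega⟩)
      apply Finset.sum_eq_zero
      intro e he
      have h1 := (gf_mem_box _ _ _).1 (hb e he).1
      have h2 : (src e).2 = e.1.2 := rfl
      unfold gfPhi
      rw [if_neg]
      rintro ⟨-, -, h3⟩
      rw [← h2] at h3
      omega
  · apply Finset.sum_eq_zero
    intro e he
    have h1 := (gf_mem_box _ _ _).1 (hb e he).1
    have h2 : (src e).1 = e.1.1 := rfl
    unfold gfPhi
    rw [if_neg]
    rintro ⟨-, h3, -⟩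
    rw [← h2] at h3
    omega

theorem gridFacts : GridFacts := by
  refine ⟨gf_fact1, ?_, ?_, ?_, gf_five⟩
  · intro A
    refine ⟨gf_walls_even A, Finset.filter_subset _ _, ?_⟩
    intro u
    rw [gf_odd, gf_walls_cnt]
    by_cases hu : u ∈ A <;> simp [hu]
  · intro w w'
    refine ⟨?_, gf_sgn w w'⟩
    intro h h'
    have h2 : ∀ x : Pt → ZMod 2, x + x = 0 := by
      intro x
      funext p
      exact gf_two _
    change bdy bdV (w ∆ w') = 0
    have e1 : bdy bdV w = 0 := h
    have e2 : bdy bdV w' = 0 := h'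
    unfold bdy at e1 e2 ⊢
    rw [gf_symm h2, e1, e2, add_zero]
  · intro w w' h h' hpar
    ext e
    rw [← gf_fact1 w h e, ← gf_fact1 w' h' e, Nat.odd_add, Nat.odd_add, ← Nat.not_even_iff_odd,
      ← Nat.not_even_iff_odd, hpar, hpar]

end Pool.Agent.Lib.MP_6d40c9_pr
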