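import Pool.Agent.Lib.MP_6d40c9_pr.SpecG

/-!
# MP_6d40c9_pr: the high temperature expansion
-/

set_option autoImplicit false

namespace Pool.Agent.Lib.MP_6d40c9_pr

open Finset
open scoped BigOperators symmDiff

private noncomputable def ht_g (A : Finset Pt) (u : Pt) : ℝ := if u ∈ A then -1 else 1

private def ht_k (U : Finset Pt) (η : Finset Edge) (u : Pt) : ℕ :=
  ∑ e ∈ η, ((if fa e = u then 1 else 0) + (if fb e = u then 1 else 0)) + (if u ∈ U then 1 else 0)

private lemma ht_sp (F A : Finset Pt) (ζ : Pt → ℝ) (v : Pt) :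
    sp F A ζ v = (if v ∈ F then 1 else ζ v) *
      ∏ u ∈ F, ht_g A u ^ (if v = u then 1 else 0) := by
  rw [Finset.prod_pow_boole]
  unfold sp ht_g
  by_cases h : v ∈ F <;> simp [h]

private lemma ht_edge (F A : Finset Pt) (ζ : Pt → ℝ) (y : Edge → ℝ) (e : Edge) :
    y e * (sp F A ζ (fa e) * sp F A ζ (fb e)) = (chiO F ζ e * y e) *
      ∏ u ∈ F, ht_g A u ^ ((if fa e = u then 1 else 0) + (if fb e = u then 1 else 0)) := by
  rw [ht_sp F A ζ (fa e), ht_sp F A ζ (fb e)]
  simp only [pow_add, Finset.prod_mul_distrib]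
  unfold chiO
  ring

private lemma ht_U (F A : Finset Pt) (ζ : Pt → ℝ) (U : Finset Pt) (hU : U ⊆ F) :
    ∏ u ∈ U, sp F A ζ u = ∏ u ∈ F, ht_g A u ^ (if u ∈ U then 1 else 0) := by
  have h1 : ∏ u ∈ F, ht_g A u ^ (if u ∈ U then 1 else 0) =
      ∏ u ∈ F, if u ∈ U then ht_g A u else 1 := by
    apply Finset.prod_congr rfl
    intro u _
    split_ifs <;> simp
  rw [h1, Finset.prod_ite_mem, Finset.inter_eq_right.mpr hU]
  apply Finset.prod_congr rfl
  intro u hu
  unfold sp ht_g
  simp [hU hu]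

private lemma ht_term (F A : Finset Pt) (ζ : Pt → ℝ) (y : Edge → ℝ) (U : Finset Pt)
    (hU : U ⊆ F) (η : Finset Edge) :
    (∏ e ∈ η, y e * (sp F A ζ (fa e) * sp F A ζ (fb e))) * ∏ u ∈ U, sp F A ζ u =
      (∏ e ∈ η, (chiO F ζ e * y e)) * ∏ u ∈ F, ht_g A u ^ ht_k U η u := by
  rw [ht_U F A ζ U hU]
  simp only [ht_edge]
  rw [Finset.prod_mul_distrib, Finset.prod_comm, mul_assoc, ← Finset.prod_mul_distrib]
  congr 1
  apply Finset.prod_congr rfl
  intro u _
  unfold ht_k
  rw [Finset.prod_pow_eq_pow_sum, ← pow_add]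

private lemma ht_sumA (F : Finset Pt) (k : Pt → ℕ) :
    ∑ A ∈ F.powerset, ∏ u ∈ F, ht_g A u ^ k u = ∏ u ∈ F, ((-1 : ℝ) ^ k u + 1) := by
  rw [Finset.prod_add]
  apply Finset.sum_congr rfl
  intro A hA
  have hAF := Finset.mem_powerset.mp hA
  rw [← Finset.prod_sdiff hAF, mul_comm]
  congr 1
  · apply Finset.prod_congr rfl
    intro u hu
    unfold ht_g
    simp [hu]
  · apply Finset.prod_congr rfl
    intro u hu
    have := (Finset.mem_sdiff.mp hu).2
    unfold ht_g
    simp [this]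

private lemma ht_prod (F : Finset Pt) (k : Pt → ℕ) [Decidable (∀ u ∈ F, Even (k u))] :
    ∏ u ∈ F, ((-1 : ℝ) ^ k u + 1) = if (∀ u ∈ F, Even (k u)) then 2 ^ F.card else 0 := by
  split_ifs with h
  · rw [← Finset.prod_const]
    apply Finset.prod_congr rfl
    intro u hu
    rw [(h u hu).neg_one_pow]
    norm_num
  · push Not at h
    obtain ⟨u, hu, hodd⟩ := h
    apply Finset.prod_eq_zero hu
    rw [(Nat.not_even_iff_odd.mp hodd).neg_one_pow]
    norm_num

private lemma ht_par (F : Finset Pt) (U : Finset Pt) (hU : U ⊆ F) (η : Finset Edge) :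
    (∀ u ∈ F, Even (ht_k U η u)) ↔ bdy (bdFc F) η = pts U := by
  have hb : ∀ v, bdy (bdFc F) η v = if v ∈ F then
      ∑ e ∈ η, (((if fa e = v then 1 else 0) + (if fb e = v then 1 else 0) : ℕ) : ZMod 2)
      else 0 := by
    intro v
    unfold bdy
    rw [Finset.sum_apply]
    split_ifs with h
    · apply Finset.sum_congr rfl
      intro e _
      unfold bdFc pt
      rw [if_pos h]
      simp only [Pi.add_apply, Pi.single_apply]
      push_cast
      simp only [eq_comm]
    · apply Finset.sum_eq_zero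
      intro e _
      unfold bdFc
      rw [if_neg h]
  have hp : ∀ v, pts U v = ((if v ∈ U then 1 else 0 : ℕ) : ZMod 2) := by
    intro v
    unfold pts
    rw [Finset.sum_apply]
    unfold pt
    simp only [Pi.single_apply]
    simp
  have hk : ∀ v, ((ht_k U η v : ℕ) : ZMod 2) =
      ∑ e ∈ η, (((if fa e = v then 1 else 0) + (if fb e = v then 1 else 0) : ℕ) : ZMod 2) +
        ((if v ∈ U then 1 else 0 : ℕ) : ZMod 2) := by
    intro v
    unfold ht_k
    push_cast
    rfl
  constructor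
  · intro h
    funext v
    rw [hb v, hp v]
    split_ifs with h1 h2 h2
    · have := (ZMod.natCast_eq_zero_iff_even).mpr (h v h1)
      rw [hk v, if_pos h2] at this
      exact CharTwo.add_eq_zero.mp this
    · have := (ZMod.natCast_eq_zero_iff_even).mpr (h v h1)
      rw [hk v, if_neg h2] at this
      exact CharTwo.add_eq_zero.mp this
    · exact absurd (hU h2) h1
    · simp
  · intro h u hu
    rw [← ZMod.natCast_eq_zero_iff_even, hk u]
    have := congrFun h u
    rw [hb u, if_pos hu, hp u] at this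
    rw [this]
    exact CharTwo.add_self_eq_zero _

theorem highTemp : HighTemp := by
  classical
  intro F D y ζ U hU
  have h1 : ∀ A ∈ F.powerset, (∏ e ∈ D, (1 + y e * (sp F A ζ (fa e) * sp F A ζ (fb e)))) *
        ∏ u ∈ U, sp F A ζ u =
      ∑ η ∈ D.powerset, (∏ e ∈ η, (chiO F ζ e * y e)) * ∏ u ∈ F, ht_g A u ^ ht_k U η u := by
    intro A _
    rw [Finset.prod_one_add, Finset.sum_mul]
    apply Finset.sum_congr rfl
    intro η _
    exact ht_term F A ζ y U hU η
  rw [Finset.sum_congr rfl h1, Finset.sum_comm]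
  unfold Zp
  rw [Finset.mul_sum]
  apply Finset.sum_congr rfl
  intro η _
  rw [← Finset.mul_sum, ht_sumA, ht_prod]
  by_cases h : ∀ u ∈ F, Even (ht_k U η u)
  · rw [if_pos h, if_pos ((ht_par F U hU η).mp h)]
    ring
  · rw [if_neg h, if_neg (fun h' => h ((ht_par F U hU η).mpr h'))]
    ring

end Pool.Agent.Lib.MP_6d40c9_pr
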