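import Pool.Agent.Lib.MP_6d40c9_pr.SpecG

/-!
# A path from the inside to the outside hits the circuit (MP_6d40c9_pr)
-/

set_option autoImplicit false

namespace Pool.Agent.Lib.MP_6d40c9_pr

open Finset
open scoped BigOperators symmDiff

private theorem hit_step (h : GridFacts) {c : Finset Edge} (hc : Even' c) {e : Edge}
    (hv : ¬ ∃ e' ∈ c, src e' = tgt e ∨ tgt e' = tgt e) :
    Odd (cnt c (src e)) ↔ Odd (cnt c (tgt e)) := by
  obtain ⟨⟨i, j⟩, b⟩ := e
  cases b
  · -- horizontal edge: the vertical edge at the second corner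
    have h1 := h.1 c hc ((i + 1, j), true)
    have h2 : ((i + 1, j), true) ∉ c := fun h3 => hv ⟨_, h3, Or.inl rfl⟩
    have h3 : ¬ Odd (cnt c (i + 1, j) + cnt c (i + 1 - 1, j)) := fun h4 => h2 (h1.1 h4)
    rw [add_sub_cancel_right, Nat.not_odd_iff_even, Nat.even_add] at h3
    change Odd (cnt c (i, j)) ↔ Odd (cnt c (i + 1, j))
    rw [← Nat.not_even_iff_odd, ← Nat.not_even_iff_odd, h3]
  · have h1 := h.1 c hc ((i, j + 1), false)
    have h2 : ((i, j + 1), false) ∉ c := fun h3 => hv ⟨_, h3, Or.inl rfl⟩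
    have h3 : ¬ Odd (cnt c (i, j + 1) + cnt c (i, j + 1 - 1)) := fun h4 => h2 (h1.1 h4)
    rw [add_sub_cancel_right, Nat.not_odd_iff_even, Nat.even_add] at h3
    change Odd (cnt c (i, j)) ↔ Odd (cnt c (i, j + 1))
    rw [← Nat.not_even_iff_odd, ← Nat.not_even_iff_odd, h3]

theorem hit (h : GridFacts) : Hit := by
  intro c ω a b hc hR
  unfold Reach at hR
  induction hR using Relation.ReflTransGen.head_induction_on with
  | refl =>
    intro h1 h2
    exact absurd h2 (Nat.not_even_iff_odd.2 h1)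
  | head h' hr ih =>
    rename_i p q
    intro h1 h2
    by_cases hp : ∃ e ∈ c, src e = p ∨ tgt e = p
    · exact ⟨p, hp, Relation.ReflTransGen.refl, hr.head h'⟩
    by_cases hq : ∃ e ∈ c, src e = q ∨ tgt e = q
    · exact ⟨q, hq, Relation.ReflTransGen.single h', hr⟩
    have hpq : Odd (cnt c q) := by
      obtain ⟨e, -, ⟨e1, e2⟩ | ⟨e1, e2⟩⟩ := h'
      · have h3 := hit_step h hc (e := e) (by rwa [e2])
        rw [e1, e2] at h3
        exact h3.1 h1
      · have h3 := hit_step h hc (e := e) (by rwa [e2])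
        rw [e1, e2] at h3
        exact h3.2 h1
    obtain ⟨v, hv, r1, r2⟩ := ih hpq h2
    exact ⟨v, hv, r1.head h', r2⟩

end Pool.Agent.Lib.MP_6d40c9_pr
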