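import Pool.Agent.Lib.MP_6d40c9_pr.SpecG

set_option autoImplicit false

namespace Pool.Agent.Lib.MP_6d40c9_pr

open Finset
open scoped BigOperators symmDiff

/-! ### Reindexing by `iota` -/

private theorem idents_two (g : Pt → ZMod 2) : g + g = 0 := by
  funext v
  exact CharTwo.add_self_eq_zero (g v)

private theorem idents_src (e : Edge) : src (iota e) = fb e := by
  obtain ⟨v, b⟩ := e
  cases b <;> rfl

private theorem idents_tgt (e : Edge) : tgt (iota e) = fa e := by
  obtain ⟨v, b⟩ := e
  cases b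
  · simp [iota, tgt, fa]
  · simp [iota, tgt, fa]

private theorem idents_inj : Function.Injective iota := by
  rintro ⟨v, b⟩ ⟨w, c⟩ h
  cases b <;> cases c <;> simp [iota] at h
  · exact Prod.ext (Prod.ext h.1 (by simpa using h.2)) rfl
  · exact Prod.ext (Prod.ext (by simpa using h.1) h.2) rfl

private theorem idents_mem_LF (F : Finset Pt) (e : Edge) : e ∈ LF F ↔ fa e ∈ F ∨ fb e ∈ F := by
  obtain ⟨⟨i, j⟩, b⟩ := e
  simp only [LF, mem_biUnion, mem_insert, mem_singleton]
  cases b
  · simp only [Prod.mk.injEq, fa, fb]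
    constructor
    · rintro ⟨⟨a, c⟩, hu, h | h | h | h⟩
      · left; rw [h.1]; exact hu
      · simp at h
      · right
        simp only at h ⊢
        obtain ⟨⟨h1, h2⟩, -⟩ := h
        subst h1 h2
        simpa using hu
      · simp at h
    · rintro (h | h)
      · exact ⟨_, h, Or.inl ⟨rfl, trivial⟩⟩
      · refine ⟨_, h, Or.inr (Or.inr (Or.inl ?_))⟩
        simp
  · simp only [Prod.mk.injEq, fa, fb]
    constructor
    · rintro ⟨⟨a, c⟩, hu, h | h | h | h⟩
      · simp at h
      · left; rw [h.1]; exact hu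
      · simp at h
      · right
        simp only at h ⊢
        obtain ⟨⟨h1, h2⟩, -⟩ := h
        subst h1 h2
        simpa using hu
    · rintro (h | h)
      · exact ⟨_, h, Or.inr (Or.inl ⟨rfl, trivial⟩)⟩
      · refine ⟨_, h, Or.inr (Or.inr (Or.inr ?_))⟩
        simp

private theorem idents_mem_EV (F : Finset Pt) (e : Edge) : e ∈ EV F ↔ src e ∈ F ∨ tgt e ∈ F := by
  obtain ⟨⟨i, j⟩, b⟩ := e
  simp only [EV, mem_biUnion, mem_insert, mem_singleton]
  cases b
  · simp only [Prod.mk.injEq, src, tgt]
    constructor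
    · rintro ⟨⟨a, c⟩, hu, h | h | h | h⟩
      · left; rw [h.1]; exact hu
      · simp at h
      · right
        simp only at h ⊢
        obtain ⟨⟨h1, h2⟩, -⟩ := h
        subst h1 h2
        simpa using hu
      · simp at h
    · rintro (h | h)
      · exact ⟨_, h, Or.inl ⟨rfl, trivial⟩⟩
      · refine ⟨_, h, Or.inr (Or.inr (Or.inl ?_))⟩
        simp
  · simp only [Prod.mk.injEq, src, tgt]
    constructor
    · rintro ⟨⟨a, c⟩, hu, h | h | h | h⟩
      · simp at h
      · left; rw [h.1]; exact hu
      · simp at h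
      · right
        simp only at h ⊢
        obtain ⟨⟨h1, h2⟩, -⟩ := h
        subst h1 h2
        simpa using hu
    · rintro (h | h)
      · exact ⟨_, h, Or.inr (Or.inl ⟨rfl, trivial⟩)⟩
      · refine ⟨_, h, Or.inr (Or.inr (Or.inr ?_))⟩
        simp

private theorem idents_image (F : Finset Pt) : (LF F).image iota = EV F := by
  ext e
  rw [mem_image, idents_mem_EV]
  constructor
  · rintro ⟨a, ha, rfl⟩
    rw [idents_src, idents_tgt]
    exact ((idents_mem_LF F a).1 ha).symm
  · intro h
    have hex : ∃ a, iota a = e := by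
      obtain ⟨⟨i, j⟩, b⟩ := e
      cases b
      · exact ⟨((i + 1, j), true), by simp [iota]⟩
      · exact ⟨((i, j + 1), false), by simp [iota]⟩
    obtain ⟨a, rfl⟩ := hex
    rw [idents_src, idents_tgt] at h
    exact ⟨a, (idents_mem_LF F a).2 h.symm, rfl⟩

private theorem idents_bd (F : Finset Pt) (e : Edge) : bdFc F e = bdR F (iota e) := by
  funext v
  unfold bdFc bdR bdV
  rw [idents_src, idents_tgt]
  unfold pt
  rw [add_comm]

private theorem idents_Zp (F : Finset Pt) (y : Edge → ℝ) (f : Pt → ZMod 2) :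
    Zp (bdFc F) (LF F) (fun e => y (iota e)) f = Zp (bdR F) (EV F) y f := by
  unfold Zp
  rw [← idents_image]
  symm
  apply Finset.sum_bij' (i := fun η _ => (LF F).filter (fun e => iota e ∈ η))
    (j := fun η _ => η.image iota)
  · intro η _
    rw [mem_powerset]
    exact filter_subset _ _
  · intro η hη
    rw [mem_powerset] at hη ⊢
    exact image_subset_image hη
  · intro η hη
    rw [mem_powerset] at hη
    ext e
    rw [mem_image]
    constructor
    · rintro ⟨a, ha, rfl⟩
      exact (mem_filter.1 ha).2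
    · intro he
      obtain ⟨a, ha, rfl⟩ := mem_image.1 (hη he)
      exact ⟨a, mem_filter.2 ⟨ha, he⟩, rfl⟩
  · intro η hη
    rw [mem_powerset] at hη
    ext e
    rw [mem_filter, mem_image]
    constructor
    · rintro ⟨-, a, ha, hae⟩
      rw [← idents_inj hae]; exact ha
    · intro he
      exact ⟨hη he, e, he, rfl⟩
  · intro η hη
    rw [mem_powerset] at hη
    have himg : ((LF F).filter (fun e => iota e ∈ η)).image iota = η := by
      ext e
      rw [mem_image]
      constructor
      · rintro ⟨a, ha, rfl⟩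
        exact (mem_filter.1 ha).2
      · intro he
        obtain ⟨a, ha, rfl⟩ := mem_image.1 (hη he)
        exact ⟨a, mem_filter.2 ⟨ha, he⟩, rfl⟩
    have h1 : bdy (bdR F) η = bdy (bdFc F) ((LF F).filter (fun e => iota e ∈ η)) := by
      unfold bdy
      conv_lhs => rw [← himg]
      rw [sum_image (fun a _ b _ h => idents_inj h)]
      exact sum_congr rfl (fun e _ => (idents_bd F e).symm)
    have h2 : ∏ e ∈ η, y e = ∏ e ∈ (LF F).filter (fun e => iota e ∈ η), y (iota e) := by
      conv_lhs => rw [← himg]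
      rw [prod_image (fun a _ b _ h => idents_inj h)]
    rw [h1, h2]

/-! ### Small facts -/

private theorem idents_xc : 0 ≤ xc ∧ xc ≤ 1 := by
  unfold xc
  have h1 : (1 : ℝ) ≤ Real.sqrt 2 := by
    rw [Real.le_sqrt (by norm_num) (by norm_num)]; norm_num
  have h2 : Real.sqrt 2 ≤ 2 := by
    rw [Real.sqrt_le_left (by norm_num)]; norm_num
  constructor <;> linarith

private theorem idents_self_mem (z : Pt) (N : ℕ) : z ∈ box z N := by
  simp [box]

private theorem idents_box_mono (z : Pt) {n N : ℕ} (h : n ≤ N) : box z n ⊆ box z N := by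
  intro a ha
  simp only [box, mem_product, mem_Icc] at ha ⊢
  have : (n : ℤ) ≤ N := by exact_mod_cast h
  refine ⟨⟨?_, ?_⟩, ?_, ?_⟩ <;> linarith [ha.1.1, ha.1.2, ha.2.1, ha.2.2]

private theorem idents_mem_LI (F : Finset Pt) (e : Edge) : e ∈ LI F ↔ fa e ∈ F ∧ fb e ∈ F := by
  rw [LI, mem_filter, idents_mem_LF]
  tauto

private theorem idents_mem_EB (F : Finset Pt) (e : Edge) : e ∈ EB F ↔ src e ∈ F ∧ tgt e ∈ F := by
  rw [EB, mem_filter, idents_mem_EV]
  tauto

private theorem idents_sgs_one (z : Pt) : sgs {z} = fun w => sgn w z := by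
  funext w
  simp [sgs]

private theorem idents_pts_one (z : Pt) : pts {z} = pt z := by
  simp [pts]

private theorem idents_two_pts (u v : Pt) : ∃ U : Finset Pt, (∀ F : Finset Pt, u ∈ F → v ∈ F →
    U ⊆ F) ∧ (sgs U = fun w => sgn w u * sgn w v) ∧ pts U = pt u + pt v := by
  by_cases h : u = v
  · subst h
    refine ⟨∅, fun F _ _ => empty_subset _, ?_, ?_⟩
    · funext w
      unfold sgs sgn
      rw [prod_empty, ← pow_add, ← two_mul, pow_mul]
      norm_num
    · rw [idents_two]
      simp [pts]
  · refine ⟨{u, v}, ?_, ?_, ?_⟩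
    · intro F hu hv a ha
      rcases mem_insert.1 ha with rfl | ha
      · exact hu
      · rw [mem_singleton.1 ha]; exact hv
    · funext w
      unfold sgs
      rw [prod_pair h]
    · unfold pts
      rw [sum_pair h]

/-! ### Connectivity of the box -/

private theorem idents_reach_symm (ω : Finset Edge) (a b : Pt) (h : Reach ω a b) : Reach ω b a := by
  induction h with
  | refl => exact Relation.ReflTransGen.refl
  | tail _ hbc ih =>
    obtain ⟨e, he, h | h⟩ := hbc
    · exact Relation.ReflTransGen.head ⟨e, he, Or.inr h⟩ ih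
    · exact Relation.ReflTransGen.head ⟨e, he, Or.inl h⟩ ih

private theorem idents_reach_mono (ω ω' : Finset Edge) (h : ω ⊆ ω') (a b : Pt)
    (hr : Reach ω a b) : Reach ω' a b := by
  induction hr with
  | refl => exact Relation.ReflTransGen.refl
  | tail _ hbc ih =>
    obtain ⟨e, he, h'⟩ := hbc
    exact ih.tail ⟨e, h he, h'⟩

private theorem idents_hor (z : Pt) (n : ℕ) (y p : ℤ) (hp : (p, y) ∈ box z n) (q : ℤ)
    (hpq : p ≤ q) : (q, y) ∈ box z n → Reach (EB (box z n)) (p, y) (q, y) := by
  induction q, hpq using Int.leInduction with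
  | base => intro _; exact Relation.ReflTransGen.refl
  | succ q hpq ih =>
    intro hq
    have hq' : (q, y) ∈ box z n := by
      simp only [box, mem_product, mem_Icc] at hp hq ⊢
      refine ⟨⟨?_, ?_⟩, ?_, ?_⟩ <;> linarith [hp.1.1, hp.1.2, hp.2.1, hp.2.2, hq.1.1, hq.1.2]
    refine (ih hq').tail ⟨((q, y), false), ?_, Or.inl ⟨rfl, rfl⟩⟩
    rw [idents_mem_EB]
    exact ⟨hq', hq⟩

private theorem idents_ver (z : Pt) (n : ℕ) (x p : ℤ) (hp : (x, p) ∈ box z n) (q : ℤ)
    (hpq : p ≤ q) : (x, q) ∈ box z n → Reach (EB (box z n)) (x, p) (x, q) := by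
  induction q, hpq using Int.leInduction with
  | base => intro _; exact Relation.ReflTransGen.refl
  | succ q hpq ih =>
    intro hq
    have hq' : (x, q) ∈ box z n := by
      simp only [box, mem_product, mem_Icc] at hp hq ⊢
      refine ⟨⟨?_, ?_⟩, ?_, ?_⟩ <;> linarith [hp.1.1, hp.1.2, hp.2.1, hp.2.2, hq.2.1, hq.2.2]
    refine (ih hq').tail ⟨((x, q), true), ?_, Or.inl ⟨rfl, rfl⟩⟩
    rw [idents_mem_EB]
    exact ⟨hq', hq⟩

private theorem idents_conn (z : Pt) (n : ℕ) (a : Pt) (ha : a ∈ box z n) :
    Reach (EB (box z n)) z a := by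
  obtain ⟨z1, z2⟩ := z
  obtain ⟨a1, a2⟩ := a
  have hz := idents_self_mem (z1, z2) n
  have hm : (a1, z2) ∈ box (z1, z2) n := by
    simp only [box, mem_product, mem_Icc] at ha hz ⊢
    exact ⟨ha.1, hz.2⟩
  have h1 : Reach (EB (box (z1, z2) n)) (z1, z2) (a1, z2) := by
    rcases le_total z1 a1 with h | h
    · exact idents_hor _ n z2 z1 hz a1 h hm
    · exact idents_reach_symm _ _ _ (idents_hor _ n z2 a1 hm z1 h hz)
  have h2 : Reach (EB (box (z1, z2) n)) (a1, z2) (a1, a2) := by
    rcases le_total z2 a2 with h | h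
    · exact idents_ver _ n a1 z2 hm a2 h ha
    · exact idents_reach_symm _ _ _ (idents_ver _ n a1 a2 ha z2 h hm)
  exact Relation.ReflTransGen.trans h1 h2

/-! ### The theorem -/

theorem idents (h0 : BoxSimp) (h1 : Dual) (h2 : Coupling) (h3 : ReachFacts) (h4 : Transl) :
    Idents := by
  have hxc := idents_xc
  -- the general identity
  have gen : ∀ (z : Pt) (N : ℕ) (B U : Finset Pt), B ⊆ box z N → U ⊆ box z N →
      lE (LF (box z N) \ LI B) (sgs U) =
        fkB z N (fun e => if src e ∈ B ∧ tgt e ∈ B then 1 else xc)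
          (fun ω => Conn (bdR (box z N)) ω (pts U)) := by
    intro z N B U hB hU
    have hM : LI B ⊆ LF (box z N) := by
      intro e he
      rw [idents_mem_LI] at he
      rw [idents_mem_LF]
      exact Or.inl (hB he.1)
    have e1 := h1 (box z N) (h0.1 z N) (LI B) hM U hU
    rw [e1]
    have e2 : (fun e => if e ∈ LI B then (1 : ℝ) else xc) =
        fun e => (fun e' => if src e' ∈ B ∧ tgt e' ∈ B then (1 : ℝ) else xc) (iota e) := by
      funext e
      simp only [idents_src, idents_tgt, idents_mem_LI]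
      by_cases h : fa e ∈ B ∧ fb e ∈ B
      · rw [if_pos h, if_pos h.symm]
      · rw [if_neg h, if_neg (fun h' => h h'.symm)]
    rw [e2, idents_Zp (box z N) (fun e' => if src e' ∈ B ∧ tgt e' ∈ B then (1 : ℝ) else xc),
      idents_Zp (box z N) (fun e' => if src e' ∈ B ∧ tgt e' ∈ B then (1 : ℝ) else xc)]
    unfold fkB
    have hx : ∀ e ∈ EV (box z N), (0 : ℝ) ≤ (fun e' => if src e' ∈ B ∧ tgt e' ∈ B
        then (1 : ℝ) else xc) e ∧ (fun e' => if src e' ∈ B ∧ tgt e' ∈ B
        then (1 : ℝ) else xc) e ≤ 1 := by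
      intro e _
      simp only
      split_ifs
      · exact ⟨zero_le_one, le_refl _⟩
      · exact hxc
    exact ((h2 Edge (Pt → ZMod 2) idents_two (bdR (box z N)) (EV (box z N)) _
      (fun e he => (hx e he).1) (fun e he => (hx e he).2)).2.2.2.1 (pts U)).symm
  have gen0 : ∀ (z : Pt) (N : ℕ) (U : Finset Pt), U ⊆ box z N →
      lE (LF (box z N)) (sgs U) =
        fkB z N (fun _ => xc) (fun ω => Conn (bdR (box z N)) ω (pts U)) := by
    intro z N U hU
    have h := gen z N ∅ U (empty_subset _) hU
    have e1 : LI (∅ : Finset Pt) = ∅ := by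
      apply Finset.eq_empty_of_forall_notMem
      intro e he
      rw [idents_mem_LI] at he
      simp at he
    rw [e1, sdiff_empty] at h
    rw [h]
    congr 1
  refine ⟨?_, ?_, ?_⟩
  · intro z N
    rw [← (h4.2.2.1 z N N).2.1]
    unfold c1
    rw [← idents_sgs_one, gen0 z N {z} (singleton_subset_iff.2 (idents_self_mem z N)),
      idents_pts_one]
    congr 1
    funext ω
    rw [h3.2.1 (box z N) ω z (idents_self_mem z N)]
    apply propext
    unfold Arm
    constructor
    · rintro ⟨a, ha, b, hb, hr⟩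
      rw [mem_singleton.1 ha] at hr
      exact ⟨b, hb, hr⟩
    · rintro ⟨b, hb, hr⟩
      exact ⟨z, mem_singleton_self z, b, hb, hr⟩
  · intro z n N hnN
    rw [← (h4.2.2.1 z n N).1]
    unfold c1
    rw [← idents_sgs_one, gen z N (box z n) {z} (idents_box_mono z hnN)
      (singleton_subset_iff.2 (idents_self_mem z N)), idents_pts_one]
    show fkB z N (xblk z n) _ = fkB z N (xblk z n) _
    unfold fkB fkP fkE
    congr 1
    apply sum_congr rfl
    intro ω hω
    rw [mem_powerset] at hω
    by_cases hsub : EB (box z n) ⊆ ω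
    · have hiff : Arm (box z n) (box z N) ω ↔ Conn (bdR (box z N)) ω (pt z) := by
        rw [h3.2.1 (box z N) ω z (idents_self_mem z N)]
        constructor
        · rintro ⟨a, ha, b, hb, hr⟩
          exact ⟨b, hb, Relation.ReflTransGen.trans
            (idents_reach_mono _ _ hsub _ _ (idents_conn z n a ha)) hr⟩
        · rintro ⟨b, hb, hr⟩
          exact ⟨z, idents_self_mem z n, b, hb, hr⟩
      beta_reduce
      by_cases hA : Arm (box z n) (box z N) ω
      · rw [if_pos hA, if_pos (hiff.1 hA)]
      · rw [if_neg hA, if_neg (fun h => hA (hiff.2 h))]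
    · have hz : fkW (bdR (box z N)) (EV (box z N)) (xblk z n) ω = 0 := by
        obtain ⟨e, he, heω⟩ := not_subset.1 hsub
        rw [idents_mem_EB] at he
        have heD : e ∈ EV (box z N) \ ω := by
          rw [mem_sdiff, idents_mem_EV]
          exact ⟨Or.inl (idents_box_mono z hnN he.1), heω⟩
        unfold fkW
        have hx : 1 - xblk z n e = 0 := by
          unfold xblk
          rw [if_pos he, sub_self]
        rw [prod_eq_zero heD hx, mul_zero, mul_zero]
      rw [hz, zero_mul, zero_mul]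
  · intro z N u v hu hv
    obtain ⟨U, hU, hs, hp⟩ := idents_two_pts u v
    have h := gen0 z N U (hU _ hu hv)
    rw [hs, hp] at h
    exact h

end Pool.Agent.Lib.MP_6d40c9_pr
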