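import Pool.Agent.Lib.MP_6d40c9_pr.SpecL
import Pool.Agent.Lib.MP_6d40c9_pr.CompFacts

/-!
# MP_6d40c9_pr: circuits at a macroscopic scale (InCircS)
-/

set_option autoImplicit false

namespace Pool.Agent.Lib.MP_6d40c9_pr

open Finset MeasureTheory Filter Topology TopologicalSpace Metric
open scoped BigOperators

/-- the singleton as a nonempty compact set -/
private noncomputable def inCircPt (z : ℝ × ℝ) : NonemptyCompacts (ℝ × ℝ) :=
  ⟨⟨{z}, isCompact_singleton⟩, ⟨z, rfl⟩⟩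

/-- the test function -/
private noncomputable def inCircPhi (z : ℝ × ℝ) (r : ℝ) (K : LoopSp) : ℝ :=
  ramp (1 / 2) (3 / 4) (dist K.1 (inCircPt z)) *
    (1 - ramp r (2 * r) (infDist z (K.1 : Set (ℝ × ℝ)))) *
    ramp (r / 4) (r / 2) (infDist z (K.2 : Set (ℝ × ℝ))) *
    (1 - ramp (r / 2) r (diam (K.1 : Set (ℝ × ℝ))))

private theorem inCirc_loopFn (h1 : StatFacts) (z : ℝ × ℝ) (r : ℝ) (hr : 0 < r) :
    LoopFn (inCircPhi z r) ∧ ∀ K, 0 ≤ inCircPhi z r K := by
  obtain ⟨⟨hinf, hdiam⟩, hramp, -⟩ := h1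
  have r1 := hramp (1 / 2) (3 / 4) (by norm_num)
  have r2 := hramp r (2 * r) (by linarith)
  have r3 := hramp (r / 4) (r / 2) (by linarith)
  have r4 := hramp (r / 2) r (by linarith)
  refine ⟨⟨?_, r / 2, by linarith, ?_⟩, ?_⟩
  · unfold inCircPhi
    refine ((Continuous.mul ?_ ?_).mul ?_).mul ?_
    · exact r1.1.comp (continuous_fst.dist continuous_const)
    · exact continuous_const.sub (r2.1.comp ((hinf z).comp continuous_fst))
    · exact r3.1.comp ((hinf z).comp continuous_snd)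
    · exact continuous_const.sub (r4.1.comp (hdiam.comp continuous_fst))
  · intro K hK
    have : ramp (r / 2) r (diam (K.1 : Set (ℝ × ℝ))) = 1 := r4.2.2.1 _ hK.le
    unfold inCircPhi
    rw [this]
    ring
  · intro K
    unfold inCircPhi
    refine mul_nonneg (mul_nonneg (mul_nonneg ?_ ?_) ?_) ?_
    · exact (r1.2.1 _).1
    · exact sub_nonneg.2 (r2.2.1 _).2
    · exact (r3.2.1 _).1
    · exact sub_nonneg.2 (r4.2.1 _).2

private theorem inCirc_one (h1 : StatFacts) (z : ℝ × ℝ) (r : ℝ) (hr : 0 < r)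
    (K : NonemptyCompacts (ℝ × ℝ)) (hK : (K : Set (ℝ × ℝ)) ⊆ ball z (1 / 2))
    (hzf : z ∈ fill (K : Set (ℝ × ℝ))) (h2 : 2 * r ≤ infDist z (K : Set (ℝ × ℝ)))
    (h3 : infDist z (K : Set (ℝ × ℝ)) ≤ diam (K : Set (ℝ × ℝ))) :
    inCircPhi z r (K, toNC (fill (K : Set (ℝ × ℝ)))) = 1 := by
  obtain ⟨-, hramp, -, hfill, -⟩ := h1
  have r1 := hramp (1 / 2) (3 / 4) (by norm_num)
  have r2 := hramp r (2 * r) (by linarith)
  have r3 := hramp (r / 4) (r / 2) (by linarith)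
  have r4 := hramp (r / 2) r (by linarith)
  unfold inCircPhi
  have e1 : ramp (1 / 2) (3 / 4) (dist K (inCircPt z)) = 1 := by
    refine r1.2.2.1 _ ?_
    rw [NonemptyCompacts.dist_eq]
    refine hausdorffDist_le_of_mem_dist (by norm_num) ?_ ?_
    · intro x hx
      exact ⟨z, rfl, (mem_ball.1 (hK hx)).le⟩
    · intro x hx
      obtain ⟨y, hy⟩ := K.nonempty
      have hxz : x = z := hx
      rw [hxz]
      exact ⟨y, hy, by rw [dist_comm]; exact (mem_ball.1 (hK hy)).le⟩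
  have e2 : ramp r (2 * r) (infDist z (K : Set (ℝ × ℝ))) = 0 := r2.2.2.2.1 _ h2
  have e3 : ramp (r / 4) (r / 2)
      (infDist z ((toNC (fill (K : Set (ℝ × ℝ))) : NonemptyCompacts (ℝ × ℝ)) : Set (ℝ × ℝ))) = 1 := by
    refine r3.2.2.1 _ ?_
    rw [hfill K, infDist_zero_of_mem hzf]
    positivity
  have e4 : ramp (r / 2) r (diam (K : Set (ℝ × ℝ))) = 0 := r4.2.2.2.1 _ (by linarith)
  simp only
  rw [e1, e2, e3, e4]
  norm_num

private theorem inCirc_ne (h1 : StatFacts) (z : ℝ × ℝ) (r : ℝ) (hr : 0 < r) (K : LoopSp)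
    (hK : inCircPhi z r K ≠ 0) :
    (K.1 : Set (ℝ × ℝ)) ⊆ ball z 1 ∧ r < infDist z (K.1 : Set (ℝ × ℝ)) ∧
      infDist z (K.2 : Set (ℝ × ℝ)) < r / 2 := by
  obtain ⟨-, hramp, -⟩ := h1
  have r1 := hramp (1 / 2) (3 / 4) (by norm_num)
  have r2 := hramp r (2 * r) (by linarith)
  have r3 := hramp (r / 4) (r / 2) (by linarith)
  unfold inCircPhi at hK
  refine ⟨?_, ?_, ?_⟩
  · have hd : dist K.1 (inCircPt z) < 3 / 4 := by
      by_contra hcon
      have : ramp (1 / 2) (3 / 4) (dist K.1 (inCircPt z)) = 0 := r1.2.2.2.1 _ (not_lt.1 hcon)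
      rw [this] at hK
      exact hK (by ring)
    intro x hx
    rw [NonemptyCompacts.dist_eq] at hd
    obtain ⟨y, hy, hxy⟩ := exists_dist_lt_of_hausdorffDist_lt hx hd
      (hausdorffEDist_ne_top_of_nonempty_of_bounded K.1.nonempty (inCircPt z).nonempty
        K.1.isCompact.isBounded (inCircPt z).isCompact.isBounded)
    have hyz : y = z := hy
    rw [hyz] at hxy
    exact mem_ball.2 (by linarith)
  · by_contra hcon
    have : ramp r (2 * r) (infDist z (K.1 : Set (ℝ × ℝ))) = 1 := r2.2.2.1 _ (not_lt.1 hcon)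
    rw [this] at hK
    exact hK (by ring)
  · by_contra hcon
    have : ramp (r / 4) (r / 2) (infDist z (K.2 : Set (ℝ × ℝ))) = 0 :=
      r3.2.2.2.1 _ (not_lt.1 hcon)
    rw [this] at hK
    exact hK (by ring)

theorem inCircS (h1 : StatFacts) (h2 : PortS) (h3 : FillFacts) (h4 : GapS) (h5 : GeoFacts)
    (h6 : LEFacts) : InCircS := by
  intro X _ P _ Ω σ Γ hL ε hε
  obtain ⟨z₀, hz₀⟩ := hL.ne
  -- the radii
  set r : ℕ → ℝ := fun n => 1 / ((n : ℝ) + 8) with hr
  have hrpos : ∀ n, 0 < r n := fun n => by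
    rw [hr]
    positivity
  have hr8 : ∀ n, r n ≤ 1 / 8 := fun n => by
    rw [hr]
    refine one_div_le_one_div_of_le (by norm_num) ?_
    have : (0 : ℝ) ≤ n := Nat.cast_nonneg n
    linarith
  have hrlim : Tendsto r atTop (𝓝 0) := by
    have h7 : Tendsto (fun n : ℕ => (n : ℝ) + 8) atTop atTop :=
      tendsto_atTop_add_const_right _ _ tendsto_natCast_atTop_atTop
    have h8 := h7.inv_tendsto_atTop
    refine h8.congr fun n => ?_
    simp [hr]
  -- the events
  have hmeas : ∀ n, MeasurableSet {ω | 1 / 2 < loopStat (inCircPhi z₀ (r n)) (Γ ω)} := fun n =>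
    measurableSet_lt measurable_const (hL.measW _ (inCirc_loopFn h1 z₀ (r n) (hrpos n)).1)
  have hae : ∀ᵐ ω ∂P, ∀ᶠ n in atTop, 1 / 2 < loopStat (inCircPhi z₀ (r n)) (Γ ω) := by
    filter_upwards [hL.nest.finite, hL.nest.nested z₀ hz₀] with ω hfin hnest
    obtain ⟨K, hKG, hKb, hzK, hzf⟩ := hnest (1 / 2) (by norm_num)
    obtain ⟨hpos, hdiam⟩ := h3.2.2.2.1 (K : Set (ℝ × ℝ)) z₀ K.isCompact K.nonempty hzf hzK
    have hev : ∀ᶠ n in atTop, r n < infDist z₀ (K : Set (ℝ × ℝ)) / 2 :=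
      hrlim.eventually (gt_mem_nhds (by positivity))
    filter_upwards [hev] with n hn
    have hone := inCirc_one h1 z₀ (r n) (hrpos n) K hKb hzf (by linarith) hdiam
    have hst := h1.2.2.1 (Γ ω) hfin (inCircPhi z₀ (r n)) (inCirc_loopFn h1 z₀ (r n) (hrpos n)).1
    have hle := (hst.2.1 (fun K => (inCirc_loopFn h1 z₀ (r n) (hrpos n)).2 K)).2.1 K hKG
    rw [hone] at hle
    linarith
  have hlim : Tendsto (fun n => P.real {ω | 1 / 2 < loopStat (inCircPhi z₀ (r n)) (Γ ω)}) atTop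
      (𝓝 1) := by
    have h7 : Tendsto (fun n => ∫ ω, ({ω | 1 / 2 < loopStat (inCircPhi z₀ (r n)) (Γ ω)} :
        Set X).indicator (fun _ => (1 : ℝ)) ω ∂P) atTop (𝓝 (∫ _ω, (1 : ℝ) ∂P)) := by
      refine tendsto_integral_of_dominated_convergence (fun _ => (1 : ℝ)) ?_ (integrable_const _)
        ?_ ?_
      · intro n
        exact (measurable_const.indicator (hmeas n)).aestronglyMeasurable
      · intro n
        refine Eventually.of_forall fun ω => ?_
        by_cases hω : ω ∈ ({ω | 1 / 2 < loopStat (inCircPhi z₀ (r n)) (Γ ω)} : Set X)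
        · rw [Set.indicator_of_mem hω]
          simp
        · rw [Set.indicator_of_notMem hω]
          simp
      · filter_upwards [hae] with ω hω
        refine tendsto_const_nhds.congr' ?_
        filter_upwards [hω] with n hn
        rw [Set.indicator_of_mem]
        exact hn
    have h8 : (∫ _ω, (1 : ℝ) ∂P) = 1 := by simp
    rw [h8] at h7
    refine h7.congr fun n => ?_
    rw [integral_indicator (hmeas n), setIntegral_const]
    simp
  obtain ⟨n, hn⟩ : ∃ n, 1 - ε / 2 < P.real {ω | 1 / 2 < loopStat (inCircPhi z₀ (r n)) (Γ ω)} :=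
    (hlim.eventually (lt_mem_nhds (by linarith))).exists
  set φ : LoopSp → ℝ := inCircPhi z₀ (r n) with hφ
  have hφL : LoopFn φ := (inCirc_loopFn h1 z₀ (r n) (hrpos n)).1
  obtain ⟨-, hopen⟩ := h2 X P Ω 1 (fun δ w _ => wSt δ φ w) (fun ω _ => loopStat φ (Γ ω))
    (measurable_pi_lambda _ fun _ => hL.measW φ hφL)
    (fun H hH hHb => hL.cvW 1 (fun _ => φ) (fun _ => hφL) H hH hHb)
  obtain ⟨δ₁, hδ₁, hev⟩ := hopen {y | 1 / 2 < y 0}
    (isOpen_lt continuous_const (continuous_apply 0)) (ε / 2) (by linarith)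
  refine ⟨z₀, r n, 1, min δ₁ (r n / 8), hrpos n, ?_, lt_min hδ₁ (by have := hrpos n; positivity), ?_⟩
  · have := hr8 n
    linarith
  intro δ hδ hδ2
  have hδa : δ < δ₁ := lt_of_lt_of_le hδ2 (min_le_left _ _)
  have hδb : 8 * δ ≤ r n := by
    have := (lt_of_lt_of_le hδ2 (min_le_right _ _)).le
    linarith
  have h7 := hev δ hδ hδa
  have h8 : lP (DD Ω δ) (fun w => (fun _ : Fin 1 => wSt δ φ w) ∈ {y : Fin 1 → ℝ | 1 / 2 < y 0}) ≤
      lP (DD Ω δ) (fun w => ∃ c ∈ comps w, K1 δ c ⊆ Metric.ball z₀ 1 ∧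
        ∀ u, ctr δ u ∈ Metric.closedBall z₀ (r n) → Odd (cnt c u)) := by
    refine (h6.2.2.2.2.2.2 (DD Ω δ) _ _ ?_).2.1
    intro w _ hw hwp
    have hwp' : 1 / 2 < wSt δ φ w := hwp
    have hex : ∃ c ∈ comps w, φ (toNC (K1 δ c), toNC (K2 δ c)) ≠ 0 := by
      by_contra hcon
      push Not at hcon
      have : wSt δ φ w = 0 := Finset.sum_eq_zero hcon
      rw [this] at hwp'
      norm_num at hwp'
    obtain ⟨c, hc, hne⟩ := hex
    obtain ⟨hc1, hc2, -⟩ := h1.2.2.2.2 δ w hδ hw c hc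
    obtain ⟨hb, hi1, hi2⟩ := inCirc_ne h1 z₀ (r n) (hrpos n) _ hne
    simp only at hb hi1 hi2
    rw [hc1] at hb hi1
    rw [hc2] at hi2
    have hcE : Even' c := compFacts.2.1 w hw c hc
    have hcN : c.Nonempty := ((compFacts.1 w).1 c hc).2.1
    have hrn := hrpos n
    have hodd : Odd (cnt c (ref δ z₀)) := by
      rcases h4 δ (r n) z₀ c hδ hδb hcE hcN hi1 with h9 | h9
      · exact h9.1
      · have := h9.2
        linarith
    refine ⟨c, hc, hb, fun u hu => ?_⟩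
    have hno : ∀ e ∈ c, ¬ (seg δ e ∩ closedBall z₀ (r n)).Nonempty := by
      intro e he hcon
      have := (h5.2.1 δ (r n) z₀ c hδ hcN).2 ⟨e, he, hcon⟩
      linarith
    have hctr : ctr δ (ref δ z₀) ∈ closedBall z₀ (r n) :=
      closedBall_subset_closedBall (by linarith) (h5.2.2.2.2.2.2 δ z₀ hδ).2
    have hs := h5.2.2.1 δ (r n) z₀ c hδ hcE hno u (ref δ z₀) hu hctr
    unfold sgn at hs
    rw [hodd.neg_one_pow] at hs
    by_contra hcon
    rw [Nat.not_odd_iff_even] at hcon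
    rw [hcon.neg_one_pow] at hs
    norm_num at hs
  have h9 : P.real {ω | (fun _ : Fin 1 => loopStat φ (Γ ω)) ∈ {y : Fin 1 → ℝ | 1 / 2 < y 0}} =
      P.real {ω | 1 / 2 < loopStat φ (Γ ω)} := rfl
  rw [h9] at h7
  linarith

end Pool.Agent.Lib.MP_6d40c9_pr
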