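import Pool.Agent.Lib.MP_6d40c9_pr.SpecL

set_option autoImplicit false

namespace Pool.Agent.Lib.MP_6d40c9_pr

open Finset MeasureTheory Filter Topology TopologicalSpace Metric
open scoped BigOperators

/-- Bump function around a compact set, with a cutoff for the diameter. -/
private noncomputable def inE2Phi (d l : ℝ) (K₀ : NonemptyCompacts (ℝ × ℝ)) (K : LoopSp) : ℝ :=
  ramp l (2 * l) (dist K.1 K₀) * (1 - ramp (d / 2) d (diam (K.1 : Set (ℝ × ℝ))))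

/-- Maximum of two bump functions. -/
private noncomputable def inE2Pair (d l : ℝ) (K₀ K₁ : NonemptyCompacts (ℝ × ℝ)) (K : LoopSp) : ℝ :=
  max (inE2Phi d l K₀ K) (inE2Phi d l K₁ K)

private lemma inE2_cover (A l : ℝ) (hl : 0 < l) :
    ∃ T : Finset (NonemptyCompacts (ℝ × ℝ)), ∀ K : NonemptyCompacts (ℝ × ℝ),
      (K : Set (ℝ × ℝ)) ⊆ closedBall 0 A → ∃ K₀ ∈ T, dist K K₀ < l := by
  have h1 : TotallyBounded {K : NonemptyCompacts (ℝ × ℝ) | (K : Set (ℝ × ℝ)) ⊆ closedBall 0 A} :=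
    NonemptyCompacts.totallyBounded_subsets_of_totallyBounded
      (isCompact_closedBall (0 : ℝ × ℝ) A).totallyBounded
  obtain ⟨t, ht, hst⟩ := Metric.totallyBounded_iff.1 h1 l hl
  refine ⟨ht.toFinset, fun K hK => ?_⟩
  have h2 := hst hK
  simp only [Set.mem_iUnion] at h2
  obtain ⟨K₀, h3, h4⟩ := h2
  exact ⟨K₀, by simpa using h3, h4⟩

private lemma inE2_near {K K₀ : NonemptyCompacts (ℝ × ℝ)} {r : ℝ} (h : dist K K₀ < r)
    {x : ℝ × ℝ} (hx : x ∈ (K : Set (ℝ × ℝ))) : ∃ y ∈ (K₀ : Set (ℝ × ℝ)), dist x y < r := by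
  have h1 : hausdorffDist (K : Set (ℝ × ℝ)) K₀ < r := h
  exact exists_dist_lt_of_hausdorffDist_lt hx h1
    (hausdorffEDist_ne_top_of_nonempty_of_bounded K.nonempty K₀.nonempty K.isCompact.isBounded
      K₀.isCompact.isBounded)

private lemma inE2_phi_facts (h1 : StatFacts) {d l : ℝ} (hd : 0 < d) (hl : 0 < l)
    (K₀ : NonemptyCompacts (ℝ × ℝ)) :
    Continuous (inE2Phi d l K₀) ∧
    (∀ K : LoopSp, 0 ≤ inE2Phi d l K₀ K ∧ inE2Phi d l K₀ K ≤ 1) ∧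
    (∀ K : LoopSp, diam (K.1 : Set (ℝ × ℝ)) ≤ d / 2 → inE2Phi d l K₀ K = 0) ∧
    (∀ K : LoopSp, 2 * l ≤ dist K.1 K₀ → inE2Phi d l K₀ K = 0) ∧
    (∀ K : LoopSp, dist K.1 K₀ ≤ l → d ≤ diam (K.1 : Set (ℝ × ℝ)) → inE2Phi d l K₀ K = 1) := by
  obtain ⟨⟨_, hdiam⟩, hramp, -⟩ := h1
  obtain ⟨c1, b1, o1, z1, -⟩ := hramp l (2 * l) (by linarith)
  obtain ⟨c2, b2, o2, z2, -⟩ := hramp (d / 2) d (by linarith)
  refine ⟨?_, ?_, ?_, ?_, ?_⟩
  · unfold inE2Phi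
    refine Continuous.mul (c1.comp ?_) (continuous_const.sub (c2.comp (hdiam.comp continuous_fst)))
    exact continuous_fst.dist continuous_const
  · intro K
    unfold inE2Phi
    have hb1 := b1 (dist K.1 K₀)
    have hb2 := b2 (diam (K.1 : Set (ℝ × ℝ)))
    constructor
    · exact mul_nonneg hb1.1 (by linarith [hb2.2])
    · exact mul_le_one₀ hb1.2 (by linarith [hb2.2]) (by linarith [hb2.1])
  · intro K hK
    unfold inE2Phi
    rw [o2 _ hK]; ring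
  · intro K hK
    unfold inE2Phi
    rw [z1 _ hK]; ring
  · intro K hK hK'
    unfold inE2Phi
    rw [o1 _ hK, z2 _ hK']; ring

private lemma inE2_pair_facts (h1 : StatFacts) {d l : ℝ} (hd : 0 < d) (hl : 0 < l)
    (K₀ K₁ : NonemptyCompacts (ℝ × ℝ)) :
    LoopFn (inE2Pair d l K₀ K₁) ∧
    (∀ K : LoopSp, 0 ≤ inE2Pair d l K₀ K₁ K ∧ inE2Pair d l K₀ K₁ K ≤ 1) ∧
    (∀ K : LoopSp, inE2Pair d l K₀ K₁ K ≠ 0 → d / 2 ≤ diam (K.1 : Set (ℝ × ℝ)) ∧
      (dist K.1 K₀ < 2 * l ∨ dist K.1 K₁ < 2 * l)) ∧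
    (∀ K : LoopSp, dist K.1 K₀ ≤ l ∨ dist K.1 K₁ ≤ l → d ≤ diam (K.1 : Set (ℝ × ℝ)) →
      1 ≤ inE2Pair d l K₀ K₁ K) := by
  obtain ⟨c1, b1, s1, f1, o1⟩ := inE2_phi_facts h1 hd hl K₀
  obtain ⟨c2, b2, s2, f2, o2⟩ := inE2_phi_facts h1 hd hl K₁
  refine ⟨⟨c1.max c2, d / 2, by linarith, ?_⟩, ?_, ?_, ?_⟩
  · intro K hK
    unfold inE2Pair
    rw [s1 K hK.le, s2 K hK.le, max_self]
  · intro K
    exact ⟨le_max_of_le_left (b1 K).1, max_le (b1 K).2 (b2 K).2⟩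
  · intro K hK
    constructor
    · by_contra hlt
      push Not at hlt
      apply hK
      unfold inE2Pair
      rw [s1 K hlt.le, s2 K hlt.le, max_self]
    · by_contra hlt
      push Not at hlt
      apply hK
      unfold inE2Pair
      rw [f1 K hlt.1, f2 K hlt.2, max_self]
  · intro K hK hd'
    rcases hK with h | h
    · exact le_max_of_le_left (o1 K h hd').ge
    · exact le_max_of_le_right (o2 K h hd').ge

/-- In the limit large loops are far from each other. -/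
private lemma inE2_gap (G : Set (NonemptyCompacts (ℝ × ℝ))) (d : ℝ) (hd : 0 < d)
    (hfin : ∀ ρ > 0, {K ∈ G | ρ ≤ diam (K : Set (ℝ × ℝ))}.Finite)
    (hdisj : ∀ K ∈ G, ∀ K' ∈ G, K ≠ K' → Disjoint (K : Set (ℝ × ℝ)) (K' : Set (ℝ × ℝ))) :
    ∃ r > 0, ∀ K ∈ G, ∀ K' ∈ G, K ≠ K' → d / 2 ≤ diam (K : Set (ℝ × ℝ)) →
      d / 2 ≤ diam (K' : Set (ℝ × ℝ)) → ∀ x ∈ (K : Set (ℝ × ℝ)), ∀ y ∈ (K' : Set (ℝ × ℝ)),
      r < dist x y := by
  have hS := hfin (d / 2) (by linarith)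
  set S := {K ∈ G | d / 2 ≤ diam (K : Set (ℝ × ℝ))} with hSdef
  have hS2 : (S ×ˢ S).Finite := hS.prod hS
  have hpair : ∀ q : NonemptyCompacts (ℝ × ℝ) × NonemptyCompacts (ℝ × ℝ), ∃ r : ℝ, 0 < r ∧
      (q.1 ∈ G → q.2 ∈ G → q.1 ≠ q.2 → ∀ x ∈ (q.1 : Set (ℝ × ℝ)), ∀ y ∈ (q.2 : Set (ℝ × ℝ)),
        r < dist x y) := by
    intro q
    by_cases hq : q.1 ∈ G ∧ q.2 ∈ G ∧ q.1 ≠ q.2
    · obtain ⟨r, hr, h⟩ := exists_pos_forall_lt_edist q.1.isCompact q.2.isCompact.isClosed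
        (hdisj q.1 hq.1 q.2 hq.2.1 hq.2.2)
      refine ⟨r, by exact_mod_cast hr, fun _ _ _ x hx y hy => ?_⟩
      have h2 := h x hx y hy
      rw [edist_nndist, ENNReal.coe_lt_coe] at h2
      exact_mod_cast h2
    · refine ⟨1, one_pos, fun h1 h2 h3 => ?_⟩
      exact absurd ⟨h1, h2, h3⟩ hq
  choose r hr hrr using hpair
  by_cases hne : hS2.toFinset.Nonempty
  · obtain ⟨q₀, hq₀, hmin⟩ := hS2.toFinset.exists_min_image r hne
    refine ⟨r q₀, hr q₀, fun K hK K' hK' hKK hd1 hd2 x hx y hy => ?_⟩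
    have hmem : (K, K') ∈ hS2.toFinset := by
      rw [Set.Finite.mem_toFinset]
      exact ⟨⟨hK, hd1⟩, ⟨hK', hd2⟩⟩
    exact lt_of_le_of_lt (hmin _ hmem) (hrr (K, K') hK hK' hKK x hx y hy)
  · refine ⟨1, one_pos, fun K hK K' hK' hKK hd1 hd2 x hx y hy => ?_⟩
    exfalso
    apply hne
    refine ⟨(K, K'), ?_⟩
    rw [Set.Finite.mem_toFinset]
    exact ⟨⟨hK, hd1⟩, ⟨hK', hd2⟩⟩

/-- The pairs of centres. -/
private def inE2Good (l : ℝ) (q : NonemptyCompacts (ℝ × ℝ) × NonemptyCompacts (ℝ × ℝ)) : Prop :=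
  ∃ x ∈ (q.1 : Set (ℝ × ℝ)), ∃ y ∈ (q.2 : Set (ℝ × ℝ)), dist x y ≤ 3 * l

/-- The limit does not see close pairs at small scale. -/
private lemma inE2_limit (h1 : StatFacts) {d l r : ℝ} (hd : 0 < d) (hl : 0 < l)
    (hr : 7 * l ≤ r) (G : Set (NonemptyCompacts (ℝ × ℝ)))
    (hfin : ∀ ρ > 0, {K ∈ G | ρ ≤ diam (K : Set (ℝ × ℝ))}.Finite)
    (hgap : ∀ K ∈ G, ∀ K' ∈ G, K ≠ K' → d / 2 ≤ diam (K : Set (ℝ × ℝ)) →
      d / 2 ≤ diam (K' : Set (ℝ × ℝ)) → ∀ x ∈ (K : Set (ℝ × ℝ)), ∀ y ∈ (K' : Set (ℝ × ℝ)),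
      r < dist x y)
    (K₀ K₁ : NonemptyCompacts (ℝ × ℝ)) (hg : inE2Good l (K₀, K₁)) :
    ¬ (2 ≤ loopStat (inE2Pair d l K₀ K₁) G) := by
  intro h2
  obtain ⟨hLF, hb, hne, -⟩ := inE2_pair_facts h1 hd hl K₀ K₁
  obtain ⟨-, -, h3, -⟩ := h1
  obtain ⟨-, h4, -⟩ := h3 G hfin _ hLF
  obtain ⟨-, -, h5⟩ := h4 (fun K => (hb K).1)
  obtain ⟨K, hK, K', hK', hKK, hφ, hφ'⟩ := h5 (fun K => (hb K).2) (by linarith)
  obtain ⟨hdK, hcK⟩ := hne _ hφ
  obtain ⟨hdK', hcK'⟩ := hne _ hφ'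
  have hgap' := hgap K hK K' hK' hKK hdK hdK'
  have hgap'' := hgap K' hK' K hK hKK.symm hdK' hdK
  simp only at hcK hcK'
  obtain ⟨a, ha, b, hb', hab⟩ := hg
  simp only at ha hb'
  -- both close to the same centre
  have same : ∀ Q : NonemptyCompacts (ℝ × ℝ), dist K Q < 2 * l → dist K' Q < 2 * l → False := by
    intro Q hQ hQ'
    obtain ⟨q, hq⟩ := Q.nonempty
    obtain ⟨x, hx, hxq⟩ := inE2_near (by rwa [dist_comm]) hq (K₀ := K) (r := 2 * l)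
    obtain ⟨y, hy, hyq⟩ := inE2_near (by rwa [dist_comm]) hq (K₀ := K') (r := 2 * l)
    have := hgap' x hx y hy
    have h6 : dist x y ≤ dist q x + dist q y := by
      rw [dist_comm q x]; exact dist_triangle x q y
    linarith
  rcases hcK with hcK | hcK <;> rcases hcK' with hcK' | hcK'
  · exact same _ hcK hcK'
  · obtain ⟨x, hx, hxq⟩ := inE2_near (by rwa [dist_comm]) ha (K₀ := K) (r := 2 * l)
    obtain ⟨y, hy, hyq⟩ := inE2_near (by rwa [dist_comm]) hb' (K₀ := K') (r := 2 * l)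
    have := hgap' x hx y hy
    have h6 : dist x y ≤ dist a x + (dist a b + dist b y) := by
      rw [dist_comm a x]
      exact (dist_triangle x a y).trans (by linarith [dist_triangle a b y])
    linarith
  · obtain ⟨x, hx, hxq⟩ := inE2_near (by rwa [dist_comm]) ha (K₀ := K') (r := 2 * l)
    obtain ⟨y, hy, hyq⟩ := inE2_near (by rwa [dist_comm]) hb' (K₀ := K) (r := 2 * l)
    have := hgap'' x hx y hy
    have h6 : dist x y ≤ dist a x + (dist a b + dist b y) := by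
      rw [dist_comm a x]
      exact (dist_triangle x a y).trans (by linarith [dist_triangle a b y])
    linarith
  · exact same _ hcK hcK'

open Classical in
/-- The lattice event gives a large statistic. -/
private lemma inE2_lattice (h1 : StatFacts) (h4 : GeoFacts) {Ω : Set (ℝ × ℝ)} {A : ℝ}
    (hbdd : Bornology.IsBounded Ω) (hA : Ω ⊆ closedBall 0 A) {d l δ : ℝ} (hd : 0 < d) (hl : 0 < l)
    (hδ : 0 < δ) (T : Finset (NonemptyCompacts (ℝ × ℝ)))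
    (hT : ∀ K : NonemptyCompacts (ℝ × ℝ), (K : Set (ℝ × ℝ)) ⊆ closedBall 0 A →
      ∃ K₀ ∈ T, dist K K₀ < l) (w : Finset Edge) (hw : w ⊆ DD Ω δ) (hev : Even' w)
    (hE : E2 δ d l w) :
    ∃ K₀ ∈ T, ∃ K₁ ∈ T, inE2Good l (K₀, K₁) ∧ 2 ≤ wSt δ (inE2Pair d l K₀ K₁) w := by
  obtain ⟨c, hc, c', hc', hcc, hdc, hdc', y, hy, y', hy', hyy⟩ := hE
  have h15 := h1.2.2.2.2 δ w hδ hev
  obtain ⟨e1, -, -⟩ := h15 c hc
  obtain ⟨e1', -, -⟩ := h15 c' hc'
  have hsub : ∀ k ∈ comps w, k ⊆ w := by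
    intro k hk
    unfold comps at hk
    rw [Finset.mem_image] at hk
    obtain ⟨a, _, rfl⟩ := hk
    intro x hx
    unfold comp at hx
    exact (Finset.mem_filter.1 hx).1
  have hsubK : ∀ k ∈ comps w, K1 δ k ⊆ closedBall 0 A := by
    intro k hk z hz
    unfold K1 at hz
    simp only [Set.mem_iUnion] at hz
    obtain ⟨e, he, hze⟩ := hz
    exact hA (h4.2.2.2.2.2.1 Ω δ hbdd hδ e (hw (hsub k hk he)) hze)
  obtain ⟨K₀, hK₀, hd0⟩ := hT (toNC (K1 δ c)) (by rw [e1]; exact hsubK c hc)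
  obtain ⟨K₁, hK₁, hd1⟩ := hT (toNC (K1 δ c')) (by rw [e1']; exact hsubK c' hc')
  refine ⟨K₀, hK₀, K₁, hK₁, ?_, ?_⟩
  · obtain ⟨x, hx, hxy⟩ := inE2_near hd0 (x := y) (by rw [e1]; exact hy)
    obtain ⟨x', hx', hxy'⟩ := inE2_near hd1 (x := y') (by rw [e1']; exact hy')
    refine ⟨x, hx, x', hx', ?_⟩
    have h6 : dist x x' ≤ dist y x + (dist y y' + dist y' x') := by
      rw [dist_comm y x]
      exact (dist_triangle x y x').trans (by linarith [dist_triangle y y' x'])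
    linarith
  · obtain ⟨-, hb, -, ho⟩ := inE2_pair_facts h1 hd hl K₀ K₁
    unfold wSt
    have hpair : ({c, c'} : Finset (Finset Edge)) ⊆ comps w := by
      intro k hk
      rw [Finset.mem_insert, Finset.mem_singleton] at hk
      rcases hk with rfl | rfl
      · exact hc
      · exact hc'
    have h7 : ∑ k ∈ ({c, c'} : Finset (Finset Edge)),
        inE2Pair d l K₀ K₁ (toNC (K1 δ k), toNC (K2 δ k)) ≤
        ∑ k ∈ comps w, inE2Pair d l K₀ K₁ (toNC (K1 δ k), toNC (K2 δ k)) :=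
      Finset.sum_le_sum_of_subset_of_nonneg hpair fun k _ _ => (hb _).1
    rw [Finset.sum_pair hcc] at h7
    have h8 : 1 ≤ inE2Pair d l K₀ K₁ (toNC (K1 δ c), toNC (K2 δ c)) :=
      ho _ (Or.inl hd0.le) (by simp only [e1]; exact hdc)
    have h9 : 1 ≤ inE2Pair d l K₀ K₁ (toNC (K1 δ c'), toNC (K2 δ c')) :=
      ho _ (Or.inr hd1.le) (by simp only [e1']; exact hdc')
    linarith

open Classical in
theorem inE2S (h1 : StatFacts) (h2 : PortS) (h3 : LEFacts) (h4 : GeoFacts) : InE2S := by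
  intro X _ P _ Ω σ Γ hLim d hd ε hε
  obtain ⟨A, hA⟩ := hLim.bdd.subset_closedBall (0 : ℝ × ℝ)
  -- the scale
  let lk : ℕ → ℝ := fun k => 1 / ((k : ℝ) + 1)
  have hlk : ∀ k, 0 < lk k := fun k => by positivity
  have hlk0 : Tendsto lk atTop (𝓝 0) := tendsto_one_div_add_atTop_nhds_zero_nat
  choose T hT using fun k => inE2_cover A (lk k) (hlk k)
  let I : ℕ → Finset (NonemptyCompacts (ℝ × ℝ) × NonemptyCompacts (ℝ × ℝ)) :=
    fun k => (T k ×ˢ T k).filter fun q => inE2Good (lk k) q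
  let B : ℕ → Set X := fun k =>
    ⋃ q ∈ I k, {ω | 2 ≤ loopStat (inE2Pair d (lk k) q.1 q.2) (Γ ω)}
  have hBm : ∀ k, MeasurableSet (B k) := by
    intro k
    refine Finset.measurableSet_biUnion _ fun q _ => ?_
    exact measurableSet_le measurable_const
      (hLim.measW _ (inE2_pair_facts h1 hd (hlk k) q.1 q.2).1)
  have hBlim : ∀ᵐ ω ∂P, ∀ᶠ k in atTop, ω ∈ B k ↔ ω ∈ (∅ : Set X) := by
    filter_upwards [hLim.nest.finite, hLim.nest.disjoint] with ω hfin hdisj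
    obtain ⟨r, hr, hgap⟩ := inE2_gap (Γ ω) d hd hfin hdisj
    have h5 : ∀ᶠ k in atTop, lk k < r / 7 := hlk0.eventually (gt_mem_nhds (by linarith))
    filter_upwards [h5] with k hk
    constructor
    · intro hω
      exfalso
      simp only [B, Set.mem_iUnion, Set.mem_ofPred_eq] at hω
      obtain ⟨q, hq, h6⟩ := hω
      have hq2 : inE2Good (lk k) (q.1, q.2) := (Finset.mem_filter.1 hq).2
      exact inE2_limit h1 hd (hlk k) (r := r) (by linarith) (Γ ω) hfin hgap q.1 q.2 hq2 h6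
    · intro h; exact absurd h (Set.notMem_empty _)
  have hB0 : Tendsto (fun k => P (B k)) atTop (𝓝 (P (∅ : Set X))) :=
    tendsto_measure_of_ae_tendsto_indicator_of_isFiniteMeasure atTop MeasurableSet.empty hBm hBlim
  rw [measure_empty] at hB0
  have hB1 : ∀ᶠ k in atTop, P (B k) < ENNReal.ofReal (ε / 2) :=
    hB0.eventually (gt_mem_nhds (ENNReal.ofReal_pos.2 (by linarith)))
  obtain ⟨k, hk⟩ := hB1.exists
  -- enumerate the pairs
  let e : Fin (I k).card ≃ I k := (I k).equivFin.symm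
  let φ : Fin (I k).card → LoopSp → ℝ := fun j => inE2Pair d (lk k) (e j).1.1 (e j).1.2
  have hφ : ∀ j, LoopFn (φ j) := fun j => (inE2_pair_facts h1 hd (hlk k) _ _).1
  let Z : ℝ → Finset Edge → (Fin (I k).card → ℝ) := fun δ w j => wSt δ (φ j) w
  let Y : X → (Fin (I k).card → ℝ) := fun ω j => loopStat (φ j) (Γ ω)
  have hY : Measurable Y := measurable_pi_lambda _ fun j => hLim.measW _ (hφ j)
  have hport := (h2 X P Ω (I k).card Z Y hY (fun H hH hHb => hLim.cvW _ φ hφ H hH hHb)).1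
  let F : Set (Fin (I k).card → ℝ) := ⋃ j, {y | 2 ≤ y j}
  have hF : IsClosed F := by
    refine isClosed_iUnion_of_finite fun j => ?_
    exact isClosed_le continuous_const (continuous_apply j)
  obtain ⟨δ₀, hδ₀, hport⟩ := hport F hF (ε / 2) (by linarith)
  refine ⟨lk k, hlk k, δ₀, hδ₀, fun δ hδ hδ' => ?_⟩
  have h5 := hport δ hδ hδ'
  have h6 : {ω | Y ω ∈ F} = B k := by
    ext ω
    simp only [F, B, Y, φ, Set.mem_iUnion, Set.mem_ofPred_eq]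
    constructor
    · rintro ⟨j, hj⟩
      exact ⟨(e j).1, (e j).2, hj⟩
    · rintro ⟨q, hq, hj⟩
      refine ⟨e.symm ⟨q, hq⟩, ?_⟩
      rw [Equiv.apply_symm_apply]
      exact hj
  rw [h6] at h5
  have h7 : P.real (B k) ≤ ε / 2 := by
    unfold Measure.real
    exact ENNReal.toReal_le_of_le_ofReal (by linarith) hk.le
  have h8 : lP (DD Ω δ) (E2 δ d (lk k)) ≤ lP (DD Ω δ) (fun w => Z δ w ∈ F) := by
    refine (h3.2.2.2.2.2.2 (DD Ω δ) (E2 δ d (lk k)) (fun w => Z δ w ∈ F) ?_).2.1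
    intro w hw hev hE
    obtain ⟨K₀, hK₀, K₁, hK₁, hg, hge⟩ :=
      inE2_lattice h1 h4 hLim.bdd hA hd (hlk k) hδ (T k) (hT k) w hw hev hE
    have hmem : (K₀, K₁) ∈ I k := by
      rw [Finset.mem_filter]
      exact ⟨Finset.mem_product.2 ⟨hK₀, hK₁⟩, hg⟩
    simp only [F, Z, φ, Set.mem_iUnion, Set.mem_ofPred_eq]
    refine ⟨e.symm ⟨(K₀, K₁), hmem⟩, ?_⟩
    rw [Equiv.apply_symm_apply]
    exact hge
  linarith

end Pool.Agent.Lib.MP_6d40c9_pr
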