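import Pool.Agent.Lib.MP_6d40c9_pr.SpecL

/-!
# InGenS: a generic threshold is not approached on the lattice
-/

set_option autoImplicit false

namespace Pool.Agent.Lib.MP_6d40c9_pr

open Finset MeasureTheory Filter Topology TopologicalSpace Metric
open scoped BigOperators

/-- The test function for loops. -/
private noncomputable def inGenSphi (F : NonemptyCompacts (ℝ × ℝ) → ℝ) (t d l : ℝ)
    (K : LoopSp) : ℝ :=
  (1 - ramp (d / 2) d (diam (K.1 : Set (ℝ × ℝ)))) * ramp l (2 * l) |F K.1 - t|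

private lemma inGenS_nonneg (h1 : StatFacts) (F : NonemptyCompacts (ℝ × ℝ) → ℝ) (t d l : ℝ)
    (hd : 0 < d) (hl : 0 < l) (K : LoopSp) : 0 ≤ inGenSphi F t d l K := by
  have e1 := (h1.2.1 (d / 2) d (by linarith)).2.1 (diam (K.1 : Set (ℝ × ℝ)))
  have e2 := (h1.2.1 l (2 * l) (by linarith)).2.1 |F K.1 - t|
  unfold inGenSphi
  exact mul_nonneg (by linarith [e1.2]) e2.1

private lemma inGenS_one (h1 : StatFacts) (F : NonemptyCompacts (ℝ × ℝ) → ℝ) (t d l : ℝ)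
    (hd : 0 < d) (hl : 0 < l) (K : LoopSp) (hK : d ≤ diam (K.1 : Set (ℝ × ℝ)))
    (hK' : |F K.1 - t| ≤ l) : inGenSphi F t d l K = 1 := by
  have e1 := (h1.2.1 (d / 2) d (by linarith)).2.2.2.1 _ hK
  have e2 := (h1.2.1 l (2 * l) (by linarith)).2.2.1 _ hK'
  unfold inGenSphi
  rw [e1, e2]
  norm_num

private lemma inGenS_ne (h1 : StatFacts) (F : NonemptyCompacts (ℝ × ℝ) → ℝ) (t d l : ℝ)
    (hd : 0 < d) (hl : 0 < l) (K : LoopSp) (h : inGenSphi F t d l K ≠ 0) :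
    d / 2 ≤ diam (K.1 : Set (ℝ × ℝ)) ∧ |F K.1 - t| < 2 * l := by
  constructor
  · by_contra hcon
    push Not at hcon
    have e1 := (h1.2.1 (d / 2) d (by linarith)).2.2.1 _ hcon.le
    apply h
    unfold inGenSphi
    rw [e1, sub_self, zero_mul]
  · by_contra hcon
    push Not at hcon
    have e1 := (h1.2.1 l (2 * l) (by linarith)).2.2.2.1 _ hcon
    apply h
    unfold inGenSphi
    rw [e1, mul_zero]

private lemma inGenS_loopFn (h1 : StatFacts) (F : NonemptyCompacts (ℝ × ℝ) → ℝ) (t d l : ℝ)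
    (hF : Continuous F) (hd : 0 < d) (hl : 0 < l) : LoopFn (inGenSphi F t d l) := by
  refine ⟨?_, d / 2, by linarith, ?_⟩
  · have c1 : Continuous fun K : LoopSp => ramp (d / 2) d (diam (K.1 : Set (ℝ × ℝ))) :=
      (h1.2.1 (d / 2) d (by linarith)).1.comp (h1.1.2.comp continuous_fst)
    have c2 : Continuous fun K : LoopSp => |F K.1 - t| :=
      ((hF.comp continuous_fst).sub continuous_const).abs
    have c3 : Continuous fun K : LoopSp => ramp l (2 * l) |F K.1 - t| :=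
      (h1.2.1 l (2 * l) (by linarith)).1.comp c2
    exact (continuous_const.sub c1).mul c3
  · intro K hK
    by_contra hcon
    have := (inGenS_ne h1 F t d l hd hl K hcon).1
    linarith

/-- On the lattice. -/
private lemma inGenS_lattice (h1 : StatFacts) (F : NonemptyCompacts (ℝ × ℝ) → ℝ) (t d l δ : ℝ)
    (hd : 0 < d) (hl : 0 < l) (hδ : 0 < δ) (w : Finset Edge) (hw : Even' w)
    (h : ∃ c ∈ comps w, d ≤ diam (K1 δ c) ∧ |F (toNC (K1 δ c)) - t| ≤ l) :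
    1 ≤ wSt δ (inGenSphi F t d l) w := by
  obtain ⟨c, hc, hd', hl'⟩ := h
  have e1 := (h1.2.2.2.2 δ w hδ hw c hc).1
  have e2 : inGenSphi F t d l (toNC (K1 δ c), toNC (K2 δ c)) = 1 := by
    refine inGenS_one h1 F t d l hd hl _ ?_ hl'
    show d ≤ diam ((toNC (K1 δ c) : NonemptyCompacts (ℝ × ℝ)) : Set (ℝ × ℝ))
    rw [e1]
    exact hd'
  unfold wSt
  calc (1 : ℝ) = inGenSphi F t d l (toNC (K1 δ c), toNC (K2 δ c)) := e2.symm
    _ ≤ ∑ c ∈ comps w, inGenSphi F t d l (toNC (K1 δ c), toNC (K2 δ c)) :=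
      Finset.single_le_sum (f := fun c => inGenSphi F t d l (toNC (K1 δ c), toNC (K2 δ c)))
        (fun c _ => inGenS_nonneg h1 F t d l hd hl _) hc

/-- In the limit the event happens for finitely many thresholds only. -/
private lemma inGenS_limit (h1 : StatFacts) (F : NonemptyCompacts (ℝ × ℝ) → ℝ) (t d : ℝ)
    (hF : Continuous F) (hd : 0 < d) (G : Set (NonemptyCompacts (ℝ × ℝ)))
    (hG : ∀ ρ > 0, {K ∈ G | ρ ≤ diam (K : Set (ℝ × ℝ))}.Finite)
    (hG' : ∀ K ∈ G, 0 < diam (K : Set (ℝ × ℝ)) → F K ≠ t) :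
    ∀ᶠ k : ℕ in atTop, ¬ 1 ≤ loopStat (inGenSphi F t d (1 / ((k : ℝ) + 1))) G := by
  have hfin := hG (d / 2) (by linarith)
  have hlim : Tendsto (fun k : ℕ => 2 * (1 / ((k : ℝ) + 1))) atTop (𝓝 0) := by
    have := (tendsto_one_div_add_atTop_nhds_zero_nat (𝕜 := ℝ)).const_mul 2
    rwa [mul_zero] at this
  have h2 : ∀ᶠ k : ℕ in atTop, ∀ K ∈ {K ∈ G | d / 2 ≤ diam (K : Set (ℝ × ℝ))},
      2 * (1 / ((k : ℝ) + 1)) < |F K - t| := by
    rw [Filter.eventually_all_finite hfin]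
    intro K hK
    have h3 : F K ≠ t := hG' K hK.1 (by linarith [hK.2])
    exact hlim.eventually_lt_const (abs_pos.2 (sub_ne_zero.2 h3))
  filter_upwards [h2] with k hk h1k
  have hl : (0 : ℝ) < 1 / ((k : ℝ) + 1) := by positivity
  obtain ⟨K, hK, hK'⟩ := (h1.2.2.1 G hG _ (inGenS_loopFn h1 F t d _ hF hd hl)).1
    (by intro h0; rw [h0] at h1k; linarith)
  obtain ⟨g1, g2⟩ := inGenS_ne h1 F t d _ hd hl _ hK'
  have := hk K ⟨hK, g1⟩
  have g3 : |F K - t| < 2 * (1 / ((k : ℝ) + 1)) := g2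
  linarith

theorem inGenS (h1 : StatFacts) (h2 : PortS) (h3 : LEFacts) : InGenS := by
  intro X _ P _ Ω σ Γ hL F t hF hgen d hd ε hε
  have hlf : ∀ k : ℕ, LoopFn (inGenSphi F t d (1 / ((k : ℝ) + 1))) := fun k =>
    inGenS_loopFn h1 F t d _ hF hd (by positivity)
  have hmeas : ∀ k : ℕ, MeasurableSet
      {ω | 1 ≤ loopStat (inGenSphi F t d (1 / ((k : ℝ) + 1))) (Γ ω)} := fun k =>
    measurableSet_le measurable_const (hL.measW _ (hlf k))
  have hae : ∀ᵐ ω ∂P, ∀ᶠ k : ℕ in atTop,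
      (ω ∈ {ω | 1 ≤ loopStat (inGenSphi F t d (1 / ((k : ℝ) + 1))) (Γ ω)} ↔
        ω ∈ (∅ : Set X)) := by
    filter_upwards [hL.nest.finite, hgen] with ω hω1 hω2
    filter_upwards [inGenS_limit h1 F t d hF hd (Γ ω) hω1 hω2] with k hk
    exact ⟨fun h => absurd h hk, fun h => absurd h (Set.notMem_empty ω)⟩
  have hlim := tendsto_measure_of_ae_tendsto_indicator_of_isFiniteMeasure (μ := P) atTop
    MeasurableSet.empty hmeas hae
  rw [measure_empty] at hlim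
  have hreal : Tendsto (fun k : ℕ => P.real
      {ω | 1 ≤ loopStat (inGenSphi F t d (1 / ((k : ℝ) + 1))) (Γ ω)}) atTop (𝓝 0) := by
    have := (ENNReal.tendsto_toReal ENNReal.zero_ne_top).comp hlim
    exact this
  obtain ⟨k, hk⟩ := (hreal.eventually_lt_const (show (0 : ℝ) < ε / 2 by linarith)).exists
  have hl : (0 : ℝ) < 1 / ((k : ℝ) + 1) := by positivity
  obtain ⟨l, hll⟩ : ∃ l : ℝ, l = 1 / ((k : ℝ) + 1) := ⟨_, rfl⟩
  rw [← hll] at hk hl
  have hlfk := hlf k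
  rw [← hll] at hlfk
  have hP := (h2 X P Ω 1 (fun δ w _ => wSt δ (inGenSphi F t d l) w)
    (fun ω _ => loopStat (inGenSphi F t d l) (Γ ω))
    (measurable_pi_lambda _ fun _ => hL.measW _ hlfk)
    (fun H hH hC => hL.cvW 1 (fun _ => inGenSphi F t d l) (fun _ => hlfk) H hH hC)).1
    {y | 1 ≤ y 0} (isClosed_le continuous_const (continuous_apply 0)) (ε / 2) (by linarith)
  obtain ⟨δ₀, hδ₀, hδ⟩ := hP
  refine ⟨l, hl, δ₀, hδ₀, ?_⟩
  intro δ hδ1 hδ2
  have e1 := hδ δ hδ1 hδ2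
  have e2 := (h3.2.2.2.2.2.2 (DD Ω δ)
    (fun w => ∃ c ∈ comps w, d ≤ diam (K1 δ c) ∧ |F (toNC (K1 δ c)) - t| ≤ l)
    (fun w => (fun _ : Fin 1 => wSt δ (inGenSphi F t d l) w) ∈ {y : Fin 1 → ℝ | 1 ≤ y 0})
    (fun w _ hw h => inGenS_lattice h1 F t d l δ hd hl hδ1 w hw h)).2.1
  have e3 : P.real {ω | (fun _ : Fin 1 => loopStat (inGenSphi F t d l) (Γ ω)) ∈
      {y : Fin 1 → ℝ | 1 ≤ y 0}} = P.real {ω | 1 ≤ loopStat (inGenSphi F t d l) (Γ ω)} := rfl
  linarith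

end Pool.Agent.Lib.MP_6d40c9_pr
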