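import Pool.Agent.Lib.MP_6d40c9_pr.SpecL

/-!
# Lower bound of the second moment of the lattice spin field
-/

set_option autoImplicit false

namespace Pool.Agent.Lib.MP_6d40c9_pr

open Finset MeasureTheory Filter Topology TopologicalSpace Metric
open scoped BigOperators

namespace InLowAux

theorem testAdd {Ω : Set (ℝ × ℝ)} {f g : ℝ × ℝ → ℝ} (hf : TestFn Ω f) (hg : TestFn Ω g) :
    TestFn Ω (fun p => f p + g p) := by
  refine ⟨hf.1.add hg.1, hf.2.1.add hg.2.1, ?_⟩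
  refine Set.Subset.trans (tsupport_add f g) ?_
  exact Set.union_subset hf.2.2 hg.2.2

theorem testMul {Ω : Set (ℝ × ℝ)} {f : ℝ × ℝ → ℝ} (hf : TestFn Ω f) (c : ℝ) :
    TestFn Ω (fun p => c * f p) := by
  refine ⟨contDiff_const.mul hf.1, hf.2.1.mul_left, ?_⟩
  refine Set.Subset.trans ?_ hf.2.2
  exact tsupport_mul_subset_right

theorem exG {Ω K : Set (ℝ × ℝ)} (hΩ : IsOpen Ω) (hK : IsCompact K) (hKΩ : K ⊆ Ω) :
    ∃ g : ℝ × ℝ → ℝ, TestFn Ω g ∧ (∀ p, 0 ≤ g p) ∧ ∀ p ∈ K, 1 ≤ g p := by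
  refine hK.induction_on (p := fun s => ∃ g : ℝ × ℝ → ℝ, TestFn Ω g ∧ (∀ p, 0 ≤ g p) ∧ ∀ p ∈ s, 1 ≤ g p)
    ?_ ?_ ?_ ?_
  · refine ⟨fun _ => 0, ⟨contDiff_const, ?_, ?_⟩, fun _ => le_rfl, fun p hp => absurd hp (Set.notMem_empty p)⟩
    · exact HasCompactSupport.zero
    · have : tsupport (fun _ : ℝ × ℝ => (0 : ℝ)) = ∅ := by
        have h0 : Function.support (fun _ : ℝ × ℝ => (0 : ℝ)) = ∅ := by
          ext p; simp
        rw [tsupport, h0, closure_empty]
      rw [this]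
      exact Set.empty_subset _
  · rintro s t hst ⟨g, h1, h2, h3⟩
    exact ⟨g, h1, h2, fun p hp => h3 p (hst hp)⟩
  · rintro s t ⟨g, h1, h2, h3⟩ ⟨g', h1', h2', h3'⟩
    refine ⟨fun p => g p + g' p, testAdd h1 h1', fun p => add_nonneg (h2 p) (h2' p), ?_⟩
    rintro p (hp | hp)
    · linarith [h3 p hp, h2' p]
    · linarith [h3' p hp, h2 p]
  · intro x hx
    obtain ⟨u, hu1, hu2, hu3, hu4, hu5⟩ :=
      exists_contDiff_tsupport_subset (n := (⊤ : ℕ∞)) (hΩ.mem_nhds (hKΩ hx))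
    have hu0 : ∀ p, 0 ≤ u p := fun p => (hu4 ⟨p, rfl⟩).1
    refine ⟨{p | 1 / 2 < u p}, ?_, fun p => 2 * u p, testMul ⟨hu3, hu2, hu1⟩ 2,
      fun p => mul_nonneg (by norm_num) (hu0 p), ?_⟩
    · apply mem_nhdsWithin_of_mem_nhds
      refine (isOpen_lt continuous_const hu3.continuous).mem_nhds ?_
      show (1 : ℝ) / 2 < u x
      rw [hu5]; norm_num
    · intro p hp
      have hp' : (1 : ℝ) / 2 < u p := hp
      linarith

/-- Two point functions are nonnegative. -/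
theorem two_nonneg (h1 : MonoC) (h2 : LEFacts) (D : Finset Edge) (u v : Pt) :
    0 ≤ lE D (fun w => sgn w u * sgn w v) := by
  classical
  by_cases huv : u = v
  · subst huv
    have h3 := h2.2.2.1 D (fun _ => (0 : ℝ)) (fun w => sgn w u * sgn w u)
      (fun w _ _ => mul_self_nonneg _)
    have h4 := h2.2.1 D 0 0 (fun _ => (0 : ℝ)) (fun _ => (0 : ℝ))
    simp only [mul_zero, add_zero, zero_mul] at h4
    linarith [h3, h4]
  · have h3 := (h1 D D {u, v} ∅ (Finset.Subset.refl D)).1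
    have h4 : sgs {u, v} = fun w => sgn w u * sgn w v := by
      funext w
      unfold sgs
      rw [Finset.prod_pair huv]
    rw [h4] at h3
    exact h3

/-- Second moment of the lattice field. -/
theorem second (h2 : LEFacts) (Ω : Set (ℝ × ℝ)) (D : Finset Edge) (δ : ℝ) (f : ℝ × ℝ → ℝ) :
    lE D (fun w => sf Ω δ f w ^ 2) = (δ ^ (15 / 8 : ℝ)) ^ 2 * ∑ u ∈ faces Ω δ, ∑ v ∈ faces Ω δ,
      f (ctr δ u) * f (ctr δ v) * lE D (fun w => sgn w u * sgn w v) := by
  have e1 : (fun w => sf Ω δ f w ^ 2) = fun w => (δ ^ (15 / 8 : ℝ)) ^ 2 *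
      (∑ u ∈ faces Ω δ, ∑ v ∈ faces Ω δ, f (ctr δ u) * f (ctr δ v) * (sgn w u * sgn w v)) +
      0 * (fun _ : Finset Edge => (0 : ℝ)) w := by
    funext w
    unfold sf
    rw [mul_pow, pow_two (∑ u ∈ faces Ω δ, f (ctr δ u) * sgn w u), Finset.sum_mul_sum]
    simp only [mul_zero, add_zero]
    congr 1
    refine Finset.sum_congr rfl fun u _ => Finset.sum_congr rfl fun v _ => ?_
    ring
  rw [e1, h2.2.1 D _ 0 (fun w => ∑ u ∈ faces Ω δ, ∑ v ∈ faces Ω δ,
    f (ctr δ u) * f (ctr δ v) * (sgn w u * sgn w v)) (fun _ => (0 : ℝ))]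
  rw [zero_mul, add_zero]
  congr 1
  rw [h2.2.2.2.2.1 D Pt (faces Ω δ) (fun u w => ∑ v ∈ faces Ω δ,
    f (ctr δ u) * f (ctr δ v) * (sgn w u * sgn w v))]
  refine Finset.sum_congr rfl fun u _ => ?_
  rw [h2.2.2.2.2.1 D Pt (faces Ω δ) (fun v w => f (ctr δ u) * f (ctr δ v) * (sgn w u * sgn w v))]
  refine Finset.sum_congr rfl fun v _ => ?_
  have h5 := h2.2.1 D (f (ctr δ u) * f (ctr δ v)) 0 (fun w => sgn w u * sgn w v) (fun _ => (0 : ℝ))
  simp only [mul_zero, add_zero, zero_mul] at h5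
  exact h5

end InLowAux

open InLowAux in
/-- The second moment of some nonnegative test function does not tend to zero. -/
theorem inLowS (h1 : MonoC) (h2 : LEFacts) : InLowS := by
  intro X _ P _ Ω σ Γ L hf0
  obtain ⟨f, hf, hne⟩ := hf0
  set H : ℝ → ℝ := fun y => min 1 (y ^ 2) with hH
  have hHc : Continuous H := continuous_const.min (continuous_pow 2)
  have hH0 : ∀ y, 0 ≤ H y := fun y => le_min zero_le_one (sq_nonneg y)
  have hH1 : ∀ y, H y ≤ 1 := fun y => min_le_left _ _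
  have hHb : ∀ y, |H y| ≤ 1 := fun y => by
    rw [abs_of_nonneg (hH0 y)]; exact hH1 y
  have hHm : Measurable fun ω => H (σ f ω) := hHc.measurable.comp (L.measS f hf)
  have hHi : Integrable (fun ω => H (σ f ω)) P := by
    refine Integrable.of_bound hHm.aestronglyMeasurable 1 ?_
    exact Filter.Eventually.of_forall fun ω => by
      rw [Real.norm_eq_abs]; exact hHb _
  have hI : 0 < ∫ ω, H (σ f ω) ∂P := by
    rcases (integral_nonneg (μ := P) (f := fun ω => H (σ f ω)) (fun ω => hH0 _)).lt_or_eq with h | h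
    · exact h
    · exfalso
      have h3 := (integral_eq_zero_iff_of_nonneg (μ := P) (f := fun ω => H (σ f ω))
        (fun ω => hH0 _) hHi).1 h.symm
      apply hne
      filter_upwards [h3] with ω hω
      have h4 : min 1 (σ f ω ^ 2) = 0 := hω
      have h5 : σ f ω ^ 2 = 0 := by
        rcases min_choice (1 : ℝ) (σ f ω ^ 2) with h6 | h6
        · rw [h6] at h4; norm_num at h4
        · rw [h6] at h4; exact h4
      show σ f ω = 0
      exact pow_eq_zero_iff (two_ne_zero) |>.1 h5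
  set I : ℝ := ∫ ω, H (σ f ω) ∂P with hIdef
  have hcv := L.cvS f hf H hHc ⟨1, hHb⟩
  have hev : ∀ᶠ δ in 𝓝[>] (0 : ℝ), I / 2 < lE (DD Ω δ) (fun w => H (sf Ω δ f w)) :=
    hcv.eventually (lt_mem_nhds (by linarith))
  obtain ⟨δ₀, hδ₀, hsub⟩ := mem_nhdsGT_iff_exists_Ioo_subset.1 hev
  have hδ₀' : 0 < δ₀ := hδ₀
  -- the dominating test function
  obtain ⟨B, hB⟩ := hf.2.1.exists_bound_of_continuous hf.1.continuous
  obtain ⟨g, hg, hg0, hg1⟩ := exG (Ω := Ω) (K := tsupport f) L.op hf.2.1 hf.2.2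
  have hB0 : 0 ≤ B := le_trans (norm_nonneg _) (hB 0)
  have hdom : ∀ p, |f p| ≤ B * g p := by
    intro p
    by_cases hp : p ∈ tsupport f
    · have h3 := hB p
      rw [Real.norm_eq_abs] at h3
      have h4 : B * 1 ≤ B * g p := mul_le_mul_of_nonneg_left (hg1 p hp) hB0
      linarith
    · rw [image_eq_zero_of_notMem_tsupport hp, abs_zero]
      exact mul_nonneg hB0 (hg0 p)
  refine ⟨fun p => B * g p, I / 2, δ₀, testMul hg B, fun p => mul_nonneg hB0 (hg0 p), by linarith,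
    hδ₀', ?_⟩
  intro δ hδ hδ1
  have h3 : I / 2 < lE (DD Ω δ) (fun w => H (sf Ω δ f w)) := hsub ⟨hδ, hδ1⟩
  have h4 : lE (DD Ω δ) (fun w => H (sf Ω δ f w)) ≤ lE (DD Ω δ) (fun w => sf Ω δ f w ^ 2) :=
    h2.2.2.1 _ _ _ (fun w _ _ => min_le_right _ _)
  refine le_trans (le_of_lt (lt_of_lt_of_le h3 h4)) ?_
  rw [second h2, second h2]
  refine mul_le_mul_of_nonneg_left ?_ (sq_nonneg _)
  refine Finset.sum_le_sum fun u _ => Finset.sum_le_sum fun v _ => ?_
  refine mul_le_mul_of_nonneg_right ?_ (two_nonneg h1 h2 _ u v)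
  calc f (ctr δ u) * f (ctr δ v) ≤ |f (ctr δ u) * f (ctr δ v)| := le_abs_self _
    _ = |f (ctr δ u)| * |f (ctr δ v)| := abs_mul _ _
    _ ≤ (B * g (ctr δ u)) * (B * g (ctr δ v)) :=
        mul_le_mul (hdom _) (hdom _) (abs_nonneg _) (mul_nonneg hB0 (hg0 _))

end Pool.Agent.Lib.MP_6d40c9_pr
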