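import Pool.Agent.Lib.MP_6d40c9_pr.SpecL

/-!
# Bounded second moments from the limit
-/

set_option autoImplicit false

namespace Pool.Agent.Lib.MP_6d40c9_pr

open Finset MeasureTheory Filter Topology TopologicalSpace Metric
open scoped BigOperators

/-- the cutoff function -/
private noncomputable def iuH (k : ℕ) (y : ℝ) : ℝ := min 1 (max 0 (|y| - k))

private lemma iuH_cont (k : ℕ) : Continuous (iuH k) := by
  unfold iuH
  fun_prop

private lemma iuH_nonneg (k : ℕ) (y : ℝ) : 0 ≤ iuH k y :=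
  le_min zero_le_one (le_max_left _ _)

private lemma iuH_le (k : ℕ) (y : ℝ) : iuH k y ≤ 1 := min_le_left _ _

private lemma iuH_one {k : ℕ} {y : ℝ} (h : (k : ℝ) + 1 ≤ |y|) : 1 ≤ iuH k y :=
  le_min le_rfl (le_max_of_le_right (by linarith))

private lemma iuH_zero {k : ℕ} {y : ℝ} (h : |y| ≤ k) : iuH k y = 0 := by
  unfold iuH
  rw [max_eq_left (by linarith), min_eq_right zero_le_one]

/-- the integral of the cutoff function becomes small -/
private lemma iu_int {X : Type} [MeasurableSpace X] (P : Measure X) [IsProbabilityMeasure P]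
    (s : X → ℝ) (hs : Measurable s) : ∃ k : ℕ, ∫ ω, iuH k (s ω) ∂P < 1 / 24 := by
  have h1 : Tendsto (fun k : ℕ => ∫ ω, iuH k (s ω) ∂P) atTop (𝓝 (∫ _ω, (0 : ℝ) ∂P)) := by
    refine tendsto_integral_of_dominated_convergence (fun _ => (1 : ℝ)) ?_ (integrable_const _)
      ?_ ?_
    · intro k
      exact ((iuH_cont k).measurable.comp hs).aestronglyMeasurable
    · intro k
      refine Filter.Eventually.of_forall fun ω => ?_
      rw [Real.norm_eq_abs, abs_of_nonneg (iuH_nonneg _ _)]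
      exact iuH_le _ _
    · refine Filter.Eventually.of_forall fun ω => ?_
      obtain ⟨n, hn⟩ := exists_nat_ge |s ω|
      refine tendsto_const_nhds.congr' ?_
      filter_upwards [eventually_ge_atTop n] with k hk
      rw [iuH_zero]
      exact hn.trans (by exact_mod_cast hk)
  rw [integral_zero] at h1
  have h2 := h1.eventually (gt_mem_nhds (show (0 : ℝ) < 1 / 24 by norm_num))
  exact h2.exists

/-- the moment comparison on the lattice -/
private lemma iu_moment (h3 : LEFacts) (D : Finset Edge) (Z : Finset Edge → ℝ) (k : ℕ)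
    (h4 : lE D (fun w => Z w ^ 4) ≤ 3 * (lE D (fun w => Z w ^ 2)) ^ 2)
    (hq : lE D (fun w => iuH k (Z w)) < 1 / 12) :
    lE D (fun w => Z w ^ 2) ≤ 2 * ((k : ℝ) + 1) ^ 2 := by
  classical
  obtain ⟨g1, g2, g3, g4, -⟩ := h3
  by_contra hcon
  push Not at hcon
  set m : ℝ := lE D (fun w => Z w ^ 2) with hm
  have hk : (0 : ℝ) ≤ (k : ℝ) := Nat.cast_nonneg k
  have hm0 : 0 < m := by
    have : 0 ≤ 2 * ((k : ℝ) + 1) ^ 2 := by positivity
    linarith
  let I : Finset Edge → ℝ := fun w => if (k : ℝ) + 1 ≤ |Z w| then 1 else 0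
  have hI : ∀ w, I w ^ 2 = I w := by
    intro w
    simp only [I]
    split_ifs <;> norm_num
  have hIH : ∀ w, I w ≤ iuH k (Z w) := by
    intro w
    simp only [I]
    split_ifs with h
    · exact iuH_one h
    · exact iuH_nonneg _ _
  have hIq : lE D I < 1 / 12 :=
    lt_of_le_of_lt (g3 D I (fun w => iuH k (Z w)) fun w _ _ => hIH w) hq
  set A : ℝ := lE D (fun w => Z w ^ 2 * I w) with hA
  have hA2 : A ^ 2 ≤ lE D (fun w => Z w ^ 4) * lE D I := by
    have h5 := g4 D (fun w => Z w ^ 2) I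
    have e1 : (fun w => (Z w ^ 2) ^ 2) = fun w => Z w ^ 4 := by
      funext w
      ring
    have e2 : (fun w => I w ^ 2) = I := funext hI
    rw [e2, e1] at h5
    exact h5
  have hI0 : 0 ≤ lE D I := by
    have h6 := g3 D (fun _ => 0) I (fun w _ _ => by
      simp only [I]
      split_ifs <;> norm_num)
    have h7 : lE D (fun _ => (0 : ℝ)) = 0 := by
      have h8 := g2 D 0 0 (fun _ => 1) (fun _ => 1)
      simpa using h8
    rw [h7] at h6
    exact h6
  have hA3 : A ^ 2 < (m / 2) ^ 2 := by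
    have h8 : lE D (fun w => Z w ^ 4) * lE D I ≤ 3 * m ^ 2 * lE D I :=
      mul_le_mul_of_nonneg_right h4 hI0
    have h9 : 3 * m ^ 2 * lE D I < 3 * m ^ 2 * (1 / 12) :=
      mul_lt_mul_of_pos_left hIq (by positivity)
    calc A ^ 2 ≤ _ := hA2
      _ ≤ _ := h8
      _ < _ := h9
      _ = (m / 2) ^ 2 := by ring
  have hA4 : A < m / 2 := by
    by_contra hh
    push Not at hh
    have : (m / 2) ^ 2 ≤ A ^ 2 := pow_le_pow_left₀ (by linarith) hh 2
    linarith
  have h10 : m ≤ m / 2 + A := by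
    have h11 := g3 D (fun w => Z w ^ 2) (fun w => (m / 2) * 1 + 1 * (Z w ^ 2 * I w)) (by
      intro w _ _
      simp only [I]
      split_ifs with h
      · linarith
      · push Not at h
        have h12 : Z w ^ 2 ≤ ((k : ℝ) + 1) ^ 2 := by
          rw [← sq_abs]
          exact pow_le_pow_left₀ (abs_nonneg _) h.le 2
        linarith)
    have h13 := g2 D (m / 2) 1 (fun _ => 1) (fun w => Z w ^ 2 * I w)
    rw [h13, g1 D, mul_one, one_mul] at h11
    exact h11
  linarith

theorem inUpS (h1 : Fourth) (h2 : FacesSimp) (h3 : LEFacts) : InUpS := by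
  intro X _ P _ Ω σ Γ hL
  -- the test function
  obtain ⟨z₀, hz₀⟩ := hL.ne
  obtain ⟨ε, hε, hball⟩ := Metric.isOpen_iff.1 hL.op z₀ hz₀
  let f : ContDiffBump z₀ := ⟨ε / 4, ε / 2, by linarith, by linarith⟩
  have hf : TestFn Ω f := by
    refine ⟨f.contDiff, f.hasCompactSupport, ?_⟩
    rw [f.tsupport_eq]
    exact (closedBall_subset_ball (by change ε / 2 < ε; linarith)).trans hball
  obtain ⟨k, hk⟩ := iu_int P (σ f) (hL.measS f hf)
  have hcv := hL.cvS f hf (iuH k) (iuH_cont k) ⟨1, fun y => by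
    rw [abs_of_nonneg (iuH_nonneg _ _)]
    exact iuH_le _ _⟩
  have hev := hcv.eventually (gt_mem_nhds (hk.trans (show (1 / 24 : ℝ) < 1 / 12 by norm_num)))
  obtain ⟨δ₀, hδ₀, hsub⟩ := mem_nhdsGT_iff_exists_Ioo_subset.1 hev
  refine ⟨f, z₀, ε / 4, 2 * ((k : ℝ) + 1) ^ 2, δ₀, hf, fun p => f.nonneg, by linarith, ?_,
    hδ₀, ?_⟩
  · intro p hp
    exact (f.one_of_mem_closedBall hp).ge
  · intro δ hδ hδ'
    refine iu_moment h3 _ _ k ?_ (hsub ⟨hδ, hδ'⟩)
    have hS := (h2 Ω δ hL.bdd hL.conn hδ).1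
    have h5 := h1 (faces Ω δ) hS (fun u => δ ^ (15 / 8 : ℝ) * f (ctr δ u))
    have hpos : 0 ≤ δ ^ (15 / 8 : ℝ) := Real.rpow_nonneg hδ.le _
    have e1 : ∀ w, ∑ u ∈ faces Ω δ, |δ ^ (15 / 8 : ℝ) * f (ctr δ u)| * sgn w u = sf Ω δ f w := by
      intro w
      unfold sf
      rw [Finset.mul_sum]
      refine Finset.sum_congr rfl fun u _ => ?_
      rw [abs_of_nonneg (mul_nonneg hpos f.nonneg), mul_assoc]
    have e2 : ∀ w, ∑ u ∈ faces Ω δ, δ ^ (15 / 8 : ℝ) * f (ctr δ u) * sgn w u = sf Ω δ f w := by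
      intro w
      unfold sf
      rw [Finset.mul_sum]
      refine Finset.sum_congr rfl fun u _ => ?_
      rw [mul_assoc]
    simp only [e1, e2] at h5
    exact h5

end Pool.Agent.Lib.MP_6d40c9_pr
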