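import Pool.Agent.Lib.MP_6d40c9_pr.SpecM

/-!
# The critical Ising model and the loop measure (MP_6d40c9_pr)
-/

set_option autoImplicit false

namespace Pool.Agent.Lib.MP_6d40c9_pr

open Finset MeasureTheory Filter Topology TopologicalSpace
open scoped BigOperators symmDiff

theorem isingLoop_LF_mono {A F : Finset Pt} (h : A ⊆ F) : LF A ⊆ LF F := by
  unfold LF
  exact Finset.biUnion_subset_biUnion_of_subset_left _ h

theorem isingLoop_mem_fa (A : Finset Pt) (e : Edge) (h : fa e ∈ A) : e ∈ LF A := by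
  unfold LF
  rw [Finset.mem_biUnion]
  refine ⟨fa e, h, ?_⟩
  obtain ⟨u, s⟩ := e
  cases s <;> simp [fa]

theorem isingLoop_mem_fb (A : Finset Pt) (e : Edge) (h : fb e ∈ A) : e ∈ LF A := by
  unfold LF
  rw [Finset.mem_biUnion]
  refine ⟨fb e, h, ?_⟩
  obtain ⟨⟨i, j⟩, s⟩ := e
  cases s <;> simp [fb]

theorem isingLoop_walls {A F : Finset Pt} (h : A ⊆ F) :
    walls A = (LF F).filter fun e => ¬ (fa e ∈ A ↔ fb e ∈ A) := by
  unfold walls
  ext e
  rw [Finset.mem_filter, Finset.mem_filter]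
  constructor
  · rintro ⟨h1, h2⟩
    exact ⟨isingLoop_LF_mono h h1, h2⟩
  · rintro ⟨-, h2⟩
    refine ⟨?_, h2⟩
    by_cases h3 : fa e ∈ A
    · exact isingLoop_mem_fa A e h3
    · by_cases h4 : fb e ∈ A
      · exact isingLoop_mem_fb A e h4
      · exact absurd (iff_of_false h3 h4) h2

theorem isingLoop_spin_mul (A : Finset Pt) (e : Edge) :
    spin A (fa e) * spin A (fb e) = 1 - 2 * (if ¬ (fa e ∈ A ↔ fb e ∈ A) then 1 else 0) := by
  unfold spin
  by_cases h1 : fa e ∈ A <;> by_cases h2 : fb e ∈ A <;> simp [h1, h2] <;> norm_num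

theorem isingLoop_sum {A F : Finset Pt} (h : A ⊆ F) :
    ∑ e ∈ LF F, spin A (fa e) * spin A (fb e) =
      ((LF F).card : ℝ) - 2 * ((walls A).card : ℝ) := by
  rw [isingLoop_walls h, Finset.sum_congr rfl fun e _ => isingLoop_spin_mul A e,
    Finset.sum_sub_distrib, ← Finset.mul_sum, Finset.sum_const, nsmul_eq_mul, mul_one,
    Finset.card_filter]
  push_cast
  rfl

theorem isingLoop_exp : Real.exp (-Real.log (1 + Real.sqrt 2)) = xc := by
  have h1 : (0 : ℝ) < 1 + Real.sqrt 2 := by positivity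
  rw [Real.exp_neg, Real.exp_log h1]
  unfold xc
  have h2 : Real.sqrt 2 * Real.sqrt 2 = 2 := Real.mul_self_sqrt (by norm_num)
  exact inv_eq_of_mul_eq_one_right (by linarith)

theorem isingLoop_boltz {A F : Finset Pt} (h : A ⊆ F) :
    boltz F A = Real.exp (Real.log (1 + Real.sqrt 2) / 2 * ((LF F).card : ℝ)) *
      ∏ _e ∈ walls A, xc := by
  unfold boltz
  rw [isingLoop_sum h, Finset.prod_const, ← isingLoop_exp, ← Real.exp_nat_mul, ← Real.exp_add]
  congr 1
  ring

theorem isingLoop_one (h2 : LowTemp) (F : Finset Pt) (hF : Simp F) (g : Finset Edge → ℝ) :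
    isingE F (fun A => g (walls A)) = lE (LF F) g := by
  have e1 : ∀ g : Finset Edge → ℝ, ∑ A ∈ F.powerset, boltz F A * g (walls A) =
      Real.exp (Real.log (1 + Real.sqrt 2) / 2 * ((LF F).card : ℝ)) *
        ∑ A ∈ F.powerset, (∏ _e ∈ walls A, xc) * g (walls A) := by
    intro g
    rw [Finset.mul_sum]
    refine Finset.sum_congr rfl fun A hA => ?_
    rw [isingLoop_boltz (Finset.mem_powerset.1 hA), mul_assoc]
  have e2 : ∑ A ∈ F.powerset, boltz F A =
      Real.exp (Real.log (1 + Real.sqrt 2) / 2 * ((LF F).card : ℝ)) *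
        ∑ A ∈ F.powerset, (∏ _e ∈ walls A, xc) * (fun _ => (1 : ℝ)) (walls A) := by
    have e3 := e1 (fun _ => 1)
    simp only [mul_one] at e3 ⊢
    exact e3
  unfold isingE
  rw [e1, e2, h2 F hF (fun _ => xc) g, h2 F hF (fun _ => xc) (fun _ => 1),
    mul_div_mul_left _ _ (Real.exp_pos _).ne']
  unfold lE lpE Zp
  refine congrArg₂ (fun a b : ℝ => a / b) ?_ ?_
  · refine Finset.sum_congr rfl fun w _ => ?_
    by_cases hw : bdy bdV w = 0
    · have hw' : Even' w := hw
      rw [if_pos hw, if_pos hw']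
    · have hw' : ¬ Even' w := hw
      rw [if_neg hw, if_neg hw']
  · refine Finset.sum_congr rfl fun w _ => ?_
    by_cases hw : bdy bdV w = 0
    · have hw' : Even' w := hw
      rw [if_pos hw, if_pos hw', mul_one]
    · have hw' : ¬ Even' w := hw
      rw [if_neg hw, if_neg hw']

theorem isingLoop_two (h1 : GridFacts) (A : Finset Pt) (u : Pt) : spin A u = sgn (walls A) u := by
  have h2 := (h1.2.1 A).2.2 u
  unfold spin sgn
  by_cases h : u ∈ A
  · rw [if_pos h, (h2.2 h).neg_one_pow]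
  · rw [if_neg h, Even.neg_one_pow]
    exact Nat.not_odd_iff_even.1 fun h3 => h (h2.1 h3)

theorem isingLoop (h1 : GridFacts) (h2 : LowTemp) : IsingLoop := by
  refine ⟨fun F hF g => isingLoop_one h2 F hF g, isingLoop_two h1, ?_⟩
  intro Ω δ f A
  unfold spinField sf
  congr 1
  refine Finset.sum_congr rfl fun u _ => ?_
  rw [isingLoop_two h1, mul_comm]

end Pool.Agent.Lib.MP_6d40c9_pr
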