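import Pool.Agent.Lib.MP_6d40c9_pr.SpecL

/-!
# Joint convergence of the spin field and the numbers of loops of each status
-/

set_option autoImplicit false

namespace Pool.Agent.Lib.MP_6d40c9_pr

open Finset MeasureTheory Filter Topology TopologicalSpace Metric
open scoped BigOperators

private lemma jcs_stat_mem (p : Par) (K L : Set (ℝ × ℝ)) : stat p K L ∈ Sts p := by
  unfold stat Sts
  rw [Finset.mem_product, Finset.mem_product]
  refine ⟨Finset.mem_powerset.2 (Finset.filter_subset _ _),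
    Finset.mem_powerset.2 (Finset.filter_subset _ _),
    Finset.mem_powerset.2 (Finset.filter_subset _ _)⟩

private lemma jcs_nst_zero (p : Par) (δ : ℝ) (w : Finset Edge) (s : St) (hs : s ∉ Sts p) :
    nst p δ w s = 0 := by
  unfold nst
  rw [Finset.card_eq_zero, Finset.filter_eq_empty_iff]
  rintro c - ⟨-, h⟩
  exact hs (h ▸ jcs_stat_mem p _ _)

private lemma jcs_nG_zero {X : Type} (p : Par) (Γ : X → Set (NonemptyCompacts (ℝ × ℝ))) (ω : X)
    (s : St) (hs : s ∉ Sts p) : nG p Γ ω s = 0 := by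
  unfold nG
  have : {K | K ∈ Γ ω ∧ p.κ ≤ diam (K : Set (ℝ × ℝ)) ∧
      stat p (K : Set (ℝ × ℝ)) (fill (K : Set (ℝ × ℝ))) = s} = ∅ := by
    ext K
    simp only [Set.mem_empty_iff_false, iff_false]
    rintro ⟨-, -, h⟩
    exact hs (h ▸ jcs_stat_mem p _ _)
  rw [this, Set.ncard_empty]

/-- The tent function. -/
private noncomputable def jcsTent (y a : ℝ) : ℝ := max 0 (1 - |y - a|)

private lemma jcsTent_nonneg (y a : ℝ) : 0 ≤ jcsTent y a := le_max_left _ _

private lemma jcsTent_le (y a : ℝ) : jcsTent y a ≤ 1 :=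
  max_le zero_le_one (by linarith [abs_nonneg (y - a)])

private lemma jcsTent_nat (m n : ℕ) : jcsTent (m : ℝ) (n : ℝ) = if m = n then 1 else 0 := by
  unfold jcsTent
  by_cases h : m = n
  · simp [h]
  · rw [if_neg h]
    apply max_eq_left
    have h1 : (1 : ℤ) ≤ |(m : ℤ) - n| := by
      apply Int.one_le_abs
      omega
    have h2 : (1 : ℝ) ≤ |(m : ℝ) - n| := by exact_mod_cast h1
    linarith

private lemma jcs_prod_tent {n : ℕ} (a b : Fin n → ℕ) :
    ∏ j, jcsTent (a j : ℝ) (b j : ℝ) = if ∀ j, a j = b j then 1 else 0 := by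
  by_cases h : ∀ j, a j = b j
  · rw [if_pos h]
    apply Finset.prod_eq_one
    intro j _
    rw [jcsTent_nat, if_pos (h j)]
  · rw [if_neg h]
    push Not at h
    obtain ⟨j, hj⟩ := h
    apply Finset.prod_eq_zero (Finset.mem_univ j)
    rw [jcsTent_nat, if_neg hj]

/-- The continuous function. -/
private noncomputable def jcsH (G : ℝ → ℝ) {n : ℕ} (b : Fin n → ℕ) (y : ℝ × (Fin n → ℝ)) : ℝ :=
  G y.1 * ∏ j, jcsTent (y.2 j) (b j : ℝ)

private lemma jcsH_cont (G : ℝ → ℝ) (hG : Continuous G) {n : ℕ} (b : Fin n → ℕ) :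
    Continuous (jcsH G b) := by
  unfold jcsH jcsTent
  fun_prop

private lemma jcsProd_abs {n : ℕ} (b : Fin n → ℕ) (y : Fin n → ℝ) :
    0 ≤ ∏ j, jcsTent (y j) (b j : ℝ) ∧ ∏ j, jcsTent (y j) (b j : ℝ) ≤ 1 :=
  ⟨Finset.prod_nonneg fun _ _ => jcsTent_nonneg _ _,
    Finset.prod_le_one (fun _ _ => jcsTent_nonneg _ _) fun _ _ => jcsTent_le _ _⟩

private lemma jcsH_abs (G : ℝ → ℝ) (C : ℝ) (hC : ∀ y, |G y| ≤ C) {n : ℕ} (b : Fin n → ℕ)
    (y : ℝ × (Fin n → ℝ)) : |jcsH G b y| ≤ C := by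
  unfold jcsH
  rw [abs_mul, abs_of_nonneg (jcsProd_abs b y.2).1]
  have h1 := (jcsProd_abs b y.2).2
  have h2 := abs_nonneg (G y.1)
  calc |G y.1| * ∏ j, jcsTent (y.2 j) (b j : ℝ) ≤ |G y.1| * 1 :=
        mul_le_mul_of_nonneg_left h1 h2
    _ ≤ C := by rw [mul_one]; exact hC _

theorem jCS (h1 : PhiS) (h2 : LEFacts) : JCS := by
  classical
  intro X _ P _ p σ Γ δs hp hL hgen hδ hδ0 hLJ f hf G hG hGb v
  obtain ⟨C, hC⟩ := hGb
  have hC0 : 0 ≤ C := (abs_nonneg _).trans (hC 0)
  obtain ⟨hφ, hlat, hlim, hprob⟩ := h1 p hp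
  obtain ⟨hae, hsmall⟩ := hprob X P σ Γ hL hgen
  obtain ⟨f1, f2, f3, f4, f5, f6, f7⟩ := h2
  by_cases hv : ∃ s, s ∉ Sts p ∧ v s ≠ 0
  · obtain ⟨s, hs, hvs⟩ := hv
    have e1 : ∀ k, lE (DD p.Ω (δs k)) (fun w =>
        if nst p (δs k) w = v then G (sf p.Ω (δs k) f w) else 0) = 0 := by
      intro k
      have : (fun w => if nst p (δs k) w = v then G (sf p.Ω (δs k) f w) else 0) =
          fun w => (0 : ℝ) * 1 + 0 * 1 := by
        funext w
        rw [if_neg]
        · simp
        · intro h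
          apply hvs
          rw [← h]
          exact jcs_nst_zero p _ w s hs
      rw [this, f2]
      simp
    have e2 : (∫ ω, (if nG p Γ ω = v then G (σ f ω) else 0) ∂P) = 0 := by
      have : (fun ω => if nG p Γ ω = v then G (σ f ω) else 0) = fun _ => (0 : ℝ) := by
        funext ω
        rw [if_neg]
        intro h
        apply hvs
        rw [← h]
        exact jcs_nG_zero p Γ ω s hs
      rw [this]
      simp
    simp only [e1, e2]
    exact tendsto_const_nhds
  push Not at hv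
  -- enumeration
  obtain ⟨n, ⟨e⟩⟩ : ∃ n, Nonempty ({x // x ∈ Sts p} ≃ Fin n) := ⟨_, ⟨(Sts p).equivFin⟩⟩
  set b : Fin n → ℕ := fun j => v (e.symm j) with hb
  have hext : ∀ u : St → ℕ, (∀ s, s ∉ Sts p → u s = 0) →
      (u = v ↔ ∀ j, u (e.symm j) = b j) := by
    intro u hu
    constructor
    · rintro rfl j
      rfl
    · intro h
      funext s
      by_cases hs : s ∈ Sts p
      · have := h (e ⟨s, hs⟩)
        simp only [hb, Equiv.symm_apply_apply] at this
        exact this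
      · rw [hu s hs, hv s hs]
  have hκ := hp.hκ
  -- the functions
  have hφL : ∀ l, 0 < l → l < p.κ / 2 → ∀ j : Fin n, LoopFn (phi p l (e.symm j)) :=
    fun l hl hl' j => (hφ l _ hl hl').1
  -- step A: lattice
  have hA : ∀ l, 0 < l → l < p.κ / 2 → Tendsto (fun k => lE (DD p.Ω (δs k)) (fun w =>
      jcsH G b (sf p.Ω (δs k) f w, fun j => wSt (δs k) (phi p l (e.symm j)) w))) atTop
      (𝓝 (∫ ω, jcsH G b (σ f ω, fun j => loopStat (phi p l (e.symm j)) (Γ ω)) ∂P)) := by
    intro l hl hl'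
    exact hLJ f n (fun j => phi p l (e.symm j)) hf (hφL l hl hl') (jcsH G b) (jcsH_cont G hG b)
      ⟨C, jcsH_abs G C hC b⟩
  -- step B: limit of the integrals
  obtain ⟨ls, hls, hls', hls0⟩ : ∃ ls : ℕ → ℝ, (∀ j, 0 < ls j) ∧ (∀ j, ls j < p.κ / 2) ∧
      Tendsto ls atTop (𝓝 0) := by
    refine ⟨fun j => p.κ / 3 * (1 / ((j : ℝ) + 1)), fun j => by positivity, fun j => ?_, ?_⟩
    · have : 1 / ((j : ℝ) + 1) ≤ 1 := by
        rw [div_le_one (by positivity)]
        have : (0 : ℝ) ≤ j := Nat.cast_nonneg _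
        linarith
      have h3 : p.κ / 3 * (1 / ((j : ℝ) + 1)) ≤ p.κ / 3 * 1 :=
        mul_le_mul_of_nonneg_left this (by positivity)
      linarith
    · have := tendsto_one_div_add_atTop_nhds_zero_nat (𝕜 := ℝ)
      have h3 := this.const_mul (p.κ / 3)
      rw [mul_zero] at h3
      exact h3
  have hB : Tendsto (fun i => ∫ ω, jcsH G b (σ f ω, fun j =>
      loopStat (phi p (ls i) (e.symm j)) (Γ ω)) ∂P) atTop
      (𝓝 (∫ ω, (if nG p Γ ω = v then G (σ f ω) else 0) ∂P)) := by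
    apply tendsto_integral_of_dominated_convergence (fun _ => C)
    · intro i
      apply Measurable.aestronglyMeasurable
      apply (jcsH_cont G hG b).measurable.comp
      apply Measurable.prodMk (hL.measS f hf)
      exact measurable_pi_lambda _ fun j => hL.measW _ (hφL _ (hls i) (hls' i) j)
    · exact integrable_const _
    · intro i
      filter_upwards with ω
      rw [Real.norm_eq_abs]
      exact jcsH_abs G C hC b _
    · filter_upwards [hae, hL.nest.finite] with ω h3 h4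
      obtain ⟨l₀, hl₀, h5⟩ := h3
      have h6 : ∀ᶠ i in atTop, ls i < l₀ := hls0.eventually_lt_const hl₀
      apply tendsto_const_nhds.congr'
      filter_upwards [h6] with i hi
      have h7 : ∀ j : Fin n, loopStat (phi p (ls i) (e.symm j)) (Γ ω) =
          ((nG p Γ ω (e.symm j) : ℕ) : ℝ) := by
        intro j
        exact hlim (Γ ω) (ls i) h4 (hls i) (hls' i) (h5 _ (hls i) hi) _ (e.symm j).2
      unfold jcsH
      simp only [h7]
      rw [jcs_prod_tent (fun j => nG p Γ ω (e.symm j)) b]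
      by_cases h8 : nG p Γ ω = v
      · rw [if_pos h8, if_pos ((hext _ (jcs_nG_zero p Γ ω)).1 h8), mul_one]
      · rw [if_neg h8, if_neg (fun h => h8 ((hext _ (jcs_nG_zero p Γ ω)).2 h)), mul_zero]
  -- step C: comparison on the lattice
  have hCmp : ∀ l, 0 < l → l < p.κ / 2 → ∀ δ, 0 < δ → 16 * δ ≤ p.r →
      |lE (DD p.Ω δ) (fun w => if nst p δ w = v then G (sf p.Ω δ f w) else 0) -
        lE (DD p.Ω δ) (fun w =>
          jcsH G b (sf p.Ω δ f w, fun j => wSt δ (phi p l (e.symm j)) w))| ≤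
      2 * C * lP (DD p.Ω δ) (fun w => ∃ c ∈ comps w, crit p l (K1 δ c)) := by
    intro l hl hl' δ hδ' h16
    have e1 : lE (DD p.Ω δ) (fun w => if nst p δ w = v then G (sf p.Ω δ f w) else 0) -
        lE (DD p.Ω δ) (fun w =>
          jcsH G b (sf p.Ω δ f w, fun j => wSt δ (phi p l (e.symm j)) w)) =
        lE (DD p.Ω δ) (fun w => (if nst p δ w = v then G (sf p.Ω δ f w) else 0) -
          jcsH G b (sf p.Ω δ f w, fun j => wSt δ (phi p l (e.symm j)) w)) := by
      have h3 := f2 (DD p.Ω δ) 1 (-1) (fun w => if nst p δ w = v then G (sf p.Ω δ f w) else 0)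
        (fun w => jcsH G b (sf p.Ω δ f w, fun j => wSt δ (phi p l (e.symm j)) w))
      rw [one_mul, neg_one_mul, ← sub_eq_add_neg] at h3
      rw [← h3]
      congr 1
      funext w
      ring
    rw [e1]
    refine (f6 _ _).trans ?_
    obtain ⟨q, hq⟩ : ∃ q : Finset Edge → ℝ, q = fun w =>
      if ∃ c ∈ comps w, crit p l (K1 δ c) then (1 : ℝ) else 0 := ⟨_, rfl⟩
    have h4 : lP (DD p.Ω δ) (fun w => ∃ c ∈ comps w, crit p l (K1 δ c)) = lE (DD p.Ω δ) q := by
      unfold lP lpP lE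
      congr 1
      funext w
      rw [hq]
      by_cases hw : ∃ c ∈ comps w, crit p l (K1 δ c)
      · simp only [if_pos hw]
      · simp only [if_neg hw]
    have h5 := f2 (DD p.Ω δ) (2 * C) 0 q (fun _ => 0)
    rw [← h4] at h5
    have h5' : 2 * C * lP (DD p.Ω δ) (fun w => ∃ c ∈ comps w, crit p l (K1 δ c)) =
        lE (DD p.Ω δ) (fun w => 2 * C * q w + 0 * 0) := by
      rw [h5]
      ring
    rw [h5']
    apply f3
    intro w _ hw
    by_cases hcr : ∃ c ∈ comps w, crit p l (K1 δ c)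
    · have hqw : q w = 1 := by rw [hq]; simp only [if_pos hcr]
      rw [hqw, mul_one, mul_zero, add_zero]
      have h6 := jcsH_abs G C hC b (sf p.Ω δ f w, fun j => wSt δ (phi p l (e.symm j)) w)
      have h7 : |if nst p δ w = v then G (sf p.Ω δ f w) else 0| ≤ C := by
        split_ifs
        · exact hC _
        · rw [abs_zero]; exact hC0
      have h8 := abs_sub (if nst p δ w = v then G (sf p.Ω δ f w) else 0)
        (jcsH G b (sf p.Ω δ f w, fun j => wSt δ (phi p l (e.symm j)) w))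
      linarith
    · have hqw : q w = 0 := by rw [hq]; simp only [if_neg hcr]
      rw [hqw, mul_zero, mul_zero, add_zero]
      push Not at hcr
      have h7 : ∀ j : Fin n, wSt δ (phi p l (e.symm j)) w =
          ((nst p δ w (e.symm j) : ℕ) : ℝ) := by
        intro j
        exact hlat δ l w hδ' h16 hl hl' hw hcr _ (e.symm j).2
      unfold jcsH
      simp only [h7]
      rw [jcs_prod_tent (fun j => nst p δ w (e.symm j)) b]
      by_cases h8 : nst p δ w = v
      · rw [if_pos h8, if_pos ((hext _ (jcs_nst_zero p δ w)).1 h8), mul_one]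
        simp
      · rw [if_neg h8, if_neg (fun h => h8 ((hext _ (jcs_nst_zero p δ w)).2 h)), mul_zero]
        simp
  -- conclusion
  rw [Metric.tendsto_atTop]
  intro ε hε
  obtain ⟨l₀, hl₀, δ₀, hδ₀, h3⟩ := hsmall (ε / (4 * (2 * C + 1))) (by positivity)
  have h4 : ∀ᶠ i in atTop, ls i < l₀ := hls0.eventually_lt_const hl₀
  have h5 := (Metric.tendsto_nhds.1 hB) (ε / 4) (by positivity)
  obtain ⟨i, hi, hi'⟩ := (h4.and h5).exists
  have h6 := (Metric.tendsto_nhds.1 (hA (ls i) (hls i) (hls' i))) (ε / 4) (by positivity)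
  have h7 : ∀ᶠ k in atTop, δs k < min δ₀ (p.r / 16) :=
    hδ0.eventually_lt_const (lt_min hδ₀ (by linarith [hp.hr]))
  obtain ⟨N, hN⟩ := eventually_atTop.1 (h6.and h7)
  refine ⟨N, fun k hk => ?_⟩
  obtain ⟨h8, h9⟩ := hN k hk
  have h10 : δs k < δ₀ := h9.trans_le (min_le_left _ _)
  have h11 : 16 * δs k ≤ p.r := by linarith [h9.trans_le (min_le_right _ _)]
  have h12 := hCmp (ls i) (hls i) (hls' i) (δs k) (hδ k) h11
  have h13 := h3 (ls i) (hls i) hi (δs k) (hδ k) h10
  have h14 : 2 * C * lP (DD p.Ω (δs k)) (fun w => ∃ c ∈ comps w, crit p (ls i) (K1 (δs k) c)) ≤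
      ε / 4 := by
    calc 2 * C * lP (DD p.Ω (δs k)) (fun w => ∃ c ∈ comps w, crit p (ls i) (K1 (δs k) c)) ≤
          2 * C * (ε / (4 * (2 * C + 1))) := mul_le_mul_of_nonneg_left h13 (by positivity)
      _ ≤ (2 * C + 1) * (ε / (4 * (2 * C + 1))) :=
          mul_le_mul_of_nonneg_right (by linarith) (by positivity)
      _ = ε / 4 := by field_simp
  rw [Real.dist_eq] at h8 hi' ⊢
  rw [abs_lt] at h8 hi' ⊢
  rw [abs_le] at h12
  constructor <;> linarith

end Pool.Agent.Lib.MP_6d40c9_pr
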