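import Pool.Agent.Lib.MP_6d40c9_pr.SpecM

/-!
# Two boxes joined in the random cluster measure
-/

set_option autoImplicit false

namespace Pool.Agent.Lib.MP_6d40c9_pr

open Finset
open scoped BigOperators symmDiff

private lemma jus_mem_box (z v : Pt) (n : ℕ) :
    v ∈ box z n ↔ (z.1 - n ≤ v.1 ∧ v.1 ≤ z.1 + n) ∧ (z.2 - n ≤ v.2 ∧ v.2 ≤ z.2 + n) := by
  unfold box
  rw [mem_product, mem_Icc, mem_Icc]

private lemma jus_mem_EV (Λ : Finset Pt) (e : Edge) : e ∈ EV Λ ↔ src e ∈ Λ ∨ tgt e ∈ Λ := by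
  obtain ⟨⟨p, q⟩, b⟩ := e
  unfold EV src tgt
  simp only [mem_biUnion, mem_insert, mem_singleton]
  constructor
  · rintro ⟨v, hv, h | h | h | h⟩
    · left
      simp only [Prod.mk.injEq] at h
      rw [h.1]; exact hv
    · left
      simp only [Prod.mk.injEq] at h
      rw [h.1]; exact hv
    · right
      simp only [Prod.mk.injEq] at h
      obtain ⟨⟨h1, h2⟩, h3⟩ := h
      subst h3
      simp only [Bool.false_eq_true, if_false]
      have : ((p + 1, q) : Pt) = v := by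
        rw [h1, h2]; ext <;> simp
      rw [this]; exact hv
    · right
      simp only [Prod.mk.injEq] at h
      obtain ⟨⟨h1, h2⟩, h3⟩ := h
      subst h3
      simp only [if_true]
      have : ((p, q + 1) : Pt) = v := by
        rw [h1, h2]; ext <;> simp
      rw [this]; exact hv
  · rintro (h | h)
    · refine ⟨(p, q), h, ?_⟩
      cases b
      · left; rfl
      · right; left; rfl
    · cases b
      · simp only [Bool.false_eq_true, if_false] at h
        refine ⟨(p + 1, q), h, ?_⟩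
        right; right; left
        simp
      · simp only [if_true] at h
        refine ⟨(p, q + 1), h, ?_⟩
        right; right; right
        simp

private lemma jus_src_tgt (e : Edge) :
    ((tgt e).1 = (src e).1 + 1 ∧ (tgt e).2 = (src e).2) ∨
      ((tgt e).1 = (src e).1 ∧ (tgt e).2 = (src e).2 + 1) := by
  obtain ⟨⟨p, q⟩, b⟩ := e
  unfold src tgt
  cases b
  · left; simp
  · right; simp

private lemma jus_reach_mono {ω ω' : Finset Edge} (h : ω ⊆ ω') {a b : Pt} (hr : Reach ω a b) :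
    Reach ω' a b := by
  unfold Reach at *
  induction hr with
  | refl => exact Relation.ReflTransGen.refl
  | tail _ h2 ih =>
    obtain ⟨e, he, h1⟩ := h2
    exact Relation.ReflTransGen.tail ih ⟨e, h he, h1⟩

private lemma jus_reach_symm {ω : Finset Edge} {a b : Pt} (hr : Reach ω a b) : Reach ω b a := by
  unfold Reach at *
  induction hr with
  | refl => exact Relation.ReflTransGen.refl
  | tail _ h2 ih =>
    obtain ⟨e, he, h1⟩ := h2
    exact Relation.ReflTransGen.head ⟨e, he, h1.symm⟩ ih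

private lemma jus_arm_mono {Λ Λ' : Finset Pt} {ω ω' : Finset Edge} (h : ω ⊆ ω')
    (ha : Arm Λ Λ' ω) : Arm Λ Λ' ω' := by
  obtain ⟨a, h1, b, h2, h3⟩ := ha
  exact ⟨a, h1, b, h2, jus_reach_mono h h3⟩

private lemma jus_cut (Λ : Finset Pt) (ω : Finset Edge) (b : Pt) (hb : b ∉ Λ) (a : Pt)
    (h : Reach ω a b) : a ∈ Λ → ∃ b', b' ∉ Λ ∧ Reach (ω ∩ EV Λ) a b' := by
  unfold Reach at h
  induction h using Relation.ReflTransGen.head_induction_on with
  | refl => exact fun h => absurd h hb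
  | @head a c h1 _ ih =>
    intro ha
    obtain ⟨e, he, hac⟩ := h1
    have heV : e ∈ EV Λ := by
      rw [jus_mem_EV]
      rcases hac with ⟨h2, _⟩ | ⟨_, h2⟩
      · left; rw [h2]; exact ha
      · right; rw [h2]; exact ha
    by_cases hc : c ∈ Λ
    · obtain ⟨b', h2, h3⟩ := ih hc
      refine ⟨b', h2, ?_⟩
      unfold Reach at *
      exact Relation.ReflTransGen.head ⟨e, mem_inter.mpr ⟨he, heV⟩, hac⟩ h3
    · refine ⟨c, hc, ?_⟩
      unfold Reach
      exact Relation.ReflTransGen.single ⟨e, mem_inter.mpr ⟨he, heV⟩, hac⟩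

private lemma jus_arm_cut {Λ Λ' : Finset Pt} (hΛ : Λ ⊆ Λ') {ω : Finset Edge}
    (ha : Arm Λ Λ' ω) : Arm Λ Λ' (ω ∩ EV Λ') := by
  obtain ⟨a, h1, b, h2, h3⟩ := ha
  obtain ⟨b', h4, h5⟩ := jus_cut Λ' ω b h2 a h3 (hΛ h1)
  exact ⟨a, h1, b', h4, h5⟩

private lemma jus_xc : 0 ≤ xc ∧ xc ≤ 1 := by
  unfold xc
  have h1 : (1 : ℝ) ≤ Real.sqrt 2 := by
    rw [show (1 : ℝ) = Real.sqrt 1 by simp]
    exact Real.sqrt_le_sqrt (by norm_num)
  have h2 : Real.sqrt 2 ≤ 2 := by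
    rw [Real.sqrt_le_left (by norm_num)]
    norm_num
  constructor <;> linarith

private lemma jus_char2 (g : Pt → ZMod 2) : g + g = 0 := by
  funext v
  exact CharTwo.add_self_eq_zero (g v)

private lemma jus_mono (h4 : Coupling) (bd : Edge → Pt → ZMod 2) (D : Finset Edge)
    (P Q : Finset Edge → Prop) (h : ∀ ω ⊆ D, P ω → Q ω) :
    fkP bd D (fun _ => xc) P ≤ fkP bd D (fun _ => xc) Q := by
  obtain ⟨-, -, c3, -, -, -, c7⟩ := h4 Edge (Pt → ZMod 2) jus_char2 bd D (fun _ => xc)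
    (fun _ _ => jus_xc.1) (fun _ _ => jus_xc.2)
  rw [← c3 P, ← c3 Q]
  exact c7 _ _ (fun W ω _ h2 _ h3 => h ω h2 h3)

private lemma jus_nonneg (h4 : Coupling) (bd : Edge → Pt → ZMod 2) (D : Finset Edge)
    (P : Finset Edge → Prop) : 0 ≤ fkP bd D (fun _ => xc) P := by
  obtain ⟨-, -, -, -, -, ⟨c6, c6'⟩, -⟩ := h4 Edge (Pt → ZMod 2) jus_char2 bd D (fun _ => xc)
    (fun _ _ => jus_xc.1) (fun _ _ => jus_xc.2)
  unfold fkP fkE
  refine div_nonneg (sum_nonneg fun ω hω => mul_nonneg (c6' ω (mem_powerset.mp hω)) ?_)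
    (le_trans zero_le_one c6)
  beta_reduce
  split_ifs <;> norm_num

private lemma jus_true (h4 : Coupling) (bd : Edge → Pt → ZMod 2) (D : Finset Edge) :
    fkP bd D (fun _ => xc) (fun _ => True) = 1 := by
  obtain ⟨c1, -, -, -, -, ⟨c6, -⟩, -⟩ := h4 Edge (Pt → ZMod 2) jus_char2 bd D (fun _ => xc)
    (fun _ _ => jus_xc.1) (fun _ _ => jus_xc.2)
  unfold fkP fkE
  simp only [if_true, mul_one]
  rw [c1, div_self]
  linarith

private lemma jus_ker (Λ : Finset Pt) (η₁ η₂ : Finset Edge) (hd : Disjoint η₁ η₂)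
    (h1 : ∀ e ∈ η₁, e ∉ EV Λ) (h : bdy bdV (η₁ ∪ η₂) = 0) : bdy (bdR Λ) η₂ = 0 := by
  unfold bdy at *
  rw [sum_union hd] at h
  funext v
  rw [Finset.sum_apply]
  by_cases hv : v ∈ Λ
  · have h2 := congrFun h v
    rw [Pi.add_apply, Finset.sum_apply, Finset.sum_apply] at h2
    have h3 : ∑ e ∈ η₁, bdV e v = 0 := by
      refine sum_eq_zero fun e he => ?_
      have h4 := h1 e he
      rw [jus_mem_EV, not_or] at h4
      unfold bdV
      rw [Pi.add_apply, Pi.single_eq_of_ne, Pi.single_eq_of_ne, add_zero]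
      · rintro rfl
        exact h4.2 hv
      · rintro rfl
        exact h4.1 hv
    rw [h3, zero_add] at h2
    rw [← h2]
    refine sum_congr rfl fun e _ => ?_
    unfold bdR
    rw [if_pos hv]
  · refine sum_eq_zero fun e _ => ?_
    unfold bdR
    rw [if_neg hv]

private lemma jus_main (h1 : ProdDom) (h2 : StochDom) (h3 : Transl) (h4 : Coupling)
    (D : Finset Edge) (z : Pt) (n k : ℕ) (P₁ : Finset Edge → Prop)
    (hdep : DepOn (D \ EV (box z k)) P₁) :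
    fkF D (fun ω => P₁ ω ∧ Arm (box z n) (box z k) (ω ∩ (D ∩ EV (box z k)))) ≤
      fkF D P₁ * uu n k := by
  unfold fkF
  have hD : D \ EV (box z k) ∪ D ∩ EV (box z k) = D := by
    rw [sdiff_union_inter]
  have hdisj : Disjoint (D \ EV (box z k)) (D ∩ EV (box z k)) := by
    rw [disjoint_left]
    intro e he he'
    exact (mem_sdiff.mp he).2 (mem_inter.mp he').2
  have hP := h1 Edge (Pt → ZMod 2) (Pt → ZMod 2) jus_char2 jus_char2 bdV (bdR (box z k))
    (D \ EV (box z k)) (D ∩ EV (box z k)) (fun _ => xc) hdisj (fun _ _ => jus_xc.1)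
    (fun _ _ => jus_xc.2)
    (fun η₁ hη₁ η₂ hη₂ h => jus_ker (box z k) η₁ η₂
      (disjoint_of_subset_left hη₁ (disjoint_of_subset_right hη₂ hdisj))
      (fun e he => (mem_sdiff.mp (hη₁ he)).2) h)
    P₁ (fun ω => Arm (box z n) (box z k) (ω ∩ (D ∩ EV (box z k)))) hdep
    (fun ω => by beta_reduce; rw [inter_assoc, inter_self])
    (fun ω ω' h5 _ h6 => jus_arm_mono (inter_subset_inter_right h5) h6)
  rw [hD] at hP
  refine hP.trans (mul_le_mul_of_nonneg_left ?_ (jus_nonneg h4 _ _ _))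
  have hS := h2 Edge (Pt → ZMod 2) (Pt → ZMod 2) jus_char2 jus_char2 (bdR (box z k))
    (bdR (box z k)) (D ∩ EV (box z k)) (EV (box z k)) (fun _ => xc) (fun _ => xc)
    inter_subset_right (fun _ _ => jus_xc.1) (fun _ _ => le_rfl) (fun _ _ => jus_xc.1)
    (fun _ _ => jus_xc.2) (fun _ _ h => h) (Arm (box z n) (box z k))
    (fun ω ω' h5 _ h6 => jus_arm_mono h5 h6)
  have hT : fkP (bdR (box z k)) (EV (box z k)) (fun _ => xc) (Arm (box z n) (box z k)) = uu n k :=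
    (h3.2.2.1 z n k).2.2
  rw [hT] at hS
  refine le_trans (jus_mono h4 _ _ _ _ ?_) hS
  intro ω _ h6
  exact jus_arm_mono inter_subset_left h6

private lemma jus_disj (z z' : Pt) (k : ℕ) (h : 2 * k + 2 ≤ ldist z z') (e : Edge) :
    e ∈ EV (box z k) → e ∉ EV (box z' k) := by
  rw [jus_mem_EV, jus_mem_EV]
  simp only [jus_mem_box]
  unfold ldist at h
  have h5 := jus_src_tgt e
  generalize src e = a at *
  generalize tgt e = b at *
  have h6 : 2 * (k : ℤ) + 2 ≤ |z.1 - z'.1| ∨ 2 * (k : ℤ) + 2 ≤ |z.2 - z'.2| := by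
    rcases le_max_iff.mp h with h | h
    · left; zify at h; exact h
    · right; zify at h; exact h
  have h7 : (2 * (k : ℤ) + 2 ≤ z.1 - z'.1 ∨ 2 * (k : ℤ) + 2 ≤ -(z.1 - z'.1)) ∨
      (2 * (k : ℤ) + 2 ≤ z.2 - z'.2 ∨ 2 * (k : ℤ) + 2 ≤ -(z.2 - z'.2)) := by
    rcases h6 with h | h
    · left; exact le_abs.mp h
    · right; exact le_abs.mp h
  intro h8 h9
  rcases h8 with ⟨⟨_, _⟩, _, _⟩ | ⟨⟨_, _⟩, _, _⟩ <;> rcases h9 with ⟨⟨_, _⟩, _, _⟩ | ⟨⟨_, _⟩, _, _⟩ <;>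
    rcases h5 with ⟨_, _⟩ | ⟨_, _⟩ <;> rcases h7 with (_ | _) | (_ | _) <;> omega

private lemma jus_far (z z' : Pt) (n k : ℕ) (hn : n ≤ k) (h : 2 * k + 2 ≤ ldist z z') (b : Pt)
    (hb : b ∈ box z' n) : b ∉ box z k := by
  rw [jus_mem_box] at *
  unfold ldist at h
  have h6 : 2 * (k : ℤ) + 2 ≤ |z.1 - z'.1| ∨ 2 * (k : ℤ) + 2 ≤ |z.2 - z'.2| := by
    rcases le_max_iff.mp h with h | h
    · left; zify at h; exact h
    · right; zify at h; exact h
  have h7 : (2 * (k : ℤ) + 2 ≤ z.1 - z'.1 ∨ 2 * (k : ℤ) + 2 ≤ -(z.1 - z'.1)) ∨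
      (2 * (k : ℤ) + 2 ≤ z.2 - z'.2 ∨ 2 * (k : ℤ) + 2 ≤ -(z.2 - z'.2)) := by
    rcases h6 with h | h
    · left; exact le_abs.mp h
    · right; exact le_abs.mp h
  obtain ⟨⟨_, _⟩, _, _⟩ := hb
  rintro ⟨⟨_, _⟩, _, _⟩
  rcases h7 with (_ | _) | (_ | _) <;> omega

private lemma jus_box_mono (z : Pt) {n k : ℕ} (hn : n ≤ k) : box z n ⊆ box z k := by
  intro v
  rw [jus_mem_box, jus_mem_box]
  rintro ⟨⟨_, _⟩, _, _⟩
  refine ⟨⟨?_, ?_⟩, ?_, ?_⟩ <;> omega

private lemma jus_comm (z z' : Pt) : ldist z z' = ldist z' z := by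
  unfold ldist
  congr 1 <;> omega

private lemma jus_two (h1 : ProdDom) (h2 : StochDom) (h3 : Transl) (h4 : Coupling)
    (D : Finset Edge) (z z' : Pt) (n k : ℕ) (hn : n ≤ k) (h : 2 * k + 2 ≤ ldist z z') :
    fkF D (Join (box z n) (box z' n)) ≤ uu n k * uu n k := by
  have hdisj : ∀ e, e ∈ EV (box z k) → e ∉ EV (box z' k) := jus_disj z z' k h
  have hu : 0 ≤ uu n k := jus_nonneg h4 _ _ _
  have hA := jus_main h1 h2 h3 h4 D z' n k
    (fun ω => Arm (box z n) (box z k) (ω ∩ (D ∩ EV (box z k)))) (by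
      intro ω
      have h5 : ω ∩ (D \ EV (box z' k)) ∩ (D ∩ EV (box z k)) = ω ∩ (D ∩ EV (box z k)) := by
        ext e
        simp only [mem_inter, mem_sdiff]
        have := hdisj e
        tauto
      beta_reduce
      rw [h5])
  have hB := jus_main h1 h2 h3 h4 D z n k (fun _ => True) (fun ω => Iff.rfl)
  have hC : fkF D (fun _ => True) = 1 := jus_true h4 _ _
  rw [hC, one_mul] at hB
  have hB' : fkF D (fun ω => Arm (box z n) (box z k) (ω ∩ (D ∩ EV (box z k)))) ≤ uu n k := by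
    refine le_trans (jus_mono h4 _ _ _ _ ?_) hB
    intro ω _ h5
    exact ⟨trivial, h5⟩
  refine le_trans (jus_mono h4 _ _ _ _ ?_) (hA.trans (mul_le_mul_of_nonneg_right hB' hu))
  rintro ω hω ⟨a, ha, b, hb, hab⟩
  have hsub : ∀ Λ : Finset Pt, ω ∩ EV Λ ⊆ ω ∩ (D ∩ EV Λ) := by
    intro Λ e he
    rw [mem_inter] at he
    rw [mem_inter, mem_inter]
    exact ⟨he.1, hω he.1, he.2⟩
  constructor
  · exact jus_arm_mono (hsub _) (jus_arm_cut (jus_box_mono z hn)
      ⟨a, ha, b, jus_far z z' n k hn h b hb, hab⟩)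
  · exact jus_arm_mono (hsub _) (jus_arm_cut (jus_box_mono z' hn)
      ⟨b, hb, a, jus_far z' z n k hn (by rw [jus_comm]; exact h) a ha, jus_reach_symm hab⟩)

theorem joinUpS (h1 : ProdDom) (h2 : StochDom) (h3 : Transl) (h4 : Coupling) : JoinUpS := by
  rintro ⟨C, hC⟩
  refine ⟨C ^ 2 * (8 : ℝ) ^ (1 / 4 : ℝ), fun D n z z' hn hd => ?_⟩
  obtain ⟨k, hk⟩ : ∃ k, k = (ldist z z' - 2) / 2 := ⟨_, rfl⟩
  have hk1 : n ≤ k := by omega
  have hk2 : 2 * k + 2 ≤ ldist z z' := by omega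
  have hk3 : ldist z z' ≤ 8 * k := by omega
  have hu : 0 ≤ uu n k := jus_nonneg h4 _ _ _
  have hT := jus_two h1 h2 h3 h4 D z z' n k hk1 hk2
  refine hT.trans ?_
  have h5 := hC n k hn hk1
  have hk0 : (0 : ℝ) < k := by
    have : 1 ≤ k := by omega
    exact_mod_cast this
  have hL0 : (0 : ℝ) < ldist z z' := by
    have : 1 ≤ ldist z z' := by omega
    exact_mod_cast this
  have hn0 : (0 : ℝ) ≤ n := Nat.cast_nonneg n
  have h6 : uu n k * uu n k ≤ (C * ((n : ℝ) / k) ^ (1 / 8 : ℝ)) * (C * ((n : ℝ) / k) ^ (1 / 8 : ℝ)) :=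
    mul_self_le_mul_self hu h5
  refine h6.trans ?_
  have h7 : (C * ((n : ℝ) / k) ^ (1 / 8 : ℝ)) * (C * ((n : ℝ) / k) ^ (1 / 8 : ℝ)) =
      C ^ 2 * ((n : ℝ) / k) ^ (1 / 4 : ℝ) := by
    have h8 : ((n : ℝ) / k) ^ (1 / 8 : ℝ) * ((n : ℝ) / k) ^ (1 / 8 : ℝ) =
        ((n : ℝ) / k) ^ (1 / 4 : ℝ) := by
      have h9 : (0 : ℝ) < n := by exact_mod_cast hn
      rw [← Real.rpow_add (div_pos h9 hk0)]
      norm_num
    rw [← h8]; ring
  rw [h7, mul_assoc]
  refine mul_le_mul_of_nonneg_left ?_ (sq_nonneg C)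
  rw [← Real.mul_rpow (by norm_num) (div_nonneg hn0 hL0.le)]
  refine Real.rpow_le_rpow (div_nonneg hn0 hk0.le) ?_ (by norm_num)
  rw [div_le_iff₀ hk0, mul_assoc, div_mul_eq_mul_div, ← mul_div_assoc, le_div_iff₀ hL0]
  have h10 : (ldist z z' : ℝ) ≤ 8 * k := by exact_mod_cast hk3
  nlinarith

end Pool.Agent.Lib.MP_6d40c9_pr
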