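import Pool.Agent.Lib.MP_6d40c9_pr.SpecP

set_option autoImplicit false

namespace Pool.Agent.Lib.MP_6d40c9_pr

open Finset MeasureTheory Filter Topology TopologicalSpace Metric
open scoped BigOperators symmDiff

open Classical in
/-- the weight of a configuration -/
private noncomputable def lefW (η : Finset Edge) : ℝ := if Even' η then ∏ _e ∈ η, xc else 0

private theorem lef_xc : 0 ≤ xc := by
  unfold xc
  have h1 : (1 : ℝ) ≤ Real.sqrt 2 := by
    rw [Real.le_sqrt (by norm_num) (by norm_num)]; norm_num
  linarith

private theorem lefW_nonneg (η : Finset Edge) : 0 ≤ lefW η := by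
  unfold lefW
  split_ifs
  · exact prod_nonneg (fun _ _ => lef_xc)
  · exact le_refl _

private theorem lefW_odd (η : Finset Edge) (h : ¬ Even' η) : lefW η = 0 := by
  unfold lefW
  rw [if_neg h]

private theorem lef_empty : Even' ∅ := by
  unfold Even' bdy
  rw [sum_empty]

private theorem lef_Z (D : Finset Edge) : 1 ≤ ∑ η ∈ D.powerset, lefW η := by
  have h1 : lefW ∅ = 1 := by
    unfold lefW
    rw [if_pos lef_empty, prod_empty]
  rw [← h1]
  exact single_le_sum (f := lefW) (fun η _ => lefW_nonneg η) (empty_mem_powerset D)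

private theorem lef_rep (D : Finset Edge) (g : Finset Edge → ℝ) :
    lE D g = (∑ η ∈ D.powerset, lefW η * g η) / ∑ η ∈ D.powerset, lefW η := by
  unfold lE lpE Zp
  congr 1
  · apply sum_congr rfl
    intro η _
    unfold lefW
    by_cases h : bdy bdV η = 0
    · rw [if_pos h, if_pos (show Even' η from h)]
    · rw [if_neg h, if_neg (show ¬ Even' η from h), zero_mul]

private theorem lef_mono (D : Finset Edge) (g g' : Finset Edge → ℝ)
    (h : ∀ w ⊆ D, Even' w → g w ≤ g' w) : lE D g ≤ lE D g' := by
  rw [lef_rep, lef_rep]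
  have hZ := lef_Z D
  refine div_le_div_of_nonneg_right ?_ (by linarith)
  apply sum_le_sum
  intro η hη
  rw [mem_powerset] at hη
  by_cases he : Even' η
  · exact mul_le_mul_of_nonneg_left (h η hη he) (lefW_nonneg η)
  · rw [lefW_odd η he, zero_mul, zero_mul]

private theorem lef_one (D : Finset Edge) : lE D (fun _ => 1) = 1 := by
  rw [lef_rep]
  have hZ := lef_Z D
  simp only [mul_one]
  exact div_self (by linarith)

theorem lEFacts : LEFacts := by
  classical
  refine ⟨lef_one, ?_, lef_mono, ?_, ?_, ?_, ?_⟩
  · intro D a b g g'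
    rw [lef_rep, lef_rep, lef_rep, ← mul_div_assoc, ← mul_div_assoc, ← add_div]
    congr 1
    rw [mul_sum, mul_sum, ← sum_add_distrib]
    apply sum_congr rfl
    intro η _
    ring
  · intro D g g'
    have hZ := lef_Z D
    rw [lef_rep, lef_rep, lef_rep, div_pow, div_mul_div_comm, ← pow_two]
    refine div_le_div_of_nonneg_right ?_ (by positivity)
    have h := sum_mul_sq_le_sq_mul_sq D.powerset (fun η => Real.sqrt (lefW η) * g η)
      (fun η => Real.sqrt (lefW η) * g' η)
    have hs : ∀ η, Real.sqrt (lefW η) * Real.sqrt (lefW η) = lefW η :=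
      fun η => Real.mul_self_sqrt (lefW_nonneg η)
    have e1 : ∑ η ∈ D.powerset, lefW η * (g η * g' η) =
        ∑ η ∈ D.powerset, (Real.sqrt (lefW η) * g η) * (Real.sqrt (lefW η) * g' η) := by
      apply sum_congr rfl
      intro η _
      have h1 := hs η
      generalize lefW η = a at h1 ⊢
      generalize Real.sqrt a = b at h1 ⊢
      rw [← h1]
      ring
    have e2 : ∀ f : Finset Edge → ℝ, ∑ η ∈ D.powerset, lefW η * f η ^ 2 =
        ∑ η ∈ D.powerset, (Real.sqrt (lefW η) * f η) ^ 2 := by
      intro f
      apply sum_congr rfl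
      intro η _
      rw [mul_pow, pow_two (Real.sqrt (lefW η)), hs η]
    rw [e1, e2, e2]
    exact h
  · intro D J s g
    rw [lef_rep]
    have : ∀ i ∈ s, lE D (g i) = (∑ η ∈ D.powerset, lefW η * g i η) /
        ∑ η ∈ D.powerset, lefW η := fun i _ => lef_rep D (g i)
    rw [sum_congr rfl this, ← sum_div]
    congr 1
    rw [sum_comm]
    apply sum_congr rfl
    intro η _
    rw [mul_sum]
  · intro D g
    have hZ := lef_Z D
    rw [lef_rep, lef_rep, abs_div, abs_of_pos (by linarith : 0 < ∑ η ∈ D.powerset, lefW η)]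
    refine div_le_div_of_nonneg_right ?_ (by linarith)
    refine (abs_sum_le_sum_abs _ _).trans ?_
    apply sum_le_sum
    intro η _
    rw [abs_mul, abs_of_nonneg (lefW_nonneg η)]
  · intro D P P' h
    have e0 : lE D (fun _ => 0) = 0 := by
      rw [lef_rep]
      simp
    refine ⟨?_, ?_, ?_⟩
    · rw [← e0]
      show lE D (fun _ => 0) ≤ lE D (fun w => if P w then 1 else 0)
      apply lef_mono
      intro w _ _
      split_ifs <;> norm_num
    · show lE D (fun w => if P w then 1 else 0) ≤ lE D (fun w => if P' w then 1 else 0)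
      apply lef_mono
      intro w hw he
      by_cases hP : P w
      · rw [if_pos hP, if_pos (h w hw he hP)]
      · rw [if_neg hP]
        split_ifs <;> norm_num
    · rw [← lef_one D]
      show lE D (fun w => if P' w then 1 else 0) ≤ lE D (fun _ => 1)
      apply lef_mono
      intro w _ _
      split_ifs <;> norm_num

end Pool.Agent.Lib.MP_6d40c9_pr
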