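import Pool.Agent.Lib.MP_6d40c9_pr.SpecM

/-!
# MP_6d40c9_pr: circuits exist at all scales
-/

set_option autoImplicit false

namespace Pool.Agent.Lib.MP_6d40c9_pr

open Finset MeasureTheory Filter Topology TopologicalSpace
open scoped BigOperators symmDiff

private theorem latCircS_two (g : Pt → ZMod 2) : g + g = 0 := by
  funext v
  exact CharTwo.add_self_eq_zero (g v)

private theorem latCircS_xc : 0 ≤ xc ∧ xc ≤ 1 := by
  unfold xc
  have h1 : (1 : ℝ) ≤ Real.sqrt 2 := Real.one_le_sqrt.2 (by norm_num)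
  have h2 : Real.sqrt 2 ≤ 2 := by
    rw [Real.sqrt_le_iff]
    norm_num
  constructor <;> linarith

private theorem latCircS_incr (D : Finset Edge) (z : Pt) (n m : ℕ) : Incr D (Circ z n m) := by
  rintro ω ω' h - ⟨c, hc, h'⟩
  exact ⟨c, hc.trans h, h'⟩

private theorem latCircS_mem_box (z v : Pt) (n : ℕ) (h1 : |(v.1 : ℝ) - z.1| ≤ n)
    (h2 : |(v.2 : ℝ) - z.2| ≤ n) : v ∈ box z n := by
  have h1' : |v.1 - z.1| ≤ (n : ℤ) := by exact_mod_cast h1
  have h2' : |v.2 - z.2| ≤ (n : ℤ) := by exact_mod_cast h2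
  rw [abs_le] at h1' h2'
  simp only [box, Finset.mem_product, Finset.mem_Icc]
  refine ⟨⟨?_, ?_⟩, ?_, ?_⟩ <;> omega

private theorem latCircS_box_bd (z v : Pt) (n : ℕ) (h : v ∈ box z n) :
    |(v.1 : ℝ) - z.1| ≤ n ∧ |(v.2 : ℝ) - z.2| ≤ n := by
  simp only [box, Finset.mem_product, Finset.mem_Icc] at h
  have h1' : |v.1 - z.1| ≤ (n : ℤ) := by rw [abs_le]; omega
  have h2' : |v.2 - z.2| ≤ (n : ℤ) := by rw [abs_le]; omega
  exact ⟨by exact_mod_cast h1', by exact_mod_cast h2'⟩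

private theorem latCircS_scale (δ a x C : ℝ) (hδ : 0 < δ) (h : |δ * a - x| ≤ C) :
    |a - ⌊x / δ⌋| ≤ C / δ + 1 := by
  have h1 : |a - x / δ| ≤ C / δ := by
    rw [le_div_iff₀ hδ]
    have : |a - x / δ| * δ = |δ * a - x| := by
      nth_rewrite 2 [← abs_of_pos hδ]
      rw [← abs_mul]
      congr 1
      field_simp
    rwa [this]
  have h2 := Int.floor_le (x / δ)
  have h3 := Int.lt_floor_add_one (x / δ)
  rw [abs_le] at *
  constructor <;> linarith [h1.1, h1.2]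

private theorem latCircS_EB (Λ : Finset Pt) (e : Edge) (h1 : src e ∈ Λ) (h2 : tgt e ∈ Λ) :
    e ∈ EB Λ := by
  unfold EB
  rw [Finset.mem_filter]
  refine ⟨?_, h1, h2⟩
  unfold EV
  rw [Finset.mem_biUnion]
  refine ⟨src e, h1, ?_⟩
  obtain ⟨v, b⟩ := e
  cases b <;> simp [src]

private theorem latCircS_faces (Ω : Set (ℝ × ℝ)) (δ : ℝ) (u : Pt) (h : u ∈ faces Ω δ) :
    cell δ u ⊆ Ω := by
  unfold faces at h
  split at h
  · rename_i hf
    exact hf.mem_toFinset.1 h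
  · simp at h

private theorem latCircS_src (δ : ℝ) (hδ : 0 < δ) (e : Edge) :
    (δ * ((src e).1 : ℝ), δ * ((src e).2 : ℝ)) ∈ seg δ e := by
  obtain ⟨⟨a, b⟩, c⟩ := e
  cases c <;> simp only [seg, src, tgt, Set.mem_ofPred_eq] <;> push_cast <;>
    refine ⟨?_, ?_, ?_, ?_⟩ <;> first | exact le_rfl | nlinarith

private theorem latCircS_tgt (δ : ℝ) (hδ : 0 < δ) (e : Edge) :
    (δ * ((tgt e).1 : ℝ), δ * ((tgt e).2 : ℝ)) ∈ seg δ e := by
  obtain ⟨⟨a, b⟩, c⟩ := e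
  cases c <;> simp only [seg, src, tgt, Set.mem_ofPred_eq] <;> push_cast <;>
    refine ⟨?_, ?_, ?_, ?_⟩ <;> first | exact le_rfl | nlinarith

theorem latCircS (h1 : Coupling) (h2 : StochDom) (h3 : Transl) (h4 : CompFacts) : LatCircS := by
  intro Ω hΩ hC ε hε
  obtain ⟨z₀, r₀, ρ₀, δ₀, hr₀, hrρ, hδ₀, hin⟩ := hC ε hε
  obtain ⟨A, hA⟩ := hΩ.subset_closedBall (0 : ℝ × ℝ)
  have hxc := latCircS_xc
  obtain ⟨K, hK⟩ := exists_nat_ge (2 * ρ₀ / r₀ + 1)
  obtain ⟨R, hR⟩ := exists_nat_ge (2 * (|A| + ‖z₀‖) / r₀ + 1)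
  obtain ⟨n₀, hn₀⟩ := exists_nat_ge (r₀ / δ₀)
  refine ⟨K, R, n₀ + 1, ?_⟩
  intro n z D hn hD
  have hn1 : (1 : ℝ) ≤ n := by exact_mod_cast (by omega : 1 ≤ n)
  have hnn : (n₀ : ℝ) ≤ n := by exact_mod_cast (by omega : n₀ ≤ n)
  have hn2 : (0 : ℝ) < (n : ℝ) + 1 := by linarith
  obtain ⟨δ, hδdef⟩ : ∃ δ : ℝ, δ = r₀ / (n + 1) := ⟨_, rfl⟩
  have hδpos : 0 < δ := by rw [hδdef]; positivity
  have hδn : δ * (n + 1) = r₀ := by rw [hδdef]; field_simp
  have hδlt : δ < δ₀ := by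
    rw [hδdef, div_lt_iff₀ hn2]
    rw [div_le_iff₀ hδ₀] at hn₀
    nlinarith
  have hdiv : ∀ C : ℝ, C / δ = C / r₀ * (n + 1) := by
    intro C
    rw [← hδn]
    field_simp
  have hle : ∀ (C : ℝ) (L : ℕ), 0 ≤ C → 2 * C / r₀ + 1 ≤ L → C / δ + 1 ≤ ((L * n : ℕ) : ℝ) := by
    intro C L hC hL
    rw [hdiv]
    push_cast
    have hc : 0 ≤ C / r₀ := by positivity
    have : 2 * C / r₀ = 2 * (C / r₀) := by ring
    rw [this] at hL
    nlinarith
  set u₀ : Pt := ref δ z₀ with hu₀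
  -- step 1: the loop measure in Ω
  have hev : ∀ w : Finset Edge, Even' w → (∃ c ∈ comps w,
      K1 δ c ⊆ Metric.ball z₀ ρ₀ ∧ ∀ u, ctr δ u ∈ Metric.closedBall z₀ r₀ → Odd (cnt c u)) →
      Circ u₀ n (K * n) w := by
    rintro w hw ⟨c, hc, hK1, hodd⟩
    obtain ⟨hc1, hc2, -, hc3, -⟩ := (h4.1 w).1 c hc
    refine ⟨c, hc1, hc2, h4.2.1 w hw c hc, hc3, ?_, ?_⟩
    · intro e he
      have key : ∀ v : Pt, (δ * (v.1 : ℝ), δ * (v.2 : ℝ)) ∈ seg δ e → v ∈ box u₀ (K * n) := by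
        intro v hv
        have hv' : (δ * (v.1 : ℝ), δ * (v.2 : ℝ)) ∈ Metric.ball z₀ ρ₀ := by
          apply hK1
          unfold K1
          exact Set.mem_biUnion he hv
        rw [Metric.mem_ball, Prod.dist_eq, max_lt_iff, Real.dist_eq, Real.dist_eq] at hv'
        have hb := hle ρ₀ K (by linarith) hK
        refine latCircS_mem_box _ _ _ ?_ ?_
        · exact (latCircS_scale δ _ z₀.1 ρ₀ hδpos hv'.1.le).trans hb
        · exact (latCircS_scale δ _ z₀.2 ρ₀ hδpos hv'.2.le).trans hb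
      exact latCircS_EB _ e (key _ (latCircS_src δ hδpos e)) (key _ (latCircS_tgt δ hδpos e))
    · intro u hu
      apply hodd
      obtain ⟨hb1, hb2⟩ := latCircS_box_bd _ _ _ hu
      have key : ∀ a x : ℝ, |a - (⌊x / δ⌋ : ℝ)| ≤ n → |δ * (a + 1 / 2) - x| ≤ r₀ := by
        intro a x hax
        have e1 : δ * (a + 1 / 2) - x = δ * (a - x / δ + 1 / 2) := by
          field_simp
          ring
        rw [e1, abs_mul, abs_of_pos hδpos, ← hδn]
        refine mul_le_mul_of_nonneg_left ?_ hδpos.le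
        have h2 := Int.floor_le (x / δ)
        have h3 := Int.lt_floor_add_one (x / δ)
        rw [abs_le] at hax ⊢
        constructor <;> linarith [hax.1, hax.2]
      rw [Metric.mem_closedBall, Prod.dist_eq, max_le_iff, Real.dist_eq, Real.dist_eq]
      exact ⟨key _ _ hb1, key _ _ hb2⟩
  have hstep1 : 1 - ε ≤ fkF (DD Ω δ) (Circ u₀ n (K * n)) := by
    refine (hin δ hδpos hδlt).trans ?_
    obtain ⟨-, c2, c3, -, -, -, c7⟩ := h1 Edge (Pt → ZMod 2) latCircS_two bdV (DD Ω δ)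
      (fun _ => xc) (fun _ _ => hxc.1) (fun _ _ => hxc.2)
    unfold lP fkF
    rw [← c2, ← c3]
    apply c7
    intro W ω hWω _ hW hPW
    obtain ⟨c, hc, hc'⟩ := hev W hW hPW
    exact ⟨c, hc.trans hWω, hc'⟩
  -- step 2: enlarge the domain
  have hmono : ∀ D D' : Finset Edge, D ⊆ D' → ∀ (z : Pt) (m : ℕ),
      fkF D (Circ z n m) ≤ fkF D' (Circ z n m) := by
    intro D D' hDD z m
    exact h2 Edge (Pt → ZMod 2) (Pt → ZMod 2) latCircS_two latCircS_two bdV bdV D D'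
      (fun _ => xc) (fun _ => xc) hDD (fun _ _ => hxc.1) (fun _ _ => le_rfl) (fun _ _ => hxc.1)
      (fun _ _ => hxc.2) (fun _ _ h => h) _ (latCircS_incr D' z n m)
  have hsub : DD Ω δ ⊆ LF (box u₀ (R * n)) := by
    unfold DD LF
    refine Finset.biUnion_subset_biUnion_of_subset_left _ ?_
    intro u hu
    have hcell := latCircS_faces Ω δ u hu
    have hp : (δ * (u.1 : ℝ), δ * (u.2 : ℝ)) ∈ cell δ u := by
      refine ⟨le_rfl, ?_, le_rfl, ?_⟩ <;> simp only <;> nlinarith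
    have hq := hA (hcell hp)
    rw [Metric.mem_closedBall, Prod.dist_eq, max_le_iff, Real.dist_eq, Real.dist_eq] at hq
    simp only [Prod.fst_zero, Prod.snd_zero, sub_zero] at hq
    have hb := hle (|A| + ‖z₀‖) R (by positivity) hR
    have hz1 : |z₀.1| ≤ ‖z₀‖ := by rw [← Real.norm_eq_abs]; exact norm_fst_le z₀
    have hz2 : |z₀.2| ≤ ‖z₀‖ := by rw [← Real.norm_eq_abs]; exact norm_snd_le z₀
    refine latCircS_mem_box _ _ _ ?_ ?_
    · refine (latCircS_scale δ _ z₀.1 (|A| + ‖z₀‖) hδpos ?_).trans hb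
      have := abs_sub (δ * (u.1 : ℝ)) z₀.1
      linarith [hq.1, le_abs_self A]
    · refine (latCircS_scale δ _ z₀.2 (|A| + ‖z₀‖) hδpos ?_).trans hb
      have := abs_sub (δ * (u.2 : ℝ)) z₀.2
      linarith [hq.2, le_abs_self A]
  calc 1 - ε ≤ fkF (DD Ω δ) (Circ u₀ n (K * n)) := hstep1
    _ ≤ fkF (LF (box u₀ (R * n))) (Circ u₀ n (K * n)) := hmono _ _ hsub _ _
    _ = fkF (LF (box z (R * n))) (Circ z n (K * n)) := h3.2.2.2.2.2 _ _ _ _ _
    _ ≤ fkF D (Circ z n (K * n)) := hmono _ _ hD _ _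

end Pool.Agent.Lib.MP_6d40c9_pr
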