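import Pool.Agent.Lib.MP_6d40c9_pr.SpecK

set_option autoImplicit false

/-!
Proof of `Lattice`.
-/

namespace Pool.Agent.Lib.MP_6d40c9_pr

open Finset
open scoped BigOperators symmDiff

private lemma latticeAux_bdy {E G : Type*} [DecidableEq E] [AddCommGroup G]
    (h2 : ∀ g : G, g + g = 0) (bd : E → G) (η γ : Finset E) :
    bdy bd (η ∆ γ) = bdy bd η + bdy bd γ := by
  unfold bdy
  have h1 : ∑ e ∈ η ∆ γ, bd e = ∑ e ∈ η \ γ, bd e + ∑ e ∈ γ \ η, bd e := by
    rw [symmDiff_def, sup_eq_union, sum_union]
    exact disjoint_sdiff_sdiff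
  have h3 : ∑ e ∈ η, bd e = ∑ e ∈ η \ γ, bd e + ∑ e ∈ η ∩ γ, bd e := by
    rw [← sum_sdiff (inter_subset_left : η ∩ γ ⊆ η), sdiff_inter_self_left]
  have h4 : ∑ e ∈ γ, bd e = ∑ e ∈ γ \ η, bd e + ∑ e ∈ η ∩ γ, bd e := by
    rw [← sum_sdiff (inter_subset_right : η ∩ γ ⊆ γ), inter_comm η γ, sdiff_inter_self_left]
  rw [h1, h3, h4, add_add_add_comm, h2, add_zero]

open Classical in
private lemma latticeAux_evn {E G : Type*} [AddCommMonoid G] (bd : E → G) (ω : Finset E) :
    evn bd ω = ((ω.powerset.filter fun η => bdy bd η = 0).card : ℝ) := by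
  unfold evn
  rw [Finset.sum_boole]

private lemma latticeAux_cancel {E : Type*} [DecidableEq E] {a a' c c' : Finset E}
    (h : a ∆ a' = c ∆ c') : a ∆ c = a' ∆ c' := by
  have h1 : a = c ∆ c' ∆ a' := by rw [← h, symmDiff_symmDiff_cancel_right]
  rw [h1, symmDiff_comm (c ∆ c' ∆ a') c, symmDiff_assoc, symmDiff_symmDiff_cancel_left,
    symmDiff_comm]

theorem lattice : Lattice := by
  intro E G G' _ _ _ h2 h2' bd bd' ω ω' hker
  classical
  rw [latticeAux_evn, latticeAux_evn, latticeAux_evn, latticeAux_evn]
  have key : ((ω.powerset.filter fun η => bdy bd η = 0) ×ˢ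
      (ω'.powerset.filter fun η => bdy bd' η = 0)).card ≤
      ((ω ∩ ω').powerset.filter fun η => bdy bd η = 0).card *
        ((ω ∪ ω').powerset.filter fun η => bdy bd' η = 0).card := by
    refine Finset.card_le_mul_card_image_of_maps_to (f := fun p : Finset E × Finset E => p.1 ∆ p.2)
      ?_ _ ?_
    · rintro ⟨a, a'⟩ h
      simp only [mem_product, mem_filter, mem_powerset] at h ⊢
      obtain ⟨⟨ha, ha0⟩, ha', ha0'⟩ := h
      refine ⟨?_, ?_⟩
      · intro e he
        rw [mem_symmDiff] at he
        rcases he with he | he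
        · exact mem_union_left _ (ha he.1)
        · exact mem_union_right _ (ha' he.1)
      · rw [latticeAux_bdy h2', ha0', add_zero]
        exact hker a (ha.trans subset_union_left) ha0
    · intro b _
      by_cases hne : ((((ω.powerset.filter fun η => bdy bd η = 0) ×ˢ
          (ω'.powerset.filter fun η => bdy bd' η = 0)).filter
            fun p : Finset E × Finset E => p.1 ∆ p.2 = b)).Nonempty
      · obtain ⟨⟨c, c'⟩, hc⟩ := hne
        simp only [mem_product, mem_filter, mem_powerset] at hc
        obtain ⟨⟨⟨hc, hc0⟩, hc', hc0'⟩, hcb⟩ := hc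
        refine Finset.card_le_card_of_injOn (fun p : Finset E × Finset E => p.1 ∆ c) ?_ ?_
        · rintro ⟨a, a'⟩ h
          simp only [coe_filter, mem_product, mem_filter, mem_powerset, Set.mem_setOf_eq] at h ⊢
          obtain ⟨⟨⟨ha, ha0⟩, ha', ha0'⟩, hab⟩ := h
          have h3 : a ∆ c = a' ∆ c' := latticeAux_cancel (hab.trans hcb.symm)
          refine ⟨?_, ?_⟩
          · refine subset_inter ?_ ?_
            · intro e he
              rw [mem_symmDiff] at he
              rcases he with he | he
              · exact ha he.1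
              · exact hc he.1
            · rw [h3]
              intro e he
              rw [mem_symmDiff] at he
              rcases he with he | he
              · exact ha' he.1
              · exact hc' he.1
          · rw [latticeAux_bdy h2, ha0, hc0, add_zero]
        · rintro ⟨a, a'⟩ h ⟨d, d'⟩ hd hh
          simp only [coe_filter, mem_product, mem_filter, mem_powerset, Set.mem_setOf_eq] at h hd hh
          have h3 : a = d := symmDiff_left_injective c hh
          subst h3
          have h4 : a ∆ a' = a ∆ d' := h.2.trans hd.2.symm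
          rw [symmDiff_right_injective a h4]
      · rw [not_nonempty_iff_eq_empty] at hne
        rw [hne]
        simp
  rw [card_product] at key
  exact_mod_cast key

end Pool.Agent.Lib.MP_6d40c9_pr
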