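import Pool.Agent.Lib.MP_6d40c9_pr.SpecK

/-!
# Lebowitz inequality (MP_6d40c9_pr)
-/

set_option autoImplicit false

namespace Pool.Agent.Lib.MP_6d40c9_pr

open Finset
open scoped BigOperators symmDiff

private theorem leb_pair (h1 : PairSum) {E G : Type} [DecidableEq E] [AddCommGroup G]
    (bd : E → G) (D : Finset E) (x : E → ℝ) (f g : G) :
    Zp bd D x f * Zp bd D x g = ∑ O ∈ D.powerset, aO bd D x (fun _ => 1) O f g := by
  have := h1 E G bd D x (fun _ => 1) f g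
  simpa only [one_mul] using this

private theorem leb_toggle (h2 : Toggle) {E G : Type} [DecidableEq E] [AddCommGroup G]
    (hG : ∀ g : G, g + g = 0) (bd : E → G) (D : Finset E) (x : E → ℝ) (O : Finset E)
    (f g h : G) (hc : Conn bd O h) :
    aO bd D x (fun _ => 1) O f g = aO bd D x (fun _ => 1) O (f + h) (g + h) := by
  obtain ⟨γ, hγ, rfl⟩ := hc
  have := h2 E G hG bd D x (fun _ => 1) O (fun _ _ => Or.inl rfl) γ hγ f g
  rwa [Finset.prod_const_one, one_mul] at this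

theorem leb (h1 : PairSum) (h2 : Toggle) (h3 : AOFacts) : Leb := by
  intro E G _ _ hG bd D x hx0 hx1 f₁ f₂ f₃ f₄ hconn
  rw [leb_pair h1, leb_pair h1, leb_pair h1, mul_comm (Zp bd D x (f₁ + f₄)), leb_pair h1,
    ← Finset.sum_add_distrib, ← Finset.sum_add_distrib]
  refine Finset.sum_le_sum fun O hO => ?_
  have hOD := Finset.mem_powerset.1 hO
  obtain ⟨a1, a2, -⟩ := h3 E G hG bd D x (fun _ => 1) O hOD hx0 hx1 fun _ _ => Or.inl rfl
  have p1 := a2 (f₁ + f₂) (f₃ + f₄)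
  have p2 := a2 (f₁ + f₃) (f₂ + f₄)
  have p3 := a2 (f₂ + f₃) (f₁ + f₄)
  by_cases h0 : aO bd D x (fun _ => 1) O (f₁ + f₂ + f₃ + f₄) 0 = 0
  · rw [h0]
    linarith
  · rcases hconn O hOD (a1 _ _ h0).1 with hc | hc | hc
    · have e1 : f₁ + f₂ + f₃ + f₄ + (f₃ + f₄) = f₁ + f₂ := by
        calc f₁ + f₂ + f₃ + f₄ + (f₃ + f₄) = f₁ + f₂ + (f₃ + f₃) + (f₄ + f₄) := by abel
          _ = f₁ + f₂ := by rw [hG, hG, add_zero, add_zero]
      rw [leb_toggle h2 hG bd D x O _ _ _ hc, e1, zero_add]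
      linarith
    · have e1 : f₁ + f₂ + f₃ + f₄ + (f₂ + f₄) = f₁ + f₃ := by
        calc f₁ + f₂ + f₃ + f₄ + (f₂ + f₄) = f₁ + f₃ + (f₂ + f₂) + (f₄ + f₄) := by abel
          _ = f₁ + f₃ := by rw [hG, hG, add_zero, add_zero]
      rw [leb_toggle h2 hG bd D x O _ _ _ hc, e1, zero_add]
      linarith
    · have e1 : f₁ + f₂ + f₃ + f₄ + (f₁ + f₄) = f₂ + f₃ := by
        calc f₁ + f₂ + f₃ + f₄ + (f₁ + f₄) = f₂ + f₃ + (f₁ + f₁) + (f₄ + f₄) := by abel
          _ = f₂ + f₃ := by rw [hG, hG, add_zero, add_zero]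
      rw [leb_toggle h2 hG bd D x O _ _ _ hc, e1, zero_add]
      linarith

end Pool.Agent.Lib.MP_6d40c9_pr
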