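import Pool.Agent.Lib.MP_6d40c9_pr.SpecG

/-!
# Low temperature expansion
-/

set_option autoImplicit false

namespace Pool.Agent.Lib.MP_6d40c9_pr

open Finset
open scoped BigOperators symmDiff

private lemma lowTemp_LF_mono {A F : Finset Pt} (h : A ⊆ F) : LF A ⊆ LF F := by
  unfold LF
  exact Finset.biUnion_subset_biUnion_of_subset_left _ h

open Classical in
theorem lowTemp (h : GridFacts) : LowTemp := by
  obtain ⟨-, h2, -, h4, -⟩ := h
  intro F hF y g
  rw [← Finset.sum_filter]
  refine Finset.sum_nbij' (fun A => walls A) (fun w => F.filter fun u => Odd (cnt w u))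
    ?_ ?_ ?_ ?_ ?_
  · intro A hA
    obtain ⟨ha, hb, -⟩ := h2 A
    exact Finset.mem_filter.2 ⟨Finset.mem_powerset.2
      (hb.trans (lowTemp_LF_mono (Finset.mem_powerset.1 hA))), ha⟩
  · intro w _
    exact Finset.mem_powerset.2 (Finset.filter_subset _ _)
  · intro A hA
    have hAF := Finset.mem_powerset.1 hA
    obtain ⟨-, -, hc⟩ := h2 A
    ext u
    rw [Finset.mem_filter, hc u]
    exact ⟨fun hu => hu.2, fun hu => ⟨hAF hu, hu⟩⟩
  · intro w hw
    obtain ⟨hw1, hw2⟩ := Finset.mem_filter.1 hw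
    obtain ⟨ha, -, hc⟩ := h2 (F.filter fun u => Odd (cnt w u))
    refine h4 _ _ ha hw2 ?_
    intro u
    have h5 := hc u
    rw [Finset.mem_filter] at h5
    rw [← Nat.not_odd_iff_even, ← Nat.not_odd_iff_even, h5]
    by_cases hu : u ∈ F
    · tauto
    · have h6 := hF w (Finset.mem_powerset.1 hw1) hw2 u hu
      rw [← Nat.not_odd_iff_even] at h6
      tauto
  · intro A _
    rfl

end Pool.Agent.Lib.MP_6d40c9_pr
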