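import Pool.Agent.Lib.MP_6d40c9_pr.SpecL

/-!
# MP_6d40c9_pr: the theorem, assembly
-/

set_option autoImplicit false

namespace Pool.Agent.Lib.MP_6d40c9_pr

open Finset MeasureTheory Filter Topology TopologicalSpace Metric
open scoped BigOperators

theorem mainS_limsup {X : Type} {m : MeasurableSpace X} {Y : ℕ → X → ℝ}
    (h : ∀ k, Measurable[m] (Y k)) :
    Measurable[m] (fun ω => limsup (fun k => Y k ω) atTop) := Measurable.limsup h

theorem mainS_ae {X : Type} [MeasurableSpace X] (P : Measure X) {s : X → ℝ} {Y : ℕ → X → ℝ}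
    (hs : Measurable s) (hY : ∀ k, Measurable (Y k))
    (h : ∀ k, ∫⁻ ω, ENNReal.ofReal ((s ω - Y k ω) ^ 2) ∂P ≤ ENNReal.ofReal ((1 / 4 : ℝ) ^ k)) :
    ∀ᵐ ω ∂P, Tendsto (fun k => Y k ω) atTop (𝓝 (s ω)) := by
  have hm : ∀ k, Measurable fun ω => ENNReal.ofReal ((s ω - Y k ω) ^ 2) := fun k =>
    ((hs.sub (hY k)).pow_const 2).ennreal_ofReal
  have hsum : Summable fun k : ℕ => (1 / 4 : ℝ) ^ k :=
    summable_geometric_of_lt_one (by norm_num) (by norm_num)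
  have h1 : ∫⁻ ω, ∑' k, ENNReal.ofReal ((s ω - Y k ω) ^ 2) ∂P ≠ ⊤ := by
    rw [lintegral_tsum fun k => (hm k).aemeasurable]
    refine ne_top_of_le_ne_top ?_ (ENNReal.tsum_le_tsum h)
    rw [← ENNReal.ofReal_tsum_of_nonneg (fun k => by positivity) hsum]
    exact ENNReal.ofReal_ne_top
  have h2 := ae_lt_top (Measurable.ennreal_tsum hm) h1
  filter_upwards [h2] with ω hω
  have h3 := ENNReal.tendsto_atTop_zero_of_tsum_ne_top hω.ne
  have h4 : Tendsto (fun k => (s ω - Y k ω) ^ 2) atTop (𝓝 0) := by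
    have h5 := (ENNReal.tendsto_toReal ENNReal.zero_ne_top).comp h3
    have h6 : (ENNReal.toReal ∘ fun k => ENNReal.ofReal ((s ω - Y k ω) ^ 2)) =
        fun k => (s ω - Y k ω) ^ 2 := by
      funext k
      exact ENNReal.toReal_ofReal (sq_nonneg _)
    rw [h6, ENNReal.toReal_zero] at h5
    exact h5
  have h5 : Tendsto (fun k => |s ω - Y k ω|) atTop (𝓝 0) := by
    have h6 := h4.sqrt
    simp only [Real.sqrt_sq_eq_abs, Real.sqrt_zero] at h6
    exact h6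
  have h6 : Tendsto (fun k => s ω - Y k ω) atTop (𝓝 0) :=
    (tendsto_zero_iff_abs_tendsto_zero _).2 h5
  have h7 : Tendsto (fun k => s ω - (s ω - Y k ω)) atTop (𝓝 (s ω - 0)) :=
    tendsto_const_nhds.sub h6
  simp only [sub_sub_cancel, sub_zero] at h7
  exact h7

theorem mainS (h1 : TransS) (h2 : InUpS) (h3 : InLowS) (h4 : InCircS) (h5 : InOddS)
    (h6 : MmUpS) (h7 : MmLowS) (h8 : AaKapS) (h9 : AaZeroS) (h10 : BulkS) (h11 : ArmLowS)
    (h12 : LatCircS) (h13 : UuUpS) (h14 : JoinUpS) (h15 : WJoinS) (h16 : ApproxS) : MainS := by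
  intro Ω hop hconn hbdd hcompl X _ P _ σ Γ hmS hmW hnest hcS hcW δs hδs hδ0 hjoint f hf
  obtain ⟨hLim, hJ⟩ := h1 Ω hop hconn hbdd hcompl X P σ Γ hmS hmW hnest hcS hcW
  have hLJ := hJ δs hδs hδ0 hjoint
  by_cases hz : ∃ f, TestFn Ω f ∧ ¬ σ f =ᵐ[P] 0
  · have hLow : InLow Ω := h3 X P Ω σ Γ hLim hz
    have hUp : InUp Ω := h2 X P Ω σ Γ hLim
    have mmUp := h6 Ω hop hbdd hUp
    have mmLow := h7 Ω hop hbdd hLow mmUp
    have aaZ := h9 (h8 Ω hbdd (h5 X P Ω σ Γ hLim))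
    have arm := h11 (h10 aaZ mmLow) mmUp
    have lc := h12 Ω hbdd (h4 X P Ω σ Γ hLim)
    have wj := h15 (h14 (h13 mmUp arm lc)) lc aaZ
    have happ := h16 mmUp wj X P Ω σ Γ δs hLim hδs hδ0 hLJ f hf
    have hch : ∀ k : ℕ, ∃ Y : X → ℝ, Measurable[sigmaLoops Γ] Y ∧
        ∫⁻ ω, ENNReal.ofReal ((σ f ω - Y ω) ^ 2) ∂P ≤ ENNReal.ofReal ((1 / 4 : ℝ) ^ k) :=
      fun k => happ _ (by positivity)
    choose Y hY hYe using hch
    have hle : sigmaLoops Γ ≤ ‹MeasurableSpace X› :=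
      iSup_le fun φ => (hmW φ.1 φ.2).comap_le
    refine ⟨fun ω => limsup (fun k => Y k ω) atTop, mainS_limsup hY, ?_⟩
    filter_upwards [mainS_ae P (hmS f hf) (fun k => (hY k).mono hle le_rfl) hYe] with ω hω
    exact hω.limsup_eq.symm
  · push Not at hz
    exact ⟨fun _ => 0, measurable_const, hz f hf⟩

end Pool.Agent.Lib.MP_6d40c9_pr
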