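import Pool.Agent.Lib.MP_6d40c9_pr.SpecG

/-!
# The exact spatial Markov property (MP_6d40c9_pr)
-/

set_option autoImplicit false

namespace Pool.Agent.Lib.MP_6d40c9_pr

open Finset
open scoped BigOperators symmDiff

open Classical in
/-- The sum over the even subsets of `D` with weights. -/
noncomputable def markovS (D : Finset Edge) (g : Finset Edge → ℝ) : ℝ :=
  ∑ w ∈ D.powerset, if Even' w then xc ^ w.card * g w else 0

theorem markov_xc_pos : 0 < xc := by
  unfold xc
  have h1 : (1 : ℝ) < Real.sqrt 2 := by
    rw [Real.lt_sqrt (by norm_num)]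
    norm_num
  linarith

theorem markov_lE (D : Finset Edge) (g : Finset Edge → ℝ) :
    lE D g = markovS D g / markovS D (fun _ => 1) := by
  unfold lE lpE Zp markovS
  congr 1
  · refine Finset.sum_congr rfl fun w _ => ?_
    by_cases hw : bdy bdV w = 0
    · have hw' : Even' w := hw
      rw [if_pos hw, if_pos hw', Finset.prod_const]
    · have hw' : ¬ Even' w := hw
      rw [if_neg hw, if_neg hw']
  · refine Finset.sum_congr rfl fun w _ => ?_
    by_cases hw : bdy bdV w = 0
    · have hw' : Even' w := hw
      rw [if_pos hw, if_pos hw', Finset.prod_const, mul_one]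
    · have hw' : ¬ Even' w := hw
      rw [if_neg hw, if_neg hw']

theorem markov_even_empty : Even' (∅ : Finset Edge) := by
  unfold Even' bdy
  simp

theorem markov_pos (D : Finset Edge) : 0 < markovS D (fun _ => 1) := by
  classical
  unfold markovS
  have h1 : ∀ w ∈ D.powerset, (0 : ℝ) ≤ if Even' w then xc ^ w.card * 1 else 0 := by
    intro w _
    split_ifs
    · rw [mul_one]
      exact pow_nonneg markov_xc_pos.le _
    · exact le_rfl
  have h2 : (if Even' (∅ : Finset Edge) then xc ^ (∅ : Finset Edge).card * 1 else 0) ≤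
      ∑ w ∈ D.powerset, if Even' w then xc ^ w.card * 1 else 0 :=
    Finset.single_le_sum (f := fun w => if Even' w then xc ^ w.card * 1 else 0) h1
      (Finset.empty_mem_powerset D)
  rw [if_pos markov_even_empty] at h2
  simp only [Finset.card_empty, pow_zero, mul_one] at h2
  simp only [mul_one]
  linarith

theorem markov_mem_tc {T : Edge → Prop} {w : Finset Edge} {b : Edge} :
    b ∈ tc T w ↔ b ∈ w ∧ ∃ a ∈ w, T a ∧ connE w a b := by
  classical
  unfold tc
  rw [Finset.mem_filter]

theorem markov_mem_rest {D V : Finset Edge} {T : Edge → Prop} {e : Edge} :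
    e ∈ rest D V T ↔ e ∈ D ∧ ¬ T e ∧ ∀ a ∈ V, ¬ adjE a e := by
  classical
  unfold rest
  rw [Finset.mem_filter]

theorem markov_adj_self (e : Edge) : adjE e e := Or.inl rfl

theorem markov_conn_mono {w w' : Finset Edge} (h : w ⊆ w') {a b : Edge} (hab : connE w a b) :
    connE w' a b := by
  unfold connE at hab ⊢
  induction hab with
  | refl => exact Relation.ReflTransGen.refl
  | tail _ h2 ih => exact Relation.ReflTransGen.tail ih ⟨h h2.1, h2.2⟩

/-- What is not in `tc T w` is in the rest. -/
theorem markov_fwd {D w : Finset Edge} {T : Edge → Prop} (hw : w ⊆ D) :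
    w \ tc T w ⊆ rest D (tc T w) T := by
  intro e he
  rw [Finset.mem_sdiff] at he
  rw [markov_mem_rest]
  refine ⟨hw he.1, ?_, ?_⟩
  · intro hT
    exact he.2 (markov_mem_tc.2 ⟨he.1, e, he.1, hT, Relation.ReflTransGen.refl⟩)
  · intro a ha hae
    obtain ⟨-, a₀, ha₀, hT, hconn⟩ := markov_mem_tc.1 ha
    exact he.2 (markov_mem_tc.2 ⟨he.1, a₀, ha₀, hT, Relation.ReflTransGen.tail hconn ⟨he.1, hae⟩⟩)

theorem markov_disj {D V w : Finset Edge} {T : Edge → Prop} (hw : w ⊆ rest D V T) :
    Disjoint V w := by
  rw [Finset.disjoint_left]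
  intro e he he'
  exact (markov_mem_rest.1 (hw he')).2.2 e he (markov_adj_self e)

theorem markov_bwd {D V w : Finset Edge} {T : Edge → Prop} (hV : tc T V = V)
    (hw : w ⊆ rest D V T) : tc T (V ∪ w) = V := by
  apply Finset.Subset.antisymm
  · intro e he
    obtain ⟨-, a, ha, hT, hconn⟩ := markov_mem_tc.1 he
    have haV : a ∈ V := by
      rcases Finset.mem_union.1 ha with h1 | h1
      · exact h1
      · exact absurd hT (markov_mem_rest.1 (hw h1)).2.1
    unfold connE at hconn
    induction hconn with
    | refl => exact haV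
    | tail h1 h2 ih =>
      rcases Finset.mem_union.1 h2.1 with h3 | h3
      · exact h3
      · have h4 := ih (by
          rw [markov_mem_tc]
          rename_i b c
          have hb : b ∈ V ∪ w := by
            rcases Relation.ReflTransGen.cases_tail h1 with h5 | ⟨x, -, h5⟩
            · rw [h5]; exact ha
            · exact h5.1
          exact ⟨hb, a, ha, hT, h1⟩)
        exact absurd h2.2 ((markov_mem_rest.1 (hw h3)).2.2 _ h4)
  · intro e he
    rw [← hV] at he
    obtain ⟨he1, a, ha, hT, hconn⟩ := markov_mem_tc.1 he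
    exact markov_mem_tc.2 ⟨Finset.mem_union_left _ he1, a, Finset.mem_union_left _ ha, hT,
      markov_conn_mono Finset.subset_union_left hconn⟩

theorem markov_even_union {V w : Finset Edge} (hd : Disjoint V w) (hV : Even' V) (hw : Even' w) :
    Even' (V ∪ w) := by
  unfold Even' bdy at hV hw ⊢
  rw [Finset.sum_union hd, hV, hw, add_zero]

theorem markov_sdiff {V w : Finset Edge} (hd : Disjoint V w) : (V ∪ w) \ V = w := by
  rw [Finset.union_sdiff_left]
  exact Finset.sdiff_eq_self_of_disjoint hd.symm

open Classical in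
/-- Part 1. -/
theorem markov_one (h : CompFacts) (D V : Finset Edge) (T : Edge → Prop)
    (g : Finset Edge → ℝ) (hVD : V ⊆ D) (hV : Even' V) (hT : tc T V = V) :
    ∑ w ∈ D.powerset, (if Even' w ∧ tc T w = V then xc ^ w.card * g w else 0) =
      xc ^ V.card * ∑ w ∈ (rest D V T).powerset,
        if Even' w then xc ^ w.card * g (V ∪ w) else 0 := by
  rw [← Finset.sum_filter, ← Finset.sum_filter, Finset.mul_sum]
  refine Finset.sum_bij' (fun w _ => w \ V) (fun w _ => V ∪ w) ?_ ?_ ?_ ?_ ?_
  · intro w hw
    obtain ⟨hw1, hw2, hw3⟩ := Finset.mem_filter.1 hw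
    rw [Finset.mem_powerset] at hw1
    rw [Finset.mem_filter, Finset.mem_powerset]
    constructor
    · rw [← hw3]
      exact markov_fwd hw1
    · have h4 := (h.2.2.2.1 T w).2.2.2.1 hw2
      rw [hw3] at h4
      exact h4
  · intro w hw
    obtain ⟨hw1, hw2⟩ := Finset.mem_filter.1 hw
    rw [Finset.mem_powerset] at hw1
    rw [Finset.mem_filter, Finset.mem_powerset]
    refine ⟨Finset.union_subset hVD fun e he => (markov_mem_rest.1 (hw1 he)).1, ?_, ?_⟩
    · exact markov_even_union (markov_disj hw1) hV hw2
    · exact markov_bwd hT hw1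
  · intro w hw
    obtain ⟨hw1, hw2, hw3⟩ := Finset.mem_filter.1 hw
    have h5 : V ⊆ w := by
      rw [← hw3]
      exact (h.2.2.2.1 T w).1
    exact Finset.union_sdiff_of_subset h5
  · intro w hw
    obtain ⟨hw1, hw2⟩ := Finset.mem_filter.1 hw
    rw [Finset.mem_powerset] at hw1
    exact markov_sdiff (markov_disj hw1)
  · intro w hw
    obtain ⟨hw1, hw2, hw3⟩ := Finset.mem_filter.1 hw
    have h5 : V ⊆ w := by
      rw [← hw3]
      exact (h.2.2.2.1 T w).1
    have h6 : V ∪ w \ V = w := Finset.union_sdiff_of_subset h5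
    have h7 : (w \ V).card + V.card = w.card := Finset.card_sdiff_add_card_eq_card h5
    rw [h6, ← h7, pow_add]
    ring

open Classical in
/-- Grouping by the value of `tc T w`. -/
theorem markov_group (h : CompFacts) (D : Finset Edge) (T : Edge → Prop)
    (G : Finset Edge → ℝ) :
    markovS D G = ∑ V ∈ D.powerset, ∑ w ∈ D.powerset,
      (if Even' w ∧ tc T w = V then xc ^ w.card * G w else 0) := by
  unfold markovS
  rw [Finset.sum_comm]
  refine Finset.sum_congr rfl fun w hw => ?_
  rw [Finset.mem_powerset] at hw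
  have h1 : tc T w ∈ D.powerset := by
    rw [Finset.mem_powerset]
    exact ((h.2.2.2.1 T w).1).trans hw
  rw [Finset.sum_eq_single_of_mem (tc T w) h1]
  · by_cases hE : Even' w
    · rw [if_pos hE, if_pos ⟨hE, rfl⟩]
    · rw [if_neg hE, if_neg fun hh => hE hh.1]
  · intro V _ hV
    rw [if_neg]
    rintro ⟨-, h2⟩
    exact hV h2.symm

open Classical in
theorem markov_two (h : CompFacts) (D : Finset Edge) (T : Edge → Prop)
    (g : Finset Edge → Finset Edge → ℝ) :
    lE D (fun w => g (tc T w) (w \ tc T w)) =
      lE D (fun w => lE (rest D (tc T w) T) (fun w' => g (tc T w) w')) := by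
  rw [markov_lE, markov_lE D (fun w => lE (rest D (tc T w) T) (fun w' => g (tc T w) w'))]
  congr 1
  rw [markov_group h D T, markov_group h D T
    (fun w => lE (rest D (tc T w) T) (fun w' => g (tc T w) w'))]
  refine Finset.sum_congr rfl fun V hV => ?_
  rw [Finset.mem_powerset] at hV
  by_cases hgood : Even' V ∧ tc T V = V
  · have e1 : ∑ w ∈ D.powerset, (if Even' w ∧ tc T w = V then
        xc ^ w.card * g (tc T w) (w \ tc T w) else 0) =
        ∑ w ∈ D.powerset, (if Even' w ∧ tc T w = V then xc ^ w.card * g V (w \ V) else 0) := by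
      refine Finset.sum_congr rfl fun w _ => ?_
      by_cases hw : Even' w ∧ tc T w = V
      · rw [if_pos hw, if_pos hw, hw.2]
      · rw [if_neg hw, if_neg hw]
    have e2 : ∑ w ∈ D.powerset, (if Even' w ∧ tc T w = V then
        xc ^ w.card * lE (rest D (tc T w) T) (fun w' => g (tc T w) w') else 0) =
        ∑ w ∈ D.powerset, (if Even' w ∧ tc T w = V then
          xc ^ w.card * lE (rest D V T) (fun w' => g V w') else 0) := by
      refine Finset.sum_congr rfl fun w _ => ?_
      by_cases hw : Even' w ∧ tc T w = V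
      · rw [if_pos hw, if_pos hw, hw.2]
      · rw [if_neg hw, if_neg hw]
    rw [e1, e2, markov_one h D V T (fun w => g V (w \ V)) hV hgood.1 hgood.2,
      markov_one h D V T (fun _ => lE (rest D V T) (fun w' => g V w')) hV hgood.1 hgood.2]
    congr 1
    have e3 : ∑ w ∈ (rest D V T).powerset,
        (if Even' w then xc ^ w.card * g V ((V ∪ w) \ V) else 0) =
        markovS (rest D V T) (fun w' => g V w') := by
      unfold markovS
      refine Finset.sum_congr rfl fun w hw => ?_
      rw [Finset.mem_powerset] at hw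
      rw [markov_sdiff (markov_disj hw)]
    have e4 : ∑ w ∈ (rest D V T).powerset,
        (if Even' w then xc ^ w.card * lE (rest D V T) (fun w' => g V w') else 0) =
        markovS (rest D V T) (fun _ => 1) * lE (rest D V T) (fun w' => g V w') := by
      unfold markovS
      rw [Finset.sum_mul]
      refine Finset.sum_congr rfl fun w _ => ?_
      by_cases hw : Even' w
      · rw [if_pos hw, if_pos hw, mul_one]
      · rw [if_neg hw, if_neg hw, zero_mul]
    rw [e3, e4, markov_lE, mul_div_cancel₀ _ (markov_pos (rest D V T)).ne']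
  · have hno : ∀ w, ¬ (Even' w ∧ tc T w = V) := by
      rintro w ⟨h1, h2⟩
      apply hgood
      have h3 := h.2.2.2.1 T w
      rw [h2] at h3
      exact ⟨h3.2.2.1 h1, h3.2.1⟩
    rw [Finset.sum_eq_zero fun w _ => if_neg (hno w), Finset.sum_eq_zero fun w _ => if_neg (hno w)]

theorem markov (h : CompFacts) : Markov :=
  ⟨fun D V T g hVD hV hT => markov_one h D V T g hVD hV hT, fun D T g => markov_two h D T g⟩

end Pool.Agent.Lib.MP_6d40c9_pr
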