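import Pool.Agent.Lib.MP_6d40c9_pr.SpecL

set_option autoImplicit false

namespace Pool.Agent.Lib.MP_6d40c9_pr

open Finset MeasureTheory Filter Topology TopologicalSpace Metric
open scoped BigOperators

private lemma measS_stat_mem (p : Par) (K L : Set (ℝ × ℝ)) : stat p K L ∈ Sts p := by
  classical
  unfold stat Sts
  simp only [Finset.mem_product, Finset.mem_powerset]
  exact ⟨Finset.filter_subset _ _, Finset.filter_subset _ _, Finset.filter_subset _ _⟩

private lemma measS_nG_zero {X : Type} (p : Par) (Γ : X → Set (NonemptyCompacts (ℝ × ℝ))) (ω : X) (s : St)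
    (hs : s ∉ Sts p) : nG p Γ ω s = 0 := by
  unfold nG
  have : {K | K ∈ Γ ω ∧ p.κ ≤ diam (K : Set (ℝ × ℝ)) ∧
    stat p (K : Set (ℝ × ℝ)) (fill (K : Set (ℝ × ℝ))) = s} = ∅ := by
    ext K
    simp only [Set.mem_ofPred_eq, Set.mem_empty_iff_false, iff_false]
    rintro ⟨-, -, h⟩
    exact hs (h ▸ measS_stat_mem p _ _)
  rw [this, Set.ncard_empty]

theorem measS (h1 : PhiS) : MeasS := by
  classical
  intro X _ P _ p σ Γ hG hL hGen h
  obtain ⟨hp1, -, hp3, hp4⟩ := h1 p hG
  obtain ⟨hcr, -⟩ := hp4 X P σ Γ hL hGen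
  have hκ := hG.hκ
  let lj : ℕ → ℝ := fun j => p.κ / (j + 3)
  have hlj0 : ∀ j, 0 < lj j := fun j => by positivity
  have hlj1 : ∀ j, lj j < p.κ / 2 := by
    intro j
    apply div_lt_div_of_pos_left hκ (by norm_num)
    have : (0:ℝ) ≤ j := Nat.cast_nonneg j
    linarith
  have hljt : Tendsto lj atTop (𝓝 0) := by
    have h3 : Tendsto (fun j : ℕ => (j : ℝ) + 3) atTop atTop :=
      tendsto_atTop_add_const_right _ _ tendsto_natCast_atTop_atTop
    exact h3.const_div_atTop p.κ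
  let Y : ℕ → St → X → ℝ := fun j s ω => loopStat (phi p (lj j) s) (Γ ω)
  have hYm : ∀ j s, @Measurable X ℝ (sigmaLoops Γ) (borel ℝ) (Y j s) := by
    intro j s
    have hle : MeasurableSpace.comap (fun ω => loopStat (phi p (lj j) s) (Γ ω)) (borel ℝ) ≤ sigmaLoops Γ :=
      le_iSup (fun φ : {φ : LoopSp → ℝ // LoopFn φ} =>
        MeasurableSpace.comap (fun ω => loopStat φ.1 (Γ ω)) (borel ℝ))
        ⟨phi p (lj j) s, (hp1 (lj j) s (hlj0 j) (hlj1 j)).1⟩
    exact Measurable.of_comap_le hle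
  have hYm' : ∀ j s, Measurable[sigmaLoops Γ] (Y j s) := by
    intro j s
    have := hYm j s
    rwa [← BorelSpace.measurable_eq (α := ℝ)] at this
  let g : X → (↥(Sts p) → ℕ) := fun ω s => ⌊limsup (fun j => Y j s.1 ω) atTop⌋₊
  have hg : Measurable[sigmaLoops Γ] g := by
    letI : MeasurableSpace X := sigmaLoops Γ
    rw [measurable_pi_iff]
    intro s
    exact Nat.measurable_floor.comp (Measurable.limsup (fun j => hYm' j s.1))
  let h' : (↥(Sts p) → ℕ) → ℝ := fun v => h (fun s => if hs : s ∈ Sts p then v ⟨s, hs⟩ else 0)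
  have hh' : Measurable h' := measurable_of_countable h'
  refine ⟨fun ω => h' (g ω), ?_, ?_⟩
  · letI : MeasurableSpace X := sigmaLoops Γ
    exact hh'.comp hg
  · filter_upwards [hcr, hL.nest.finite] with ω hω hfin
    obtain ⟨l₀, hl₀, hω⟩ := hω
    show h (nG p Γ ω) = h (fun s => if hs : s ∈ Sts p then g ω ⟨s, hs⟩ else 0)
    congr 1
    funext s
    by_cases hs : s ∈ Sts p
    · rw [dif_pos hs]
      show nG p Γ ω s = ⌊limsup (fun j => Y j s ω) atTop⌋₊
      have hev : ∀ᶠ j in atTop, Y j s ω = (nG p Γ ω s : ℝ) := by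
        filter_upwards [hljt.eventually (gt_mem_nhds hl₀)] with j hj
        exact hp3 (Γ ω) (lj j) hfin (hlj0 j) (hlj1 j) (hω (lj j) (hlj0 j) hj) s hs
      have ht : Tendsto (fun j => Y j s ω) atTop (𝓝 (nG p Γ ω s : ℝ)) :=
        tendsto_const_nhds.congr' (hev.mono fun j hj => hj.symm)
      rw [ht.limsup_eq, Nat.floor_natCast]
    · rw [dif_neg hs]
      exact measS_nG_zero p Γ ω s hs

end Pool.Agent.Lib.MP_6d40c9_pr
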