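import Pool.Agent.Lib.MP_6d40c9_pr.SpecM

/-!
# Lower bound for the magnetization
-/

set_option autoImplicit false

namespace Pool.Agent.Lib.MP_6d40c9_pr

open Finset MeasureTheory Filter Topology TopologicalSpace
open scoped BigOperators symmDiff

namespace MmLowSAux

/-! ### The expectation -/

lemma lE_congr {D : Finset Edge} {g h : Finset Edge → ℝ} (H : ∀ w, g w = h w) :
    lE D g = lE D h := by
  have : g = h := funext H
  rw [this]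

lemma lE_sum {ι : Type*} (D : Finset Edge) (s : Finset ι) (g : ι → Finset Edge → ℝ) :
    lE D (fun w => ∑ i ∈ s, g i w) = ∑ i ∈ s, lE D (g i) := by
  unfold lE lpE
  rw [← Finset.sum_div]
  congr 1
  rw [Finset.sum_comm]
  refine Finset.sum_congr rfl fun η _ => ?_
  by_cases h : bdy bdV η = 0
  · simp only [if_pos h]
    rw [Finset.mul_sum]
  · simp only [if_neg h]
    rw [Finset.sum_const_zero]

lemma lE_mul (D : Finset Edge) (a : ℝ) (g : Finset Edge → ℝ) :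
    lE D (fun w => a * g w) = a * lE D g := by
  unfold lE lpE
  rw [← mul_div_assoc]
  congr 1
  rw [Finset.mul_sum]
  refine Finset.sum_congr rfl fun η _ => ?_
  by_cases h : bdy bdV η = 0
  · simp only [if_pos h]
    ring
  · simp only [if_neg h]
    ring

lemma sgs_pair (u v : Pt) (w : Finset Edge) : sgs ({u} ∆ {v}) w = sgn w u * sgn w v := by
  by_cases h : u = v
  · subst h
    rw [symmDiff_self]
    unfold sgs sgn
    rw [← pow_add, Even.neg_one_pow ⟨_, rfl⟩]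
    rfl
  · have h1 : ({u} : Finset Pt) ∆ {v} = {u, v} := by
      ext x
      rw [Finset.mem_symmDiff, Finset.mem_singleton, Finset.mem_singleton, Finset.mem_insert,
        Finset.mem_singleton]
      constructor
      · rintro (⟨h2, -⟩ | ⟨h2, -⟩)
        · exact Or.inl h2
        · exact Or.inr h2
      · rintro (h2 | h2)
        · exact Or.inl ⟨h2, fun h3 => h (h2.symm.trans h3)⟩
        · exact Or.inr ⟨h2, fun h3 => h (h3.symm.trans h2)⟩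
    rw [h1]
    unfold sgs
    rw [Finset.prod_pair h]

lemma c2_eq (D : Finset Edge) (u v : Pt) : c2 D u v = lE D (sgs ({u} ∆ {v})) :=
  lE_congr fun w => (sgs_pair u v w).symm

lemma c2_bounds (h1 : MonoC) (D : Finset Edge) (u v : Pt) : 0 ≤ c2 D u v ∧ c2 D u v ≤ 1 := by
  rw [c2_eq]
  obtain ⟨h2, -, h3, -⟩ := h1 D D ({u} ∆ {v}) ∅ (Finset.Subset.refl _)
  exact ⟨h2, h3⟩

lemma mm_eq (N : ℕ) : mm N = lE (LF (box 0 N)) (sgs {0}) := by
  unfold mm c1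
  refine lE_congr fun w => ?_
  unfold sgs
  rw [Finset.prod_singleton]

lemma LF_mono {F F' : Finset Pt} (h : F ⊆ F') : LF F ⊆ LF F' :=
  Finset.biUnion_subset_biUnion_of_subset_left _ h

lemma mem_box {u z : Pt} {n : ℕ} :
    u ∈ box z n ↔ z.1 - n ≤ u.1 ∧ u.1 ≤ z.1 + n ∧ z.2 - n ≤ u.2 ∧ u.2 ≤ z.2 + n := by
  unfold box
  rw [Finset.mem_product, Finset.mem_Icc, Finset.mem_Icc]
  tauto

lemma box_mono {z : Pt} {n n' : ℕ} (h : n ≤ n') : box z n ⊆ box z n' := by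
  intro u hu
  rw [mem_box] at hu ⊢
  omega

lemma card_box (z : Pt) (n : ℕ) : (box z n).card = (2 * n + 1) ^ 2 := by
  unfold box
  rw [Finset.card_product, Int.card_Icc, Int.card_Icc, sq]
  congr 1 <;> omega

lemma mm_nonneg (h1 : MonoC) (N : ℕ) : 0 ≤ mm N := by
  rw [mm_eq]
  exact (h1 _ _ {0} ∅ (Finset.Subset.refl _)).1

lemma mm_anti (h1 : MonoC) {N N' : ℕ} (h : N ≤ N') : mm N' ≤ mm N := by
  rw [mm_eq, mm_eq]
  exact (h1 _ _ {0} ∅ (LF_mono (box_mono h))).2.1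

/-! ### Powers -/

lemma half_le_rpow {x : ℝ} (hx : 0 < x) (hx2 : x ≤ 16) : 1 / 2 ≤ x ^ (-(1 / 4) : ℝ) := by
  have h1 : (16 : ℝ) ^ (-(1 / 4) : ℝ) ≤ x ^ (-(1 / 4) : ℝ) :=
    Real.rpow_le_rpow_of_nonpos hx hx2 (by norm_num)
  have h2 : (16 : ℝ) ^ (-(1 / 4) : ℝ) = 1 / 2 := by
    rw [show (16 : ℝ) = 2 ^ (4 : ℝ) by norm_num, ← Real.rpow_mul (by norm_num)]
    norm_num
  rw [h2] at h1
  exact h1

lemma rpow_sixteen {x y : ℝ} (hx : 0 < x) (hy : 0 < y) (h : y ≤ 16 * x) :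
    x ^ (-(1 / 4) : ℝ) ≤ 2 * y ^ (-(1 / 4) : ℝ) := by
  have h1 : (16 * x) ^ (-(1 / 4) : ℝ) ≤ y ^ (-(1 / 4) : ℝ) :=
    Real.rpow_le_rpow_of_nonpos hy h (by norm_num)
  have h2 : (16 : ℝ) ^ (-(1 / 4) : ℝ) = 1 / 2 := by
    rw [show (16 : ℝ) = 2 ^ (4 : ℝ) by norm_num, ← Real.rpow_mul (by norm_num)]
    norm_num
  rw [Real.mul_rpow (by norm_num) hx.le, h2] at h1
  linarith

/-! ### Near pairs -/

lemma c2_near (h1 : MonoC) (h3 : TwoBox) (C : ℝ)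
    (hC : ∀ N : ℕ, 1 ≤ N → mm N ≤ C * (N : ℝ) ^ (-(1 / 8) : ℝ)) (D : Finset Edge) (u v : Pt)
    (hD : ∀ k : ℕ, 2 * k + 2 ≤ ldist u v → LF (box u k) ⊆ D ∧ LF (box v k) ⊆ D) :
    c2 D u v ≤ 2 * max 1 (C ^ 2) * ((ldist u v : ℝ) + 1) ^ (-(1 / 4) : ℝ) := by
  have hpos : (0 : ℝ) < (ldist u v : ℝ) + 1 := by positivity
  rcases Nat.lt_or_ge (ldist u v) 4 with hlt | hge
  · have h4 := (c2_bounds h1 D u v).2
    have h5 : (ldist u v : ℝ) + 1 ≤ 16 := by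
      have : ldist u v ≤ 15 := by omega
      have : (ldist u v : ℝ) ≤ 15 := by exact_mod_cast this
      linarith
    have h6 := half_le_rpow hpos h5
    have h7 : (1 : ℝ) ≤ max 1 (C ^ 2) := le_max_left _ _
    nlinarith
  · obtain ⟨k, hk⟩ : ∃ k, k = (ldist u v - 2) / 2 := ⟨_, rfl⟩
    have hk1 : 1 ≤ k := by omega
    have hk2 : 2 * k + 2 ≤ ldist u v := by omega
    have hk3 : ldist u v + 1 ≤ 16 * k := by omega
    have h4 := h3 k u v D hk2 (hD k hk2).1 (hD k hk2).2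
    have h5 := hC k hk1
    have h6 := mm_nonneg h1 k
    have hkpos : (0 : ℝ) < k := by exact_mod_cast hk1
    have h7 : mm k * mm k ≤ (C * (k : ℝ) ^ (-(1 / 8) : ℝ)) * (C * (k : ℝ) ^ (-(1 / 8) : ℝ)) :=
      mul_self_le_mul_self h6 h5
    have h8 : (k : ℝ) ^ (-(1 / 8) : ℝ) * (k : ℝ) ^ (-(1 / 8) : ℝ) = (k : ℝ) ^ (-(1 / 4) : ℝ) := by
      rw [← Real.rpow_add hkpos]
      norm_num
    have h9 : (k : ℝ) ^ (-(1 / 4) : ℝ) ≤ 2 * ((ldist u v : ℝ) + 1) ^ (-(1 / 4) : ℝ) :=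
      rpow_sixteen hkpos hpos (by exact_mod_cast hk3)
    have h10 : (0 : ℝ) ≤ (k : ℝ) ^ (-(1 / 4) : ℝ) := by positivity
    have h11 : C ^ 2 ≤ max 1 (C ^ 2) := le_max_right _ _
    calc c2 D u v ≤ mm k * mm k := h4
      _ ≤ (C * (k : ℝ) ^ (-(1 / 8) : ℝ)) * (C * (k : ℝ) ^ (-(1 / 8) : ℝ)) := h7
      _ = C ^ 2 * (k : ℝ) ^ (-(1 / 4) : ℝ) := by rw [← h8]; ring
      _ ≤ max 1 (C ^ 2) * (k : ℝ) ^ (-(1 / 4) : ℝ) := mul_le_mul_of_nonneg_right h11 h10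
      _ ≤ max 1 (C ^ 2) * (2 * ((ldist u v : ℝ) + 1) ^ (-(1 / 4) : ℝ)) :=
        mul_le_mul_of_nonneg_left h9 (le_trans zero_le_one (le_max_left _ _))
      _ = _ := by ring

lemma card_sphere (T : Finset Pt) (u : Pt) (l : ℕ) :
    (T.filter fun v => ldist u v = l).card ≤ 8 * l + 8 := by
  have hsub : (T.filter fun v => ldist u v = l) ⊆
      (({u.1 - l, u.1 + l} : Finset ℤ) ×ˢ Finset.Icc (u.2 - l) (u.2 + l)) ∪
        (Finset.Icc (u.1 - l) (u.1 + l) ×ˢ ({u.2 - l, u.2 + l} : Finset ℤ)) := by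
    intro v hv
    have h := (Finset.mem_filter.1 hv).2
    unfold ldist at h
    rw [Finset.mem_union, Finset.mem_product, Finset.mem_product, Finset.mem_insert,
      Finset.mem_singleton, Finset.mem_insert, Finset.mem_singleton, Finset.mem_Icc,
      Finset.mem_Icc]
    omega
  refine (Finset.card_le_card hsub).trans ((Finset.card_union_le _ _).trans ?_)
  rw [Finset.card_product, Finset.card_product, Int.card_Icc, Int.card_Icc]
  have h1 : ({u.1 - l, u.1 + l} : Finset ℤ).card ≤ 2 := Finset.card_le_two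
  have h2 : ({u.2 - l, u.2 + l} : Finset ℤ).card ≤ 2 := Finset.card_le_two
  have h3 : (u.2 + l + 1 - (u.2 - l)).toNat = 2 * l + 1 := by omega
  have h4 : (u.1 + l + 1 - (u.1 - l)).toNat = 2 * l + 1 := by omega
  rw [h3, h4]
  nlinarith

lemma near_sum (T : Finset Pt) (u : Pt) (m : ℕ) (hm : 1 ≤ m) :
    ∑ v ∈ T, (if ldist u v < m then ((ldist u v : ℝ) + 1) ^ (-(1 / 4) : ℝ) else 0) ≤
      8 * (m : ℝ) ^ (7 / 4 : ℝ) := by
  rw [← Finset.sum_filter]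
  rw [← Finset.sum_fiberwise_of_maps_to (s := T.filter fun v => ldist u v < m)
    (t := Finset.range m) (g := fun v => ldist u v)
    (fun v hv => Finset.mem_range.2 (Finset.mem_filter.1 hv).2)]
  have hmpos : (0 : ℝ) < m := by exact_mod_cast hm
  have hterm : ∀ l ∈ Finset.range m,
      ∑ v ∈ (T.filter fun v => ldist u v < m).filter (fun v => ldist u v = l),
        ((ldist u v : ℝ) + 1) ^ (-(1 / 4) : ℝ) ≤ 8 * (m : ℝ) ^ (3 / 4 : ℝ) := by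
    intro l hl
    have hl' := Finset.mem_range.1 hl
    have hlpos : (0 : ℝ) < (l : ℝ) + 1 := by positivity
    have h1 : ∑ v ∈ (T.filter fun v => ldist u v < m).filter (fun v => ldist u v = l),
        ((ldist u v : ℝ) + 1) ^ (-(1 / 4) : ℝ) =
        (((T.filter fun v => ldist u v < m).filter (fun v => ldist u v = l)).card : ℝ) *
          ((l : ℝ) + 1) ^ (-(1 / 4) : ℝ) := by
      rw [← nsmul_eq_mul, ← Finset.sum_const]
      refine Finset.sum_congr rfl fun v hv => ?_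
      rw [(Finset.mem_filter.1 hv).2]
    rw [h1]
    have h2 : (((T.filter fun v => ldist u v < m).filter (fun v => ldist u v = l)).card : ℝ) ≤
        8 * ((l : ℝ) + 1) := by
      have := card_sphere (T.filter fun v => ldist u v < m) u l
      have h3 : (((T.filter fun v => ldist u v < m).filter (fun v => ldist u v = l)).card : ℝ) ≤
          ((8 * l + 8 : ℕ) : ℝ) := by exact_mod_cast this
      push_cast at h3
      linarith
    have h3 : ((l : ℝ) + 1) * ((l : ℝ) + 1) ^ (-(1 / 4) : ℝ) = ((l : ℝ) + 1) ^ (3 / 4 : ℝ) := by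
      nth_rewrite 1 [← Real.rpow_one ((l : ℝ) + 1)]
      rw [← Real.rpow_add hlpos]
      norm_num
    have h4 : ((l : ℝ) + 1) ^ (3 / 4 : ℝ) ≤ (m : ℝ) ^ (3 / 4 : ℝ) := by
      apply Real.rpow_le_rpow hlpos.le _ (by norm_num)
      exact_mod_cast hl'
    calc _ ≤ 8 * ((l : ℝ) + 1) * ((l : ℝ) + 1) ^ (-(1 / 4) : ℝ) :=
          mul_le_mul_of_nonneg_right h2 (by positivity)
      _ = 8 * (((l : ℝ) + 1) * ((l : ℝ) + 1) ^ (-(1 / 4) : ℝ)) := by ring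
      _ ≤ _ := by rw [h3]; linarith
  refine (Finset.sum_le_sum hterm).trans ?_
  rw [Finset.sum_const, Finset.card_range, nsmul_eq_mul]
  have h5 : (m : ℝ) * (m : ℝ) ^ (3 / 4 : ℝ) = (m : ℝ) ^ (7 / 4 : ℝ) := by
    nth_rewrite 1 [← Real.rpow_one (m : ℝ)]
    rw [← Real.rpow_add hmpos]
    norm_num
  rw [← h5]
  exact le_of_eq (by ring)

/-! ### Faces -/

lemma cell_mem (δ : ℝ) (hδ : 0 < δ) (u : Pt) : ((δ * u.1, δ * u.2) : ℝ × ℝ) ∈ cell δ u := by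
  refine ⟨le_rfl, ?_, le_rfl, ?_⟩
  · show δ * (u.1 : ℝ) ≤ δ * ((u.1 : ℝ) + 1)
    nlinarith
  · show δ * (u.2 : ℝ) ≤ δ * ((u.2 : ℝ) + 1)
    nlinarith

lemma cell_box (Ω : Set (ℝ × ℝ)) (A δ : ℝ) (hδ : 0 < δ) (n : ℕ) (hn : A ≤ δ * n)
    (hΩ : Ω ⊆ Metric.closedBall 0 A) (u : Pt) (hu : cell δ u ⊆ Ω) : u ∈ box 0 n := by
  have h1 := hΩ (hu (cell_mem δ hδ u))
  rw [mem_closedBall_zero_iff, Prod.norm_def, max_le_iff, Real.norm_eq_abs, Real.norm_eq_abs,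
    abs_le, abs_le] at h1
  obtain ⟨⟨h2, h3⟩, h4, h5⟩ := h1
  simp only at h2 h3 h4 h5
  rw [mem_box]
  have key : ∀ t : ℤ, -A ≤ δ * t → δ * t ≤ A → -(n : ℤ) ≤ t ∧ t ≤ n := by
    intro t ht1 ht2
    constructor
    · have : δ * (-(n : ℝ)) ≤ δ * t := by linarith
      have := le_of_mul_le_mul_left this hδ
      exact_mod_cast this
    · have : δ * (t : ℝ) ≤ δ * n := by linarith
      have := le_of_mul_le_mul_left this hδ
      exact_mod_cast this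
  have h6 := key u.1 h2 h3
  have h7 := key u.2 h4 h5
  simp only [Prod.fst_zero, Prod.snd_zero]
  omega

lemma mem_faces (Ω : Set (ℝ × ℝ)) (A δ : ℝ) (hδ : 0 < δ) (n : ℕ) (hn : A ≤ δ * n)
    (hΩ : Ω ⊆ Metric.closedBall 0 A) (u : Pt) : u ∈ faces Ω δ ↔ cell δ u ⊆ Ω := by
  have hfin : {u : Pt | cell δ u ⊆ Ω}.Finite :=
    (box 0 n).finite_toSet.subset fun u hu => cell_box Ω A δ hδ n hn hΩ u hu
  unfold faces
  rw [dif_pos hfin, Set.Finite.mem_toFinset]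
  rfl

lemma cell_ball (δ : ℝ) (hδ : 0 < δ) (u v : Pt) (k : ℕ) (hv : v ∈ box u k) :
    cell δ v ⊆ Metric.closedBall (ctr δ u) (((k : ℝ) + 1) * δ) := by
  rw [mem_box] at hv
  obtain ⟨h1, h2, h3, h4⟩ := hv
  have h1' : (u.1 : ℝ) - k ≤ v.1 := by exact_mod_cast h1
  have h2' : (v.1 : ℝ) ≤ u.1 + k := by exact_mod_cast h2
  have h3' : (u.2 : ℝ) - k ≤ v.2 := by exact_mod_cast h3
  have h4' : (v.2 : ℝ) ≤ u.2 + k := by exact_mod_cast h4
  rintro ⟨p, q⟩ ⟨hp1, hp2, hq1, hq2⟩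
  simp only at hp1 hp2 hq1 hq2
  rw [Metric.mem_closedBall, Prod.dist_eq, max_le_iff, Real.dist_eq, Real.dist_eq, abs_le, abs_le]
  unfold ctr
  simp only
  refine ⟨⟨?_, ?_⟩, ?_, ?_⟩ <;> nlinarith

/-! ### The second moment -/

lemma second_moment (Ω : Set (ℝ × ℝ)) (δ : ℝ) (g : ℝ × ℝ → ℝ) (D : Finset Edge) :
    lE D (fun w => sf Ω δ g w ^ 2) = (δ ^ (15 / 8 : ℝ)) ^ 2 *
      ∑ u ∈ faces Ω δ, ∑ v ∈ faces Ω δ, g (ctr δ u) * g (ctr δ v) * c2 D u v := by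
  have e1 : ∀ w, sf Ω δ g w ^ 2 = (δ ^ (15 / 8 : ℝ)) ^ 2 *
      ∑ u ∈ faces Ω δ, ∑ v ∈ faces Ω δ,
        (g (ctr δ u) * g (ctr δ v)) * (sgn w u * sgn w v) := by
    intro w
    unfold sf
    rw [mul_pow, sq (∑ u ∈ faces Ω δ, g (ctr δ u) * sgn w u), Finset.sum_mul_sum]
    congr 1
    refine Finset.sum_congr rfl fun u _ => Finset.sum_congr rfl fun v _ => ?_
    ring
  rw [lE_congr e1, lE_mul, lE_sum]
  congr 1
  refine Finset.sum_congr rfl fun u _ => ?_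
  rw [lE_sum]
  refine Finset.sum_congr rfl fun v _ => ?_
  rw [lE_mul]
  rfl

lemma sum_bound (F : Finset Pt) (m : ℕ) (hm : 1 ≤ m) (a : Pt → Pt → ℝ) (G2 C₁ M2 q : ℝ)
    (hG2 : 0 ≤ G2) (hC₁ : 0 ≤ C₁) (hM2 : 0 ≤ M2) (hq : (F.card : ℝ) ≤ q)
    (h : ∀ u ∈ F, ∀ v ∈ F, a u v ≤ G2 * (C₁ * (if ldist u v < m then
      ((ldist u v : ℝ) + 1) ^ (-(1 / 4) : ℝ) else 0) + M2)) :
    ∑ u ∈ F, ∑ v ∈ F, a u v ≤ G2 * (q * (C₁ * (8 * (m : ℝ) ^ (7 / 4 : ℝ))) + q ^ 2 * M2) := by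
  have hF : (0 : ℝ) ≤ F.card := by positivity
  have h1 : ∀ u ∈ F, ∑ v ∈ F, a u v ≤
      G2 * (C₁ * (8 * (m : ℝ) ^ (7 / 4 : ℝ)) + q * M2) := by
    intro u hu
    refine (Finset.sum_le_sum fun v hv => h u hu v hv).trans ?_
    rw [← Finset.mul_sum, Finset.sum_add_distrib, ← Finset.mul_sum, Finset.sum_const,
      nsmul_eq_mul]
    refine mul_le_mul_of_nonneg_left ?_ hG2
    exact add_le_add (mul_le_mul_of_nonneg_left (near_sum F u m hm) hC₁)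
      (mul_le_mul_of_nonneg_right hq hM2)
  refine (Finset.sum_le_sum h1).trans ?_
  rw [Finset.sum_const, nsmul_eq_mul]
  have h2 : 0 ≤ G2 * (C₁ * (8 * (m : ℝ) ^ (7 / 4 : ℝ)) + q * M2) := by
    have : 0 ≤ q := hF.trans hq
    positivity
  refine (mul_le_mul_of_nonneg_right hq h2).trans (le_of_eq ?_)
  ring

lemma powers (A ε : ℝ) (n m : ℕ) (hA : 0 < A) (hε : 0 < ε) (hε1 : ε ≤ 1) (hn : 1 ≤ n)
    (hmn : (m : ℝ) ≤ ε * n) :
    ∃ X : ℝ, 0 < X ∧ ((A / n) ^ (15 / 8 : ℝ)) ^ 2 = A ^ (15 / 4 : ℝ) / X ∧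
      (n : ℝ) ^ 2 * (m : ℝ) ^ (7 / 4 : ℝ) ≤ ε * X ∧
      (n : ℝ) ^ 4 = X * (n : ℝ) ^ (1 / 4 : ℝ) := by
  have hnpos : (0 : ℝ) < n := by exact_mod_cast hn
  refine ⟨(n : ℝ) ^ (15 / 4 : ℝ), by positivity, ?_, ?_, ?_⟩
  · rw [← Real.rpow_natCast, ← Real.rpow_mul (by positivity), ← Real.div_rpow hA.le hnpos.le]
    norm_num
  · have e1 : (n : ℝ) ^ (15 / 4 : ℝ) = (n : ℝ) ^ 2 * (n : ℝ) ^ (7 / 4 : ℝ) := by
      rw [← Real.rpow_natCast, ← Real.rpow_add hnpos]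
      norm_num
    have e2 : (m : ℝ) ^ (7 / 4 : ℝ) ≤ (ε * n) ^ (7 / 4 : ℝ) :=
      Real.rpow_le_rpow (by positivity) hmn (by norm_num)
    have e3 : ε ^ (7 / 4 : ℝ) ≤ ε := by
      have := Real.rpow_le_rpow_of_exponent_ge hε hε1 (show (1 : ℝ) ≤ 7 / 4 by norm_num)
      rwa [Real.rpow_one] at this
    rw [Real.mul_rpow hε.le hnpos.le] at e2
    rw [e1]
    have e4 : (0 : ℝ) ≤ (n : ℝ) ^ (7 / 4 : ℝ) := by positivity
    calc (n : ℝ) ^ 2 * (m : ℝ) ^ (7 / 4 : ℝ)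
        ≤ (n : ℝ) ^ 2 * (ε ^ (7 / 4 : ℝ) * (n : ℝ) ^ (7 / 4 : ℝ)) :=
          mul_le_mul_of_nonneg_left e2 (by positivity)
      _ ≤ (n : ℝ) ^ 2 * (ε * (n : ℝ) ^ (7 / 4 : ℝ)) :=
          mul_le_mul_of_nonneg_left (mul_le_mul_of_nonneg_right e3 e4) (by positivity)
      _ = _ := by ring
  · rw [← Real.rpow_natCast, ← Real.rpow_add hnpos]
    norm_num

end MmLowSAux

open MmLowSAux

theorem mmLowS (h1 : MonoC) (_h2 : Transl) (h3 : TwoBox) : MmLowS := by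
  intro Ω hΩo hΩb hlow hup
  obtain ⟨g, c, δ₀, ⟨hgs, hgc, hgt⟩, hg0, hc, hδ₀, hlow⟩ := hlow
  obtain ⟨C, hC⟩ := hup
  obtain ⟨A, hA1, hA⟩ : ∃ A : ℝ, 1 ≤ A ∧ Ω ⊆ Metric.closedBall 0 A := by
    obtain ⟨r, hr⟩ := hΩb.subset_closedBall 0
    exact ⟨max r 1, le_max_right _ _,
      hr.trans (Metric.closedBall_subset_closedBall (le_max_left _ _))⟩
  obtain ⟨G, hG1, hG⟩ : ∃ G : ℝ, 1 ≤ G ∧ ∀ p, g p ≤ G := by
    obtain ⟨r, hr⟩ := hgc.exists_bound_of_continuous hgs.continuous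
    exact ⟨max r 1, le_max_right _ _, fun p =>
      (le_abs_self _).trans ((hr p).trans (le_max_left _ _))⟩
  obtain ⟨ρ, hρ, hρΩ⟩ := (show IsCompact (tsupport g) from hgc).exists_cthickening_subset_open
    hΩo hgt
  have hApos : 0 < A := by linarith
  have hGpos : 0 < G := by linarith
  obtain ⟨C₁, hC₁⟩ : ∃ C₁ : ℝ, C₁ = 2 * max 1 (C ^ 2) := ⟨_, rfl⟩
  have hC₁pos : 0 < C₁ := by
    have : (1 : ℝ) ≤ max 1 (C ^ 2) := le_max_left _ _
    rw [hC₁]; linarith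
  obtain ⟨P, hP⟩ : ∃ P : ℝ, P = A ^ (15 / 4 : ℝ) := ⟨_, rfl⟩
  have hPpos : 0 < P := by rw [hP]; positivity
  obtain ⟨ε, hε, hε1, hε2, hε3⟩ : ∃ ε : ℝ, 0 < ε ∧ ε ≤ 1 ∧
      72 * C₁ * G ^ 2 * P * ε ≤ c / 2 ∧ A * ε ≤ ρ := by
    refine ⟨min 1 (min (c / (144 * C₁ * G ^ 2 * P)) (ρ / A)), ?_, min_le_left _ _, ?_, ?_⟩
    · exact lt_min one_pos (lt_min (by positivity) (by positivity))
    · have h4 : min 1 (min (c / (144 * C₁ * G ^ 2 * P)) (ρ / A)) ≤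
          c / (144 * C₁ * G ^ 2 * P) := (min_le_right _ _).trans (min_le_left _ _)
      have h5 : 72 * C₁ * G ^ 2 * P * (c / (144 * C₁ * G ^ 2 * P)) = c / 2 := by
        field_simp
        norm_num
      rw [← h5]
      exact mul_le_mul_of_nonneg_left h4 (by positivity)
    · have h4 : min 1 (min (c / (144 * C₁ * G ^ 2 * P)) (ρ / A)) ≤ ρ / A :=
        (min_le_right _ _).trans (min_le_right _ _)
      calc A * _ ≤ A * (ρ / A) := mul_le_mul_of_nonneg_left h4 hApos.le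
        _ = ρ := by field_simp
  obtain ⟨Lc, hLc⟩ : ∃ Lc : ℝ, Lc = 4 / ε + 1 := ⟨_, rfl⟩
  have hLcpos : 0 < Lc := by rw [hLc]; positivity
  -- the key estimate
  have key : ∀ N : ℕ, 1 ≤ N → A < δ₀ * N →
      c / 2 ≤ 81 * G ^ 2 * P * (Lc * N) ^ (1 / 4 : ℝ) * mm N ^ 2 := by
    intro N hN hNδ
    have hNr : (1 : ℝ) ≤ N := by exact_mod_cast hN
    obtain ⟨m, hm⟩ : ∃ m : ℕ, m = 2 * N + 2 := ⟨_, rfl⟩
    have hmr : (m : ℝ) = 2 * N + 2 := by rw [hm]; push_cast; ring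
    obtain ⟨n, hn1, hn2⟩ : ∃ n : ℕ, (m : ℝ) / ε ≤ n ∧ (n : ℝ) ≤ m / ε + 1 :=
      ⟨⌈(m : ℝ) / ε⌉₊, Nat.le_ceil _, (Nat.ceil_lt_add_one (by positivity)).le⟩
    have hmn : (m : ℝ) ≤ ε * n := by
      rw [div_le_iff₀ hε] at hn1
      linarith
    have hmpos : (0 : ℝ) < m := by rw [hmr]; positivity
    have hnpos : (0 : ℝ) < n := lt_of_lt_of_le (by positivity) hn1
    have hn0 : 1 ≤ n := by exact_mod_cast hnpos
    have hmn' : (m : ℝ) ≤ n := hmn.trans (by nlinarith)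
    have hNn : (N : ℝ) ≤ n := by linarith
    have hnL : (n : ℝ) ≤ Lc * N := by
      have h4 : (m : ℝ) / ε ≤ 4 / ε * N := by
        rw [div_mul_eq_mul_div, div_le_div_iff_of_pos_right hε]
        linarith
      rw [hLc]
      nlinarith
    obtain ⟨δ, hδdef⟩ : ∃ δ : ℝ, δ = A / n := ⟨_, rfl⟩
    have hδ : 0 < δ := by rw [hδdef]; positivity
    have hδn : δ * n = A := by rw [hδdef]; field_simp
    have hδ' : δ < δ₀ := by
      rw [hδdef, div_lt_iff₀ hnpos]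
      exact lt_of_lt_of_le hNδ (mul_le_mul_of_nonneg_left hNn hδ₀.le)
    have hE := hlow δ hδ hδ'
    obtain ⟨D, hD⟩ : ∃ D : Finset Edge, D = DD Ω δ := ⟨_, rfl⟩
    rw [← hD, second_moment] at hE
    -- boxes around points of the support
    have hfaces : ∀ u, u ∈ faces Ω δ ↔ cell δ u ⊆ Ω :=
      mem_faces Ω A δ hδ n (le_of_eq hδn.symm) hA
    have hbox : ∀ u, g (ctr δ u) ≠ 0 → ∀ k : ℕ, 2 * k + 2 ≤ m → LF (box u k) ⊆ D := by
      intro u hu k hk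
      rw [hD]
      refine LF_mono fun v hv => ?_
      rw [hfaces]
      refine (cell_ball δ hδ u v k hv).trans (Set.Subset.trans ?_ hρΩ)
      have h4 : ctr δ u ∈ tsupport g := subset_tsupport g hu
      have h5 : ((k : ℝ) + 1) * δ ≤ ρ := by
        have h6 : (2 : ℝ) * k + 2 ≤ m := by exact_mod_cast hk
        have h7 : ((k : ℝ) + 1) * δ ≤ (ε * n) * δ := by
          apply mul_le_mul_of_nonneg_right _ hδ.le
          linarith
        have h8 : (ε * n) * δ = A * ε := by rw [← hδn]; ring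
        linarith
      exact (Metric.closedBall_subset_closedBall h5).trans
        (Metric.closedBall_subset_cthickening h4 ρ)
    have hM : 0 ≤ mm N ^ 2 := sq_nonneg _
    have hpair : ∀ u ∈ faces Ω δ, ∀ v ∈ faces Ω δ, g (ctr δ u) * g (ctr δ v) * c2 D u v ≤
        G ^ 2 * (C₁ * (if ldist u v < m then
          ((ldist u v : ℝ) + 1) ^ (-(1 / 4) : ℝ) else 0) + mm N ^ 2) := by
      intro u _ v _
      have hI : (0 : ℝ) ≤ (if ldist u v < m then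
          ((ldist u v : ℝ) + 1) ^ (-(1 / 4) : ℝ) else 0) := by
        split_ifs
        · positivity
        · exact le_rfl
      have hR : 0 ≤ G ^ 2 * (C₁ * (if ldist u v < m then
          ((ldist u v : ℝ) + 1) ^ (-(1 / 4) : ℝ) else 0) + mm N ^ 2) := by positivity
      by_cases hu : g (ctr δ u) = 0
      · rw [hu, zero_mul, zero_mul]; exact hR
      by_cases hv : g (ctr δ v) = 0
      · rw [hv, mul_zero, zero_mul]; exact hR
      have hc2 := (c2_bounds h1 D u v).1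
      have hgg : g (ctr δ u) * g (ctr δ v) ≤ G ^ 2 := by
        rw [sq]
        exact mul_le_mul (hG _) (hG _) (hg0 _) hGpos.le
      refine (mul_le_mul_of_nonneg_right hgg hc2).trans ?_
      refine mul_le_mul_of_nonneg_left ?_ (by positivity)
      by_cases hlt : ldist u v < m
      · rw [if_pos hlt, hC₁]
        have h4 := c2_near h1 h3 C hC D u v (fun k hk =>
          ⟨hbox u hu k (hk.trans hlt.le), hbox v hv k (hk.trans hlt.le)⟩)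
        linarith
      · rw [if_neg hlt, mul_zero, zero_add, sq]
        have h4 : 2 * N + 2 ≤ ldist u v := by omega
        exact h3 N u v D h4 (hbox u hu N (le_of_eq hm.symm)) (hbox v hv N (le_of_eq hm.symm))
    have hcard : ((faces Ω δ).card : ℝ) ≤ 9 * (n : ℝ) ^ 2 := by
      have h4 : faces Ω δ ⊆ box 0 n := fun u hu =>
        cell_box Ω A δ hδ n (le_of_eq hδn.symm) hA u ((hfaces u).1 hu)
      have h5 := Finset.card_le_card h4
      rw [card_box] at h5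
      have h6 : ((faces Ω δ).card : ℝ) ≤ ((2 * n + 1) ^ 2 : ℕ) := by exact_mod_cast h5
      push_cast at h6
      have h7 : (1 : ℝ) ≤ n := by exact_mod_cast hn0
      nlinarith
    have hsum := sum_bound (faces Ω δ) m (by omega) _ (G ^ 2) C₁ (mm N ^ 2) (9 * (n : ℝ) ^ 2)
      (by positivity) hC₁pos.le hM hcard hpair
    obtain ⟨X, hX, hX1, hX2, hX3⟩ := powers A ε n m hApos hε hε1 hn0 hmn
    rw [← hδdef, ← hP] at hX1
    rw [hX1] at hE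
    have h4 : c ≤ P / X * (G ^ 2 * (9 * (n : ℝ) ^ 2 * (C₁ * (8 * (m : ℝ) ^ (7 / 4 : ℝ))) +
        (9 * (n : ℝ) ^ 2) ^ 2 * mm N ^ 2)) :=
      hE.trans (mul_le_mul_of_nonneg_left hsum (by positivity))
    have h5 : G ^ 2 * (9 * (n : ℝ) ^ 2 * (C₁ * (8 * (m : ℝ) ^ (7 / 4 : ℝ))) +
        (9 * (n : ℝ) ^ 2) ^ 2 * mm N ^ 2) =
        G ^ 2 * (72 * C₁ * ((n : ℝ) ^ 2 * (m : ℝ) ^ (7 / 4 : ℝ)) + 81 * (n : ℝ) ^ 4 * mm N ^ 2) := by
      ring
    have h6 : G ^ 2 * (72 * C₁ * ((n : ℝ) ^ 2 * (m : ℝ) ^ (7 / 4 : ℝ)) +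
        81 * (n : ℝ) ^ 4 * mm N ^ 2) ≤
        G ^ 2 * (72 * C₁ * (ε * X) + 81 * (X * (n : ℝ) ^ (1 / 4 : ℝ)) * mm N ^ 2) := by
      rw [hX3]
      refine mul_le_mul_of_nonneg_left (add_le_add ?_ le_rfl) (by positivity)
      exact mul_le_mul_of_nonneg_left hX2 (by positivity)
    have h7 : P / X * (G ^ 2 * (72 * C₁ * (ε * X) +
        81 * (X * (n : ℝ) ^ (1 / 4 : ℝ)) * mm N ^ 2)) =
        72 * C₁ * G ^ 2 * P * ε + 81 * G ^ 2 * P * (n : ℝ) ^ (1 / 4 : ℝ) * mm N ^ 2 := by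
      field_simp
    have h8 : c ≤ 72 * C₁ * G ^ 2 * P * ε +
        81 * G ^ 2 * P * (n : ℝ) ^ (1 / 4 : ℝ) * mm N ^ 2 := by
      rw [← h7]
      rw [h5] at h4
      exact h4.trans (mul_le_mul_of_nonneg_left h6 (by positivity))
    have h9 : (n : ℝ) ^ (1 / 4 : ℝ) ≤ (Lc * N) ^ (1 / 4 : ℝ) :=
      Real.rpow_le_rpow hnpos.le hnL (by norm_num)
    have h10 : 81 * G ^ 2 * P * (n : ℝ) ^ (1 / 4 : ℝ) * mm N ^ 2 ≤
        81 * G ^ 2 * P * (Lc * N) ^ (1 / 4 : ℝ) * mm N ^ 2 :=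
      mul_le_mul_of_nonneg_right (mul_le_mul_of_nonneg_left h9 (by positivity)) hM
    linarith
  -- conclusion
  obtain ⟨K, hK⟩ : ∃ K : ℝ, K = 81 * G ^ 2 * P * Lc ^ (1 / 4 : ℝ) := ⟨_, rfl⟩
  have hKpos : 0 < K := by rw [hK]; positivity
  obtain ⟨s, hs⟩ : ∃ s : ℝ, s = Real.sqrt (c / (2 * K)) := ⟨_, rfl⟩
  have hspos : 0 < s := by rw [hs]; exact Real.sqrt_pos.2 (by positivity)
  have hs2 : s ^ 2 = c / (2 * K) := by rw [hs]; exact Real.sq_sqrt (by positivity)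
  have hbig : ∀ N : ℕ, 1 ≤ N → A < δ₀ * N → s * (N : ℝ) ^ (-(1 / 8) : ℝ) ≤ mm N := by
    intro N hN hNδ
    have hNpos : (0 : ℝ) < N := by exact_mod_cast hN
    have h4 := key N hN hNδ
    rw [Real.mul_rpow hLcpos.le hNpos.le] at h4
    have h5 : c / 2 ≤ K * ((N : ℝ) ^ (1 / 4 : ℝ) * mm N ^ 2) := by
      rw [hK]
      refine h4.trans (le_of_eq ?_)
      ring
    have h6 : ((N : ℝ) ^ (-(1 / 8) : ℝ)) ^ 2 * (N : ℝ) ^ (1 / 4 : ℝ) = 1 := by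
      rw [← Real.rpow_natCast, ← Real.rpow_mul hNpos.le, ← Real.rpow_add hNpos]
      norm_num
    have h7 : (s * (N : ℝ) ^ (-(1 / 8) : ℝ)) ^ 2 ≤ mm N ^ 2 := by
      have h8 : (0 : ℝ) < (N : ℝ) ^ (1 / 4 : ℝ) := by positivity
      refine le_of_mul_le_mul_right ?_ h8
      rw [mul_pow, mul_assoc, h6, mul_one, hs2]
      rw [div_le_iff₀ (by positivity)]
      nlinarith
    have h8 : 0 ≤ s * (N : ℝ) ^ (-(1 / 8) : ℝ) := by positivity
    exact (pow_le_pow_iff_left₀ h8 (mm_nonneg h1 N) two_ne_zero).1 h7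
  obtain ⟨N₀, hN₀⟩ : ∃ N₀ : ℕ, N₀ = ⌈A / δ₀⌉₊ + 1 := ⟨_, rfl⟩
  have hN₀1 : 1 ≤ N₀ := by omega
  have hN₀δ : ∀ N : ℕ, N₀ ≤ N → A < δ₀ * N := by
    intro N hN
    have h4 : A / δ₀ < N := by
      refine lt_of_le_of_lt (Nat.le_ceil _) ?_
      have : ⌈A / δ₀⌉₊ < N := by omega
      exact_mod_cast this
    rw [div_lt_iff₀ hδ₀] at h4
    linarith
  have hN₀pos : (0 : ℝ) < N₀ := by exact_mod_cast hN₀1
  have hle1 : ∀ N : ℕ, 1 ≤ N → (N : ℝ) ^ (-(1 / 8) : ℝ) ≤ 1 := by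
    intro N hN
    exact Real.rpow_le_one_of_one_le_of_nonpos (by exact_mod_cast hN) (by norm_num)
  refine ⟨s * (N₀ : ℝ) ^ (-(1 / 8) : ℝ), by positivity, fun N hN => ?_⟩
  rcases Nat.lt_or_ge N N₀ with hlt | hge
  · have h4 := hbig N₀ hN₀1 (hN₀δ N₀ le_rfl)
    have h5 := mm_anti h1 hlt.le
    have h6 : s * (N₀ : ℝ) ^ (-(1 / 8) : ℝ) * (N : ℝ) ^ (-(1 / 8) : ℝ) ≤
        s * (N₀ : ℝ) ^ (-(1 / 8) : ℝ) * 1 :=
      mul_le_mul_of_nonneg_left (hle1 N hN) (by positivity)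
    exact h6.trans ((le_of_eq (mul_one _)).trans (h4.trans h5))
  · have h4 := hbig N hN (hN₀δ N hge)
    have h5 : s * (N₀ : ℝ) ^ (-(1 / 8) : ℝ) ≤ s * 1 :=
      mul_le_mul_of_nonneg_left (hle1 N₀ hN₀1) hspos.le
    have h6 : s * (N₀ : ℝ) ^ (-(1 / 8) : ℝ) * (N : ℝ) ^ (-(1 / 8) : ℝ) ≤
        s * 1 * (N : ℝ) ^ (-(1 / 8) : ℝ) :=
      mul_le_mul_of_nonneg_right h5 (by positivity)
    rw [mul_one] at h6
    exact h6.trans h4

end Pool.Agent.Lib.MP_6d40c9_pr
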