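import Pool.Agent.Lib.MP_6d40c9_pr.SpecM

/-!
# Upper bound for the magnetization
-/

set_option autoImplicit false

namespace Pool.Agent.Lib.MP_6d40c9_pr

open Finset MeasureTheory Filter Topology TopologicalSpace
open scoped BigOperators symmDiff

namespace MmUpSAux

open Classical in
/-- the weight of a set of edges -/
noncomputable def W (w : Finset Edge) : ℝ := if Even' w then ∏ _e ∈ w, xc else 0

theorem xc_nonneg : 0 ≤ xc := by
  have : (1 : ℝ) ≤ Real.sqrt 2 := Real.one_le_sqrt.2 (by norm_num)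
  unfold xc
  linarith

theorem W_nonneg (w : Finset Edge) : 0 ≤ W w := by
  unfold W
  split_ifs
  · exact Finset.prod_nonneg fun _ _ => xc_nonneg
  · exact le_rfl

theorem Z_pos (D : Finset Edge) : 0 < ∑ w ∈ D.powerset, W w := by
  have h1 : W ∅ = 1 := by
    have : Even' ∅ := by
      unfold Even' bdy
      simp
    unfold W
    rw [if_pos this]
    simp
  have h2 : W ∅ ≤ ∑ w ∈ D.powerset, W w :=
    Finset.single_le_sum (f := W) (fun w _ => W_nonneg w) (Finset.empty_mem_powerset D)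
  linarith

open Classical in
theorem frac (D : Finset Edge) (f : Finset Edge → ℝ) :
    lE D f = (∑ w ∈ D.powerset, W w * f w) / ∑ w ∈ D.powerset, W w := by
  unfold lE lpE Zp W Even'
  congr 1
  refine Finset.sum_congr rfl fun w _ => ?_
  rw [ite_mul, zero_mul]

theorem lE_sq_le (D : Finset Edge) (f : Finset Edge → ℝ) :
    (lE D f) ^ 2 ≤ lE D (fun w => f w ^ 2) := by
  have hZ := Z_pos D
  have h := Finset.sum_sq_le_sum_mul_sum_of_sq_eq_mul D.powerset (r := fun w => W w * f w)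
    (f := fun w => W w) (g := fun w => W w * f w ^ 2) (fun w _ => W_nonneg w)
    (fun w _ => mul_nonneg (W_nonneg w) (sq_nonneg _)) (fun w _ => by ring)
  rw [frac, frac, div_pow, div_le_div_iff₀ (by positivity) hZ]
  calc (∑ w ∈ D.powerset, W w * f w) ^ 2 * ∑ w ∈ D.powerset, W w
      ≤ ((∑ w ∈ D.powerset, W w) * ∑ w ∈ D.powerset, W w * f w ^ 2) * ∑ w ∈ D.powerset, W w :=
        mul_le_mul_of_nonneg_right h hZ.le
    _ = _ := by ring

theorem lin {ι : Type*} (D : Finset Edge) (c : ℝ) (s : Finset ι) (g : ι → ℝ)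
    (f : ι → Finset Edge → ℝ) :
    lE D (fun w => c * ∑ u ∈ s, g u * f u w) = c * ∑ u ∈ s, g u * lE D (f u) := by
  rw [frac]
  have h : ∑ w ∈ D.powerset, W w * (c * ∑ u ∈ s, g u * f u w) =
      c * ∑ u ∈ s, g u * ∑ w ∈ D.powerset, W w * f u w := by
    simp only [Finset.mul_sum]
    rw [Finset.sum_comm]
    refine Finset.sum_congr rfl fun u _ => Finset.sum_congr rfl fun w _ => ?_
    ring
  rw [h, mul_div_assoc, Finset.sum_div]
  congr 1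
  refine Finset.sum_congr rfl fun u _ => ?_
  rw [frac, mul_div_assoc]

theorem abs_le_of_mem {A : ℝ} {Ω : Set (ℝ × ℝ)} (hA : Ω ⊆ Metric.closedBall 0 A) {p : ℝ × ℝ}
    (hp : p ∈ Ω) : |p.1| ≤ A ∧ |p.2| ≤ A := by
  have h := hA hp
  rw [mem_closedBall_zero_iff, Prod.norm_def, max_le_iff] at h
  exact h

theorem corner_mem {δ : ℝ} (hδ : 0 < δ) (u : Pt) : ((δ * u.1, δ * u.2) : ℝ × ℝ) ∈ cell δ u := by
  refine ⟨le_rfl, ?_, le_rfl, ?_⟩
  · show δ * (u.1 : ℝ) ≤ δ * ((u.1 : ℝ) + 1)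
    nlinarith
  · show δ * (u.2 : ℝ) ≤ δ * ((u.2 : ℝ) + 1)
    nlinarith

theorem bound {A δ : ℝ} {Ω : Set (ℝ × ℝ)} (hδ : 0 < δ) (hA : Ω ⊆ Metric.closedBall 0 A) {u : Pt}
    (hu : cell δ u ⊆ Ω) : |δ * (u.1 : ℝ)| ≤ A ∧ |δ * (u.2 : ℝ)| ≤ A :=
  abs_le_of_mem hA (hu (corner_mem hδ u))

theorem fin {A δ : ℝ} {Ω : Set (ℝ × ℝ)} (hδ : 0 < δ) (hA : Ω ⊆ Metric.closedBall 0 A) :
    {u : Pt | cell δ u ⊆ Ω}.Finite := by
  refine Set.Finite.subset (Finset.finite_toSet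
    (Finset.Icc (-⌈A / δ⌉) ⌈A / δ⌉ ×ˢ Finset.Icc (-⌈A / δ⌉) ⌈A / δ⌉)) ?_
  intro u hu
  have key : ∀ i : ℤ, |δ * (i : ℝ)| ≤ A → -⌈A / δ⌉ ≤ i ∧ i ≤ ⌈A / δ⌉ := by
    intro i hi
    rw [abs_le] at hi
    have h1 : (i : ℝ) ≤ A / δ := by
      rw [le_div_iff₀ hδ]
      linarith
    have h2 : -(A / δ) ≤ (i : ℝ) := by
      rw [neg_le, ← sub_nonneg]
      have : A / δ - -(i : ℝ) = (A + δ * i) / δ := by field_simp; ring
      rw [this]
      exact div_nonneg (by linarith) hδ.le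
    constructor
    · have h3 : (-(⌈A / δ⌉ : ℤ) : ℝ) ≤ (i : ℝ) := by
        have := Int.le_ceil (A / δ)
        push_cast
        linarith
      exact_mod_cast h3
    · have h3 : (i : ℝ) ≤ ((⌈A / δ⌉ : ℤ) : ℝ) := h1.trans (Int.le_ceil _)
      exact_mod_cast h3
  obtain ⟨h1, h2⟩ := bound hδ hA hu
  rw [Finset.mem_coe, Finset.mem_product, Finset.mem_Icc, Finset.mem_Icc]
  exact ⟨key _ h1, key _ h2⟩

theorem mem_faces {A δ : ℝ} {Ω : Set (ℝ × ℝ)} (hδ : 0 < δ) (hA : Ω ⊆ Metric.closedBall 0 A)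
    (u : Pt) : u ∈ faces Ω δ ↔ cell δ u ⊆ Ω := by
  unfold faces
  rw [dif_pos (fin hδ hA), Set.Finite.mem_toFinset, Set.mem_setOf_eq]

theorem faces_box {A δ : ℝ} {Ω : Set (ℝ × ℝ)} (hδ : 0 < δ) (hA : Ω ⊆ Metric.closedBall 0 A)
    (N : ℕ) (hN : 2 * A ≤ δ * N) {u : Pt} (hu : u ∈ faces Ω δ) : faces Ω δ ⊆ box u N := by
  intro v hv
  obtain ⟨h1, h2⟩ := bound hδ hA ((mem_faces hδ hA u).1 hu)
  obtain ⟨h3, h4⟩ := bound hδ hA ((mem_faces hδ hA v).1 hv)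
  have key : ∀ i j : ℤ, |δ * (i : ℝ)| ≤ A → |δ * (j : ℝ)| ≤ A → i - N ≤ j ∧ j ≤ i + N := by
    intro i j hi hj
    rw [abs_le] at hi hj
    constructor
    · have : δ * ((i : ℝ) - N) ≤ δ * (j : ℝ) := by linarith
      have := le_of_mul_le_mul_left this hδ
      exact_mod_cast this
    · have : δ * (j : ℝ) ≤ δ * ((i : ℝ) + N) := by linarith
      have := le_of_mul_le_mul_left this hδ
      exact_mod_cast this
  unfold box
  rw [Finset.mem_product, Finset.mem_Icc, Finset.mem_Icc]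
  exact ⟨key _ _ h1 h3, key _ _ h2 h4⟩

theorem LF_mono {A B : Finset Pt} (h : A ⊆ B) : LF A ⊆ LF B :=
  Finset.biUnion_subset_biUnion_of_subset_left _ h

theorem c1_ge {A δ : ℝ} {Ω : Set (ℝ × ℝ)} (hM : MonoC) (hT : Transl) (hδ : 0 < δ)
    (hA : Ω ⊆ Metric.closedBall 0 A) (N : ℕ) (hN : 2 * A ≤ δ * N) {u : Pt}
    (hu : u ∈ faces Ω δ) : mm N ≤ lE (DD Ω δ) (fun w => sgn w u) := by
  have e : ∀ D : Finset Edge, lE D (fun w => sgn w u) = lE D (sgs {u}) := by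
    intro D
    congr 1
    funext w
    unfold sgs
    rw [Finset.prod_singleton]
  have h1 : mm N = c1 (LF (box u N)) u := ((hT.2.2.1 u 0 N).2.1).symm
  rw [h1]
  unfold c1
  rw [e, e]
  exact (hM (LF (box u N)) (DD Ω δ) {u} ∅ (LF_mono (faces_box hδ hA N hN hu))).2.1

theorem mm_bounds (hM : MonoC) (N : ℕ) : 0 ≤ mm N ∧ mm N ≤ 1 := by
  have e : mm N = lE (LF (box 0 N)) (sgs {0}) := by
    unfold mm c1
    congr 1
    funext w
    unfold sgs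
    rw [Finset.prod_singleton]
  rw [e]
  have h := hM (LF (box 0 N)) (LF (box 0 N)) {0} ∅ subset_rfl
  exact ⟨h.1, h.2.2.1⟩

/-- number of integers in an interval -/
theorem card_Icc_ge (α β : ℝ) : β - α - 1 ≤ ((Finset.Icc ⌈α⌉ ⌊β⌋).card : ℝ) := by
  rw [Int.card_Icc]
  have h1 := Int.lt_floor_add_one β
  have h2 := Int.ceil_lt_add_one α
  have h3 : ((⌊β⌋ + 1 - ⌈α⌉ : ℤ) : ℝ) ≤ (((⌊β⌋ + 1 - ⌈α⌉).toNat : ℕ) : ℝ) := by
    have := Int.self_le_toNat (⌊β⌋ + 1 - ⌈α⌉)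
    exact_mod_cast this
  push_cast at h3
  linarith

/-- the index set of the faces whose centre is in the square around `z₀` -/
noncomputable def Q (δ a : ℝ) (z₀ : ℝ × ℝ) : Finset Pt :=
  Finset.Icc ⌈(z₀.1 - a) / δ - 1 / 2⌉ ⌊(z₀.1 + a) / δ - 1 / 2⌋ ×ˢ
    Finset.Icc ⌈(z₀.2 - a) / δ - 1 / 2⌉ ⌊(z₀.2 + a) / δ - 1 / 2⌋

theorem Q_card {δ a : ℝ} (hδ : 0 < δ) (hδa : δ ≤ a) (z₀ : ℝ × ℝ) :
    (a / δ) ^ 2 ≤ ((Q δ a z₀).card : ℝ) := by
  have key : ∀ x : ℝ, a / δ ≤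
      ((Finset.Icc ⌈(x - a) / δ - 1 / 2⌉ ⌊(x + a) / δ - 1 / 2⌋).card : ℝ) := by
    intro x
    refine le_trans ?_ (card_Icc_ge _ _)
    have h1 : 1 ≤ a / δ := by
      rw [le_div_iff₀ hδ]
      linarith
    have h2 : (x + a) / δ - 1 / 2 - ((x - a) / δ - 1 / 2) - 1 = a / δ + a / δ - 1 := by ring
    rw [h2]
    linarith
  unfold Q
  rw [Finset.card_product]
  push_cast
  have hp : 0 ≤ a / δ := by
    have : 0 < a := by linarith
    positivity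
  rw [pow_two]
  exact mul_le_mul (key _) (key _) hp (hp.trans (key _))

theorem Q_ctr {δ a : ℝ} (hδ : 0 < δ) {z₀ : ℝ × ℝ} {u : Pt} (hu : u ∈ Q δ a z₀) :
    ctr δ u ∈ Metric.closedBall z₀ a := by
  have key : ∀ (x : ℝ) (i : ℤ), i ∈ Finset.Icc ⌈(x - a) / δ - 1 / 2⌉ ⌊(x + a) / δ - 1 / 2⌋ →
      |δ * ((i : ℝ) + 1 / 2) - x| ≤ a := by
    intro x i hi
    rw [Finset.mem_Icc, Int.ceil_le, Int.le_floor] at hi
    rw [abs_le]
    constructor
    · have : (x - a) / δ ≤ (i : ℝ) + 1 / 2 := by linarith [hi.1]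
      rw [div_le_iff₀ hδ] at this
      linarith
    · have : (i : ℝ) + 1 / 2 ≤ (x + a) / δ := by linarith [hi.2]
      rw [le_div_iff₀ hδ] at this
      linarith
  unfold Q at hu
  rw [Finset.mem_product] at hu
  rw [Metric.mem_closedBall, Prod.dist_eq, max_le_iff, Real.dist_eq, Real.dist_eq]
  exact ⟨key _ _ hu.1, key _ _ hu.2⟩

theorem cell_near {δ : ℝ} {u : Pt} {p : ℝ × ℝ} (hp : p ∈ cell δ u) :
    dist p (ctr δ u) ≤ δ / 2 := by
  obtain ⟨h1, h2, h3, h4⟩ := hp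
  rw [Prod.dist_eq, max_le_iff, Real.dist_eq, Real.dist_eq, abs_le, abs_le]
  unfold ctr
  refine ⟨⟨?_, ?_⟩, ?_, ?_⟩ <;> simp only <;> linarith

end MmUpSAux

open MmUpSAux in
theorem mmUpS (h1 : MonoC) (h2 : Transl) : MmUpS := by
  intro Ω hΩ hb hIn
  obtain ⟨g, z₀, a, C, δ₀, ⟨_, _, hts⟩, hg0, ha, hg1, hδ₀, hC⟩ := hIn
  obtain ⟨A₀, hA₀⟩ := hb.subset_closedBall (0 : ℝ × ℝ)
  set A : ℝ := max A₀ 1 with hAd
  have hA : Ω ⊆ Metric.closedBall 0 A :=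
    hA₀.trans (Metric.closedBall_subset_closedBall (le_max_left _ _))
  have hApos : 0 < A := lt_of_lt_of_le one_pos (le_max_right _ _)
  -- the ball is inside
  have hsub : Metric.closedBall z₀ a ⊆ Ω := by
    intro p hp
    refine hts (subset_tsupport _ ?_)
    have := hg1 p hp
    rw [Function.mem_support]
    linarith
  obtain ⟨η, hη, hηs⟩ := (isCompact_closedBall z₀ a).exists_thickening_subset_open hΩ hsub
  set δ₁ : ℝ := min δ₀ (min a η) with hδ₁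
  have hδ₁pos : 0 < δ₁ := lt_min hδ₀ (lt_min ha hη)
  have hC0 : 0 ≤ C := by
    have := hC (δ₀ / 2) (by linarith) (by linarith)
    refine le_trans ?_ this
    exact le_trans (sq_nonneg _) (lE_sq_le _ _)
  -- the main estimate
  have main : ∀ N : ℕ, 1 ≤ N → 2 * A / N < δ₁ →
      mm N ≤ Real.sqrt C * (a ^ 2)⁻¹ * (2 * A) ^ (1 / 8 : ℝ) * (N : ℝ) ^ (-(1 / 8) : ℝ) := by
    intro N hN hlt
    have hNpos : (0 : ℝ) < N := by exact_mod_cast hN
    set δ : ℝ := 2 * A / N with hδd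
    have hδ : 0 < δ := by positivity
    have hδN : 2 * A ≤ δ * N := by
      rw [hδd, div_mul_cancel₀ _ hNpos.ne']
    have hδ0 : δ < δ₀ := hlt.trans_le (min_le_left _ _)
    have hδa : δ ≤ a := (hlt.trans_le ((min_le_right _ _).trans (min_le_left _ _))).le
    have hδη : δ < η := hlt.trans_le ((min_le_right _ _).trans (min_le_right _ _))
    have hm0 := (mm_bounds h1 N).1
    have hQ : ∀ u ∈ Q δ a z₀, u ∈ faces Ω δ := by
      intro u hu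
      rw [mem_faces hδ hA]
      intro p hp
      refine hηs (Metric.mem_thickening_iff.2 ⟨ctr δ u, Q_ctr hδ hu, ?_⟩)
      have := cell_near hp
      linarith
    have hlin : lE (DD Ω δ) (fun w => sf Ω δ g w) =
        δ ^ (15 / 8 : ℝ) * ∑ u ∈ faces Ω δ, g (ctr δ u) * lE (DD Ω δ) (fun w => sgn w u) := by
      unfold sf
      exact lin _ _ _ _ _
    have hsum : ((Q δ a z₀).card : ℝ) * mm N ≤
        ∑ u ∈ faces Ω δ, g (ctr δ u) * lE (DD Ω δ) (fun w => sgn w u) := by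
      have hge : ∀ u ∈ faces Ω δ, mm N ≤ lE (DD Ω δ) (fun w => sgn w u) := fun u hu =>
        c1_ge h1 h2 hδ hA N hδN hu
      calc ((Q δ a z₀).card : ℝ) * mm N = ∑ _u ∈ Q δ a z₀, mm N := by
            rw [Finset.sum_const, nsmul_eq_mul]
        _ ≤ ∑ u ∈ Q δ a z₀, g (ctr δ u) * lE (DD Ω δ) (fun w => sgn w u) := by
            refine Finset.sum_le_sum fun u hu => ?_
            have e1 := hg1 _ (Q_ctr hδ hu)
            have e2 := hge u (hQ u hu)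
            calc mm N ≤ lE (DD Ω δ) (fun w => sgn w u) := e2
              _ = 1 * lE (DD Ω δ) (fun w => sgn w u) := (one_mul _).symm
              _ ≤ g (ctr δ u) * lE (DD Ω δ) (fun w => sgn w u) :=
                mul_le_mul_of_nonneg_right e1 (hm0.trans e2)
        _ ≤ _ := by
            refine Finset.sum_le_sum_of_subset_of_nonneg hQ fun u hu _ => ?_
            exact mul_nonneg (hg0 _) (hm0.trans (hge u hu))
    have hE : δ ^ (15 / 8 : ℝ) * ((a / δ) ^ 2 * mm N) ≤ lE (DD Ω δ) (fun w => sf Ω δ g w) := by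
      rw [hlin]
      refine mul_le_mul_of_nonneg_left ?_ (Real.rpow_nonneg hδ.le _)
      exact (mul_le_mul_of_nonneg_right (Q_card hδ hδa z₀) hm0).trans hsum
    have hsq : (δ ^ (15 / 8 : ℝ) * ((a / δ) ^ 2 * mm N)) ^ 2 ≤ C := by
      have e0 : 0 ≤ δ ^ (15 / 8 : ℝ) * ((a / δ) ^ 2 * mm N) :=
        mul_nonneg (Real.rpow_nonneg hδ.le _) (mul_nonneg (sq_nonneg _) hm0)
      calc (δ ^ (15 / 8 : ℝ) * ((a / δ) ^ 2 * mm N)) ^ 2
          ≤ (lE (DD Ω δ) (fun w => sf Ω δ g w)) ^ 2 := pow_le_pow_left₀ e0 hE 2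
        _ ≤ lE (DD Ω δ) (fun w => sf Ω δ g w ^ 2) := lE_sq_le _ _
        _ ≤ C := hC δ hδ hδ0
    have hle : δ ^ (15 / 8 : ℝ) * ((a / δ) ^ 2 * mm N) ≤ Real.sqrt C := Real.le_sqrt_of_sq_le hsq
    -- solve for mm N
    have hpow : δ ^ (15 / 8 : ℝ) * (a / δ) ^ 2 * δ ^ (1 / 8 : ℝ) = a ^ 2 := by
      have e1 : δ ^ (15 / 8 : ℝ) * δ ^ (1 / 8 : ℝ) = δ ^ 2 := by
        rw [← Real.rpow_add hδ, ← Real.rpow_natCast]
        norm_num
      calc δ ^ (15 / 8 : ℝ) * (a / δ) ^ 2 * δ ^ (1 / 8 : ℝ)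
          = (δ ^ (15 / 8 : ℝ) * δ ^ (1 / 8 : ℝ)) * (a / δ) ^ 2 := by ring
        _ = δ ^ 2 * (a / δ) ^ 2 := by rw [e1]
        _ = a ^ 2 := by field_simp
    have h3 : mm N ≤ Real.sqrt C * (a ^ 2)⁻¹ * δ ^ (1 / 8 : ℝ) := by
      have h4 : a ^ 2 * mm N ≤ Real.sqrt C * δ ^ (1 / 8 : ℝ) := by
        calc a ^ 2 * mm N = (δ ^ (15 / 8 : ℝ) * ((a / δ) ^ 2 * mm N)) * δ ^ (1 / 8 : ℝ) := by
              rw [← hpow]
              ring
          _ ≤ _ := mul_le_mul_of_nonneg_right hle (Real.rpow_nonneg hδ.le _)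
      have ha2 : 0 < a ^ 2 := by positivity
      calc mm N = (a ^ 2)⁻¹ * (a ^ 2 * mm N) := by field_simp
        _ ≤ (a ^ 2)⁻¹ * (Real.sqrt C * δ ^ (1 / 8 : ℝ)) :=
          mul_le_mul_of_nonneg_left h4 (by positivity)
        _ = _ := by ring
    have h5 : δ ^ (1 / 8 : ℝ) = (2 * A) ^ (1 / 8 : ℝ) * (N : ℝ) ^ (-(1 / 8) : ℝ) := by
      rw [hδd, Real.div_rpow (by positivity) hNpos.le, Real.rpow_neg hNpos.le, div_eq_mul_inv]
    rw [h5] at h3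
    calc mm N ≤ _ := h3
      _ = _ := by ring
  -- all N
  set N₀ : ℝ := 2 * A / δ₁ with hN₀
  have hN₀pos : 0 < N₀ := by positivity
  refine ⟨Real.sqrt C * (a ^ 2)⁻¹ * (2 * A) ^ (1 / 8 : ℝ) + N₀ ^ (1 / 8 : ℝ), ?_⟩
  intro N hN
  have hNpos : (0 : ℝ) < N := by exact_mod_cast hN
  have hr : 0 ≤ (N : ℝ) ^ (-(1 / 8) : ℝ) := Real.rpow_nonneg hNpos.le _
  rw [add_mul]
  by_cases hlt : 2 * A / N < δ₁
  · have := main N hN hlt
    have h0 : 0 ≤ N₀ ^ (1 / 8 : ℝ) * (N : ℝ) ^ (-(1 / 8) : ℝ) :=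
      mul_nonneg (Real.rpow_nonneg hN₀pos.le _) hr
    linarith
  · rw [not_lt, le_div_iff₀ hNpos] at hlt
    have hNN : (N : ℝ) ≤ N₀ := by
      rw [hN₀, le_div_iff₀ hδ₁pos]
      linarith
    have h3 : 1 ≤ N₀ ^ (1 / 8 : ℝ) * (N : ℝ) ^ (-(1 / 8) : ℝ) := by
      rw [Real.rpow_neg hNpos.le, ← div_eq_mul_inv, one_le_div (Real.rpow_pos_of_pos hNpos _)]
      exact Real.rpow_le_rpow hNpos.le hNN (by norm_num)
    have h4 := (mm_bounds h1 N).2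
    have h5 : 0 ≤ Real.sqrt C * (a ^ 2)⁻¹ * (2 * A) ^ (1 / 8 : ℝ) * (N : ℝ) ^ (-(1 / 8) : ℝ) := by
      positivity
    linarith

end Pool.Agent.Lib.MP_6d40c9_pr
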