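import Pool.Agent.Lib.MP_6d40c9_pr.SpecP

/-!
# Second and fourth moment of the spin field in a square
-/

set_option autoImplicit false

namespace Pool.Agent.Lib.MP_6d40c9_pr

open Finset MeasureTheory Filter Topology TopologicalSpace Metric
open scoped BigOperators symmDiff

private lemma momS_lE_sum {J : Type} (D : Finset Edge) (s : Finset J) (g : J → Finset Edge → ℝ) :
    lE D (fun w => ∑ i ∈ s, g i w) = ∑ i ∈ s, lE D (g i) := by
  unfold lE lpE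
  rw [← Finset.sum_div, Finset.sum_comm]
  congr 1
  apply Finset.sum_congr rfl
  intro η _
  split_ifs
  · rw [Finset.mul_sum]
  · simp

private lemma momS_lE_mul (D : Finset Edge) (a : ℝ) (g : Finset Edge → ℝ) :
    lE D (fun w => a * g w) = a * lE D g := by
  unfold lE lpE
  rw [← mul_div_assoc, Finset.mul_sum]
  congr 1
  apply Finset.sum_congr rfl
  intro η _
  split_ifs
  · ring
  · simp

private lemma momS_c2 (h1 : MonoC) (D : Finset Edge) (u v : Pt) : 0 ≤ c2 D u v := by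
  unfold c2
  by_cases h : u = v
  · subst h
    have h2 := (h1 D D ∅ ∅ (Finset.Subset.refl _)).1
    have e : (fun w => sgn w u * sgn w u) = sgs ∅ := by
      funext w
      unfold sgs sgn
      rw [Finset.prod_empty, ← mul_pow]
      norm_num
    rw [e]
    exact h2
  · have h2 := (h1 D D {u, v} ∅ (Finset.Subset.refl _)).1
    have e : (fun w => sgn w u * sgn w v) = sgs {u, v} := by
      funext w
      unfold sgs
      rw [Finset.prod_pair h]
    rw [e]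
    exact h2

private lemma momS_sq (h1 : MonoC) (D : Finset Edge) (F B : Finset Pt) (g : Pt → ℝ) (M : ℝ)
    (hM : 0 ≤ M) (hg : ∀ u, |g u| ≤ M) (hB : ∀ u ∈ F, u ∉ B → g u = 0) :
    lE D (fun w => (∑ u ∈ F, g u * sgn w u) ^ 2) ≤ M ^ 2 * ∑ u ∈ B, ∑ v ∈ B, c2 D u v := by
  have e : (fun w => (∑ u ∈ F, g u * sgn w u) ^ 2) =
      fun w => ∑ u ∈ F, ∑ v ∈ F, (g u * g v) * (sgn w u * sgn w v) := by
    funext w
    rw [pow_two, Finset.sum_mul_sum]
    apply Finset.sum_congr rfl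
    intro u _
    apply Finset.sum_congr rfl
    intro v _
    ring
  rw [e, momS_lE_sum]
  have e2 : ∀ u ∈ F, lE D (fun w => ∑ v ∈ F, (g u * g v) * (sgn w u * sgn w v)) =
      ∑ v ∈ F, (g u * g v) * c2 D u v := by
    intro u _
    rw [momS_lE_sum]
    apply Finset.sum_congr rfl
    intro v _
    rw [momS_lE_mul]
    rfl
  rw [Finset.sum_congr rfl e2]
  have e3 : ∑ u ∈ F, ∑ v ∈ F, (g u * g v) * c2 D u v ≤
      ∑ u ∈ F, ∑ v ∈ F, (if u ∈ B ∧ v ∈ B then M ^ 2 * c2 D u v else 0) := by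
    apply Finset.sum_le_sum
    intro u hu
    apply Finset.sum_le_sum
    intro v hv
    split_ifs with h
    · apply mul_le_mul_of_nonneg_right _ (momS_c2 h1 D u v)
      calc g u * g v ≤ |g u * g v| := le_abs_self _
        _ = |g u| * |g v| := abs_mul _ _
        _ ≤ M * M := mul_le_mul (hg u) (hg v) (abs_nonneg _) hM
        _ = M ^ 2 := by ring
    · have h0 : g u * g v = 0 := by
        by_cases h3 : u ∈ B
        · have h4 : v ∉ B := fun h2 => h ⟨h3, h2⟩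
          rw [hB v hv h4, mul_zero]
        · rw [hB u hu h3, zero_mul]
      rw [h0, zero_mul]
  refine e3.trans ?_
  rw [← Finset.sum_product' F F (fun u v => if u ∈ B ∧ v ∈ B then M ^ 2 * c2 D u v else 0),
    ← Finset.sum_filter, ← Finset.sum_product' B B (fun u v => c2 D u v), Finset.mul_sum]
  apply Finset.sum_le_sum_of_subset_of_nonneg
  · intro x hx
    rw [Finset.mem_filter] at hx
    exact Finset.mem_product.2 hx.2
  · intro x _ _
    exact mul_nonneg (sq_nonneg M) (momS_c2 h1 D x.1 x.2)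

private lemma momS_coord {r δ : ℝ} (hδ : 0 < δ) (hr : 16 * δ ≤ r) (b : ℤ) :
    (∀ u : ℤ, r * (b - 1 / 2) ≤ δ * (u + 1 / 2) → δ * (u + 1 / 2) < r * (b + 1 / 2) →
      ⌊r * b / δ⌋ - ((⌈r / (2 * δ)⌉₊ + 1 : ℕ) : ℤ) ≤ u ∧
        u ≤ ⌊r * b / δ⌋ + ((⌈r / (2 * δ)⌉₊ + 1 : ℕ) : ℤ)) ∧
    (∀ (u : ℤ) (x : ℝ),
      ⌊r * b / δ⌋ - (((⌈r / (2 * δ)⌉₊ + 1) + (⌈r / (2 * δ)⌉₊ + 1) : ℕ) : ℤ) ≤ u →
      u ≤ ⌊r * b / δ⌋ + (((⌈r / (2 * δ)⌉₊ + 1) + (⌈r / (2 * δ)⌉₊ + 1) : ℕ) : ℤ) →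
      δ * u ≤ x → x ≤ δ * (u + 1) → |x - r * b| ≤ 2 * r) := by
  have hr0 : 0 < r := by linarith
  have hX1 : (⌊r * b / δ⌋ : ℝ) ≤ r * b / δ := Int.floor_le _
  have hX2 : r * b / δ < (⌊r * b / δ⌋ : ℝ) + 1 := Int.lt_floor_add_one _
  have hn1 : r / (2 * δ) ≤ (⌈r / (2 * δ)⌉₊ : ℝ) := Nat.le_ceil _
  have hn2 : (⌈r / (2 * δ)⌉₊ : ℝ) < r / (2 * δ) + 1 := Nat.ceil_lt_add_one (by positivity)
  have e1 : δ * (r * b / δ) = r * b := by field_simp
  have e2 : δ * (r / (2 * δ)) = r / 2 := by field_simp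
  generalize hF : ⌊r * b / δ⌋ = z at *
  generalize hN : ⌈r / (2 * δ)⌉₊ = n at *
  have h1 : δ * z ≤ r * b := by
    rw [← e1]
    exact mul_le_mul_of_nonneg_left hX1 hδ.le
  have h2 : r * b < δ * (z + 1) := by
    rw [← e1]
    exact mul_lt_mul_of_pos_left hX2 hδ
  have h3 : r / 2 ≤ δ * n := by
    rw [← e2]
    exact mul_le_mul_of_nonneg_left hn1 hδ.le
  have h4 : δ * n < r / 2 + δ := by
    have := mul_lt_mul_of_pos_left hn2 hδ
    rw [mul_add, e2, mul_one] at this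
    exact this
  constructor
  · intro u hu1 hu2
    constructor
    · by_contra hcon
      push Not at hcon
      have hc : (u : ℝ) + 1 ≤ (z : ℝ) - ((n + 1 : ℕ) : ℤ) := by
        have : u + 1 ≤ z - ((n + 1 : ℕ) : ℤ) := hcon
        exact_mod_cast this
      push_cast at hc
      have hc2 := mul_le_mul_of_nonneg_left hc hδ.le
      nlinarith
    · by_contra hcon
      push Not at hcon
      have hc : (z : ℝ) + ((n + 1 : ℕ) : ℤ) + 1 ≤ u := by
        have : z + ((n + 1 : ℕ) : ℤ) + 1 ≤ u := hcon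
        exact_mod_cast this
      push_cast at hc
      have hc2 := mul_le_mul_of_nonneg_left hc hδ.le
      nlinarith
  · intro u x hu1 hu2 hx1 hx2
    have hc1 : (z : ℝ) - (((n + 1) + (n + 1) : ℕ) : ℤ) ≤ u := by exact_mod_cast hu1
    have hc2 : (u : ℝ) ≤ (z : ℝ) + (((n + 1) + (n + 1) : ℕ) : ℤ) := by exact_mod_cast hu2
    push_cast at hc1 hc2
    have hc3 := mul_le_mul_of_nonneg_left hc1 hδ.le
    have hc4 := mul_le_mul_of_nonneg_left hc2 hδ.le
    rw [abs_le]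
    constructor
    · nlinarith
    · nlinarith

private lemma momS_mem_box (p z : Pt) (m : ℕ) :
    p ∈ box z m ↔ (z.1 - m ≤ p.1 ∧ p.1 ≤ z.1 + m) ∧ (z.2 - m ≤ p.2 ∧ p.2 ≤ z.2 + m) := by
  unfold box
  rw [Finset.mem_product, Finset.mem_Icc, Finset.mem_Icc]

theorem momS (h1 : MonoC) (h2 : TwoPtS) (h3 : Fourth) (h4 : FacesSimp) : MomS := by
  intro hmm
  obtain ⟨C, hC⟩ := h2 hmm
  have hC0 : 0 ≤ max C 0 := le_max_right _ _
  refine ⟨max C 0 + 3 * (max C 0) ^ 2, by positivity, ?_⟩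
  intro p δ f M b hp hconn hδ hδr hball hf
  have hM : 0 ≤ M := (abs_nonneg _).trans (hf 0)
  have hr : 0 < p.r := hp.hr
  have hbd : Bornology.IsBounded p.Ω := isBounded_closedBall.subset hp.hΩ
  obtain ⟨hsimp, hmem⟩ := h4 p.Ω δ hbd hconn hδ
  set z : Pt := ref δ (cen p.r b) with hz
  set n : ℕ := ⌈p.r / (2 * δ)⌉₊ + 1 with hn
  have hz1 : z.1 = ⌊p.r * b.1 / δ⌋ := rfl
  have hz2 : z.2 = ⌊p.r * b.2 / δ⌋ := rfl
  obtain ⟨c1a, c1b⟩ := momS_coord hδ hδr b.1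
  obtain ⟨c2a, c2b⟩ := momS_coord hδ hδr b.2
  -- faces with centre in the square
  have hin : ∀ u : Pt, ctr δ u ∈ sq p.r b → u ∈ box z n := by
    rintro u ⟨q1, q2, q3, q4⟩
    rw [momS_mem_box, hz1, hz2]
    exact ⟨c1a u.1 q1 q2, c2a u.2 q3 q4⟩
  have hbox : box z (n + n) ⊆ faces p.Ω δ := by
    intro u hu
    rw [momS_mem_box, hz1, hz2] at hu
    rw [hmem]
    rintro x ⟨x1, x2, x3, x4⟩
    apply hball
    rw [mem_closedBall, Prod.dist_eq, max_le_iff, Real.dist_eq, Real.dist_eq]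
    exact ⟨c1b u.1 x.1 hu.1.1 hu.1.2 x1 x2, c2b u.2 x.2 hu.2.1 hu.2.2 x3 x4⟩
  have hLF : LF (box z (n + n)) ⊆ DD p.Ω δ := by
    unfold DD LF
    exact Finset.biUnion_subset_biUnion_of_subset_left _ hbox
  have hn1 : 1 ≤ n := by omega
  have htwo := hC n n z (DD p.Ω δ) hn1 (by omega) hLF
  have hδn : δ * n ≤ p.r := by
    have e2 : δ * (p.r / (2 * δ)) = p.r / 2 := by field_simp
    have e3 : (⌈p.r / (2 * δ)⌉₊ : ℝ) < p.r / (2 * δ) + 1 := Nat.ceil_lt_add_one (by positivity)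
    have e4 := mul_lt_mul_of_pos_left e3 hδ
    rw [mul_add, e2, mul_one] at e4
    rw [hn]
    push_cast
    nlinarith
  have hn0 : (0 : ℝ) < n := by exact_mod_cast hn1
  -- the general second moment
  have hgen : ∀ g : Pt → ℝ, (∀ u, |g u| ≤ M) → (∀ u ∈ faces p.Ω δ, u ∉ box z n → g u = 0) →
      lE (DD p.Ω δ) (fun w => (∑ u ∈ faces p.Ω δ, g u * sgn w u) ^ 2) ≤
        M ^ 2 * (max C 0 * (n : ℝ) ^ (15 / 4 : ℝ)) := by
    intro g hg hg0
    refine (momS_sq h1 (DD p.Ω δ) (faces p.Ω δ) (box z n) g M hM hg hg0).trans ?_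
    apply mul_le_mul_of_nonneg_left _ (sq_nonneg M)
    refine htwo.trans ?_
    apply mul_le_mul_of_nonneg_right (le_max_left _ _)
    positivity
  classical
  set g : Pt → ℝ := fun u => if ctr δ u ∈ sq p.r b then f (ctr δ u) else 0 with hg
  have hgM : ∀ u, |g u| ≤ M := by
    intro u
    simp only [hg]
    split_ifs
    · exact hf _
    · rw [abs_zero]
      exact hM
  have hg0 : ∀ u ∈ faces p.Ω δ, u ∉ box z n → g u = 0 := by
    intro u _ hu
    simp only [hg]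
    rw [if_neg (fun h => hu (hin u h))]
  have haV : ∀ w, aV p δ f b w = δ ^ (15 / 8 : ℝ) * ∑ u ∈ faces p.Ω δ, g u * sgn w u := by
    intro w
    unfold aV
    congr 1
    rw [Finset.sum_filter]
    apply Finset.sum_congr (by rfl)
    intro u _
    simp only [hg]
    by_cases h : ctr δ u ∈ sq p.r b
    · rw [if_pos h, if_pos h]
    · rw [if_neg h, if_neg h, zero_mul]
  have hpow2 : (δ ^ (15 / 8 : ℝ)) ^ 2 = δ ^ (15 / 4 : ℝ) := by
    rw [← Real.rpow_natCast, ← Real.rpow_mul hδ.le]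
    norm_num
  have hpow4 : (δ ^ (15 / 8 : ℝ)) ^ 4 = δ ^ (15 / 2 : ℝ) := by
    rw [← Real.rpow_natCast, ← Real.rpow_mul hδ.le]
    norm_num
  have hmul4 : δ ^ (15 / 4 : ℝ) * (n : ℝ) ^ (15 / 4 : ℝ) ≤ p.r ^ (15 / 4 : ℝ) := by
    rw [← Real.mul_rpow hδ.le hn0.le]
    exact Real.rpow_le_rpow (by positivity) hδn (by norm_num)
  have hmul2 : δ ^ (15 / 2 : ℝ) * ((n : ℝ) ^ (15 / 4 : ℝ)) ^ 2 ≤ p.r ^ (15 / 2 : ℝ) := by
    have e1 : ((n : ℝ) ^ (15 / 4 : ℝ)) ^ 2 = (n : ℝ) ^ (15 / 2 : ℝ) := by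
      rw [← Real.rpow_natCast, ← Real.rpow_mul hn0.le]
      norm_num
    rw [e1, ← Real.mul_rpow hδ.le hn0.le]
    exact Real.rpow_le_rpow (by positivity) hδn (by norm_num)
  have hr4 : 0 ≤ p.r ^ (15 / 4 : ℝ) := by positivity
  have hr2 : 0 ≤ p.r ^ (15 / 2 : ℝ) := by positivity
  constructor
  · have e1 : (fun w => aV p δ f b w ^ 2) =
        fun w => δ ^ (15 / 4 : ℝ) * (∑ u ∈ faces p.Ω δ, g u * sgn w u) ^ 2 := by
      funext w
      rw [haV, mul_pow, hpow2]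
    rw [e1, momS_lE_mul]
    have e2 := mul_le_mul_of_nonneg_left (hgen g hgM hg0) (by positivity : 0 ≤ δ ^ (15 / 4 : ℝ))
    refine e2.trans ?_
    have e3 : δ ^ (15 / 4 : ℝ) * (M ^ 2 * (max C 0 * (n : ℝ) ^ (15 / 4 : ℝ))) =
        max C 0 * M ^ 2 * (δ ^ (15 / 4 : ℝ) * (n : ℝ) ^ (15 / 4 : ℝ)) := by ring
    rw [e3]
    have e4 : max C 0 * M ^ 2 * (δ ^ (15 / 4 : ℝ) * (n : ℝ) ^ (15 / 4 : ℝ)) ≤
        max C 0 * M ^ 2 * p.r ^ (15 / 4 : ℝ) :=
      mul_le_mul_of_nonneg_left hmul4 (by positivity)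
    refine e4.trans ?_
    have e5 : 0 ≤ 3 * (max C 0) ^ 2 * M ^ 2 * p.r ^ (15 / 4 : ℝ) := by positivity
    nlinarith
  · have e1 : (fun w => aV p δ f b w ^ 4) =
        fun w => δ ^ (15 / 2 : ℝ) * (∑ u ∈ faces p.Ω δ, g u * sgn w u) ^ 4 := by
      funext w
      rw [haV, mul_pow, hpow4]
    rw [e1, momS_lE_mul]
    have hF := h3 (faces p.Ω δ) hsimp g
    have hS := hgen (fun u => |g u|) (fun u => by rw [abs_abs]; exact hgM u)
      (fun u hu hu' => by rw [hg0 u hu hu', abs_zero])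
    have hS0 : 0 ≤ lE (DD p.Ω δ) (fun w => (∑ u ∈ faces p.Ω δ, |g u| * sgn w u) ^ 2) := by
      have e : (fun w => (∑ u ∈ faces p.Ω δ, |g u| * sgn w u) ^ 2) =
          fun w => ∑ u ∈ faces p.Ω δ, ∑ v ∈ faces p.Ω δ,
            (|g u| * |g v|) * (sgn w u * sgn w v) := by
        funext w
        rw [pow_two, Finset.sum_mul_sum]
        apply Finset.sum_congr rfl
        intro u _
        apply Finset.sum_congr rfl
        intro v _
        ring
      rw [e, momS_lE_sum]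
      apply Finset.sum_nonneg
      intro u _
      rw [momS_lE_sum]
      apply Finset.sum_nonneg
      intro v _
      rw [momS_lE_mul]
      exact mul_nonneg (by positivity) (momS_c2 h1 (DD p.Ω δ) u v)
    have hS2 := pow_le_pow_left₀ hS0 hS 2
    have hF2 : lE (DD p.Ω δ) (fun w => (∑ u ∈ faces p.Ω δ, g u * sgn w u) ^ 4) ≤
        3 * (M ^ 2 * (max C 0 * (n : ℝ) ^ (15 / 4 : ℝ))) ^ 2 := by
      refine hF.trans ?_
      exact mul_le_mul_of_nonneg_left hS2 (by norm_num)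
    have e2 := mul_le_mul_of_nonneg_left hF2 (by positivity : 0 ≤ δ ^ (15 / 2 : ℝ))
    refine e2.trans ?_
    have e3 : δ ^ (15 / 2 : ℝ) * (3 * (M ^ 2 * (max C 0 * (n : ℝ) ^ (15 / 4 : ℝ))) ^ 2) =
        3 * (max C 0) ^ 2 * M ^ 4 * (δ ^ (15 / 2 : ℝ) * ((n : ℝ) ^ (15 / 4 : ℝ)) ^ 2) := by ring
    rw [e3]
    have e4 : 3 * (max C 0) ^ 2 * M ^ 4 * (δ ^ (15 / 2 : ℝ) * ((n : ℝ) ^ (15 / 4 : ℝ)) ^ 2) ≤
        3 * (max C 0) ^ 2 * M ^ 4 * p.r ^ (15 / 2 : ℝ) :=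
      mul_le_mul_of_nonneg_left hmul2 (by positivity)
    refine e4.trans ?_
    have e5 : 0 ≤ max C 0 * M ^ 4 * p.r ^ (15 / 2 : ℝ) := by positivity
    nlinarith

end Pool.Agent.Lib.MP_6d40c9_pr
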