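import Pool.Agent.Lib.MP_6d40c9_pr.SpecG

/-!
# MonoC: Griffiths inequalities for the spins of the loop model
-/

set_option autoImplicit false

namespace Pool.Agent.Lib.MP_6d40c9_pr

open Finset
open scoped BigOperators symmDiff

private lemma monoC_sum_symmDiff {E M : Type*} [DecidableEq E] [AddCommMonoid M] (φ : E → M)
    (η γ : Finset E) (h : ∀ e ∈ η ∩ γ, φ e + φ e = 0) :
    ∑ e ∈ η ∆ γ, φ e = ∑ e ∈ η, φ e + ∑ e ∈ γ, φ e := by
  have h0 : ∑ e ∈ η ∩ γ, φ e + ∑ e ∈ η ∩ γ, φ e = 0 := by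
    rw [← Finset.sum_add_distrib]
    exact Finset.sum_eq_zero h
  have h1 : ∑ e ∈ η, φ e = ∑ e ∈ η \ γ, φ e + ∑ e ∈ η ∩ γ, φ e := by
    rw [add_comm]
    exact (Finset.sum_inter_add_sum_sdiff η γ φ).symm
  have h2 : ∑ e ∈ γ, φ e = ∑ e ∈ γ \ η, φ e + ∑ e ∈ η ∩ γ, φ e := by
    rw [add_comm, Finset.inter_comm η γ]
    exact (Finset.sum_inter_add_sum_sdiff γ η φ).symm
  have h3 : ∑ e ∈ η ∆ γ, φ e = ∑ e ∈ η \ γ, φ e + ∑ e ∈ γ \ η, φ e := by
    rw [symmDiff_def, Finset.sup_eq_union, Finset.sum_union disjoint_sdiff_sdiff]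
  rw [h1, h2, h3]
  have h4 : ∑ e ∈ η \ γ, φ e + ∑ e ∈ η ∩ γ, φ e + (∑ e ∈ γ \ η, φ e + ∑ e ∈ η ∩ γ, φ e) =
      ∑ e ∈ η \ γ, φ e + ∑ e ∈ γ \ η, φ e + (∑ e ∈ η ∩ γ, φ e + ∑ e ∈ η ∩ γ, φ e) := by
    exact add_add_add_comm _ _ _ _
  rw [h4, h0, add_zero]

private lemma monoC_two (g : Pt → ZMod 2) : g + g = 0 := by
  funext v
  exact CharTwo.add_self_eq_zero (g v)

private lemma monoC_pts (U U' : Finset Pt) : pts U + pts U' = pts (U ∆ U') :=
  (monoC_sum_symmDiff pt U U' (fun _ _ => monoC_two _)).symm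

/-- A box containing a given finite set of points. -/
private lemma monoC_box (S : Finset Pt) : ∃ n : ℕ, S ⊆ box 0 n := by
  refine ⟨S.sup (fun p => max p.1.natAbs p.2.natAbs), ?_⟩
  intro p hp
  have h1 : max p.1.natAbs p.2.natAbs ≤ S.sup (fun p => max p.1.natAbs p.2.natAbs) :=
    Finset.le_sup (f := fun p : Pt => max p.1.natAbs p.2.natAbs) hp
  have h2 := (le_max_left p.1.natAbs p.2.natAbs).trans h1
  have h3 := (le_max_right p.1.natAbs p.2.natAbs).trans h1
  unfold box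
  rw [Finset.mem_product, Finset.mem_Icc, Finset.mem_Icc]
  simp only [Prod.fst_zero, Prod.snd_zero]
  omega

private lemma monoC_LF (F : Finset Pt) (e : Edge) (he : e.1 ∈ F) : e ∈ LF F := by
  unfold LF
  rw [Finset.mem_biUnion]
  refine ⟨e.1, he, ?_⟩
  obtain ⟨v, b⟩ := e
  cases b <;> simp

private lemma monoC_zp_nonneg {E G : Type} [AddCommGroup G] (bd : E → G) (D : Finset E)
    (x : E → ℝ) (hx : ∀ e ∈ D, 0 ≤ x e) (f : G) : 0 ≤ Zp bd D x f := by
  unfold Zp
  refine Finset.sum_nonneg fun η hη => ?_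
  split_ifs
  · exact Finset.prod_nonneg fun e he => hx e (Finset.mem_powerset.1 hη he)
  · exact le_rfl

private lemma monoC_zp_pos {E G : Type} [AddCommGroup G] (bd : E → G) (D : Finset E)
    (x : E → ℝ) (hx : ∀ e ∈ D, 0 ≤ x e) : 0 < Zp bd D x 0 := by
  classical
  unfold Zp
  have h1 : (∅ : Finset E) ∈ D.powerset := Finset.empty_mem_powerset D
  have h2 : (if bdy bd (∅ : Finset E) = 0 then ∏ e ∈ (∅ : Finset E), x e else 0) = 1 := by
    rw [if_pos]
    · simp
    · simp [bdy]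
  refine Finset.sum_pos' ?_ ⟨∅, h1, ?_⟩
  · intro η hη
    split_ifs
    · exact Finset.prod_nonneg fun e he => hx e (Finset.mem_powerset.1 hη he)
    · exact le_rfl
  · rw [if_pos]
    · simp
    · simp [bdy]

private lemma monoC_xc : 0 ≤ xc ∧ xc ≤ 1 := by
  unfold xc
  have h1 : (1 : ℝ) ≤ Real.sqrt 2 := by
    rw [Real.one_le_sqrt]; norm_num
  have h2 : Real.sqrt 2 ≤ 2 := by
    rw [Real.sqrt_le_left (by norm_num)]; norm_num
  constructor <;> linarith

theorem monoC (h1 : BoxSimp) (h2 : Dual) (h3 : Gks) (h4 : CorrMono) : MonoC := by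
  intro D D' U U' hDD
  obtain ⟨n, hn⟩ := monoC_box (D.image (fun e => e.1) ∪ U ∪ U')
  set F := box 0 n with hF
  have hSimp : Simp F := h1.1 0 n
  have hU : U ⊆ F := fun u hu => hn (by simp [hu])
  have hU' : U' ⊆ F := fun u hu => hn (by simp [hu])
  have hD : D ⊆ LF F := by
    intro e he
    apply monoC_LF
    apply hn
    simp only [Finset.mem_union, Finset.mem_image]
    exact Or.inl (Or.inl ⟨e, he, rfl⟩)
  have hD' : D' ⊆ LF F := hDD.trans hD
  -- weights
  set y : Finset Edge → Edge → ℝ := fun B e => if e ∈ LF F \ B then 1 else xc with hy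
  have hy0 : ∀ B e, 0 ≤ y B e := by
    intro B e
    simp only [hy]
    split_ifs
    · norm_num
    · exact monoC_xc.1
  have hy1 : ∀ B e, y B e ≤ 1 := by
    intro B e
    simp only [hy]
    split_ifs
    · exact le_rfl
    · exact monoC_xc.2
  have hmono : ∀ e, y D e ≤ y D' e := by
    intro e
    simp only [hy]
    by_cases h : e ∈ LF F \ D
    · have h' : e ∈ LF F \ D' := by
        rw [Finset.mem_sdiff] at h ⊢
        exact ⟨h.1, fun hh => h.2 (hDD hh)⟩
      rw [if_pos h, if_pos h']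
    · rw [if_neg h]
      split_ifs
      · exact monoC_xc.2
      · exact le_rfl
  have key : ∀ B ⊆ LF F, ∀ R ⊆ F, lE B (sgs R) =
      Zp (bdFc F) (LF F) (y B) (pts R) / Zp (bdFc F) (LF F) (y B) 0 := by
    intro B hB R hR
    have := h2 F hSimp (LF F \ B) Finset.sdiff_subset R hR
    rw [Finset.sdiff_sdiff_eq_self hB] at this
    exact this
  have hpos : ∀ B, 0 < Zp (bdFc F) (LF F) (y B) 0 := fun B =>
    monoC_zp_pos (bdFc F) (LF F) (y B) (fun e _ => hy0 B e)
  have hnn : ∀ B f, 0 ≤ Zp (bdFc F) (LF F) (y B) f := fun B f =>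
    monoC_zp_nonneg (bdFc F) (LF F) (y B) (fun e _ => hy0 B e) f
  refine ⟨?_, ?_, ?_, ?_⟩
  · rw [key D hD U hU]
    exact div_nonneg (hnn _ _) (hnn _ _)
  · rw [key D hD U hU, key D' hD' U hU, div_le_div_iff₀ (hpos D) (hpos D')]
    exact h4.1 Edge (Pt → ZMod 2) monoC_two (bdFc F) (LF F) (y D) (y D')
      (fun e _ => hy0 D e) (fun e _ => hmono e) (fun e _ => hy1 D' e) (pts U)
  · rw [key D hD U hU, div_le_one (hpos D)]
    have h5 := h3 Edge (Pt → ZMod 2) monoC_two (bdFc F) (LF F) (y D)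
      (fun e _ => hy0 D e) (fun e _ => hy1 D e) (pts U) (pts U)
    rw [monoC_two] at h5
    have h6 := hnn D (pts U)
    have h7 := hnn D 0
    exact le_of_not_gt fun h8 => by nlinarith [mul_lt_mul'' h8 h8 h7 h7]
  · have hUU : U ∆ U' ⊆ F := by
      intro u hu
      rcases Finset.mem_symmDiff.1 hu with h | h
      · exact hU h.1
      · exact hU' h.1
    rw [key D hD U hU, key D hD U' hU', key D hD _ hUU, ← monoC_pts]
    have h5 := h3 Edge (Pt → ZMod 2) monoC_two (bdFc F) (LF F) (y D)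
      (fun e _ => hy0 D e) (fun e _ => hy1 D e) (pts U) (pts U')
    rw [div_mul_div_comm, div_le_div_iff₀ (mul_pos (hpos D) (hpos D)) (hpos D)]
    have h6 := mul_le_mul_of_nonneg_right h5 (hpos D).le
    linarith

end Pool.Agent.Lib.MP_6d40c9_pr
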