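import Pool.Agent.Lib.MP_6d40c9_pr.SpecM

/-!
# A wall crossing an annulus is unlikely
-/

set_option autoImplicit false

namespace Pool.Agent.Lib.MP_6d40c9_pr

open Finset
open scoped BigOperators symmDiff

private lemma noCross_xc : 0 ≤ xc ∧ xc ≤ 1 := by
  unfold xc
  have h1 := Real.sq_sqrt (show (0 : ℝ) ≤ 2 by norm_num)
  have h2 := Real.sqrt_nonneg 2
  constructor <;> nlinarith

private lemma noCross_two (g : Pt → ZMod 2) : g + g = 0 := by
  funext v
  exact CharTwo.add_self_eq_zero (g v)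

private lemma noCross_mem_box {z u : Pt} {n : ℕ} :
    u ∈ box z n ↔ (z.1 - n ≤ u.1 ∧ u.1 ≤ z.1 + n) ∧ (z.2 - n ≤ u.2 ∧ u.2 ≤ z.2 + n) := by
  unfold box
  rw [Finset.mem_product, Finset.mem_Icc, Finset.mem_Icc]

private lemma noCross_reach_mono {ω ω' : Finset Edge} (h : ω ⊆ ω') {a b : Pt}
    (hr : Reach ω a b) : Reach ω' a b := by
  unfold Reach at hr ⊢
  refine Relation.ReflTransGen.mono ?_ a b hr
  rintro a b ⟨e, he, h'⟩
  exact ⟨e, h he, h'⟩

private lemma noCross_arm_mono {Λ Λ' : Finset Pt} {ω ω' : Finset Edge} (h : ω ⊆ ω')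
    (hr : Arm Λ Λ' ω) : Arm Λ Λ' ω' := by
  obtain ⟨a, ha, b, hb, hab⟩ := hr
  exact ⟨a, ha, b, hb, noCross_reach_mono h hab⟩

private lemma noCross_src_mem {Λ : Finset Pt} {e : Edge} (h : src e ∈ Λ) : e ∈ EV Λ := by
  unfold EV
  rw [Finset.mem_biUnion]
  refine ⟨src e, h, ?_⟩
  obtain ⟨v, b⟩ := e
  cases b <;> simp [src]

private lemma noCross_tgt_mem {Λ : Finset Pt} {e : Edge} (h : tgt e ∈ Λ) : e ∈ EV Λ := by
  unfold EV
  rw [Finset.mem_biUnion]
  refine ⟨tgt e, h, ?_⟩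
  obtain ⟨⟨v1, v2⟩, b⟩ := e
  cases b <;> simp [tgt]

private lemma noCross_cut {Λ : Finset Pt} {ω : Finset Edge} {a b : Pt} (hb : b ∉ Λ)
    (hr : Reach ω a b) : a ∈ Λ → ∃ c, c ∉ Λ ∧ Reach (ω ∩ EV Λ) a c := by
  unfold Reach at hr
  induction hr using Relation.ReflTransGen.head_induction_on with
  | refl => exact fun h => absurd h hb
  | @head a a' h _ ih =>
    intro ha
    obtain ⟨e, he, h'⟩ := h
    have heΛ : e ∈ EV Λ := by
      rcases h' with h' | h'
      · exact noCross_src_mem (h'.1 ▸ ha)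
      · exact noCross_tgt_mem (h'.2 ▸ ha)
    by_cases ha' : a' ∈ Λ
    · obtain ⟨c, hc, hc'⟩ := ih ha'
      exact ⟨c, hc, Relation.ReflTransGen.head ⟨e, Finset.mem_inter.2 ⟨he, heΛ⟩, h'⟩ hc'⟩
    · exact ⟨a', ha', Relation.ReflTransGen.single ⟨e, Finset.mem_inter.2 ⟨he, heΛ⟩, h'⟩⟩

private lemma noCross_arm_cut {Λ Λ' : Finset Pt} (hΛ : Λ ⊆ Λ') {ω : Finset Edge}
    (h : Arm Λ Λ' ω) : Arm Λ Λ' (ω ∩ EV Λ') := by
  obtain ⟨a, ha, b, hb, hab⟩ := h
  obtain ⟨c, hc, hc'⟩ := noCross_cut hb hab (hΛ ha)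
  exact ⟨a, ha, c, hc, hc'⟩

open Classical in
private lemma noCross_congr {G : Type} [AddCommGroup G] (bd : Edge → G) (D : Finset Edge)
    (x : Edge → ℝ) {P Q : Finset Edge → Prop} (h : ∀ ω ⊆ D, (P ω ↔ Q ω)) :
    fkP bd D x P = fkP bd D x Q := by
  unfold fkP fkE
  congr 1
  refine Finset.sum_congr rfl fun ω hω => ?_
  have e : P ω = Q ω := propext (h ω (Finset.mem_powerset.1 hω))
  simp only [e]

open Classical in
theorem noCross (h1 : Coupling) (h2 : ProdDom) (h3 : StochDom) (h4 : Idents) (h5 : CompFacts) :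
    NoCross := by
  intro D z n N hnN
  obtain ⟨-, -, -, -, hconn⟩ := h5
  obtain ⟨hx0, hx1⟩ := noCross_xc
  have hbox : box z (n + 1) ⊆ box z (N - 1) := by
    intro u hu
    rw [noCross_mem_box] at hu ⊢
    push_cast at hu
    have : ((N - 1 : ℕ) : ℤ) = (N : ℤ) - 1 := by omega
    rw [this]
    omega
  obtain ⟨Λ, hΛ⟩ : ∃ Λ, Λ = box z (N - 1) := ⟨_, rfl⟩
  -- the loop event implies an arm
  have step1 : lP D (fun w => ∃ a ∈ w, ∃ b ∈ w, a ∈ LF (box z n) ∧ b ∉ LF (box z N) ∧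
      connE w a b) ≤ fkP bdV D (fun _ => xc) (Arm (box z (n + 1)) Λ) := by
    obtain ⟨-, hj1, hj2, -, -, -, hj7⟩ := h1 Edge (Pt → ZMod 2) noCross_two bdV D (fun _ => xc)
      (fun _ _ => hx0) (fun _ _ => hx1)
    unfold lP
    rw [← hj1, ← hj2]
    refine hj7 _ _ ?_
    rintro W ω hWω - - ⟨a, ha, b, hb, haF, hbF, hab⟩
    refine noCross_arm_mono hWω ⟨src a, ?_, src b, ?_, hconn W a b ha hb hab⟩
    · unfold LF at haF
      rw [Finset.mem_biUnion] at haF
      obtain ⟨u, hu, hau⟩ := haF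
      rw [noCross_mem_box] at hu ⊢
      simp only [Finset.mem_insert, Finset.mem_singleton] at hau
      push_cast
      rcases hau with h | h | h | h <;> subst h <;> simp only [src] <;> omega
    · intro hsb
      apply hbF
      unfold LF
      rw [Finset.mem_biUnion]
      refine ⟨src b, ?_, ?_⟩
      · rw [hΛ, noCross_mem_box] at hsb
        rw [noCross_mem_box]
        have : ((N - 1 : ℕ) : ℤ) = (N : ℤ) - 1 := by omega
        rw [this] at hsb
        omega
      · obtain ⟨v, c⟩ := b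
        cases c <;> simp [src]
  refine step1.trans ?_
  -- split the edges
  have hD : D \ EV Λ ∪ D ∩ EV Λ = D := by
    ext e
    simp only [Finset.mem_union, Finset.mem_sdiff, Finset.mem_inter]
    tauto
  have hdis : Disjoint (D \ EV Λ) (D ∩ EV Λ) := by
    rw [Finset.disjoint_left]
    intro e he he'
    exact (Finset.mem_sdiff.1 he).2 (Finset.mem_inter.1 he').2
  have hker : ∀ η₁ ⊆ D \ EV Λ, ∀ η₂ ⊆ D ∩ EV Λ, bdy bdV (η₁ ∪ η₂) = 0 → bdy (bdR Λ) η₂ = 0 := by
    intro η₁ hη₁ η₂ hη₂ h0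
    funext v
    unfold bdy
    rw [Finset.sum_apply]
    by_cases hv : v ∈ Λ
    · have h6 := congrFun h0 v
      unfold bdy at h6
      rw [Finset.sum_apply, Finset.sum_union (Finset.disjoint_of_subset_left hη₁
        (Finset.disjoint_of_subset_right hη₂ hdis))] at h6
      have h7 : ∑ e ∈ η₁, bdV e v = 0 := by
        refine Finset.sum_eq_zero fun e he => ?_
        have he' := (Finset.mem_sdiff.1 (hη₁ he)).2
        have hs : v ≠ src e := fun h => he' (noCross_src_mem (h ▸ hv))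
        have ht : v ≠ tgt e := fun h => he' (noCross_tgt_mem (h ▸ hv))
        unfold bdV
        rw [Pi.add_apply, Pi.single_eq_of_ne hs, Pi.single_eq_of_ne ht, add_zero]
      rw [h7, zero_add] at h6
      rw [← h6]
      refine Finset.sum_congr rfl fun e _ => ?_
      unfold bdR
      rw [if_pos hv]
    · refine Finset.sum_eq_zero fun e _ => ?_
      unfold bdR
      rw [if_neg hv]
  have hprod := h2 Edge (Pt → ZMod 2) (Pt → ZMod 2) noCross_two noCross_two bdV (bdR Λ)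
    (D \ EV Λ) (D ∩ EV Λ) (fun _ => xc) hdis (fun _ _ => hx0) (fun _ _ => hx1) hker
    (fun _ => True) (fun ω => Arm (box z (n + 1)) Λ (ω ∩ (D ∩ EV Λ))) (fun _ => Iff.rfl)
    (by
      intro ω
      simp only
      rw [Finset.inter_assoc, Finset.inter_self])
    (by
      intro ω ω' hω _ hP
      exact noCross_arm_mono (Finset.inter_subset_inter_right hω) hP)
  rw [hD] at hprod
  have hone : fkP bdV D (fun _ => xc) (fun _ => True) = 1 := by
    obtain ⟨hc1, -, -, -, -, hc6, -⟩ := h1 Edge (Pt → ZMod 2) noCross_two bdV D (fun _ => xc)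
      (fun _ _ => hx0) (fun _ _ => hx1)
    unfold fkP fkE
    simp only [if_true, mul_one]
    rw [hc1]
    exact div_self (by linarith [hc6.1])
  rw [hone, one_mul] at hprod
  have e1 : fkP bdV D (fun _ => xc) (Arm (box z (n + 1)) Λ) =
      fkP bdV D (fun _ => xc) (fun ω => True ∧ Arm (box z (n + 1)) Λ (ω ∩ (D ∩ EV Λ))) := by
    refine noCross_congr _ _ _ fun ω hω => ?_
    have hω' : ω ∩ (D ∩ EV Λ) = ω ∩ EV Λ := by
      rw [← Finset.inter_assoc, Finset.inter_eq_left.2 hω]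
    rw [hω']
    constructor
    · intro h
      exact ⟨trivial, noCross_arm_cut (by rw [hΛ]; exact hbox) h⟩
    · rintro ⟨-, h⟩
      exact noCross_arm_mono Finset.inter_subset_left h
  rw [e1]
  refine hprod.trans ?_
  have e2 : fkP (bdR Λ) (D ∩ EV Λ) (fun _ => xc)
      (fun ω => Arm (box z (n + 1)) Λ (ω ∩ (D ∩ EV Λ))) =
      fkP (bdR Λ) (D ∩ EV Λ) (fun _ => xc) (Arm (box z (n + 1)) Λ) := by
    refine noCross_congr _ _ _ fun ω hω => ?_
    rw [Finset.inter_eq_left.2 hω]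
  rw [e2]
  have hst := h3 Edge (Pt → ZMod 2) (Pt → ZMod 2) noCross_two noCross_two (bdR Λ) (bdR Λ)
    (D ∩ EV Λ) (EV Λ) (fun _ => xc) (xblk z (n + 1)) Finset.inter_subset_right
    (fun _ _ => hx0) (fun e _ => by
      unfold xblk
      split_ifs
      · exact hx1
      · exact le_rfl) (fun e _ => by
      unfold xblk
      split_ifs
      · exact zero_le_one
      · exact hx0) (fun e _ => by
      unfold xblk
      split_ifs
      · exact le_rfl
      · exact hx1) (fun _ _ h => h) (Arm (box z (n + 1)) Λ)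
    (fun ω ω' hω _ hP => noCross_arm_mono hω hP)
  refine hst.trans ?_
  have h6 := h4.2.1 z (n + 1) (N - 1) (by omega)
  unfold fkB at h6
  rw [← hΛ] at h6
  exact h6.le

end Pool.Agent.Lib.MP_6d40c9_pr
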