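import Pool.Agent.Lib.MP_6d40c9_pr.SpecM

/-!
# Conditioning on the spins outside a box
-/

set_option autoImplicit false

namespace Pool.Agent.Lib.MP_6d40c9_pr

open Finset
open scoped BigOperators symmDiff

private lemma outCond_mem_LF_fa {A : Finset Pt} {e : Edge} (h : fa e ∈ A) : e ∈ LF A := by
  unfold LF
  rw [Finset.mem_biUnion]
  refine ⟨fa e, h, ?_⟩
  obtain ⟨⟨i, j⟩, b⟩ := e
  cases b <;> simp [fa]

private lemma outCond_mem_LF_fb {A : Finset Pt} {e : Edge} (h : fb e ∈ A) : e ∈ LF A := by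
  unfold LF
  rw [Finset.mem_biUnion]
  refine ⟨fb e, h, ?_⟩
  obtain ⟨⟨i, j⟩, b⟩ := e
  cases b <;> simp [fb]

private lemma outCond_LF_mono {A F : Finset Pt} (h : A ⊆ F) : LF A ⊆ LF F := by
  unfold LF
  exact Finset.biUnion_subset_biUnion_of_subset_left _ h

private lemma outCond_mem_walls {A : Finset Pt} {e : Edge} :
    e ∈ walls A ↔ ¬ (fa e ∈ A ↔ fb e ∈ A) := by
  unfold walls
  rw [Finset.mem_filter]
  constructor
  · exact fun h => h.2
  · intro h
    refine ⟨?_, h⟩
    by_cases ha : fa e ∈ A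
    · exact outCond_mem_LF_fa ha
    · by_cases hb : fb e ∈ A
      · exact outCond_mem_LF_fb hb
      · exact absurd (iff_of_false ha hb) h

private lemma outCond_xc_pos : 0 < xc := by
  unfold xc
  have : (1 : ℝ) < Real.sqrt 2 := by
    rw [Real.lt_sqrt (by norm_num)]
    norm_num
  linarith

private lemma outCond_xc_le : xc ≤ 1 := by
  unfold xc
  have : Real.sqrt 2 ≤ 2 := by
    rw [Real.sqrt_le_left (by norm_num)]
    norm_num
  linarith

private lemma outCond_xc : 1 - xc = xc * (1 + xc) := by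
  have h2 : Real.sqrt 2 ^ 2 = 2 := Real.sq_sqrt (by norm_num)
  unfold xc
  nlinarith

/-- Sum over the subsets of `F` as an iterated sum. -/
private lemma outCond_sum {F B : Finset Pt} (hB : B ⊆ F) (f : Finset Pt → ℝ) :
    ∑ A ∈ F.powerset, f A =
      ∑ A₂ ∈ (F \ B).powerset, ∑ A₁ ∈ B.powerset, f (A₁ ∪ A₂) := by
  rw [← Finset.sum_product']
  symm
  refine Finset.sum_nbij' (fun p => p.2 ∪ p.1) (fun A => (A \ B, A ∩ B)) ?_ ?_ ?_ ?_ ?_
  · intro p hp
    rw [Finset.mem_product, Finset.mem_powerset, Finset.mem_powerset] at hp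
    exact Finset.mem_powerset.2 (Finset.union_subset (hp.2.trans hB)
      (hp.1.trans Finset.sdiff_subset))
  · intro A hA
    rw [Finset.mem_powerset] at hA
    rw [Finset.mem_product, Finset.mem_powerset, Finset.mem_powerset]
    exact ⟨Finset.sdiff_subset_sdiff hA (Finset.Subset.refl _), Finset.inter_subset_right⟩
  · intro p hp
    rw [Finset.mem_product, Finset.mem_powerset, Finset.mem_powerset] at hp
    obtain ⟨hp1, hp2⟩ := hp
    refine Prod.ext ?_ ?_
    · ext x
      simp only [Finset.mem_sdiff, Finset.mem_union]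
      constructor
      · rintro ⟨h1 | h1, h2⟩
        · exact absurd (hp2 h1) h2
        · exact h1
      · intro h1
        exact ⟨Or.inr h1, (Finset.mem_sdiff.1 (hp1 h1)).2⟩
    · ext x
      simp only [Finset.mem_inter, Finset.mem_union]
      constructor
      · rintro ⟨h1 | h1, h2⟩
        · exact h1
        · exact absurd h2 (Finset.mem_sdiff.1 (hp1 h1)).2
      · intro h1
        exact ⟨Or.inl h1, hp2 h1⟩
  · intro A _
    ext x
    simp only [Finset.mem_union, Finset.mem_inter, Finset.mem_sdiff]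
    tauto
  · intro p _
    rfl

/-- The spins outside the box. -/
private noncomputable def outCondZ (A₂ : Finset Pt) (x : Pt) : ℝ := if x ∈ A₂ then -1 else 1

private lemma outCond_sp {F B A₁ A₂ : Finset Pt} (h1 : A₁ ⊆ B) (h2 : A₂ ⊆ F \ B) (x : Pt) :
    sp B A₁ (outCondZ A₂) x = if x ∈ A₁ ∪ A₂ then -1 else 1 := by
  unfold sp outCondZ
  by_cases hx : x ∈ B
  · rw [if_pos hx]
    have : x ∉ A₂ := fun h => (Finset.mem_sdiff.1 (h2 h)).2 hx
    by_cases hx1 : x ∈ A₁ <;> simp [hx1, this]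
  · rw [if_neg hx]
    have : x ∉ A₁ := fun h => hx (h1 h)
    by_cases hx2 : x ∈ A₂ <;> simp [hx2, this]

private lemma outCond_sgn (h : GridFacts) {F B A₁ A₂ : Finset Pt} (h1 : A₁ ⊆ B)
    (h2 : A₂ ⊆ F \ B) (x : Pt) :
    sgn (walls (A₁ ∪ A₂)) x = sp B A₁ (outCondZ A₂) x := by
  rw [outCond_sp h1 h2]
  have h3 := (h.2.1 (A₁ ∪ A₂)).2.2 x
  unfold sgn
  by_cases hu : x ∈ A₁ ∪ A₂
  · rw [if_pos hu]
    exact (h3.2 hu).neg_one_pow
  · rw [if_neg hu]
    have : ¬ Odd (cnt (walls (A₁ ∪ A₂)) x) := fun h' => hu (h3.1 h')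
    exact (Nat.not_odd_iff_even.1 this).neg_one_pow

/-- Off the sides of the box the walls depend only on the faces outside the box. -/
private lemma outCond_walls {F B A₁ A₂ : Finset Pt} (h1 : A₁ ⊆ B) (_h2 : A₂ ⊆ F \ B)
    {e : Edge} (he : e ∉ LF B) : e ∈ walls (A₁ ∪ A₂) ↔ e ∈ walls A₂ := by
  have ha : fa e ∉ A₁ := fun h => he (outCond_mem_LF_fa (h1 h))
  have hb : fb e ∉ A₁ := fun h => he (outCond_mem_LF_fb (h1 h))
  rw [outCond_mem_walls, outCond_mem_walls, Finset.mem_union, Finset.mem_union]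
  simp [ha, hb]

/-- The weight of the edges off the box. -/
private noncomputable def outCondR (F B A₂ : Finset Pt) : ℝ :=
  ∏ e ∈ LF F \ LF B, if e ∈ walls A₂ then xc else 1

private lemma outCondR_nonneg (F B A₂ : Finset Pt) : 0 ≤ outCondR F B A₂ := by
  unfold outCondR
  refine Finset.prod_nonneg fun e _ => ?_
  have := outCond_xc_pos
  split_ifs <;> linarith

private lemma outCond_weight {F B A₁ A₂ : Finset Pt} (hB : B ⊆ F) (h1 : A₁ ⊆ B)
    (h2 : A₂ ⊆ F \ B) :
    (1 + xc) ^ (LF B).card * ∏ _e ∈ walls (A₁ ∪ A₂), xc =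
      outCondR F B A₂ * ∏ e ∈ LF B, (1 + xc * (sp B A₁ (outCondZ A₂) (fa e) *
        sp B A₁ (outCondZ A₂) (fb e))) := by
  have hAF : A₁ ∪ A₂ ⊆ F := Finset.union_subset (h1.trans hB) (h2.trans Finset.sdiff_subset)
  have hsub : walls (A₁ ∪ A₂) ⊆ LF F := by
    refine Finset.Subset.trans ?_ (outCond_LF_mono hAF)
    unfold walls
    exact Finset.filter_subset _ _
  have e1 : ∏ _e ∈ walls (A₁ ∪ A₂), xc =
      ∏ e ∈ LF F, (if e ∈ walls (A₁ ∪ A₂) then xc else 1) := by
    rw [← Finset.prod_subset hsub (f := fun e => if e ∈ walls (A₁ ∪ A₂) then xc else 1)]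
    · refine Finset.prod_congr rfl ?_
      intro e he
      simp only [if_pos he]
    · intro e _ he
      simp only [if_neg he]
  have e2 : ∏ e ∈ LF F, (if e ∈ walls (A₁ ∪ A₂) then xc else 1) =
      (∏ e ∈ LF F \ LF B, (if e ∈ walls (A₁ ∪ A₂) then xc else 1)) *
        ∏ e ∈ LF B, (if e ∈ walls (A₁ ∪ A₂) then xc else 1) :=
    (Finset.prod_sdiff (outCond_LF_mono hB)).symm
  have e3 : ∏ e ∈ LF F \ LF B, (if e ∈ walls (A₁ ∪ A₂) then xc else 1) = outCondR F B A₂ := by
    unfold outCondR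
    refine Finset.prod_congr rfl fun e he => ?_
    have := outCond_walls h1 h2 (Finset.mem_sdiff.1 he).2
    by_cases hw : e ∈ walls A₂
    · rw [if_pos hw, if_pos (this.2 hw)]
    · rw [if_neg hw, if_neg (fun h => hw (this.1 h))]
  have e4 : (1 + xc) ^ (LF B).card * ∏ e ∈ LF B, (if e ∈ walls (A₁ ∪ A₂) then xc else 1) =
      ∏ e ∈ LF B, (1 + xc * (sp B A₁ (outCondZ A₂) (fa e) *
        sp B A₁ (outCondZ A₂) (fb e))) := by
    rw [← Finset.prod_const, ← Finset.prod_mul_distrib]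
    refine Finset.prod_congr rfl fun e _ => ?_
    rw [outCond_sp h1 h2, outCond_sp h1 h2]
    have hx := outCond_xc
    by_cases ha : fa e ∈ A₁ ∪ A₂ <;> by_cases hb : fb e ∈ A₁ ∪ A₂
    · have hw : e ∉ walls (A₁ ∪ A₂) := fun h => outCond_mem_walls.1 h (iff_of_true ha hb)
      rw [if_pos ha, if_pos hb, if_neg hw]
      ring
    · have hw : e ∈ walls (A₁ ∪ A₂) := outCond_mem_walls.2 fun h => hb (h.1 ha)
      rw [if_pos ha, if_neg hb, if_pos hw]
      linarith
    · have hw : e ∈ walls (A₁ ∪ A₂) := outCond_mem_walls.2 fun h => ha (h.2 hb)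
      rw [if_neg ha, if_pos hb, if_pos hw]
      linarith
    · have hw : e ∉ walls (A₁ ∪ A₂) := fun h => outCond_mem_walls.1 h (iff_of_false ha hb)
      rw [if_neg ha, if_neg hb, if_neg hw]
      ring
  rw [e1, e2, e3, ← e4]
  ring

open Classical in
private theorem outCond_frac (D : Finset Edge) (g : Finset Edge → ℝ) :
    lE D g = (∑ w ∈ D.powerset, if Even' w then (∏ _e ∈ w, xc) * g w else 0) /
      (∑ w ∈ D.powerset, if Even' w then (∏ _e ∈ w, xc) * 1 else 0) := by
  unfold lE lpE Zp Even'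
  congr 1
  refine Finset.sum_congr rfl fun w _ => ?_
  simp only [mul_one]

open Classical in
private theorem outCond_low (h2 : LowTemp) (F : Finset Pt) (hF : Simp F)
    (g : Finset Edge → ℝ) :
    lE (LF F) g = (∑ A ∈ F.powerset, (∏ _e ∈ walls A, xc) * g (walls A)) /
      ∑ A ∈ F.powerset, (∏ _e ∈ walls A, xc) * 1 := by
  rw [outCond_frac, h2 F hF (fun _ => xc) g, h2 F hF (fun _ => xc) (fun _ => 1)]

private theorem outCond_Zp_pos (B : Finset Pt) :
    0 < Zp (bdFc B) (LF B) (fun _ => xc) 0 := by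
  classical
  unfold Zp
  have h0 : ∀ η ∈ (LF B).powerset,
      0 ≤ (if bdy (bdFc B) η = 0 then ∏ _e ∈ η, xc else (0 : ℝ)) := by
    intro η _
    have := outCond_xc_pos
    split_ifs
    · positivity
    · exact le_refl _
  have h1 := Finset.single_le_sum h0 (Finset.empty_mem_powerset (LF B))
  have h2 : bdy (bdFc B) (∅ : Finset Edge) = 0 := by
    unfold bdy
    simp
  rw [if_pos h2, Finset.prod_empty] at h1
  refine lt_of_lt_of_le one_pos ?_
  convert h1 using 2

/-- **Conditioning on the spins outside a box.** -/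
theorem outCond (h1 : GridFacts) (h2 : LowTemp) (h3 : HighTemp) (h4 : Dual) (h5 : Signed)
    (h6 : BoxSimp) : OutCond := by
  intro F z n hF hBF u hu v hv P _ hP
  classical
  set B := box z n with hBdef
  set U : Finset Pt := {u} ∆ {v} with hU
  have hUB : U ⊆ B := by
    intro x hx
    rw [hU, Finset.mem_symmDiff, Finset.mem_singleton, Finset.mem_singleton] at hx
    rcases hx with ⟨rfl, -⟩ | ⟨rfl, -⟩
    · exact hu
    · exact hv
  have hprodU : ∀ s : Pt → ℝ, (∀ x, s x * s x = 1) → ∏ x ∈ U, s x = s u * s v := by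
    intro s hs
    by_cases huv : u = v
    · subst huv
      rw [hU, symmDiff_self, Finset.bot_eq_empty, Finset.prod_empty, hs]
    · have hUe : U = {u, v} := by
        ext x
        rw [hU, Finset.mem_symmDiff, Finset.mem_insert, Finset.mem_singleton,
          Finset.mem_singleton]
        constructor
        · rintro (⟨rfl, -⟩ | ⟨rfl, -⟩)
          · exact Or.inl rfl
          · exact Or.inr rfl
        · rintro (rfl | rfl)
          · exact Or.inl ⟨rfl, huv⟩
          · exact Or.inr ⟨rfl, fun h => huv h.symm⟩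
      rw [hUe, Finset.prod_pair huv]
  have hsgn2 : ∀ (w : Finset Edge) (x : Pt), sgn w x * sgn w x = 1 := by
    intro w x
    unfold sgn
    rw [← pow_add, ← two_mul, pow_mul]
    norm_num
  -- the two point function in the box
  have hc2 : c2 (LF B) u v = Zp (bdFc B) (LF B) (fun _ => xc) (pts U) /
      Zp (bdFc B) (LF B) (fun _ => xc) 0 := by
    have hd := h4 B (h6.1 z n) ∅ (Finset.empty_subset _) U hUB
    simp only [Finset.notMem_empty, if_false, Finset.sdiff_empty] at hd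
    rw [← hd]
    unfold c2
    congr 1
    funext w
    unfold sgs
    rw [hprodU _ (hsgn2 w)]
  have hZ0 := outCond_Zp_pos B
  have hxc := outCond_xc_pos
  have hK : 0 < (1 + xc) ^ (LF B).card := by positivity
  -- the inner sums
  have hinner : ∀ A₂ : Finset Pt, ∀ V ⊆ B,
      ∑ A₁ ∈ B.powerset, (∏ e ∈ LF B, (1 + xc * (sp B A₁ (outCondZ A₂) (fa e) *
        sp B A₁ (outCondZ A₂) (fb e)))) * ∏ x ∈ V, sp B A₁ (outCondZ A₂) x =
      2 ^ B.card * Zp (bdFc B) (LF B) (fun e => chiO B (outCondZ A₂) e * xc) (pts V) :=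
    fun A₂ V hV => h3 B (LF B) (fun _ => xc) (outCondZ A₂) V hV
  have hpt0 : pts (∅ : Finset Pt) = 0 := by unfold pts; simp
  have hsigned : ∀ A₂ : Finset Pt,
      |Zp (bdFc B) (LF B) (fun e => chiO B (outCondZ A₂) e * xc) (pts U)| ≤
        Zp (bdFc B) (LF B) (fun e => chiO B (outCondZ A₂) e * xc) 0 * c2 (LF B) u v := by
    intro A₂
    have hs := h5 Edge (Pt → ZMod 2) (fun g => by
      funext x
      exact CharTwo.add_self_eq_zero (g x)) (bdFc B) (LF B) (fun _ => xc)
      (chiO B (outCondZ A₂)) (fun _ _ => hxc.le) (fun _ _ => outCond_xc_le) (by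
        intro e _
        unfold chiO outCondZ
        split_ifs <;> norm_num) (pts U)
    rw [hc2, ← mul_div_assoc, le_div_iff₀ hZ0]
    exact hs
  -- `P` depends only on the outside
  have hPw : ∀ A₁ ⊆ B, ∀ A₂ ⊆ F \ B, (P (walls (A₁ ∪ A₂)) ↔ P (walls A₂)) := by
    intro A₁ hA₁ A₂ hA₂
    rw [hP (walls (A₁ ∪ A₂)), hP (walls A₂)]
    have : walls (A₁ ∪ A₂) \ LF B = walls A₂ \ LF B := by
      ext e
      rw [Finset.mem_sdiff, Finset.mem_sdiff]
      constructor
      · rintro ⟨he, he'⟩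
        exact ⟨(outCond_walls hA₁ hA₂ he').1 he, he'⟩
      · rintro ⟨he, he'⟩
        exact ⟨(outCond_walls hA₁ hA₂ he').2 he, he'⟩
    rw [this]
  -- the outer sums
  have hsp2 : ∀ (A₁ A₂ : Finset Pt), A₁ ⊆ B → A₂ ⊆ F \ B → ∀ x,
      sp B A₁ (outCondZ A₂) x * sp B A₁ (outCondZ A₂) x = 1 := by
    intro A₁ A₂ hA₁ hA₂ x
    rw [outCond_sp hA₁ hA₂]
    split_ifs <;> norm_num
  have hnum : ∀ (V : Finset Pt), V ⊆ B → ∀ g : Finset Edge → ℝ,
      (∀ A₁ ⊆ B, ∀ A₂ ⊆ F \ B, g (walls (A₁ ∪ A₂)) =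
        if P (walls A₂) then ∏ x ∈ V, sp B A₁ (outCondZ A₂) x else 0) →
      (1 + xc) ^ (LF B).card * ∑ A ∈ F.powerset, (∏ _e ∈ walls A, xc) * g (walls A) =
        ∑ A₂ ∈ (F \ B).powerset, if P (walls A₂) then outCondR F B A₂ *
          (2 ^ B.card * Zp (bdFc B) (LF B) (fun e => chiO B (outCondZ A₂) e * xc) (pts V))
          else 0 := by
    intro V hV g hg
    rw [outCond_sum hBF, Finset.mul_sum]
    refine Finset.sum_congr rfl fun A₂ hA₂ => ?_
    rw [Finset.mem_powerset] at hA₂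
    rw [Finset.mul_sum]
    have hterm : ∀ A₁ ∈ B.powerset, (1 + xc) ^ (LF B).card *
        ((∏ _e ∈ walls (A₁ ∪ A₂), xc) * g (walls (A₁ ∪ A₂))) =
        if P (walls A₂) then outCondR F B A₂ *
          ((∏ e ∈ LF B, (1 + xc * (sp B A₁ (outCondZ A₂) (fa e) *
            sp B A₁ (outCondZ A₂) (fb e)))) * ∏ x ∈ V, sp B A₁ (outCondZ A₂) x) else 0 := by
      intro A₁ hA₁
      rw [Finset.mem_powerset] at hA₁
      rw [← mul_assoc, outCond_weight hBF hA₁ hA₂, hg A₁ hA₁ A₂ hA₂]
      split_ifs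
      · ring
      · ring
    rw [Finset.sum_congr rfl hterm]
    by_cases hPA : P (walls A₂)
    · simp only [if_pos hPA]
      rw [← Finset.mul_sum, hinner A₂ V hV]
    · simp only [if_neg hPA]
      exact Finset.sum_const_zero
  have hnumU := hnum U hUB (fun w => if P w then sgn w u * sgn w v else 0) (by
    intro A₁ hA₁ A₂ hA₂
    rw [hprodU _ (hsp2 A₁ A₂ hA₁ hA₂), ← outCond_sgn h1 hA₁ hA₂, ← outCond_sgn h1 hA₁ hA₂]
    by_cases hPA : P (walls A₂)
    · rw [if_pos hPA]
      exact if_pos ((hPw A₁ hA₁ A₂ hA₂).2 hPA)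
    · rw [if_neg hPA]
      exact if_neg (fun h => hPA ((hPw A₁ hA₁ A₂ hA₂).1 h)))
  have hnum0 := hnum ∅ (Finset.empty_subset _) (fun w => if P w then 1 else 0) (by
    intro A₁ hA₁ A₂ hA₂
    rw [Finset.prod_empty]
    by_cases hPA : P (walls A₂)
    · rw [if_pos hPA]
      exact if_pos ((hPw A₁ hA₁ A₂ hA₂).2 hPA)
    · rw [if_neg hPA]
      exact if_neg (fun h => hPA ((hPw A₁ hA₁ A₂ hA₂).1 h)))
  rw [hpt0] at hnum0
  -- probabilities as quotients
  have hlP : lP (LF F) P = lE (LF F) (fun w => if P w then 1 else 0) := by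
    unfold lP lpP lE
    congr 1
    funext w
    by_cases hw : P w
    · rw [if_pos hw, if_pos hw]
    · rw [if_neg hw, if_neg hw]
  have hden : 0 < ∑ A ∈ F.powerset, (∏ _e ∈ walls A, xc) * (1 : ℝ) := by
    refine Finset.sum_pos (fun A _ => ?_) ⟨∅, Finset.empty_mem_powerset _⟩
    positivity
  rw [hlP, outCond_low h2 F hF, outCond_low h2 F hF]
  rw [abs_div, abs_of_pos hden, div_mul_eq_mul_div, div_le_div_iff_of_pos_right hden]
  -- compare the numerators
  have hfin : (1 + xc) ^ (LF B).card *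
      |∑ A ∈ F.powerset, (∏ _e ∈ walls A, xc) *
        (if P (walls A) then sgn (walls A) u * sgn (walls A) v else 0)| ≤
      ((1 + xc) ^ (LF B).card * ∑ A ∈ F.powerset, (∏ _e ∈ walls A, xc) *
        (if P (walls A) then 1 else 0)) * c2 (LF B) u v := by
    rw [← abs_of_pos hK, ← abs_mul, abs_of_pos hK, hnumU, hnum0, Finset.sum_mul]
    refine (Finset.abs_sum_le_sum_abs _ _).trans (Finset.sum_le_sum fun A₂ _ => ?_)
    by_cases hPA : P (walls A₂)
    · rw [if_pos hPA, if_pos hPA, abs_mul, abs_of_nonneg (outCondR_nonneg F B A₂), abs_mul,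
        abs_of_pos (by positivity : (0 : ℝ) < 2 ^ B.card), mul_assoc, mul_assoc]
      refine mul_le_mul_of_nonneg_left ?_ (outCondR_nonneg F B A₂)
      exact mul_le_mul_of_nonneg_left (hsigned A₂) (by positivity)
    · rw [if_neg hPA, if_neg hPA, abs_zero, zero_mul]
  rw [mul_assoc] at hfin
  exact le_of_mul_le_mul_left hfin hK

end Pool.Agent.Lib.MP_6d40c9_pr
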