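import Pool.Agent.Lib.MP_6d40c9_pr.SpecP

/-!
# PFinS: the spin field is close to a function of the numbers of loops of each status
-/

set_option autoImplicit false

namespace Pool.Agent.Lib.MP_6d40c9_pr

open Finset MeasureTheory Filter Topology TopologicalSpace Metric
open scoped BigOperators symmDiff

/-- Distance of a point of a square to its centre. -/
private lemma pFinS_dist {r : ℝ} (b : Pt) {x : ℝ × ℝ} (hx : x ∈ sq r b) :
    dist x (cen r b) ≤ r / 2 := by
  obtain ⟨h1, h2, h3, h4⟩ := hx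
  rw [Prod.dist_eq, max_le_iff, Real.dist_eq, Real.dist_eq, abs_le, abs_le]
  unfold cen
  simp only
  refine ⟨⟨?_, ?_⟩, ⟨?_, ?_⟩⟩ <;> nlinarith

private lemma pFinS_lE_zero (D : Finset Edge) : lE D (fun _ => 0) = 0 := by
  unfold lE lpE
  simp

open Classical in
private lemma pFinS_cE_zero {Q : Type} (D : Finset Edge) (q : Finset Edge → Q)
    (F : Finset Edge → ℝ) (hF : ∀ w, F w = 0) (v : Q) : cE D q F v = 0 := by
  unfold cE
  have h1 : (fun w => if q w = v then F w else 0) = fun _ => (0 : ℝ) := by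
    funext w
    rw [hF]
    simp
  rw [h1, pFinS_lE_zero, zero_div]

open Classical in
theorem pFinS (h1 : PSumS) (h2 : FarPairS) (h3 : Split) (h4 : LEFacts) : PFinS := by
  intro hM hW Ω A f hO hC hA hΩ hf hE2 ε hε
  obtain ⟨L1, L2, L3, L4, L5, L6, L7⟩ := h4
  have Ladd : ∀ (D : Finset Edge) (g g' : Finset Edge → ℝ),
      lE D (fun w => g w + g' w) = lE D g + lE D g' := by
    intro D g g'
    have := L2 D 1 1 g g'
    simpa using this
  obtain ⟨M, hM'⟩ : ∃ M, ∀ x, |f x| ≤ M := by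
    obtain ⟨C, hC⟩ := hf.2.1.exists_bound_of_continuous hf.1.continuous
    exact ⟨C, fun x => by rw [← Real.norm_eq_abs]; exact hC x⟩
  obtain ⟨r₁, hr₁, hPS⟩ := h1 hM hW Ω A M f hO hC hA hΩ hf hM' (ε / 2) (by linarith)
  obtain ⟨ρ, hρ, hρΩ⟩ := IsCompact.exists_cthickening_subset_open hf.2.1 hO hf.2.2
  refine ⟨min r₁ (ρ / 3), lt_min hr₁ (by linarith), ?_⟩
  intro r hr hrr R hR hR' hE1
  have hrr₁ : r < r₁ := hrr.trans_le (min_le_left _ _)
  have hrρ : 3 * r < ρ := by
    have := hrr.trans_le (min_le_right r₁ (ρ / 3))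
    linarith
  -- either `f` vanishes on the square or the ball is in the domain
  have hdich : ∀ b : Pt, (∀ x ∈ sq r b, f x = 0) ∨ closedBall (cen r b) (2 * r) ⊆ Ω := by
    intro b
    by_cases hb : ∀ x ∈ sq r b, f x = 0
    · exact Or.inl hb
    · right
      push Not at hb
      obtain ⟨x, hx, hfx⟩ := hb
      intro y hy
      apply hρΩ
      apply mem_cthickening_of_dist_le y x ρ _ (subset_tsupport f hfx)
      have h5 := pFinS_dist b hx
      rw [mem_closedBall] at hy
      have h6 := dist_triangle y (cen r b) x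
      rw [dist_comm (cen r b) x] at h6
      linarith
  set N : ℕ := (Ix A r).card with hN
  set ε₂ : ℝ := ε / (2 * ((N : ℝ) ^ 2 + 1)) with hε₂
  have hε₂0 : 0 < ε₂ := by positivity
  obtain ⟨κ₀, hκ₀, hFP⟩ := h2 hM Ω A M r R f hC hA hΩ hM' hr hR hR' hE1 hE2 ε₂ hε₂0
  obtain ⟨Lc, hLc, δ₁, hδ₁, hPS2⟩ := hPS r hr hrr₁
  refine ⟨min κ₀ (r / 8), lt_min hκ₀ (by linarith), ?_⟩
  intro κ hκ hκκ
  obtain ⟨η₀, hη₀, hFP2⟩ := hFP κ hκ (hκκ.trans_le (min_le_left _ _))
  refine ⟨η₀, hη₀, ?_⟩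
  intro η hη hηη S hS hS'
  obtain ⟨δ₂, hδ₂, hFP3⟩ := hFP2 η hη hηη S hS hS'
  refine ⟨min (min δ₁ δ₂) (r / 16), lt_min (lt_min hδ₁ hδ₂) (by linarith), ?_⟩
  intro δ hδ hδδ
  have hd1 : δ < δ₁ := hδδ.trans_le ((min_le_left _ _).trans (min_le_left _ _))
  have hd2 : δ < δ₂ := hδδ.trans_le ((min_le_left _ _).trans (min_le_right _ _))
  have hd3 : δ < r / 16 := hδδ.trans_le (min_le_right _ _)
  obtain ⟨p, hp⟩ : ∃ p : Par, p = ⟨Ω, A, r, R, κ, η, S⟩ := ⟨_, rfl⟩
  have hpA : p.A = A := by rw [hp]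
  have hpr : p.r = r := by rw [hp]
  have hpΩ : p.Ω = Ω := by rw [hp]
  have hGood : p.Good := by
    rw [hp]
    exact ⟨hr, hA, hR, hR', hκ, (hκκ.trans_le (min_le_right _ _)).le, hη, hS, hS', hΩ⟩
  have hsum := hPS2 δ hδ hd1 R κ η S (by rw [← hp]; exact hGood)
  have hfar := hFP3 δ hδ hd2
  rw [← hp] at hsum hfar ⊢
  obtain ⟨hsf, hsp⟩ := h3 p δ f hGood hδ (by rw [hpr]; linarith)
  rw [hpΩ, hpA, hpr] at hsf
  rw [hpA, hpr] at hsp
  -- the function of the counts
  refine ⟨fun n => ∑ b ∈ Ix A r, encS p b n * aB p δ f b (fun s => if b ∈ s.1 then n s else 0), ?_⟩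
  have hXB : ∀ b ∈ Ix A r, ∀ w, Even' w → XB p δ f b w =
      encS p b (nst p δ w) * aB p δ f b (fun s => if b ∈ s.1 then nst p δ w s else 0) := by
    intro b hb w hw
    obtain ⟨-, g2, g3, -⟩ := hsp b hb w hw
    unfold XB
    rw [g2]
    congr 2
    funext s
    by_cases hbs : b ∈ s.1
    · rw [if_pos hbs]; exact (g3 s).1 hbs
    · rw [if_neg hbs]; exact (g3 s).2 hbs
  have hDB : ∀ w, Even' w → sf Ω δ f w - ∑ b ∈ Ix A r, encS p b (nst p δ w) *
      aB p δ f b (fun s => if b ∈ s.1 then nst p δ w s else 0) =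
      ∑ b ∈ Ix A r, DB p δ f b w := by
    intro w hw
    rw [hsf w, ← Finset.sum_sub_distrib]
    refine Finset.sum_congr rfl fun b hb => ?_
    unfold DB
    rw [hXB b hb w hw]
  -- squares where the test function vanishes
  have hzero : ∀ b, (∀ x ∈ sq r b, f x = 0) → ∀ w, DB p δ f b w = 0 := by
    intro b hb w
    have haV : ∀ w, aV p δ f b w = 0 := by
      intro w
      unfold aV
      rw [Finset.sum_eq_zero, mul_zero]
      intro u hu
      have := (Finset.mem_filter.1 hu).2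
      rw [hpr] at this
      rw [hb _ this, zero_mul]
    unfold DB XB aB
    rw [haV, pFinS_cE_zero _ _ _ (fun w => haV _)]
    ring
  have hexp : lE (DD Ω δ) (fun w => (sf Ω δ f w - ∑ b ∈ Ix A r, encS p b (nst p δ w) *
      aB p δ f b (fun s => if b ∈ s.1 then nst p δ w s else 0)) ^ 2) ≤
      ∑ b ∈ Ix A r, ∑ b' ∈ Ix A r, lE (DD Ω δ) (fun w => DB p δ f b w * DB p δ f b' w) := by
    have e1 : lE (DD Ω δ) (fun w => (sf Ω δ f w - ∑ b ∈ Ix A r, encS p b (nst p δ w) *
        aB p δ f b (fun s => if b ∈ s.1 then nst p δ w s else 0)) ^ 2) ≤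
        lE (DD Ω δ) (fun w => ∑ b ∈ Ix A r, ∑ b' ∈ Ix A r, DB p δ f b w * DB p δ f b' w) := by
      apply L3
      intro w _ hw
      rw [hDB w hw, pow_two, Finset.sum_mul_sum]
    refine e1.trans (le_of_eq ?_)
    rw [L5 (DD Ω δ) Pt (Ix A r) (fun b w => ∑ b' ∈ Ix A r, DB p δ f b w * DB p δ f b' w)]
    refine Finset.sum_congr rfl fun b _ => ?_
    exact L5 (DD Ω δ) Pt (Ix A r) (fun b' w => DB p δ f b w * DB p δ f b' w)
  refine hexp.trans ?_
  -- every pair
  have hpair : ∀ b ∈ Ix A r, ∀ b' ∈ Ix A r,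
      lE (DD Ω δ) (fun w => DB p δ f b w * DB p δ f b' w) ≤
      (if ldist b b' < Lc then
        |lE (DD Ω δ) (fun w => DB p δ f b w * DB p δ f b' w)|
      else |lE (DD Ω δ) (fun w => if Tch p δ b b' w then DB p δ f b w * DB p δ f b' w else 0)|) +
        ε₂ := by
    intro b hb b' hb'
    by_cases hl : ldist b b' < Lc
    · rw [if_pos hl]
      have := le_abs_self (lE (DD Ω δ) (fun w => DB p δ f b w * DB p δ f b' w))
      linarith
    · rw [if_neg hl]
      have hl2 : 2 ≤ ldist b b' := hLc.trans (not_lt.1 hl)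
      have e1 : (fun w => DB p δ f b w * DB p δ f b' w) = fun w =>
          (if Tch p δ b b' w then DB p δ f b w * DB p δ f b' w else 0) +
          (if Tch p δ b b' w then 0 else DB p δ f b w * DB p δ f b' w) := by
        funext w
        split_ifs
        · rw [add_zero]
        · rw [zero_add]
      rw [e1, Ladd]
      apply add_le_add (le_abs_self _)
      rcases hdich b with hz | hz
      · have e2 : (fun w => if Tch p δ b b' w then (0 : ℝ) else DB p δ f b w * DB p δ f b' w) =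
            fun _ => 0 := by
          funext w
          rw [hzero b hz w, zero_mul]
          simp
        rw [e2, pFinS_lE_zero]
        exact hε₂0.le
      · rcases hdich b' with hz' | hz'
        · have e2 : (fun w => if Tch p δ b b' w then (0 : ℝ) else DB p δ f b w * DB p δ f b' w) =
              fun _ => 0 := by
            funext w
            rw [hzero b' hz' w, mul_zero]
            simp
          rw [e2, pFinS_lE_zero]
          exact hε₂0.le
        · exact (le_abs_self _).trans (hfar b hb b' hb' hl2 hz hz')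
  have htot : ∑ b ∈ Ix A r, ∑ b' ∈ Ix A r,
      lE (DD Ω δ) (fun w => DB p δ f b w * DB p δ f b' w) ≤ ε / 2 + (N : ℝ) ^ 2 * ε₂ := by
    refine (Finset.sum_le_sum fun b hb => Finset.sum_le_sum fun b' hb' =>
      hpair b hb b' hb').trans ?_
    simp_rw [Finset.sum_add_distrib]
    apply add_le_add hsum
    rw [Finset.sum_const, Finset.sum_const, nsmul_eq_mul, nsmul_eq_mul, ← hN]
    apply le_of_eq
    ring
  have hlast : (N : ℝ) ^ 2 * ε₂ ≤ ε / 2 := by
    rw [hε₂, mul_div_assoc', div_le_div_iff₀ (by positivity) (by norm_num)]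
    nlinarith [sq_nonneg (N : ℝ)]
  linarith

end Pool.Agent.Lib.MP_6d40c9_pr
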