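import Pool.Agent.Lib.MP_6d40c9_pr.SpecP
import Pool.Agent.Lib.MP_6d40c9_pr.MmUpS

/-!
# PSumS: near pairs of squares and pairs touched by a common component
-/

set_option autoImplicit false

namespace Pool.Agent.Lib.MP_6d40c9_pr

open Finset MeasureTheory Filter Topology TopologicalSpace Metric
open scoped BigOperators symmDiff

/-! ### Combinatorics -/

private lemma pSumS_connE_symm {w : Finset Edge} {a b : Edge} (ha : a ∈ w) (h : connE w a b) :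
    connE w b a ∧ b ∈ w := by
  unfold connE at h ⊢
  induction h with
  | refl => exact ⟨Relation.ReflTransGen.refl, ha⟩
  | @tail c d _ h2 ih =>
    refine ⟨Relation.ReflTransGen.head ⟨ih.2, ?_⟩ ih.1, h2.1⟩
    have h3 := h2.2
    unfold adjE at h3 ⊢
    rcases h3 with h | h | h | h
    · exact Or.inl h.symm
    · exact Or.inr (Or.inr (Or.inl h.symm))
    · exact Or.inr (Or.inl h.symm)
    · exact Or.inr (Or.inr (Or.inr h.symm))

private lemma pSumS_Tch_symm (p : Par) (δ : ℝ) (b b' : Pt) (w : Finset Edge) :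
    Tch p δ b b' w ↔ Tch p δ b' b w := by
  constructor
  · rintro ⟨a, ha, a', ha', hc, h1, h2⟩
    exact ⟨a', ha', a, ha, (pSumS_connE_symm ha hc).1, h2, h1⟩
  · rintro ⟨a, ha, a', ha', hc, h1, h2⟩
    exact ⟨a', ha', a, ha, (pSumS_connE_symm ha hc).1, h2, h1⟩

private lemma pSumS_ldist_comm (u v : Pt) : ldist u v = ldist v u := by
  unfold ldist
  have h1 : (u.1 - v.1).natAbs = (v.1 - u.1).natAbs := by omega
  have h2 : (u.2 - v.2).natAbs = (v.2 - u.2).natAbs := by omega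
  rw [h1, h2]

private lemma pSumS_ldist_le {z u v : Pt} {n : ℕ} (hu : u ∈ box z n) (hv : v ∈ box z n) :
    ldist u v ≤ 2 * n := by
  unfold box at hu hv
  rw [Finset.mem_product, Finset.mem_Icc, Finset.mem_Icc] at hu hv
  unfold ldist
  omega

private lemma pSumS_card_box (z : Pt) (n : ℕ) : (box z n).card = (2 * n + 1) ^ 2 := by
  unfold box
  rw [Finset.card_product, Int.card_Icc, Int.card_Icc]
  have h1 : (z.1 + (n : ℤ) + 1 - (z.1 - n)).toNat = 2 * n + 1 := by omega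
  have h2 : (z.2 + (n : ℤ) + 1 - (z.2 - n)).toNat = 2 * n + 1 := by omega
  rw [h1, h2]; ring

private lemma pSumS_near (B : Finset Pt) (u : Pt) (L : ℕ) :
    (B.filter fun v => ldist u v < L).card ≤ (2 * L + 1) ^ 2 := by
  rw [← pSumS_card_box u L]
  apply Finset.card_le_card
  intro v hv
  have h := (Finset.mem_filter.1 hv).2
  unfold ldist at h
  unfold box
  rw [Finset.mem_product, Finset.mem_Icc, Finset.mem_Icc]
  omega

private lemma pSumS_sphere (B : Finset Pt) (u : Pt) (l : ℕ) :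
    (B.filter fun v => ldist u v = l).card ≤ 8 * l + 8 := by
  classical
  obtain ⟨S, hS⟩ : ∃ S : Finset Pt, S =
    (({u.1 - (l : ℤ), u.1 + (l : ℤ)} : Finset ℤ) ×ˢ Finset.Icc (u.2 - (l : ℤ)) (u.2 + l)) ∪
      (Finset.Icc (u.1 - (l : ℤ)) (u.1 + l) ×ˢ ({u.2 - (l : ℤ), u.2 + (l : ℤ)} : Finset ℤ)) :=
    ⟨_, rfl⟩
  have hsub : (B.filter fun v => ldist u v = l) ⊆ S := by
    intro v hv
    have hv2 := (Finset.mem_filter.1 hv).2
    unfold ldist at hv2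
    simp only [hS, Finset.mem_union, Finset.mem_product, Finset.mem_insert, Finset.mem_singleton,
      Finset.mem_Icc]
    rcases max_choice (u.1 - v.1).natAbs (u.2 - v.2).natAbs with h | h
    · left
      have h' : (u.2 - v.2).natAbs ≤ (u.1 - v.1).natAbs := by
        rw [← h]; exact le_max_right _ _
      rw [h] at hv2
      omega
    · right
      have h' : (u.1 - v.1).natAbs ≤ (u.2 - v.2).natAbs := by
        rw [← h]; exact le_max_left _ _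
      rw [h] at hv2
      omega
  refine (Finset.card_le_card hsub).trans ?_
  rw [hS]
  refine (Finset.card_union_le _ _).trans ?_
  rw [Finset.card_product, Finset.card_product]
  have h1 : ({u.1 - (l : ℤ), u.1 + (l : ℤ)} : Finset ℤ).card ≤ 2 := Finset.card_le_two
  have h2 : ({u.2 - (l : ℤ), u.2 + (l : ℤ)} : Finset ℤ).card ≤ 2 := Finset.card_le_two
  have h3 : (Finset.Icc (u.2 - (l : ℤ)) (u.2 + l)).card = 2 * l + 1 := by
    rw [Int.card_Icc]; omega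
  have h4 : (Finset.Icc (u.1 - (l : ℤ)) (u.1 + l)).card = 2 * l + 1 := by
    rw [Int.card_Icc]; omega
  rw [h3, h4]
  nlinarith

private lemma pSumS_row {z u : Pt} {n : ℕ} (hu : u ∈ box z n) :
    ∑ v ∈ box z n, ((ldist u v : ℝ) + 1) ^ (-(1 / 4) : ℝ) ≤
      8 * ((2 * n + 1 : ℕ) : ℝ) * ((2 * n + 1 : ℕ) : ℝ) ^ (3 / 4 : ℝ) := by
  classical
  have hmap : ∀ v ∈ box z n, ldist u v ∈ Finset.range (2 * n + 1) := fun v hv => by
    rw [Finset.mem_range]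
    have := pSumS_ldist_le hu hv
    omega
  rw [← Finset.sum_fiberwise_of_maps_to hmap]
  calc ∑ l ∈ Finset.range (2 * n + 1), ∑ v ∈ (box z n).filter (fun v => ldist u v = l),
        ((ldist u v : ℝ) + 1) ^ (-(1 / 4) : ℝ)
      ≤ ∑ l ∈ Finset.range (2 * n + 1), 8 * ((2 * n + 1 : ℕ) : ℝ) ^ (3 / 4 : ℝ) := by
        refine Finset.sum_le_sum fun l hl => ?_
        have e1 : ∑ v ∈ (box z n).filter (fun v => ldist u v = l),
            ((ldist u v : ℝ) + 1) ^ (-(1 / 4) : ℝ) =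
            ∑ v ∈ (box z n).filter (fun v => ldist u v = l), ((l : ℝ) + 1) ^ (-(1 / 4) : ℝ) := by
          refine Finset.sum_congr rfl fun v hv => ?_
          rw [(Finset.mem_filter.1 hv).2]
        rw [e1, Finset.sum_const, nsmul_eq_mul]
        have h1 : (((box z n).filter (fun v => ldist u v = l)).card : ℝ) ≤ 8 * ((l : ℝ) + 1) := by
          have := pSumS_sphere (box z n) u l
          have h : (((box z n).filter (fun v => ldist u v = l)).card : ℝ) ≤ ((8 * l + 8 : ℕ) : ℝ) := by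
            exact_mod_cast this
          push_cast at h
          linarith
        have hl0 : (0 : ℝ) < (l : ℝ) + 1 := by positivity
        have h2 : 0 ≤ ((l : ℝ) + 1) ^ (-(1 / 4) : ℝ) := by positivity
        have h3 : ((l : ℝ) + 1) * ((l : ℝ) + 1) ^ (-(1 / 4) : ℝ) = ((l : ℝ) + 1) ^ (3 / 4 : ℝ) := by
          nth_rewrite 1 [← Real.rpow_one ((l : ℝ) + 1)]
          rw [← Real.rpow_add hl0]; norm_num
        have h4 : ((l : ℝ) + 1) ^ (3 / 4 : ℝ) ≤ ((2 * n + 1 : ℕ) : ℝ) ^ (3 / 4 : ℝ) := by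
          refine Real.rpow_le_rpow hl0.le ?_ (by norm_num)
          have := Finset.mem_range.1 hl
          have : ((l + 1 : ℕ) : ℝ) ≤ ((2 * n + 1 : ℕ) : ℝ) := by exact_mod_cast this
          push_cast at this ⊢
          exact this
        calc (((box z n).filter (fun v => ldist u v = l)).card : ℝ) *
              ((l : ℝ) + 1) ^ (-(1 / 4) : ℝ)
            ≤ (8 * ((l : ℝ) + 1)) * ((l : ℝ) + 1) ^ (-(1 / 4) : ℝ) :=
              mul_le_mul_of_nonneg_right h1 h2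
          _ = 8 * (((l : ℝ) + 1) * ((l : ℝ) + 1) ^ (-(1 / 4) : ℝ)) := by ring
          _ = 8 * ((l : ℝ) + 1) ^ (3 / 4 : ℝ) := by rw [h3]
          _ ≤ 8 * ((2 * n + 1 : ℕ) : ℝ) ^ (3 / 4 : ℝ) := by linarith
    _ = 8 * ((2 * n + 1 : ℕ) : ℝ) * ((2 * n + 1 : ℕ) : ℝ) ^ (3 / 4 : ℝ) := by
        rw [Finset.sum_const, Finset.card_range, nsmul_eq_mul]; ring

/-- Double sum of the bounds. -/
private lemma pSumS_total (N L : ℕ) (a c : ℝ) (ha : 0 ≤ a) (hc : 0 ≤ c) (T : Pt → Pt → ℝ)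
    (hT : ∀ b ∈ box 0 N, ∀ b' ∈ box 0 N,
      T b b' ≤ (if ldist b b' < L then a else 0) + c * ((ldist b b' : ℝ) + 1) ^ (-(1 / 4) : ℝ)) :
    ∑ b ∈ box 0 N, ∑ b' ∈ box 0 N, T b b' ≤
      ((2 * N + 1 : ℕ) : ℝ) ^ 2 * (((2 * L + 1 : ℕ) : ℝ) ^ 2 * a) +
        8 * c * ((2 * N + 1 : ℕ) : ℝ) ^ (15 / 4 : ℝ) := by
  classical
  have hm0 : (0 : ℝ) < ((2 * N + 1 : ℕ) : ℝ) := by positivity
  have hrow : ∀ b ∈ box 0 N, ∑ b' ∈ box 0 N, T b b' ≤ ((2 * L + 1 : ℕ) : ℝ) ^ 2 * a +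
      c * (8 * ((2 * N + 1 : ℕ) : ℝ) * ((2 * N + 1 : ℕ) : ℝ) ^ (3 / 4 : ℝ)) := by
    intro b hb
    calc ∑ b' ∈ box 0 N, T b b'
        ≤ ∑ b' ∈ box 0 N, ((if ldist b b' < L then a else 0) +
            c * ((ldist b b' : ℝ) + 1) ^ (-(1 / 4) : ℝ)) :=
          Finset.sum_le_sum fun b' hb' => hT b hb b' hb'
      _ = ∑ b' ∈ box 0 N, (if ldist b b' < L then a else 0) +
            c * ∑ b' ∈ box 0 N, ((ldist b b' : ℝ) + 1) ^ (-(1 / 4) : ℝ) := by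
          rw [Finset.sum_add_distrib, Finset.mul_sum]
      _ ≤ _ := by
          refine add_le_add ?_ (mul_le_mul_of_nonneg_left (pSumS_row hb) hc)
          rw [← Finset.sum_filter, Finset.sum_const, nsmul_eq_mul]
          refine mul_le_mul_of_nonneg_right ?_ ha
          exact_mod_cast pSumS_near (box 0 N) b L
  calc ∑ b ∈ box 0 N, ∑ b' ∈ box 0 N, T b b'
      ≤ ∑ _b ∈ box 0 N, (((2 * L + 1 : ℕ) : ℝ) ^ 2 * a +
        c * (8 * ((2 * N + 1 : ℕ) : ℝ) * ((2 * N + 1 : ℕ) : ℝ) ^ (3 / 4 : ℝ))) :=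
        Finset.sum_le_sum hrow
    _ = ((2 * N + 1 : ℕ) : ℝ) ^ 2 * (((2 * L + 1 : ℕ) : ℝ) ^ 2 * a +
        c * (8 * ((2 * N + 1 : ℕ) : ℝ) * ((2 * N + 1 : ℕ) : ℝ) ^ (3 / 4 : ℝ))) := by
        rw [Finset.sum_const, nsmul_eq_mul, pSumS_card_box]
        push_cast
        ring
    _ = _ := by
        generalize ((2 * N + 1 : ℕ) : ℝ) = m at hm0
        have h1 : m ^ (15 / 4 : ℝ) = m ^ (3 : ℝ) * m ^ (3 / 4 : ℝ) := by
          rw [← Real.rpow_add hm0]; norm_num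
        have h3 : m ^ (3 : ℝ) = m ^ 3 := by
          rw [← Real.rpow_natCast]; norm_num
        rw [h1, h3]
        ring

private lemma pSumS_rp (l : ℕ) (hl : 1 ≤ l) (t : ℝ) (ht0 : 0 ≤ t) (ht : t ≤ 4 / (l : ℝ)) :
    t ^ (1 / 4 : ℝ) ≤ 2 * ((l : ℝ) + 1) ^ (-(1 / 4) : ℝ) := by
  have hl' : (1 : ℝ) ≤ l := by exact_mod_cast hl
  have h1 : t ≤ 16 * ((l : ℝ) + 1)⁻¹ := by
    refine ht.trans ?_
    rw [div_le_iff₀ (by linarith), mul_assoc, ← div_eq_inv_mul, ← mul_div_assoc,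
      le_div_iff₀ (by linarith)]
    linarith
  have h2 : t ^ (1 / 4 : ℝ) ≤ (16 * ((l : ℝ) + 1)⁻¹) ^ (1 / 4 : ℝ) :=
    Real.rpow_le_rpow ht0 h1 (by norm_num)
  have h3 : (16 * ((l : ℝ) + 1)⁻¹) ^ (1 / 4 : ℝ) = 2 * ((l : ℝ) + 1) ^ (-(1 / 4) : ℝ) := by
    rw [Real.mul_rpow (by norm_num) (by positivity), Real.inv_rpow (by positivity),
      Real.rpow_neg (by positivity)]
    congr 1
    rw [show (16 : ℝ) = 2 ^ (4 : ℝ) by norm_num, ← Real.rpow_mul (by norm_num)]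
    norm_num
  rw [← h3]
  exact h2

/-! ### Geometry -/

private lemma pSumS_floor (x y δ : ℝ) (hδ : 0 < δ) :
    |x - y| ≤ δ * (((⌊x / δ⌋ - ⌊y / δ⌋).natAbs : ℝ) + 1) := by
  have h0 : (((⌊x / δ⌋ - ⌊y / δ⌋).natAbs : ℕ) : ℝ) = |((⌊x / δ⌋ : ℝ) - (⌊y / δ⌋ : ℝ))| := by
    rw [Nat.cast_natAbs]
    push_cast
    rfl
  rw [h0]
  have h1 := Int.floor_le (x / δ)
  have h2 := Int.lt_floor_add_one (x / δ)
  have h3 := Int.floor_le (y / δ)
  have h4 := Int.lt_floor_add_one (y / δ)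
  have h5 := le_abs_self ((⌊x / δ⌋ : ℝ) - (⌊y / δ⌋ : ℝ))
  have h6 := neg_abs_le ((⌊x / δ⌋ : ℝ) - (⌊y / δ⌋ : ℝ))
  have h7 : |x / δ - y / δ| ≤ |((⌊x / δ⌋ : ℝ) - (⌊y / δ⌋ : ℝ))| + 1 := by
    rw [abs_le]
    constructor <;> linarith
  have h8 : |x - y| = δ * |x / δ - y / δ| := by
    rw [← sub_div, abs_div, abs_of_pos hδ]
    field_simp
  rw [h8]
  exact mul_le_mul_of_nonneg_left h7 hδ.le

private lemma pSumS_ldist_ref (δ r : ℝ) (hδ : 0 < δ) (hr : 0 < r) (b b' : Pt) :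
    r * (ldist b b' : ℝ) ≤ δ * ((ldist (ref δ (cen r b)) (ref δ (cen r b')) : ℝ) + 1) := by
  have key : ∀ i j : ℤ, r * ((i - j).natAbs : ℝ) = |r * (i : ℝ) - r * j| := by
    intro i j
    rw [← mul_sub, abs_mul, abs_of_pos hr, Nat.cast_natAbs]
    push_cast
    rfl
  have hmax : ∀ k : ℕ, (k ≤ ldist (ref δ (cen r b)) (ref δ (cen r b'))) →
      δ * ((k : ℝ) + 1) ≤ δ * ((ldist (ref δ (cen r b)) (ref δ (cen r b')) : ℝ) + 1) := by
    intro k hk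
    have : (k : ℝ) ≤ (ldist (ref δ (cen r b)) (ref δ (cen r b')) : ℝ) := by exact_mod_cast hk
    exact mul_le_mul_of_nonneg_left (by linarith) hδ.le
  rcases max_choice (b.1 - b'.1).natAbs (b.2 - b'.2).natAbs with h | h
  · have h1 : ldist b b' = (b.1 - b'.1).natAbs := h
    rw [h1, key]
    refine (pSumS_floor _ _ δ hδ).trans (hmax _ ?_)
    exact le_max_left _ _
  · have h1 : ldist b b' = (b.2 - b'.2).natAbs := h
    rw [h1, key]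
    refine (pSumS_floor _ _ δ hδ).trans (hmax _ ?_)
    exact le_max_right _ _

private lemma pSumS_mem_ball {x y : ℝ × ℝ} {ρ : ℝ} (h1 : |y.1 - x.1| ≤ ρ) (h2 : |y.2 - x.2| ≤ ρ) :
    y ∈ closedBall x ρ := by
  rw [mem_closedBall, Prod.dist_eq, max_le_iff, Real.dist_eq, Real.dist_eq]
  exact ⟨h1, h2⟩

private lemma pSumS_box {Ω : Set (ℝ × ℝ)} {A δ : ℝ} (hδ : 0 < δ) (hA : Ω ⊆ closedBall 0 A)
    (x : ℝ × ℝ) (m : ℕ) (ρ : ℝ) (h : closedBall x ρ ⊆ Ω) (hm : δ * ((m : ℝ) + 1) ≤ ρ) :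
    LF (box (ref δ x) m) ⊆ DD Ω δ := by
  unfold DD
  apply MmUpSAux.LF_mono
  intro u hu
  rw [MmUpSAux.mem_faces hδ hA]
  intro y hy
  apply h
  unfold box ref at hu
  rw [Finset.mem_product, Finset.mem_Icc, Finset.mem_Icc] at hu
  have key : ∀ (X Y : ℝ) (i : ℤ), ⌊X / δ⌋ - (m : ℤ) ≤ i → i ≤ ⌊X / δ⌋ + (m : ℤ) →
      δ * (i : ℝ) ≤ Y → Y ≤ δ * ((i : ℝ) + 1) → |Y - X| ≤ ρ := by
    intro X Y i h1 h2 h3 h4
    have e1 : ((⌊X / δ⌋ : ℤ) : ℝ) - m ≤ (i : ℝ) := by exact_mod_cast h1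
    have e2 : (i : ℝ) ≤ ((⌊X / δ⌋ : ℤ) : ℝ) + m := by exact_mod_cast h2
    have e3 : δ * ((⌊X / δ⌋ : ℤ) : ℝ) ≤ X := by
      have := Int.floor_le (X / δ)
      rw [le_div_iff₀ hδ] at this
      linarith
    have e4 : X ≤ δ * (((⌊X / δ⌋ : ℤ) : ℝ) + 1) := by
      have := (Int.lt_floor_add_one (X / δ)).le
      rw [div_le_iff₀ hδ] at this
      linarith
    have e5 : δ * (((⌊X / δ⌋ : ℤ) : ℝ) - m) ≤ δ * (i : ℝ) := mul_le_mul_of_nonneg_left e1 hδ.le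
    have e6 : δ * (i : ℝ) ≤ δ * (((⌊X / δ⌋ : ℤ) : ℝ) + m) := mul_le_mul_of_nonneg_left e2 hδ.le
    rw [abs_le]
    constructor <;> linarith
  obtain ⟨⟨h1, h2⟩, h3, h4⟩ := hu
  obtain ⟨g1, g2, g3, g4⟩ := hy
  exact pSumS_mem_ball (key _ _ _ h1 h2 g1 g2) (key _ _ _ h3 h4 g3 g4)

/-- Either the function vanishes on the square or a large ball is contained in the domain. -/
private lemma pSumS_supp {Ω : Set (ℝ × ℝ)} {f : ℝ × ℝ → ℝ} (hΩ : IsOpen Ω) (hf : TestFn Ω f) :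
    ∃ ρ > 0, ∀ (r G : ℝ) (b : Pt), 0 < r → (G + 1) * r ≤ ρ →
      (∀ x ∈ sq r b, f x = 0) ∨ closedBall (cen r b) (G * r) ⊆ Ω := by
  obtain ⟨_, hc, hs⟩ := hf
  obtain ⟨ρ, hρ, h⟩ := hc.isCompact.exists_cthickening_subset_open hΩ hs
  refine ⟨ρ, hρ, ?_⟩
  intro r G b hr hG
  by_cases hx : ∃ x ∈ sq r b, f x ≠ 0
  · right
    obtain ⟨x, hx, hfx⟩ := hx
    have hxt : x ∈ tsupport f := subset_tsupport f hfx
    refine Set.Subset.trans ?_ ((closedBall_subset_cthickening hxt ρ).trans h)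
    apply closedBall_subset_closedBall'
    have hd : dist (cen r b) x ≤ r := by
      rw [dist_comm, ← mem_closedBall]
      obtain ⟨g1, g2, g3, g4⟩ := hx
      apply pSumS_mem_ball
      · show |x.1 - r * (b.1 : ℝ)| ≤ r
        rw [abs_le]
        constructor <;> nlinarith
      · show |x.2 - r * (b.2 : ℝ)| ≤ r
        rw [abs_le]
        constructor <;> nlinarith
    linarith
  · left
    push Not at hx
    exact hx

/-! ### Moments -/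

private lemma pSumS_zero (D : Finset Edge) (g : Finset Edge → ℝ) (hg : ∀ w, g w = 0) :
    lE D g = 0 := by
  unfold lE lpE
  simp [hg]

private lemma pSumS_nonneg (h6 : LEFacts) (D : Finset Edge) (g : Finset Edge → ℝ)
    (hg : ∀ w, 0 ≤ g w) : 0 ≤ lE D g := by
  have h1 : lE D (fun _ => 0) = 0 := pSumS_zero D _ fun _ => rfl
  calc (0 : ℝ) = lE D (fun _ => 0) := h1.symm
    _ ≤ lE D g := h6.2.2.1 D _ _ fun w _ _ => hg w

private lemma pSumS_DB_zero (p : Par) (δ : ℝ) (f : ℝ × ℝ → ℝ) (b : Pt)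
    (h : ∀ x ∈ sq p.r b, f x = 0) (w : Finset Edge) : DB p δ f b w = 0 := by
  classical
  have h1 : ∀ w, aV p δ f b w = 0 := by
    intro w
    unfold aV
    rw [Finset.sum_eq_zero, mul_zero]
    intro u hu
    rw [h _ (Finset.mem_filter.1 hu).2, zero_mul]
  have h2 : ∀ v, aB p δ f b v = 0 := by
    intro v
    unfold aB cE
    rw [pSumS_zero, zero_div]
    intro w
    show (if qB p δ b w = v then aV p δ f b (vB p δ b w) else 0) = 0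
    rw [h1]
    exact ite_self 0
  unfold DB XB
  rw [h1, h2, mul_zero, sub_zero]

private lemma pSumS_ep {p : Par} {δ : ℝ} {b : Pt} {w : Finset Edge}
    (h : ep p δ b w = 1 ∨ ep p δ b w = -1) : ep p δ b w ^ 2 = 1 := by
  rcases h with h | h <;> rw [h] <;> norm_num

private lemma pSumS_DB (h1 : Split) (h2 : CondE) (h6 : LEFacts) (p : Par) (δ : ℝ)
    (f : ℝ × ℝ → ℝ) (hp : p.Good) (hδ : 0 < δ) (h16 : 16 * δ ≤ p.r) (b : Pt)
    (hb : b ∈ Ix p.A p.r) :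
    lE (DD p.Ω δ) (fun w => DB p δ f b w ^ 2) ≤ lE (DD p.Ω δ) (fun w => aV p δ f b w ^ 2) := by
  have hS := (h1 p δ f hp hδ h16).2 b hb
  have hc := (h2 (St → ℕ) (DD p.Ω δ) (fun w => qB p δ b w)
    (fun w => aV p δ f b (vB p δ b w))).2.2.2
  refine le_trans (h6.2.2.1 _ _ _ ?_) (le_trans hc (h6.2.2.1 _ _ _ ?_))
  · intro w _ hw
    obtain ⟨e1, _, _, e4⟩ := hS w hw
    have e5 := pSumS_ep e4
    have e6 : DB p δ f b w ^ 2 = ep p δ b w ^ 2 *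
        (aV p δ f b (vB p δ b w) - aB p δ f b (qB p δ b w)) ^ 2 := by
      unfold DB XB
      rw [e1]
      ring
    rw [e6, e5, one_mul]
    exact le_rfl
  · intro w _ hw
    obtain ⟨e1, _, _, e4⟩ := hS w hw
    have e5 := pSumS_ep e4
    have e6 : aV p δ f b w ^ 2 = ep p δ b w ^ 2 * aV p δ f b (vB p δ b w) ^ 2 := by
      rw [e1]
      ring
    rw [e6, e5, one_mul]

open Classical in
private lemma pSumS_DBT (h1 : Split) (h2 : CondE) (h5 : TchQ) (h6 : LEFacts) (p : Par) (δ : ℝ)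
    (f : ℝ × ℝ → ℝ) (hp : p.Good) (hδ : 0 < δ) (h16 : 16 * δ ≤ p.r) (b b' : Pt)
    (hb : b ∈ Ix p.A p.r) (hb' : b' ∈ Ix p.A p.r) (hd : 2 ≤ ldist b b') :
    lE (DD p.Ω δ) (fun w => if Tch p δ b b' w then DB p δ f b w ^ 2 else 0) ≤
      4 * lE (DD p.Ω δ) (fun w => if Tch p δ b b' w then aV p δ f b w ^ 2 else 0) := by
  have hS := (h1 p δ f hp hδ h16).2 b hb
  have hT := h5 p δ hp hδ h16 b hb b' hb' hd
  obtain ⟨Cn, hCn⟩ : ∃ Cn : (St → ℕ) → Prop,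
      ∀ v, Cn v ↔ ∃ s : St, b ∈ s.1 ∧ b' ∈ s.1 ∧ v s ≠ 0 := ⟨_, fun _ => Iff.rfl⟩
  have hTC : ∀ w, Even' w → (Tch p δ b b' w ↔ Cn (qB p δ b w)) := fun w hw =>
    (hT w hw).trans (hCn _).symm
  have hc := (h2 (St → ℕ) (DD p.Ω δ) (fun w => qB p δ b w)
    (fun w => aV p δ f b (vB p δ b w))).2.1 Cn
  have hc2 : lE (DD p.Ω δ) (fun w => if Cn (qB p δ b w) then
      cE (DD p.Ω δ) (fun w => qB p δ b w) (fun w => aV p δ f b (vB p δ b w)) (qB p δ b w) ^ 2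
      else 0) ≤ lE (DD p.Ω δ) (fun w => if Tch p δ b b' w then aV p δ f b w ^ 2 else 0) := by
    refine le_trans hc (h6.2.2.1 _ _ _ ?_)
    intro w _ hw
    obtain ⟨e1, _, _, e4⟩ := hS w hw
    have e5 := pSumS_ep e4
    have e6 : aV p δ f b w ^ 2 = aV p δ f b (vB p δ b w) ^ 2 := by
      have : aV p δ f b w ^ 2 = ep p δ b w ^ 2 * aV p δ f b (vB p δ b w) ^ 2 := by
        rw [e1]
        ring
      rw [this, e5, one_mul]
    by_cases hh : Cn (qB p δ b w)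
    · rw [if_pos hh, if_pos ((hTC w hw).2 hh), e6]
    · rw [if_neg hh, if_neg (fun h => hh ((hTC w hw).1 h))]
  have hlin := h6.2.1 (DD p.Ω δ) 2 2
    (fun w => if Tch p δ b b' w then aV p δ f b w ^ 2 else 0)
    (fun w => if Cn (qB p δ b w) then
      cE (DD p.Ω δ) (fun w => qB p δ b w) (fun w => aV p δ f b (vB p δ b w)) (qB p δ b w) ^ 2
      else 0)
  refine le_trans (h6.2.2.1 _ _ _ ?_) (le_trans hlin.le (by linarith))
  intro w _ hw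
  obtain ⟨e1, _, _, e4⟩ := hS w hw
  have e5 := pSumS_ep e4
  by_cases hh : Cn (qB p δ b w)
  · rw [if_pos hh, if_pos ((hTC w hw).2 hh), if_pos ((hTC w hw).2 hh)]
    have e7 : DB p δ f b w ^ 2 ≤ 2 * aV p δ f b w ^ 2 +
        2 * (ep p δ b w ^ 2 * aB p δ f b (qB p δ b w) ^ 2) := by
      unfold DB XB
      nlinarith [sq_nonneg (aV p δ f b w + ep p δ b w * aB p δ f b (qB p δ b w))]
    rw [e5, one_mul] at e7
    exact e7
  · rw [if_neg hh, if_neg (fun h => hh ((hTC w hw).1 h)), if_neg (fun h => hh ((hTC w hw).1 h))]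
    linarith

private lemma pSumS_cauchy (h6 : LEFacts) (D : Finset Edge) (g g' : Finset Edge → ℝ) (c : ℝ)
    (hc : 0 ≤ c) (h1 : lE D (fun w => g w ^ 2) ≤ c) (h2 : lE D (fun w => g' w ^ 2) ≤ c) :
    |lE D (fun w => g w * g' w)| ≤ c := by
  apply abs_le_of_sq_le_sq _ hc
  refine (h6.2.2.2.1 D g g').trans ?_
  rw [pow_two]
  exact mul_le_mul h1 h2 (pSumS_nonneg h6 D _ fun w => sq_nonneg _) hc

/-! ### The event -/

private lemma pSumS_WJ (ε₁ : ℝ) (hε₁ : 0 < ε₁) (R₁ L₁ n₀ : ℕ)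
    (hW : ∀ (D : Finset Edge) (n : ℕ) (z z' : Pt), n₀ ≤ n →
      LF (box z (R₁ * n)) ⊆ D → LF (box z' (R₁ * n)) ⊆ D → L₁ * n ≤ ldist z z' →
      lP D (WJ z z' n) ≤ ε₁ * ((n : ℝ) / ldist z z') ^ (1 / 4 : ℝ))
    (Ω : Set (ℝ × ℝ)) (A r δ : ℝ) (hA : Ω ⊆ closedBall 0 A) (hr : 0 < r) (hδ : 0 < δ)
    (hδ' : ((n₀ : ℝ) + 16) * δ ≤ r) (b b' : Pt)
    (hb : closedBall (cen r b) ((2 * (R₁ : ℝ) + 2) * r) ⊆ Ω)
    (hb' : closedBall (cen r b') ((2 * (R₁ : ℝ) + 2) * r) ⊆ Ω)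
    (hl : 8 * L₁ + 8 ≤ ldist b b') :
    lP (DD Ω δ) (WJ (ref δ (cen r b)) (ref δ (cen r b')) (2 * ⌈r / (2 * δ)⌉₊ + 3)) ≤
      ε₁ * (2 * ((ldist b b' : ℝ) + 1) ^ (-(1 / 4) : ℝ)) := by
  obtain ⟨n, hn⟩ : ∃ n : ℕ, n = 2 * ⌈r / (2 * δ)⌉₊ + 3 := ⟨_, rfl⟩
  rw [← hn]
  have hn0 : (0 : ℝ) ≤ n₀ := Nat.cast_nonneg _
  have h16 : 16 * δ ≤ r := by nlinarith
  have hc1 : r / (2 * δ) ≤ (⌈r / (2 * δ)⌉₊ : ℝ) := Nat.le_ceil _
  have hc2 : (⌈r / (2 * δ)⌉₊ : ℝ) < r / (2 * δ) + 1 := Nat.ceil_lt_add_one (by positivity)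
  have hnr : (n : ℝ) = 2 * (⌈r / (2 * δ)⌉₊ : ℝ) + 3 := by
    rw [hn]
    push_cast
    ring
  have hdiv : δ * (r / (2 * δ)) = r / 2 := by
    field_simp
  have hn1 : r ≤ δ * (n : ℝ) := by
    rw [hnr]
    nlinarith [mul_le_mul_of_nonneg_left hc1 hδ.le]
  have hn2 : δ * (n : ℝ) ≤ r + 5 * δ := by
    rw [hnr]
    nlinarith [mul_le_mul_of_nonneg_left hc2.le hδ.le]
  have hn3 : δ * (n : ℝ) ≤ 2 * r := by linarith
  have hn0n : n₀ ≤ n := by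
    have : δ * (n₀ : ℝ) ≤ δ * (n : ℝ) := by nlinarith
    exact_mod_cast le_of_mul_le_mul_left this hδ
  have hR0 : (0 : ℝ) ≤ R₁ := Nat.cast_nonneg _
  have hL0 : (0 : ℝ) ≤ L₁ := Nat.cast_nonneg _
  have hm : δ * (((R₁ * n : ℕ) : ℝ) + 1) ≤ (2 * (R₁ : ℝ) + 2) * r := by
    push_cast
    nlinarith [mul_le_mul_of_nonneg_left hn3 hR0]
  have hlr : (8 * (L₁ : ℝ) + 8) ≤ (ldist b b' : ℝ) := by exact_mod_cast hl
  have hd := pSumS_ldist_ref δ r hδ hr b b'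
  obtain ⟨d, hd'⟩ : ∃ d : ℕ, d = ldist (ref δ (cen r b)) (ref δ (cen r b')) := ⟨_, rfl⟩
  obtain ⟨l, hl'⟩ : ∃ l : ℕ, l = ldist b b' := ⟨_, rfl⟩
  rw [← hd', ← hl'] at hd
  rw [← hl'] at hlr
  have hl1 : (8 : ℝ) ≤ l := by linarith
  have hrl : 8 * r ≤ r * l := by nlinarith
  have hdl : r * (l : ℝ) / 2 ≤ δ * (d : ℝ) := by
    have : δ * ((d : ℝ) + 1) = δ * d + δ := by ring
    rw [this] at hd
    linarith
  have hdpos : 0 < δ * (d : ℝ) := by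
    have : 0 < r * (l : ℝ) := by linarith
    linarith
  have hLn : L₁ * n ≤ d := by
    have h1 : δ * ((L₁ : ℝ) * n) ≤ δ * d := by
      have h2 : δ * ((L₁ : ℝ) * n) ≤ 2 * L₁ * r := by
        nlinarith [mul_le_mul_of_nonneg_left hn3 hL0]
      have h3 : 2 * (L₁ : ℝ) * r ≤ r * (l : ℝ) / 2 := by nlinarith
      linarith
    have h2 := le_of_mul_le_mul_left h1 hδ
    exact_mod_cast h2
  have h := hW (DD Ω δ) n (ref δ (cen r b)) (ref δ (cen r b')) hn0n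
    (pSumS_box hδ hA _ _ _ hb hm) (pSumS_box hδ hA _ _ _ hb' hm) (hd' ▸ hLn)
  refine h.trans (mul_le_mul_of_nonneg_left ?_ hε₁.le)
  rw [← hd', ← hl']
  have hd0 : (0 : ℝ) < d := (mul_pos_iff_of_pos_left hδ).1 hdpos
  refine pSumS_rp l (by
    have : (1 : ℝ) ≤ l := by linarith
    exact_mod_cast this) _ (by positivity) ?_
  rw [div_le_div_iff₀ hd0 (by linarith)]
  have h1 : δ * ((n : ℝ) * l) ≤ δ * (4 * d) := by
    have h2 : δ * ((n : ℝ) * l) ≤ 2 * r * l := by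
      have : (0 : ℝ) ≤ l := by linarith
      nlinarith [mul_le_mul_of_nonneg_right hn3 this]
    linarith
  exact le_of_mul_le_mul_left h1 hδ

/-! ### Numbers -/

private lemma pSumS_size (A r : ℝ) (hA : 0 < A) (hr : 0 < r) (hr1 : r ≤ 1) :
    r * ((2 * (⌈A / r⌉₊ + 2) + 1 : ℕ) : ℝ) ≤ 2 * A + 7 := by
  have h1 : (⌈A / r⌉₊ : ℝ) < A / r + 1 := Nat.ceil_lt_add_one (by positivity)
  have h2 : r * (A / r) = A := by field_simp
  have h3 := mul_le_mul_of_nonneg_left h1.le hr.le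
  push_cast
  nlinarith

private lemma pSumS_far_num (C M A r ε₁ ε : ℝ) (m : ℝ) (hC : 0 ≤ C) (hr : 0 < r) (hm : 0 < m)
    (hε₁0 : 0 ≤ ε₁)
    (hrm : r * m ≤ 2 * A + 7)
    (hε₁ : 64 * C * M ^ 2 * (2 * A + 7) ^ (15 / 4 : ℝ) * ε₁ ≤ ε / 2) :
    8 * (8 * C * M ^ 2 * r ^ (15 / 4 : ℝ) * ε₁) * m ^ (15 / 4 : ℝ) ≤ ε / 2 := by
  have h1 : r ^ (15 / 4 : ℝ) * m ^ (15 / 4 : ℝ) ≤ (2 * A + 7) ^ (15 / 4 : ℝ) := by
    rw [← Real.mul_rpow hr.le hm.le]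
    exact Real.rpow_le_rpow (by positivity) hrm (by norm_num)
  refine le_trans ?_ hε₁
  have h2 : 8 * (8 * C * M ^ 2 * r ^ (15 / 4 : ℝ) * ε₁) * m ^ (15 / 4 : ℝ) =
      64 * C * M ^ 2 * (r ^ (15 / 4 : ℝ) * m ^ (15 / 4 : ℝ)) * ε₁ := by ring
  rw [h2]
  exact mul_le_mul_of_nonneg_right (mul_le_mul_of_nonneg_left h1 (by positivity)) hε₁0

private lemma pSumS_near_num (C M A r ε : ℝ) (m l : ℝ) (hC : 0 ≤ C) (hA : 0 < A) (hr : 0 < r)
    (hr1 : r ≤ 1) (hm : 0 < m)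
    (hrm : r * m ≤ 2 * A + 7) (hK : l ^ 2 * C * M ^ 2 * (2 * A + 7) ^ 2 * r ≤ ε / 2) :
    m ^ 2 * (l ^ 2 * (C * M ^ 2 * r ^ (15 / 4 : ℝ))) ≤ ε / 2 := by
  have h1 : r ^ (15 / 4 : ℝ) ≤ r ^ 2 * r := by
    have h3 : r ^ (15 / 4 : ℝ) ≤ r ^ (3 : ℝ) :=
      Real.rpow_le_rpow_of_exponent_ge hr hr1 (by norm_num)
    have h4 : r ^ (3 : ℝ) = r ^ 3 := by
      rw [← Real.rpow_natCast]; norm_num
    rw [h4] at h3
    calc r ^ (15 / 4 : ℝ) ≤ r ^ 3 := h3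
      _ = r ^ 2 * r := by ring
  have h2 : (r * m) ^ 2 ≤ (2 * A + 7) ^ 2 := by
    have : 0 ≤ r * m := by positivity
    exact pow_le_pow_left₀ this hrm 2
  refine le_trans ?_ hK
  calc m ^ 2 * (l ^ 2 * (C * M ^ 2 * r ^ (15 / 4 : ℝ)))
      ≤ m ^ 2 * (l ^ 2 * (C * M ^ 2 * (r ^ 2 * r))) := by
        gcongr
    _ = l ^ 2 * C * M ^ 2 * (r * m) ^ 2 * r := by ring
    _ ≤ l ^ 2 * C * M ^ 2 * (2 * A + 7) ^ 2 * r := by
        gcongr

open Classical in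
theorem pSumS (h1 : Split) (h2 : CondE) (h3 : MomS) (h4 : TchBS) (h5 : TchQ) (h6 : LEFacts) :
    PSumS := by
  intro hMm hWJ Ω A M f hΩ hΩc hA0 hA hf hM ε hε
  obtain ⟨C₁, hC₁, hmom⟩ := h3 hMm
  obtain ⟨C₂, hC₂, htch⟩ := h4 hMm
  have hB : 0 ≤ 64 * C₂ * M ^ 2 * (2 * A + 7) ^ (15 / 4 : ℝ) := by positivity
  obtain ⟨ε₁, hε₁, hε₁'⟩ : ∃ ε₁ > 0,
      64 * C₂ * M ^ 2 * (2 * A + 7) ^ (15 / 4 : ℝ) * ε₁ ≤ ε / 2 := by
    generalize 64 * C₂ * M ^ 2 * (2 * A + 7) ^ (15 / 4 : ℝ) = q at hB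
    refine ⟨ε / (2 * (q + 1)), by positivity, ?_⟩
    rw [mul_div_assoc', div_le_div_iff₀ (by positivity) (by norm_num)]
    nlinarith
  obtain ⟨R₁, L₁, n₀, hW⟩ := hWJ.2 ε₁ hε₁
  obtain ⟨ρ, hρ, hsupp⟩ := pSumS_supp hΩ hf
  obtain ⟨L, hL⟩ : ∃ L : ℕ, L = 8 * L₁ + 8 := ⟨_, rfl⟩
  have hK : 0 ≤ ((2 * L + 1 : ℕ) : ℝ) ^ 2 * C₁ * M ^ 2 * (2 * A + 7) ^ 2 := by positivity
  obtain ⟨r₁, hr₁, hr₁'⟩ : ∃ r₁ > 0, ∀ r : ℝ, 0 < r → r < r₁ →
      ((2 * L + 1 : ℕ) : ℝ) ^ 2 * C₁ * M ^ 2 * (2 * A + 7) ^ 2 * r ≤ ε / 2 := by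
    generalize ((2 * L + 1 : ℕ) : ℝ) ^ 2 * C₁ * M ^ 2 * (2 * A + 7) ^ 2 = q at hK
    refine ⟨ε / (2 * (q + 1)), by positivity, ?_⟩
    intro r hr hr'
    rw [lt_div_iff₀ (by positivity)] at hr'
    nlinarith
  have hG0 : (0 : ℝ) < 2 * (R₁ : ℝ) + 2 + 1 := by positivity
  refine ⟨min (min 1 (ρ / (2 * (R₁ : ℝ) + 2 + 1))) r₁,
    lt_min (lt_min one_pos (div_pos hρ hG0)) hr₁, ?_⟩
  intro r hr hr'
  rw [lt_min_iff, lt_min_iff] at hr'
  obtain ⟨⟨hr1, hr2⟩, hr3⟩ := hr'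
  refine ⟨L, by omega, r / ((n₀ : ℝ) + 16), by positivity, ?_⟩
  intro δ hδ hδ' R κ η S hp
  have hGr : (2 * (R₁ : ℝ) + 2 + 1) * r ≤ ρ := by
    rw [lt_div_iff₀ hG0] at hr2
    linarith
  have hnδ : ((n₀ : ℝ) + 16) * δ ≤ r := by
    rw [lt_div_iff₀ (by positivity)] at hδ'
    linarith
  have h16 : 16 * δ ≤ r := by
    have : (0 : ℝ) ≤ n₀ := Nat.cast_nonneg _
    nlinarith
  have hr15 : 0 < r ^ (15 / 4 : ℝ) := Real.rpow_pos_of_pos hr _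
  have ha : 0 ≤ C₁ * M ^ 2 * r ^ (15 / 4 : ℝ) := by positivity
  have hc : 0 ≤ 8 * C₂ * M ^ 2 * r ^ (15 / 4 : ℝ) * ε₁ := by positivity
  refine le_trans (pSumS_total (⌈A / r⌉₊ + 2) L (C₁ * M ^ 2 * r ^ (15 / 4 : ℝ))
    (8 * C₂ * M ^ 2 * r ^ (15 / 4 : ℝ) * ε₁) ha hc _ ?_) ?_
  · intro b hb b' hb'
    have hpow : 0 ≤ ((ldist b b' : ℝ) + 1) ^ (-(1 / 4) : ℝ) := by positivity
    have hbd : 0 ≤ (if ldist b b' < L then C₁ * M ^ 2 * r ^ (15 / 4 : ℝ) else 0) +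
        8 * C₂ * M ^ 2 * r ^ (15 / 4 : ℝ) * ε₁ * ((ldist b b' : ℝ) + 1) ^ (-(1 / 4) : ℝ) := by
      refine add_nonneg ?_ (mul_nonneg hc hpow)
      split_ifs
      · exact ha
      · exact le_rfl
    have hz : ∀ a : Pt, (a = b ∨ a = b') →
        (∀ w, DB ⟨Ω, A, r, R, κ, η, S⟩ δ f a w = 0) →
        (if ldist b b' < L then
          |lE (DD Ω δ) (fun w => DB ⟨Ω, A, r, R, κ, η, S⟩ δ f b w *
            DB ⟨Ω, A, r, R, κ, η, S⟩ δ f b' w)|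
        else |lE (DD Ω δ) (fun w => if Tch ⟨Ω, A, r, R, κ, η, S⟩ δ b b' w then
          DB ⟨Ω, A, r, R, κ, η, S⟩ δ f b w * DB ⟨Ω, A, r, R, κ, η, S⟩ δ f b' w else 0)|) = 0 := by
      intro a hab h0
      have h00 : ∀ w, DB ⟨Ω, A, r, R, κ, η, S⟩ δ f b w *
          DB ⟨Ω, A, r, R, κ, η, S⟩ δ f b' w = 0 := by
        intro w
        rcases hab with h | h
        · rw [← h, h0, zero_mul]
        · rw [← h, h0, mul_zero]
      split_ifs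
      · rw [pSumS_zero _ _ h00, abs_zero]
      · rw [pSumS_zero _ _ (fun w => by rw [h00, ite_self]), abs_zero]
    rcases hsupp r (2 * (R₁ : ℝ) + 2) b hr hGr with hb0 | hb0
    · rw [hz b (Or.inl rfl) (pSumS_DB_zero ⟨Ω, A, r, R, κ, η, S⟩ δ f b hb0)]
      exact hbd
    rcases hsupp r (2 * (R₁ : ℝ) + 2) b' hr hGr with hb1 | hb1
    · rw [hz b' (Or.inr rfl) (pSumS_DB_zero ⟨Ω, A, r, R, κ, η, S⟩ δ f b' hb1)]
      exact hbd
    have hball : ∀ a : Pt, closedBall (cen r a) ((2 * (R₁ : ℝ) + 2) * r) ⊆ Ω →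
        closedBall (cen r a) (2 * r) ⊆ Ω := by
      intro a h
      refine Set.Subset.trans (closedBall_subset_closedBall ?_) h
      have : (0 : ℝ) ≤ R₁ := Nat.cast_nonneg _
      nlinarith
    have hDB : ∀ a ∈ Ix A r, closedBall (cen r a) ((2 * (R₁ : ℝ) + 2) * r) ⊆ Ω →
        lE (DD Ω δ) (fun w => DB ⟨Ω, A, r, R, κ, η, S⟩ δ f a w ^ 2) ≤
          C₁ * M ^ 2 * r ^ (15 / 4 : ℝ) := by
      intro a ha' h
      exact (pSumS_DB h1 h2 h6 ⟨Ω, A, r, R, κ, η, S⟩ δ f hp hδ h16 a ha').trans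
        (hmom ⟨Ω, A, r, R, κ, η, S⟩ δ f M a hp hΩc hδ h16 (hball a h) hM).1
    by_cases hlt : ldist b b' < L
    · rw [if_pos hlt, if_pos hlt]
      have h7 := pSumS_cauchy h6 (DD Ω δ) (fun w => DB ⟨Ω, A, r, R, κ, η, S⟩ δ f b w)
        (fun w => DB ⟨Ω, A, r, R, κ, η, S⟩ δ f b' w) _ ha (hDB b hb hb0) (hDB b' hb' hb1)
      exact h7.trans (le_add_of_nonneg_right (mul_nonneg hc hpow))
    · rw [if_neg hlt, if_neg hlt, zero_add]
      have hle : 8 * L₁ + 8 ≤ ldist b b' := by omega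
      have hDT : ∀ a ∈ Ix A r, ∀ a' ∈ Ix A r,
          closedBall (cen r a) ((2 * (R₁ : ℝ) + 2) * r) ⊆ Ω →
          closedBall (cen r a') ((2 * (R₁ : ℝ) + 2) * r) ⊆ Ω → 8 * L₁ + 8 ≤ ldist a a' →
          lE (DD Ω δ) (fun w => if Tch ⟨Ω, A, r, R, κ, η, S⟩ δ a a' w then
            DB ⟨Ω, A, r, R, κ, η, S⟩ δ f a w ^ 2 else 0) ≤
          8 * C₂ * M ^ 2 * r ^ (15 / 4 : ℝ) * ε₁ * ((ldist a a' : ℝ) + 1) ^ (-(1 / 4) : ℝ) := by
        intro a ha' a' ha'' g1 g2 g3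
        have e1 := pSumS_DBT h1 h2 h5 h6 ⟨Ω, A, r, R, κ, η, S⟩ δ f hp hδ h16 a a' ha' ha''
          (by omega)
        have e2 := htch ⟨Ω, A, r, R, κ, η, S⟩ δ f M a a' hp hΩc hδ h16 (hball a g1) hM (by omega)
        have e3 := pSumS_WJ ε₁ hε₁ R₁ L₁ n₀ hW Ω A r δ hA hr hδ hnδ a a' g1 g2 g3
        have e4 : 0 ≤ C₂ * M ^ 2 * r ^ (15 / 4 : ℝ) := by positivity
        have e5 := mul_le_mul_of_nonneg_left e3 e4
        calc _ ≤ _ := e1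
          _ ≤ 4 * (C₂ * M ^ 2 * r ^ (15 / 4 : ℝ) *
              (ε₁ * (2 * ((ldist a a' : ℝ) + 1) ^ (-(1 / 4) : ℝ)))) :=
            mul_le_mul_of_nonneg_left (e2.trans e5) (by norm_num)
          _ = _ := by ring
      have g1 := hDT b hb b' hb' hb0 hb1 hle
      have g2 := hDT b' hb' b hb hb1 hb0 (by rw [pSumS_ldist_comm]; exact hle)
      rw [pSumS_ldist_comm b' b] at g2
      have g3 : (fun w => if Tch ⟨Ω, A, r, R, κ, η, S⟩ δ b b' w then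
          DB ⟨Ω, A, r, R, κ, η, S⟩ δ f b w * DB ⟨Ω, A, r, R, κ, η, S⟩ δ f b' w else 0) =
          fun w => (if Tch ⟨Ω, A, r, R, κ, η, S⟩ δ b b' w then
            DB ⟨Ω, A, r, R, κ, η, S⟩ δ f b w else 0) *
            (if Tch ⟨Ω, A, r, R, κ, η, S⟩ δ b b' w then
            DB ⟨Ω, A, r, R, κ, η, S⟩ δ f b' w else 0) := by
        funext w
        by_cases h : Tch ⟨Ω, A, r, R, κ, η, S⟩ δ b b' w
        · rw [if_pos h, if_pos h, if_pos h]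
        · rw [if_neg h, if_neg h, zero_mul]
      rw [g3]
      refine pSumS_cauchy h6 _ _ _ _ (mul_nonneg hc hpow) ?_ ?_
      · refine le_trans (le_of_eq ?_) g1
        congr 1
        funext w
        by_cases h : Tch ⟨Ω, A, r, R, κ, η, S⟩ δ b b' w
        · rw [if_pos h, if_pos h]
        · rw [if_neg h, if_neg h]
          norm_num
      · refine le_trans (le_of_eq ?_) g2
        congr 1
        funext w
        by_cases h : Tch ⟨Ω, A, r, R, κ, η, S⟩ δ b b' w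
        · rw [if_pos h, if_pos ((pSumS_Tch_symm _ _ _ _ _).1 h)]
        · rw [if_neg h, if_neg (fun h' => h ((pSumS_Tch_symm _ _ _ _ _).1 h'))]
          norm_num
  · have hs := pSumS_size A r hA0 hr hr1.le
    have hm : (0 : ℝ) < ((2 * (⌈A / r⌉₊ + 2) + 1 : ℕ) : ℝ) := by positivity
    have e1 := pSumS_far_num C₂ M A r ε₁ ε _ hC₂ hr hm hε₁.le hs hε₁'
    have e2 := pSumS_near_num C₁ M A r ε _ ((2 * L + 1 : ℕ) : ℝ) hC₁ hA0 hr hr1.le hm hs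
      (hr₁' r hr hr3)
    linarith

end Pool.Agent.Lib.MP_6d40c9_pr
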