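import Pool.Agent.Lib.MP_6d40c9_pr.SpecP

/-!
# MP_6d40c9_pr: geometry of a pair of squares (`PairGeo`)
-/

set_option autoImplicit false

namespace Pool.Agent.Lib.MP_6d40c9_pr

open Finset MeasureTheory Filter Topology TopologicalSpace Metric
open scoped BigOperators symmDiff

private lemma pairGeo_seg_K1 {δ : ℝ} {c : Finset Edge} {e : Edge} (he : e ∈ c) :
    seg δ e ⊆ K1 δ c := fun _ hx => Set.mem_iUnion₂.mpr ⟨e, he, hx⟩

private lemma pairGeo_K1_mem {δ : ℝ} {c : Finset Edge} {x : ℝ × ℝ} (hx : x ∈ K1 δ c) :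
    ∃ e ∈ c, x ∈ seg δ e := by
  obtain ⟨e, he, h⟩ := Set.mem_iUnion₂.mp hx
  exact ⟨e, he, h⟩

private lemma pairGeo_diam (h2 : GeoFacts) {δ : ℝ} (hδ : 0 < δ) {c : Finset Edge} {x y : ℝ × ℝ}
    (hx : x ∈ K1 δ c) (hy : y ∈ K1 δ c) : dist x y ≤ diam (K1 δ c) :=
  dist_le_diam_of_mem (h2.1 δ c hδ).1.isBounded hx hy

private lemma pairGeo_comps (h1 : CompFacts) (p : Par) (δ : ℝ) (b : Pt) (w c : Finset Edge) :
    (c ∈ comps (vB p δ b w) ↔ c ∈ comps w ∧ ∃ a ∈ c, tB p δ b a) ∧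
    (c ∈ comps (w \ vB p δ b w) ↔ c ∈ comps w ∧ ∀ a ∈ c, ¬ tB p δ b a) :=
  ⟨(h1.2.2.2.1 (tB p δ b) w).2.2.2.2.1 c, (h1.2.2.2.1 (tB p δ b) w).2.2.2.2.2 c⟩

private lemma pairGeo_near {η : ℝ} (hη : 0 < η) (a : ℝ) : |a - η * (round (a / η) : ℤ)| ≤ η / 2 := by
  have h := abs_sub_round (a / η)
  have e : a - η * (round (a / η) : ℤ) = η * (a / η - (round (a / η) : ℤ)) := by
    field_simp
  rw [e, abs_mul, abs_of_pos hη]
  nlinarith

private lemma pairGeo_mem_Ix {A η : ℝ} (hη : 0 < η) (a : ℝ) (ha : |a| ≤ A) :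
    |round (a / η)| ≤ ((⌈A / η⌉₊ + 2 : ℕ) : ℤ) := by
  have h := abs_sub_round (a / η)
  have h1 : |a / η| ≤ A / η := by
    rw [abs_div, abs_of_pos hη]
    exact div_le_div_of_nonneg_right ha hη.le
  have h2 : A / η ≤ (⌈A / η⌉₊ : ℝ) := Nat.le_ceil _
  have h3 : |((round (a / η) : ℤ) : ℝ)| ≤ ((⌈A / η⌉₊ + 2 : ℕ) : ℝ) := by
    push_cast
    rw [abs_le] at h h1 ⊢
    constructor <;> linarith [h.1, h.2, h1.1, h1.2]
  have h4 : ((|round (a / η)| : ℤ) : ℝ) ≤ (((⌈A / η⌉₊ + 2 : ℕ) : ℤ) : ℝ) := by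
    push_cast at h3 ⊢
    exact h3
  exact_mod_cast h4

private lemma pairGeo_lattice {A η : ℝ} (hη : 0 < η) (y : ℝ × ℝ)
    (hy : y ∈ closedBall (0 : ℝ × ℝ) A) : ∃ β ∈ Ix A η, dist y (cen η β) ≤ η / 2 := by
  refine ⟨(round (y.1 / η), round (y.2 / η)), ?_, ?_⟩
  · rw [mem_closedBall, dist_zero_right] at hy
    have e1 : |y.1| ≤ A := (norm_fst_le y).trans hy
    have e2 : |y.2| ≤ A := (norm_snd_le y).trans hy
    have f1 := abs_le.mp (pairGeo_mem_Ix hη y.1 e1)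
    have f2 := abs_le.mp (pairGeo_mem_Ix hη y.2 e2)
    unfold Ix box
    rw [Finset.mem_product, Finset.mem_Icc, Finset.mem_Icc]
    simp only [Prod.fst_zero, Prod.snd_zero, zero_sub, zero_add]
    exact ⟨f1, f2⟩
  · rw [Prod.dist_eq]
    refine max_le ?_ ?_
    · rw [Real.dist_eq]
      exact pairGeo_near hη y.1
    · rw [Real.dist_eq]
      exact pairGeo_near hη y.2

/-- `K1 δ V ⊆ U`. -/
private lemma pairGeo_in (h1 : CompFacts) (h2 : GeoFacts) {p : Par} {δ : ℝ} {b : Pt}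
    {w : Finset Edge} (hp : p.Good) (hδ : 0 < δ) (hw : w ⊆ DD p.Ω δ) :
    K1 δ (vB p δ b w) ⊆ Uq p b (qB p δ b w) := by
  classical
  intro y hy
  obtain ⟨e, he, hye⟩ := pairGeo_K1_mem hy
  obtain ⟨c, hc, hec⟩ := (h1.1 (vB p δ b w)).2.2 e he
  have hcw := (pairGeo_comps h1 p δ b w c).1.mp hc
  have hyc : y ∈ K1 δ c := pairGeo_seg_K1 hec hye
  by_cases hd : p.κ ≤ diam (K1 δ c)
  · right
    have hyΩ : y ∈ p.Ω := by
      have hb : Bornology.IsBounded p.Ω := isBounded_closedBall.subset hp.hΩ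
      have hew : e ∈ w := (h1.2.2.2.1 (tB p δ b) w).1 he
      exact h2.2.2.2.2.2.1 p.Ω δ hb hδ e (hw hew) hye
    obtain ⟨β, hβ, hd1⟩ := pairGeo_lattice hp.hη y (hp.hΩ hyΩ)
    refine Set.mem_iUnion₂.mpr ⟨stat p (K1 δ c) (K2 δ c), ?_, Set.mem_iUnion₂.mpr ⟨β, ?_, ?_⟩⟩
    · show qB p δ b w (stat p (K1 δ c) (K2 δ c)) ≠ 0
      unfold qB nst
      rw [Finset.card_ne_zero]
      exact ⟨c, Finset.mem_filter.mpr ⟨hc, hd, rfl⟩⟩
    · show β ∈ (Ix p.A p.η).filter fun β => infDist (cen p.η β) (K1 δ c) ≤ p.S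
      refine Finset.mem_filter.mpr ⟨hβ, ?_⟩
      have h3 : infDist (cen p.η β) (K1 δ c) ≤ dist (cen p.η β) y := infDist_le_dist_of_mem hyc
      rw [dist_comm] at h3
      linarith [hp.hS]
    · exact mem_closedBall.mpr hd1
  · left
    obtain ⟨a, hac, x, hx1, hx2⟩ := hcw.2
    have hxc : x ∈ K1 δ c := pairGeo_seg_K1 hac hx1
    have h3 := pairGeo_diam h2 hδ hyc hxc
    rw [mem_closedBall] at hx2 ⊢
    have h4 := dist_triangle y x (cen p.r b)
    rw [not_le] at hd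
    linarith

/-- Points of `U`. -/
private lemma pairGeo_out (h1 : CompFacts) (h2 : GeoFacts) {p : Par} {δ : ℝ} {b : Pt}
    {w : Finset Edge} (hp : p.Good) (hδ : 0 < δ) {y : ℝ × ℝ} (hy : y ∈ Uq p b (qB p δ b w)) :
    y ∈ closedBall (cen p.r b) (p.R + p.κ) ∨ ∃ c' ∈ comps (vB p δ b w),
      p.κ ≤ diam (K1 δ c') ∧ ∃ y' ∈ K1 δ c', dist y y' ≤ 2 * p.η := by
  classical
  rcases hy with hy | hy
  · exact Or.inl hy
  · right
    obtain ⟨s, hs, hy⟩ := Set.mem_iUnion₂.mp hy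
    obtain ⟨β, hβ, hy⟩ := Set.mem_iUnion₂.mp hy
    have hs' : nst p δ (vB p δ b w) s ≠ 0 := hs
    unfold nst at hs'
    rw [Finset.card_ne_zero] at hs'
    obtain ⟨c, hc⟩ := hs'
    obtain ⟨hc1, hc2, hc3⟩ := Finset.mem_filter.mp hc
    refine ⟨c, hc1, hc2, ?_⟩
    rw [← hc3] at hβ
    have hβ' : β ∈ (Ix p.A p.η).filter fun β => infDist (cen p.η β) (K1 δ c) ≤ p.S := hβ
    have hβ2 := (Finset.mem_filter.mp hβ').2
    have hne : (K1 δ c).Nonempty := (h2.1 δ c hδ).2.1 ((h1.1 (vB p δ b w)).1 c hc1).2.1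
    obtain ⟨y', hy', hd⟩ := (h2.1 δ c hδ).1.exists_infDist_eq_dist hne (cen p.η β)
    refine ⟨y', hy', ?_⟩
    rw [mem_closedBall] at hy
    rw [hd] at hβ2
    have h4 := dist_triangle y (cen p.η β) y'
    linarith [hp.hS', hp.hη]

private lemma pairGeo_U_ne (p : Par) (hp : p.Good) (b : Pt) (v : St → ℕ) : (Uq p b v).Nonempty := by
  refine ⟨cen p.r b, Or.inl ?_⟩
  rw [mem_closedBall, dist_self]
  have := hp.hR
  have := hp.hr
  have := hp.hκ
  linarith

private lemma pairGeo_cen {r : ℝ} (hr : 0 < r) {b b' : Pt} (h : 2 ≤ ldist b b') :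
    2 * r ≤ dist (cen r b) (cen r b') := by
  unfold ldist at h
  have key : ∀ m n : ℤ, 2 ≤ (m - n).natAbs → 2 * r ≤ dist (r * (m : ℝ)) (r * (n : ℝ)) := by
    intro m n hmn
    have h3 : (2 : ℤ) ≤ |m - n| := by
      rw [← Int.natCast_natAbs]
      exact_mod_cast hmn
    have h4 : (2 : ℝ) ≤ |(m : ℝ) - n| := by exact_mod_cast h3
    rw [Real.dist_eq, ← mul_sub, abs_mul, abs_of_pos hr]
    nlinarith
  rw [Prod.dist_eq]
  rcases le_max_iff.mp h with h | h
  · exact le_max_of_le_left (key _ _ h)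
  · exact le_max_of_le_right (key _ _ h)

private lemma pairGeo_adj {δ : ℝ} (hδ : 0 < δ) {a e : Edge} (h : adjE a e) :
    (seg δ a ∩ seg δ e).Nonempty := by
  have hs : ∀ e : Edge, ((δ * (src e).1, δ * (src e).2) : ℝ × ℝ) ∈ seg δ e ∧
      ((δ * (tgt e).1, δ * (tgt e).2) : ℝ × ℝ) ∈ seg δ e := by
    intro e
    have k1 : (src e).1 ≤ (tgt e).1 := by
      unfold src tgt
      split_ifs <;> simp
    have k2 : (src e).2 ≤ (tgt e).2 := by
      unfold src tgt
      split_ifs <;> simp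
    have k1' : δ * ((src e).1 : ℝ) ≤ δ * ((tgt e).1 : ℝ) :=
      mul_le_mul_of_nonneg_left (by exact_mod_cast k1) hδ.le
    have k2' : δ * ((src e).2 : ℝ) ≤ δ * ((tgt e).2 : ℝ) :=
      mul_le_mul_of_nonneg_left (by exact_mod_cast k2) hδ.le
    exact ⟨⟨le_rfl, k1', le_rfl, k2'⟩, ⟨k1', le_rfl, k2', le_rfl⟩⟩
  rcases h with h | h | h | h
  · exact ⟨_, (hs a).1, by rw [h]; exact (hs e).1⟩
  · exact ⟨_, (hs a).1, by rw [h]; exact (hs e).2⟩
  · exact ⟨_, (hs a).2, by rw [h]; exact (hs e).1⟩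
  · exact ⟨_, (hs a).2, by rw [h]; exact (hs e).2⟩

private lemma pairGeo_conn_mono {w w' : Finset Edge} (h : w ⊆ w') {a b : Edge} (hc : connE w a b) :
    connE w' a b := by
  unfold connE at hc ⊢
  induction hc with
  | refl => exact Relation.ReflTransGen.refl
  | tail _ hx ih => exact ih.tail ⟨h hx.1, hx.2⟩

private lemma pairGeo_ne (h1 : CompFacts) {V w c c' : Finset Edge}
    (hc : c ∈ comps (w \ V)) (hc' : c' ∈ comps V) : c ≠ c' := by
  rintro rfl
  obtain ⟨e, he⟩ := ((h1.1 V).1 c hc').2.1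
  have k1 := ((h1.1 V).1 c hc').1 he
  have k2 := ((h1.1 (w \ V)).1 c hc).1 he
  exact (Finset.mem_sdiff.mp k2).2 k1

/-- The event `E2` from a component without edge satisfying `Tq` far from the ball. -/
private lemma pairGeo_E2 (h1 : CompFacts) (h2 : GeoFacts) {p : Par} {δ ρ ρ₁ : ℝ} {b : Pt}
    {w c : Finset Edge} (hp : p.Good) (hδ : 0 < δ) (e1 : 4 * p.η ≤ p.κ) (e2 : p.κ ≤ ρ)
    (e3 : 4 * ρ ≤ ρ₁) (hc : c ∈ comps (w \ vB p δ b w))
    (hT : ∀ a ∈ c, ¬ Tq p δ ρ b (qB p δ b w) a) {x : ℝ × ℝ} (hx : x ∈ K1 δ c)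
    (hxd : p.R + 3 * ρ₁ < dist x (cen p.r b)) (hd : ρ₁ ≤ diam (K1 δ c)) : E2 δ ρ₁ (3 * ρ) w := by
  have hκ := hp.hκ
  have hη := hp.hη
  obtain ⟨a, ha, hxa⟩ := pairGeo_K1_mem hx
  have h3 : infDist x (Uq p b (qB p δ b w)) < ρ := by
    by_contra hcon
    exact hT a ha ⟨x, hxa, not_lt.mp hcon⟩
  obtain ⟨y, hy, hxy⟩ := (infDist_lt_iff (pairGeo_U_ne p hp b _)).mp h3
  rcases pairGeo_out h1 h2 hp hδ hy with h4 | ⟨c', hc', hd', y', hy', hyy⟩
  · rw [mem_closedBall] at h4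
    have := dist_triangle x y (cen p.r b)
    linarith
  · have hcw' := (pairGeo_comps h1 p δ b w c').1.mp hc'
    have hcw := (pairGeo_comps h1 p δ b w c).2.mp hc
    obtain ⟨a', ha', z, hz1, hz2⟩ := hcw'.2
    rw [mem_closedBall] at hz2
    have hzc : z ∈ K1 δ c' := pairGeo_seg_K1 ha' hz1
    have t1 := dist_triangle x y y'
    have t2 := dist_triangle x y' (cen p.r b)
    have t3 := dist_triangle y' z (cen p.r b)
    have t4 := pairGeo_diam h2 hδ hy' hzc
    refine ⟨c, hcw.1, c', hcw'.1, pairGeo_ne h1 hc hc', hd, ?_, x, hx, y', hy', ?_⟩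
    · linarith
    · linarith

private lemma pairGeo_sgn_union {A B : Finset Edge} (h : Disjoint A B) (u : Pt) :
    sgn (A ∪ B) u = sgn A u * sgn B u := by
  unfold sgn cnt
  rw [Finset.filter_union, Finset.card_union_of_disjoint, pow_add]
  exact Finset.disjoint_filter_filter h

private lemma pairGeo_sgn_one (h1 : CompFacts) (w : Finset Edge) (u : Pt)
    (h : ∀ c ∈ comps w, ¬ Odd (cnt c u)) : sgn w u = 1 := by
  rw [h1.2.2.1 w u]
  refine Finset.prod_eq_one fun c hc => ?_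
  unfold sgn
  exact (Nat.not_odd_iff_even.mp (h c hc)).neg_one_pow

private lemma pairGeo_comps_ext (h1 : CompFacts) {w w' : Finset Edge}
    (h : ∀ c, c ∈ comps w ↔ c ∈ comps w') : w = w' := by
  ext e
  constructor
  · intro he
    obtain ⟨c, hc, hec⟩ := (h1.1 w).2.2 e he
    exact ((h1.1 w').1 c ((h c).mp hc)).1 hec
  · intro he
    obtain ⟨c, hc, hec⟩ := (h1.1 w').2.2 e he
    exact ((h1.1 w).1 c ((h c).mpr hc)).1 hec

theorem pairGeo (h1 : CompFacts) (h2 : GeoFacts) (h3 : Split) : PairGeo := by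
  classical
  intro p δ f T ρ ρ₁ hp hδ hδr hT e1 e2 e3 e4 b hb b' hb' hbb w hw hev
  have hκ := hp.hκ
  have hη := hp.hη
  have hr := hp.hr
  have hR := hp.hR
  have hR' := hp.hR'
  have hρ : 0 < ρ := lt_of_lt_of_le hκ e2
  have hin : K1 δ (vB p δ b w) ⊆ Uq p b (qB p δ b w) := pairGeo_in h1 h2 hp hδ hw
  have hcen := pairGeo_cen hr hbb
  have hVw : vB p δ b w ⊆ w := (h1.2.2.2.1 (tB p δ b) w).1
  refine ⟨?_, ?_, ?_, ?_, ?_⟩
  · intro e he
    obtain ⟨heD, heM⟩ := Finset.mem_sdiff.mp he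
    have hno : ¬ (seg δ e ∩ Uq p b (qB p δ b w)).Nonempty := fun h =>
      heM (Finset.mem_filter.mpr ⟨heD, h⟩)
    refine Finset.mem_filter.mpr ⟨heD, ?_, ?_⟩
    · rintro ⟨x, hx1, hx2⟩
      refine hno ⟨x, hx1, Or.inl ?_⟩
      rw [mem_closedBall] at hx2 ⊢
      linarith
    · intro a ha hadj
      obtain ⟨x, hx1, hx2⟩ := pairGeo_adj hδ hadj
      exact hno ⟨x, hx2, hin (pairGeo_seg_K1 ha hx1)⟩
  · rintro ⟨e, he, heM⟩
    obtain ⟨c, hc, hec⟩ := (h1.1 _).2.2 e he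
    have hc1 := ((h1.2.2.2.1 (Tq p δ ρ b (qB p δ b w)) (w \ vB p δ b w)).2.2.2.2.1 c).mp hc
    obtain ⟨hc2, a, hac, x, hxa, hxd⟩ := hc1
    have hcw := (pairGeo_comps h1 p δ b w c).2.mp hc2
    obtain ⟨y, hy1, hy2⟩ := (Finset.mem_filter.mp heM).2
    have hxc : x ∈ K1 δ c := pairGeo_seg_K1 hac hxa
    have hyc : y ∈ K1 δ c := pairGeo_seg_K1 hec hy1
    have hd := pairGeo_diam h2 hδ hxc hyc
    have hd2 := infDist_le_dist_of_mem (x := x) hy2
    rcases pairGeo_out h1 h2 hp hδ hy2 with h4 | ⟨c', hc', hd', y', hy', hyy⟩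
    · left
      refine ⟨c, hcw.1, by linarith, ?_⟩
      have hne : c.Nonempty := ⟨e, hec⟩
      have k1 : ¬ infDist (cen p.r b) (K1 δ c) ≤ p.R := by
        rw [h2.2.1 δ p.R (cen p.r b) c hδ hne]
        rintro ⟨a', ha', hx'⟩
        exact hcw.2 a' ha' hx'
      have k2 : infDist (cen p.r b) (K1 δ c) ≤ dist (cen p.r b) y := infDist_le_dist_of_mem hyc
      rw [mem_closedBall, dist_comm] at h4
      rw [abs_le]
      constructor <;> linarith
    · right
      have hcw' := (pairGeo_comps h1 p δ b w c').1.mp hc'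
      exact ⟨c, hcw.1, c', hcw'.1, pairGeo_ne h1 hc2 hc', by linarith, hd', y, hyc, y', hy', hyy⟩
  · rintro hOK ⟨a, ha, a', ha', hconn, hta, hta'⟩
    have haV : a' ∈ vB p δ b w := by
      unfold vB tc
      exact Finset.mem_filter.mpr ⟨ha', a, ha, hta, hconn⟩
    obtain ⟨x, hx1, hx2⟩ := hta'
    have k1 := hOK x hx2
    have k2 := infDist_zero_of_mem (hin (pairGeo_seg_K1 haV hx1))
    linarith
  · intro hOK hTch
    unfold OKq at hOK
    push Not at hOK
    obtain ⟨x, hx, hxU⟩ := hOK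
    obtain ⟨y, hy, hxy⟩ := (infDist_lt_iff (pairGeo_U_ne p hp b _)).mp hxU
    rw [mem_closedBall] at hx
    rcases pairGeo_out h1 h2 hp hδ hy with h4 | ⟨c', hc', hd', y', hy', hyy⟩
    · rw [mem_closedBall] at h4
      exfalso
      have t1 := dist_triangle (cen p.r b) y (cen p.r b')
      have t2 := dist_triangle y x (cen p.r b')
      rw [dist_comm y x] at t2
      rw [dist_comm y] at h4
      linarith
    · have hcw' := (pairGeo_comps h1 p δ b w c').1.mp hc'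
      have hne : c'.Nonempty := ((h1.1 (vB p δ b w)).1 c' hc').2.1
      obtain ⟨a, hac, z, hz1, hz2⟩ := hcw'.2
      have hzc : z ∈ K1 δ c' := pairGeo_seg_K1 hac hz1
      rw [mem_closedBall] at hz2
      have t1 := dist_triangle y' y x
      have t2 := dist_triangle y' x (cen p.r b')
      rw [dist_comm y' y, dist_comm y x] at t1
      have k2 : infDist (cen p.r b') (K1 δ c') ≤ dist (cen p.r b') y' := infDist_le_dist_of_mem hy'
      rw [dist_comm] at k2
      have k1 : ¬ infDist (cen p.r b') (K1 δ c') ≤ p.R := by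
        rw [h2.2.1 δ p.R (cen p.r b') c' hδ hne]
        rintro ⟨a', ha', hx'⟩
        have hsub := ((h1.1 w).1 c' hcw'.1).1
        refine hTch ⟨a, hsub hac, a', hsub ha', ?_, ⟨z, hz1, mem_closedBall.mpr hz2⟩, hx'⟩
        exact pairGeo_conn_mono hsub (((h1.1 w).1 c' hcw'.1).2.2.2.1 a hac a' ha')
      refine ⟨c', hcw'.1, ?_, ?_⟩
      · have t3 := pairGeo_diam h2 hδ hzc hy'
        have t4 := dist_triangle (cen p.r b) z (cen p.r b')
        have t5 := dist_triangle z y' (cen p.r b')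
        rw [dist_comm z] at hz2
        linarith
      · rw [abs_le]
        constructor <;> linarith
  · intro hOK hne
    by_contra hcon
    rw [not_or] at hcon
    obtain ⟨hE1, hE2⟩ := hcon
    apply hne
    set V := vB p δ b w with hV
    set v := qB p δ b w with hv
    set w₁ := w \ V with hw₁
    set w₂ := tc (Tq p δ ρ b v) w₁ with hw₂
    -- V does not touch the ball b'
    have hVb : ∀ e ∈ V, ¬ tB p δ b' e := by
      rintro e he ⟨x, hx1, hx2⟩
      have k1 := hOK x hx2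
      have k2 := infDist_zero_of_mem (hin (pairGeo_seg_K1 he hx1))
      linarith
    have hTb : ∀ e, tB p δ b' e → Tq p δ ρ b v e := by
      rintro e ⟨x, hx1, hx2⟩
      exact ⟨x, hx1, hOK x hx2⟩
    have hw₂1 : w₂ ⊆ w₁ := (h1.2.2.2.1 (Tq p δ ρ b v) w₁).1
    have hw₁w : w₁ ⊆ w := Finset.sdiff_subset
    -- the bad components
    have hbad : ∀ c ∈ comps (w₁ \ w₂), c ∈ comps w₁ ∧ c ∈ comps w ∧ Even' c ∧
        (∀ a ∈ c, ¬ tB p δ b a) ∧ (∀ a ∈ c, ¬ Tq p δ ρ b v a) := by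
      intro c hc
      have k1 := ((h1.2.2.2.1 (Tq p δ ρ b v) w₁).2.2.2.2.2 c).mp hc
      have k2 := (pairGeo_comps h1 p δ b w c).2.mp k1.1
      exact ⟨k1.1, k2.1, h1.2.1 w hev c k2.1, k2.2, k1.2⟩
    have hA : ∀ c ∈ comps (w₁ \ w₂), ¬ Odd (cnt c (ref δ (cen p.r b))) := by
      intro c hc hodd
      obtain ⟨c1, c2, c3, c4, c5⟩ := hbad c hc
      obtain ⟨k1, y, hy, -, -, -⟩ := h2.2.2.2.1 δ p.R (cen p.r b) c hδ (by linarith) c3 c4 hodd
      have hne : c.Nonempty := ((h1.1 w).1 c c2).2.1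
      have k2 : ¬ infDist (cen p.r b) (K1 δ c) ≤ p.R := by
        rw [h2.2.1 δ p.R (cen p.r b) c hδ hne]
        rintro ⟨a', ha', hx'⟩
        exact c4 a' ha' hx'
      by_cases k3 : infDist (cen p.r b) (K1 δ c) ≤ p.R + 3 * ρ₁
      · refine hE1 ⟨c, c2, by linarith, ?_⟩
        rw [abs_le]
        constructor <;> linarith
      · have k4 : infDist (cen p.r b) (K1 δ c) ≤ dist (cen p.r b) y := infDist_le_dist_of_mem hy
        rw [dist_comm] at k4
        exact hE2 (pairGeo_E2 h1 h2 hp hδ e1 e2 e3 c1 c5 hy (by linarith) (by linarith))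
    have hB : ∀ c ∈ comps (w₁ \ w₂), ¬ Odd (cnt c (ref δ (cen p.r b'))) := by
      intro c hc hodd
      obtain ⟨c1, c2, c3, c4, c5⟩ := hbad c hc
      obtain ⟨k1, y, hy, y', hy', l1, l2, l3, l4⟩ := h2.2.2.2.1 δ p.R (cen p.r b') c hδ
        (by linarith) c3 (fun e he h => c5 e he (hTb e h)) hodd
      have hex : ∃ x ∈ K1 δ c, p.R + 3 * ρ₁ < dist x (cen p.r b) := by
        unfold ldist at hbb
        have e5 : (cen p.r b').1 = p.r * (b'.1 : ℝ) := rfl
        have e6 : (cen p.r b').2 = p.r * (b'.2 : ℝ) := rfl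
        have e7 : (cen p.r b).1 = p.r * (b.1 : ℝ) := rfl
        have e8 : (cen p.r b).2 = p.r * (b.2 : ℝ) := rfl
        rcases le_max_iff.mp hbb with h | h
        · refine ⟨y, hy, ?_⟩
          rw [Prod.dist_eq]
          refine lt_max_of_lt_left ?_
          rw [Real.dist_eq, e7]
          rw [e5] at l1
          have h5 : b.1 - b'.1 ≤ -2 ∨ 2 ≤ b.1 - b'.1 := by omega
          have l1' := abs_le.mp l1
          rcases h5 with h5 | h5
          · have h6 : (b.1 : ℝ) - b'.1 ≤ -2 := by exact_mod_cast h5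
            refine lt_of_lt_of_le ?_ (le_abs_self _)
            nlinarith
          · have h6 : (2 : ℝ) ≤ (b.1 : ℝ) - b'.1 := by exact_mod_cast h5
            refine lt_of_lt_of_le ?_ (neg_le_abs _)
            nlinarith
        · have h5 : b.2 - b'.2 ≤ -2 ∨ 2 ≤ b.2 - b'.2 := by omega
          rcases h5 with h5 | h5
          · have h6 : (b.2 : ℝ) - b'.2 ≤ -2 := by exact_mod_cast h5
            refine ⟨y, hy, ?_⟩
            rw [Prod.dist_eq]
            refine lt_max_of_lt_right ?_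
            rw [Real.dist_eq, e8]
            rw [e6] at l3
            refine lt_of_lt_of_le ?_ (le_abs_self _)
            nlinarith
          · have h6 : (2 : ℝ) ≤ (b.2 : ℝ) - b'.2 := by exact_mod_cast h5
            refine ⟨y', hy', ?_⟩
            rw [Prod.dist_eq]
            refine lt_max_of_lt_right ?_
            rw [Real.dist_eq, e8]
            rw [e6] at l4
            refine lt_of_lt_of_le ?_ (neg_le_abs _)
            nlinarith
      obtain ⟨x, hx, hxd⟩ := hex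
      exact hE2 (pairGeo_E2 h1 h2 hp hδ e1 e2 e3 c1 c5 hx hxd (by linarith))
    -- the components which touch the ball b'
    have hvb : vB p δ b' w = vB p δ b' w₂ := by
      apply pairGeo_comps_ext h1
      intro c
      rw [(pairGeo_comps h1 p δ b' w c).1, (pairGeo_comps h1 p δ b' w₂ c).1]
      constructor
      · rintro ⟨k1, a, ha, hta⟩
        refine ⟨?_, a, ha, hta⟩
        rw [hw₂, (h1.2.2.2.1 (Tq p δ ρ b v) w₁).2.2.2.2.1 c]
        refine ⟨?_, a, ha, hTb a hta⟩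
        rw [hw₁, hV, (pairGeo_comps h1 p δ b w c).2]
        refine ⟨k1, fun a' ha' hta' => ?_⟩
        have hcV : c ∈ comps V := (pairGeo_comps h1 p δ b w c).1.mpr ⟨k1, a', ha', hta'⟩
        exact hVb a (((h1.1 V).1 c hcV).1 ha) hta
      · rintro ⟨k1, a, ha, hta⟩
        rw [hw₂, (h1.2.2.2.1 (Tq p δ ρ b v) w₁).2.2.2.2.1 c, hw₁, hV,
          (pairGeo_comps h1 p δ b w c).2] at k1
        exact ⟨k1.1.1, a, ha, hta⟩
    have hqb : qB p δ b' w = qB p δ b' w₂ := by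
      unfold qB
      rw [hvb]
    have hsub2 : vB p δ b' w₂ ⊆ w₂ := (h1.2.2.2.1 (tB p δ b') w₂).1
    have hVe : Even' V := (h1.2.2.2.1 (tB p δ b) w).2.2.1 hev
    have hVemp : vB p δ b' V = ∅ := by
      unfold vB tc
      rw [Finset.filter_eq_empty_iff]
      rintro e - ⟨a, ha, hta, -⟩
      exact hVb a ha hta
    have henc : encS p b' v = sgn V (ref δ (cen p.r b')) := by
      have k1 := ((h3 p δ f hp hδ hδr).2 b' hb' V hVe).2.1
      unfold ep at k1
      rw [hVemp, Finset.sdiff_empty] at k1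
      rw [k1]
      rfl
    have hep : ep p δ b' w = encS p b' v * ep p δ b' w₂ := by
      rw [henc]
      unfold ep
      have hdec : w \ vB p δ b' w = V ∪ ((w₁ \ w₂) ∪ (w₂ \ vB p δ b' w₂)) := by
        rw [hvb]
        ext e
        simp only [Finset.mem_sdiff, Finset.mem_union]
        constructor
        · rintro ⟨k1, k2⟩
          by_cases k3 : e ∈ V
          · exact Or.inl k3
          · right
            have k4 : e ∈ w₁ := Finset.mem_sdiff.mpr ⟨k1, k3⟩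
            by_cases k5 : e ∈ w₂
            · exact Or.inr ⟨k5, k2⟩
            · exact Or.inl ⟨k4, k5⟩
        · rintro (k | ⟨k, k'⟩ | ⟨k, k'⟩)
          · exact ⟨hVw k, fun h => (Finset.mem_sdiff.mp (hw₂1 (hsub2 h))).2 k⟩
          · exact ⟨hw₁w k, fun h => k' (hsub2 h)⟩
          · exact ⟨hw₁w (hw₂1 k), k'⟩
      have hdj1 : Disjoint V ((w₁ \ w₂) ∪ (w₂ \ vB p δ b' w₂)) := by
        rw [Finset.disjoint_left]
        intro e k1 k2
        have k3 : e ∈ w₁ := by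
          rcases Finset.mem_union.mp k2 with k | k
          · exact (Finset.mem_sdiff.mp k).1
          · exact hw₂1 (Finset.mem_sdiff.mp k).1
        exact (Finset.mem_sdiff.mp k3).2 k1
      have hdj2 : Disjoint (w₁ \ w₂) (w₂ \ vB p δ b' w₂) := by
        rw [Finset.disjoint_left]
        intro e k1 k2
        exact (Finset.mem_sdiff.mp k1).2 (Finset.mem_sdiff.mp k2).1
      rw [hdec, pairGeo_sgn_union hdj1, pairGeo_sgn_union hdj2,
        pairGeo_sgn_one h1 (w₁ \ w₂) _ hB, one_mul]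
    have hsg : sgn w₁ (ref δ (cen p.r b)) = sgn w₂ (ref δ (cen p.r b)) := by
      have k1 : w₁ = (w₁ \ w₂) ∪ w₂ := (Finset.sdiff_union_of_subset hw₂1).symm
      have k2 : Disjoint (w₁ \ w₂) w₂ := Finset.sdiff_disjoint
      have k3 := pairGeo_sgn_union k2 (ref δ (cen p.r b))
      rw [← k1, pairGeo_sgn_one h1 (w₁ \ w₂) _ hA, one_mul] at k3
      exact k3
    have hun : V ∪ w₁ = w := Finset.union_sdiff_of_subset hVw
    unfold psi psi'
    rw [hun, hsg]
    have hDB : DB p δ f b' w = encS p b' v * ep p δ b' w₂ *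
        (aV p δ f b' (vB p δ b' w₂) - aB p δ f b' (qB p δ b' w₂)) := by
      unfold DB XB
      rw [((h3 p δ f hp hδ hδr).2 b' hb' w hev).1, hep, hqb, hvb]
      ring
    rw [hDB]

end Pool.Agent.Lib.MP_6d40c9_pr
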