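import Pool.Agent.Lib.MP_6d40c9_pr.SpecL

/-!
# PhiS: the continuous approximations of the indicators of the statuses
-/

set_option autoImplicit false

namespace Pool.Agent.Lib.MP_6d40c9_pr

open Finset MeasureTheory Filter Topology TopologicalSpace Metric
open scoped BigOperators

/-- The facts about ramps. -/
private def PhiSRamp : Prop :=
  ∀ a b : ℝ, a < b → Continuous (ramp a b) ∧ (∀ t, 0 ≤ ramp a b t ∧ ramp a b t ≤ 1) ∧
    (∀ t ≤ a, ramp a b t = 1) ∧ (∀ t ≥ b, ramp a b t = 0) ∧ (∀ t < b, 0 < ramp a b t) ∧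
    ∀ t > a, ramp a b t < 1

open Classical in
private lemma phiS_prod (I t : Finset Pt) (ht : t ⊆ I) (Q : Pt → Prop) (v : Pt → ℝ)
    (hv1 : ∀ b ∈ I, Q b → v b = 1) (hv0 : ∀ b ∈ I, ¬ Q b → v b = 0) :
    (∏ b ∈ I, if b ∈ t then v b else 1 - v b) = if (∀ b, b ∈ t ↔ b ∈ I ∧ Q b) then 1 else 0 := by
  split_ifs with h
  · apply Finset.prod_eq_one
    intro b hb
    by_cases hQ : Q b
    · have : b ∈ t := (h b).2 ⟨hb, hQ⟩
      simp [this, hv1 b hb hQ]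
    · have : b ∉ t := fun h' => hQ ((h b).1 h').2
      simp [this, hv0 b hb hQ]
  · by_contra hne
    apply h
    intro b
    constructor
    · intro hbt
      refine ⟨ht hbt, ?_⟩
      by_contra hQ
      exact hne (Finset.prod_eq_zero (ht hbt) (by simp [hbt, hv0 b (ht hbt) hQ]))
    · rintro ⟨hb, hQ⟩
      by_contra hbt
      exact hne (Finset.prod_eq_zero hb (by simp [hbt, hv1 b hb hQ]))

private lemma phiS_stat_iff (p : Par) (K L : Set (ℝ × ℝ)) (s : St) : stat p K L = s ↔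
    (∀ b, b ∈ s.1 ↔ b ∈ Ix p.A p.r ∧ infDist (cen p.r b) K ≤ p.R) ∧
    (∀ b, b ∈ s.2.1 ↔ b ∈ Ix p.A p.r ∧ (p.R < infDist (cen p.r b) K ∧
      infDist (cen p.r b) L ≤ p.R / 2)) ∧
    (∀ b, b ∈ s.2.2 ↔ b ∈ Ix p.A p.η ∧ infDist (cen p.η b) K ≤ p.S) := by
  obtain ⟨s1, s2, s3⟩ := s
  unfold stat
  rw [Prod.ext_iff, Prod.ext_iff]
  simp only [Finset.ext_iff, Finset.mem_filter]
  constructor
  · rintro ⟨h1, h2, h3⟩
    exact ⟨fun b => (h1 b).symm, fun b => (h2 b).symm, fun b => (h3 b).symm⟩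
  · rintro ⟨h1, h2, h3⟩
    exact ⟨fun b => (h1 b).symm, fun b => (h2 b).symm, fun b => (h3 b).symm⟩

private lemma phiS_mul4 {A B C D : ℝ} (hA : 0 ≤ A ∧ A ≤ 1) (hB : 0 ≤ B ∧ B ≤ 1)
    (hC : 0 ≤ C ∧ C ≤ 1) (hD : 0 ≤ D ∧ D ≤ 1) : 0 ≤ A * B * C * D ∧ A * B * C * D ≤ 1 := by
  constructor
  · exact mul_nonneg (mul_nonneg (mul_nonneg hA.1 hB.1) hC.1) hD.1
  · exact mul_le_one₀ (mul_le_one₀ (mul_le_one₀ hA.2 hB.1 hB.2) hC.1 hC.2) hD.1 hD.2

open Classical in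
private lemma phiS_core (p : Par) (hp : p.Good) (l : ℝ) (s : St) (hs : s ∈ Sts p) (hl : 0 < l)
    (hl' : l < p.κ / 2) (hr : PhiSRamp) (K : LoopSp) (hc : ¬ crit p l (K.1 : Set (ℝ × ℝ)))
    (hg : ∀ b ∈ Ix p.A p.r, p.R < infDist (cen p.r b) (K.1 : Set (ℝ × ℝ)) →
      infDist (cen p.r b) (K.2 : Set (ℝ × ℝ)) ≤ p.R / 2 ∨
        3 / 4 * p.R ≤ infDist (cen p.r b) (K.2 : Set (ℝ × ℝ))) :
    phi p l s K = if p.κ ≤ diam (K.1 : Set (ℝ × ℝ)) ∧
      stat p (K.1 : Set (ℝ × ℝ)) (K.2 : Set (ℝ × ℝ)) = s then 1 else 0 := by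
  have hR0 : 0 < p.R := by have := hp.hR; have := hp.hr; linarith
  have hκ := hp.hκ
  obtain ⟨hs1, hs2, hs3⟩ : s.1 ⊆ Ix p.A p.r ∧ s.2.1 ⊆ Ix p.A p.r ∧ s.2.2 ⊆ Ix p.A p.η := by
    have := hs
    simp only [Sts, Finset.mem_product, Finset.mem_powerset] at this
    exact this
  have rκ := hr (p.κ - l) p.κ (by linarith)
  have rR := hr p.R (p.R + l) (by linarith)
  have rS := hr p.S (p.S + l) (by linarith)
  have rG := hr (p.R / 2) (3 / 4 * p.R) (by linarith)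
  by_cases hd : diam (K.1 : Set (ℝ × ℝ)) ≤ p.κ - l
  · -- both sides vanish
    have h1 : ramp (p.κ - l) p.κ (diam (K.1 : Set (ℝ × ℝ))) = 1 := rκ.2.2.1 _ hd
    have h2 : ¬ (p.κ ≤ diam (K.1 : Set (ℝ × ℝ)) ∧
      stat p (K.1 : Set (ℝ × ℝ)) (K.2 : Set (ℝ × ℝ)) = s) := by
      rintro ⟨h, _⟩; linarith
    rw [if_neg h2]
    simp only [phi, h1, sub_self, zero_mul]
  push Not at hd
  have hd2 : p.κ / 2 ≤ diam (K.1 : Set (ℝ × ℝ)) := by linarith
  have hc' : ¬ (|diam (K.1 : Set (ℝ × ℝ)) - p.κ| ≤ l ∨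
    (∃ b ∈ Ix p.A p.r, |infDist (cen p.r b) (K.1 : Set (ℝ × ℝ)) - p.R| ≤ l) ∨
    ∃ β ∈ Ix p.A p.η, |infDist (cen p.η β) (K.1 : Set (ℝ × ℝ)) - p.S| ≤ l) := fun h =>
    hc ⟨hd2, h⟩
  push Not at hc'
  obtain ⟨hc1, hc2, hc3⟩ := hc'
  have hdκ : p.κ + l < diam (K.1 : Set (ℝ × ℝ)) := by
    rcases lt_abs.1 hc1 with h | h <;> linarith
  have h1 : ramp (p.κ - l) p.κ (diam (K.1 : Set (ℝ × ℝ))) = 0 := rκ.2.2.2.1 _ (by linarith)
  have hv1 : ∀ b ∈ Ix p.A p.r, infDist (cen p.r b) (K.1 : Set (ℝ × ℝ)) ≤ p.R →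
      ramp p.R (p.R + l) (infDist (cen p.r b) (K.1 : Set (ℝ × ℝ))) = 1 := fun b _ h =>
    rR.2.2.1 _ h
  have hv0 : ∀ b ∈ Ix p.A p.r, ¬ infDist (cen p.r b) (K.1 : Set (ℝ × ℝ)) ≤ p.R →
      ramp p.R (p.R + l) (infDist (cen p.r b) (K.1 : Set (ℝ × ℝ))) = 0 := by
    intro b hb h
    apply rR.2.2.2.1
    push Not at h
    rcases lt_abs.1 (hc2 b hb) with h' | h' <;> linarith
  have hu1 : ∀ b ∈ Ix p.A p.η, infDist (cen p.η b) (K.1 : Set (ℝ × ℝ)) ≤ p.S →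
      ramp p.S (p.S + l) (infDist (cen p.η b) (K.1 : Set (ℝ × ℝ))) = 1 := fun b _ h =>
    rS.2.2.1 _ h
  have hu0 : ∀ b ∈ Ix p.A p.η, ¬ infDist (cen p.η b) (K.1 : Set (ℝ × ℝ)) ≤ p.S →
      ramp p.S (p.S + l) (infDist (cen p.η b) (K.1 : Set (ℝ × ℝ))) = 0 := by
    intro b hb h
    apply rS.2.2.2.1
    push Not at h
    rcases lt_abs.1 (hc3 b hb) with h' | h' <;> linarith
  have hw1 : ∀ b ∈ Ix p.A p.r, (p.R < infDist (cen p.r b) (K.1 : Set (ℝ × ℝ)) ∧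
      infDist (cen p.r b) (K.2 : Set (ℝ × ℝ)) ≤ p.R / 2) →
      (1 - ramp p.R (p.R + l) (infDist (cen p.r b) (K.1 : Set (ℝ × ℝ)))) *
      ramp (p.R / 2) (3 / 4 * p.R) (infDist (cen p.r b) (K.2 : Set (ℝ × ℝ))) = 1 := by
    intro b hb h
    rw [hv0 b hb (not_le.2 h.1), rG.2.2.1 _ h.2]; norm_num
  have hw0 : ∀ b ∈ Ix p.A p.r, ¬ (p.R < infDist (cen p.r b) (K.1 : Set (ℝ × ℝ)) ∧
      infDist (cen p.r b) (K.2 : Set (ℝ × ℝ)) ≤ p.R / 2) →
      (1 - ramp p.R (p.R + l) (infDist (cen p.r b) (K.1 : Set (ℝ × ℝ)))) *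
      ramp (p.R / 2) (3 / 4 * p.R) (infDist (cen p.r b) (K.2 : Set (ℝ × ℝ))) = 0 := by
    intro b hb h
    by_cases hh : p.R < infDist (cen p.r b) (K.1 : Set (ℝ × ℝ))
    · have h2 : 3 / 4 * p.R ≤ infDist (cen p.r b) (K.2 : Set (ℝ × ℝ)) := by
        rcases hg b hb hh with h' | h'
        · exact absurd ⟨hh, h'⟩ h
        · exact h'
      rw [rG.2.2.2.1 _ h2]; simp
    · rw [hv1 b hb (not_lt.1 hh)]; simp
  have e1 := phiS_prod (Ix p.A p.r) s.1 hs1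
    (fun b => infDist (cen p.r b) (K.1 : Set (ℝ × ℝ)) ≤ p.R)
    (fun b => ramp p.R (p.R + l) (infDist (cen p.r b) (K.1 : Set (ℝ × ℝ)))) hv1 hv0
  have e2 := phiS_prod (Ix p.A p.r) s.2.1 hs2
    (fun b => p.R < infDist (cen p.r b) (K.1 : Set (ℝ × ℝ)) ∧
      infDist (cen p.r b) (K.2 : Set (ℝ × ℝ)) ≤ p.R / 2)
    (fun b => (1 - ramp p.R (p.R + l) (infDist (cen p.r b) (K.1 : Set (ℝ × ℝ)))) *
      ramp (p.R / 2) (3 / 4 * p.R) (infDist (cen p.r b) (K.2 : Set (ℝ × ℝ)))) hw1 hw0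
  have e3 := phiS_prod (Ix p.A p.η) s.2.2 hs3
    (fun b => infDist (cen p.η b) (K.1 : Set (ℝ × ℝ)) ≤ p.S)
    (fun b => ramp p.S (p.S + l) (infDist (cen p.η b) (K.1 : Set (ℝ × ℝ)))) hu1 hu0
  unfold phi
  rw [h1, e1, e2, e3]
  by_cases hst : stat p (K.1 : Set (ℝ × ℝ)) (K.2 : Set (ℝ × ℝ)) = s
  · have hpos : p.κ ≤ diam (K.1 : Set (ℝ × ℝ)) ∧
        stat p (K.1 : Set (ℝ × ℝ)) (K.2 : Set (ℝ × ℝ)) = s := ⟨by linarith, hst⟩
    rw [if_pos hpos]
    obtain ⟨a1, a2, a3⟩ := (phiS_stat_iff p _ _ s).1 hst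
    rw [if_pos a1, if_pos a2, if_pos a3]
    norm_num
  · have hneg : ¬ (p.κ ≤ diam (K.1 : Set (ℝ × ℝ)) ∧
        stat p (K.1 : Set (ℝ × ℝ)) (K.2 : Set (ℝ × ℝ)) = s) := fun h => hst h.2
    rw [if_neg hneg]
    rw [phiS_stat_iff] at hst
    by_cases a1 : ∀ b, b ∈ s.1 ↔ b ∈ Ix p.A p.r ∧ infDist (cen p.r b) (K.1 : Set (ℝ × ℝ)) ≤ p.R
    · by_cases a2 : ∀ b, b ∈ s.2.1 ↔ b ∈ Ix p.A p.r ∧
        (p.R < infDist (cen p.r b) (K.1 : Set (ℝ × ℝ)) ∧
        infDist (cen p.r b) (K.2 : Set (ℝ × ℝ)) ≤ p.R / 2)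
      · by_cases a3 : ∀ b, b ∈ s.2.2 ↔ b ∈ Ix p.A p.η ∧
          infDist (cen p.η b) (K.1 : Set (ℝ × ℝ)) ≤ p.S
        · exact absurd ⟨a1, a2, a3⟩ hst
        · rw [if_neg a3]; simp
      · rw [if_neg a2]; simp
    · rw [if_neg a1]; simp

private lemma phiS_loopFn (p : Par) (hp : p.Good) (l : ℝ) (s : St) (hl : 0 < l)
    (hl' : l < p.κ / 2) (hr : PhiSRamp)
    (hi : ∀ x : ℝ × ℝ, Continuous fun K : NonemptyCompacts (ℝ × ℝ) => infDist x (K : Set (ℝ × ℝ)))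
    (hdc : Continuous fun K : NonemptyCompacts (ℝ × ℝ) => diam (K : Set (ℝ × ℝ))) :
    LoopFn (phi p l s) ∧ ∀ K, 0 ≤ phi p l s K ∧ phi p l s K ≤ 1 := by
  have hR0 : 0 < p.R := by have := hp.hR; have := hp.hr; linarith
  have hκ := hp.hκ
  have rκ := hr (p.κ - l) p.κ (by linarith)
  have rR := hr p.R (p.R + l) (by linarith)
  have rS := hr p.S (p.S + l) (by linarith)
  have rG := hr (p.R / 2) (3 / 4 * p.R) (by linarith)
  have c1 : ∀ x : ℝ × ℝ, Continuous fun K : LoopSp => infDist x (K.1 : Set (ℝ × ℝ)) :=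
    fun x => (hi x).comp continuous_fst
  have c2 : ∀ x : ℝ × ℝ, Continuous fun K : LoopSp => infDist x (K.2 : Set (ℝ × ℝ)) :=
    fun x => (hi x).comp continuous_snd
  have c3 : Continuous fun K : LoopSp => diam (K.1 : Set (ℝ × ℝ)) := hdc.comp continuous_fst
  have cR : ∀ x : ℝ × ℝ, Continuous fun K : LoopSp =>
      ramp p.R (p.R + l) (infDist x (K.1 : Set (ℝ × ℝ))) := fun x => rR.1.comp (c1 x)
  have cS : ∀ x : ℝ × ℝ, Continuous fun K : LoopSp =>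
      ramp p.S (p.S + l) (infDist x (K.1 : Set (ℝ × ℝ))) := fun x => rS.1.comp (c1 x)
  have cG : ∀ x : ℝ × ℝ, Continuous fun K : LoopSp =>
      ramp (p.R / 2) (3 / 4 * p.R) (infDist x (K.2 : Set (ℝ × ℝ))) := fun x => rG.1.comp (c2 x)
  have cκ : Continuous fun K : LoopSp => ramp (p.κ - l) p.κ (diam (K.1 : Set (ℝ × ℝ))) :=
    rκ.1.comp c3
  refine ⟨⟨?_, p.κ / 2, by linarith, ?_⟩, ?_⟩
  · unfold phi
    refine ((((continuous_const.sub cκ).mul ?_).mul ?_).mul ?_)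
    · refine continuous_finsetProd _ fun b _ => ?_
      split_ifs
      · exact cR _
      · exact continuous_const.sub (cR _)
    · refine continuous_finsetProd _ fun b _ => ?_
      split_ifs
      · exact (continuous_const.sub (cR _)).mul (cG _)
      · exact continuous_const.sub ((continuous_const.sub (cR _)).mul (cG _))
    · refine continuous_finsetProd _ fun b _ => ?_
      split_ifs
      · exact cS _
      · exact continuous_const.sub (cS _)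
  · intro K hK
    have h1 : ramp (p.κ - l) p.κ (diam (K.1 : Set (ℝ × ℝ))) = 1 := rκ.2.2.1 _ (by linarith)
    unfold phi
    rw [h1]; simp
  · intro K
    have b1 : 0 ≤ 1 - ramp (p.κ - l) p.κ (diam (K.1 : Set (ℝ × ℝ))) ∧
        1 - ramp (p.κ - l) p.κ (diam (K.1 : Set (ℝ × ℝ))) ≤ 1 := by
      have := rκ.2.1 (diam (K.1 : Set (ℝ × ℝ)))
      constructor <;> linarith [this.1, this.2]
    have bR := fun x : ℝ × ℝ => rR.2.1 (infDist x (K.1 : Set (ℝ × ℝ)))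
    have bS := fun x : ℝ × ℝ => rS.2.1 (infDist x (K.1 : Set (ℝ × ℝ)))
    have bG := fun x : ℝ × ℝ => rG.2.1 (infDist x (K.2 : Set (ℝ × ℝ)))
    have bRG : ∀ x : ℝ × ℝ, 0 ≤ (1 - ramp p.R (p.R + l) (infDist x (K.1 : Set (ℝ × ℝ)))) *
        ramp (p.R / 2) (3 / 4 * p.R) (infDist x (K.2 : Set (ℝ × ℝ))) ∧
        (1 - ramp p.R (p.R + l) (infDist x (K.1 : Set (ℝ × ℝ)))) *
        ramp (p.R / 2) (3 / 4 * p.R) (infDist x (K.2 : Set (ℝ × ℝ))) ≤ 1 := by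
      intro x
      have h1 := bR x
      have h2 := bG x
      constructor
      · exact mul_nonneg (by linarith) h2.1
      · exact mul_le_one₀ (by linarith) h2.1 h2.2
    unfold phi
    refine phiS_mul4 b1 ?_ ?_ ?_
    · constructor
      · refine Finset.prod_nonneg fun b _ => ?_
        split_ifs
        · exact (bR _).1
        · linarith [(bR (cen p.r b)).2]
      · refine Finset.prod_le_one (fun b _ => ?_) fun b _ => ?_
        · split_ifs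
          · exact (bR _).1
          · linarith [(bR (cen p.r b)).2]
        · split_ifs
          · exact (bR _).2
          · linarith [(bR (cen p.r b)).1]
    · constructor
      · refine Finset.prod_nonneg fun b _ => ?_
        split_ifs
        · exact (bRG _).1
        · linarith [(bRG (cen p.r b)).2]
      · refine Finset.prod_le_one (fun b _ => ?_) fun b _ => ?_
        · split_ifs
          · exact (bRG _).1
          · linarith [(bRG (cen p.r b)).2]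
        · split_ifs
          · exact (bRG _).2
          · linarith [(bRG (cen p.r b)).1]
    · constructor
      · refine Finset.prod_nonneg fun b _ => ?_
        split_ifs
        · exact (bS _).1
        · linarith [(bS (cen p.η b)).2]
      · refine Finset.prod_le_one (fun b _ => ?_) fun b _ => ?_
        · split_ifs
          · exact (bS _).1
          · linarith [(bS (cen p.η b)).2]
        · split_ifs
          · exact (bS _).2
          · linarith [(bS (cen p.η b)).1]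

/-- The probability of the events `E l δ` is small for small `l` and `δ`. -/
private def PhiSSmall (Ω : Set (ℝ × ℝ)) (E : ℝ → ℝ → Finset Edge → Prop) : Prop :=
  ∀ ε > 0, ∃ l₀ > 0, ∃ δ₀ > 0, ∀ l, 0 < l → l < l₀ → ∀ δ, 0 < δ → δ < δ₀ →
    lP (DD Ω δ) (E l δ) ≤ ε

open Classical in
private lemma phiS_lP_eq (D : Finset Edge) (P : Finset Edge → Prop) :
    lP D P = lE D (fun w => if P w then 1 else 0) := rfl

private lemma phiS_union (h5 : LEFacts) (D : Finset Edge) (P Q R : Finset Edge → Prop)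
    (h : ∀ w ⊆ D, Even' w → R w → P w ∨ Q w) : lP D R ≤ lP D P + lP D Q := by
  classical
  obtain ⟨-, h2, h3, -⟩ := h5
  have h4 := h2 D 1 1 (fun w => if P w then 1 else 0) (fun w => if Q w then 1 else 0)
  rw [one_mul, one_mul] at h4
  rw [phiS_lP_eq, phiS_lP_eq, phiS_lP_eq]
  refine le_trans (h3 D _ _ ?_) h4.le
  intro w hw he
  have := h w hw he
  by_cases hR : R w
  · rcases this hR with hP | hQ
    · simp only [hR, hP, if_true]
      split_ifs <;> norm_num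
    · simp only [hR, hQ, if_true]
      split_ifs <;> norm_num
  · simp only [hR, if_false]
    split_ifs <;> norm_num

private lemma phiS_small_or (h5 : LEFacts) {Ω : Set (ℝ × ℝ)} {E E' F : ℝ → ℝ → Finset Edge → Prop}
    (hE : PhiSSmall Ω E) (hE' : PhiSSmall Ω E')
    (h : ∀ l, 0 < l → ∀ δ, 0 < δ → ∀ w, Even' w → F l δ w → E l δ w ∨ E' l δ w) :
    PhiSSmall Ω F := by
  intro ε hε
  obtain ⟨l₁, hl₁, δ₁, hδ₁, H₁⟩ := hE (ε / 2) (by linarith)
  obtain ⟨l₂, hl₂, δ₂, hδ₂, H₂⟩ := hE' (ε / 2) (by linarith)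
  refine ⟨min l₁ l₂, lt_min hl₁ hl₂, min δ₁ δ₂, lt_min hδ₁ hδ₂, ?_⟩
  intro l hl hl' δ hδ hδ'
  have a1 := H₁ l hl (lt_of_lt_of_le hl' (min_le_left _ _)) δ hδ
    (lt_of_lt_of_le hδ' (min_le_left _ _))
  have a2 := H₂ l hl (lt_of_lt_of_le hl' (min_le_right _ _)) δ hδ
    (lt_of_lt_of_le hδ' (min_le_right _ _))
  have a3 := phiS_union h5 (DD Ω δ) (E l δ) (E' l δ) (F l δ)
    (fun w _ he hF => h l hl δ hδ w he hF)
  linarith

private lemma phiS_small_false (h5 : LEFacts) {Ω : Set (ℝ × ℝ)} {F : ℝ → ℝ → Finset Edge → Prop}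
    (h : ∀ l δ w, ¬ F l δ w) : PhiSSmall Ω F := by
  intro ε hε
  refine ⟨1, one_pos, 1, one_pos, ?_⟩
  intro l _ _ δ _ _
  classical
  obtain ⟨-, h2, h3, -⟩ := h5
  have h4 := h2 (DD Ω δ) 0 0 (fun _ => 0) (fun _ => 0)
  simp only [zero_mul, add_zero] at h4
  rw [phiS_lP_eq]
  have : (fun w => if F l δ w then (1 : ℝ) else 0) = fun _ => 0 := by
    funext w; simp [h l δ w]
  rw [this, h4]
  exact hε.le

private lemma phiS_small_finset (h5 : LEFacts) {Ω : Set (ℝ × ℝ)} (I : Finset Pt)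
    (E : Pt → ℝ → ℝ → Finset Edge → Prop) (hE : ∀ b ∈ I, PhiSSmall Ω (E b)) :
    PhiSSmall Ω (fun l δ w => ∃ b ∈ I, E b l δ w) := by
  classical
  induction I using Finset.induction_on with
  | empty => exact phiS_small_false h5 (by simp)
  | insert a s ha ih =>
    refine phiS_small_or h5 (hE a (Finset.mem_insert_self _ _))
      (ih fun b hb => hE b (Finset.mem_insert_of_mem hb)) ?_
    rintro l _ δ _ w _ ⟨b, hb, hEb⟩
    rcases Finset.mem_insert.1 hb with rfl | hb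
    · exact Or.inl hEb
    · exact Or.inr ⟨b, hb, hEb⟩

/-- A generic threshold is not approached. -/
private lemma phiS_small_gen (h4 : InGenS) (h5 : LEFacts) (X : Type) [MeasurableSpace X] (P : Measure X)
    [IsProbabilityMeasure P] (Ω : Set (ℝ × ℝ)) (σ : (ℝ × ℝ → ℝ) → X → ℝ)
    (Γ : X → Set (NonemptyCompacts (ℝ × ℝ))) (hL : Lim Ω P σ Γ)
    (F : NonemptyCompacts (ℝ × ℝ) → ℝ) (t : ℝ) (hF : Continuous F)
    (hg : ∀ᵐ ω ∂P, ∀ K ∈ Γ ω, 0 < diam (K : Set (ℝ × ℝ)) → F K ≠ t) (d : ℝ) (hd : 0 < d)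
    (G : Set (ℝ × ℝ) → ℝ) (hG : ∀ K : NonemptyCompacts (ℝ × ℝ), F K = G (K : Set (ℝ × ℝ)))
    (hK : ∀ (δ : ℝ) (w : Finset Edge), 0 < δ → Even' w → ∀ c ∈ comps w,
      ((toNC (K1 δ c) : NonemptyCompacts (ℝ × ℝ)) : Set (ℝ × ℝ)) = K1 δ c) :
    PhiSSmall Ω (fun l δ w => ∃ c ∈ comps w, d ≤ diam (K1 δ c) ∧ |G (K1 δ c) - t| ≤ l) := by
  intro ε hε
  obtain ⟨l₀, hl₀, δ₀, hδ₀, H⟩ := h4 X P Ω σ Γ hL F t hF hg d hd ε hε
  refine ⟨l₀, hl₀, δ₀, hδ₀, ?_⟩
  intro l hl hl' δ hδ hδ'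
  refine le_trans ?_ (H δ hδ hδ')
  obtain ⟨-, -, -, -, -, -, h7⟩ := h5
  refine (h7 _ _ _ ?_).2.1
  rintro w _ he ⟨c, hc, hdc, hcl⟩
  refine ⟨c, hc, hdc, ?_⟩
  rw [hG, hK δ w hδ he c hc]
  linarith

theorem phiS (h1 : StatFacts) (h2 : GapS) (h3 : FillFacts) (h4 : InGenS) (h5 : LEFacts)
    (h6 : CompFacts) : PhiS := by
  obtain ⟨⟨hi, hdc⟩, hr, hst, hfill, hK⟩ := h1
  have hr' : PhiSRamp := hr
  intro p hp
  have hR0 : 0 < p.R := by have := hp.hR; have := hp.hr; linarith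
  have hκ := hp.hκ
  have key1 : ∀ (l : ℝ) (s : St), 0 < l → l < p.κ / 2 →
      LoopFn (phi p l s) ∧ ∀ K, 0 ≤ phi p l s K ∧ phi p l s K ≤ 1 :=
    fun l s hl hl' => phiS_loopFn p hp l s hl hl' hr' hi hdc
  refine ⟨key1, ?_, ?_, ?_⟩
  · -- lattice
    intro δ l w hδ hδr hl hl' hw hc s hs
    classical
    have hval : ∀ c ∈ comps w, phi p l s (toNC (K1 δ c), toNC (K2 δ c)) =
        if p.κ ≤ diam (K1 δ c) ∧ stat p (K1 δ c) (K2 δ c) = s then 1 else 0 := by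
      intro c hcw
      obtain ⟨k1, k2, -⟩ := hK δ w hδ hw c hcw
      have hne : c.Nonempty := ((h6.1 w).1 c hcw).2.1
      have hev : Even' c := h6.2.1 w hw c hcw
      have := phiS_core p hp l s hs hl hl' hr' (toNC (K1 δ c), toNC (K2 δ c))
        (by
          change ¬ crit p l ((toNC (K1 δ c) : NonemptyCompacts (ℝ × ℝ)) : Set (ℝ × ℝ))
          rw [k1]; exact hc c hcw)
        (by
          intro b _ hb
          change infDist (cen p.r b) ((toNC (K2 δ c) : NonemptyCompacts (ℝ × ℝ)) : Set (ℝ × ℝ)) ≤ _ ∨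
            _ ≤ infDist (cen p.r b) ((toNC (K2 δ c) : NonemptyCompacts (ℝ × ℝ)) : Set (ℝ × ℝ))
          change p.R < infDist (cen p.r b)
            ((toNC (K1 δ c) : NonemptyCompacts (ℝ × ℝ)) : Set (ℝ × ℝ)) at hb
          rw [k1] at hb
          rw [k2]
          have h8 : 8 * δ ≤ p.R := by have := hp.hR; linarith
          rcases h2 δ p.R (cen p.r b) c hδ h8 hev hne hb with ⟨_, h, _⟩ | ⟨_, h⟩
          · left; rw [h]; linarith
          · right; exact h)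
      rw [this]
      simp only [k1, k2]
    unfold wSt nst
    rw [Finset.sum_congr rfl hval, Finset.sum_boole]
  · -- limit
    intro G l hfin hl hl' hc s hs
    classical
    have hval : ∀ K ∈ G, phi p l s (K, toNC (fill (K : Set (ℝ × ℝ)))) =
        if p.κ ≤ diam (K : Set (ℝ × ℝ)) ∧
          stat p (K : Set (ℝ × ℝ)) (fill (K : Set (ℝ × ℝ))) = s then 1 else 0 := by
      intro K hKG
      have := phiS_core p hp l s hs hl hl' hr' (K, toNC (fill (K : Set (ℝ × ℝ)))) (hc K hKG)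
        (by
          intro b _ hb
          change infDist (cen p.r b)
            ((toNC (fill (K : Set (ℝ × ℝ))) : NonemptyCompacts (ℝ × ℝ)) : Set (ℝ × ℝ)) ≤ _ ∨
            _ ≤ infDist (cen p.r b)
              ((toNC (fill (K : Set (ℝ × ℝ))) : NonemptyCompacts (ℝ × ℝ)) : Set (ℝ × ℝ))
          rw [hfill K]
          rcases h3.2.2.1 (K : Set (ℝ × ℝ)) (cen p.r b) p.R K.isCompact K.nonempty hR0.le hb with
            ⟨_, _, h⟩ | ⟨_, h⟩
          · left; rw [h]; linarith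
          · right; linarith)
      rw [this]
      simp only [hfill K]
    have hall : ∀ K ∈ G, phi p l s (K, toNC (fill (K : Set (ℝ × ℝ)))) = 0 ∨
        phi p l s (K, toNC (fill (K : Set (ℝ × ℝ)))) = 1 := by
      intro K hKG
      rw [hval K hKG]
      split_ifs
      · right; rfl
      · left; rfl
    rw [(hst G hfin (phi p l s) (key1 l s hl hl').1).2.2 hall]
    congr 2
    ext K
    simp only [Set.mem_ofPred_eq]
    constructor
    · rintro ⟨hKG, h⟩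
      rw [hval K hKG] at h
      by_contra hcon
      rw [if_neg (fun h' => hcon ⟨hKG, h'⟩)] at h
      exact zero_ne_one h
    · rintro ⟨hKG, h⟩
      refine ⟨hKG, ?_⟩
      rw [hval K hKG, if_pos h]
  · intro X _ P _ σ Γ hL hGen
    obtain ⟨g1, g2, g3⟩ := hGen
    constructor
    · have g1' : ∀ᵐ ω ∂P, ∀ b ∈ Ix p.A p.r, ∀ K ∈ Γ ω, 0 < diam (K : Set (ℝ × ℝ)) →
          infDist (cen p.r b) (K : Set (ℝ × ℝ)) ≠ p.R :=
        (Filter.eventually_all_finset _).2 g1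
      have g2' : ∀ᵐ ω ∂P, ∀ β ∈ Ix p.A p.η, ∀ K ∈ Γ ω, 0 < diam (K : Set (ℝ × ℝ)) →
          infDist (cen p.η β) (K : Set (ℝ × ℝ)) ≠ p.S :=
        (Filter.eventually_all_finset _).2 g2
      filter_upwards [g1', g2', g3, hL.nest.finite] with ω a1 a2 a3 a4
      have hev : ∀ᶠ l : ℝ in 𝓝[>] 0, ∀ K ∈ {K ∈ Γ ω | p.κ / 2 ≤ diam (K : Set (ℝ × ℝ))},
          ¬ crit p l (K : Set (ℝ × ℝ)) := by
        refine (Filter.eventually_all_finite (a4 (p.κ / 2) (by linarith))).2 ?_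
        rintro K ⟨hKΓ, hKd⟩
        have hd0 : 0 < diam (K : Set (ℝ × ℝ)) := by linarith
        have e1 : ∀ᶠ l : ℝ in 𝓝[>] 0, l < |diam (K : Set (ℝ × ℝ)) - p.κ| :=
          nhdsWithin_le_nhds (Iio_mem_nhds (abs_pos.2 (sub_ne_zero.2 (a3 K hKΓ hd0))))
        have e2 : ∀ᶠ l : ℝ in 𝓝[>] 0, ∀ b ∈ Ix p.A p.r,
            l < |infDist (cen p.r b) (K : Set (ℝ × ℝ)) - p.R| := by
          refine (Filter.eventually_all_finset _).2 fun b hb => ?_
          exact nhdsWithin_le_nhds (Iio_mem_nhds (abs_pos.2 (sub_ne_zero.2 (a1 b hb K hKΓ hd0))))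
        have e3 : ∀ᶠ l : ℝ in 𝓝[>] 0, ∀ b ∈ Ix p.A p.η,
            l < |infDist (cen p.η b) (K : Set (ℝ × ℝ)) - p.S| := by
          refine (Filter.eventually_all_finset _).2 fun b hb => ?_
          exact nhdsWithin_le_nhds (Iio_mem_nhds (abs_pos.2 (sub_ne_zero.2 (a2 b hb K hKΓ hd0))))
        filter_upwards [e1, e2, e3] with l b1 b2 b3
        rintro ⟨_, h | ⟨b, hb, h⟩ | ⟨b, hb, h⟩⟩
        · linarith
        · linarith [b2 b hb]
        · linarith [b3 b hb]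
      obtain ⟨l₀, hl₀, hsub⟩ := mem_nhdsGT_iff_exists_Ioo_subset.1 hev
      refine ⟨l₀, hl₀, ?_⟩
      intro l hl hl' K hKΓ hcr
      exact hsub ⟨hl, hl'⟩ K ⟨hKΓ, hcr.1⟩ hcr
    · have hK' : ∀ (δ : ℝ) (w : Finset Edge), 0 < δ → Even' w → ∀ c ∈ comps w,
          ((toNC (K1 δ c) : NonemptyCompacts (ℝ × ℝ)) : Set (ℝ × ℝ)) = K1 δ c :=
        fun δ w hδ hw c hc => (hK δ w hδ hw c hc).1
      have s1 := phiS_small_gen h4 h5 X P p.Ω σ Γ hL (fun K => diam (K : Set (ℝ × ℝ))) p.κ hdc g3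
        (p.κ / 2) (by linarith) diam (fun _ => rfl) hK'
      have s2 := phiS_small_finset h5 (Ω := p.Ω) (Ix p.A p.r)
        (fun b l δ w => ∃ c ∈ comps w, p.κ / 2 ≤ diam (K1 δ c) ∧
          |infDist (cen p.r b) (K1 δ c) - p.R| ≤ l)
        (fun b hb => phiS_small_gen h4 h5 X P p.Ω σ Γ hL
          (fun K => infDist (cen p.r b) (K : Set (ℝ × ℝ))) p.R (hi _) (g1 b hb)
          (p.κ / 2) (by linarith) (fun K => infDist (cen p.r b) K) (fun _ => rfl) hK')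
      have s3 := phiS_small_finset h5 (Ω := p.Ω) (Ix p.A p.η)
        (fun b l δ w => ∃ c ∈ comps w, p.κ / 2 ≤ diam (K1 δ c) ∧
          |infDist (cen p.η b) (K1 δ c) - p.S| ≤ l)
        (fun b hb => phiS_small_gen h4 h5 X P p.Ω σ Γ hL
          (fun K => infDist (cen p.η b) (K : Set (ℝ × ℝ))) p.S (hi _) (g2 b hb)
          (p.κ / 2) (by linarith) (fun K => infDist (cen p.η b) K) (fun _ => rfl) hK')
      have s23 := phiS_small_or h5 (F := fun l δ w =>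
        (∃ b ∈ Ix p.A p.r, ∃ c ∈ comps w, p.κ / 2 ≤ diam (K1 δ c) ∧
          |infDist (cen p.r b) (K1 δ c) - p.R| ≤ l) ∨
        (∃ b ∈ Ix p.A p.η, ∃ c ∈ comps w, p.κ / 2 ≤ diam (K1 δ c) ∧
          |infDist (cen p.η b) (K1 δ c) - p.S| ≤ l)) s2 s3 (fun _ _ _ _ _ _ h => h)
      have s := phiS_small_or h5 (F := fun l δ w => ∃ c ∈ comps w, crit p l (K1 δ c)) s1 s23 (by
        rintro l _ δ _ w _ ⟨c, hc, hd, h | ⟨b, hb, h⟩ | ⟨b, hb, h⟩⟩
        · exact Or.inl ⟨c, hc, hd, h⟩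
        · exact Or.inr (Or.inl ⟨b, hb, c, hc, hd, h⟩)
        · exact Or.inr (Or.inr ⟨b, hb, c, hc, hd, h⟩))
      exact s

end Pool.Agent.Lib.MP_6d40c9_pr
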