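import Pool.Agent.Lib.MP_6d40c9_pr.SpecL

set_option autoImplicit false

namespace Pool.Agent.Lib.MP_6d40c9_pr

open Finset MeasureTheory Filter Topology TopologicalSpace Metric
open scoped BigOperators

theorem portS_closed (h : LEFacts) (X : Type) [MeasurableSpace X] (P : Measure X)
    [IsProbabilityMeasure P] (Ω : Set (ℝ × ℝ)) (n : ℕ)
    (Z : ℝ → Finset Edge → (Fin n → ℝ)) (Y : X → (Fin n → ℝ)) (hY : Measurable Y)
    (hc : ∀ H : (Fin n → ℝ) → ℝ, Continuous H → (∃ C, ∀ y, |H y| ≤ C) →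
      Tendsto (fun δ => lE (DD Ω δ) (fun w => H (Z δ w))) (𝓝[>] 0) (𝓝 (∫ ω, H (Y ω) ∂P)))
    (F : Set (Fin n → ℝ)) (hF : IsClosed F) (ε : ℝ) (hε : 0 < ε) :
    ∃ δ₀ > 0, ∀ δ, 0 < δ → δ < δ₀ →
      lP (DD Ω δ) (fun w => Z δ w ∈ F) ≤ P.real {ω | Y ω ∈ F} + ε := by
  classical
  obtain ⟨h1, h2, h3, h4, h5, h6, h7⟩ := h
  rcases F.eq_empty_or_nonempty with hFe | hFne
  · refine ⟨1, one_pos, fun δ _ _ => ?_⟩
    subst hFe
    have e1 : lP (DD Ω δ) (fun w => Z δ w ∈ (∅ : Set (Fin n → ℝ))) = 0 := by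
      have hh := h2 (DD Ω δ) 0 0 (fun _ => 1) (fun _ => 1)
      have : lP (DD Ω δ) (fun w => Z δ w ∈ (∅ : Set (Fin n → ℝ))) =
          lE (DD Ω δ) (fun w => 0 * 1 + 0 * 1) := by
        unfold lP lpP lE
        congr 1
        funext w
        simp
      rw [this, hh]; ring
    rw [e1]
    positivity
  · set H : ℕ → (Fin n → ℝ) → ℝ := fun k y => max 0 (1 - k * infDist y F) with hH
    have Hc : ∀ k, Continuous (H k) := fun k => by
      have := continuous_infDist_pt F
      fun_prop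
    have H0 : ∀ k y, 0 ≤ H k y := fun k y => le_max_left _ _
    have H1 : ∀ k y, H k y ≤ 1 := fun k y => by
      apply max_le zero_le_one
      have : 0 ≤ (k : ℝ) * infDist y F := mul_nonneg (Nat.cast_nonneg _) infDist_nonneg
      linarith
    have Hb : ∀ k y, |H k y| ≤ 1 := fun k y => by rw [abs_of_nonneg (H0 k y)]; exact H1 k y
    have hmeas : MeasurableSet {ω | Y ω ∈ F} := hY hF.measurableSet
    have lim : Tendsto (fun k => ∫ ω, H k (Y ω) ∂P) atTop
        (𝓝 (∫ ω, Set.indicator {ω | Y ω ∈ F} (fun _ => (1 : ℝ)) ω ∂P)) := by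
      apply tendsto_integral_of_dominated_convergence (fun _ => (1 : ℝ))
      · intro k
        exact ((Hc k).measurable.comp hY).aestronglyMeasurable
      · exact integrable_const _
      · intro k
        exact Eventually.of_forall fun ω => by rw [Real.norm_eq_abs]; exact Hb k _
      · apply Eventually.of_forall
        intro ω
        by_cases hω : Y ω ∈ F
        · have : ∀ k, H k (Y ω) = 1 := fun k => by
            simp [hH, infDist_zero_of_mem hω]
          simp only [this, Set.indicator, Set.mem_ofPred_eq, hω, if_true]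
          exact tendsto_const_nhds
        · have hpos : 0 < infDist (Y ω) F := (hF.notMem_iff_infDist_pos hFne).1 hω
          have hz : ∀ᶠ k : ℕ in atTop, H k (Y ω) = 0 := by
            obtain ⟨K, hK⟩ := exists_nat_gt (1 / infDist (Y ω) F)
            filter_upwards [eventually_ge_atTop K] with k hk
            simp only [hH]
            apply max_eq_left
            have h1' : 1 < (K : ℝ) * infDist (Y ω) F := by
              rw [div_lt_iff₀ hpos] at hK; exact hK
            have h2' : (K : ℝ) * infDist (Y ω) F ≤ k * infDist (Y ω) F :=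
              mul_le_mul_of_nonneg_right (by exact_mod_cast hk) hpos.le
            linarith
          have : Set.indicator {ω | Y ω ∈ F} (fun _ => (1 : ℝ)) ω = 0 := by
            simp [Set.indicator, hω]
          rw [this]
          exact tendsto_const_nhds.congr' (hz.mono fun k hk => hk.symm)
    have ind : ∫ ω, Set.indicator {ω | Y ω ∈ F} (fun _ => (1 : ℝ)) ω ∂P = P.real {ω | Y ω ∈ F} := by
      rw [integral_indicator hmeas]
      simp [Measure.real]
    rw [ind] at lim
    have ev : ∀ᶠ k in atTop, ∫ ω, H k (Y ω) ∂P < P.real {ω | Y ω ∈ F} + ε / 2 :=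
      lim.eventually (eventually_lt_nhds (by linarith))
    obtain ⟨k, hk⟩ := ev.exists
    have ev2 : ∀ᶠ δ in 𝓝[>] (0 : ℝ), lE (DD Ω δ) (fun w => H k (Z δ w)) <
        ∫ ω, H k (Y ω) ∂P + ε / 2 :=
      (hc (H k) (Hc k) ⟨1, Hb k⟩).eventually (eventually_lt_nhds (by linarith))
    rw [eventually_nhdsWithin_iff, Metric.eventually_nhds_iff] at ev2
    obtain ⟨δ₀, hδ₀, hh⟩ := ev2
    refine ⟨δ₀, hδ₀, fun δ hδ hδ' => ?_⟩
    have h8 := hh (y := δ) (by rw [Real.dist_eq, sub_zero, abs_of_pos hδ]; exact hδ') hδ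
    have h9 : lP (DD Ω δ) (fun w => Z δ w ∈ F) ≤ lE (DD Ω δ) (fun w => H k (Z δ w)) := by
      have : lP (DD Ω δ) (fun w => Z δ w ∈ F) =
          lE (DD Ω δ) (fun w => if Z δ w ∈ F then 1 else 0) := rfl
      rw [this]
      apply h3
      intro w _ _
      by_cases hw : Z δ w ∈ F
      · simp only [hw, if_true, hH, infDist_zero_of_mem hw]
        simp
      · simp only [hw, if_false]
        exact H0 _ _
    linarith

theorem portS (h : LEFacts) : PortS := by
  classical
  intro X _ P _ Ω n Z Y hY hc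
  refine ⟨fun F hF ε hε => portS_closed h X P Ω n Z Y hY hc F hF ε hε, fun G hG ε hε => ?_⟩
  obtain ⟨δ₀, hδ₀, hh⟩ := portS_closed h X P Ω n Z Y hY hc Gᶜ hG.isClosed_compl ε hε
  refine ⟨δ₀, hδ₀, fun δ hδ hδ' => ?_⟩
  have h1 := hh δ hδ hδ'
  have hmeas : MeasurableSet {ω | Y ω ∈ G} := hY hG.measurableSet
  have e1 : P.real {ω | Y ω ∈ Gᶜ} = 1 - P.real {ω | Y ω ∈ G} := by
    have : {ω | Y ω ∈ Gᶜ} = {ω | Y ω ∈ G}ᶜ := rfl
    rw [this, measureReal_compl hmeas]
    simp
  have e2 : lP (DD Ω δ) (fun w => Z δ w ∈ Gᶜ) = 1 - lP (DD Ω δ) (fun w => Z δ w ∈ G) := by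
    have a1 : lP (DD Ω δ) (fun w => Z δ w ∈ Gᶜ) =
        lE (DD Ω δ) (fun w => 1 * 1 + (-1) * (if Z δ w ∈ G then 1 else 0)) := by
      unfold lP lpP lE
      congr 1
      funext w
      by_cases hw : Z δ w ∈ G <;> simp [hw]
    rw [a1, h.2.1 (DD Ω δ) 1 (-1) (fun _ => 1) (fun w => if Z δ w ∈ G then 1 else 0), h.1]
    have : lP (DD Ω δ) (fun w => Z δ w ∈ G) =
        lE (DD Ω δ) (fun w => if Z δ w ∈ G then 1 else 0) := rfl
    rw [this]; ring
  rw [e1, e2] at h1
  linarith

end Pool.Agent.Lib.MP_6d40c9_pr
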