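import Pool.Agent.Lib.MP_6d40c9_pr.SpecK

/-!
# Domain Markov property with domination
-/

set_option autoImplicit false

namespace Pool.Agent.Lib.MP_6d40c9_pr

open Finset
open scoped BigOperators symmDiff

section prodDomSec

variable {E G G' : Type} [DecidableEq E] [AddCommGroup G] [AddCommGroup G']

private lemma prodDom_bdy (h2 : ∀ g : G, g + g = 0) (bd : E → G) (η γ : Finset E) :
    bdy bd (η ∆ γ) = bdy bd η + bdy bd γ := by
  unfold bdy
  have h1 : ∑ e ∈ η, bd e = ∑ e ∈ η \ γ, bd e + ∑ e ∈ η ∩ γ, bd e := by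
    rw [← Finset.sum_union (Finset.disjoint_sdiff_inter η γ), Finset.sdiff_union_inter]
  have h3 : ∑ e ∈ γ, bd e = ∑ e ∈ γ \ η, bd e + ∑ e ∈ η ∩ γ, bd e := by
    rw [Finset.inter_comm, ← Finset.sum_union (Finset.disjoint_sdiff_inter γ η),
      Finset.sdiff_union_inter]
  have h4 : η ∆ γ = (η \ γ) ∪ (γ \ η) := rfl
  rw [h4, Finset.sum_union disjoint_sdiff_sdiff, h1, h3]
  have h5 := h2 (∑ e ∈ η ∩ γ, bd e)
  have h6 : ∑ e ∈ η \ γ, bd e + ∑ e ∈ η ∩ γ, bd e + (∑ e ∈ γ \ η, bd e + ∑ e ∈ η ∩ γ, bd e) =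
      ∑ e ∈ η \ γ, bd e + ∑ e ∈ γ \ η, bd e + (∑ e ∈ η ∩ γ, bd e + ∑ e ∈ η ∩ γ, bd e) := by
    abel
  rw [h6, h5, add_zero]

open Classical in
private lemma prodDom_evn (bd : E → G) (ω : Finset E) :
    evn bd ω = ((ω.powerset.filter (fun η => bdy bd η = 0)).card : ℝ) := by
  unfold evn
  rw [Finset.sum_boole]

open Classical in
private lemma prodDom_lattice (h2 : ∀ g : G, g + g = 0) (h2' : ∀ g : G', g + g = 0) (bd : E → G)
    (bd' : E → G') {D₁ D₂ : Finset E}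
    (hker : ∀ η₁ ⊆ D₁, ∀ η₂ ⊆ D₂, bdy bd (η₁ ∪ η₂) = 0 → bdy bd' η₂ = 0)
    {ω₁ ω ω' : Finset E} (h₁ : ω₁ ⊆ D₁) (hω : ω ⊆ D₂) (hd : Disjoint D₁ D₂) :
    evn bd (ω₁ ∪ ω) * evn bd' ω' ≤ evn bd (ω₁ ∪ (ω ∩ ω')) * evn bd' (ω ∪ ω') := by
  rw [prodDom_evn, prodDom_evn, prodDom_evn, prodDom_evn]
  set S1 := (ω₁ ∪ ω).powerset.filter (fun η => bdy bd η = 0) with hS1
  set S2 := ω'.powerset.filter (fun η => bdy bd' η = 0) with hS2
  set T1 := (ω₁ ∪ (ω ∩ ω')).powerset.filter (fun η => bdy bd η = 0) with hT1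
  set T2 := (ω ∪ ω').powerset.filter (fun η => bdy bd' η = 0) with hT2
  have key : (S1 ×ˢ S2).card ≤ T1.card * T2.card := by
    apply Finset.card_le_mul_card_image_of_maps_to
      (f := fun p : Finset E × Finset E => (p.1 ∩ D₂) ∆ p.2)
    · rintro ⟨a, a'⟩ hp
      rw [Finset.mem_product, hS1, hS2, Finset.mem_filter, Finset.mem_filter,
        Finset.mem_powerset, Finset.mem_powerset] at hp
      obtain ⟨⟨ha, ha0⟩, ⟨ha', ha0'⟩⟩ := hp
      simp only at ha ha0 ha' ha0'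
      rw [hT2, Finset.mem_filter, Finset.mem_powerset]
      have haD : bdy bd' (a ∩ D₂) = 0 := by
        apply hker (a ∩ D₁) Finset.inter_subset_right (a ∩ D₂) Finset.inter_subset_right
        rw [← Finset.inter_union_distrib_left]
        have : a ∩ (D₁ ∪ D₂) = a := by
          rw [Finset.inter_eq_left]
          exact ha.trans (Finset.union_subset_union h₁ hω)
        rw [this]
        exact ha0
      refine ⟨?_, ?_⟩
      · intro e he
        rw [Finset.mem_symmDiff] at he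
        rw [Finset.mem_union]
        rcases he with ⟨he, -⟩ | ⟨he, -⟩
        · rw [Finset.mem_inter] at he
          rcases Finset.mem_union.1 (ha he.1) with h | h
          · exact absurd he.2 (Finset.disjoint_left.1 hd (h₁ h))
          · exact Or.inl h
        · exact Or.inr (ha' he)
      · rw [prodDom_bdy h2', haD, ha0', add_zero]
    · intro b _
      rcases Finset.eq_empty_or_nonempty
        ((S1 ×ˢ S2).filter (fun p : Finset E × Finset E => (p.1 ∩ D₂) ∆ p.2 = b)) with h | h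
      · rw [h]
        exact Nat.zero_le _
      · obtain ⟨⟨c, c'⟩, hc⟩ := h
        apply Finset.card_le_card_of_injOn (fun p : Finset E × Finset E => p.1 ∆ c)
        · rintro ⟨a, a'⟩ hp
          have hp' := Finset.mem_filter.1 (Finset.mem_coe.1 hp)
          have hc' := Finset.mem_filter.1 hc
          rw [Finset.mem_product, hS1, hS2, Finset.mem_filter, Finset.mem_filter,
            Finset.mem_powerset, Finset.mem_powerset] at hp' hc'
          obtain ⟨⟨⟨ha, ha0⟩, ⟨ha', ha0'⟩⟩, hab⟩ := hp'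
          obtain ⟨⟨⟨hcc, hc0⟩, ⟨hcc', hc0'⟩⟩, hcb⟩ := hc'
          simp only at ha ha0 ha' ha0' hab hcc hc0 hcc' hc0' hcb
          apply Finset.mem_coe.2
          rw [hT1, Finset.mem_filter, Finset.mem_powerset]
          refine ⟨?_, ?_⟩
          · intro e he
            have he1 : e ∈ ω₁ ∪ ω := by
              rw [Finset.mem_symmDiff] at he
              rcases he with ⟨he, -⟩ | ⟨he, -⟩
              · exact ha he
              · exact hcc he
            rw [Finset.mem_union] at he1 ⊢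
            rcases he1 with he1 | he1
            · exact Or.inl he1
            · right
              rw [Finset.mem_inter]
              refine ⟨he1, ?_⟩
              have heD : e ∈ D₂ := hω he1
              have h3 : (a ∩ D₂) ∆ a' = (c ∩ D₂) ∆ c' := hab.trans hcb.symm
              have h4 : e ∈ (a ∩ D₂) ∆ a' ↔ e ∈ (c ∩ D₂) ∆ c' := by rw [h3]
              rw [Finset.mem_symmDiff, Finset.mem_symmDiff, Finset.mem_inter,
                Finset.mem_inter] at h4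
              rw [Finset.mem_symmDiff] at he
              by_contra hne
              have h5 : e ∉ a' := fun h => hne (ha' h)
              have h6 : e ∉ c' := fun h => hne (hcc' h)
              tauto
          · rw [prodDom_bdy h2, ha0, hc0, add_zero]
        · rintro ⟨a, a'⟩ hp ⟨a₂, a₂'⟩ hp2 he
          have hp' := (Finset.mem_filter.1 (Finset.mem_coe.1 hp)).2
          have hp2' := (Finset.mem_filter.1 (Finset.mem_coe.1 hp2)).2
          simp only at hp' hp2' he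
          have e1 : a = a₂ := symmDiff_left_injective c he
          subst e1
          have e2 : a' = a₂' := by
            rw [← hp2'] at hp'
            exact symmDiff_right_injective (a ∩ D₂) hp'
          rw [e2]
  rw [Finset.card_product] at key
  exact_mod_cast key

open Classical in
/-- indicator -/
private noncomputable def prodDomI (p : Prop) : ℝ := if p then 1 else 0

private lemma prodDomI_pos {p : Prop} (h : p) : prodDomI p = 1 := if_pos h

private lemma prodDomI_neg {p : Prop} (h : ¬ p) : prodDomI p = 0 := if_neg h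

private lemma prodDomI_nonneg (p : Prop) : 0 ≤ prodDomI p := by
  unfold prodDomI
  split_ifs <;> norm_num

/-- the product part of the weight -/
private noncomputable def prodDomW (x : E → ℝ) (D ω : Finset E) : ℝ :=
  ∏ e ∈ D, if e ∈ ω then x e else 1 - x e

private lemma prodDomW_eq (x : E → ℝ) {D ω : Finset E} (h : ω ⊆ D) :
    (∏ e ∈ ω, x e) * ∏ e ∈ D \ ω, (1 - x e) = prodDomW x D ω := by
  unfold prodDomW
  rw [Finset.prod_ite]
  congr 1
  · apply Finset.prod_congr _ (fun _ _ => rfl)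
    ext e
    rw [Finset.mem_filter]
    exact ⟨fun he => ⟨h he, he⟩, fun he => he.2⟩
  · apply Finset.prod_congr _ (fun _ _ => rfl)
    ext e
    rw [Finset.mem_filter, Finset.mem_sdiff]

private lemma prodDomW_nonneg {x : E → ℝ} {D : Finset E} (h0 : ∀ e ∈ D, 0 ≤ x e)
    (h1 : ∀ e ∈ D, x e ≤ 1) (ω : Finset E) : 0 ≤ prodDomW x D ω := by
  unfold prodDomW
  apply Finset.prod_nonneg
  intro e he
  split_ifs
  · exact h0 e he
  · linarith [h1 e he]

private lemma prodDomW_mul (x : E → ℝ) (D ω ω' : Finset E) :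
    prodDomW x D ω * prodDomW x D ω' = prodDomW x D (ω ∩ ω') * prodDomW x D (ω ∪ ω') := by
  unfold prodDomW
  rw [← Finset.prod_mul_distrib, ← Finset.prod_mul_distrib]
  apply Finset.prod_congr rfl
  intro e _
  by_cases h : e ∈ ω <;> by_cases h' : e ∈ ω' <;> simp [h, h', mul_comm]

private lemma prodDomW_union (x : E → ℝ) {D₁ D₂ ω₁ ω₂ : Finset E} (hd : Disjoint D₁ D₂)
    (h₁ : ω₁ ⊆ D₁) (h₂ : ω₂ ⊆ D₂) :
    prodDomW x (D₁ ∪ D₂) (ω₁ ∪ ω₂) = prodDomW x D₁ ω₁ * prodDomW x D₂ ω₂ := by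
  unfold prodDomW
  rw [Finset.prod_union hd]
  congr 1
  · apply Finset.prod_congr rfl
    intro e he
    have : e ∈ ω₁ ∪ ω₂ ↔ e ∈ ω₁ := by
      rw [Finset.mem_union]
      exact ⟨fun h => h.resolve_right (fun h' => Finset.disjoint_left.1 hd he (h₂ h')), Or.inl⟩
    simp only [this]
  · apply Finset.prod_congr rfl
    intro e he
    have : e ∈ ω₁ ∪ ω₂ ↔ e ∈ ω₂ := by
      rw [Finset.mem_union]
      exact ⟨fun h => h.resolve_left (fun h' => Finset.disjoint_right.1 hd he (h₁ h')), Or.inr⟩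
    simp only [this]

private lemma prodDom_sum {D₁ D₂ : Finset E} (hd : Disjoint D₁ D₂) (F : Finset E → ℝ) :
    ∑ ω ∈ (D₁ ∪ D₂).powerset, F ω =
      ∑ ω₁ ∈ D₁.powerset, ∑ ω₂ ∈ D₂.powerset, F (ω₁ ∪ ω₂) := by
  rw [← Finset.sum_product']
  refine Finset.sum_bij' (fun ω _ => (ω ∩ D₁, ω ∩ D₂)) (fun p _ => p.1 ∪ p.2) ?_ ?_ ?_ ?_ ?_
  · intro ω _
    rw [Finset.mem_product, Finset.mem_powerset, Finset.mem_powerset]
    exact ⟨Finset.inter_subset_right, Finset.inter_subset_right⟩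
  · rintro ⟨a, b⟩ hp
    rw [Finset.mem_product, Finset.mem_powerset, Finset.mem_powerset] at hp
    rw [Finset.mem_powerset]
    exact Finset.union_subset_union hp.1 hp.2
  · intro ω hω
    rw [Finset.mem_powerset] at hω
    simp only
    rw [← Finset.inter_union_distrib_left, Finset.inter_eq_left]
    exact hω
  · rintro ⟨a, b⟩ hp
    rw [Finset.mem_product, Finset.mem_powerset, Finset.mem_powerset] at hp
    obtain ⟨ha, hb⟩ := hp
    simp only at ha hb
    simp only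
    rw [Prod.mk.injEq]
    constructor
    · ext e
      rw [Finset.mem_inter, Finset.mem_union]
      exact ⟨fun h => h.1.resolve_right (fun h' => Finset.disjoint_left.1 hd h.2 (hb h')),
        fun h => ⟨Or.inl h, ha h⟩⟩
    · ext e
      rw [Finset.mem_inter, Finset.mem_union]
      exact ⟨fun h => h.1.resolve_left (fun h' => Finset.disjoint_right.1 hd h.2 (ha h')),
        fun h => ⟨Or.inr h, hb h⟩⟩
  · intro ω hω
    rw [Finset.mem_powerset] at hω
    simp only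
    congr 1
    rw [← Finset.inter_union_distrib_left]
    exact (Finset.inter_eq_left.2 hω).symm

private lemma prodDom_evn_nonneg (bd : E → G) (ω : Finset E) : 0 ≤ evn bd ω := by
  rw [prodDom_evn]
  positivity

open Classical in
/-- four functions theorem for one configuration in `D₁` -/
private lemma prodDom_four (h2 : ∀ g : G, g + g = 0) (h2' : ∀ g : G', g + g = 0) (bd : E → G)
    (bd' : E → G') {D₁ D₂ : Finset E} {x : E → ℝ} (hd : Disjoint D₁ D₂)
    (h0 : ∀ e ∈ D₂, 0 ≤ x e) (h1 : ∀ e ∈ D₂, x e ≤ 1)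
    (hker : ∀ η₁ ⊆ D₁, ∀ η₂ ⊆ D₂, bdy bd (η₁ ∪ η₂) = 0 → bdy bd' η₂ = 0)
    {ω₁ : Finset E} (hω₁ : ω₁ ⊆ D₁) {P : Finset E → Prop} (hP : Incr D₂ P) :
    (∑ ω ∈ D₂.powerset, evn bd (ω₁ ∪ ω) * prodDomW x D₂ ω * prodDomI (P ω)) *
      (∑ ω ∈ D₂.powerset, evn bd' ω * prodDomW x D₂ ω) ≤
    (∑ ω ∈ D₂.powerset, evn bd (ω₁ ∪ ω) * prodDomW x D₂ ω) *
      (∑ ω ∈ D₂.powerset, evn bd' ω * prodDomW x D₂ ω * prodDomI (P ω)) := by
  have hw := prodDomW_nonneg h0 h1
  have hi : ∀ ω : Finset E, (0 : ℝ) ≤ prodDomI (P ω) := fun ω => prodDomI_nonneg _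
  have h := Finset.four_functions_theorem (β := ℝ) D₂
    (f₁ := fun ω => evn bd (ω₁ ∪ ω) * prodDomW x D₂ ω * prodDomI (P ω))
    (f₂ := fun ω => evn bd' ω * prodDomW x D₂ ω)
    (f₃ := fun ω => evn bd (ω₁ ∪ ω) * prodDomW x D₂ ω)
    (f₄ := fun ω => evn bd' ω * prodDomW x D₂ ω * prodDomI (P ω))
    (fun ω => mul_nonneg (mul_nonneg (prodDom_evn_nonneg _ _) (hw _)) (hi _))
    (fun ω => mul_nonneg (prodDom_evn_nonneg _ _) (hw _))
    (fun ω => mul_nonneg (prodDom_evn_nonneg _ _) (hw _))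
    (fun ω => mul_nonneg (mul_nonneg (prodDom_evn_nonneg _ _) (hw _)) (hi _))
    ?_ (Finset.Subset.refl D₂.powerset) (Finset.Subset.refl D₂.powerset)
  · rwa [Finset.powerset_infs_powerset_self, Finset.powerset_sups_powerset_self] at h
  · intro s hs t ht
    have hlat := prodDom_lattice h2 h2' bd bd' hker hω₁ hs hd (ω' := t)
    have hmul := prodDomW_mul x D₂ s t
    have hww : 0 ≤ prodDomW x D₂ s * prodDomW x D₂ t := mul_nonneg (hw _) (hw _)
    have e1 : evn bd (ω₁ ∪ s) * prodDomW x D₂ s * (evn bd' t * prodDomW x D₂ t) ≤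
        evn bd (ω₁ ∪ (s ∩ t)) * prodDomW x D₂ (s ∩ t) *
          (evn bd' (s ∪ t) * prodDomW x D₂ (s ∪ t)) := by
      calc evn bd (ω₁ ∪ s) * prodDomW x D₂ s * (evn bd' t * prodDomW x D₂ t)
          = (evn bd (ω₁ ∪ s) * evn bd' t) * (prodDomW x D₂ s * prodDomW x D₂ t) := by ring
        _ ≤ (evn bd (ω₁ ∪ (s ∩ t)) * evn bd' (s ∪ t)) *
            (prodDomW x D₂ s * prodDomW x D₂ t) := mul_le_mul_of_nonneg_right hlat hww
        _ = _ := by
            rw [hmul]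
            ring
    have e2 : 0 ≤ evn bd (ω₁ ∪ (s ∩ t)) * prodDomW x D₂ (s ∩ t) *
          (evn bd' (s ∪ t) * prodDomW x D₂ (s ∪ t)) :=
      mul_nonneg (mul_nonneg (prodDom_evn_nonneg _ _) (hw _))
        (mul_nonneg (prodDom_evn_nonneg _ _) (hw _))
    by_cases hPs : P s
    · have hPst : P (s ∪ t) :=
        hP s (s ∪ t) Finset.subset_union_left (Finset.union_subset hs ht) hPs
      rw [prodDomI_pos hPs, prodDomI_pos hPst, mul_one, mul_one]
      exact e1
    · rw [prodDomI_neg hPs, mul_zero, zero_mul]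
      exact mul_nonneg (mul_nonneg (prodDom_evn_nonneg _ _) (hw _))
        (mul_nonneg (mul_nonneg (prodDom_evn_nonneg _ _) (hw _)) (hi _))

open Classical in
private lemma prodDom_fkP (bd : E → G) (D : Finset E) (x : E → ℝ) (P : Finset E → Prop) :
    fkP bd D x P = (∑ ω ∈ D.powerset, evn bd ω * prodDomW x D ω * prodDomI (P ω)) /
      Zp bd D x 0 := by
  unfold fkP fkE
  congr 1
  apply Finset.sum_congr rfl
  intro ω hω
  rw [Finset.mem_powerset] at hω
  unfold fkW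
  rw [prodDomW_eq x hω]
  rfl

private lemma prodDom_dep₁ {D₁ D₂ ω₁ ω₂ : Finset E} (hd : Disjoint D₁ D₂) (h₂ : ω₂ ⊆ D₂) {P : Finset E → Prop} (hP : DepOn D₁ P) : P (ω₁ ∪ ω₂) ↔ P ω₁ := by
  rw [hP (ω₁ ∪ ω₂), hP ω₁]
  have : (ω₁ ∪ ω₂) ∩ D₁ = ω₁ ∩ D₁ := by
    ext e
    rw [Finset.mem_inter, Finset.mem_inter, Finset.mem_union]
    exact ⟨fun h => ⟨h.1.resolve_right (fun h' => Finset.disjoint_left.1 hd h.2 (h₂ h')), h.2⟩,
      fun h => ⟨Or.inl h.1, h.2⟩⟩
  rw [this]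

end prodDomSec

open Classical in
theorem prodDom (h1 : Coupling) : ProdDom := by
  intro E G G' _ _ _ h2 h2' bd bd' D₁ D₂ x hd hx0 hx1 hker P₁ P₂ hP₁ hP₂ hI
  have hx0' : ∀ e ∈ D₂, 0 ≤ x e := fun e he => hx0 e (Finset.mem_union_right _ he)
  have hx1' : ∀ e ∈ D₂, x e ≤ 1 := fun e he => hx1 e (Finset.mem_union_right _ he)
  have hx0'' : ∀ e ∈ D₁, 0 ≤ x e := fun e he => hx0 e (Finset.mem_union_left _ he)
  have hx1'' : ∀ e ∈ D₁, x e ≤ 1 := fun e he => hx1 e (Finset.mem_union_left _ he)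
  obtain ⟨-, -, -, -, -, ⟨hZ1, -⟩, -⟩ := h1 E G h2 bd (D₁ ∪ D₂) x hx0 hx1
  obtain ⟨hsum, -, -, -, -, ⟨hZ2, -⟩, -⟩ := h1 E G' h2' bd' D₂ x hx0' hx1'
  rw [prodDom_fkP, prodDom_fkP, prodDom_fkP]
  set Z := Zp bd (D₁ ∪ D₂) x 0 with hZ
  set Z' := Zp bd' D₂ x 0 with hZ'
  have hZ'sum : ∑ ω ∈ D₂.powerset, evn bd' ω * prodDomW x D₂ ω = Z' := by
    rw [← hsum]
    apply Finset.sum_congr rfl
    intro ω hω
    rw [Finset.mem_powerset] at hω
    unfold fkW
    rw [prodDomW_eq x hω]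
  set A := ∑ ω ∈ D₂.powerset, evn bd' ω * prodDomW x D₂ ω * prodDomI (P₂ ω) with hA
  have hZp : 0 < Z := by linarith
  have hZp' : 0 < Z' := by linarith
  have eL : ∑ ω ∈ (D₁ ∪ D₂).powerset, evn bd ω * prodDomW x (D₁ ∪ D₂) ω *
        prodDomI (P₁ ω ∧ P₂ ω) =
      ∑ ω₁ ∈ D₁.powerset, (prodDomW x D₁ ω₁ * prodDomI (P₁ ω₁)) *
        ∑ ω ∈ D₂.powerset, evn bd (ω₁ ∪ ω) * prodDomW x D₂ ω * prodDomI (P₂ ω) := by
    rw [prodDom_sum hd]
    apply Finset.sum_congr rfl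
    intro ω₁ hω₁
    rw [Finset.mem_powerset] at hω₁
    rw [Finset.mul_sum]
    apply Finset.sum_congr rfl
    intro ω hω
    rw [Finset.mem_powerset] at hω
    rw [prodDomW_union x hd hω₁ hω]
    have e1 : P₁ (ω₁ ∪ ω) ↔ P₁ ω₁ := prodDom_dep₁ hd hω hP₁
    have e2 : P₂ (ω₁ ∪ ω) ↔ P₂ ω := by
      rw [Finset.union_comm]
      exact prodDom_dep₁ hd.symm hω₁ hP₂
    by_cases c1 : P₁ ω₁
    · by_cases c2 : P₂ ω
      · rw [prodDomI_pos ⟨e1.2 c1, e2.2 c2⟩, prodDomI_pos c1, prodDomI_pos c2]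
        ring
      · rw [prodDomI_neg (fun h => c2 (e2.1 h.2)), prodDomI_neg c2]
        ring
    · rw [prodDomI_neg (fun h => c1 (e1.1 h.1)), prodDomI_neg c1]
      ring
  have eR : ∑ ω ∈ (D₁ ∪ D₂).powerset, evn bd ω * prodDomW x (D₁ ∪ D₂) ω *
        prodDomI (P₁ ω) =
      ∑ ω₁ ∈ D₁.powerset, (prodDomW x D₁ ω₁ * prodDomI (P₁ ω₁)) *
        ∑ ω ∈ D₂.powerset, evn bd (ω₁ ∪ ω) * prodDomW x D₂ ω := by
    rw [prodDom_sum hd]
    apply Finset.sum_congr rfl
    intro ω₁ hω₁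
    rw [Finset.mem_powerset] at hω₁
    rw [Finset.mul_sum]
    apply Finset.sum_congr rfl
    intro ω hω
    rw [Finset.mem_powerset] at hω
    rw [prodDomW_union x hd hω₁ hω]
    have e1 : P₁ (ω₁ ∪ ω) ↔ P₁ ω₁ := prodDom_dep₁ hd hω hP₁
    by_cases c1 : P₁ ω₁
    · rw [prodDomI_pos (e1.2 c1), prodDomI_pos c1]
      ring
    · rw [prodDomI_neg (fun h => c1 (e1.1 h)), prodDomI_neg c1]
      ring
  rw [div_mul_div_comm, div_le_div_iff₀ hZp (mul_pos hZp hZp'), eL, eR]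
  have main : (∑ ω₁ ∈ D₁.powerset, (prodDomW x D₁ ω₁ * prodDomI (P₁ ω₁)) *
        ∑ ω ∈ D₂.powerset, evn bd (ω₁ ∪ ω) * prodDomW x D₂ ω * prodDomI (P₂ ω)) * Z' ≤
      (∑ ω₁ ∈ D₁.powerset, (prodDomW x D₁ ω₁ * prodDomI (P₁ ω₁)) *
        ∑ ω ∈ D₂.powerset, evn bd (ω₁ ∪ ω) * prodDomW x D₂ ω) * A := by
    rw [Finset.sum_mul, Finset.sum_mul]
    apply Finset.sum_le_sum
    intro ω₁ hω₁
    rw [Finset.mem_powerset] at hω₁
    have h4 := prodDom_four h2 h2' bd bd' hd hx0' hx1' hker hω₁ hI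
    rw [hZ'sum] at h4
    have hc : (0 : ℝ) ≤ prodDomW x D₁ ω₁ * prodDomI (P₁ ω₁) := by
      exact mul_nonneg (prodDomW_nonneg hx0'' hx1'' _) (prodDomI_nonneg _)
    calc _ = (prodDomW x D₁ ω₁ * prodDomI (P₁ ω₁)) *
          ((∑ ω ∈ D₂.powerset, evn bd (ω₁ ∪ ω) * prodDomW x D₂ ω *
            prodDomI (P₂ ω)) * Z') := by ring
      _ ≤ (prodDomW x D₁ ω₁ * prodDomI (P₁ ω₁)) *
          ((∑ ω ∈ D₂.powerset, evn bd (ω₁ ∪ ω) * prodDomW x D₂ ω) * A) :=
          mul_le_mul_of_nonneg_left h4 hc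
      _ = _ := by ring
  have := mul_le_mul_of_nonneg_right main hZp.le
  calc _ = _ := by ring
    _ ≤ _ := this

end Pool.Agent.Lib.MP_6d40c9_pr
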