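import Pool.Agent.Lib.MP_6d40c9_pr.SpecK

/-!
# Ratios of partition functions when edges are removed
-/

set_option autoImplicit false
set_option linter.unusedSectionVars false

namespace Pool.Agent.Lib.MP_6d40c9_pr

open Finset
open scoped BigOperators symmDiff

section RatioMonoAux

variable {E G : Type} [DecidableEq E] [AddCommGroup G]

/-- Splitting off one edge. -/
private lemma ratioMono_split (h2 : ∀ g : G, g + g = 0) (bd : E → G) (D : Finset E) (x : E → ℝ)
    (e : E) (he : e ∈ D) (f : G) :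
    Zp bd D x f = Zp bd (D.erase e) x f + x e * Zp bd (D.erase e) x (f + bd e) := by
  classical
  have hins : D = insert e (D.erase e) := (Finset.insert_erase he).symm
  have hne : e ∉ D.erase e := Finset.notMem_erase e D
  unfold Zp
  conv_lhs => rw [hins]
  rw [Finset.sum_powerset_insert hne, Finset.mul_sum]
  congr 1
  refine Finset.sum_congr rfl ?_
  intro η hη
  have heη : e ∉ η := fun h => hne (Finset.mem_powerset.mp hη h)
  have hb : bdy bd (insert e η) = bd e + bdy bd η := by
    unfold bdy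
    rw [Finset.sum_insert heη]
  have hiff : (bdy bd (insert e η) = f) ↔ (bdy bd η = f + bd e) := by
    rw [hb]
    constructor
    · intro h
      rw [← h]
      have := h2 (bd e)
      calc bdy bd η = (bd e + bd e) + bdy bd η := by rw [this, zero_add]
        _ = bd e + bdy bd η + bd e := by abel
    · intro h
      rw [h]
      have := h2 (bd e)
      calc bd e + (f + bd e) = (bd e + bd e) + f := by abel
        _ = f := by rw [this, zero_add]
  by_cases h : bdy bd η = f + bd e
  · rw [if_pos (hiff.mpr h), if_pos h, Finset.prod_insert heη]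
  · rw [if_neg (fun h' => h (hiff.mp h')), if_neg h, mul_zero]

private lemma ratioMono_nonneg (bd : E → G) (D : Finset E) (x : E → ℝ) (hx : ∀ e ∈ D, 0 ≤ x e)
    (f : G) : 0 ≤ Zp bd D x f := by
  classical
  unfold Zp
  refine Finset.sum_nonneg ?_
  intro η hη
  split_ifs
  · exact Finset.prod_nonneg fun e he => hx e (Finset.mem_powerset.mp hη he)
  · exact le_refl _

private lemma ratioMono_one (bd : E → G) (D : Finset E) (x : E → ℝ) (hx : ∀ e ∈ D, 0 ≤ x e) :
    1 ≤ Zp bd D x 0 := by
  classical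
  unfold Zp
  have h := Finset.single_le_sum (s := D.powerset)
    (f := fun η => if bdy bd η = 0 then ∏ e ∈ η, x e else 0) (fun η hη => by
      split_ifs
      · exact Finset.prod_nonneg fun e he => hx e (Finset.mem_powerset.mp hη he)
      · exact le_refl _) (Finset.empty_mem_powerset D)
  have h0 : bdy bd (∅ : Finset E) = 0 := by unfold bdy; simp
  rw [if_pos h0, Finset.prod_empty] at h
  exact h

/-- The one edge case. -/
private lemma ratioMono_edge (h : CorrMono) (h2 : ∀ g : G, g + g = 0) (bd : E → G)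
    (D H : Finset E) (x : E → ℝ) (hHD : H ⊆ D) (hx0 : ∀ e ∈ D, 0 ≤ x e) (hx1 : ∀ e ∈ D, x e ≤ 1)
    (e : E) :
    Zp bd H x 0 * Zp bd (D.erase e) x 0 ≤ Zp bd D x 0 * Zp bd (H.erase e) x 0 := by
  classical
  have hx0' : ∀ a ∈ D.erase e, 0 ≤ x a := fun a ha => hx0 a (Finset.mem_of_mem_erase ha)
  have hx1' : ∀ a ∈ D.erase e, x a ≤ 1 := fun a ha => hx1 a (Finset.mem_of_mem_erase ha)
  have hH0 : 0 ≤ Zp bd (H.erase e) x 0 :=
    ratioMono_nonneg bd _ x (fun a ha => hx0 a (hHD (Finset.mem_of_mem_erase ha))) 0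
  by_cases heD : e ∈ D
  · have hD := ratioMono_split h2 bd D x e heD 0
    by_cases heH : e ∈ H
    · have hH := ratioMono_split h2 bd H x e heH 0
      have hc := h.2 E G h2 bd (D.erase e) (H.erase e) x (Finset.erase_subset_erase e hHD) hx0'
        hx1' (0 + bd e)
      rw [hD, hH]
      have hxe : 0 ≤ x e := hx0 e heD
      nlinarith [mul_le_mul_of_nonneg_left hc hxe]
    · have hHe : H.erase e = H := Finset.erase_eq_of_notMem heH
      rw [hHe]
      have hle : Zp bd (D.erase e) x 0 ≤ Zp bd D x 0 := by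
        rw [hD]
        have := mul_nonneg (hx0 e heD) (ratioMono_nonneg bd (D.erase e) x hx0' (0 + bd e))
        linarith
      rw [hHe] at hH0
      calc Zp bd H x 0 * Zp bd (D.erase e) x 0 ≤ Zp bd H x 0 * Zp bd D x 0 :=
            mul_le_mul_of_nonneg_left hle hH0
        _ = Zp bd D x 0 * Zp bd H x 0 := mul_comm _ _
  · have heH : e ∉ H := fun hh => heD (hHD hh)
    rw [Finset.erase_eq_of_notMem heD, Finset.erase_eq_of_notMem heH, mul_comm]

private lemma ratioMono_aux (h : CorrMono) (h2 : ∀ g : G, g + g = 0) (bd : E → G)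
    (x : E → ℝ) (M : Finset E) : ∀ (D H : Finset E), H ⊆ D → (∀ e ∈ D, 0 ≤ x e) →
    (∀ e ∈ D, x e ≤ 1) →
    Zp bd H x 0 * Zp bd (D \ M) x 0 ≤ Zp bd D x 0 * Zp bd (H \ M) x 0 := by
  classical
  induction M using Finset.induction_on with
  | empty =>
    intro D H _ _ _
    rw [Finset.sdiff_empty, Finset.sdiff_empty, mul_comm]
  | insert e M _ ih =>
    intro D H hHD hx0 hx1
    have hx0' : ∀ a ∈ D.erase e, 0 ≤ x a := fun a ha => hx0 a (Finset.mem_of_mem_erase ha)
    have hx1' : ∀ a ∈ D.erase e, x a ≤ 1 := fun a ha => hx1 a (Finset.mem_of_mem_erase ha)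
    have hs : ∀ S : Finset E, S \ insert e M = (S.erase e) \ M := by
      intro S
      ext a
      simp only [Finset.mem_sdiff, Finset.mem_insert, Finset.mem_erase, not_or]
      tauto
    rw [hs D, hs H]
    have h1 := ih (D.erase e) (H.erase e) (Finset.erase_subset_erase e hHD) hx0' hx1'
    have h3 := ratioMono_edge h h2 bd D H x hHD hx0 hx1 e
    have hHe0 : ∀ a ∈ H.erase e, 0 ≤ x a := fun a ha => hx0 a (hHD (Finset.mem_of_mem_erase ha))
    have p1 : 0 < Zp bd (H.erase e) x 0 := lt_of_lt_of_le one_pos (ratioMono_one bd _ x hHe0)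
    have p2 : 0 < Zp bd (D.erase e) x 0 := lt_of_lt_of_le one_pos (ratioMono_one bd _ x hx0')
    have n1 : 0 ≤ Zp bd H x 0 := ratioMono_nonneg bd H x (fun a ha => hx0 a (hHD ha)) 0
    have n2 : 0 ≤ Zp bd D x 0 := ratioMono_nonneg bd D x hx0 0
    have n3 : 0 ≤ Zp bd (D.erase e \ M) x 0 :=
      ratioMono_nonneg bd _ x (fun a ha => hx0' a (Finset.mem_sdiff.mp ha).1) 0
    have hmul := mul_le_mul h3 h1 (mul_nonneg p1.le n3) (mul_nonneg n2 p1.le)
    refine le_of_mul_le_mul_right ?_ (mul_pos p1 p2)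
    calc Zp bd H x 0 * Zp bd (D.erase e \ M) x 0 * (Zp bd (H.erase e) x 0 * Zp bd (D.erase e) x 0)
        = Zp bd H x 0 * Zp bd (D.erase e) x 0 *
          (Zp bd (H.erase e) x 0 * Zp bd (D.erase e \ M) x 0) := by ring
      _ ≤ Zp bd D x 0 * Zp bd (H.erase e) x 0 *
          (Zp bd (D.erase e) x 0 * Zp bd (H.erase e \ M) x 0) := hmul
      _ = Zp bd D x 0 * Zp bd (H.erase e \ M) x 0 *
          (Zp bd (H.erase e) x 0 * Zp bd (D.erase e) x 0) := by ring

end RatioMonoAux

theorem ratioMono (h : CorrMono) : RatioMono := by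
  intro E G _ _ h2 bd D H M x hHD hx0 hx1
  exact ratioMono_aux h h2 bd x M D H hHD hx0 hx1

end Pool.Agent.Lib.MP_6d40c9_pr
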