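import Pool.Agent.Lib.MP_6d40c9_pr.SpecL

/-!
# Bounded second moments of the spin field (SfBdS)
-/

set_option autoImplicit false

namespace Pool.Agent.Lib.MP_6d40c9_pr

open Finset MeasureTheory Filter Topology TopologicalSpace Metric
open scoped BigOperators

/-- Bounded second moments for all test functions. -/
theorem sfBdS (h1 : MomS) (h2 : Split) (h3 : LEFacts) : SfBdS := by
  classical
  intro hMm Ω hop hbdd hconn f hf
  obtain ⟨C, hC0, hC⟩ := h1 hMm
  obtain ⟨-, hlin, hmono, -, hsum, -, -⟩ := h3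
  -- a ball containing `Ω`
  obtain ⟨A, hA0, hA⟩ : ∃ A : ℝ, 0 < A ∧ Ω ⊆ closedBall 0 A := by
    obtain ⟨A, hA⟩ := (isBounded_iff_subset_closedBall (0 : ℝ × ℝ)).1 hbdd
    exact ⟨max A 1, lt_of_lt_of_le one_pos (le_max_right _ _),
      hA.trans (closedBall_subset_closedBall (le_max_left _ _))⟩
  -- a bound for `f`
  obtain ⟨M, hM⟩ : ∃ M, ∀ x, |f x| ≤ M := by
    obtain ⟨M, hM⟩ := hf.1.continuous.bounded_above_of_compact_support hf.2.1
    exact ⟨M, fun x => by simpa using hM x⟩
  -- distance of the support from the complement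
  obtain ⟨ρ, hρ, hρΩ⟩ := hf.2.1.isCompact.exists_cthickening_subset_open hop hf.2.2
  have hball : ∀ x ∈ tsupport f, closedBall x ρ ⊆ Ω := fun x hx =>
    (closedBall_subset_cthickening hx ρ).trans hρΩ
  obtain ⟨r, hr⟩ : ∃ r, r = ρ / 3 := ⟨_, rfl⟩
  have hr0 : 0 < r := by rw [hr]; positivity
  set p : Par := ⟨Ω, A, r, 11 / 16 * r, r / 8, 1, 3 / 4⟩ with hp
  have hgood : p.Good := by
    refine ⟨hr0, hA0, ?_, ?_, ?_, ?_, ?_, ?_, ?_, hA⟩ <;> simp only [hp] <;> linarith
  refine ⟨((Ix A r).card : ℝ) * (((Ix A r).card : ℝ) * (C * M ^ 2 * r ^ (15 / 4 : ℝ))), r / 16,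
    by positivity, ?_⟩
  intro δ hδ hδr
  have hδ16 : 16 * δ ≤ p.r := by
    change 16 * δ ≤ r
    linarith
  have hsf := (h2 p δ f hgood hδ hδ16).1
  have hnn : 0 ≤ C * M ^ 2 * r ^ (15 / 4 : ℝ) := by positivity
  -- each square
  have hb : ∀ b ∈ Ix A r, lE (DD Ω δ) (fun w => aV p δ f b w ^ 2) ≤
      C * M ^ 2 * r ^ (15 / 4 : ℝ) := by
    intro b _
    by_cases hx : ∃ x ∈ sq r b, f x ≠ 0
    · obtain ⟨x, hxs, hfx⟩ := hx
      have hxt : x ∈ tsupport f := subset_tsupport f hfx
      have hsub : closedBall (cen p.r b) (2 * p.r) ⊆ p.Ω := by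
        refine Set.Subset.trans ?_ (hball x hxt)
        refine closedBall_subset_closedBall' ?_
        have hd : dist (cen r b) x ≤ r / 2 := by
          obtain ⟨q1, q2, q3, q4⟩ := hxs
          rw [Prod.dist_eq]
          apply max_le
          · rw [Real.dist_eq, abs_le]
            simp only [cen]
            constructor <;> linarith
          · rw [Real.dist_eq, abs_le]
            simp only [cen]
            constructor <;> linarith
        change 2 * r + dist (cen r b) x ≤ ρ
        linarith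
      exact (hC p δ f M b hgood hconn hδ hδ16 hsub hM).1
    · push Not at hx
      have hz : ∀ w, aV p δ f b w ^ 2 = 0 := by
        intro w
        have : aV p δ f b w = 0 := by
          unfold aV
          rw [Finset.sum_eq_zero, mul_zero]
          intro u hu
          rw [hx _ (Finset.mem_filter.mp hu).2, zero_mul]
        rw [this]; norm_num
      have hzero : lE (DD Ω δ) (fun w => aV p δ f b w ^ 2) = 0 := by
        have e1 : (fun w => aV p δ f b w ^ 2) = fun w : Finset Edge =>
            0 * (fun _ => (1 : ℝ)) w + 0 * (fun _ => (1 : ℝ)) w := by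
          funext w; rw [hz w]; simp
        rw [e1, hlin]; simp
      rw [hzero]; exact hnn
  calc lE (DD Ω δ) (fun w => sf Ω δ f w ^ 2)
      ≤ lE (DD Ω δ) (fun w => ∑ b ∈ Ix A r, ((Ix A r).card : ℝ) * aV p δ f b w ^ 2) := by
        apply hmono
        intro w _ _
        have := hsf w
        change sf Ω δ f w = ∑ b ∈ Ix A r, aV p δ f b w at this
        rw [this, ← Finset.mul_sum]
        exact sq_sum_le_card_mul_sum_sq
    _ = ∑ b ∈ Ix A r, lE (DD Ω δ) (fun w => ((Ix A r).card : ℝ) * aV p δ f b w ^ 2) := hsum _ _ _ _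
    _ = ∑ b ∈ Ix A r, ((Ix A r).card : ℝ) * lE (DD Ω δ) (fun w => aV p δ f b w ^ 2) := by
        apply Finset.sum_congr rfl
        intro b _
        have := hlin (DD Ω δ) ((Ix A r).card : ℝ) 0 (fun w => aV p δ f b w ^ 2) (fun _ => 1)
        simpa using this
    _ ≤ ∑ b ∈ Ix A r, ((Ix A r).card : ℝ) * (C * M ^ 2 * r ^ (15 / 4 : ℝ)) := by
        apply Finset.sum_le_sum
        intro b hb'
        exact mul_le_mul_of_nonneg_left (hb b hb') (Nat.cast_nonneg _)
    _ = ((Ix A r).card : ℝ) * (((Ix A r).card : ℝ) * (C * M ^ 2 * r ^ (15 / 4 : ℝ))) := by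
        rw [Finset.sum_const, nsmul_eq_mul]

end Pool.Agent.Lib.MP_6d40c9_pr
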