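import Pool.Agent.Lib.MP_6d40c9_pr.SpecK

/-!
# Comparison with signed weights
-/

set_option autoImplicit false

namespace Pool.Agent.Lib.MP_6d40c9_pr

open Finset
open scoped BigOperators symmDiff

private lemma signed_Zp_nonneg {E G : Type} [AddCommGroup G] (bd : E → G) (D : Finset E)
    (x : E → ℝ) (hx : ∀ e ∈ D, 0 ≤ x e) (f : G) : 0 ≤ Zp bd D x f := by
  unfold Zp
  refine Finset.sum_nonneg fun η hη => ?_
  split_ifs
  · exact Finset.prod_nonneg fun e he => hx e (Finset.mem_powerset.1 hη he)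
  · exact le_rfl

private lemma signed_prod_abs {E : Type} (χ : E → ℝ) (γ : Finset E)
    (h : ∀ e ∈ γ, χ e = 1 ∨ χ e = -1) : |∏ e ∈ γ, χ e| = 1 := by
  rw [Finset.abs_prod]
  refine Finset.prod_eq_one fun e he => ?_
  rcases h e he with h1 | h1 <;> rw [h1] <;> norm_num

theorem signed (h1 : PairSum) (h2 : Toggle) (h3 : AOFacts) : Signed := by
  intro E G _ _ hg bd D x χ hx0 hx1 hχ f
  have hZ : 0 ≤ Zp bd D x 0 := signed_Zp_nonneg bd D x hx0 0
  have e1 := h1 E G bd D x χ f 0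
  have e2 := h1 E G bd D x χ 0 f
  calc |Zp bd D (fun e => χ e * x e) f| * Zp bd D x 0
      = |Zp bd D (fun e => χ e * x e) f * Zp bd D x 0| := by
        rw [abs_mul, abs_of_nonneg hZ]
    _ = |∑ O ∈ D.powerset, aO bd D x χ O f 0| := by rw [e1]
    _ ≤ ∑ O ∈ D.powerset, |aO bd D x χ O f 0| := Finset.abs_sum_le_sum_abs _ _
    _ ≤ ∑ O ∈ D.powerset, aO bd D x χ O 0 f := by
        refine Finset.sum_le_sum fun O hO => ?_
        have hOD : O ⊆ D := Finset.mem_powerset.1 hO
        have hχO : ∀ e ∈ O, χ e = 1 ∨ χ e = -1 := fun e he => hχ e (hOD he)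
        obtain ⟨hc, -, hp⟩ := h3 E G hg bd D x χ O hOD hx0 hx1 hχO
        by_cases hz : aO bd D x χ O f 0 = 0
        · rw [hz, abs_zero]; exact hp f
        · obtain ⟨γ, hγ, hγf⟩ := (hc f 0 hz).1
          have ht := h2 E G hg bd D x χ O hχO γ hγ f 0
          rw [hγf, hg f, zero_add] at ht
          rw [ht, abs_mul, signed_prod_abs χ γ (fun e he => hχO e (hγ he)), one_mul,
            abs_of_nonneg (hp f)]
    _ = Zp bd D (fun e => χ e * x e) 0 * Zp bd D x f := e2.symm

end Pool.Agent.Lib.MP_6d40c9_pr
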