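import Pool.Agent.Lib.MP_6d40c9_pr.SpecP

/-!
# MP_6d40c9_pr: splitting of the spin field into squares
-/

set_option autoImplicit false

namespace Pool.Agent.Lib.MP_6d40c9_pr

open Finset MeasureTheory Filter Topology TopologicalSpace Metric
open scoped BigOperators symmDiff

private lemma spl_cell_sub {Ω : Set (ℝ × ℝ)} {δ : ℝ} {u : Pt} (h : u ∈ faces Ω δ) :
    cell δ u ⊆ Ω := by
  unfold faces at h
  split_ifs at h with hf
  · exact (Set.Finite.mem_toFinset hf).1 h
  · exact absurd h (Finset.notMem_empty u)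

private lemma spl_ctr_cell {δ : ℝ} (hδ : 0 < δ) (u : Pt) : ctr δ u ∈ cell δ u := by
  unfold ctr cell
  simp only [Set.mem_ofPred_eq]
  refine ⟨?_, ?_, ?_, ?_⟩ <;> nlinarith

private lemma spl_mem_sq {r : ℝ} (hr : 0 < r) (x : ℝ × ℝ) (b : Pt) :
    x ∈ sq r b ↔ b = (⌊x.1 / r + 1 / 2⌋, ⌊x.2 / r + 1 / 2⌋) := by
  have key : ∀ (t : ℝ) (m : ℤ), (r * (m - 1 / 2) ≤ t ∧ t < r * (m + 1 / 2)) ↔
      m = ⌊t / r + 1 / 2⌋ := by
    intro t m
    rw [eq_comm, Int.floor_eq_iff]
    have e : t = r * (t / r) := by field_simp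
    constructor
    · rintro ⟨h1, h2⟩
      rw [e] at h1 h2
      have h3 := le_of_mul_le_mul_left h1 hr
      have h4 := lt_of_mul_lt_mul_left h2 hr.le
      constructor <;> linarith
    · rintro ⟨h1, h2⟩
      constructor
      · rw [e]
        exact mul_le_mul_of_nonneg_left (by linarith) hr.le
      · conv_lhs => rw [e]
        exact mul_lt_mul_of_pos_left (by linarith) hr
  unfold sq
  rw [Set.mem_ofPred_eq, Prod.ext_iff, ← key x.1 b.1, ← key x.2 b.2]
  tauto

private lemma spl_mem_Ix {A r : ℝ} (hr : 0 < r) (x : ℝ × ℝ) (hx : x ∈ closedBall (0 : ℝ × ℝ) A) :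
    ((⌊x.1 / r + 1 / 2⌋, ⌊x.2 / r + 1 / 2⌋) : Pt) ∈ Ix A r := by
  rw [mem_closedBall, dist_zero_right, Prod.norm_def, max_le_iff, Real.norm_eq_abs,
    Real.norm_eq_abs, abs_le, abs_le] at hx
  obtain ⟨⟨a1, a2⟩, a3, a4⟩ := hx
  have key : ∀ t : ℝ, -A ≤ t → t ≤ A → (-((⌈A / r⌉₊ + 2 : ℕ) : ℤ) ≤ ⌊t / r + 1 / 2⌋ ∧
      ⌊t / r + 1 / 2⌋ ≤ ((⌈A / r⌉₊ + 2 : ℕ) : ℤ)) := by
    intro t h1 h2
    have hc : A / r ≤ (⌈A / r⌉₊ : ℝ) := Nat.le_ceil _
    have e1 : t / r ≤ A / r := div_le_div_of_nonneg_right h2 hr.le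
    have e2 : -(A / r) ≤ t / r := by
      rw [← neg_div]
      exact div_le_div_of_nonneg_right h1 hr.le
    constructor
    · rw [Int.le_floor]
      push_cast
      linarith
    · have h5 : (⌊t / r + 1 / 2⌋ : ℝ) ≤ t / r + 1 / 2 := Int.floor_le _
      have h6 : (⌊t / r + 1 / 2⌋ : ℝ) ≤ (((⌈A / r⌉₊ + 2 : ℕ) : ℤ) : ℝ) := by
        push_cast
        linarith
      exact_mod_cast h6
  obtain ⟨b1, b2⟩ := key x.1 a1 a2
  obtain ⟨b3, b4⟩ := key x.2 a3 a4
  unfold Ix box
  rw [Finset.mem_product, Finset.mem_Icc, Finset.mem_Icc]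
  refine ⟨⟨?_, ?_⟩, ?_, ?_⟩
  · simpa using b1
  · simpa using b2
  · simpa using b3
  · simpa using b4

private lemma spl_part1 (p : Par) (δ : ℝ) (f : ℝ × ℝ → ℝ) (hp : p.Good) (hδ : 0 < δ)
    (w : Finset Edge) : sf p.Ω δ f w = ∑ b ∈ Ix p.A p.r, aV p δ f b w := by
  classical
  unfold sf aV
  rw [← Finset.mul_sum]
  congr 1
  simp_rw [Finset.sum_filter]
  rw [Finset.sum_comm]
  refine Finset.sum_congr rfl fun u hu => ?_
  have hx : ctr δ u ∈ closedBall (0 : ℝ × ℝ) p.A :=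
    hp.hΩ (spl_cell_sub hu (spl_ctr_cell hδ u))
  have hI := spl_mem_Ix hp.hr _ hx
  simp_rw [spl_mem_sq hp.hr]
  rw [Finset.sum_ite_eq' (Ix p.A p.r)]
  rw [if_pos hI]

private lemma spl_cnt_sdiff {V w : Finset Edge} (h : V ⊆ w) (u : Pt) :
    cnt w u = cnt V u + cnt (w \ V) u := by
  classical
  unfold cnt
  rw [← Finset.card_union_of_disjoint]
  · congr 1
    ext e
    simp only [Finset.mem_filter, Finset.mem_union, Finset.mem_sdiff]
    constructor
    · rintro ⟨h1, h2⟩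
      by_cases h3 : e ∈ V
      · exact Or.inl ⟨h3, h2⟩
      · exact Or.inr ⟨⟨h1, h3⟩, h2⟩
    · rintro (⟨h1, h2⟩ | ⟨⟨h1, -⟩, h2⟩)
      · exact ⟨h h1, h2⟩
      · exact ⟨h1, h2⟩
  · rw [Finset.disjoint_left]
    intro e h1 h2
    exact (Finset.mem_sdiff.1 (Finset.mem_filter.1 h2).1).2 (Finset.mem_filter.1 h1).1

private lemma spl_sgn_sdiff {V w : Finset Edge} (h : V ⊆ w) (u : Pt) :
    sgn w u = sgn V u * sgn (w \ V) u := by
  unfold sgn
  rw [spl_cnt_sdiff h u, pow_add]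

private lemma spl_prod_neg {ι : Type*} [DecidableEq ι] (s : Finset ι) (g : ι → ℕ) :
    ∏ c ∈ s, ((-1 : ℝ) ^ g c) = (-1) ^ (s.filter fun c => Odd (g c)).card := by
  have e : ∀ c ∈ s, ((-1 : ℝ) ^ g c) = if Odd (g c) then -1 else 1 := by
    intro c _
    split_ifs with h
    · exact h.neg_one_pow
    · exact (Nat.not_odd_iff_even.1 h).neg_one_pow
  rw [Finset.prod_congr rfl e, Finset.prod_ite, Finset.prod_const, Finset.prod_const_one, mul_one]

theorem split (h1 : CompFacts) (h2 : GeoFacts) : Split := by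
  classical
  intro p δ f hp hδ hr16
  refine ⟨fun w => spl_part1 p δ f hp hδ w, ?_⟩
  intro b hb w hw
  obtain ⟨cf1, cf2, cf3, cf4, -⟩ := h1
  obtain ⟨g1, g2, g3, g4, g5, -, g7⟩ := h2
  have hr := hp.hr
  have hR := hp.hR
  have hR0 : 0 < p.R := by linarith
  obtain ⟨t1, t2, t3, t4, t5, t6⟩ := cf4 (tB p δ b) w
  have hV : vB p δ b w = tc (tB p δ b) w := rfl
  have hep : ep p δ b w = sgn (w \ vB p δ b w) (ref δ (cen p.r b)) := rfl
  have hno : ∀ e ∈ w \ vB p δ b w, ¬ (seg δ e ∩ closedBall (cen p.r b) p.R).Nonempty := by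
    intro e he hne
    rw [Finset.mem_sdiff] at he
    apply he.2
    rw [hV]
    unfold tc
    rw [Finset.mem_filter]
    exact ⟨he.1, e, he.1, hne, Relation.ReflTransGen.refl⟩
  have hpm : ep p δ b w = 1 ∨ ep p δ b w = -1 := by
    rw [hep]; unfold sgn
    exact neg_one_pow_eq_or ℝ _
  have hcne : ∀ c ∈ comps w, c.Nonempty := fun c hc => ((cf1 w).1 c hc).2.1
  have hceven : ∀ c ∈ comps w, Even' c := fun c hc => cf2 w hw c hc
  -- status of a component
  have hs1 : ∀ c ∈ comps w, (b ∈ (stat p (K1 δ c) (K2 δ c)).1 ↔ ∃ a ∈ c, tB p δ b a) := by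
    intro c hc
    have e := g2 δ p.R (cen p.r b) c hδ (hcne c hc)
    unfold stat tB
    simp only [Finset.mem_filter]
    rw [← e]
    exact ⟨fun h => h.2, fun h => ⟨hb, h⟩⟩
  have hs2 : ∀ c ∈ comps w, ((p.κ ≤ diam (K1 δ c) ∧ b ∈ (stat p (K1 δ c) (K2 δ c)).2.1) ↔
      ((∀ a ∈ c, ¬ tB p δ b a) ∧ Odd (cnt c (ref δ (cen p.r b))))) := by
    intro c hc
    have e := g2 δ p.R (cen p.r b) c hδ (hcne c hc)
    have hmem : b ∈ (stat p (K1 δ c) (K2 δ c)).2.1 ↔
        (p.R < infDist (cen p.r b) (K1 δ c) ∧ infDist (cen p.r b) (K2 δ c) ≤ p.R / 2) := by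
      unfold stat
      simp only [Finset.mem_filter]
      exact ⟨fun h => h.2, fun h => ⟨hb, h⟩⟩
    rw [hmem]
    have e' : (∀ a ∈ c, ¬ tB p δ b a) ↔ p.R < infDist (cen p.r b) (K1 δ c) := by
      rw [← not_le, e]
      unfold tB
      push Not
      rfl
    constructor
    · rintro ⟨-, q1, q2⟩
      have q3 := e'.2 q1
      exact ⟨q3, (g5 δ p.R (cen p.r b) c hδ (by linarith) (hceven c hc) (hcne c hc) q3).1 q2⟩
    · rintro ⟨q3, q4⟩
      have q5 := (g4 δ p.R (cen p.r b) c hδ (by linarith) (hceven c hc) q3 q4).1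
      refine ⟨?_, e'.1 q3, (g5 δ p.R (cen p.r b) c hδ (by linarith) (hceven c hc) (hcne c hc)
        q3).2 q4⟩
      have := hp.hκ'
      linarith
  refine ⟨?_, ?_, ?_, hpm⟩
  · have goal' : ∀ u ∈ (faces p.Ω δ).filter (fun u => ctr δ u ∈ sq p.r b),
        f (ctr δ u) * sgn w u = ep p δ b w * (f (ctr δ u) * sgn (vB p δ b w) u) := by
      intro u hu
      rw [Finset.mem_filter] at hu
      have hc : ctr δ u ∈ closedBall (cen p.r b) p.R := by
        have := hu.2
        unfold sq at this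
        rw [Set.mem_ofPred_eq] at this
        obtain ⟨q1, q2, q3, q4⟩ := this
        rw [mem_closedBall, dist_eq_norm, Prod.norm_def, max_le_iff, Real.norm_eq_abs,
          Real.norm_eq_abs, abs_le, abs_le]
        unfold cen
        simp only [Prod.fst_sub, Prod.snd_sub]
        refine ⟨⟨?_, ?_⟩, ?_, ?_⟩ <;> nlinarith
      have hc' : ctr δ (ref δ (cen p.r b)) ∈ closedBall (cen p.r b) p.R :=
        closedBall_subset_closedBall (by linarith) (g7 δ (cen p.r b) hδ).2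
      have e1 := g3 δ p.R (cen p.r b) (w \ vB p δ b w) hδ (t4 hw) hno u
        (ref δ (cen p.r b)) hc hc'
      rw [spl_sgn_sdiff (V := vB p δ b w) t1 u, e1, ← hep]
      ring
    have e2 : aV p δ f b w = δ ^ (15 / 8 : ℝ) *
        ∑ u ∈ (faces p.Ω δ).filter (fun u => ctr δ u ∈ sq p.r b), f (ctr δ u) * sgn w u := rfl
    have e3 : aV p δ f b (vB p δ b w) = δ ^ (15 / 8 : ℝ) *
        ∑ u ∈ (faces p.Ω δ).filter (fun u => ctr δ u ∈ sq p.r b),
          f (ctr δ u) * sgn (vB p δ b w) u := rfl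
    rw [e2, e3, Finset.sum_congr rfl goal', ← Finset.mul_sum]
    ring
  · have e1 : ep p δ b w = (-1) ^ ((comps (w \ vB p δ b w)).filter
        fun c => Odd (cnt c (ref δ (cen p.r b)))).card := by
      rw [hep, cf3]
      unfold sgn
      exact spl_prod_neg _ _
    have e2 : (comps (w \ vB p δ b w)).filter (fun c => Odd (cnt c (ref δ (cen p.r b)))) =
        (comps w).filter (fun c => p.κ ≤ diam (K1 δ c) ∧
          b ∈ (stat p (K1 δ c) (K2 δ c)).2.1) := by
      ext c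
      rw [Finset.mem_filter, Finset.mem_filter]
      have := t6 c
      rw [← hV] at this
      rw [this]
      constructor
      · rintro ⟨⟨q1, q2⟩, q3⟩
        exact ⟨q1, (hs2 c q1).2 ⟨q2, q3⟩⟩
      · rintro ⟨q1, q2⟩
        obtain ⟨q3, q4⟩ := (hs2 c q1).1 q2
        exact ⟨⟨q1, q3⟩, q4⟩
    have e3 : ((comps w).filter (fun c => p.κ ≤ diam (K1 δ c) ∧
          b ∈ (stat p (K1 δ c) (K2 δ c)).2.1)).card =
        ∑ s ∈ (Sts p).filter (fun s => b ∈ s.2.1), nst p δ w s := by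
      rw [Finset.card_eq_sum_card_fiberwise (f := fun c => stat p (K1 δ c) (K2 δ c))
        (t := (Sts p).filter (fun s => b ∈ s.2.1))]
      · refine Finset.sum_congr rfl fun s hs => ?_
        unfold nst
        congr 1
        ext c
        simp only [Finset.mem_filter]
        rw [Finset.mem_filter] at hs
        constructor
        · rintro ⟨⟨q1, q2, q3⟩, q4⟩
          exact ⟨q1, q2, q4⟩
        · rintro ⟨q1, q2, q4⟩
          refine ⟨⟨q1, q2, ?_⟩, q4⟩
          rw [q4]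
          exact hs.2
      · intro c hc
        have hc' := (Finset.mem_filter.1 (Finset.mem_coe.1 hc)).2.2
        rw [Finset.coe_filter, Set.mem_ofPred_eq]
        refine ⟨?_, hc'⟩
        unfold Sts stat
        simp only [Finset.mem_product, Finset.mem_powerset]
        exact ⟨Finset.filter_subset _ _, Finset.filter_subset _ _, Finset.filter_subset _ _⟩
    rw [e1, e2, e3]
    rfl
  · intro s
    constructor
    · intro hs
      unfold qB nst
      congr 1
      ext c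
      have := t5 c
      rw [← hV] at this
      rw [Finset.mem_filter, Finset.mem_filter, this]
      constructor
      · rintro ⟨⟨q1, q2⟩, q3⟩
        exact ⟨q1, q3⟩
      · rintro ⟨q1, q3⟩
        refine ⟨⟨q1, ?_⟩, q3⟩
        apply (hs1 c q1).1
        rw [q3.2]
        exact hs
    · intro hs
      unfold qB nst
      rw [Finset.card_eq_zero, Finset.filter_eq_empty_iff]
      intro c hc hc2
      have := t5 c
      rw [← hV] at this
      rw [this] at hc
      apply hs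
      rw [← hc2.2]
      exact (hs1 c hc.1).2 hc.2

end Pool.Agent.Lib.MP_6d40c9_pr
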