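import Pool.Agent.Lib.MP_6d40c9_pr.SpecK

/-!
# Conditioning on the configuration in a set of edges
-/

set_option autoImplicit false

namespace Pool.Agent.Lib.MP_6d40c9_pr

open Finset
open scoped BigOperators symmDiff

section SqCondAux

variable {E G : Type} [DecidableEq E]

lemma sqCond_inter {S D a b : Finset E} (ha : a ⊆ S) (hb : b ⊆ D \ S) : (a ∪ b) ∩ S = a := by
  ext e
  rw [Finset.mem_inter, Finset.mem_union]
  constructor
  · rintro ⟨h | h, h'⟩
    · exact h
    · exact absurd h' (Finset.mem_sdiff.1 (hb h)).2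
  · intro h
    exact ⟨Or.inl h, ha h⟩

lemma sqCond_sdiff {S D a b : Finset E} (ha : a ⊆ S) (hb : b ⊆ D \ S) : (a ∪ b) \ S = b := by
  ext e
  rw [Finset.mem_sdiff, Finset.mem_union]
  constructor
  · rintro ⟨h | h, h'⟩
    · exact absurd (ha h) h'
    · exact h
  · intro h
    exact ⟨Or.inr h, (Finset.mem_sdiff.1 (hb h)).2⟩

lemma sqCond_split (D S : Finset E) (hS : S ⊆ D) (F : Finset E → ℝ) :
    ∑ ω ∈ D.powerset, F ω = ∑ a ∈ S.powerset, ∑ b ∈ (D \ S).powerset, F (a ∪ b) := by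
  rw [← Finset.sum_product']
  refine Finset.sum_nbij' (fun ω => (ω ∩ S, ω \ S)) (fun q => q.1 ∪ q.2) ?_ ?_ ?_ ?_ ?_
  · intro ω hω
    rw [Finset.mem_product, Finset.mem_powerset, Finset.mem_powerset]
    exact ⟨Finset.inter_subset_right,
      Finset.sdiff_subset_sdiff (Finset.mem_powerset.1 hω) (Finset.Subset.refl _)⟩
  · intro q hq
    rw [Finset.mem_product, Finset.mem_powerset, Finset.mem_powerset] at hq
    exact Finset.mem_powerset.2
      (Finset.union_subset (hq.1.trans hS) (hq.2.trans Finset.sdiff_subset))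
  · intro ω _
    ext e
    simp only [Finset.mem_union, Finset.mem_inter, Finset.mem_sdiff]
    tauto
  · intro q hq
    rw [Finset.mem_product, Finset.mem_powerset, Finset.mem_powerset] at hq
    exact Prod.ext (sqCond_inter hq.1 hq.2) (sqCond_sdiff hq.1 hq.2)
  · intro ω _
    congr 1
    ext e
    simp only [Finset.mem_union, Finset.mem_inter, Finset.mem_sdiff]
    tauto

/-- The product weight. -/
noncomputable def sqW (D : Finset E) (x : E → ℝ) (ω : Finset E) : ℝ :=
  (∏ e ∈ ω, x e) * ∏ e ∈ D \ ω, (1 - x e)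

lemma sqCond_weight {D S a b : Finset E} (x : E → ℝ) (hS : S ⊆ D) (ha : a ⊆ S)
    (hb : b ⊆ D \ S) : sqW D x (a ∪ b) = sqW S x a * sqW (D \ S) x b := by
  have hdis : Disjoint a b := Finset.disjoint_left.2 fun e he he' =>
    (Finset.mem_sdiff.1 (hb he')).2 (ha he)
  have hdis2 : Disjoint (S \ a) ((D \ S) \ b) := Finset.disjoint_left.2 fun e he he' =>
    (Finset.mem_sdiff.1 (Finset.mem_sdiff.1 he').1).2 (Finset.mem_sdiff.1 he).1
  have e1 : D \ (a ∪ b) = (S \ a) ∪ ((D \ S) \ b) := by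
    ext e
    simp only [Finset.mem_union, Finset.mem_sdiff]
    constructor
    · rintro ⟨h1, h2⟩
      by_cases h : e ∈ S
      · exact Or.inl ⟨h, fun h3 => h2 (Or.inl h3)⟩
      · exact Or.inr ⟨⟨h1, h⟩, fun h3 => h2 (Or.inr h3)⟩
    · rintro (⟨h1, h2⟩ | ⟨⟨h1, h2⟩, h3⟩)
      · refine ⟨hS h1, ?_⟩
        rintro (h4 | h4)
        · exact h2 h4
        · exact (Finset.mem_sdiff.1 (hb h4)).2 h1
      · refine ⟨h1, ?_⟩
        rintro (h4 | h4)
        · exact h2 (ha h4)
        · exact h3 h4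
  unfold sqW
  rw [Finset.prod_union hdis, e1, Finset.prod_union hdis2]
  ring

lemma sqCond_split_weight (D S : Finset E) (x : E → ℝ) (hS : S ⊆ D) (F : Finset E → ℝ) :
    ∑ ω ∈ D.powerset, F ω * sqW D x ω =
      ∑ a ∈ S.powerset, sqW S x a * ∑ b ∈ (D \ S).powerset, F (a ∪ b) * sqW (D \ S) x b := by
  rw [sqCond_split D S hS]
  refine Finset.sum_congr rfl fun a ha => ?_
  rw [Finset.mul_sum]
  refine Finset.sum_congr rfl fun b hb => ?_
  rw [sqCond_weight x hS (Finset.mem_powerset.1 ha) (Finset.mem_powerset.1 hb)]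
  ring

lemma sqCond_cond (D S a : Finset E) (x : E → ℝ) (ha : a ⊆ S) (F : Finset E → ℝ) :
    ∑ ω ∈ (a ∪ (D \ S)).powerset, F ω * sqW (a ∪ (D \ S)) (fun e => if e ∈ a then 1 else x e) ω =
      ∑ b ∈ (D \ S).powerset, F (a ∪ b) * sqW (D \ S) x b := by
  have e1 : (a ∪ (D \ S)) \ a = D \ S := by
    ext e
    simp only [Finset.mem_union, Finset.mem_sdiff]
    constructor
    · rintro ⟨h | h, h'⟩
      · exact absurd h h'
      · exact h
    · rintro ⟨h1, h2⟩
      exact ⟨Or.inr ⟨h1, h2⟩, fun h3 => h2 (ha h3)⟩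
  rw [sqCond_split_weight (a ∪ (D \ S)) a _ Finset.subset_union_left, e1]
  rw [Finset.sum_eq_single a]
  · have h1 : sqW a (fun e => if e ∈ a then (1 : ℝ) else x e) a = 1 := by
      unfold sqW
      rw [Finset.sdiff_self, Finset.prod_empty, mul_one]
      exact Finset.prod_eq_one fun e he => by rw [if_pos he]
    rw [h1, one_mul]
    refine Finset.sum_congr rfl fun b hb => ?_
    have hb' := Finset.mem_powerset.1 hb
    have hna : ∀ e ∈ D \ S, e ∉ a := fun e he he' => (Finset.mem_sdiff.1 he).2 (ha he')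
    congr 1
    unfold sqW
    congr 1
    · exact Finset.prod_congr rfl fun e he => if_neg (hna e (hb' he))
    · refine Finset.prod_congr rfl fun e he => ?_
      have h5 : (if e ∈ a then (1 : ℝ) else x e) = x e := if_neg (hna e (Finset.mem_sdiff.1 he).1)
      show 1 - (if e ∈ a then (1 : ℝ) else x e) = 1 - x e
      rw [h5]
  · intro a' ha' hne
    have h1 : sqW a (fun e => if e ∈ a then (1 : ℝ) else x e) a' = 0 := by
      unfold sqW
      have hsub := Finset.mem_powerset.1 ha'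
      have hex : (a \ a').Nonempty := by
        rw [Finset.sdiff_nonempty]
        intro h
        exact hne (Finset.Subset.antisymm hsub h)
      obtain ⟨e, he⟩ := hex
      have h2 : ∏ e ∈ a \ a', (1 - (if e ∈ a then (1 : ℝ) else x e)) = 0 :=
        Finset.prod_eq_zero he (by rw [if_pos (Finset.mem_sdiff.1 he).1, sub_self])
      rw [h2, mul_zero]
    rw [h1, zero_mul]
  · intro h
    exact absurd (Finset.mem_powerset.2 (Finset.Subset.refl a)) h

variable [AddCommGroup G]

open Classical in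
/-- The number of pairs, for fixed `ω`. -/
noncomputable def sqJ (bd : E → G) (P : Finset E → Finset E → Prop) (ω : Finset E) : ℝ :=
  ∑ W ∈ ω.powerset, if bdy bd W = 0 ∧ P W ω then (1 : ℝ) else 0

open Classical in
/-- The number of even sets, with an indicator. -/
noncomputable def sqF (bd : E → G) (P : Finset E → Prop) (ω : Finset E) : ℝ :=
  evn bd ω * (if P ω then (1 : ℝ) else 0)

lemma sqCond_jP (bd : E → G) (D : Finset E) (x : E → ℝ) (P : Finset E → Finset E → Prop)
    (hZ : Zp bd D x 0 ≠ 0) :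
    jP bd D x P * Zp bd D x 0 = ∑ ω ∈ D.powerset, sqJ bd P ω * sqW D x ω := by
  unfold jP
  rw [div_mul_cancel₀ _ hZ]
  refine Finset.sum_congr rfl fun ω _ => ?_
  unfold sqJ
  rw [Finset.sum_mul]
  refine Finset.sum_congr rfl fun W _ => ?_
  by_cases h : bdy bd W = 0 ∧ P W ω
  · rw [if_pos h, if_pos h, one_mul]; rfl
  · rw [if_neg h, if_neg h, zero_mul]

lemma sqCond_fkP (bd : E → G) (D : Finset E) (x : E → ℝ) (P : Finset E → Prop)
    (hZ : Zp bd D x 0 ≠ 0) :
    fkP bd D x P * Zp bd D x 0 = ∑ ω ∈ D.powerset, sqF bd P ω * sqW D x ω := by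
  unfold fkP fkE
  rw [div_mul_cancel₀ _ hZ]
  refine Finset.sum_congr rfl fun ω _ => ?_
  unfold fkW sqW sqF
  ring

omit [DecidableEq E] in
lemma sqJ_congr {bd : E → G} {P Q : Finset E → Finset E → Prop} {ω : Finset E}
    (h : ∀ W, P W ω ↔ Q W ω) : sqJ bd P ω = sqJ bd Q ω := by
  unfold sqJ
  refine Finset.sum_congr rfl fun W _ => ?_
  by_cases h1 : bdy bd W = 0 ∧ P W ω
  · rw [if_pos h1, if_pos ⟨h1.1, (h W).1 h1.2⟩]
  · rw [if_neg h1, if_neg (fun h2 => h1 ⟨h2.1, (h W).2 h2.2⟩)]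

omit [DecidableEq E] in
lemma sqJ_zero {bd : E → G} {P : Finset E → Finset E → Prop} {ω : Finset E}
    (h : ∀ W, ¬ P W ω) : sqJ bd P ω = 0 := by
  unfold sqJ
  exact Finset.sum_eq_zero fun W _ => if_neg (fun h1 => h W h1.2)

omit [DecidableEq E] in
lemma sqF_congr {bd : E → G} {P Q : Finset E → Prop} {ω : Finset E}
    (h : P ω ↔ Q ω) : sqF bd P ω = sqF bd Q ω := by
  unfold sqF
  by_cases h1 : P ω
  · rw [if_pos h1, if_pos (h.1 h1)]
  · rw [if_neg h1, if_neg (fun h2 => h1 (h.2 h2))]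

omit [DecidableEq E] in
lemma sqF_zero {bd : E → G} {P : Finset E → Prop} {ω : Finset E}
    (h : ¬ P ω) : sqF bd P ω = 0 := by
  unfold sqF
  rw [if_neg h, mul_zero]

omit [DecidableEq E] in
lemma sqCond_conn_mono {bd : E → G} {ω ω' : Finset E} {f : G} (h : ω ⊆ ω')
    (hc : Conn bd ω f) : Conn bd ω' f := by
  obtain ⟨γ, hγ, h1⟩ := hc
  exact ⟨γ, hγ.trans h, h1⟩

end SqCondAux

theorem sqCond (h1 : Coupling) (h2 : ConnSq) : SqCond := by
  intro E G _ _ hG bd D S x hS hx0 hx1 C f p hp hC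
  obtain ⟨-, -, -, -, -, ⟨hZ1, -⟩, -⟩ := h1 E G hG bd D x hx0 hx1
  have hZpos : 0 < Zp bd D x 0 := lt_of_lt_of_le one_pos hZ1
  have hZ : Zp bd D x 0 ≠ 0 := hZpos.ne'
  refine le_of_mul_le_mul_right ?_ hZpos
  rw [mul_assoc, sqCond_jP bd D x _ hZ, sqCond_fkP bd D x _ hZ,
    sqCond_split_weight D S x hS, sqCond_split_weight D S x hS, Finset.mul_sum]
  refine Finset.sum_le_sum fun a ha => ?_
  have haS := Finset.mem_powerset.1 ha
  have hK : 0 ≤ sqW S x a := by
    unfold sqW
    refine mul_nonneg (Finset.prod_nonneg fun e he => hx0 e (hS (haS he)))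
      (Finset.prod_nonneg fun e he => ?_)
    have := hx1 e (hS (Finset.mem_sdiff.1 he).1)
    linarith
  rw [mul_left_comm]
  refine mul_le_mul_of_nonneg_left ?_ hK
  by_cases hCa : C a
  swap
  · -- both sides vanish
    rw [Finset.sum_eq_zero, Finset.sum_eq_zero, mul_zero]
    · intro b hb
      rw [sqF_zero, zero_mul]
      rw [sqCond_inter haS (Finset.mem_powerset.1 hb)]
      exact fun h => hCa h.1
    · intro b hb
      rw [sqJ_zero, zero_mul]
      intro W
      rw [sqCond_inter haS (Finset.mem_powerset.1 hb)]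
      exact fun h => hCa h.1
  -- the case `C a`
  set D' := a ∪ (D \ S) with hD'
  set y : E → ℝ := fun e => if e ∈ a then 1 else x e with hy
  have hD'D : ∀ e ∈ D', e ∈ D := by
    intro e he
    rcases Finset.mem_union.1 he with h | h
    · exact hS (haS h)
    · exact (Finset.mem_sdiff.1 h).1
  have hy0 : ∀ e ∈ D', 0 ≤ y e := by
    intro e he
    by_cases h : e ∈ a
    · simp only [hy, if_pos h]; norm_num
    · simp only [hy, if_neg h]; exact hx0 e (hD'D e he)
  have hy1 : ∀ e ∈ D', y e ≤ 1 := by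
    intro e he
    by_cases h : e ∈ a
    · simp only [hy, if_pos h]; norm_num
    · simp only [hy, if_neg h]; exact hx1 e (hD'D e he)
  obtain ⟨-, hj, -, hfk, -, ⟨hZ1', -⟩, -⟩ := h1 E G hG bd D' y hy0 hy1
  have hZpos' : 0 < Zp bd D' y 0 := lt_of_lt_of_le one_pos hZ1'
  have hZ' : Zp bd D' y 0 ≠ 0 := hZpos'.ne'
  have hZf : 0 ≤ Zp bd D' y (f a) := by
    unfold Zp
    refine Finset.sum_nonneg fun η hη => ?_
    by_cases h : bdy bd η = f a
    · rw [if_pos h]
      exact Finset.prod_nonneg fun e he => hy0 e (Finset.mem_powerset.1 hη he)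
    · rw [if_neg h]
  have hhyp := hC a haS hCa
  have hsq := h2 E G hG bd D' y hy0 hy1 (f a)
  -- left side
  have hL1 : ∑ b ∈ (D \ S).powerset, sqJ bd (fun W ω => C (ω ∩ S) ∧
        Conn bd (W ∪ (ω ∩ S)) (f (ω ∩ S))) (a ∪ b) * sqW (D \ S) x b =
      jP bd D' y (fun W _ => Conn bd (W ∪ a) (f a)) * Zp bd D' y 0 := by
    rw [sqCond_jP bd D' y _ hZ', sqCond_cond D S a x haS]
    refine Finset.sum_congr rfl fun b hb => ?_
    congr 1
    refine sqJ_congr fun W => ?_
    rw [sqCond_inter haS (Finset.mem_powerset.1 hb)]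
    exact ⟨fun h => h.2, fun h => ⟨hCa, h⟩⟩
  have hL2 : (jP bd D' y (fun W _ => Conn bd (W ∪ a) (f a)) * Zp bd D' y 0) * Zp bd D' y 0 ≤
      Zp bd D' y (f a) ^ 2 := by
    refine le_trans (mul_le_mul_of_nonneg_right ?_ hZpos'.le) hsq
    rw [hj]
    unfold lpP lpE
    rw [div_mul_cancel₀ _ hZ']
    refine Finset.sum_le_sum fun η hη => ?_
    have hpr : 0 ≤ ∏ e ∈ η, y e :=
      Finset.prod_nonneg fun e he => hy0 e (Finset.mem_powerset.1 hη he)
    by_cases h : bdy bd η = 0
    · by_cases h' : Conn bd (η ∪ a) (f a)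
      · rw [if_pos h]
        beta_reduce
        rw [if_pos h', mul_one, if_pos]
        refine ⟨h, sqCond_conn_mono (Finset.union_subset_union (Finset.Subset.refl _) ?_) h'⟩
        intro e he
        rw [Finset.mem_filter]
        refine ⟨Finset.mem_union_left _ he, ?_⟩
        simp only [hy, if_pos he]
      · rw [if_pos h]
        beta_reduce
        rw [if_neg h', mul_zero]
        split_ifs
        · exact hpr
        · exact le_rfl
    · rw [if_neg h]
      split_ifs
      · exact hpr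
      · exact le_rfl
  -- right side
  have hR1 : ∑ b ∈ (D \ S).powerset, sqF bd (fun ω => C (ω ∩ S) ∧
        Conn bd ω (f (ω ∩ S))) (a ∪ b) * sqW (D \ S) x b = Zp bd D' y (f a) := by
    have h3 : fkP bd D' y (fun ω => Conn bd ω (f a)) * Zp bd D' y 0 = Zp bd D' y (f a) := by
      rw [hfk, div_mul_cancel₀ _ hZ']
    rw [← h3, sqCond_fkP bd D' y _ hZ', sqCond_cond D S a x haS]
    refine Finset.sum_congr rfl fun b hb => ?_
    congr 1
    refine sqF_congr ?_
    rw [sqCond_inter haS (Finset.mem_powerset.1 hb)]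
    exact ⟨fun h => h.2, fun h => ⟨hCa, h⟩⟩
  rw [hL1, hR1]
  have h4 : Zp bd D' y (f a) ^ 2 ≤ (p * Zp bd D' y (f a)) * Zp bd D' y 0 := by
    rw [sq]
    calc Zp bd D' y (f a) * Zp bd D' y (f a) ≤ Zp bd D' y (f a) * (p * Zp bd D' y 0) :=
          mul_le_mul_of_nonneg_left hhyp hZf
      _ = _ := by ring
  exact le_of_mul_le_mul_right (hL2.trans h4) hZpos'

end Pool.Agent.Lib.MP_6d40c9_pr
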