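import Pool.Agent.Lib.MP_6d40c9_pr.SpecL

/-!
# StatFacts: basic facts on loop statistics
-/

set_option autoImplicit false

namespace Pool.Agent.Lib.MP_6d40c9_pr

open Finset MeasureTheory Filter Topology TopologicalSpace Metric
open scoped BigOperators

namespace StatFactsAux

theorem diam_le (K K' : NonemptyCompacts (ℝ × ℝ)) :
    diam (K : Set (ℝ × ℝ)) ≤ diam (K' : Set (ℝ × ℝ)) + 2 * dist K K' := by
  have hfin : Metric.hausdorffEDist (K : Set (ℝ × ℝ)) (K' : Set (ℝ × ℝ)) ≠ ⊤ :=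
    hausdorffEDist_ne_top_of_nonempty_of_bounded K.nonempty K'.nonempty K.isCompact.isBounded
      K'.isCompact.isBounded
  apply le_of_forall_pos_le_add
  intro ε hε
  have hd : hausdorffDist (K : Set (ℝ × ℝ)) (K' : Set (ℝ × ℝ)) < dist K K' + ε / 2 := by
    change dist K K' < _
    linarith
  apply diam_le_of_forall_dist_le
  · have h1 : (0 : ℝ) ≤ diam (K' : Set (ℝ × ℝ)) := diam_nonneg
    have h2 : (0 : ℝ) ≤ dist K K' := dist_nonneg
    linarith
  · intro x hx y hy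
    obtain ⟨x', hx', h1⟩ := exists_dist_lt_of_hausdorffDist_lt hx hd hfin
    obtain ⟨y', hy', h2⟩ := exists_dist_lt_of_hausdorffDist_lt hy hd hfin
    have h3 := dist_le_diam_of_mem K'.isCompact.isBounded hx' hy'
    have h4 := dist_triangle x x' y
    have h5 := dist_triangle x' y' y
    rw [dist_comm y' y] at h5
    linarith

theorem continuous_diam : Continuous fun K : NonemptyCompacts (ℝ × ℝ) => diam (K : Set (ℝ × ℝ)) := by
  have h : LipschitzWith 2 fun K : NonemptyCompacts (ℝ × ℝ) => diam (K : Set (ℝ × ℝ)) := by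
    apply LipschitzWith.of_le_add_mul
    intro K K'
    exact_mod_cast diam_le K K'
  exact h.continuous

theorem ramp_facts (a b : ℝ) (hab : a < b) :
    Continuous (ramp a b) ∧ (∀ t, 0 ≤ ramp a b t ∧ ramp a b t ≤ 1) ∧
    (∀ t ≤ a, ramp a b t = 1) ∧ (∀ t ≥ b, ramp a b t = 0) ∧ (∀ t < b, 0 < ramp a b t) ∧
    ∀ t > a, ramp a b t < 1 := by
  have hb : 0 < b - a := by linarith
  refine ⟨?_, ?_, ?_, ?_, ?_, ?_⟩
  · unfold ramp
    fun_prop
  · intro t
    unfold ramp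
    exact ⟨le_max_left _ _, max_le zero_le_one (min_le_left _ _)⟩
  · intro t ht
    unfold ramp
    have h1 : 1 ≤ (b - t) / (b - a) := by
      rw [le_div_iff₀ hb]
      linarith
    rw [min_eq_left h1, max_eq_right zero_le_one]
  · intro t ht
    unfold ramp
    have h1 : (b - t) / (b - a) ≤ 0 := div_nonpos_of_nonpos_of_nonneg (by linarith) hb.le
    rw [min_eq_right (h1.trans zero_le_one), max_eq_left h1]
  · intro t ht
    unfold ramp
    have h1 : 0 < (b - t) / (b - a) := div_pos (by linarith) hb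
    exact lt_max_of_lt_right (lt_min one_pos h1)
  · intro t ht
    unfold ramp
    have h1 : (b - t) / (b - a) < 1 := by
      rw [div_lt_one hb]
      linarith
    exact max_lt one_pos (lt_of_le_of_lt (min_le_right _ _) h1)

/-- the summand of `loopStat` -/
noncomputable def fK (φ : LoopSp → ℝ) (K : NonemptyCompacts (ℝ × ℝ)) : ℝ :=
  φ (K, toNC (fill (K : Set (ℝ × ℝ))))

theorem stat_sum {G : Set (NonemptyCompacts (ℝ × ℝ))}
    (hG : ∀ ρ > 0, {K ∈ G | ρ ≤ diam (K : Set (ℝ × ℝ))}.Finite) {φ : LoopSp → ℝ} (hφ : LoopFn φ) :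
    ∃ F : Finset (NonemptyCompacts (ℝ × ℝ)), (∀ K ∈ F, K ∈ G) ∧ (∀ K ∈ G, K ∉ F → fK φ K = 0) ∧
      loopStat φ G = ∑ K ∈ F, fK φ K := by
  obtain ⟨-, ρ, hρ, hρ2⟩ := hφ
  refine ⟨(hG ρ hρ).toFinset, ?_, ?_, ?_⟩
  · intro K hK
    exact ((Set.Finite.mem_toFinset _).mp hK).1
  · intro K hK hKF
    apply hρ2
    by_contra hcon
    rw [not_lt] at hcon
    exact hKF ((Set.Finite.mem_toFinset _).mpr ⟨hK, hcon⟩)
  · unfold loopStat
    apply finsum_mem_eq_sum_of_inter_support_eq (fK φ)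
    ext K
    simp only [Set.mem_inter_iff, Set.Finite.coe_toFinset]
    constructor
    · rintro ⟨h1, h2⟩
      refine ⟨⟨h1, ?_⟩, h2⟩
      by_contra hcon
      rw [not_le] at hcon
      exact h2 (hρ2 _ hcon)
    · rintro ⟨h1, h2⟩
      exact ⟨h1.1, h2⟩

theorem stat3 (G : Set (NonemptyCompacts (ℝ × ℝ)))
    (hG : ∀ ρ > 0, {K ∈ G | ρ ≤ diam (K : Set (ℝ × ℝ))}.Finite) (φ : LoopSp → ℝ) (hφ : LoopFn φ) :
    ((loopStat φ G ≠ 0 → ∃ K ∈ G, fK φ K ≠ 0) ∧
    ((∀ K, 0 ≤ φ K) → 0 ≤ loopStat φ G ∧ (∀ K ∈ G, fK φ K ≤ loopStat φ G) ∧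
      ((∀ K, φ K ≤ 1) → 1 < loopStat φ G → ∃ K ∈ G, ∃ K' ∈ G, K ≠ K' ∧
        fK φ K ≠ 0 ∧ fK φ K' ≠ 0)) ∧
    ((∀ K ∈ G, fK φ K = 0 ∨ fK φ K = 1) →
      loopStat φ G = (Set.ncard {K ∈ G | fK φ K = 1} : ℝ))) := by
  classical
  obtain ⟨F, hF1, hF2, hF3⟩ := stat_sum hG hφ
  refine ⟨?_, ?_, ?_⟩
  · intro h
    by_contra hcon
    push Not at hcon
    apply h
    rw [hF3]
    exact Finset.sum_eq_zero fun K hK => hcon K (hF1 K hK)
  · intro hpos
    have hpos' : ∀ K, 0 ≤ fK φ K := fun K => hpos _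
    refine ⟨?_, ?_, ?_⟩
    · rw [hF3]
      exact Finset.sum_nonneg fun K _ => hpos' K
    · intro K hK
      rw [hF3]
      by_cases hKF : K ∈ F
      · exact Finset.single_le_sum (fun K _ => hpos' K) hKF
      · rw [hF2 K hK hKF]
        exact Finset.sum_nonneg fun K _ => hpos' K
    · intro hle h1
      by_contra hcon
      push Not at hcon
      rw [hF3, ← Finset.sum_filter_ne_zero] at h1
      have h2 : (F.filter (fun K => fK φ K ≠ 0)).card ≤ 1 := by
        rw [Finset.card_le_one]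
        intro K hK K' hK'
        rw [Finset.mem_filter] at hK hK'
        by_contra hne
        exact hK'.2 (hcon K (hF1 K hK.1) K' (hF1 K' hK'.1) hne hK.2)
      have h3 : ∑ K ∈ F.filter (fun K => fK φ K ≠ 0), fK φ K ≤
          (F.filter (fun K => fK φ K ≠ 0)).card • (1 : ℝ) :=
        Finset.sum_le_card_nsmul _ _ _ fun K _ => hle _
      rw [nsmul_eq_mul, mul_one] at h3
      have h4 : ((F.filter (fun K => fK φ K ≠ 0)).card : ℝ) ≤ 1 := by exact_mod_cast h2
      linarith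
  · intro h01
    have e : {K ∈ G | fK φ K = 1} = ((F.filter (fun K => fK φ K = 1) : Finset _) : Set _) := by
      ext K
      rw [Finset.mem_coe, Finset.mem_filter]
      constructor
      · rintro ⟨h1, h2⟩
        refine ⟨?_, h2⟩
        by_contra hcon
        rw [hF2 K h1 hcon] at h2
        exact zero_ne_one h2
      · rintro ⟨h1, h2⟩
        exact ⟨hF1 K h1, h2⟩
    rw [e, Set.ncard_coe_finset, hF3, Finset.card_filter]
    push_cast
    apply Finset.sum_congr rfl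
    intro K hK
    rcases h01 K (hF1 K hK) with h | h
    · rw [h, if_neg zero_ne_one]
    · rw [h, if_pos rfl]

/-- the point of a corner -/
noncomputable def pc (δ : ℝ) (v : Pt) : ℝ × ℝ := (δ * v.1, δ * v.2)

theorem tgt_ge (e : Edge) : (src e).1 ≤ (tgt e).1 ∧ (src e).2 ≤ (tgt e).2 := by
  unfold src tgt
  split_ifs <;> simp

theorem src_mem {δ : ℝ} (hδ : 0 < δ) (e : Edge) : pc δ (src e) ∈ seg δ e := by
  obtain ⟨h1, h2⟩ := tgt_ge e
  have h3 : ((src e).1 : ℝ) ≤ (tgt e).1 := by exact_mod_cast h1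
  have h4 : ((src e).2 : ℝ) ≤ (tgt e).2 := by exact_mod_cast h2
  exact ⟨le_rfl, mul_le_mul_of_nonneg_left h3 hδ.le, le_rfl, mul_le_mul_of_nonneg_left h4 hδ.le⟩

theorem tgt_mem {δ : ℝ} (hδ : 0 < δ) (e : Edge) : pc δ (tgt e) ∈ seg δ e := by
  obtain ⟨h1, h2⟩ := tgt_ge e
  have h3 : ((src e).1 : ℝ) ≤ (tgt e).1 := by exact_mod_cast h1
  have h4 : ((src e).2 : ℝ) ≤ (tgt e).2 := by exact_mod_cast h2
  exact ⟨mul_le_mul_of_nonneg_left h3 hδ.le, le_rfl, mul_le_mul_of_nonneg_left h4 hδ.le, le_rfl⟩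

theorem seg_eq (δ : ℝ) (e : Edge) : seg δ e =
    Set.Icc (δ * (src e).1) (δ * (tgt e).1) ×ˢ Set.Icc (δ * (src e).2) (δ * (tgt e).2) := by
  ext p
  simp only [seg, Set.mem_prod, Set.mem_Icc, Set.mem_ofPred_eq]
  tauto

theorem seg_conn {δ : ℝ} (hδ : 0 < δ) (e : Edge) : IsConnected (seg δ e) := by
  refine ⟨⟨_, src_mem hδ e⟩, ?_⟩
  rw [seg_eq]
  exact ((convex_Icc _ _).prod (convex_Icc _ _)).isPreconnected

theorem seg_meet {δ : ℝ} (hδ : 0 < δ) {a b : Edge} (h : adjE a b) :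
    (seg δ a ∩ seg δ b).Nonempty := by
  rcases h with h | h | h | h
  · exact ⟨_, src_mem hδ a, by rw [h]; exact src_mem hδ b⟩
  · exact ⟨_, src_mem hδ a, by rw [h]; exact tgt_mem hδ b⟩
  · exact ⟨_, tgt_mem hδ a, by rw [h]; exact src_mem hδ b⟩
  · exact ⟨_, tgt_mem hδ a, by rw [h]; exact tgt_mem hδ b⟩

theorem K1_conn {δ : ℝ} (hδ : 0 < δ) {c : Finset Edge} (hne : c.Nonempty)
    (hc : ∀ a ∈ c, ∀ b ∈ c, connE c a b) : IsConnected (K1 δ c) := by
  unfold K1
  have h := IsConnected.biUnion_of_reflTransGen (t := (c : Set Edge)) (s := fun e => seg δ e)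
    (by exact_mod_cast hne) (fun e _ => seg_conn hδ e) ?_
  · exact_mod_cast h
  · intro a ha b hb
    have key : ∀ x, connE c a x → x ∈ c ∧
        Relation.ReflTransGen (fun i j => (seg δ i ∩ seg δ j).Nonempty ∧ i ∈ (c : Set Edge)) a x := by
      intro x hx
      induction hx with
      | refl => exact ⟨by exact_mod_cast ha, Relation.ReflTransGen.refl⟩
      | tail h1 h2 ih => exact ⟨h2.1, ih.2.tail ⟨seg_meet hδ h2.2, by exact_mod_cast ih.1⟩⟩
    exact (key b (hc a (by exact_mod_cast ha) b (by exact_mod_cast hb))).2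

theorem coe_toNC {S : Set (ℝ × ℝ)} (h1 : IsCompact S) (h2 : S.Nonempty) :
    ((toNC S : NonemptyCompacts (ℝ × ℝ)) : Set (ℝ × ℝ)) = S := by
  unfold toNC
  rw [dif_pos ⟨h1, h2⟩]
  rfl

end StatFactsAux

open StatFactsAux in
theorem statFacts (h1 : CompFacts) (h2 : GeoFacts) (h3 : FillFacts) : StatFacts := by
  refine ⟨⟨fun x => (lipschitz_infDist_set x).continuous, continuous_diam⟩, ramp_facts,
    stat3, ?_, ?_⟩
  · intro K
    have h := h3.1 K K.isCompact K.nonempty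
    exact coe_toNC h.1 h.2.2.1
  · intro δ w hδ hw c hc
    obtain ⟨e1, e2, e3⟩ := h2.1 δ c hδ
    obtain ⟨f1, f2, -⟩ := h1.1 w
    have hcc := f1 c hc
    have hev := h1.2.1 w hw c hc
    have hne := e2 hcc.2.1
    refine ⟨coe_toNC e1 hne, coe_toNC (e3 hev) (hne.mono Set.subset_union_left),
      K1_conn hδ hcc.2.1 hcc.2.2.2.1⟩

end Pool.Agent.Lib.MP_6d40c9_pr
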