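import Pool.Agent.Lib.MP_6d40c9_pr.SpecK

/-!
# Stochastic domination for the random cluster measure
-/

set_option autoImplicit false

namespace Pool.Agent.Lib.MP_6d40c9_pr

open Finset
open scoped BigOperators symmDiff

private theorem stochDom_bdy {E G : Type} [DecidableEq E] [AddCommGroup G]
    (h2 : ∀ g : G, g + g = 0) (bd : E → G) (η γ : Finset E) :
    bdy bd (η ∆ γ) = bdy bd η + bdy bd γ := by
  unfold bdy
  have e1 : (∑ e ∈ η ∪ γ, bd e) + ∑ e ∈ η ∩ γ, bd e = ∑ e ∈ η, bd e + ∑ e ∈ γ, bd e :=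
    Finset.sum_union_inter
  have hd : Disjoint (η ∆ γ) (η ∩ γ) := by
    rw [Finset.disjoint_left]
    intro a ha hb
    rw [Finset.mem_symmDiff] at ha
    rw [Finset.mem_inter] at hb
    tauto
  have hu : (η ∆ γ) ∪ (η ∩ γ) = η ∪ γ := by
    ext a
    simp only [Finset.mem_union, Finset.mem_symmDiff, Finset.mem_inter]
    tauto
  have e2 : ∑ e ∈ η ∪ γ, bd e = ∑ e ∈ η ∆ γ, bd e + ∑ e ∈ η ∩ γ, bd e := by
    rw [← hu, Finset.sum_union hd]
  rw [← e1, e2, add_assoc, h2, add_zero]

open Classical in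
private theorem stochDom_evn_card {E G : Type} [AddCommGroup G] (bd : E → G) (ω : Finset E) :
    evn bd ω = ((ω.powerset.filter (fun η => bdy bd η = 0)).card : ℝ) := by
  unfold evn
  rw [← Finset.sum_filter, Finset.sum_const, nsmul_eq_mul, mul_one]

open Classical in
/-- The lattice condition for the numbers of even subsets. -/
private theorem stochDom_evn {E G G' : Type} [DecidableEq E] [AddCommGroup G] [AddCommGroup G']
    (h2 : ∀ g : G, g + g = 0) (h2' : ∀ g : G', g + g = 0) (bd : E → G) (bd' : E → G')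
    (ω ω' : Finset E) (hker : ∀ η ⊆ ω, bdy bd η = 0 → bdy bd' η = 0) :
    evn bd ω * evn bd' ω' ≤ evn bd (ω ∩ ω') * evn bd' (ω ∪ ω') := by
  rw [stochDom_evn_card, stochDom_evn_card, stochDom_evn_card, stochDom_evn_card]
  set A := ω.powerset.filter (fun η => bdy bd η = 0) with hA
  set A' := ω'.powerset.filter (fun η => bdy bd' η = 0) with hA'
  set B := (ω ∩ ω').powerset.filter (fun η => bdy bd η = 0) with hB
  set B' := (ω ∪ ω').powerset.filter (fun η => bdy bd' η = 0) with hB'
  have hmemA : ∀ a, a ∈ A ↔ a ⊆ ω ∧ bdy bd a = 0 := fun a => by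
    rw [hA, Finset.mem_filter, Finset.mem_powerset]
  have hmemA' : ∀ a, a ∈ A' ↔ a ⊆ ω' ∧ bdy bd' a = 0 := fun a => by
    rw [hA', Finset.mem_filter, Finset.mem_powerset]
  have hmemB : ∀ a, a ∈ B ↔ a ⊆ ω ∩ ω' ∧ bdy bd a = 0 := fun a => by
    rw [hB, Finset.mem_filter, Finset.mem_powerset]
  have hmemB' : ∀ a, a ∈ B' ↔ a ⊆ ω ∪ ω' ∧ bdy bd' a = 0 := fun a => by
    rw [hB', Finset.mem_filter, Finset.mem_powerset]
  have key : (A ×ˢ A').card ≤ B.card * ((A ×ˢ A').image (fun p => p.1 ∆ p.2)).card := by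
    refine Finset.card_le_mul_card_image _ _ ?_
    intro b hb
    obtain ⟨⟨c, c'⟩, hc, hcb⟩ := Finset.mem_image.1 hb
    rw [Finset.mem_product, hmemA, hmemA'] at hc
    refine Finset.card_le_card_of_injOn (fun p => p.1 ∆ c) ?_ ?_
    · rintro ⟨a, a'⟩ hp
      rw [Finset.mem_coe, Finset.mem_filter, Finset.mem_product, hmemA, hmemA'] at hp
      obtain ⟨⟨⟨ha1, ha2⟩, ⟨ha3, ha4⟩⟩, ha5⟩ := hp
      simp only at ha1 ha2 ha3 ha4 ha5 hcb hc
      rw [Finset.mem_coe, hmemB]
      have hac : a ∆ c = a' ∆ c' := by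
        have e1 : a ∆ a' = c ∆ c' := ha5.trans hcb.symm
        calc a ∆ c = (a ∆ a') ∆ (a' ∆ c) := by
              rw [symmDiff_assoc, symmDiff_symmDiff_cancel_left]
          _ = (c ∆ c') ∆ (a' ∆ c) := by rw [e1]
          _ = (c' ∆ c) ∆ (c ∆ a') := by rw [symmDiff_comm c c', symmDiff_comm a' c]
          _ = c' ∆ a' := by rw [symmDiff_assoc, symmDiff_symmDiff_cancel_left]
          _ = a' ∆ c' := symmDiff_comm _ _
      refine ⟨?_, ?_⟩
      · apply Finset.subset_inter
        · intro e he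
          rw [Finset.mem_symmDiff] at he
          rcases he with he | he
          · exact ha1 he.1
          · exact hc.1.1 he.1
        · show a ∆ c ⊆ ω'
          rw [hac]
          intro e he
          rw [Finset.mem_symmDiff] at he
          rcases he with he | he
          · exact ha3 he.1
          · exact hc.2.1 he.1
      · show bdy bd (a ∆ c) = 0
        rw [stochDom_bdy h2, ha2, hc.1.2, add_zero]
    · rintro ⟨a, a'⟩ hp ⟨d, d'⟩ hq heq
      rw [Finset.mem_coe, Finset.mem_filter] at hp hq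
      simp only at heq hp hq
      have e1 : a = d := symmDiff_left_injective c heq
      subst e1
      have e2 : a ∆ a' = a ∆ d' := hp.2.trans hq.2.symm
      have e3 : a' = d' := symmDiff_right_injective a e2
      rw [e3]
  have himg : ((A ×ˢ A').image (fun p => p.1 ∆ p.2)) ⊆ B' := by
    intro b hb
    obtain ⟨⟨c, c'⟩, hc, hcb⟩ := Finset.mem_image.1 hb
    rw [Finset.mem_product, hmemA, hmemA'] at hc
    simp only at hc hcb
    rw [hmemB', ← hcb]
    refine ⟨?_, ?_⟩
    · intro e he
      rw [Finset.mem_symmDiff] at he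
      rw [Finset.mem_union]
      rcases he with he | he
      · exact Or.inl (hc.1.1 he.1)
      · exact Or.inr (hc.2.1 he.1)
    · rw [stochDom_bdy h2', hker c hc.1.1 hc.1.2, hc.2.2, add_zero]
  rw [Finset.card_product] at key
  have h3 : A.card * A'.card ≤ B.card * B'.card :=
    key.trans (Nat.mul_le_mul_left _ (Finset.card_le_card himg))
  exact_mod_cast h3

/-- The product weight as one product. -/
private theorem stochDom_prod {E : Type} [DecidableEq E] (D D' : Finset E) (x : E → ℝ)
    (hD : D ⊆ D') (ω : Finset E) (hω : ω ⊆ D) :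
    (∏ e ∈ ω, x e) * ∏ e ∈ D \ ω, (1 - x e) =
      ∏ e ∈ D', (if e ∈ ω then (if e ∈ D then x e else 0) else
        1 - (if e ∈ D then x e else 0)) := by
  have h1 : ∏ e ∈ D, (if e ∈ ω then (if e ∈ D then x e else 0) else
        1 - (if e ∈ D then x e else 0)) =
      ∏ e ∈ D', (if e ∈ ω then (if e ∈ D then x e else 0) else
        1 - (if e ∈ D then x e else 0)) := by
    refine Finset.prod_subset hD fun e _ he => ?_
    rw [if_neg (fun h => he (hω h)), if_neg he, sub_zero]
  rw [← h1, ← Finset.prod_sdiff hω, mul_comm]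
  congr 1
  · refine Finset.prod_congr rfl fun e he => ?_
    rw [Finset.mem_sdiff] at he
    rw [if_neg he.2, if_pos he.1]
  · refine Finset.prod_congr rfl fun e he => ?_
    rw [if_pos he, if_pos (hω he)]

private theorem stochDom_holley {E G G' : Type} [DecidableEq E] [AddCommGroup G] [AddCommGroup G']
    (h2 : ∀ g : G, g + g = 0) (h2' : ∀ g : G', g + g = 0) (bd : E → G) (bd' : E → G')
    (D D' : Finset E) (x x' : E → ℝ) (hD : D ⊆ D') (hx0 : ∀ e ∈ D, 0 ≤ x e)
    (hxx' : ∀ e ∈ D, x e ≤ x' e) (hx'0 : ∀ e ∈ D', 0 ≤ x' e) (hx'1 : ∀ e ∈ D', x' e ≤ 1)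
    (hker : ∀ η ⊆ D, bdy bd η = 0 → bdy bd' η = 0) (ω ω' : Finset E) (hω : ω ⊆ D)
    (hω' : ω' ⊆ D') :
    fkW bd D x ω * fkW bd' D' x' ω' ≤ fkW bd D x (ω ∩ ω') * fkW bd' D' x' (ω ∪ ω') := by
  unfold fkW
  have hev := stochDom_evn h2 h2' bd bd' ω ω' (fun η hη => hker η (hη.trans hω))
  have hi : ω ∩ ω' ⊆ D := Finset.inter_subset_left.trans hω
  have hun : ω ∪ ω' ⊆ D' := Finset.union_subset (hω.trans hD) hω'
  rw [stochDom_prod D D' x hD ω hω, stochDom_prod D' D' x' (Finset.Subset.refl _) ω' hω',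
    stochDom_prod D D' x hD (ω ∩ ω') hi, stochDom_prod D' D' x' (Finset.Subset.refl _) _ hun]
  have hy0 : ∀ e, 0 ≤ (if e ∈ D then x e else 0) := by
    intro e
    split_ifs with h
    · exact hx0 e h
    · exact le_rfl
  have hy1 : ∀ e, (if e ∈ D then x e else 0) ≤ 1 := by
    intro e
    split_ifs with h
    · exact (hxx' e h).trans (hx'1 e (hD h))
    · exact zero_le_one
  have hprod : (∏ e ∈ D', (if e ∈ ω then (if e ∈ D then x e else 0) else
        1 - (if e ∈ D then x e else 0))) *
      (∏ e ∈ D', (if e ∈ ω' then (if e ∈ D' then x' e else 0) else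
        1 - (if e ∈ D' then x' e else 0))) ≤
      (∏ e ∈ D', (if e ∈ ω ∩ ω' then (if e ∈ D then x e else 0) else
        1 - (if e ∈ D then x e else 0))) *
      (∏ e ∈ D', (if e ∈ ω ∪ ω' then (if e ∈ D' then x' e else 0) else
        1 - (if e ∈ D' then x' e else 0))) := by
    rw [← Finset.prod_mul_distrib, ← Finset.prod_mul_distrib]
    refine Finset.prod_le_prod ?_ ?_
    · intro e he
      have a1 := hy0 e
      have a2 := hy1 e
      have a3 := hx'0 e he
      have a4 := hx'1 e he
      rw [if_pos he]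
      apply mul_nonneg
      · split_ifs at a1 a2 ⊢ <;> linarith
      · split_ifs <;> linarith
    · intro e he
      have a1 := hy0 e
      have a2 := hy1 e
      have a3 := hx'0 e he
      have a4 := hx'1 e he
      rw [if_pos he]
      by_cases b1 : e ∈ ω
      · by_cases b2 : e ∈ ω'
        · rw [if_pos b1, if_pos b2, if_pos (Finset.mem_inter.2 ⟨b1, b2⟩),
            if_pos (Finset.mem_union_left _ b1)]
        · rw [if_pos b1, if_neg b2, if_neg (fun h => b2 (Finset.mem_inter.1 h).2),
            if_pos (Finset.mem_union_left _ b1), if_pos (hω b1)]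
          have := hxx' e (hω b1)
          nlinarith
      · by_cases b2 : e ∈ ω'
        · rw [if_neg b1, if_pos b2, if_neg (fun h => b1 (Finset.mem_inter.1 h).1),
            if_pos (Finset.mem_union_right _ b2)]
        · rw [if_neg b1, if_neg b2, if_neg (fun h => b1 (Finset.mem_inter.1 h).1),
            if_neg (fun h => (Finset.mem_union.1 h).elim b1 b2)]
  have hnn : 0 ≤ (∏ e ∈ D', (if e ∈ ω then (if e ∈ D then x e else 0) else
        1 - (if e ∈ D then x e else 0))) *
      (∏ e ∈ D', (if e ∈ ω' then (if e ∈ D' then x' e else 0) else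
        1 - (if e ∈ D' then x' e else 0))) := by
    apply mul_nonneg
    · refine Finset.prod_nonneg fun e _ => ?_
      have a1 := hy0 e
      have a2 := hy1 e
      split_ifs at a1 a2 ⊢ <;> linarith
    · refine Finset.prod_nonneg fun e he => ?_
      have a3 := hx'0 e he
      have a4 := hx'1 e he
      rw [if_pos he]
      split_ifs <;> linarith
  have hevn : ∀ {G₀ : Type} [AddCommGroup G₀] (b : E → G₀) (η : Finset E), 0 ≤ evn b η := by
    intro G₀ _ b η
    rw [stochDom_evn_card]
    positivity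
  have hfin := mul_le_mul hev hprod hnn (mul_nonneg (hevn bd _) (hevn bd' _))
  calc _ = (evn bd ω * evn bd' ω') * ((∏ e ∈ D', (if e ∈ ω then (if e ∈ D then x e else 0) else
        1 - (if e ∈ D then x e else 0))) *
      (∏ e ∈ D', (if e ∈ ω' then (if e ∈ D' then x' e else 0) else
        1 - (if e ∈ D' then x' e else 0)))) := by ring
    _ ≤ _ := hfin
    _ = _ := by ring

theorem stochDom (h1 : Coupling) : StochDom := by
  intro E G G' _ _ _ h2 h2' bd bd' D D' x x' hD hx0 hxx' hx'0 hx'1 hker P hP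
  classical
  have hx1 : ∀ e ∈ D, x e ≤ 1 := fun e he => (hxx' e he).trans (hx'1 e (hD he))
  obtain ⟨s1, -, -, -, -, ⟨z1, w1⟩, -⟩ := h1 E G h2 bd D x hx0 hx1
  obtain ⟨s2, -, -, -, -, ⟨z2, w2⟩, -⟩ := h1 E G' h2' bd' D' x' hx'0 hx'1
  unfold fkP fkE
  rw [div_le_div_iff₀ (by linarith) (by linarith), ← s1, ← s2]
  -- the four functions
  have hfour := Finset.four_functions_theorem (β := ℝ) (α := E) D'
    (f₁ := fun ω => if ω ⊆ D ∧ P ω then fkW bd D x ω else 0)
    (f₂ := fun ω => if ω ⊆ D' then fkW bd' D' x' ω else 0)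
    (f₃ := fun ω => if ω ⊆ D then fkW bd D x ω else 0)
    (f₄ := fun ω => if ω ⊆ D' ∧ P ω then fkW bd' D' x' ω else 0)
    (by
      intro ω
      show (0 : ℝ) ≤ if ω ⊆ D ∧ P ω then fkW bd D x ω else 0
      split_ifs with h
      · exact w1 ω h.1
      · exact le_rfl)
    (by
      intro ω
      show (0 : ℝ) ≤ if ω ⊆ D' then fkW bd' D' x' ω else 0
      split_ifs with h
      · exact w2 ω h
      · exact le_rfl)
    (by
      intro ω
      show (0 : ℝ) ≤ if ω ⊆ D then fkW bd D x ω else 0
      split_ifs with h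
      · exact w1 ω h
      · exact le_rfl)
    (by
      intro ω
      show (0 : ℝ) ≤ if ω ⊆ D' ∧ P ω then fkW bd' D' x' ω else 0
      split_ifs with h
      · exact w2 ω h.1
      · exact le_rfl)
    (by
      intro s _ t ht
      show (if s ⊆ D ∧ P s then fkW bd D x s else 0) * (if t ⊆ D' then fkW bd' D' x' t else 0) ≤
        (if s ∩ t ⊆ D then fkW bd D x (s ∩ t) else 0) *
          (if s ∪ t ⊆ D' ∧ P (s ∪ t) then fkW bd' D' x' (s ∪ t) else 0)
      by_cases hs : s ⊆ D ∧ P s
      · have hst : s ∪ t ⊆ D' := Finset.union_subset (hs.1.trans hD) ht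
        rw [if_pos hs, if_pos ht, if_pos (Finset.inter_subset_left.trans hs.1),
          if_pos ⟨hst, hP s (s ∪ t) Finset.subset_union_left hst hs.2⟩]
        exact stochDom_holley h2 h2' bd bd' D D' x x' hD hx0 hxx' hx'0 hx'1 hker s t hs.1 ht
      · rw [if_neg hs, zero_mul]
        apply mul_nonneg
        · split_ifs with h
          · exact w1 _ h
          · exact le_rfl
        · split_ifs with h
          · exact w2 _ h.1
          · exact le_rfl)
    (𝒜 := D'.powerset) (ℬ := D'.powerset) (Finset.Subset.refl _) (Finset.Subset.refl _)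
  rw [Finset.powerset_infs_powerset_self, Finset.powerset_sups_powerset_self] at hfour
  have t1 : ∑ s ∈ D'.powerset, (if s ⊆ D ∧ P s then fkW bd D x s else 0) =
      ∑ ω ∈ D.powerset, fkW bd D x ω * (if P ω then 1 else 0) := by
    symm
    rw [← Finset.sum_subset (Finset.powerset_mono.2 hD)
      (f := fun s => if s ⊆ D ∧ P s then fkW bd D x s else 0)]
    · refine Finset.sum_congr rfl fun s hs => ?_
      rw [Finset.mem_powerset] at hs
      by_cases hPs : P s
      · rw [if_pos hPs, if_pos ⟨hs, hPs⟩, mul_one]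
      · rw [if_neg hPs, if_neg (fun h => hPs h.2), mul_zero]
    · intro s _ hs
      exact if_neg fun h => hs (Finset.mem_powerset.2 h.1)
  have t2 : ∑ s ∈ D'.powerset, (if s ⊆ D' then fkW bd' D' x' s else 0) =
      ∑ ω ∈ D'.powerset, fkW bd' D' x' ω := by
    refine Finset.sum_congr rfl fun s hs => ?_
    rw [if_pos (Finset.mem_powerset.1 hs)]
  have t3 : ∑ s ∈ D'.powerset, (if s ⊆ D then fkW bd D x s else 0) =
      ∑ ω ∈ D.powerset, fkW bd D x ω := by
    symm
    rw [← Finset.sum_subset (Finset.powerset_mono.2 hD)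
      (f := fun s => if s ⊆ D then fkW bd D x s else 0)]
    · refine Finset.sum_congr rfl fun s hs => ?_
      rw [if_pos (Finset.mem_powerset.1 hs)]
    · intro s _ hs
      exact if_neg fun h => hs (Finset.mem_powerset.2 h)
  have t4 : ∑ s ∈ D'.powerset, (if s ⊆ D' ∧ P s then fkW bd' D' x' s else 0) =
      ∑ ω ∈ D'.powerset, fkW bd' D' x' ω * (if P ω then 1 else 0) := by
    refine Finset.sum_congr rfl fun s hs => ?_
    rw [Finset.mem_powerset] at hs
    by_cases hPs : P s
    · rw [if_pos hPs, if_pos ⟨hs, hPs⟩, mul_one]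
    · rw [if_neg hPs, if_neg (fun h => hPs h.2), mul_zero]
  rw [t1, t2, t3, t4] at hfour
  calc _ ≤ _ := hfour
    _ = _ := mul_comm _ _

end Pool.Agent.Lib.MP_6d40c9_pr
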