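import Pool.Agent.Lib.MP_6d40c9_pr.SpecL

/-!
# The approximation passes to the limit
-/

set_option autoImplicit false

namespace Pool.Agent.Lib.MP_6d40c9_pr

open Finset MeasureTheory Filter Topology TopologicalSpace Metric
open scoped BigOperators

open Classical in
/-- an indicator times a continuous function of a measurable function -/
private theorem t4_meas {X U : Type} [MeasurableSpace X] {P : Measure X} {S : X → ℝ} {N : X → U}
    (hS : Measurable S) {v : U} (hN : AEMeasurable (fun ω => if N ω = v then (1 : ℝ) else 0) P)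
    {G : ℝ → ℝ} (hG : Continuous G) :
    AEMeasurable (fun ω => if N ω = v then G (S ω) else 0) P := by
  have h1 : (fun ω => if N ω = v then G (S ω) else 0) =
      fun ω => (if N ω = v then (1 : ℝ) else 0) * G (S ω) := by
    funext ω
    split_ifs <;> simp
  rw [h1]
  exact hN.mul (hG.measurable.comp hS).aemeasurable

open Classical in
private theorem t4_int {X U : Type} [MeasurableSpace X] {P : Measure X} [IsProbabilityMeasure P]
    {S : X → ℝ} {N : X → U}
    (hS : Measurable S) {v : U} (hN : AEMeasurable (fun ω => if N ω = v then (1 : ℝ) else 0) P)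
    {G : ℝ → ℝ} (hG : Continuous G) {T : ℝ} (hT : 0 ≤ T) (hb : ∀ y, |G y| ≤ T) :
    Integrable (fun ω => if N ω = v then G (S ω) else 0) P := by
  refine Integrable.of_bound (t4_meas hS hN hG).aestronglyMeasurable T
    (Eventually.of_forall fun ω => ?_)
  rw [Real.norm_eq_abs]
  split_ifs
  · exact hb _
  · simpa using hT

private theorem t4_min {T : ℝ} (hT : 0 ≤ T) (c : ℝ) :
    Continuous (fun y : ℝ => min T ((y - c) ^ 2)) ∧ ∀ y : ℝ, |min T ((y - c) ^ 2)| ≤ T := by
  refine ⟨by fun_prop, fun y => ?_⟩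
  rw [abs_of_nonneg (le_min hT (sq_nonneg _))]
  exact min_le_left _ _

private theorem t4_sq {η : ℝ} (hη : 0 < η) (x y : ℝ) :
    x ^ 2 ≤ (1 + η) * y ^ 2 + (1 + 1 / η) * (x - y) ^ 2 := by
  have h1 : 0 ≤ (η * y - (x - y)) ^ 2 / η := by positivity
  have h2 : (η * y - (x - y)) ^ 2 / η = η * y ^ 2 - 2 * y * (x - y) + (x - y) ^ 2 / η := by
    field_simp
    ring
  have h3 : (1 + 1 / η) * (x - y) ^ 2 = (x - y) ^ 2 + (x - y) ^ 2 / η := by
    field_simp
  nlinarith

open Classical in
/-- The abstract statement. -/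
private theorem t4_main {X U W : Type} [MeasurableSpace X] (P : Measure X)
    [IsProbabilityMeasure P] (S : X → ℝ) (N : X → U) (D : Set U) (hD : D.Countable)
    (hND : ∀ ω, N ω ∈ D) (hS : Measurable S)
    (hN : ∀ v, AEMeasurable (fun ω => if N ω = v then (1 : ℝ) else 0) P)
    (E : ℕ → (W → ℝ) → ℝ) (S' : ℕ → W → ℝ) (N' : ℕ → W → U)
    (hone : ∀ k, E k (fun _ => 1) = 1)
    (hlin : ∀ k (a b : ℝ) (g g' : W → ℝ), E k (fun w => a * g w + b * g' w) =
      a * E k g + b * E k g')
    (hmono : ∀ k (g g' : W → ℝ), (∀ w, g w ≤ g' w) → E k g ≤ E k g')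
    (hsum : ∀ k (s : Finset U) (g : U → W → ℝ), E k (fun w => ∑ i ∈ s, g i w) =
      ∑ i ∈ s, E k (g i))
    (hcv : ∀ G : ℝ → ℝ, Continuous G → (∃ C, ∀ y, |G y| ≤ C) → ∀ v : U,
      Tendsto (fun k => E k (fun w => if N' k w = v then G (S' k w) else 0)) atTop
        (𝓝 (∫ ω, (if N ω = v then G (S ω) else 0) ∂P)))
    (C ε : ℝ) (hε : 0 < ε) (hC : ∀ᶠ k in atTop, E k (fun w => S' k w ^ 2) ≤ C)
    (hap : ∀ᶠ k in atTop, ∃ h : U → ℝ, E k (fun w => (S' k w - h (N' k w)) ^ 2) ≤ ε) :
    ∃ h : U → ℝ, ∫⁻ ω, ENNReal.ofReal ((S ω - h (N ω)) ^ 2) ∂P ≤ ENNReal.ofReal ε := by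
  -- choose the approximants
  have hch : ∀ k, ∃ h : U → ℝ, (∃ h' : U → ℝ, E k (fun w => (S' k w - h' (N' k w)) ^ 2) ≤ ε) →
      E k (fun w => (S' k w - h (N' k w)) ^ 2) ≤ ε := by
    intro k
    by_cases h : ∃ h' : U → ℝ, E k (fun w => (S' k w - h' (N' k w)) ^ 2) ≤ ε
    · obtain ⟨h', hh'⟩ := h
      exact ⟨h', fun _ => hh'⟩
    · exact ⟨fun _ => 0, fun h' => absurd h' h⟩
  choose H hH using hch
  have hH' : ∀ᶠ k in atTop, E k (fun w => (S' k w - H k (N' k w)) ^ 2) ≤ ε := by
    filter_upwards [hap] with k hk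
    exact hH k hk
  obtain ⟨a, ha⟩ : ∃ a : U → ℝ, ∀ v, a v = ∫ ω, (if N ω = v then (1 : ℝ) else 0) ∂P :=
    ⟨_, fun _ => rfl⟩
  have hA : ∀ v, Tendsto (fun k => E k (fun w => if N' k w = v then (1 : ℝ) else 0)) atTop
      (𝓝 (a v)) := by
    intro v
    have := hcv (fun _ => 1) continuous_const ⟨1, fun _ => by simp⟩ v
    rw [ha]
    exact this
  -- the ultrafilter
  obtain ⟨𝒰, h𝒰⟩ : ∃ 𝒰 : Ultrafilter ℕ, (𝒰 : Filter ℕ) ≤ atTop :=
    ⟨Ultrafilter.of atTop, Ultrafilter.of_le atTop⟩
  have hlim : ∀ v, ∃ x : ℝ, 0 < a v → Tendsto (fun k => H k v) (𝒰 : Filter ℕ) (𝓝 x) := by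
    intro v
    by_cases hv : 0 < a v
    · have e1 : ∀ᶠ k in atTop, a v / 2 < E k (fun w => if N' k w = v then (1 : ℝ) else 0) :=
        (hA v).eventually (lt_mem_nhds (by linarith))
      have e2 : ∀ᶠ k in atTop, H k v ∈ Set.Icc (-(Real.sqrt ((2 * ε + 2 * C) / (a v / 2))))
          (Real.sqrt ((2 * ε + 2 * C) / (a v / 2))) := by
        filter_upwards [e1, hC, hH'] with k h1 h2 h3
        have h4 : (H k v) ^ 2 * E k (fun w => if N' k w = v then (1 : ℝ) else 0) ≤
            2 * ε + 2 * C := by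
          have h5 := hlin k ((H k v) ^ 2) 0 (fun w => if N' k w = v then (1 : ℝ) else 0)
            (fun _ => 0)
          have h6 := hlin k 2 2 (fun w => (S' k w - H k (N' k w)) ^ 2) (fun w => S' k w ^ 2)
          have h7 : E k (fun w => (H k v) ^ 2 * (if N' k w = v then (1 : ℝ) else 0) +
              0 * (fun _ => (0 : ℝ)) w) ≤
              E k (fun w => 2 * (fun w => (S' k w - H k (N' k w)) ^ 2) w +
                2 * (fun w => S' k w ^ 2) w) := by
            refine hmono k _ _ fun w => ?_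
            simp only
            split_ifs with hw
            · rw [hw]
              nlinarith [sq_nonneg (S' k w - H k v - S' k w), sq_nonneg (2 * S' k w - H k v)]
            · have := sq_nonneg (S' k w - H k (N' k w))
              have := sq_nonneg (S' k w)
              linarith
          simp only at h7 h6 h5
          rw [h5, h6] at h7
          linarith
        have h5 : (H k v) ^ 2 ≤ (2 * ε + 2 * C) / (a v / 2) := by
          rw [le_div_iff₀ (by linarith)]
          have : (H k v) ^ 2 * (a v / 2) ≤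
              (H k v) ^ 2 * E k (fun w => if N' k w = v then (1 : ℝ) else 0) :=
            mul_le_mul_of_nonneg_left h1.le (sq_nonneg _)
          linarith
        have h6 := Real.abs_le_sqrt h5
        rw [abs_le] at h6
        exact ⟨h6.1, h6.2⟩
      have e3 : Set.Icc (-(Real.sqrt ((2 * ε + 2 * C) / (a v / 2))))
          (Real.sqrt ((2 * ε + 2 * C) / (a v / 2))) ∈ 𝒰.map (fun k => H k v) := by
        rw [Ultrafilter.mem_map]
        exact h𝒰 e2
      obtain ⟨x, -, hx⟩ := isCompact_Icc.ultrafilter_le_nhds' _ e3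
      exact ⟨x, fun _ => hx⟩
    · exact ⟨0, fun h => absurd h hv⟩
  choose h hh using hlim
  -- the truncated integrals
  obtain ⟨t, ht⟩ : ∃ t : ℝ → U → ℝ, ∀ T v, t T v =
      ∫ ω, (if N ω = v then min T ((S ω - h v) ^ 2) else 0) ∂P := ⟨_, fun _ _ => rfl⟩
  have hkey : ∀ (T : ℝ), 0 ≤ T → ∀ V : Finset U, ∑ v ∈ V, t T v ≤ ε := by
    intro T hT V
    have hneg : ∀ v, ¬ 0 < a v → t T v ≤ 0 := by
      intro v hv
      have h1 : t T v ≤ ∫ ω, T * (if N ω = v then (1 : ℝ) else 0) ∂P := by
        rw [ht]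
        refine integral_mono (t4_int hS (hN v) (t4_min hT (h v)).1 hT (t4_min hT (h v)).2) ?_ ?_
        · exact (t4_int hS (hN v) (G := fun _ => 1) continuous_const zero_le_one
            (fun _ => by simp)).const_mul T
        · intro ω
          simp only
          split_ifs
          · rw [mul_one]
            exact min_le_left _ _
          · simp
      rw [integral_const_mul, ← ha] at h1
      push Not at hv
      nlinarith
    have hsplit : ∑ v ∈ V, t T v ≤ ∑ v ∈ V.filter (fun v => 0 < a v), t T v := by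
      rw [← Finset.sum_filter_add_sum_filter_not V (fun v => 0 < a v)]
      have : ∑ v ∈ V.filter (fun v => ¬ 0 < a v), t T v ≤ 0 :=
        Finset.sum_nonpos fun v hv => hneg v (Finset.mem_filter.1 hv).2
      linarith
    refine hsplit.trans ?_
    obtain ⟨V', hV'⟩ : ∃ V', V' = V.filter (fun v => 0 < a v) := ⟨_, rfl⟩
    rw [← hV']
    have hVpos : ∀ v ∈ V', 0 < a v := by
      intro v hv
      rw [hV'] at hv
      exact (Finset.mem_filter.1 hv).2
    have hη : ∀ η : ℝ, 0 < η → ∑ v ∈ V', t T v ≤ (1 + η) * ε := by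
      intro η hη
      have l1 : Tendsto (fun k => ∑ v ∈ V', E k (fun w => if N' k w = v then
          min T ((S' k w - h v) ^ 2) else 0)) (𝒰 : Filter ℕ) (𝓝 (∑ v ∈ V', t T v)) := by
        refine tendsto_finsetSum _ fun v _ => ?_
        rw [ht]
        exact (hcv (fun y => min T ((y - h v) ^ 2)) (t4_min hT (h v)).1
          ⟨T, (t4_min hT (h v)).2⟩ v).mono_left h𝒰
      have l2 : Tendsto (fun k => (1 + η) * ε + (1 + 1 / η) * ∑ v ∈ V', (H k v - h v) ^ 2)
          (𝒰 : Filter ℕ) (𝓝 ((1 + η) * ε + (1 + 1 / η) * ∑ v ∈ V', (0 : ℝ))) := by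
        refine Tendsto.const_add _ (Tendsto.const_mul _ (tendsto_finsetSum _ fun v hv => ?_))
        have h1 := ((hh v (hVpos v hv)).sub_const (h v)).pow 2
        simpa using h1
      rw [Finset.sum_const_zero, mul_zero, add_zero] at l2
      refine le_of_tendsto_of_tendsto l1 l2 ?_
      have e1 : ∀ᶠ k in (𝒰 : Filter ℕ), E k (fun w => (S' k w - H k (N' k w)) ^ 2) ≤ ε :=
        h𝒰 hH'
      filter_upwards [e1] with k hk
      rw [← hsum]
      have h1 := hlin k (1 + η) ((1 + 1 / η) * ∑ v ∈ V', (H k v - h v) ^ 2)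
        (fun w => (S' k w - H k (N' k w)) ^ 2) (fun _ => 1)
      rw [hone] at h1
      have h2 : E k (fun w => ∑ v ∈ V', if N' k w = v then min T ((S' k w - h v) ^ 2) else 0) ≤
          E k (fun w => (1 + η) * (fun w => (S' k w - H k (N' k w)) ^ 2) w +
            ((1 + 1 / η) * ∑ v ∈ V', (H k v - h v) ^ 2) * (fun _ => (1 : ℝ)) w) := by
        refine hmono k _ _ fun w => ?_
        simp only
        have hs0 : 0 ≤ ∑ v ∈ V', (H k v - h v) ^ 2 := Finset.sum_nonneg fun _ _ => sq_nonneg _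
        have hη1 : 0 < 1 + 1 / η := by positivity
        rw [Finset.sum_ite_eq V' (N' k w)]
        split_ifs with hw
        · have h3 := t4_sq hη (S' k w - h (N' k w)) (S' k w - H k (N' k w))
          have h4 : (S' k w - h (N' k w) - (S' k w - H k (N' k w))) ^ 2 =
              (H k (N' k w) - h (N' k w)) ^ 2 := by ring
          rw [h4] at h3
          have h5 : (H k (N' k w) - h (N' k w)) ^ 2 ≤ ∑ v ∈ V', (H k v - h v) ^ 2 :=
            Finset.single_le_sum (f := fun v => (H k v - h v) ^ 2) (fun _ _ => sq_nonneg _) hw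
          have h6 : (1 + 1 / η) * (H k (N' k w) - h (N' k w)) ^ 2 ≤
              (1 + 1 / η) * ∑ v ∈ V', (H k v - h v) ^ 2 :=
            mul_le_mul_of_nonneg_left h5 hη1.le
          have h7 := min_le_right T ((S' k w - h (N' k w)) ^ 2)
          linarith
        · have := sq_nonneg (S' k w - H k (N' k w))
          positivity
      simp only at h2 h1
      rw [h1] at h2
      have h3 : (1 + η) * E k (fun w => (S' k w - H k (N' k w)) ^ 2) ≤ (1 + η) * ε :=
        mul_le_mul_of_nonneg_left hk (by linarith)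
      linarith
    refine le_of_forall_pos_le_add fun ε' hε' => ?_
    have h1 := hη (ε' / ε) (div_pos hε' hε)
    have h2 : (1 + ε' / ε) * ε = ε + ε' := by
      field_simp
    linarith
  -- Fatou
  refine ⟨h, ?_⟩
  have hne : D.Nonempty := by
    have hX : Nonempty X := by
      by_contra hX
      rw [not_nonempty_iff] at hX
      have h1 : P Set.univ = 1 := measure_univ
      rw [Set.univ_eq_empty_iff.2 hX, measure_empty] at h1
      exact zero_ne_one h1
    obtain ⟨ω⟩ := hX
    exact ⟨N ω, hND ω⟩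
  obtain ⟨e, he⟩ := hD.exists_eq_range hne
  obtain ⟨F, hF⟩ : ∃ F : ℕ → X → ℝ, ∀ n ω, F n ω = ∑ v ∈ (Finset.range n).image e,
      (if N ω = v then min (n : ℝ) ((S ω - h v) ^ 2) else 0) := ⟨_, fun _ _ => rfl⟩
  have hFm : ∀ n, AEMeasurable (F n) P := by
    intro n
    have h1 : F n = fun ω => ∑ v ∈ (Finset.range n).image e,
        (if N ω = v then min (n : ℝ) ((S ω - h v) ^ 2) else 0) := funext (hF n)
    rw [h1]
    exact Finset.aemeasurable_fun_sum _ fun v _ =>
      t4_meas hS (hN v) (t4_min (Nat.cast_nonneg n) (h v)).1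
  have hF0 : ∀ n ω, 0 ≤ F n ω := by
    intro n ω
    rw [hF]
    refine Finset.sum_nonneg fun v _ => ?_
    split_ifs
    · exact le_min (Nat.cast_nonneg n) (sq_nonneg _)
    · exact le_rfl
  have hFint : ∀ n, ∫⁻ ω, ENNReal.ofReal (F n ω) ∂P ≤ ENNReal.ofReal ε := by
    intro n
    have h1 : F n = fun ω => ∑ v ∈ (Finset.range n).image e,
        (if N ω = v then min (n : ℝ) ((S ω - h v) ^ 2) else 0) := funext (hF n)
    have hint : ∀ v ∈ (Finset.range n).image e,
        Integrable (fun ω => if N ω = v then min (n : ℝ) ((S ω - h v) ^ 2) else 0) P :=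
      fun v _ => t4_int hS (hN v) (t4_min (Nat.cast_nonneg n) (h v)).1 (Nat.cast_nonneg n)
        (t4_min (Nat.cast_nonneg n) (h v)).2
    have hFi : Integrable (F n) P := by
      rw [h1]
      exact integrable_finsetSum _ hint
    rw [← ofReal_integral_eq_lintegral_ofReal hFi (Eventually.of_forall (hF0 n))]
    apply ENNReal.ofReal_le_ofReal
    have h2 : ∫ ω, F n ω ∂P = ∑ v ∈ (Finset.range n).image e, t n v := by
      rw [h1, integral_finsetSum _ hint]
      exact Finset.sum_congr rfl fun v _ => (ht _ _).symm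
    rw [h2]
    exact hkey n (Nat.cast_nonneg n) _
  have hev : ∀ ω, ∀ᶠ n in atTop, F n ω = (S ω - h (N ω)) ^ 2 := by
    intro ω
    have h1 : N ω ∈ Set.range e := by
      rw [← he]
      exact hND ω
    obtain ⟨i, hi⟩ := h1
    obtain ⟨m, hm⟩ := exists_nat_ge ((S ω - h (N ω)) ^ 2)
    filter_upwards [eventually_ge_atTop (max (i + 1) m)] with n hn
    have hn1 : i < n := by
      have := (le_max_left (i + 1) m).trans hn
      omega
    have hn2 : (m : ℝ) ≤ n := by
      exact_mod_cast (le_max_right (i + 1) m).trans hn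
    rw [hF, Finset.sum_ite_eq ((Finset.range n).image e) (N ω), if_pos, min_eq_right (by linarith)]
    exact Finset.mem_image.2 ⟨i, Finset.mem_range.2 hn1, hi⟩
  have hlimF : ∀ ω, Tendsto (fun n => ENNReal.ofReal (F n ω)) atTop
      (𝓝 (ENNReal.ofReal ((S ω - h (N ω)) ^ 2))) := by
    intro ω
    refine tendsto_const_nhds.congr' ?_
    filter_upwards [hev ω] with n hn
    rw [hn]
  calc ∫⁻ ω, ENNReal.ofReal ((S ω - h (N ω)) ^ 2) ∂P
      = ∫⁻ ω, liminf (fun n => ENNReal.ofReal (F n ω)) atTop ∂P := by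
        refine lintegral_congr fun ω => ?_
        exact (hlimF ω).liminf_eq.symm
    _ ≤ liminf (fun n => ∫⁻ ω, ENNReal.ofReal (F n ω) ∂P) atTop :=
        lintegral_liminf_le' fun n => (hFm n).ennreal_ofReal
    _ ≤ liminf (fun _ : ℕ => ENNReal.ofReal ε) atTop :=
        liminf_le_liminf (Eventually.of_forall hFint)
    _ = ENNReal.ofReal ε := liminf_const _

theorem t4S (h1 : JCS) (h2 : MeasS) (h3 : LEFacts) : T4S := by
  intro X _ P _ p σ Γ δs hp hL hG hδ hδ0 hJ f hf C ε hε hC hap
  obtain ⟨f1, f2, f3, -, f5, -, -⟩ := h3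
  classical
  have hle : sigmaLoops Γ ≤ (inferInstance : MeasurableSpace X) := by
    refine iSup_le fun φ => ?_
    exact (hL.measW φ.1 φ.2).comap_le
  refine t4_main P (σ f) (nG p Γ) {v | ∀ s, s ∉ Sts p → v s = 0} ?_ ?_ (hL.measS f hf) ?_
    (fun k g => lE (DD p.Ω (δs k)) g) (fun k w => sf p.Ω (δs k) f w)
    (fun k w => nst p (δs k) w) ?_ ?_ ?_ ?_ ?_ C ε hε hC hap
  · rw [← Set.countable_coe_iff]
    refine Function.Injective.countable
      (f := fun (v : {v : St → ℕ | ∀ s, s ∉ Sts p → v s = 0}) (s : ↥(Sts p)) => v.1 s.1) ?_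
    intro v v' hv
    apply Subtype.ext
    funext s
    by_cases hs : s ∈ Sts p
    · exact congrFun hv ⟨s, hs⟩
    · rw [v.2 s hs, v'.2 s hs]
  · intro ω s hs
    unfold nG
    have : {K : NonemptyCompacts (ℝ × ℝ) | K ∈ Γ ω ∧ p.κ ≤ diam (K : Set (ℝ × ℝ)) ∧
        stat p (K : Set (ℝ × ℝ)) (fill (K : Set (ℝ × ℝ))) = s} = ∅ := by
      rw [Set.eq_empty_iff_forall_notMem]
      rintro K ⟨-, -, hK⟩
      apply hs
      rw [← hK]
      unfold stat Sts
      rw [Finset.mem_product, Finset.mem_product, Finset.mem_powerset, Finset.mem_powerset,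
        Finset.mem_powerset]
      exact ⟨Finset.filter_subset _ _, Finset.filter_subset _ _, Finset.filter_subset _ _⟩
    rw [this, Set.ncard_empty]
  · intro v
    obtain ⟨Y, hY, hYe⟩ := h2 X P p σ Γ hp hL hG (fun u => if u = v then 1 else 0)
    exact ((hY.mono hle le_rfl).aemeasurable).congr hYe.symm
  · intro k
    exact f1 _
  · intro k a b g g'
    exact f2 _ a b g g'
  · intro k g g' hgg
    exact f3 _ g g' fun w _ _ => hgg w
  · intro k s g
    exact f5 _ _ s g
  · intro G hGc hGb v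
    exact h1 X P p σ Γ δs hp hL hG hδ hδ0 hJ f hf G hGc hGb v

end Pool.Agent.Lib.MP_6d40c9_pr
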