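import Pool.Agent.Lib.MP_6d40c9_pr.SpecP
import Pool.Agent.Lib.MP_6d40c9_pr.Markov
import Pool.Agent.Lib.MP_6d40c9_pr.CompFacts

/-!
# Total variation bound for the touched components (MP_6d40c9_pr)
-/

set_option autoImplicit false

namespace Pool.Agent.Lib.MP_6d40c9_pr

open Finset MeasureTheory Filter Topology TopologicalSpace Metric
open scoped BigOperators symmDiff

private theorem tVar_two (g : Pt → ZMod 2) : g + g = 0 := by
  funext v
  exact CharTwo.add_self_eq_zero _

private theorem tVar_xc1 : xc ≤ 1 := by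
  unfold xc
  have : Real.sqrt 2 ≤ 2 := by
    rw [Real.sqrt_le_left (by norm_num)]
    norm_num
  linarith

private theorem tVar_Zp (D : Finset Edge) :
    Zp bdV D (fun _ => xc) 0 = markovS D (fun _ => 1) := by
  unfold Zp markovS
  refine Finset.sum_congr rfl fun w _ => ?_
  by_cases hw : bdy bdV w = 0
  · have hw' : Even' w := hw
    rw [if_pos hw, if_pos hw', Finset.prod_const, mul_one]
  · have hw' : ¬ Even' w := hw
    rw [if_neg hw, if_neg hw']

open Classical in
/-- The weight of the sets `w` with `tc T w = V`. -/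
private noncomputable def tVarN (D : Finset Edge) (T : Edge → Prop) (V : Finset Edge) : ℝ :=
  ∑ w ∈ D.powerset, if Even' w ∧ tc T w = V then xc ^ w.card else 0

/-- The probability of `tc T w = V`. -/
private noncomputable def tVarP (D : Finset Edge) (T : Edge → Prop) (V : Finset Edge) : ℝ :=
  tVarN D T V / markovS D (fun _ => 1)

open Classical in
private theorem tVar_exp {D H : Finset Edge} (hD : D ⊆ H) (T : Edge → Prop)
    (g : Finset Edge → ℝ) :
    lE D (fun w => g (tc T w)) = ∑ V ∈ H.powerset, g V * tVarP D T V := by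
  rw [markov_lE]
  have key : markovS D (fun w => g (tc T w)) = ∑ V ∈ H.powerset, g V * tVarN D T V := by
    unfold markovS tVarN
    simp only [Finset.mul_sum]
    rw [Finset.sum_comm]
    refine Finset.sum_congr rfl fun w hw => ?_
    rw [Finset.mem_powerset] at hw
    have h1 : tc T w ∈ H.powerset :=
      Finset.mem_powerset.2 fun e he => hD (hw (markov_mem_tc.1 he).1)
    rw [Finset.sum_eq_single_of_mem (tc T w) h1]
    · by_cases hE : Even' w
      · rw [if_pos hE, if_pos ⟨hE, rfl⟩, mul_comm]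
      · rw [if_neg hE, if_neg fun hh => hE hh.1, mul_zero]
    · intro V _ hV
      rw [if_neg, mul_zero]
      rintro ⟨-, h2⟩
      exact hV h2.symm
  rw [key, Finset.sum_div]
  refine Finset.sum_congr rfl fun V _ => ?_
  unfold tVarP
  rw [mul_div_assoc]

private theorem tVar_N_nonneg (D : Finset Edge) (T : Edge → Prop) (V : Finset Edge) :
    0 ≤ tVarN D T V := by
  unfold tVarN
  refine Finset.sum_nonneg fun w _ => ?_
  split_ifs
  · exact pow_nonneg markov_xc_pos.le _
  · exact le_rfl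

private theorem tVar_P_nonneg (D : Finset Edge) (T : Edge → Prop) (V : Finset Edge) :
    0 ≤ tVarP D T V :=
  div_nonneg (tVar_N_nonneg D T V) (markov_pos D).le

private theorem tVar_sum {D H : Finset Edge} (hD : D ⊆ H) (T : Edge → Prop) :
    ∑ V ∈ H.powerset, tVarP D T V = 1 := by
  have h := tVar_exp hD T (fun _ => 1)
  simp only [one_mul] at h
  rw [← h, markov_lE]
  exact div_self (markov_pos D).ne'

open Classical in
private theorem tVar_N_good (h1 : Markov) {D V : Finset Edge} {T : Edge → Prop} (hV : V ⊆ D)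
    (hE : Even' V) (hT : tc T V = V) :
    tVarN D T V = xc ^ V.card * markovS (rest D V T) (fun _ => 1) := by
  have h := h1.1 D V T (fun _ => 1) hV hE hT
  unfold tVarN markovS
  simp only [mul_one] at h ⊢
  exact h

private theorem tVar_N_bad {D V : Finset Edge} {T : Edge → Prop}
    (hb : ¬ (V ⊆ D ∧ Even' V ∧ tc T V = V)) : tVarN D T V = 0 := by
  unfold tVarN
  refine Finset.sum_eq_zero fun w hw => ?_
  rw [if_neg]
  rintro ⟨h1, h2⟩
  apply hb
  have h3 := compFacts.2.2.2.1 T w
  rw [h2] at h3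
  exact ⟨h3.1.trans (Finset.mem_powerset.1 hw), h3.2.2.1 h1, h3.2.1⟩

private theorem tVar_rest (H M V : Finset Edge) (T : Edge → Prop) :
    rest (H \ M) V T = rest H V T \ M := by
  ext e
  rw [markov_mem_rest, Finset.mem_sdiff, Finset.mem_sdiff, markov_mem_rest]
  tauto

private theorem tVar_le (h1 : Markov) (h2 : RatioMono) {H M V : Finset Edge} {T : Edge → Prop}
    (hd : ¬ ∃ e ∈ V, e ∈ M) : tVarP H T V ≤ tVarP (H \ M) T V := by
  by_cases hg : V ⊆ H ∧ Even' V ∧ tc T V = V
  · have hV' : V ⊆ H \ M := fun e he =>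
      Finset.mem_sdiff.2 ⟨hg.1 he, fun hM => hd ⟨e, he, hM⟩⟩
    unfold tVarP
    rw [tVar_N_good h1 hg.1 hg.2.1 hg.2.2, tVar_N_good h1 hV' hg.2.1 hg.2.2, tVar_rest,
      div_le_div_iff₀ (markov_pos H) (markov_pos (H \ M))]
    have h := h2 Edge (Pt → ZMod 2) tVar_two bdV H (rest H V T) M (fun _ => xc)
      (fun e he => (markov_mem_rest.1 he).1) (fun _ _ => markov_xc_pos.le) (fun _ _ => tVar_xc1)
    rw [tVar_Zp, tVar_Zp, tVar_Zp, tVar_Zp] at h
    have h5 : 0 ≤ xc ^ V.card := pow_nonneg markov_xc_pos.le _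
    nlinarith [mul_le_mul_of_nonneg_left h h5]
  · unfold tVarP
    rw [tVar_N_bad hg, zero_div]
    exact div_nonneg (tVar_N_nonneg _ _ _) (markov_pos _).le

private theorem tVar_zero {H M V : Finset Edge} {T : Edge → Prop}
    (hd : ∃ e ∈ V, e ∈ M) : tVarP (H \ M) T V = 0 := by
  unfold tVarP
  rw [tVar_N_bad, zero_div]
  rintro ⟨h, -, -⟩
  obtain ⟨e, he, hM⟩ := hd
  exact (Finset.mem_sdiff.1 (h he)).2 hM

open Classical in
theorem tVar (h1 : Markov) (h2 : RatioMono) (_h3 : LEFacts) : TVar := by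
  intro H M T g B hB
  have hB0 : 0 ≤ B := (abs_nonneg _).trans (hB ∅)
  have eP : lP H (fun w => ∃ e ∈ tc T w, e ∈ M) =
      ∑ V ∈ H.powerset, (if ∃ e ∈ V, e ∈ M then (1 : ℝ) else 0) * tVarP H T V := by
    rw [← tVar_exp (Finset.Subset.refl H) T (fun V => if ∃ e ∈ V, e ∈ M then (1 : ℝ) else 0)]
    unfold lP lpP lE
    congr 1
    funext w
    by_cases hw : ∃ e ∈ tc T w, e ∈ M
    · rw [if_pos hw, if_pos hw]
    · rw [if_neg hw, if_neg hw]
  rw [tVar_exp (Finset.Subset.refl H) T g, tVar_exp (H := H) (D := H \ M) Finset.sdiff_subset T g,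
    eP, ← Finset.sum_sub_distrib]
  have key : ∀ V ∈ H.powerset, |g V * tVarP H T V - g V * tVarP (H \ M) T V| ≤
      B * (tVarP (H \ M) T V - tVarP H T V +
        2 * ((if ∃ e ∈ V, e ∈ M then (1 : ℝ) else 0) * tVarP H T V)) := by
    intro V _
    rw [← mul_sub, abs_mul]
    refine mul_le_mul (hB V) ?_ (abs_nonneg _) hB0
    by_cases hd : ∃ e ∈ V, e ∈ M
    · rw [if_pos hd, tVar_zero hd, sub_zero, one_mul, abs_of_nonneg (tVar_P_nonneg _ _ _)]
      linarith
    · rw [if_neg hd, zero_mul, mul_zero, add_zero,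
        abs_of_nonpos (sub_nonpos.2 (tVar_le h1 h2 hd))]
      linarith
  refine (Finset.abs_sum_le_sum_abs _ _).trans ((Finset.sum_le_sum key).trans (le_of_eq ?_))
  rw [← Finset.mul_sum, Finset.sum_add_distrib, Finset.sum_sub_distrib,
    tVar_sum (Finset.sdiff_subset : H \ M ⊆ H) T, tVar_sum (Finset.Subset.refl H) T,
    ← Finset.mul_sum]
  ring

end Pool.Agent.Lib.MP_6d40c9_pr
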