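import Pool.Agent.Lib.MP_6d40c9_pr.SpecP

/-!
# MP_6d40c9_pr: second moment on the event of a common component
-/

set_option autoImplicit false

namespace Pool.Agent.Lib.MP_6d40c9_pr

open Finset MeasureTheory Filter Topology TopologicalSpace Metric
open scoped BigOperators symmDiff

/-! ### Expectations -/

private theorem tchBS_xc : 0 ≤ xc := by
  unfold xc
  have h1 : (1 : ℝ) ≤ Real.sqrt 2 := Real.one_le_sqrt.2 (by norm_num)
  linarith

private theorem tchBS_Zp (D : Finset Edge) : 0 ≤ Zp bdV D (fun _ => xc) 0 := by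
  unfold Zp
  refine Finset.sum_nonneg fun η _ => ?_
  split_ifs
  · exact Finset.prod_nonneg fun _ _ => tchBS_xc
  · exact le_rfl

private theorem tchBS_mono (D : Finset Edge) (g g' : Finset Edge → ℝ)
    (h : ∀ w, w ⊆ D → g w ≤ g' w) : lE D g ≤ lE D g' := by
  unfold lE lpE
  refine div_le_div_of_nonneg_right ?_ (tchBS_Zp D)
  refine Finset.sum_le_sum fun η hη => ?_
  split_ifs
  · exact mul_le_mul_of_nonneg_left (h η (Finset.mem_powerset.1 hη))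
      (Finset.prod_nonneg fun _ _ => tchBS_xc)
  · exact le_rfl

private theorem tchBS_smul (D : Finset Edge) (c : ℝ) (g : Finset Edge → ℝ) :
    lE D (fun w => c * g w) = c * lE D g := by
  unfold lE lpE
  rw [← mul_div_assoc, Finset.mul_sum]
  congr 1
  refine Finset.sum_congr rfl fun η _ => ?_
  split_ifs
  · ring
  · ring

private theorem tchBS_sum {J : Type} (D : Finset Edge) (s : Finset J) (g : J → Finset Edge → ℝ) :
    lE D (fun w => ∑ i ∈ s, g i w) = ∑ i ∈ s, lE D (g i) := by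
  unfold lE lpE
  rw [← Finset.sum_div, Finset.sum_comm]
  congr 1
  refine Finset.sum_congr rfl fun η _ => ?_
  split_ifs
  · rw [Finset.mul_sum]
  · simp

private theorem tchBS_lP_mono (D : Finset Edge) (P P' : Finset Edge → Prop)
    (h : ∀ w, P w → P' w) : lP D P ≤ lP D P' := by
  unfold lP lpP
  refine tchBS_mono D _ _ fun w _ => ?_
  by_cases hP : P w
  · rw [if_pos hP, if_pos (h w hP)]
  · rw [if_neg hP]
    split_ifs <;> norm_num

private theorem tchBS_nonneg (D : Finset Edge) (g : Finset Edge → ℝ) (h : ∀ w, 0 ≤ g w) :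
    0 ≤ lE D g := by
  unfold lE lpE
  refine div_nonneg (Finset.sum_nonneg fun η _ => ?_) (tchBS_Zp D)
  split_ifs
  · exact mul_nonneg (Finset.prod_nonneg fun _ _ => tchBS_xc) (h η)
  · exact le_rfl

private theorem tchBS_lP_nonneg (D : Finset Edge) (P : Finset Edge → Prop) : 0 ≤ lP D P := by
  unfold lP lpP
  refine tchBS_nonneg D _ fun w => ?_
  split_ifs <;> norm_num

/-! ### Boxes -/

private theorem tchBS_floor (δ x : ℝ) (hδ : 0 < δ) :
    δ * (⌊x / δ⌋ : ℝ) ≤ x ∧ x < δ * (⌊x / δ⌋ : ℝ) + δ := by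
  have h2 := Int.floor_le (x / δ)
  have h3 := Int.lt_floor_add_one (x / δ)
  rw [le_div_iff₀ hδ] at h2
  rw [div_lt_iff₀ hδ] at h3
  constructor <;> nlinarith

private theorem tchBS_one (δ : ℝ) (hδ : 0 < δ) (a c : ℤ) (k : ℕ)
    (h : δ * (a : ℝ) - δ * c < δ * ((k : ℝ) + 1)) (h' : -(δ * ((k : ℝ) + 1)) < δ * (a : ℝ) - δ * c) :
    c - k ≤ a ∧ a ≤ c + k := by
  have h1 : (a : ℝ) - c < (k : ℝ) + 1 := by
    by_contra hcon
    rw [not_lt] at hcon
    nlinarith [mul_le_mul_of_nonneg_left hcon hδ.le]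
  have h2 : -((k : ℝ) + 1) < (a : ℝ) - c := by
    by_contra hcon
    rw [not_lt] at hcon
    nlinarith [mul_le_mul_of_nonneg_left hcon hδ.le]
  have h1' : a - c < (k : ℤ) + 1 := by exact_mod_cast h1
  have h2' : -((k : ℤ) + 1) < a - c := by exact_mod_cast h2
  omega

private theorem tchBS_mem (δ : ℝ) (hδ : 0 < δ) (z v : Pt) (k : ℕ)
    (h1 : δ * (v.1 : ℝ) - δ * z.1 < δ * ((k : ℝ) + 1))
    (h2 : -(δ * ((k : ℝ) + 1)) < δ * (v.1 : ℝ) - δ * z.1)
    (h3 : δ * (v.2 : ℝ) - δ * z.2 < δ * ((k : ℝ) + 1))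
    (h4 : -(δ * ((k : ℝ) + 1)) < δ * (v.2 : ℝ) - δ * z.2) : v ∈ box z k := by
  simp only [box, Finset.mem_product, Finset.mem_Icc]
  exact ⟨tchBS_one δ hδ _ _ _ h1 h2, tchBS_one δ hδ _ _ _ h3 h4⟩

private theorem tchBS_bd (δ : ℝ) (hδ : 0 < δ) (z v : Pt) (k : ℕ) (h : v ∈ box z k) :
    δ * (v.1 : ℝ) - δ * z.1 ≤ δ * k ∧ -(δ * (k : ℝ)) ≤ δ * (v.1 : ℝ) - δ * z.1 ∧
    δ * (v.2 : ℝ) - δ * z.2 ≤ δ * k ∧ -(δ * (k : ℝ)) ≤ δ * (v.2 : ℝ) - δ * z.2 := by
  simp only [box, Finset.mem_product, Finset.mem_Icc] at h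
  obtain ⟨⟨a1, a2⟩, a3, a4⟩ := h
  have b1 : (z.1 : ℝ) - k ≤ v.1 := by exact_mod_cast a1
  have b2 : (v.1 : ℝ) ≤ z.1 + k := by exact_mod_cast a2
  have b3 : (z.2 : ℝ) - k ≤ v.2 := by exact_mod_cast a3
  have b4 : (v.2 : ℝ) ≤ z.2 + k := by exact_mod_cast a4
  refine ⟨?_, ?_, ?_, ?_⟩ <;> nlinarith

private theorem tchBS_seg (δ : ℝ) (hδ : 0 < δ) (e : Edge) (x : ℝ × ℝ) (h : x ∈ seg δ e) :
    δ * (e.1.1 : ℝ) ≤ x.1 ∧ x.1 ≤ δ * (e.1.1 : ℝ) + δ ∧
    δ * (e.1.2 : ℝ) ≤ x.2 ∧ x.2 ≤ δ * (e.1.2 : ℝ) + δ := by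
  obtain ⟨⟨a, b⟩, c⟩ := e
  obtain ⟨h1, h2, h3, h4⟩ := h
  cases c
  · simp only [src, tgt, Bool.false_eq_true, if_false, Int.cast_add, Int.cast_one] at h1 h2 h3 h4
    refine ⟨h1, by linarith, h3, by linarith⟩
  · simp only [src, tgt, if_true, Int.cast_add, Int.cast_one] at h1 h2 h3 h4
    refine ⟨h1, by linarith, h3, by linarith⟩

/-- the sides of the faces of a box: position -/
private theorem tchBS_LF (z : Pt) (N : ℕ) (e : Edge) (h : e ∈ LF (box z N)) :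
    (src e ∈ box z (N + 1) ∧ tgt e ∈ box z (N + 1)) ∧
      ∃ u ∈ box z N, ∀ (δ : ℝ), 0 < δ → seg δ e ⊆ cell δ u := by
  unfold LF at h
  obtain ⟨u, hu, he⟩ := Finset.mem_biUnion.1 h
  obtain ⟨⟨a, b⟩, c⟩ := e
  obtain ⟨u1, u2⟩ := u
  have hu' := hu
  simp only [box, Finset.mem_product, Finset.mem_Icc] at hu
  simp only [Finset.mem_insert, Finset.mem_singleton, Prod.mk.injEq] at he
  refine ⟨?_, (u1, u2), hu', ?_⟩
  · simp only [src, tgt, box, Finset.mem_product, Finset.mem_Icc]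
    rcases he with ⟨⟨rfl, rfl⟩, rfl⟩ | ⟨⟨rfl, rfl⟩, rfl⟩ | ⟨⟨rfl, rfl⟩, rfl⟩ | ⟨⟨rfl, rfl⟩, rfl⟩ <;>
      simp <;> omega
  · rintro δ hδ x ⟨h1, h2, h3, h4⟩
    rcases he with ⟨⟨rfl, rfl⟩, rfl⟩ | ⟨⟨rfl, rfl⟩, rfl⟩ | ⟨⟨rfl, rfl⟩, rfl⟩ | ⟨⟨rfl, rfl⟩, rfl⟩ <;>
      simp only [src, tgt, Bool.false_eq_true, if_false, if_true, Int.cast_add, Int.cast_one]
        at h1 h2 h3 h4 <;>
      refine ⟨?_, ?_, ?_, ?_⟩ <;> simp only <;> nlinarith

private theorem tchBS_LF_mem (z : Pt) (N : ℕ) (e : Edge) (h : e.1 ∈ box z N) :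
    e ∈ LF (box z N) := by
  unfold LF
  refine Finset.mem_biUnion.2 ⟨e.1, h, ?_⟩
  obtain ⟨v, c⟩ := e
  cases c <;> simp

/-- the last entrance of a chain -/
private theorem tchBS_chain (w L : Finset Edge) (a a' : Edge) (h : connE w a a') (ha : a ∈ L) :
    a' ∉ L → ∃ x ∈ w \ L, connE (w \ L) x a' ∧ ∃ y ∈ L, adjE y x := by
  unfold connE at h
  induction h with
  | refl => exact fun h => absurd ha h
  | @tail c a'' hc hstep ih =>
    intro ha'
    obtain ⟨hw, hadj⟩ := hstep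
    have hmem : a'' ∈ w \ L := Finset.mem_sdiff.2 ⟨hw, ha'⟩
    by_cases hcL : c ∈ L
    · exact ⟨a'', hmem, Relation.ReflTransGen.refl, c, hcL, hadj⟩
    · obtain ⟨x, hx, hcon, y, hy, hyx⟩ := ih hcL
      exact ⟨x, hx, Relation.ReflTransGen.tail hcon ⟨hmem, hadj⟩, y, hy, hyx⟩

private theorem tchBS_conn_mono (w w' : Finset Edge) (h : w ⊆ w') (a b : Edge)
    (hc : connE w a b) : connE w' a b := by
  unfold connE at *
  induction hc with
  | refl => exact Relation.ReflTransGen.refl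
  | tail _ hbc ih => exact ih.tail ⟨h hbc.1, hbc.2⟩

private theorem tchBS_WJ_mono (z z' : Pt) (k : ℕ) (w w' : Finset Edge) (h : w ⊆ w')
    (hw : WJ z z' k w) : WJ z z' k w' := by
  obtain ⟨a, ha, b, hb, hc, h1, h2⟩ := hw
  exact ⟨a, h ha, b, h hb, tchBS_conn_mono _ _ h _ _ hc, h1, h2⟩

theorem tchBS (h1 : OutCond) (h2 : TwoPtS) (h3 : FacesSimp) (_h4 : MonoC) : TchBS := by
  intro hMm
  classical
  obtain ⟨C, hC⟩ := h2 hMm
  refine ⟨max C 0, le_max_right _ _, ?_⟩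
  intro p δ f M b b' hG hconn hδ hδr hball hM hbb
  have hM0 : 0 ≤ M := (abs_nonneg _).trans (hM 0)
  have hr := hG.hr
  have hR' := hG.hR'
  have hbdd : Bornology.IsBounded p.Ω := isBounded_closedBall.subset hG.hΩ
  obtain ⟨hsimp, hfaces⟩ := h3 p.Ω δ hbdd hconn hδ
  obtain ⟨m, hmdef⟩ : ∃ m : ℕ, m = ⌈p.r / (2 * δ)⌉₊ := ⟨_, rfl⟩
  rw [← hmdef]
  have hm1 : p.r ≤ 2 * δ * m := by
    have := Nat.le_ceil (p.r / (2 * δ))
    rw [← hmdef, div_le_iff₀ (by positivity)] at this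
    linarith
  have hm2 : 2 * δ * m < p.r + 2 * δ := by
    have := Nat.ceil_lt_add_one (a := p.r / (2 * δ)) (by positivity)
    rw [← hmdef] at this
    have h2δ : 0 < 2 * δ := by positivity
    have h' := mul_lt_mul_of_pos_left this h2δ
    have e : 2 * δ * (p.r / (2 * δ) + 1) = p.r + 2 * δ := by field_simp
    rw [e] at h'
    exact h'
  obtain ⟨z, hz⟩ : ∃ z : Pt, z = ref δ (cen p.r b) := ⟨_, rfl⟩
  obtain ⟨z', hz'⟩ : ∃ z' : Pt, z' = ref δ (cen p.r b') := ⟨_, rfl⟩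
  rw [← hz, ← hz']
  obtain ⟨hz1, hz2⟩ : δ * (z.1 : ℝ) ≤ p.r * b.1 ∧ p.r * b.1 < δ * (z.1 : ℝ) + δ := by
    rw [hz]; exact tchBS_floor δ _ hδ
  obtain ⟨hz3, hz4⟩ : δ * (z.2 : ℝ) ≤ p.r * b.2 ∧ p.r * b.2 < δ * (z.2 : ℝ) + δ := by
    rw [hz]; exact tchBS_floor δ _ hδ
  -- the faces with centre in the square
  have hsq : ∀ u : Pt, ctr δ u ∈ sq p.r b → u ∈ box z (m + 1) := by
    rintro u ⟨a1, a2, a3, a4⟩
    simp only [ctr] at a1 a2 a3 a4
    refine tchBS_mem δ hδ z u (m + 1) ?_ ?_ ?_ ?_ <;> push_cast <;> nlinarith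
  -- cells in the domain
  have hcell : ∀ u ∈ box z (2 * m + 2), ∀ x ∈ cell δ u, |x.1 - p.r * b.1| < 2 * p.r ∧
      |x.2 - p.r * b.2| < 2 * p.r := by
    rintro u hu x ⟨c1, c2, c3, c4⟩
    obtain ⟨b1, b2, b3, b4⟩ := tchBS_bd δ hδ z u _ hu
    push_cast at b1 b2 b3 b4
    rw [abs_lt, abs_lt]
    refine ⟨⟨?_, ?_⟩, ?_, ?_⟩ <;> nlinarith
  have hbox : box z (2 * m + 2) ⊆ faces p.Ω δ := by
    intro u hu
    rw [hfaces]
    intro x hx
    obtain ⟨c1, c2⟩ := hcell u hu x hx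
    apply hball
    rw [Metric.mem_closedBall, Prod.dist_eq, max_le_iff, Real.dist_eq, Real.dist_eq]
    exact ⟨c1.le, c2.le⟩
  -- edges touching a ball
  have htouch : ∀ (d : Pt) (e : Edge), tB p δ d e →
      e.1 ∈ box (ref δ (cen p.r d)) (2 * m + 2) ∧
        ∃ x ∈ seg δ e, |x.1 - p.r * d.1| ≤ p.R ∧ |x.2 - p.r * d.2| ≤ p.R := by
    rintro d e ⟨x, hx, hx'⟩
    rw [Metric.mem_closedBall, Prod.dist_eq, max_le_iff, Real.dist_eq, Real.dist_eq] at hx'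
    obtain ⟨d1, d2⟩ : δ * ((ref δ (cen p.r d)).1 : ℝ) ≤ p.r * d.1 ∧
        p.r * d.1 < δ * ((ref δ (cen p.r d)).1 : ℝ) + δ := tchBS_floor δ _ hδ
    obtain ⟨d3, d4⟩ : δ * ((ref δ (cen p.r d)).2 : ℝ) ≤ p.r * d.2 ∧
        p.r * d.2 < δ * ((ref δ (cen p.r d)).2 : ℝ) + δ := tchBS_floor δ _ hδ
    obtain ⟨s1, s2, s3, s4⟩ := tchBS_seg δ hδ e x hx
    have hx1 : |x.1 - p.r * d.1| ≤ p.R := hx'.1
    have hx2 : |x.2 - p.r * d.2| ≤ p.R := hx'.2
    refine ⟨?_, x, hx, hx1, hx2⟩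
    rw [abs_le] at hx1 hx2
    refine tchBS_mem δ hδ _ _ _ ?_ ?_ ?_ ?_ <;> push_cast <;> nlinarith
  -- the event
  obtain ⟨P, hP⟩ : ∃ P : Finset Edge → Prop,
      P = fun w => WJ z z' (2 * m + 3) (w \ LF (box z (2 * m + 2))) := ⟨_, rfl⟩
  have hPdep : ∀ w, P w ↔ P (w \ LF (box z (2 * m + 2))) := by
    intro w
    rw [hP]
    simp only [Finset.sdiff_idem]
  have hPW : ∀ w, P w → WJ z z' (2 * m + 3) w := by
    intro w hw
    rw [hP] at hw
    exact tchBS_WJ_mono _ _ _ _ _ Finset.sdiff_subset hw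
  have hTP : ∀ w, Tch p δ b b' w → P w := by
    rintro w ⟨a, ha, a', ha', hcon, hta, hta'⟩
    obtain ⟨ha1, -⟩ := htouch b a hta
    obtain ⟨ha1', x, hx, hx1, hx2⟩ := htouch b' a' hta'
    rw [← hz] at ha1
    rw [← hz'] at ha1'
    have haL : a ∈ LF (box z (2 * m + 2)) := tchBS_LF_mem _ _ _ ha1
    have haL' : a' ∉ LF (box z (2 * m + 2)) := by
      intro hmem
      obtain ⟨-, u, hu, hsub⟩ := tchBS_LF _ _ _ hmem
      obtain ⟨c1, c2⟩ := hcell u hu x (hsub δ hδ hx)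
      rw [abs_lt] at c1 c2
      rw [abs_le] at hx1 hx2
      have e1 : p.r * ((b.1 : ℝ) - b'.1) < p.r * 3 := by nlinarith
      have e2 : p.r * (-3) < p.r * ((b.1 : ℝ) - b'.1) := by nlinarith
      have e3 : p.r * ((b.2 : ℝ) - b'.2) < p.r * 3 := by nlinarith
      have e4 : p.r * (-3) < p.r * ((b.2 : ℝ) - b'.2) := by nlinarith
      have f1 := lt_of_mul_lt_mul_left e1 hr.le
      have f2 := lt_of_mul_lt_mul_left e2 hr.le
      have f3 := lt_of_mul_lt_mul_left e3 hr.le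
      have f4 := lt_of_mul_lt_mul_left e4 hr.le
      have g1 : b.1 - b'.1 < 3 := by exact_mod_cast f1
      have g2 : -3 < b.1 - b'.1 := by exact_mod_cast f2
      have g3 : b.2 - b'.2 < 3 := by exact_mod_cast f3
      have g4 : -3 < b.2 - b'.2 := by exact_mod_cast f4
      unfold ldist at hbb
      rw [le_max_iff] at hbb
      omega
    obtain ⟨y, hy, hcon', l, hl, hadj⟩ := tchBS_chain w _ a a' hcon haL haL'
    obtain ⟨⟨l1, l2⟩, -⟩ := tchBS_LF _ _ _ hl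
    rw [hP]
    refine ⟨y, hy, a', Finset.mem_sdiff.2 ⟨ha', haL'⟩, hcon', ?_, ?_⟩
    · rcases hadj with h | h | h | h
      · left; rw [← h]; exact l1
      · right; rw [← h]; exact l1
      · left; rw [← h]; exact l2
      · right; rw [← h]; exact l2
    · left
      show a'.1 ∈ _
      simp only [box, Finset.mem_product, Finset.mem_Icc] at ha1' ⊢
      push_cast at ha1' ⊢
      omega
  -- the second moment on the event
  obtain ⟨Fb, hFb⟩ : ∃ Fb : Finset Pt, Fb = (faces p.Ω δ).filter (fun u => ctr δ u ∈ sq p.r b) :=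
    ⟨_, rfl⟩
  have hFbsub : Fb ⊆ box z (m + 1) := by
    intro u hu
    rw [hFb] at hu
    exact hsq u (Finset.mem_filter.1 hu).2
  have hboxle : box z (m + 1) ⊆ box z (2 * m + 2) := by
    intro u hu
    simp only [box, Finset.mem_product, Finset.mem_Icc] at hu ⊢
    push_cast at hu ⊢
    omega
  have haV : ∀ w, (if P w then aV p δ f b w ^ 2 else 0) = δ ^ (15 / 4 : ℝ) *
      ∑ u ∈ Fb, ∑ v ∈ Fb, (f (ctr δ u) * f (ctr δ v)) *
        (if P w then sgn w u * sgn w v else 0) := by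
    intro w
    have hpow : (δ ^ (15 / 8 : ℝ)) ^ 2 = δ ^ (15 / 4 : ℝ) := by
      rw [← Real.rpow_natCast, ← Real.rpow_mul hδ.le]
      norm_num
    split_ifs with hPw
    · unfold aV
      rw [mul_pow, hpow]
      congr 1
      rw [pow_two, ← hFb, Finset.sum_mul_sum]
      refine Finset.sum_congr rfl fun u _ => Finset.sum_congr rfl fun v _ => ?_
      ring
    · simp
  have hOut : ∀ u ∈ box z (m + 1), ∀ v ∈ box z (m + 1),
      |lE (DD p.Ω δ) (fun w => if P w then sgn w u * sgn w v else 0)| ≤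
        lP (DD p.Ω δ) P * c2 (LF (box z (2 * m + 2))) u v := by
    intro u hu v hv
    exact h1 (faces p.Ω δ) z (2 * m + 2) hsimp hbox u (hboxle hu) v (hboxle hv) P hPdep
  have hTwo := hC (m + 1) (m + 1) z (LF (box z (2 * m + 2))) (by omega) (by omega)
    (by
      have : m + 1 + (m + 1) = 2 * m + 2 := by ring
      rw [this])
  have hlPnn : 0 ≤ lP (DD p.Ω δ) P := tchBS_lP_nonneg _ _
  have hstep1 : lE (DD p.Ω δ) (fun w => if Tch p δ b b' w then aV p δ f b w ^ 2 else 0) ≤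
      lE (DD p.Ω δ) (fun w => if P w then aV p δ f b w ^ 2 else 0) := by
    refine tchBS_mono _ _ _ fun w _ => ?_
    by_cases hT : Tch p δ b b' w
    · rw [if_pos hT, if_pos (hTP w hT)]
    · rw [if_neg hT]
      split_ifs
      · positivity
      · exact le_rfl
  have hstep2 : lE (DD p.Ω δ) (fun w => if P w then aV p δ f b w ^ 2 else 0) =
      δ ^ (15 / 4 : ℝ) * ∑ u ∈ Fb, ∑ v ∈ Fb, (f (ctr δ u) * f (ctr δ v)) *
        lE (DD p.Ω δ) (fun w => if P w then sgn w u * sgn w v else 0) := by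
    simp only [haV]
    rw [tchBS_smul, tchBS_sum]
    congr 1
    refine Finset.sum_congr rfl fun u _ => ?_
    rw [tchBS_sum]
    refine Finset.sum_congr rfl fun v _ => ?_
    rw [tchBS_smul]
  have hstep3 : ∑ u ∈ Fb, ∑ v ∈ Fb, (f (ctr δ u) * f (ctr δ v)) *
        lE (DD p.Ω δ) (fun w => if P w then sgn w u * sgn w v else 0) ≤
      ∑ u ∈ box z (m + 1), ∑ v ∈ box z (m + 1),
        M ^ 2 * (lP (DD p.Ω δ) P * c2 (LF (box z (2 * m + 2))) u v) := by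
    have hnn : ∀ u ∈ box z (m + 1), ∀ v ∈ box z (m + 1),
        0 ≤ M ^ 2 * (lP (DD p.Ω δ) P * c2 (LF (box z (2 * m + 2))) u v) := by
      intro u hu v hv
      exact mul_nonneg (sq_nonneg M) ((abs_nonneg _).trans (hOut u hu v hv))
    refine (Finset.sum_le_sum (g := fun u => ∑ v ∈ box z (m + 1),
        M ^ 2 * (lP (DD p.Ω δ) P * c2 (LF (box z (2 * m + 2))) u v)) fun u hu => ?_).trans ?_
    · refine (Finset.sum_le_sum (g := fun v =>
        M ^ 2 * (lP (DD p.Ω δ) P * c2 (LF (box z (2 * m + 2))) u v)) fun v hv => ?_).trans ?_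
      · have ho := hOut u (hFbsub hu) v (hFbsub hv)
        have hff : |f (ctr δ u) * f (ctr δ v)| ≤ M ^ 2 := by
          rw [abs_mul, pow_two]
          exact mul_le_mul (hM _) (hM _) (abs_nonneg _) hM0
        refine (le_abs_self _).trans ?_
        rw [abs_mul]
        exact mul_le_mul hff ho (abs_nonneg _) (sq_nonneg M)
      · exact Finset.sum_le_sum_of_subset_of_nonneg hFbsub
          fun v hv _ => hnn u (hFbsub hu) v hv
    · exact Finset.sum_le_sum_of_subset_of_nonneg hFbsub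
        fun u hu _ => Finset.sum_nonneg fun v hv => hnn u hu v hv
  have hstep4 : ∑ u ∈ box z (m + 1), ∑ v ∈ box z (m + 1),
        M ^ 2 * (lP (DD p.Ω δ) P * c2 (LF (box z (2 * m + 2))) u v) =
      M ^ 2 * (lP (DD p.Ω δ) P *
        ∑ u ∈ box z (m + 1), ∑ v ∈ box z (m + 1), c2 (LF (box z (2 * m + 2))) u v) := by
    simp only [Finset.mul_sum]
  have hnpow : δ ^ (15 / 4 : ℝ) * ((m + 1 : ℕ) : ℝ) ^ (15 / 4 : ℝ) ≤ p.r ^ (15 / 4 : ℝ) := by
    rw [← Real.mul_rpow hδ.le (by positivity)]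
    refine Real.rpow_le_rpow (by positivity) ?_ (by norm_num)
    push_cast
    nlinarith
  have hδpow : 0 ≤ δ ^ (15 / 4 : ℝ) := Real.rpow_nonneg hδ.le _
  have hnpow0 : 0 ≤ ((m + 1 : ℕ) : ℝ) ^ (15 / 4 : ℝ) := Real.rpow_nonneg (by positivity) _
  have hTwo' : ∑ u ∈ box z (m + 1), ∑ v ∈ box z (m + 1), c2 (LF (box z (2 * m + 2))) u v ≤
      max C 0 * ((m + 1 : ℕ) : ℝ) ^ (15 / 4 : ℝ) :=
    hTwo.trans (mul_le_mul_of_nonneg_right (le_max_left _ _) hnpow0)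
  have hC0 : 0 ≤ max C 0 := le_max_right _ _
  calc lE (DD p.Ω δ) (fun w => if Tch p δ b b' w then aV p δ f b w ^ 2 else 0)
      ≤ δ ^ (15 / 4 : ℝ) * (M ^ 2 * (lP (DD p.Ω δ) P *
        ∑ u ∈ box z (m + 1), ∑ v ∈ box z (m + 1), c2 (LF (box z (2 * m + 2))) u v)) := by
        refine hstep1.trans ?_
        rw [hstep2]
        refine mul_le_mul_of_nonneg_left ?_ hδpow
        rw [← hstep4]
        exact hstep3
    _ ≤ δ ^ (15 / 4 : ℝ) * (M ^ 2 * (lP (DD p.Ω δ) P *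
        (max C 0 * ((m + 1 : ℕ) : ℝ) ^ (15 / 4 : ℝ)))) := by
        refine mul_le_mul_of_nonneg_left ?_ hδpow
        refine mul_le_mul_of_nonneg_left ?_ (sq_nonneg M)
        exact mul_le_mul_of_nonneg_left hTwo' hlPnn
    _ = (δ ^ (15 / 4 : ℝ) * ((m + 1 : ℕ) : ℝ) ^ (15 / 4 : ℝ)) *
        (M ^ 2 * max C 0 * lP (DD p.Ω δ) P) := by ring
    _ ≤ p.r ^ (15 / 4 : ℝ) * (M ^ 2 * max C 0 * lP (DD p.Ω δ) P) :=
        mul_le_mul_of_nonneg_right hnpow (by positivity)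
    _ = max C 0 * M ^ 2 * p.r ^ (15 / 4 : ℝ) * lP (DD p.Ω δ) P := by ring
    _ ≤ max C 0 * M ^ 2 * p.r ^ (15 / 4 : ℝ) * lP (DD p.Ω δ) (WJ z z' (2 * m + 3)) := by
        refine mul_le_mul_of_nonneg_left (tchBS_lP_mono _ _ _ hPW) ?_
        have := Real.rpow_nonneg hr.le (15 / 4 : ℝ)
        positivity

end Pool.Agent.Lib.MP_6d40c9_pr
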