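import Pool.Agent.Lib.MP_6d40c9_pr.SpecP

/-!
# TchQ: two balls touched by a common component, in terms of the coarse information
-/

set_option autoImplicit false

namespace Pool.Agent.Lib.MP_6d40c9_pr

open Finset MeasureTheory Filter Topology TopologicalSpace Metric
open scoped BigOperators symmDiff

theorem tchq_conn_mono {w C : Finset Edge} (hC : C ⊆ w) {a b : Edge} (h : connE C a b) :
    connE w a b := by
  induction h with
  | refl => exact Relation.ReflTransGen.refl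
  | tail _ hxy ih => exact ih.tail ⟨hC hxy.1, hxy.2⟩

theorem tchq_dist_cen {r : ℝ} (hr : 0 < r) {b b' : Pt} (h : 2 ≤ ldist b b') :
    2 * r ≤ dist (cen r b) (cen r b') := by
  have key : ∀ m n : ℤ, 2 ≤ (m - n).natAbs → 2 * r ≤ |r * (m : ℝ) - r * (n : ℝ)| := by
    intro m n hmn
    have h1 : (2 : ℝ) ≤ |(m : ℝ) - (n : ℝ)| := by
      have : (2 : ℤ) ≤ |m - n| := by
        rw [Int.abs_eq_natAbs]
        exact_mod_cast hmn
      have h2 : ((2 : ℤ) : ℝ) ≤ ((|m - n| : ℤ) : ℝ) := by exact_mod_cast this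
      push_cast at h2
      exact h2
    rw [← mul_sub, abs_mul, abs_of_pos hr]
    nlinarith
  rw [Prod.dist_eq]
  simp only [cen, Real.dist_eq]
  rcases le_max_iff.1 h with h' | h'
  · exact le_max_of_le_left (key _ _ h')
  · exact le_max_of_le_right (key _ _ h')

theorem tchQ (h1 : CompFacts) (h2 : GeoFacts) : TchQ := by
  intro p δ hp hδ hδr b hb b' hb' hbb w hw
  obtain ⟨hc1, -, -, hc4, -⟩ := h1
  obtain ⟨hg1, hg2, -⟩ := h2
  constructor
  · rintro ⟨a, ha, a', ha', haa, hta, hta'⟩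
    obtain ⟨c, hc, hac⟩ := (hc1 w).2.2 a ha
    obtain ⟨hcw, hcne, hcc, hccon, -⟩ := (hc1 w).1 c hc
    have hac' : a' ∈ c := by
      rw [hcc a hac]
      simp only [comp, Finset.mem_filter]
      exact ⟨ha', haa⟩
    obtain ⟨y, hy, hyb⟩ := hta
    obtain ⟨y', hy', hyb'⟩ := hta'
    have hyK : y ∈ K1 δ c := by
      simp only [K1, Set.mem_iUnion]
      exact ⟨a, hac, hy⟩
    have hyK' : y' ∈ K1 δ c := by
      simp only [K1, Set.mem_iUnion]
      exact ⟨a', hac', hy'⟩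
    have hcomp : IsCompact (K1 δ c) := (hg1 δ c hδ).1
    have hdiam : p.κ ≤ diam (K1 δ c) := by
      have h3 : dist y y' ≤ diam (K1 δ c) := dist_le_diam_of_mem hcomp.isBounded hyK hyK'
      have h4 := tchq_dist_cen hp.hr hbb
      have h5 : dist (cen p.r b) (cen p.r b') ≤ dist (cen p.r b) y + dist y y' +
          dist y' (cen p.r b') := dist_triangle4 _ _ _ _
      have h6 : dist (cen p.r b) y ≤ p.R := by
        rw [dist_comm]; exact mem_closedBall.1 hyb
      have h7 : dist y' (cen p.r b') ≤ p.R := mem_closedBall.1 hyb'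
      have h8 := hp.hR'
      have h9 := hp.hκ'
      linarith
    refine ⟨stat p (K1 δ c) (K2 δ c), ?_, ?_, ?_⟩
    · simp only [stat, Finset.mem_filter]
      refine ⟨hb, ?_⟩
      exact ((hg2 δ p.R (cen p.r b) c hδ hcne).2 ⟨a, hac, y, hy, hyb⟩)
    · simp only [stat, Finset.mem_filter]
      refine ⟨hb', ?_⟩
      exact ((hg2 δ p.R (cen p.r b') c hδ hcne).2 ⟨a', hac', y', hy', hyb'⟩)
    · simp only [qB, nst]
      rw [Finset.card_ne_zero]
      refine ⟨c, ?_⟩
      rw [Finset.mem_filter]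
      refine ⟨?_, hdiam, rfl⟩
      exact ((hc4 (tB p δ b) w).2.2.2.2.1 c).2 ⟨hc, a, hac, y, hy, hyb⟩
  · rintro ⟨s, hbs, hbs', hq⟩
    simp only [qB, nst] at hq
    rw [Finset.card_ne_zero] at hq
    obtain ⟨c, hcm⟩ := hq
    rw [Finset.mem_filter] at hcm
    obtain ⟨hct, -, hst⟩ := hcm
    obtain ⟨hc, -⟩ := ((hc4 (tB p δ b) w).2.2.2.2.1 c).1 hct
    obtain ⟨hcw, hcne, hcc, hccon, -⟩ := (hc1 w).1 c hc
    subst hst
    simp only [stat, Finset.mem_filter] at hbs hbs'
    obtain ⟨a, ha, hta⟩ := (hg2 δ p.R (cen p.r b) c hδ hcne).1 hbs.2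
    obtain ⟨a', ha', hta'⟩ := (hg2 δ p.R (cen p.r b') c hδ hcne).1 hbs'.2
    exact ⟨a, hcw ha, a', hcw ha', tchq_conn_mono hcw (hccon a ha a' ha'), hta, hta'⟩

end Pool.Agent.Lib.MP_6d40c9_pr
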