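import Pool.Agent.Lib.MP_6d40c9_pr.SpecK

/-!
# Toggle: adding a set to both members of a pair
-/

set_option autoImplicit false

namespace Pool.Agent.Lib.MP_6d40c9_pr

open Finset
open scoped BigOperators symmDiff

/-- The sum of a function over a symmetric difference, if doubles vanish. -/
private lemma toggle_sum_symmDiff {E M : Type*} [DecidableEq E] [AddCommMonoid M] (φ : E → M)
    (η γ : Finset E) (h : ∀ e ∈ η ∩ γ, φ e + φ e = 0) :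
    ∑ e ∈ η ∆ γ, φ e = ∑ e ∈ η, φ e + ∑ e ∈ γ, φ e := by
  have h0 : ∑ e ∈ η ∩ γ, φ e + ∑ e ∈ η ∩ γ, φ e = 0 := by
    rw [← Finset.sum_add_distrib]
    exact Finset.sum_eq_zero h
  have h1 : ∑ e ∈ η, φ e = ∑ e ∈ η \ γ, φ e + ∑ e ∈ η ∩ γ, φ e := by
    rw [add_comm]
    exact (Finset.sum_inter_add_sum_sdiff η γ φ).symm
  have h2 : ∑ e ∈ γ, φ e = ∑ e ∈ γ \ η, φ e + ∑ e ∈ η ∩ γ, φ e := by
    rw [add_comm, Finset.inter_comm η γ]
    exact (Finset.sum_inter_add_sum_sdiff γ η φ).symm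
  have h3 : ∑ e ∈ η ∆ γ, φ e = ∑ e ∈ η \ γ, φ e + ∑ e ∈ γ \ η, φ e := by
    rw [symmDiff_def, Finset.sup_eq_union, Finset.sum_union disjoint_sdiff_sdiff]
  rw [h1, h2, h3]
  have h4 : ∑ e ∈ η \ γ, φ e + ∑ e ∈ η ∩ γ, φ e + (∑ e ∈ γ \ η, φ e + ∑ e ∈ η ∩ γ, φ e) =
      ∑ e ∈ η \ γ, φ e + ∑ e ∈ γ \ η, φ e + (∑ e ∈ η ∩ γ, φ e + ∑ e ∈ η ∩ γ, φ e) := by
    exact add_add_add_comm _ _ _ _
  rw [h4, h0, add_zero]

/-- The product of a function over a symmetric difference, if squares are one. -/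
private lemma toggle_prod_symmDiff {E : Type*} [DecidableEq E] (φ : E → ℝ)
    (η γ : Finset E) (h : ∀ e ∈ η ∩ γ, φ e * φ e = 1) :
    ∏ e ∈ η ∆ γ, φ e = (∏ e ∈ η, φ e) * ∏ e ∈ γ, φ e := by
  have h0 : (∏ e ∈ η ∩ γ, φ e) * ∏ e ∈ η ∩ γ, φ e = 1 := by
    rw [← Finset.prod_mul_distrib]
    exact Finset.prod_eq_one h
  have h1 : ∏ e ∈ η, φ e = (∏ e ∈ η ∩ γ, φ e) * ∏ e ∈ η \ γ, φ e :=
    (Finset.prod_inter_mul_prod_sdiff η γ φ).symm
  have h2 : ∏ e ∈ γ, φ e = (∏ e ∈ η ∩ γ, φ e) * ∏ e ∈ γ \ η, φ e := by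
    rw [Finset.inter_comm η γ]
    exact (Finset.prod_inter_mul_prod_sdiff γ η φ).symm
  have h3 : ∏ e ∈ η ∆ γ, φ e = (∏ e ∈ η \ γ, φ e) * ∏ e ∈ γ \ η, φ e := by
    rw [symmDiff_def, Finset.sup_eq_union, Finset.prod_union disjoint_sdiff_sdiff]
  rw [h1, h2, h3]
  linear_combination (-(∏ e ∈ η \ γ, φ e) * ∏ e ∈ γ \ η, φ e) * h0

private lemma toggle_reindex {E M : Type*} [DecidableEq E] [AddCommMonoid M] (O γ : Finset E)
    (hγ : γ ⊆ O) (F : Finset E → M) :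
    ∑ η ∈ O.powerset, F η = ∑ η ∈ O.powerset, F (η ∆ γ) := by
  have hmem : ∀ η ∈ O.powerset, η ∆ γ ∈ O.powerset := by
    intro η hη
    rw [Finset.mem_powerset] at hη ⊢
    intro e he
    rcases Finset.mem_symmDiff.1 he with h | h
    · exact hη h.1
    · exact hγ h.1
  refine Finset.sum_nbij' (fun η => η ∆ γ) (fun η => η ∆ γ) hmem hmem ?_ ?_ ?_
  · intro η _
    exact symmDiff_symmDiff_cancel_right _ _
  · intro η _
    exact symmDiff_symmDiff_cancel_right _ _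
  · intro η _
    simp only [symmDiff_symmDiff_cancel_right]

open Classical in
theorem toggle : Toggle := by
  intro E G _ _ h2 bd D x χ O hχ γ hγ f g
  have hbd : ∀ η : Finset E, bdy bd (η ∆ γ) = bdy bd η + bdy bd γ := fun η =>
    toggle_sum_symmDiff bd η γ (fun e _ => h2 _)
  have hsq : ∀ e ∈ O, χ e * χ e = 1 := by
    intro e he
    rcases hχ e he with h | h <;> rw [h] <;> norm_num
  have hpr : ∀ η : Finset E, ∏ e ∈ η ∆ γ, χ e = (∏ e ∈ η, χ e) * ∏ e ∈ γ, χ e := fun η =>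
    toggle_prod_symmDiff χ η γ (fun e he => hsq e (hγ (Finset.mem_inter.1 he).2))
  have hγsq : (∏ e ∈ γ, χ e) * ∏ e ∈ γ, χ e = 1 := by
    rw [← Finset.prod_mul_distrib]
    exact Finset.prod_eq_one fun e he => hsq e (hγ he)
  unfold aO
  rw [toggle_reindex O γ hγ (fun η₁ => ∑ η₂ ∈ O.powerset,
    if bdy bd η₁ = f + bdy bd γ ∧ bdy bd η₂ = g + bdy bd γ then
      (∏ e ∈ η₁, χ e) * pW D x O (η₁ ∆ η₂) else 0), Finset.mul_sum]
  refine Finset.sum_congr rfl fun η₁ _ => ?_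
  rw [toggle_reindex O γ hγ (fun η₂ =>
    if bdy bd (η₁ ∆ γ) = f + bdy bd γ ∧ bdy bd η₂ = g + bdy bd γ then
      (∏ e ∈ η₁ ∆ γ, χ e) * pW D x O ((η₁ ∆ γ) ∆ η₂) else 0), Finset.mul_sum]
  refine Finset.sum_congr rfl fun η₂ _ => ?_
  rw [hbd, hbd, hpr]
  have e1 : (η₁ ∆ γ) ∆ (η₂ ∆ γ) = η₁ ∆ η₂ := by
    rw [symmDiff_symmDiff_symmDiff_comm, symmDiff_self, symmDiff_bot]
  rw [e1]
  by_cases h : bdy bd η₁ = f ∧ bdy bd η₂ = g
  · rw [if_pos h, if_pos ⟨by rw [h.1], by rw [h.2]⟩]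
    linear_combination (-(∏ e ∈ η₁, χ e) * pW D x O (η₁ ∆ η₂)) * hγsq
  · rw [if_neg h, if_neg, mul_zero]
    rintro ⟨h3, h4⟩
    exact h ⟨add_right_cancel h3, add_right_cancel h4⟩

end Pool.Agent.Lib.MP_6d40c9_pr
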