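import Pool.Agent.Lib.MP_6d40c9_pr.SpecG

/-!
# MP_6d40c9_pr: translation invariance
-/

set_option autoImplicit false

namespace Pool.Agent.Lib.MP_6d40c9_pr

open Finset
open scoped BigOperators symmDiff

section Gen

variable {E E' G G' : Type*} [AddCommMonoid G] [AddCommMonoid G']

private theorem transl_bdy [DecidableEq E'] {φ : E → E'} (hφ : Function.Injective φ) (T : G →+ G')
    (bd : E → G) (bd' : E' → G') (h : ∀ e, bd' (φ e) = T (bd e)) (η : Finset E) :
    bdy bd' (η.image φ) = T (bdy bd η) := by
  unfold bdy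
  rw [Finset.sum_image (fun a _ b _ h => hφ h), map_sum]
  exact Finset.sum_congr rfl fun e _ => h e

private theorem transl_bdy_zero [DecidableEq E'] {φ : E → E'} (hφ : Function.Injective φ)
    (T : G →+ G') (hT : Function.Injective T)
    (bd : E → G) (bd' : E' → G') (h : ∀ e, bd' (φ e) = T (bd e)) (η : Finset E) :
    bdy bd' (η.image φ) = 0 ↔ bdy bd η = 0 := by
  rw [transl_bdy hφ T bd bd' h, ← map_zero T, hT.eq_iff]

private theorem transl_powerset [DecidableEq E'] {φ : E → E'} (hφ : Function.Injective φ)
    (D : Finset E) (F : Finset E' → ℝ) :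
    ∑ η ∈ (D.image φ).powerset, F η = ∑ η ∈ D.powerset, F (η.image φ) := by
  classical
  have h : (D.image φ).powerset = D.powerset.image (fun s => s.image φ) := by
    ext s
    simp only [mem_powerset, mem_image]
    rw [Finset.subset_image_iff]
  rw [h, Finset.sum_image (fun a _ b _ h => Finset.image_injective hφ h)]

private theorem transl_prod [DecidableEq E'] {φ : E → E'} (hφ : Function.Injective φ)
    (x : E → ℝ) (x' : E' → ℝ) (hx : ∀ e, x' (φ e) = x e) (η : Finset E) :
    ∏ e ∈ η.image φ, x' e = ∏ e ∈ η, x e := by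
  rw [Finset.prod_image (fun a _ b _ h => hφ h)]
  exact Finset.prod_congr rfl fun e _ => hx e

private theorem transl_Zp [DecidableEq E'] {φ : E → E'} (hφ : Function.Injective φ)
    (T : G →+ G') (hT : Function.Injective T)
    (bd : E → G) (bd' : E' → G') (h : ∀ e, bd' (φ e) = T (bd e))
    (x : E → ℝ) (x' : E' → ℝ) (hx : ∀ e, x' (φ e) = x e) (D : Finset E) :
    Zp bd' (D.image φ) x' 0 = Zp bd D x 0 := by
  unfold Zp
  rw [transl_powerset hφ]
  refine Finset.sum_congr rfl fun η _ => ?_
  rw [transl_prod hφ x x' hx]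
  classical
  exact if_congr (transl_bdy_zero hφ T hT bd bd' h η) rfl rfl

private theorem transl_evn [DecidableEq E'] {φ : E → E'} (hφ : Function.Injective φ)
    (T : G →+ G') (hT : Function.Injective T)
    (bd : E → G) (bd' : E' → G') (h : ∀ e, bd' (φ e) = T (bd e)) (D : Finset E) :
    evn bd' (D.image φ) = evn bd D := by
  unfold evn
  rw [transl_powerset hφ]
  refine Finset.sum_congr rfl fun η _ => ?_
  classical
  exact if_congr (transl_bdy_zero hφ T hT bd bd' h η) rfl rfl

private theorem transl_lpE [DecidableEq E'] {φ : E → E'} (hφ : Function.Injective φ)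
    (T : G →+ G') (hT : Function.Injective T)
    (bd : E → G) (bd' : E' → G') (h : ∀ e, bd' (φ e) = T (bd e))
    (x : E → ℝ) (x' : E' → ℝ) (hx : ∀ e, x' (φ e) = x e) (D : Finset E) (g : Finset E' → ℝ) :
    lpE bd' (D.image φ) x' g = lpE bd D x (fun w => g (w.image φ)) := by
  unfold lpE
  rw [transl_Zp hφ T hT bd bd' h x x' hx, transl_powerset hφ]
  congr 1
  refine Finset.sum_congr rfl fun η _ => ?_
  rw [transl_prod hφ x x' hx]
  classical
  exact if_congr (transl_bdy_zero hφ T hT bd bd' h η) rfl rfl

private theorem transl_fkE [DecidableEq E] [DecidableEq E'] {φ : E → E'}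
    (hφ : Function.Injective φ)
    (T : G →+ G') (hT : Function.Injective T)
    (bd : E → G) (bd' : E' → G') (h : ∀ e, bd' (φ e) = T (bd e))
    (x : E → ℝ) (x' : E' → ℝ) (hx : ∀ e, x' (φ e) = x e) (D : Finset E) (g : Finset E' → ℝ) :
    fkE bd' (D.image φ) x' g = fkE bd D x (fun w => g (w.image φ)) := by
  unfold fkE
  rw [transl_Zp hφ T hT bd bd' h x x' hx, transl_powerset hφ]
  congr 1
  refine Finset.sum_congr rfl fun η _ => ?_
  unfold fkW
  rw [transl_prod hφ x x' hx, transl_evn hφ T hT bd bd' h, ← Finset.image_sdiff _ _ hφ,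
    transl_prod hφ (fun e => 1 - x e) (fun e => 1 - x' e) (fun e => by rw [hx])]

private theorem transl_fkP [DecidableEq E] [DecidableEq E'] {φ : E → E'}
    (hφ : Function.Injective φ)
    (T : G →+ G') (hT : Function.Injective T)
    (bd : E → G) (bd' : E' → G') (h : ∀ e, bd' (φ e) = T (bd e))
    (x : E → ℝ) (x' : E' → ℝ) (hx : ∀ e, x' (φ e) = x e) (D : Finset E) (P : Finset E' → Prop)
    (P' : Finset E → Prop) (hP : ∀ w, P (w.image φ) ↔ P' w) :
    fkP bd' (D.image φ) x' P = fkP bd D x P' := by
  unfold fkP
  rw [transl_fkE hφ T hT bd bd' h x x' hx]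
  congr 1
  funext w
  classical
  exact if_congr (hP w) rfl rfl

end Gen

/-! ### The shift of functions on the grid -/

private def translHom (z : Pt) : (Pt → ZMod 2) →+ (Pt → ZMod 2) where
  toFun f v := f (v - z)
  map_zero' := rfl
  map_add' _ _ := rfl

private theorem translHom_inj (z : Pt) : Function.Injective (translHom z) := by
  intro f g hfg
  funext v
  have := congrFun hfg (v + z)
  simpa [translHom] using this

private theorem transl_shE_inj (z : Pt) : Function.Injective (shE z) := by
  rintro ⟨⟨a, b⟩, c⟩ ⟨⟨a', b'⟩, c'⟩ h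
  simp only [shE, Prod.mk.injEq] at h
  obtain ⟨⟨h1, h2⟩, h3⟩ := h
  subst h3
  have h1' : a = a' := by linarith
  have h2' : b = b' := by linarith
  rw [h1', h2']

private theorem transl_src (z : Pt) (e : Edge) : src (shE z e) = src e + z := rfl

private theorem transl_fa (z : Pt) (e : Edge) : fa (shE z e) = fa e + z := rfl

private theorem transl_tgt (z : Pt) (e : Edge) : tgt (shE z e) = tgt e + z := by
  obtain ⟨⟨a, b⟩, c⟩ := e
  cases c <;> simp [tgt, shE, Prod.ext_iff] <;> ring

private theorem transl_fb (z : Pt) (e : Edge) : fb (shE z e) = fb e + z := by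
  obtain ⟨⟨a, b⟩, c⟩ := e
  cases c <;> simp [fb, shE, Prod.ext_iff] <;> ring

private theorem transl_single (z v : Pt) :
    (Pi.single (v + z) 1 : Pt → ZMod 2) = translHom z (Pi.single v 1) := by
  funext u
  show (Pi.single (v + z) 1 : Pt → ZMod 2) u = (Pi.single v 1 : Pt → ZMod 2) (u - z)
  by_cases h : u = v + z
  · subst h
    simp
  · have h' : u - z ≠ v := fun hh => h (by rw [← hh]; simp)
    rw [Pi.single_eq_of_ne h, Pi.single_eq_of_ne h']

private theorem transl_bdV (z : Pt) (e : Edge) : bdV (shE z e) = translHom z (bdV e) := by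
  unfold bdV
  rw [transl_src, transl_tgt, transl_single, transl_single, map_add]

private theorem transl_bdR (z : Pt) (Λ Λ' : Finset Pt) (hΛ : ∀ v, v + z ∈ Λ' ↔ v ∈ Λ) (e : Edge) :
    bdR Λ' (shE z e) = translHom z (bdR Λ e) := by
  funext v
  show (if v ∈ Λ' then bdV (shE z e) v else 0) = if v - z ∈ Λ then bdV e (v - z) else 0
  rw [transl_bdV]
  have h := hΛ (v - z)
  rw [sub_add_cancel] at h
  simp only [h]
  rfl

private theorem transl_image_image (z : Pt) (w : Finset Edge) :
    (w.image (shE z)).image (shE (-z)) = w := by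
  rw [Finset.image_image]
  have : (shE (-z) ∘ shE z) = id := by
    funext e
    simp [shE, Function.comp]
  rw [this, Finset.image_id]

private theorem transl_image_image' (z : Pt) (w : Finset Edge) :
    (w.image (shE (-z))).image (shE z) = w := by
  have := transl_image_image (-z) w
  rwa [neg_neg] at this

private theorem transl_mem (z : Pt) (w : Finset Edge) (e : Edge) :
    shE z e ∈ w.image (shE z) ↔ e ∈ w := by
  constructor
  · intro h
    obtain ⟨e', he', h'⟩ := Finset.mem_image.1 h
    rwa [← transl_shE_inj z h']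
  · exact fun h => Finset.mem_image_of_mem _ h

private theorem transl_lE (z : Pt) (D : Finset Edge) (g : Finset Edge → ℝ) :
    lE (D.image (shE z)) g = lE D (fun w => g (w.image (shE z))) :=
  transl_lpE (transl_shE_inj z) (translHom z) (translHom_inj z) bdV bdV (transl_bdV z)
    _ _ (fun _ => rfl) D g

private theorem transl_cnt (z u : Pt) (w : Finset Edge) :
    cnt (w.image (shE z)) (u + z) = cnt w u := by
  unfold cnt
  rw [Finset.filter_image, Finset.card_image_of_injective _ (transl_shE_inj z)]
  congr 1
  refine Finset.filter_congr fun e _ => ?_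
  simp [shE]

private theorem transl_box (z t v : Pt) (n : ℕ) : v + t ∈ box (z + t) n ↔ v ∈ box z n := by
  simp only [box, Finset.mem_product, Finset.mem_Icc, Prod.fst_add, Prod.snd_add]
  constructor <;> rintro ⟨⟨h1, h2⟩, h3, h4⟩ <;> refine ⟨⟨?_, ?_⟩, ?_, ?_⟩ <;> linarith

private theorem transl_box_image (z t : Pt) (n : ℕ) :
    box (z + t) n = (box z n).image (fun v => v + t) := by
  ext v
  rw [Finset.mem_image]
  constructor
  · intro h
    refine ⟨v - t, ?_, sub_add_cancel v t⟩
    rw [← transl_box z t, sub_add_cancel]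
    exact h
  · rintro ⟨u, hu, rfl⟩
    exact (transl_box z t u n).2 hu

private theorem transl_LF (F : Finset Pt) (t : Pt) :
    LF (F.image fun v => v + t) = (LF F).image (shE t) := by
  unfold LF
  rw [Finset.image_biUnion, Finset.biUnion_image]
  refine Finset.biUnion_congr rfl fun v _ => ?_
  simp only [Finset.image_insert, Finset.image_singleton, shE, Prod.fst_add, Prod.snd_add]
  have h1 : v.1 + t.1 + 1 = v.1 + 1 + t.1 := by ring
  have h2 : v.2 + t.2 + 1 = v.2 + 1 + t.2 := by ring
  rw [h1, h2]
  rfl

private theorem transl_EV (F : Finset Pt) (t : Pt) :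
    EV (F.image fun v => v + t) = (EV F).image (shE t) := by
  unfold EV
  rw [Finset.image_biUnion, Finset.biUnion_image]
  refine Finset.biUnion_congr rfl fun v _ => ?_
  simp only [Finset.image_insert, Finset.image_singleton, shE, Prod.fst_add, Prod.snd_add]
  have h1 : v.1 + t.1 - 1 = v.1 - 1 + t.1 := by ring
  have h2 : v.2 + t.2 - 1 = v.2 - 1 + t.2 := by ring
  rw [h1, h2]
  rfl

private theorem transl_img_mem (F : Finset Pt) (t v : Pt) :
    v + t ∈ (F.image fun v => v + t) ↔ v ∈ F := by
  constructor
  · intro h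
    obtain ⟨u, hu, h⟩ := Finset.mem_image.1 h
    rwa [← add_right_cancel h]
  · exact fun h => Finset.mem_image_of_mem _ h

private theorem transl_EB (F : Finset Pt) (t : Pt) :
    EB (F.image fun v => v + t) = (EB F).image (shE t) := by
  unfold EB
  rw [transl_EV, Finset.filter_image]
  congr 1
  refine Finset.filter_congr fun e _ => ?_
  rw [transl_src, transl_tgt, transl_img_mem, transl_img_mem]

private theorem transl_LI (F : Finset Pt) (t : Pt) :
    LI (F.image fun v => v + t) = (LI F).image (shE t) := by
  unfold LI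
  rw [transl_LF, Finset.filter_image]
  congr 1
  refine Finset.filter_congr fun e _ => ?_
  rw [transl_fa, transl_fb, transl_img_mem, transl_img_mem]

private theorem transl_reach1 (z : Pt) (ω : Finset Edge) (a b : Pt) (h : Reach ω a b) :
    Reach (ω.image (shE z)) (a + z) (b + z) := by
  unfold Reach at *
  induction h with
  | refl => exact Relation.ReflTransGen.refl
  | tail _ hbc ih =>
  refine ih.tail ?_
  obtain ⟨e, he, h⟩ := hbc
  refine ⟨shE z e, Finset.mem_image_of_mem _ he, ?_⟩
  rw [transl_src, transl_tgt]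
  rcases h with ⟨h1, h2⟩ | ⟨h1, h2⟩
  · left; rw [h1, h2]; exact ⟨rfl, rfl⟩
  · right; rw [h1, h2]; exact ⟨rfl, rfl⟩

private theorem transl_reach (z : Pt) (ω : Finset Edge) (a b : Pt) :
    Reach (ω.image (shE z)) (a + z) (b + z) ↔ Reach ω a b := by
  refine ⟨fun h => ?_, transl_reach1 z ω a b⟩
  have := transl_reach1 (-z) _ _ _ h
  rwa [transl_image_image, add_neg_cancel_right, add_neg_cancel_right] at this

private theorem transl_connE1 (z : Pt) (w : Finset Edge) (a b : Edge) (h : connE w a b) :
    connE (w.image (shE z)) (shE z a) (shE z b) := by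
  unfold connE at *
  induction h with
  | refl => exact Relation.ReflTransGen.refl
  | tail _ hbc ih =>
  refine ih.tail ?_
  obtain ⟨hb, h⟩ := hbc
  refine ⟨Finset.mem_image_of_mem _ hb, ?_⟩
  unfold adjE at *
  simp only [transl_src, transl_tgt]
  rcases h with h | h | h | h <;> simp [h]

private theorem transl_isCirc1 (z t : Pt) (n m : ℕ) (c : Finset Edge) (h : IsCirc z n m c) :
    IsCirc (z + t) n m (c.image (shE t)) := by
  obtain ⟨h1, h2, h3, h4, h5⟩ := h
  refine ⟨h1.image _, ?_, ?_, ?_, ?_⟩
  · unfold Even' at *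
    exact (transl_bdy_zero (transl_shE_inj t) (translHom t) (translHom_inj t) bdV bdV
      (transl_bdV t) c).2 h2
  · intro a ha b hb
    obtain ⟨a', ha', rfl⟩ := Finset.mem_image.1 ha
    obtain ⟨b', hb', rfl⟩ := Finset.mem_image.1 hb
    exact transl_connE1 t c a' b' (h3 a' ha' b' hb')
  · rw [transl_box_image, transl_EB]
    exact Finset.image_subset_image h4
  · intro u hu
    have h := h5 (u - t) (by rw [← transl_box z t, sub_add_cancel]; exact hu)
    rw [← transl_cnt t, sub_add_cancel] at h
    exact h

private theorem transl_circ1 (z t : Pt) (n m : ℕ) (ω : Finset Edge) (h : Circ z n m ω) :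
    Circ (z + t) n m (ω.image (shE t)) := by
  obtain ⟨c, hc, h⟩ := h
  exact ⟨c.image (shE t), Finset.image_subset_image hc, transl_isCirc1 z t n m c h⟩

private theorem transl_circ (z t : Pt) (n m : ℕ) (ω : Finset Edge) :
    Circ (z + t) n m (ω.image (shE t)) ↔ Circ z n m ω := by
  refine ⟨fun h => ?_, transl_circ1 z t n m ω⟩
  have := transl_circ1 (z + t) (-t) n m _ h
  rwa [transl_image_image, add_neg_cancel_right] at this

private theorem transl_arm (z t : Pt) (n k : ℕ) (ω : Finset Edge) :
    Arm (box (z + t) n) (box (z + t) k) (ω.image (shE t)) ↔ Arm (box z n) (box z k) ω := by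
  constructor
  · rintro ⟨a, ha, b, hb, h⟩
    refine ⟨a - t, ?_, b - t, ?_, ?_⟩
    · rw [← transl_box z t, sub_add_cancel]; exact ha
    · rw [← transl_box z t, sub_add_cancel]; exact hb
    · rw [← transl_reach t, sub_add_cancel, sub_add_cancel]; exact h
  · rintro ⟨a, ha, b, hb, h⟩
    refine ⟨a + t, ?_, b + t, ?_, ?_⟩
    · rw [transl_box]; exact ha
    · rw [transl_box]; exact hb
    · rw [transl_reach]; exact h

private theorem transl_fkB (z t : Pt) (n k N : ℕ) :
    fkB (z + t) N (fun _ => xc) (Arm (box (z + t) n) (box (z + t) k)) =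
      fkB z N (fun _ => xc) (Arm (box z n) (box z k)) := by
  unfold fkB
  have hE : EV (box (z + t) N) = (EV (box z N)).image (shE t) := by
    rw [transl_box_image, transl_EV]
  rw [hE]
  exact transl_fkP (transl_shE_inj t) (translHom t) (translHom_inj t) (bdR (box z N))
    (bdR (box (z + t) N)) (transl_bdR t _ _ (fun v => transl_box z t v N)) _ _ (fun _ => rfl) _ _ _
    (fun w => transl_arm z t n k w)

private theorem transl_fkF (z t : Pt) (n m N : ℕ) :
    fkF (LF (box (z + t) N)) (Circ (z + t) n m) = fkF (LF (box z N)) (Circ z n m) := by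
  unfold fkF
  have hE : LF (box (z + t) N) = (LF (box z N)).image (shE t) := by
    rw [transl_box_image, transl_LF]
  rw [hE]
  exact transl_fkP (transl_shE_inj t) (translHom t) (translHom_inj t) bdV
    bdV (transl_bdV t) _ _ (fun _ => rfl) _ _ _ (fun w => transl_circ z t n m w)

private theorem transl_sgn (z u : Pt) (w : Finset Edge) :
    sgn (w.image (shE z)) (u + z) = sgn w u := by
  unfold sgn
  rw [transl_cnt]

private theorem transl_c2 (z t u v : Pt) (N : ℕ) :
    c2 (LF (box (z + t) N)) (u + t) (v + t) = c2 (LF (box z N)) u v := by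
  unfold c2
  rw [transl_box_image, transl_LF, transl_lE]
  simp only [transl_sgn]

theorem transl : Transl := by
  refine ⟨transl_lE, transl_cnt, ?_, ?_, ?_, ?_⟩
  · intro z n N
    refine ⟨?_, ?_, ?_⟩
    · unfold aa c1
      have h1 : LF (box z N) \ LI (box z n) = (LF (box 0 N) \ LI (box 0 n)).image (shE z) := by
        rw [Finset.image_sdiff _ _ (transl_shE_inj z), ← transl_LF, ← transl_LI,
          ← transl_box_image, ← transl_box_image, zero_add]
      rw [h1, transl_lE]
      congr 1
      funext w
      have := transl_sgn z 0 w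
      rwa [zero_add] at this
    · unfold mm c1
      have h1 : LF (box z N) = (LF (box 0 N)).image (shE z) := by
        rw [← transl_LF, ← transl_box_image, zero_add]
      rw [h1, transl_lE]
      congr 1
      funext w
      have := transl_sgn z 0 w
      rwa [zero_add] at this
    · unfold uu
      have := transl_fkB 0 z n N N
      rwa [zero_add] at this
  · intro z z' u v N
    have h := transl_c2 z (z' - z) u v N
    rw [add_sub_cancel] at h
    rw [← h, add_sub_assoc, add_sub_assoc]
  · intro z z' n k N
    have h := transl_fkB z (z' - z) n k N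
    rw [add_sub_cancel] at h
    exact h.symm
  · intro z z' n m N
    have h := transl_fkF z (z' - z) n m N
    rw [add_sub_cancel] at h
    exact h.symm

end Pool.Agent.Lib.MP_6d40c9_pr
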