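import Pool.Agent.Lib.MP_6d40c9_pr.SpecG

/-!
# Decoupling of two boxes
-/

set_option autoImplicit false

namespace Pool.Agent.Lib.MP_6d40c9_pr

open Finset
open scoped BigOperators symmDiff

open Classical in
private theorem twoBox_frac (D : Finset Edge) (g : Finset Edge → ℝ) :
    lE D g = (∑ w ∈ D.powerset, if Even' w then (∏ _e ∈ w, xc) * g w else 0) /
      (∑ w ∈ D.powerset, if Even' w then (∏ _e ∈ w, xc) * 1 else 0) := by
  unfold lE lpE Zp Even'
  congr 1
  refine Finset.sum_congr rfl fun w _ => ?_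
  simp only [mul_one]

open Classical in
private theorem twoBox_low (h2 : LowTemp) (F : Finset Pt) (hF : Simp F) (g : Finset Edge → ℝ) :
    lE (LF F) g = (∑ A ∈ F.powerset, (∏ _e ∈ walls A, xc) * g (walls A)) /
      ∑ A ∈ F.powerset, (∏ _e ∈ walls A, xc) * 1 := by
  rw [twoBox_frac, h2 F hF (fun _ => xc) g, h2 F hF (fun _ => xc) (fun _ => 1)]

private theorem twoBox_sum (F₁ F₂ : Finset Pt) (hd : Disjoint F₁ F₂) (f : Finset Pt → ℝ)
    (f₁ f₂ : Finset Pt → ℝ)
    (h : ∀ A ⊆ F₁, ∀ B ⊆ F₂, f (A ∪ B) = f₁ A * f₂ B) :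
    ∑ A ∈ (F₁ ∪ F₂).powerset, f A = (∑ A ∈ F₁.powerset, f₁ A) * ∑ B ∈ F₂.powerset, f₂ B := by
  rw [Finset.sum_mul_sum, ← Finset.sum_product']
  symm
  refine Finset.sum_nbij' (fun p => p.1 ∪ p.2) (fun A => (A ∩ F₁, A ∩ F₂)) ?_ ?_ ?_ ?_ ?_
  · intro p hp
    rw [Finset.mem_product, Finset.mem_powerset, Finset.mem_powerset] at hp
    exact Finset.mem_powerset.2 (Finset.union_subset_union hp.1 hp.2)
  · intro A _
    rw [Finset.mem_product, Finset.mem_powerset, Finset.mem_powerset]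
    exact ⟨Finset.inter_subset_right, Finset.inter_subset_right⟩
  · intro p hp
    rw [Finset.mem_product, Finset.mem_powerset, Finset.mem_powerset] at hp
    have e1 : p.2 ∩ F₁ = ∅ := by
      rw [← Finset.disjoint_iff_inter_eq_empty]
      exact (hd.mono_right hp.2).symm
    have e2 : p.1 ∩ F₂ = ∅ := by
      rw [← Finset.disjoint_iff_inter_eq_empty]
      exact hd.mono_left hp.1
    show ((p.1 ∪ p.2) ∩ F₁, (p.1 ∪ p.2) ∩ F₂) = p
    rw [Finset.union_inter_distrib_right, Finset.union_inter_distrib_right, e1, e2,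
      Finset.inter_eq_left.2 hp.1, Finset.inter_eq_left.2 hp.2, Finset.union_empty,
      Finset.empty_union]
  · intro A hA
    show A ∩ F₁ ∪ A ∩ F₂ = A
    rw [← Finset.inter_union_distrib_left]
    exact Finset.inter_eq_left.2 (Finset.mem_powerset.1 hA)
  · intro p hp
    rw [Finset.mem_product, Finset.mem_powerset, Finset.mem_powerset] at hp
    exact (h _ hp.1 _ hp.2).symm

private theorem twoBox_walls (h0 : GridFacts) (A : Finset Pt) (u : Pt) :
    sgn (walls A) u = if u ∈ A then -1 else 1 := by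
  have h := (h0.2.1 A).2.2 u
  unfold sgn
  by_cases hu : u ∈ A
  · rw [if_pos hu]
    exact (h.2 hu).neg_one_pow
  · rw [if_neg hu]
    have : ¬ Odd (cnt (walls A) u) := fun h' => hu (h.1 h')
    exact (Nat.not_odd_iff_even.1 this).neg_one_pow

private theorem twoBox_LF_mono {A B : Finset Pt} (h : A ⊆ B) : LF A ⊆ LF B :=
  Finset.biUnion_subset_biUnion_of_subset_left _ h

private theorem twoBox_self (u : Pt) (k : ℕ) : u ∈ box u k := by
  unfold box
  rw [Finset.mem_product, Finset.mem_Icc, Finset.mem_Icc]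
  refine ⟨⟨?_, ?_⟩, ?_, ?_⟩ <;> omega

theorem twoBox (h0 : GridFacts) (h1 : BoxSimp) (h2 : LowTemp) (h3 : MonoC) (h4 : Transl) :
    TwoBox := by
  intro k u v D huv hu hv
  obtain ⟨hS, hD, hW⟩ := h1.2 u v k k (by omega)
  have hd : Disjoint (box u k) (box v k) := by
    rw [Finset.disjoint_left]
    intro p hp hp'
    have m1 : ((p, false) : Edge) ∈ LF (box u k) :=
      Finset.mem_biUnion.2 ⟨p, hp, Finset.mem_insert_self _ _⟩
    have m2 : ((p, false) : Edge) ∈ LF (box v k) :=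
      Finset.mem_biUnion.2 ⟨p, hp', Finset.mem_insert_self _ _⟩
    exact Finset.disjoint_left.1 hD m1 m2
  have huu := twoBox_self u k
  have hvv := twoBox_self v k
  have hu' : u ∉ box v k := fun h => Finset.disjoint_left.1 hd huu h
  have hv' : v ∉ box u k := fun h => Finset.disjoint_left.1 hd h hvv
  have hne : u ≠ v := fun h => hu' (h ▸ hvv)
  have hc2 : ∀ D : Finset Edge, c2 D u v = lE D (sgs {u, v}) := by
    intro D
    unfold c2
    congr 1
    funext w
    unfold sgs
    rw [Finset.prod_pair hne]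
  have hLF : LF (box u k ∪ box v k) = LF (box u k) ∪ LF (box v k) := Finset.union_biUnion
  have hmono : c2 D u v ≤ c2 (LF (box u k ∪ box v k)) u v := by
    rw [hc2, hc2, hLF]
    exact (h3 D (LF (box u k) ∪ LF (box v k)) {u, v} ∅ (Finset.union_subset hu hv)).2.1
  refine hmono.trans (le_of_eq ?_)
  have hprod : ∀ A ⊆ box u k, ∀ B ⊆ box v k,
      ∏ _e ∈ walls (A ∪ B), xc = (∏ _e ∈ walls A, xc) * ∏ _e ∈ walls B, xc := by
    intro A hA B hB
    rw [hW A hA B hB]
    refine Finset.prod_union ?_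
    exact hD.mono (((h0.2.1 A).2.1).trans (twoBox_LF_mono hA))
      (((h0.2.1 B).2.1).trans (twoBox_LF_mono hB))
  have hsu : ∀ A ⊆ box u k, ∀ B ⊆ box v k, sgn (walls (A ∪ B)) u = sgn (walls A) u := by
    intro A hA B hB
    rw [twoBox_walls h0, twoBox_walls h0]
    have : u ∉ B := fun h => hu' (hB h)
    simp [this]
  have hsv : ∀ A ⊆ box u k, ∀ B ⊆ box v k, sgn (walls (A ∪ B)) v = sgn (walls B) v := by
    intro A hA B hB
    rw [twoBox_walls h0, twoBox_walls h0]
    have : v ∉ A := fun h => hv' (hA h)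
    simp [this]
  have hm1 : mm k = c1 (LF (box u k)) u := ((h4.2.2.1 u 0 k).2.1).symm
  have hm2 : mm k = c1 (LF (box v k)) v := ((h4.2.2.1 v 0 k).2.1).symm
  have e1 : c2 (LF (box u k ∪ box v k)) u v =
      c1 (LF (box u k)) u * c1 (LF (box v k)) v := by
    unfold c2 c1
    rw [twoBox_low h2 _ hS, twoBox_low h2 _ (h1.1 u k), twoBox_low h2 _ (h1.1 v k),
      div_mul_div_comm]
    congr 1
    · refine twoBox_sum _ _ hd _ _ _ ?_
      intro A hA B hB
      rw [hprod A hA B hB, hsu A hA B hB, hsv A hA B hB]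
      ring
    · refine twoBox_sum _ _ hd _ _ _ ?_
      intro A hA B hB
      rw [hprod A hA B hB]
      ring
  rw [e1, ← hm1, ← hm2]

end Pool.Agent.Lib.MP_6d40c9_pr
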