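import Pool.Agent.Lib.MP_6d40c9_pr.SpecM

/-!
# One arm exponent (MP_6d40c9_pr)
-/

set_option autoImplicit false

namespace Pool.Agent.Lib.MP_6d40c9_pr

open Finset MeasureTheory Filter Topology TopologicalSpace
open scoped BigOperators symmDiff

private theorem uuUp_two (g : Pt → ZMod 2) : g + g = 0 := by
  funext v
  exact CharTwo.add_self_eq_zero _

private theorem uuUp_xc0 : 0 ≤ xc := by
  unfold xc
  have : (1 : ℝ) ≤ Real.sqrt 2 := Real.one_le_sqrt.2 (by norm_num)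
  linarith

private theorem uuUp_xc1 : xc ≤ 1 := by
  unfold xc
  have : Real.sqrt 2 ≤ 2 := by
    rw [Real.sqrt_le_left (by norm_num)]
    norm_num
  linarith

private theorem uuUp_mono (h7 : Coupling) (bd : Edge → Pt → ZMod 2) (D : Finset Edge)
    (P Q : Finset Edge → Prop) (h : ∀ ω, ω ⊆ D → P ω → Q ω) :
    fkP bd D (fun _ => xc) P ≤ fkP bd D (fun _ => xc) Q := by
  obtain ⟨-, -, c3, -, -, -, c7⟩ := h7 Edge (Pt → ZMod 2) uuUp_two bd D (fun _ => xc)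
    (fun _ _ => uuUp_xc0) (fun _ _ => uuUp_xc1)
  rw [← c3, ← c3]
  exact c7 _ _ fun W ω _ hω _ hP => h ω hω hP

private theorem uuUp_le_one (h7 : Coupling) (bd : Edge → Pt → ZMod 2) (D : Finset Edge)
    (P : Finset Edge → Prop) : fkP bd D (fun _ => xc) P ≤ 1 := by
  refine (uuUp_mono h7 bd D P (fun _ => True) fun _ _ _ => trivial).trans (le_of_eq ?_)
  obtain ⟨c1, -, -, -, -, ⟨c6, -⟩, -⟩ := h7 Edge (Pt → ZMod 2) uuUp_two bd D (fun _ => xc)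
    (fun _ _ => uuUp_xc0) (fun _ _ => uuUp_xc1)
  unfold fkP fkE
  simp only [if_true, mul_one]
  rw [c1]
  exact div_self (by linarith)

private theorem uuUp_nonneg (h7 : Coupling) (bd : Edge → Pt → ZMod 2) (D : Finset Edge)
    (P : Finset Edge → Prop) : 0 ≤ fkP bd D (fun _ => xc) P := by
  obtain ⟨-, -, -, -, -, ⟨c6, c6'⟩, -⟩ := h7 Edge (Pt → ZMod 2) uuUp_two bd D (fun _ => xc)
    (fun _ _ => uuUp_xc0) (fun _ _ => uuUp_xc1)
  unfold fkP fkE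
  refine div_nonneg (Finset.sum_nonneg fun ω hω => ?_) (by linarith)
  refine mul_nonneg (c6' ω (Finset.mem_powerset.1 hω)) ?_
  dsimp only
  split_ifs <;> norm_num

private theorem uuUp_reach_mono {ω ω' : Finset Edge} (h : ω ⊆ ω') {a b : Pt} (hr : Reach ω a b) :
    Reach ω' a b := by
  unfold Reach at *
  induction hr with
  | refl => exact Relation.ReflTransGen.refl
  | tail _ h' ih =>
    obtain ⟨e, he, h'⟩ := h'
    exact ih.tail ⟨e, h he, h'⟩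

private theorem uuUp_arm_incr (Λ Λ' : Finset Pt) (D : Finset Edge) : Incr D (Arm Λ Λ') :=
  fun _ _ hs _ ⟨a, ha, b, hb, hr⟩ => ⟨a, ha, b, hb, uuUp_reach_mono hs hr⟩

private theorem uuUp_circ_incr (z : Pt) (n m : ℕ) (D : Finset Edge) : Incr D (Circ z n m) :=
  fun _ _ hs _ ⟨c, hc, hI⟩ => ⟨c, hc.trans hs, hI⟩

private theorem uuUp_box_mono (z : Pt) {n m : ℕ} (h : n ≤ m) : box z n ⊆ box z m := by
  intro u hu
  unfold box at *
  rw [Finset.mem_product, Finset.mem_Icc, Finset.mem_Icc] at *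
  have : (n : ℤ) ≤ m := by exact_mod_cast h
  omega

private theorem uuUp_zero_mem (n : ℕ) : (0 : Pt) ∈ box 0 n := by
  unfold box
  rw [Finset.mem_product, Finset.mem_Icc, Finset.mem_Icc]
  simp

private theorem uuUp_EV_mono {Λ Λ' : Finset Pt} (h : Λ ⊆ Λ') : EV Λ ⊆ EV Λ' := by
  unfold EV
  exact Finset.biUnion_subset_biUnion_of_subset_left _ h

private theorem uuUp_EB_mono {Λ Λ' : Finset Pt} (h : Λ ⊆ Λ') : EB Λ ⊆ EB Λ' := by
  intro e he
  unfold EB at *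
  rw [Finset.mem_filter] at *
  exact ⟨uuUp_EV_mono h he.1, h he.2.1, h he.2.2⟩

private theorem uuUp_circ_mono (z : Pt) (n : ℕ) {m m' : ℕ} (h : m ≤ m') (ω : Finset Edge) :
    Circ z n m ω → Circ z n m' ω :=
  fun ⟨c, hc, hI⟩ => ⟨c, hc, hI.1, hI.2.1, hI.2.2.1,
    hI.2.2.2.1.trans (uuUp_EB_mono (uuUp_box_mono z h)), hI.2.2.2.2⟩

private theorem uuUp_LF_EV {r N : ℕ} (h : r + 1 ≤ N) : LF (box 0 r) ⊆ EV (box 0 N) := by
  intro e he
  unfold LF at he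
  unfold EV
  rw [Finset.mem_biUnion] at *
  obtain ⟨u, hu, he⟩ := he
  unfold box at hu ⊢
  rw [Finset.mem_product, Finset.mem_Icc, Finset.mem_Icc] at hu
  have hN : (r : ℤ) + 1 ≤ N := by exact_mod_cast h
  simp only [Finset.mem_insert, Finset.mem_singleton] at he
  simp only [Prod.fst_zero, Prod.snd_zero] at hu
  rcases he with rfl | rfl | rfl | rfl
  · refine ⟨u, ?_, by simp⟩
    rw [Finset.mem_product, Finset.mem_Icc, Finset.mem_Icc]
    simp only [Prod.fst_zero, Prod.snd_zero]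
    omega
  · refine ⟨u, ?_, by simp⟩
    rw [Finset.mem_product, Finset.mem_Icc, Finset.mem_Icc]
    simp only [Prod.fst_zero, Prod.snd_zero]
    omega
  · refine ⟨(u.1, u.2 + 1), ?_, by simp⟩
    rw [Finset.mem_product, Finset.mem_Icc, Finset.mem_Icc]
    simp only [Prod.fst_zero, Prod.snd_zero]
    omega
  · refine ⟨(u.1 + 1, u.2), ?_, by simp⟩
    rw [Finset.mem_product, Finset.mem_Icc, Finset.mem_Icc]
    simp only [Prod.fst_zero, Prod.snd_zero]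
    omega

private theorem uuUp_reach_symm {ω : Finset Edge} {a b : Pt} (hr : Reach ω a b) : Reach ω b a := by
  unfold Reach at *
  induction hr with
  | refl => exact Relation.ReflTransGen.refl
  | tail _ h ih =>
    obtain ⟨e, he, h'⟩ := h
    exact ih.head ⟨e, he, h'.symm⟩

/-- The geometric step. -/
private theorem uuUp_geom (h0 : GridFacts) (h1 : Hit) (h2 : CompFacts) {n m N : ℕ} (hmN : m ≤ N)
    {ω : Finset Edge} (a1 : Arm {0} (box 0 m) ω) (a2 : Circ 0 n m ω)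
    (a3 : Arm (box 0 n) (box 0 N) ω) : Arm {0} (box 0 N) ω := by
  obtain ⟨a, ha, b, hb, hab⟩ := a1
  obtain ⟨c, hc, -, hev, hconn, hEB, hodd⟩ := a2
  obtain ⟨a', ha', b', hb', hab'⟩ := a3
  rw [Finset.mem_singleton] at ha
  subst ha
  have hb'm : b' ∉ box 0 m := fun h => hb' (uuUp_box_mono 0 hmN h)
  obtain ⟨v, ⟨e, he, hev1⟩, hv1, hv2⟩ := h1 c ω 0 b hev hab (hodd 0 (uuUp_zero_mem n))
    (h0.2.2.2.2 c 0 m hev hEB b hb)
  obtain ⟨v', ⟨e', he', hev1'⟩, hv1', hv2'⟩ := h1 c ω a' b' hev hab' (hodd a' ha')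
    (h0.2.2.2.2 c 0 m hev hEB b' hb'm)
  have hsrc : ∀ e ∈ c, ∀ v, src e = v ∨ tgt e = v → Reach c (src e) v := by
    rintro e he v (rfl | rfl)
    · exact Relation.ReflTransGen.refl
    · exact Relation.ReflTransGen.single ⟨e, he, Or.inl ⟨rfl, rfl⟩⟩
  have hvv : Reach c v v' :=
    (uuUp_reach_symm (hsrc e he v hev1)).trans
      ((h2.2.2.2.2 c e e' he he' (hconn e he e' he')).trans (hsrc e' he' v' hev1'))
  exact ⟨0, Finset.mem_singleton_self 0, b', hb',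
    hv1.trans ((uuUp_reach_mono hc hvv).trans hv2')⟩

theorem uuUpS (h0 : GridFacts) (h1 : Hit) (h2 : CompFacts) (h3 : FkgIneq) (h4 : Idents)
    (h5 : StochDom) (h6 : ReachFacts) (h7 : Coupling) : UuUpS := by
  rintro ⟨C, hC⟩ ⟨K', k₀, c, hc, hArm⟩ hLat
  obtain ⟨K, R, n₀, hCirc⟩ := hLat (1 / 2) (by norm_num)
  set K₁ := K + 1 with hK₁
  set L := K' * K₁ + R + 1 + K₁ with hL
  set n₁ := max n₀ k₀ + 1 with hn₁
  have hone : ∀ n N, uu n N ≤ 1 := fun n N => uuUp_le_one h7 _ _ _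
  have hzero : ∀ n N, 0 ≤ uu n N := fun n N => uuUp_nonneg h7 _ _ _
  have hmono : ∀ n n' N, n ≤ n' → uu n N ≤ uu n' N := by
    intro n n' N h
    refine uuUp_mono h7 _ _ _ _ ?_
    rintro ω - ⟨a, ha, b, hb, hr⟩
    exact ⟨a, uuUp_box_mono 0 h ha, b, hb, hr⟩
  -- main estimate
  have hmain : ∀ n N : ℕ, n₁ ≤ n → L * n ≤ N →
      c * ((K₁ * n : ℕ) : ℝ) ^ (-(1 / 8) : ℝ) * (1 / 2) * uu n N ≤ C * (N : ℝ) ^ (-(1 / 8) : ℝ) := by
    intro n N hn hN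
    have hn1 : 1 ≤ n := by omega
    have hmN : K₁ * n ≤ N := le_trans (Nat.mul_le_mul_right n (by omega)) hN
    have hN1 : 1 ≤ N := le_trans (Nat.mul_pos (by omega) hn1) hN
    have hRN : R * n + 1 ≤ N := by
      have : (R + 1) * n ≤ N := le_trans (Nat.mul_le_mul_right n (by omega)) hN
      nlinarith
    have hK'N : K' * (K₁ * n) ≤ N := by
      rw [← mul_assoc]
      exact le_trans (Nat.mul_le_mul_right n (by omega)) hN
    set D := EV (box 0 N) with hD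
    set bd := bdR (box 0 N) with hbd
    have p1 : c * ((K₁ * n : ℕ) : ℝ) ^ (-(1 / 8) : ℝ) ≤
        fkP bd D (fun _ => xc) (Arm {0} (box 0 (K₁ * n))) :=
      hArm (K₁ * n) N (le_trans (by omega : k₀ ≤ n) (Nat.le_mul_of_pos_left n (by omega))) hK'N
    have p2 : 1 / 2 ≤ fkP bd D (fun _ => xc) (Circ 0 n (K₁ * n)) := by
      have q1 := hCirc n 0 (LF (box 0 (R * n))) (by omega) (Finset.Subset.refl _)
      have q2 : fkF (LF (box 0 (R * n))) (Circ 0 n (K * n)) ≤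
          fkF (LF (box 0 (R * n))) (Circ 0 n (K₁ * n)) :=
        uuUp_mono h7 _ _ _ _ fun ω _ => uuUp_circ_mono 0 n (Nat.mul_le_mul_right n (by omega)) ω
      have q3 : fkF (LF (box 0 (R * n))) (Circ 0 n (K₁ * n)) ≤
          fkP bd D (fun _ => xc) (Circ 0 n (K₁ * n)) := by
        unfold fkF
        exact h5 Edge (Pt → ZMod 2) (Pt → ZMod 2) uuUp_two uuUp_two bdV bd (LF (box 0 (R * n))) D
          (fun _ => xc) (fun _ => xc) (uuUp_LF_EV hRN) (fun _ _ => uuUp_xc0) (fun _ _ => le_rfl)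
          (fun _ _ => uuUp_xc0) (fun _ _ => uuUp_xc1)
          (fun η _ hη => h6.2.2.2.2 (box 0 N) η hη) _ (uuUp_circ_incr 0 n (K₁ * n) D)
      have q4 : (1 : ℝ) - 1 / 2 = 1 / 2 := by norm_num
      rw [q4] at q1
      exact q1.trans (q2.trans q3)
    have f1 := h3 Edge (Pt → ZMod 2) uuUp_two bd D (fun _ => xc) (fun _ _ => uuUp_xc0)
      (fun _ _ => uuUp_xc1) (Arm {0} (box 0 (K₁ * n))) (Circ 0 n (K₁ * n))
      (uuUp_arm_incr _ _ _) (uuUp_circ_incr _ _ _ _)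
    have f2 := h3 Edge (Pt → ZMod 2) uuUp_two bd D (fun _ => xc) (fun _ _ => uuUp_xc0)
      (fun _ _ => uuUp_xc1) (fun ω => Arm {0} (box 0 (K₁ * n)) ω ∧ Circ 0 n (K₁ * n) ω)
      (Arm (box 0 n) (box 0 N))
      (fun ω ω' hs hs' hP => ⟨uuUp_arm_incr _ _ D ω ω' hs hs' hP.1,
        uuUp_circ_incr _ _ _ D ω ω' hs hs' hP.2⟩) (uuUp_arm_incr _ _ _)
    have f3 : fkP bd D (fun _ => xc) (fun ω => (Arm {0} (box 0 (K₁ * n)) ω ∧
        Circ 0 n (K₁ * n) ω) ∧ Arm (box 0 n) (box 0 N) ω) ≤ mm N := by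
      rw [← h4.1 0 N]
      exact uuUp_mono h7 _ _ _ _ fun ω _ hP => uuUp_geom h0 h1 h2 hmN hP.1.1 hP.1.2 hP.2
    have hu : fkP bd D (fun _ => xc) (Arm (box 0 n) (box 0 N)) = uu n N := rfl
    rw [hu] at f2
    have hu0 := hzero n N
    have hP0 := uuUp_nonneg h7 bd D (Arm {0} (box 0 (K₁ * n)))
    have g1 : c * ((K₁ * n : ℕ) : ℝ) ^ (-(1 / 8) : ℝ) * (1 / 2) ≤
        fkP bd D (fun _ => xc) (Arm {0} (box 0 (K₁ * n))) *
          fkP bd D (fun _ => xc) (Circ 0 n (K₁ * n)) :=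
      mul_le_mul p1 p2 (by norm_num) hP0
    calc c * ((K₁ * n : ℕ) : ℝ) ^ (-(1 / 8) : ℝ) * (1 / 2) * uu n N
        ≤ fkP bd D (fun _ => xc) (fun ω => Arm {0} (box 0 (K₁ * n)) ω ∧ Circ 0 n (K₁ * n) ω) *
          uu n N := mul_le_mul_of_nonneg_right (g1.trans f1) hu0
      _ ≤ mm N := f2.trans f3
      _ ≤ _ := hC N hN1
  -- the constant for large n
  set B : ℝ := 2 * |C| / c * (K₁ : ℝ) ^ (1 / 8 : ℝ) + (L : ℝ) ^ (1 / 8 : ℝ) with hB
  have hB1 : 0 ≤ 2 * |C| / c * (K₁ : ℝ) ^ (1 / 8 : ℝ) := by positivity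
  have hB2 : 0 ≤ (L : ℝ) ^ (1 / 8 : ℝ) := by positivity
  have hbig : ∀ n N : ℕ, n₁ ≤ n → n ≤ N → uu n N ≤ B * ((n : ℝ) / N) ^ (1 / 8 : ℝ) := by
    intro n N hn hnN
    have hn1 : 1 ≤ n := by omega
    have hnpos : (0 : ℝ) < n := by exact_mod_cast hn1
    have hNpos : (0 : ℝ) < N := by exact_mod_cast (by omega : 0 < N)
    have hr0 : 0 ≤ ((n : ℝ) / N) ^ (1 / 8 : ℝ) := by positivity
    rw [hB, add_mul]
    by_cases hLN : L * n ≤ N
    · have hm := hmain n N hn hLN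
      have hK1pos : (0 : ℝ) < K₁ := by
        rw [hK₁]
        positivity
      have e1 : ((K₁ * n : ℕ) : ℝ) ^ (-(1 / 8) : ℝ) =
          ((K₁ : ℝ) ^ (1 / 8 : ℝ) * (n : ℝ) ^ (1 / 8 : ℝ))⁻¹ := by
        push_cast
        rw [Real.rpow_neg (by positivity), Real.mul_rpow hK1pos.le hnpos.le]
      have e2 : (N : ℝ) ^ (-(1 / 8) : ℝ) = ((N : ℝ) ^ (1 / 8 : ℝ))⁻¹ := Real.rpow_neg hNpos.le _
      have e3 : ((n : ℝ) / N) ^ (1 / 8 : ℝ) = (n : ℝ) ^ (1 / 8 : ℝ) / (N : ℝ) ^ (1 / 8 : ℝ) :=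
        Real.div_rpow hnpos.le hNpos.le _
      rw [e1, e2] at hm
      have hkn : 0 < (K₁ : ℝ) ^ (1 / 8 : ℝ) * (n : ℝ) ^ (1 / 8 : ℝ) := by positivity
      have hNp : 0 < (N : ℝ) ^ (1 / 8 : ℝ) := by positivity
      have key : uu n N ≤ 2 * C / c * ((K₁ : ℝ) ^ (1 / 8 : ℝ) * (n : ℝ) ^ (1 / 8 : ℝ)) *
          ((N : ℝ) ^ (1 / 8 : ℝ))⁻¹ := by
        have e4 : uu n N = (2 / c * ((K₁ : ℝ) ^ (1 / 8 : ℝ) * (n : ℝ) ^ (1 / 8 : ℝ))) *
            (c * ((K₁ : ℝ) ^ (1 / 8 : ℝ) * (n : ℝ) ^ (1 / 8 : ℝ))⁻¹ * (1 / 2) * uu n N) := by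
          field_simp
        have e5 : 0 ≤ 2 / c * ((K₁ : ℝ) ^ (1 / 8 : ℝ) * (n : ℝ) ^ (1 / 8 : ℝ)) := by positivity
        rw [e4]
        refine (mul_le_mul_of_nonneg_left hm e5).trans (le_of_eq ?_)
        ring
      have e6 : 2 * C / c * ((K₁ : ℝ) ^ (1 / 8 : ℝ) * (n : ℝ) ^ (1 / 8 : ℝ)) *
          ((N : ℝ) ^ (1 / 8 : ℝ))⁻¹ ≤
          2 * |C| / c * (K₁ : ℝ) ^ (1 / 8 : ℝ) * ((n : ℝ) / N) ^ (1 / 8 : ℝ) := by
        rw [e3]
        have e7 : 2 * C / c ≤ 2 * |C| / c := by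
          have := le_abs_self C
          gcongr
        calc 2 * C / c * ((K₁ : ℝ) ^ (1 / 8 : ℝ) * (n : ℝ) ^ (1 / 8 : ℝ)) *
              ((N : ℝ) ^ (1 / 8 : ℝ))⁻¹
            = 2 * C / c * ((K₁ : ℝ) ^ (1 / 8 : ℝ) * (n : ℝ) ^ (1 / 8 : ℝ) *
              ((N : ℝ) ^ (1 / 8 : ℝ))⁻¹) := by ring
          _ ≤ 2 * |C| / c * ((K₁ : ℝ) ^ (1 / 8 : ℝ) * (n : ℝ) ^ (1 / 8 : ℝ) *
              ((N : ℝ) ^ (1 / 8 : ℝ))⁻¹) := mul_le_mul_of_nonneg_right e7 (by positivity)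
          _ = _ := by ring
      have e8 : 0 ≤ (L : ℝ) ^ (1 / 8 : ℝ) * ((n : ℝ) / N) ^ (1 / 8 : ℝ) := by positivity
      linarith [key.trans e6]
    · have e1 : (1 : ℝ) ≤ (L : ℝ) * ((n : ℝ) / N) := by
        rw [← mul_div_assoc, le_div_iff₀ hNpos, one_mul]
        have : N ≤ L * n := by omega
        exact_mod_cast this
      have e2 : 1 ≤ (L : ℝ) ^ (1 / 8 : ℝ) * ((n : ℝ) / N) ^ (1 / 8 : ℝ) := by
        rw [← Real.mul_rpow (by positivity) (by positivity)]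
        exact Real.one_le_rpow e1 (by norm_num)
      have e3 : 0 ≤ 2 * |C| / c * (K₁ : ℝ) ^ (1 / 8 : ℝ) * ((n : ℝ) / N) ^ (1 / 8 : ℝ) := by
        positivity
      linarith [hone n N]
  -- all n
  refine ⟨(B + 1) * (n₁ : ℝ) ^ (1 / 8 : ℝ), fun n N hn hnN => ?_⟩
  have hnpos : (0 : ℝ) < n := by exact_mod_cast hn
  have hNpos : (0 : ℝ) < N := by exact_mod_cast (by omega : 0 < N)
  have hn₁pos : (0 : ℝ) < n₁ := by exact_mod_cast (by omega : 0 < n₁)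
  have hB0 : 0 ≤ B := by rw [hB]; linarith
  have e0 : (n₁ : ℝ) ^ (1 / 8 : ℝ) * ((n : ℝ) / N) ^ (1 / 8 : ℝ) =
      ((n₁ : ℝ) * ((n : ℝ) / N)) ^ (1 / 8 : ℝ) :=
    (Real.mul_rpow hn₁pos.le (by positivity)).symm
  rw [mul_assoc, e0]
  have hpos : 0 ≤ ((n₁ : ℝ) * ((n : ℝ) / N)) ^ (1 / 8 : ℝ) := by positivity
  by_cases hN : n₁ ≤ N
  · have e1 := hmono n (max n n₁) N (le_max_left _ _)
    have e2 := hbig (max n n₁) N (le_max_right _ _) (max_le hnN hN)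
    have e3 : (((max n n₁ : ℕ) : ℝ) / N) ^ (1 / 8 : ℝ) ≤
        ((n₁ : ℝ) * ((n : ℝ) / N)) ^ (1 / 8 : ℝ) := by
      refine Real.rpow_le_rpow (by positivity) ?_ (by norm_num)
      rw [← mul_div_assoc]
      refine div_le_div_of_nonneg_right ?_ hNpos.le
      have : max n n₁ ≤ n₁ * n := by
        refine max_le ?_ ?_
        · exact Nat.le_mul_of_pos_left n (by omega)
        · exact Nat.le_mul_of_pos_right n₁ (by omega)
      exact_mod_cast this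
    have e4 := mul_le_mul_of_nonneg_left e3 hB0
    linarith
  · have e1 : (1 : ℝ) ≤ (n₁ : ℝ) * ((n : ℝ) / N) := by
      rw [← mul_div_assoc, le_div_iff₀ hNpos, one_mul]
      have : N ≤ n₁ * n := le_trans (by omega : N ≤ n₁) (Nat.le_mul_of_pos_right n₁ (by omega))
      exact_mod_cast this
    have e2 := Real.one_le_rpow e1 (by norm_num : (0 : ℝ) ≤ 1 / 8)
    have e3 := mul_nonneg hB0 hpos
    linarith [hone n N]

end Pool.Agent.Lib.MP_6d40c9_pr
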