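import Pool.Agent.Lib.MP_6d40c9_pr.SpecM

/-!
# Two boxes joined by a wall
-/

set_option autoImplicit false

namespace Pool.Agent.Lib.MP_6d40c9_pr

open Finset MeasureTheory Filter Topology TopologicalSpace
open scoped BigOperators symmDiff

/-! ### Elementary facts -/

private theorem wj_two (g : Pt → ZMod 2) : g + g = 0 := by
  funext v
  exact CharTwo.add_self_eq_zero (g v)

private theorem wj_xc_pos : 0 < xc := by
  unfold xc
  have : (1 : ℝ) < Real.sqrt 2 := by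
    rw [Real.lt_sqrt (by norm_num)]
    norm_num
  linarith

private theorem wj_xc_le : xc ≤ 1 := by
  unfold xc
  have : Real.sqrt 2 ≤ 2 := by
    rw [Real.sqrt_le_left (by norm_num)]
    norm_num
  linarith

section Abstract

variable {E G : Type} [DecidableEq E] [AddCommGroup G]

private theorem wj_fkP_mono (h3 : Coupling) (h2 : ∀ g : G, g + g = 0) (bd : E → G)
    (D : Finset E) (x : E → ℝ) (h0 : ∀ e ∈ D, 0 ≤ x e) (h1 : ∀ e ∈ D, x e ≤ 1)
    {P Q : Finset E → Prop} (h : ∀ ω ⊆ D, P ω → Q ω) : fkP bd D x P ≤ fkP bd D x Q := by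
  obtain ⟨-, -, a3, -, -, -, a7⟩ := h3 E G h2 bd D x h0 h1
  rw [← a3 P, ← a3 Q]
  exact a7 _ _ (fun W ω _ hω _ hP => h ω hω hP)

private theorem wj_fkP_nonneg (h3 : Coupling) (h2 : ∀ g : G, g + g = 0) (bd : E → G)
    (D : Finset E) (x : E → ℝ) (h0 : ∀ e ∈ D, 0 ≤ x e) (h1 : ∀ e ∈ D, x e ≤ 1)
    (P : Finset E → Prop) : 0 ≤ fkP bd D x P := by
  have h4 : fkP bd D x (fun _ => False) = 0 := by
    unfold fkP fkE
    simp
  rw [← h4]
  exact wj_fkP_mono h3 h2 bd D x h0 h1 (fun ω _ hP => hP.elim)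

private theorem wj_fkP_le_one (h3 : Coupling) (h2 : ∀ g : G, g + g = 0) (bd : E → G)
    (D : Finset E) (x : E → ℝ) (h0 : ∀ e ∈ D, 0 ≤ x e) (h1 : ∀ e ∈ D, x e ≤ 1)
    (P : Finset E → Prop) : fkP bd D x P ≤ 1 := by
  refine (wj_fkP_mono h3 h2 bd D x h0 h1 (Q := fun _ => True) (fun ω _ _ => trivial)).trans ?_
  obtain ⟨a1, -, -, -, -, a6, -⟩ := h3 E G h2 bd D x h0 h1
  unfold fkP fkE
  simp only [if_true, mul_one]
  rw [a1]
  exact (div_self (by linarith [a6.1])).le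

private theorem wj_fkP_add (bd : E → G) (D : Finset E) (x : E → ℝ) (P Q : Finset E → Prop) :
    fkP bd D x P = fkP bd D x (fun ω => P ω ∧ Q ω) + fkP bd D x (fun ω => P ω ∧ ¬ Q ω) := by
  classical
  unfold fkP fkE
  rw [← add_div, ← Finset.sum_add_distrib]
  congr 1
  refine Finset.sum_congr rfl fun ω _ => ?_
  by_cases hP : P ω <;> by_cases hQ : Q ω <;> simp [hP, hQ]

private theorem wj_jP_add (bd : E → G) (D : Finset E) (x : E → ℝ)
    (P Q : Finset E → Finset E → Prop) :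
    jP bd D x P = jP bd D x (fun W ω => P W ω ∧ Q W ω) + jP bd D x (fun W ω => P W ω ∧ ¬ Q W ω) := by
  classical
  unfold jP
  rw [← add_div, ← Finset.sum_add_distrib]
  congr 1
  refine Finset.sum_congr rfl fun ω _ => ?_
  rw [← Finset.sum_add_distrib]
  refine Finset.sum_congr rfl fun W _ => ?_
  by_cases hb : bdy bd W = 0 <;> by_cases hP : P W ω <;> by_cases hQ : Q W ω <;> simp [hb, hP, hQ]

end Abstract

/-! ### Paths -/

private theorem wj_reach_mono {ω ω' : Finset Edge} (h : ω ⊆ ω') {a b : Pt} (hr : Reach ω a b) :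
    Reach ω' a b := by
  unfold Reach at hr ⊢
  induction hr with
  | refl => exact Relation.ReflTransGen.refl
  | @tail p q _ hpq ih =>
    obtain ⟨e, he, h1⟩ := hpq
    exact Relation.ReflTransGen.tail ih ⟨e, h he, h1⟩

private theorem wj_reach_symm {ω : Finset Edge} {a b : Pt} (hr : Reach ω a b) : Reach ω b a := by
  unfold Reach at hr ⊢
  induction hr with
  | refl => exact Relation.ReflTransGen.refl
  | @tail p q _ hpq ih =>
    obtain ⟨e, he, h1⟩ := hpq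
    exact Relation.ReflTransGen.head ⟨e, he, h1.symm⟩ ih

private theorem wj_reach_trans {ω : Finset Edge} {a b c : Pt} (h1 : Reach ω a b)
    (h2 : Reach ω b c) : Reach ω a c :=
  Relation.ReflTransGen.trans h1 h2

private theorem wj_reach_end {ω : Finset Edge} {e : Edge} (he : e ∈ ω) {v : Pt}
    (hv : src e = v ∨ tgt e = v) : Reach ω (src e) v := by
  rcases hv with rfl | rfl
  · exact Relation.ReflTransGen.refl
  · exact Relation.ReflTransGen.single ⟨e, he, Or.inl ⟨rfl, rfl⟩⟩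

private theorem wj_mem_EV {Λ : Finset Pt} {e : Edge} : e ∈ EV Λ ↔ src e ∈ Λ ∨ tgt e ∈ Λ := by
  obtain ⟨⟨i, j⟩, b⟩ := e
  unfold EV src tgt
  rw [Finset.mem_biUnion]
  constructor
  · rintro ⟨⟨p, q⟩, hv, h⟩
    simp only [Finset.mem_insert, Finset.mem_singleton, Prod.mk.injEq] at h
    rcases h with ⟨⟨rfl, rfl⟩, rfl⟩ | ⟨⟨rfl, rfl⟩, rfl⟩ | ⟨⟨rfl, rfl⟩, rfl⟩ | ⟨⟨rfl, rfl⟩, rfl⟩
    · exact Or.inl hv
    · exact Or.inl hv
    · right
      simpa using hv
    · right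
      simpa using hv
  · rintro (h | h)
    · refine ⟨(i, j), h, ?_⟩
      cases b <;> simp
    · cases b
      · refine ⟨(i + 1, j), by simpa using h, ?_⟩
        simp
      · refine ⟨(i, j + 1), by simpa using h, ?_⟩
        simp

/-- Cutting a path at its exit from `Λ`. -/
private theorem wj_exit {Λ : Finset Pt} {ω : Finset Edge} {a b : Pt} (ha : a ∈ Λ)
    (hr : Reach ω a b) : (b ∈ Λ ∧ Reach (ω ∩ EV Λ) a b) ∨ ∃ c, c ∉ Λ ∧ Reach (ω ∩ EV Λ) a c := by
  unfold Reach at hr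
  induction hr with
  | refl => exact Or.inl ⟨ha, Relation.ReflTransGen.refl⟩
  | @tail p q _ hpq ih =>
    rcases ih with ⟨hp, hrp⟩ | h
    · obtain ⟨e, he, h1⟩ := hpq
      have heΛ : e ∈ EV Λ := by
        rw [wj_mem_EV]
        rcases h1 with ⟨h1, -⟩ | ⟨-, h1⟩
        · left; rw [h1]; exact hp
        · right; rw [h1]; exact hp
      have hrq : Reach (ω ∩ EV Λ) a q :=
        Relation.ReflTransGen.tail hrp ⟨e, Finset.mem_inter.2 ⟨he, heΛ⟩, h1⟩
      by_cases hq : q ∈ Λ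
      · exact Or.inl ⟨hq, hrq⟩
      · exact Or.inr ⟨q, hq, hrq⟩
    · exact Or.inr h

private theorem wj_mem_box {z p : Pt} {n : ℕ} :
    p ∈ box z n ↔ z.1 - n ≤ p.1 ∧ p.1 ≤ z.1 + n ∧ z.2 - n ≤ p.2 ∧ p.2 ≤ z.2 + n := by
  unfold box
  rw [Finset.mem_product, Finset.mem_Icc, Finset.mem_Icc]
  tauto

private theorem wj_far {z z' p : Pt} {a b : ℕ} (hp : p ∈ box z' b) (h : a + b < ldist z z') :
    p ∉ box z a := by
  intro hp'
  rw [wj_mem_box] at hp hp'
  unfold ldist at h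
  omega

private theorem wj_ldist_comm (z z' : Pt) : ldist z z' = ldist z' z := by
  unfold ldist
  omega

private theorem wj_box_mono {z : Pt} {n m : ℕ} (h : n ≤ m) : box z n ⊆ box z m := by
  intro p hp
  rw [wj_mem_box] at hp ⊢
  omega

private theorem wj_EB {Λ : Finset Pt} {e : Edge} (he : e ∈ EB Λ) : src e ∈ Λ ∧ tgt e ∈ Λ := by
  unfold EB at he
  exact (Finset.mem_filter.1 he).2

private theorem wj_EB_mono {Λ Λ' : Finset Pt} (h : Λ ⊆ Λ') : EB Λ ⊆ EB Λ' := by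
  intro e he
  have h1 := wj_EB he
  unfold EB
  rw [Finset.mem_filter, wj_mem_EV]
  exact ⟨Or.inl (h h1.1), h h1.1, h h1.2⟩

private theorem wj_circ_mono {z : Pt} {n m m' : ℕ} (h : m ≤ m') {ω ω' : Finset Edge}
    (hω : ω ⊆ ω') (hc : Circ z n m ω) : Circ z n m' ω' := by
  obtain ⟨c, hc1, hc2, hc3, hc4, hc5, hc6⟩ := hc
  exact ⟨c, hc1.trans hω, hc2, hc3, hc4, hc5.trans (wj_EB_mono (wj_box_mono h)), hc6⟩

/-- A wall joining the boxes is a path. -/
private theorem wj_path (h2 : CompFacts) {z z' : Pt} {n : ℕ} {w : Finset Edge}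
    (h : WJ z z' n w) : ∃ a ∈ box z n, ∃ b ∈ box z' n, Reach w a b := by
  obtain ⟨a, ha, b, hb, hab, h1, h4⟩ := h
  have hr := h2.2.2.2.2 w a b ha hb hab
  obtain ⟨p, hp, hpa⟩ : ∃ p ∈ box z n, Reach w (src a) p := by
    rcases h1 with h1 | h1
    · exact ⟨_, h1, wj_reach_end ha (Or.inl rfl)⟩
    · exact ⟨_, h1, wj_reach_end ha (Or.inr rfl)⟩
  obtain ⟨q, hq, hqb⟩ : ∃ q ∈ box z' n, Reach w (src b) q := by
    rcases h4 with h4 | h4
    · exact ⟨_, h4, wj_reach_end hb (Or.inl rfl)⟩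
    · exact ⟨_, h4, wj_reach_end hb (Or.inr rfl)⟩
  exact ⟨p, hp, q, hq, wj_reach_trans (wj_reach_symm hpa) (wj_reach_trans hr hqb)⟩

private theorem wj_join (h2 : CompFacts) {z z' : Pt} {n : ℕ} {w ω : Finset Edge} (hω : w ⊆ ω)
    (h : WJ z z' n w) : Join (box z n) (box z' n) ω := by
  obtain ⟨a, ha, b, hb, hab⟩ := wj_path h2 h
  exact ⟨a, ha, b, hb, wj_reach_mono hω hab⟩

private theorem wj_join_mono {Λ Λ' : Finset Pt} {ω ω' : Finset Edge} (h : ω ⊆ ω')
    (hj : Join Λ Λ' ω) : Join Λ Λ' ω' := by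
  obtain ⟨a, ha, b, hb, hab⟩ := hj
  exact ⟨a, ha, b, hb, wj_reach_mono h hab⟩

/-- The geometric heart: a wall between two boxes surrounded by circuits joins the circuits. -/
private theorem wj_hit (h0 : GridFacts) (h1 : Hit) (h2 : CompFacts) {z z' : Pt} {n m : ℕ}
    (hnm : n ≤ m) (hd : m + m < ldist z z') {W c c' : Finset Edge} (hc : IsCirc z n m c)
    (hc' : IsCirc z' n m c') (hW : WJ z z' n W) {e e' : Edge} (he : e ∈ c) (he' : e' ∈ c')
    {ω : Finset Edge} (hWω : W ⊆ ω) (hcω : c ⊆ ω) (hcω' : c' ⊆ ω) :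
    Reach ω (src e) (src e') := by
  obtain ⟨-, hce, hcc, hcb, hco⟩ := hc
  obtain ⟨-, hce', hcc', hcb', hco'⟩ := hc'
  obtain ⟨a, ha, b, hb, hab⟩ := wj_path h2 hW
  have hbm : b ∉ box z m := wj_far hb (by omega)
  obtain ⟨v, ⟨d, hd1, hdv⟩, hav, hvb⟩ := h1 c W a b hce hab (hco a ha)
    (h0.2.2.2.2 c z m hce hcb b hbm)
  have hvm : v ∈ box z m := by
    have := wj_EB (hcb hd1)
    rcases hdv with rfl | rfl
    · exact this.1
    · exact this.2
  have hvm' : v ∉ box z' m := wj_far hvm (by rw [wj_ldist_comm]; omega)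
  obtain ⟨v', ⟨d', hd1', hdv'⟩, hbv', hvv'⟩ := h1 c' W b v hce' (wj_reach_symm hvb) (hco' b hb)
    (h0.2.2.2.2 c' z' m hce' hcb' v hvm')
  have r1 : Reach ω (src e) (src d) := wj_reach_mono hcω (h2.2.2.2.2 c e d he hd1 (hcc e he d hd1))
  have r2 : Reach ω (src d) v := wj_reach_end (hcω hd1) hdv
  have r3 : Reach ω v v' := wj_reach_mono hWω (wj_reach_symm hvv')
  have r4 : Reach ω v' (src d') := wj_reach_symm (wj_reach_end (hcω' hd1') hdv')
  have r5 : Reach ω (src d') (src e') :=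
    wj_reach_mono hcω' (h2.2.2.2.2 c' d' e' hd1' he' (hcc' d' hd1' e' he'))
  exact wj_reach_trans r1 (wj_reach_trans r2 (wj_reach_trans r3 (wj_reach_trans r4 r5)))

/-- The probability of an arm around `z`, with some edges open. -/
private theorem wj_arm (h3 : Coupling) (h6 : ProdDom) (h7 : StochDom) (h8 : Idents)
    (h9 : ReachFacts) {z : Pt} {m k : ℕ} (hmk : m ≤ k) (D' : Finset Edge) (y : Edge → ℝ)
    (hy0 : ∀ e ∈ D', 0 ≤ y e) (hy1 : ∀ e ∈ D', y e ≤ 1)
    (hy : ∀ e ∈ D', e ∈ EV (box z k) → y e ≤ xblk z m e) :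
    fkP bdV D' y (Arm (box z m) (box z k)) ≤ aa m k := by
  classical
  set D₂ := D' ∩ EV (box z k) with hD₂
  set D₁ := D' \ EV (box z k) with hD₁
  have hdis : Disjoint D₁ D₂ := by
    rw [Finset.disjoint_left]
    intro e h1 h2
    exact (Finset.mem_sdiff.1 h1).2 (Finset.mem_inter.1 h2).2
  have hun : D₁ ∪ D₂ = D' := by
    ext e
    rw [Finset.mem_union, hD₁, hD₂, Finset.mem_sdiff, Finset.mem_inter]
    tauto
  have hxb : ∀ e, 0 ≤ xblk z m e ∧ xblk z m e ≤ 1 := by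
    intro e
    unfold xblk
    split_ifs
    · exact ⟨zero_le_one, le_rfl⟩
    · exact ⟨wj_xc_pos.le, wj_xc_le⟩
  -- step 1
  have s1 : fkP bdV D' y (Arm (box z m) (box z k)) ≤
      fkP bdV D' y (fun ω => True ∧ Arm (box z m) (box z k) (ω ∩ D₂)) := by
    refine wj_fkP_mono h3 wj_two bdV D' y hy0 hy1 ?_
    rintro ω hω ⟨a, ha, b, hb, hab⟩
    refine ⟨trivial, a, ha, ?_⟩
    have hsub : ω ∩ EV (box z k) ⊆ ω ∩ D₂ := by
      intro e he
      rw [Finset.mem_inter] at he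
      rw [Finset.mem_inter, hD₂, Finset.mem_inter]
      exact ⟨he.1, hω he.1, he.2⟩
    rcases wj_exit (wj_box_mono hmk ha) hab with ⟨h, -⟩ | ⟨c, hc, hac⟩
    · exact absurd h hb
    · exact ⟨c, hc, wj_reach_mono hsub hac⟩
  -- step 2
  have s2 := h6 Edge (Pt → ZMod 2) (Pt → ZMod 2) wj_two wj_two bdV (bdR (box z k)) D₁ D₂ y hdis
    (by rw [hun]; exact hy0) (by rw [hun]; exact hy1) (by
      intro η₁ hη₁ η₂ hη₂ hb
      have h10 := h9.2.2.2.2 (box z k) (η₁ ∪ η₂) hb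
      have h11 : bdy (bdR (box z k)) (η₁ ∪ η₂) = bdy (bdR (box z k)) η₁ + bdy (bdR (box z k)) η₂ := by
        unfold bdy
        exact Finset.sum_union (Finset.disjoint_of_subset_left hη₁
          (Finset.disjoint_of_subset_right hη₂ hdis))
      have h12 : bdy (bdR (box z k)) η₁ = 0 := by
        unfold bdy
        refine Finset.sum_eq_zero fun e he => ?_
        have he' := (Finset.mem_sdiff.1 (hη₁ he)).2
        rw [wj_mem_EV, not_or] at he'
        funext v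
        unfold bdR
        split_ifs with hv
        · unfold bdV
          have h13 : v ≠ src e := fun h => he'.1 (h ▸ hv)
          have h14 : v ≠ tgt e := fun h => he'.2 (h ▸ hv)
          simp [h13, h14]
        · rfl
      rw [h11, h12, zero_add] at h10
      exact h10)
    (fun _ => True) (fun ω => Arm (box z m) (box z k) (ω ∩ D₂)) (fun ω => Iff.rfl)
    (fun ω => by
      have : ω ∩ D₂ ∩ D₂ = ω ∩ D₂ := by
        rw [Finset.inter_assoc, Finset.inter_self]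
      simp only [this])
    (by
      rintro ω ω' hωω' - ⟨a, ha, b, hb, hab⟩
      exact ⟨a, ha, b, hb, wj_reach_mono (Finset.inter_subset_inter_right hωω') hab⟩)
  rw [hun] at s2
  -- step 3
  have hy0' : ∀ e ∈ D₂, 0 ≤ y e := fun e he => hy0 e (Finset.mem_inter.1 he).1
  have hy1' : ∀ e ∈ D₂, y e ≤ 1 := fun e he => hy1 e (Finset.mem_inter.1 he).1
  have s3 : fkP (bdR (box z k)) D₂ y (fun ω => Arm (box z m) (box z k) (ω ∩ D₂)) ≤
      fkP (bdR (box z k)) D₂ y (Arm (box z m) (box z k)) := by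
    refine wj_fkP_mono h3 wj_two _ D₂ y hy0' hy1' ?_
    rintro ω hω ⟨a, ha, b, hb, hab⟩
    exact ⟨a, ha, b, hb, wj_reach_mono Finset.inter_subset_left hab⟩
  have s4 : fkP (bdR (box z k)) D₂ y (Arm (box z m) (box z k)) ≤
      fkP (bdR (box z k)) (EV (box z k)) (xblk z m) (Arm (box z m) (box z k)) := by
    refine h7 Edge (Pt → ZMod 2) (Pt → ZMod 2) wj_two wj_two _ _ D₂ (EV (box z k)) y (xblk z m)
      Finset.inter_subset_right hy0' ?_ (fun e _ => (hxb e).1) (fun e _ => (hxb e).2)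
      (fun _ _ h => h) _ ?_
    · intro e he
      exact hy e (Finset.mem_inter.1 he).1 (Finset.mem_inter.1 he).2
    · rintro ω ω' hωω' - ⟨a, ha, b, hb, hab⟩
      exact ⟨a, ha, b, hb, wj_reach_mono hωω' hab⟩
  have s5 : fkP (bdR (box z k)) (EV (box z k)) (xblk z m) (Arm (box z m) (box z k)) = aa m k :=
    h8.2.1 z m k hmk
  have s6 : fkP bdV D' y (fun _ => True) ≤ 1 := wj_fkP_le_one h3 wj_two bdV D' y hy0 hy1 _
  have s7 : 0 ≤ fkP (bdR (box z k)) D₂ y (fun ω => Arm (box z m) (box z k) (ω ∩ D₂)) :=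
    wj_fkP_nonneg h3 wj_two _ D₂ y hy0' hy1' _
  calc fkP bdV D' y (Arm (box z m) (box z k)) ≤ _ := s1
    _ ≤ _ := s2
    _ ≤ 1 * fkP (bdR (box z k)) D₂ y (fun ω => Arm (box z m) (box z k) (ω ∩ D₂)) :=
        mul_le_mul_of_nonneg_right s6 s7
    _ = fkP (bdR (box z k)) D₂ y (fun ω => Arm (box z m) (box z k) (ω ∩ D₂)) := one_mul _
    _ ≤ aa m k := s3.trans (s4.trans s5.le)

/-- The two boxes are joined by a wall and both are surrounded by circuits. -/
private theorem wj_both (h0 : GridFacts) (h1 : Hit) (h2 : CompFacts) (h3 : Coupling)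
    (h5 : SqCond) (h6 : ProdDom) (h7 : StochDom) (h8 : Idents) (h9 : ReachFacts)
    {z z' : Pt} {n m k : ℕ} (hnm : n ≤ m) (hmk : m ≤ k) (hd : m + k < ldist z z')
    (D : Finset Edge) :
    jP bdV D (fun _ => xc) (fun W ω => (WJ z z' n W ∧ Circ z n m ω) ∧ Circ z' n m ω) ≤
      aa m k * fkF D (Join (box z m) (box z' m)) := by
  classical
  have hx0 : ∀ e ∈ D, (0 : ℝ) ≤ (fun _ : Edge => xc) e := fun _ _ => wj_xc_pos.le
  have hx1 : ∀ e ∈ D, (fun _ : Edge => xc) e ≤ (1 : ℝ) := fun _ _ => wj_xc_le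
  set S := D ∩ (EB (box z m) ∪ EB (box z' m)) with hS
  have hSD : S ⊆ D := Finset.inter_subset_left
  -- choice of the corners
  have hch : ∀ ω₁ : Finset Edge, ∃ x₀ y₀ : Pt, (Circ z n m ω₁ ∧ Circ z' n m ω₁) →
      (∃ c ⊆ ω₁, IsCirc z n m c ∧ ∃ e ∈ c, src e = x₀) ∧
      (∃ c ⊆ ω₁, IsCirc z' n m c ∧ ∃ e ∈ c, src e = y₀) := by
    intro ω₁
    by_cases hC : Circ z n m ω₁ ∧ Circ z' n m ω₁
    · obtain ⟨⟨c, hc1, hc2⟩, ⟨c', hc1', hc2'⟩⟩ := hC
      obtain ⟨e, he⟩ := hc2.1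
      obtain ⟨e', he'⟩ := hc2'.1
      exact ⟨src e, src e', fun _ => ⟨⟨c, hc1, hc2, e, he, rfl⟩, ⟨c', hc1', hc2', e', he', rfl⟩⟩⟩
    · exact ⟨0, 0, fun h => absurd h hC⟩
  choose X Y hXY using hch
  have hpX : ∀ ω₁, (Circ z n m ω₁ ∧ Circ z' n m ω₁) → X ω₁ ∈ box z m := by
    intro ω₁ hC
    obtain ⟨⟨c, -, hc, e, he, h⟩, -⟩ := hXY ω₁ hC
    rw [← h]
    exact (wj_EB (hc.2.2.2.1 he)).1
  have hpY : ∀ ω₁, (Circ z n m ω₁ ∧ Circ z' n m ω₁) → Y ω₁ ∈ box z' m := by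
    intro ω₁ hC
    obtain ⟨-, ⟨c, -, hc, e, he, h⟩⟩ := hXY ω₁ hC
    rw [← h]
    exact (wj_EB (hc.2.2.2.1 he)).1
  -- circuits live in `S`
  have hCS : ∀ ω ⊆ D, Circ z n m ω → Circ z' n m ω → Circ z n m (ω ∩ S) ∧ Circ z' n m (ω ∩ S) := by
    rintro ω hω ⟨c, hc1, hc2⟩ ⟨c', hc1', hc2'⟩
    refine ⟨⟨c, ?_, hc2⟩, ⟨c', ?_, hc2'⟩⟩
    · intro e he
      rw [Finset.mem_inter, hS, Finset.mem_inter, Finset.mem_union]
      exact ⟨hc1 he, hω (hc1 he), Or.inl (hc2.2.2.2.1 he)⟩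
    · intro e he
      rw [Finset.mem_inter, hS, Finset.mem_inter, Finset.mem_union]
      exact ⟨hc1' he, hω (hc1' he), Or.inr (hc2'.2.2.2.1 he)⟩
  -- first inequality
  have s1 : jP bdV D (fun _ => xc) (fun W ω => (WJ z z' n W ∧ Circ z n m ω) ∧ Circ z' n m ω) ≤
      jP bdV D (fun _ => xc) (fun W ω => (Circ z n m (ω ∩ S) ∧ Circ z' n m (ω ∩ S)) ∧
        Conn bdV (W ∪ (ω ∩ S)) (pt (X (ω ∩ S)) + pt (Y (ω ∩ S)))) := by
    refine (h3 Edge (Pt → ZMod 2) wj_two bdV D (fun _ => xc) hx0 hx1).2.2.2.2.2.2 _ _ ?_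
    rintro W ω hWω hωD - ⟨⟨hW, hC⟩, hC'⟩
    have hCC := hCS ω hωD hC hC'
    refine ⟨hCC, ?_⟩
    rw [h9.1]
    obtain ⟨⟨c, hcω, hc, e, he, hX⟩, ⟨c', hcω', hc', e', he', hY⟩⟩ := hXY _ hCC
    rw [← hX, ← hY]
    exact wj_hit h0 h1 h2 hnm (by omega) hc hc' hW he he' Finset.subset_union_left
      (hcω.trans Finset.subset_union_right) (hcω'.trans Finset.subset_union_right)
  -- the conditional bound
  have hp0 : 0 ≤ aa m k := by
    rw [← h8.2.1 z m k hmk]
    refine wj_fkP_nonneg h3 wj_two _ _ _ ?_ ?_ _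
    · intro e _
      unfold xblk
      split_ifs
      · exact zero_le_one
      · exact wj_xc_pos.le
    · intro e _
      unfold xblk
      split_ifs
      · exact le_rfl
      · exact wj_xc_le
  have s2 := h5 Edge (Pt → ZMod 2) wj_two bdV D S (fun _ => xc) hSD hx0 hx1
    (fun ω₁ => Circ z n m ω₁ ∧ Circ z' n m ω₁) (fun ω₁ => pt (X ω₁) + pt (Y ω₁)) (aa m k) hp0 (by
      intro ω₁ hω₁ hC
      have hy0 : ∀ e ∈ ω₁ ∪ (D \ S), (0 : ℝ) ≤ (fun e => if e ∈ ω₁ then (1 : ℝ) else xc) e := by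
        intro e _
        simp only
        split_ifs
        · exact zero_le_one
        · exact wj_xc_pos.le
      have hy1 : ∀ e ∈ ω₁ ∪ (D \ S), (fun e => if e ∈ ω₁ then (1 : ℝ) else xc) e ≤ 1 := by
        intro e _
        simp only
        split_ifs
        · exact le_rfl
        · exact wj_xc_le
      obtain ⟨-, -, -, a4, -, a6, -⟩ := h3 Edge (Pt → ZMod 2) wj_two bdV (ω₁ ∪ (D \ S))
        (fun e => if e ∈ ω₁ then (1 : ℝ) else xc) hy0 hy1
      have hZ : 0 < Zp bdV (ω₁ ∪ (D \ S)) (fun e => if e ∈ ω₁ then (1 : ℝ) else xc) 0 := by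
        linarith [a6.1]
      have h10 := a4 (pt (X ω₁) + pt (Y ω₁))
      have h11 : fkP bdV (ω₁ ∪ (D \ S)) (fun e => if e ∈ ω₁ then (1 : ℝ) else xc)
          (fun ω => Conn bdV ω (pt (X ω₁) + pt (Y ω₁))) ≤ aa m k := by
        refine le_trans (wj_fkP_mono h3 wj_two bdV _ _ hy0 hy1
          (Q := Arm (box z m) (box z k)) ?_) (wj_arm h3 h6 h7 h8 h9 hmk _ _ hy0 hy1 ?_)
        · intro ω _ hω
          rw [h9.1] at hω
          exact ⟨X ω₁, hpX ω₁ hC, Y ω₁, wj_far (hpY ω₁ hC) (by omega), hω⟩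
        · intro e _ hek
          unfold xblk
          split_ifs with h12 h13 h13
          · exact le_rfl
          · exfalso
            apply h13
            have h14 := (Finset.mem_inter.1 (hω₁ h12)).2
            rcases Finset.mem_union.1 h14 with h15 | h15
            · exact wj_EB h15
            · exfalso
              have h16 := wj_EB h15
              rw [wj_mem_EV] at hek
              rcases hek with h17 | h17
              · exact wj_far h16.1 (by omega) h17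
              · exact wj_far h16.2 (by omega) h17
          · exact wj_xc_le
          · exact le_rfl
      rw [h10, div_le_iff₀ hZ] at h11
      exact h11)
  -- the last event
  have s3 : fkP bdV D (fun _ => xc) (fun ω => (Circ z n m (ω ∩ S) ∧ Circ z' n m (ω ∩ S)) ∧
      Conn bdV ω (pt (X (ω ∩ S)) + pt (Y (ω ∩ S)))) ≤ fkF D (Join (box z m) (box z' m)) := by
    unfold fkF
    refine wj_fkP_mono h3 wj_two bdV D _ hx0 hx1 ?_
    rintro ω hω ⟨hC, hconn⟩
    rw [h9.1] at hconn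
    exact ⟨_, hpX _ hC, _, hpY _ hC, hconn⟩
  exact s1.trans (s2.trans (mul_le_mul_of_nonneg_left s3 hp0))

/-- A wall between two boxes, one of them not surrounded by a circuit. -/
private theorem wj_one (h2 : CompFacts) (h3 : Coupling) (h4 : FkgIneq) {z z' z'' : Pt} {n m : ℕ}
    (D : Finset Edge) {ε : ℝ} (hε : 1 - ε ≤ fkF D (Circ z'' n m)) :
    jP bdV D (fun _ => xc) (fun W ω => WJ z z' n W ∧ ¬ Circ z'' n m ω) ≤
      ε * fkF D (Join (box z n) (box z' n)) := by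
  classical
  have hx0 : ∀ e ∈ D, (0 : ℝ) ≤ (fun _ : Edge => xc) e := fun _ _ => wj_xc_pos.le
  have hx1 : ∀ e ∈ D, (fun _ : Edge => xc) e ≤ (1 : ℝ) := fun _ _ => wj_xc_le
  obtain ⟨-, -, a3, -, -, -, a7⟩ := h3 Edge (Pt → ZMod 2) wj_two bdV D (fun _ => xc) hx0 hx1
  have s1 : jP bdV D (fun _ => xc) (fun W ω => WJ z z' n W ∧ ¬ Circ z'' n m ω) ≤
      jP bdV D (fun _ => xc) (fun _ ω => Join (box z n) (box z' n) ω ∧ ¬ Circ z'' n m ω) := by
    refine a7 _ _ ?_
    rintro W ω hWω - - ⟨hW, hC⟩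
    exact ⟨wj_join h2 hWω hW, hC⟩
  rw [a3 (fun ω => Join (box z n) (box z' n) ω ∧ ¬ Circ z'' n m ω)] at s1
  have s2 := wj_fkP_add bdV D (fun _ => xc) (Join (box z n) (box z' n)) (Circ z'' n m)
  have s3 := h4 Edge (Pt → ZMod 2) wj_two bdV D (fun _ => xc) hx0 hx1 (Join (box z n) (box z' n))
    (Circ z'' n m) (fun ω ω' h _ hj => wj_join_mono h hj) (fun ω ω' h _ hc => by
      exact wj_circ_mono le_rfl h hc)
  have s4 : 0 ≤ fkF D (Join (box z n) (box z' n)) := wj_fkP_nonneg h3 wj_two bdV D _ hx0 hx1 _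
  unfold fkF at hε s4 ⊢
  nlinarith

theorem wJoinS (h0 : GridFacts) (h1 : Hit) (h2 : CompFacts) (h3 : Coupling) (h4 : FkgIneq)
    (h5 : SqCond) (h6 : ProdDom) (h7 : StochDom) (h8 : Idents) (h9 : ReachFacts) : WJoinS := by
  intro hJ hL hA
  have hx0 : ∀ (D : Finset Edge), ∀ e ∈ D, (0 : ℝ) ≤ (fun _ : Edge => xc) e :=
    fun _ _ _ => wj_xc_pos.le
  have hx1 : ∀ (D : Finset Edge), ∀ e ∈ D, (fun _ : Edge => xc) e ≤ (1 : ℝ) :=
    fun _ _ _ => wj_xc_le
  obtain ⟨C₀, hC₀⟩ := hJ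
  -- a positive constant
  obtain ⟨C, hC1, hC⟩ : ∃ C : ℝ, 1 ≤ C ∧ ∀ (D : Finset Edge) (n : ℕ) (z z' : Pt), 1 ≤ n →
      4 * n ≤ ldist z z' →
      fkF D (Join (box z n) (box z' n)) ≤ C * ((n : ℝ) / ldist z z') ^ (1 / 4 : ℝ) := by
    refine ⟨max C₀ 1, le_max_right _ _, fun D n z z' hn hd => (hC₀ D n z z' hn hd).trans ?_⟩
    exact mul_le_mul_of_nonneg_right (le_max_left _ _) (Real.rpow_nonneg (by positivity) _)
  refine ⟨⟨C, ?_⟩, ?_⟩
  · intro D n z z' hn hd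
    refine le_trans ?_ (hC D n z z' hn hd)
    obtain ⟨-, a2, a3, -, -, -, a7⟩ :=
      h3 Edge (Pt → ZMod 2) wj_two bdV D (fun _ => xc) (hx0 D) (hx1 D)
    unfold lP fkF
    rw [← a2, ← a3]
    refine a7 _ _ ?_
    rintro W ω hWω - - hW
    exact wj_join h2 hWω hW
  · intro ε hε
    obtain ⟨K₀, R, n₁, hK₀⟩ := hL (ε / (4 * C)) (by positivity)
    obtain ⟨K, hK1, hK0K⟩ : ∃ K : ℕ, 1 ≤ K ∧ K₀ ≤ K := ⟨max K₀ 1, le_max_right _ _, le_max_left _ _⟩
    obtain ⟨K₂, n₂, hK₂⟩ := hA (ε / (2 * C * K)) (by positivity)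
    refine ⟨R, 8 * K * (K₂ + 1), max (max n₁ n₂) 1, ?_⟩
    intro D n z z' hn hR hR' hd
    have hn1 : n₁ ≤ n := (le_max_left _ _).trans ((le_max_left _ _).trans hn)
    have hn2 : n₂ ≤ n := (le_max_right _ _).trans ((le_max_left _ _).trans hn)
    have hn0 : 1 ≤ n := (le_max_right _ _).trans hn
    obtain ⟨m, hm⟩ : ∃ m, m = K * n := ⟨_, rfl⟩
    have hnm : n ≤ m := by
      rw [hm]
      exact Nat.le_mul_of_pos_left n (by omega)
    have hd1 : 8 * m + 8 * (K₂ * m) ≤ ldist z z' := by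
      calc 8 * m + 8 * (K₂ * m) = 8 * K * (K₂ + 1) * n := by rw [hm]; ring
        _ ≤ _ := hd
    have hdpos : 0 < ldist z z' := by omega
    obtain ⟨k, hk⟩ : ∃ k, k = ldist z z' / 2 := ⟨_, rfl⟩
    have hmk : m ≤ k := by omega
    have hK₂mk : K₂ * m ≤ k := by omega
    have hmkd : m + k < ldist z z' := by omega
    have haa : aa m k ≤ ε / (2 * C * K) := hK₂ m k (hn2.trans hnm) hK₂mk
    -- circuits
    have hcirc : ∀ w : Pt, LF (box w (R * n)) ⊆ D →
        1 - ε / (4 * C) ≤ fkF D (Circ w n m) := by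
      intro w hw
      refine (hK₀ n w D hn1 hw).trans ?_
      unfold fkF
      refine wj_fkP_mono h3 wj_two bdV D _ (hx0 D) (hx1 D) ?_
      intro ω _ hc
      refine wj_circ_mono ?_ (Finset.Subset.refl _) hc
      rw [hm]
      exact Nat.mul_le_mul_right n hK0K
    obtain ⟨-, a2, -, -, -, -, a7⟩ :=
      h3 Edge (Pt → ZMod 2) wj_two bdV D (fun _ => xc) (hx0 D) (hx1 D)
    -- decomposition
    have e1 := wj_jP_add bdV D (fun _ => xc) (fun W _ => WJ z z' n W) (fun _ ω => Circ z n m ω)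
    have e2 := wj_jP_add bdV D (fun _ => xc) (fun W ω => WJ z z' n W ∧ Circ z n m ω)
      (fun _ ω => Circ z' n m ω)
    have e3 : jP bdV D (fun _ => xc)
        (fun W ω => (WJ z z' n W ∧ Circ z n m ω) ∧ ¬ Circ z' n m ω) ≤
        jP bdV D (fun _ => xc) (fun W ω => WJ z z' n W ∧ ¬ Circ z' n m ω) := by
      refine a7 _ _ ?_
      rintro W ω - - - ⟨⟨hW, -⟩, hc⟩
      exact ⟨hW, hc⟩
    have f1 := wj_one (z := z) (z' := z') h2 h3 h4 D (hcirc z hR)
    have f2 := wj_one (z := z) (z' := z') h2 h3 h4 D (hcirc z' hR')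
    have f3 := wj_both h0 h1 h2 h3 h5 h6 h7 h8 h9 hnm hmk hmkd D
    have g1 := hC D n z z' hn0 (by omega)
    have g2 := hC D m z z' (by omega) (by omega)
    set q : ℝ := ((n : ℝ) / ldist z z') ^ (1 / 4 : ℝ) with hq
    have hq0 : 0 ≤ q := Real.rpow_nonneg (by positivity) _
    have hmq : ((m : ℝ) / ldist z z') ^ (1 / 4 : ℝ) ≤ K * q := by
      have h10 : (m : ℝ) / ldist z z' = K * ((n : ℝ) / ldist z z') := by
        rw [hm]
        push_cast
        ring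
      rw [h10, Real.mul_rpow (by positivity) (by positivity)]
      refine mul_le_mul_of_nonneg_right ?_ hq0
      have hK1' : (1 : ℝ) ≤ K := by exact_mod_cast hK1
      calc (K : ℝ) ^ (1 / 4 : ℝ) ≤ (K : ℝ) ^ (1 : ℝ) :=
            Real.rpow_le_rpow_of_exponent_le hK1' (by norm_num)
        _ = K := Real.rpow_one _
    have hKpos : (0 : ℝ) < K := by exact_mod_cast hK1
    have hCpos : (0 : ℝ) < C := by linarith
    have k1 : jP bdV D (fun _ => xc) (fun W ω => WJ z z' n W ∧ ¬ Circ z n m ω) ≤ ε / 4 * q := by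
      refine f1.trans ?_
      calc ε / (4 * C) * fkF D (Join (box z n) (box z' n)) ≤ ε / (4 * C) * (C * q) :=
            mul_le_mul_of_nonneg_left g1 (by positivity)
        _ = ε / 4 * q := by field_simp
    have k2 : jP bdV D (fun _ => xc) (fun W ω => WJ z z' n W ∧ ¬ Circ z' n m ω) ≤ ε / 4 * q := by
      refine f2.trans ?_
      calc ε / (4 * C) * fkF D (Join (box z n) (box z' n)) ≤ ε / (4 * C) * (C * q) :=
            mul_le_mul_of_nonneg_left g1 (by positivity)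
        _ = ε / 4 * q := by field_simp
    have k3 : jP bdV D (fun _ => xc)
        (fun W ω => (WJ z z' n W ∧ Circ z n m ω) ∧ Circ z' n m ω) ≤ ε / 2 * q := by
      refine f3.trans ?_
      have h11 : 0 ≤ fkF D (Join (box z m) (box z' m)) :=
        wj_fkP_nonneg h3 wj_two bdV D _ (hx0 D) (hx1 D) _
      calc aa m k * fkF D (Join (box z m) (box z' m)) ≤
            ε / (2 * C * K) * fkF D (Join (box z m) (box z' m)) :=
            mul_le_mul_of_nonneg_right haa h11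
        _ ≤ ε / (2 * C * K) * (C * (K * q)) := by
            refine mul_le_mul_of_nonneg_left (g2.trans ?_) (by positivity)
            exact mul_le_mul_of_nonneg_left hmq hCpos.le
        _ = ε / 2 * q := by field_simp
    have l1 : lP D (WJ z z' n) = jP bdV D (fun _ => xc) (fun W _ => WJ z z' n W) := by
      unfold lP
      rw [a2]
    rw [l1]
    linarith

end Pool.Agent.Lib.MP_6d40c9_pr
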