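import Pool.Agent.Lib.MP_6d40c9_pr.PairSum
import Pool.Agent.Lib.MP_6d40c9_pr.Toggle
import Pool.Agent.Lib.MP_6d40c9_pr.AOFacts
import Pool.Agent.Lib.MP_6d40c9_pr.Gks
import Pool.Agent.Lib.MP_6d40c9_pr.ConnSq
import Pool.Agent.Lib.MP_6d40c9_pr.Signed
import Pool.Agent.Lib.MP_6d40c9_pr.Leb
import Pool.Agent.Lib.MP_6d40c9_pr.CorrMono
import Pool.Agent.Lib.MP_6d40c9_pr.RatioMono
import Pool.Agent.Lib.MP_6d40c9_pr.Coupling
import Pool.Agent.Lib.MP_6d40c9_pr.Lattice
import Pool.Agent.Lib.MP_6d40c9_pr.FkgIneq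
import Pool.Agent.Lib.MP_6d40c9_pr.StochDom
import Pool.Agent.Lib.MP_6d40c9_pr.ProdDom
import Pool.Agent.Lib.MP_6d40c9_pr.SqCond
import Pool.Agent.Lib.MP_6d40c9_pr.GridFacts
import Pool.Agent.Lib.MP_6d40c9_pr.BoxSimp
import Pool.Agent.Lib.MP_6d40c9_pr.LowTemp
import Pool.Agent.Lib.MP_6d40c9_pr.HighTemp
import Pool.Agent.Lib.MP_6d40c9_pr.Dual
import Pool.Agent.Lib.MP_6d40c9_pr.MonoC
import Pool.Agent.Lib.MP_6d40c9_pr.Transl
import Pool.Agent.Lib.MP_6d40c9_pr.TwoBox
import Pool.Agent.Lib.MP_6d40c9_pr.ReachFacts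
import Pool.Agent.Lib.MP_6d40c9_pr.Idents
import Pool.Agent.Lib.MP_6d40c9_pr.CompFacts
import Pool.Agent.Lib.MP_6d40c9_pr.Markov
import Pool.Agent.Lib.MP_6d40c9_pr.Hit
import Pool.Agent.Lib.MP_6d40c9_pr.IsingLoop
import Pool.Agent.Lib.MP_6d40c9_pr.FacesSimp
import Pool.Agent.Lib.MP_6d40c9_pr.FourPt
import Pool.Agent.Lib.MP_6d40c9_pr.Fourth
import Pool.Agent.Lib.MP_6d40c9_pr.OutCond
import Pool.Agent.Lib.MP_6d40c9_pr.MmUpS
import Pool.Agent.Lib.MP_6d40c9_pr.MmLowS
import Pool.Agent.Lib.MP_6d40c9_pr.TwoPtS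
import Pool.Agent.Lib.MP_6d40c9_pr.AaFacts
import Pool.Agent.Lib.MP_6d40c9_pr.AaKapS
import Pool.Agent.Lib.MP_6d40c9_pr.AaZeroS
import Pool.Agent.Lib.MP_6d40c9_pr.NoCross
import Pool.Agent.Lib.MP_6d40c9_pr.BulkS
import Pool.Agent.Lib.MP_6d40c9_pr.ArmLowS
import Pool.Agent.Lib.MP_6d40c9_pr.LatCircS
import Pool.Agent.Lib.MP_6d40c9_pr.UuUpS
import Pool.Agent.Lib.MP_6d40c9_pr.JoinUpS
import Pool.Agent.Lib.MP_6d40c9_pr.WJoinS
import Pool.Agent.Lib.MP_6d40c9_pr.LEFacts
import Pool.Agent.Lib.MP_6d40c9_pr.CondE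
import Pool.Agent.Lib.MP_6d40c9_pr.TVar
import Pool.Agent.Lib.MP_6d40c9_pr.Cross
import Pool.Agent.Lib.MP_6d40c9_pr.GeoFacts
import Pool.Agent.Lib.MP_6d40c9_pr.Split
import Pool.Agent.Lib.MP_6d40c9_pr.TchQ
import Pool.Agent.Lib.MP_6d40c9_pr.MomS
import Pool.Agent.Lib.MP_6d40c9_pr.TchBS
import Pool.Agent.Lib.MP_6d40c9_pr.PSumS
import Pool.Agent.Lib.MP_6d40c9_pr.PairGeo
import Pool.Agent.Lib.MP_6d40c9_pr.FarPairS
import Pool.Agent.Lib.MP_6d40c9_pr.PFinS
import Pool.Agent.Lib.MP_6d40c9_pr.TransS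
import Pool.Agent.Lib.MP_6d40c9_pr.PortS
import Pool.Agent.Lib.MP_6d40c9_pr.FillFacts
import Pool.Agent.Lib.MP_6d40c9_pr.StatFacts
import Pool.Agent.Lib.MP_6d40c9_pr.GapS
import Pool.Agent.Lib.MP_6d40c9_pr.ConnS
import Pool.Agent.Lib.MP_6d40c9_pr.GenS
import Pool.Agent.Lib.MP_6d40c9_pr.InGenS
import Pool.Agent.Lib.MP_6d40c9_pr.InE2S
import Pool.Agent.Lib.MP_6d40c9_pr.InUpS
import Pool.Agent.Lib.MP_6d40c9_pr.InLowS
import Pool.Agent.Lib.MP_6d40c9_pr.InCircS
import Pool.Agent.Lib.MP_6d40c9_pr.InOddS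
import Pool.Agent.Lib.MP_6d40c9_pr.SfBdS
import Pool.Agent.Lib.MP_6d40c9_pr.PhiS
import Pool.Agent.Lib.MP_6d40c9_pr.JCS
import Pool.Agent.Lib.MP_6d40c9_pr.MeasS
import Pool.Agent.Lib.MP_6d40c9_pr.T4S
import Pool.Agent.Lib.MP_6d40c9_pr.ApproxS
import Pool.Agent.Lib.MP_6d40c9_pr.MainS

/-!
# Assembly of the proof of `MainStmt`
-/

set_option autoImplicit false

namespace Pool.Agent.Lib.MP_6d40c9_pr

namespace Fin

theorem gks' : Gks := gks pairSum toggle aOFacts
theorem leb' : Leb := leb pairSum toggle aOFacts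
theorem signed' : Signed := signed pairSum toggle aOFacts
theorem connSq' : ConnSq := connSq toggle aOFacts
theorem corrMono' : CorrMono := corrMono gks'
theorem ratioMono' : RatioMono := ratioMono corrMono'
theorem fkgIneq' : FkgIneq := fkgIneq coupling lattice
theorem stochDom' : StochDom := stochDom coupling
theorem prodDom' : ProdDom := prodDom coupling
theorem sqCond' : SqCond := sqCond coupling connSq'
theorem boxSimp' : BoxSimp := boxSimp gridFacts
theorem lowTemp' : LowTemp := lowTemp gridFacts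
theorem dual' : Dual := dual gridFacts lowTemp' highTemp
theorem monoC' : MonoC := monoC boxSimp' dual' gks' corrMono'
theorem twoBox' : TwoBox := twoBox gridFacts boxSimp' lowTemp' monoC' transl
theorem idents' : Idents := idents boxSimp' dual' coupling reachFacts transl
theorem markov' : Markov := markov compFacts
theorem hit' : Hit := hit gridFacts
theorem isingLoop' : IsingLoop := isingLoop gridFacts lowTemp'
theorem facesSimp' : FacesSimp := facesSimp gridFacts
theorem fourPt' : FourPt := fourPt dual' leb' reachFacts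
theorem fourth' : Fourth := fourth fourPt'
theorem outCond' : OutCond := outCond gridFacts lowTemp' highTemp dual' signed' boxSimp'
theorem mmUpS' : MmUpS := mmUpS monoC' transl
theorem mmLowS' : MmLowS := mmLowS monoC' transl twoBox'
theorem twoPtS' : TwoPtS := twoPtS monoC' twoBox'
theorem aaFacts' : AaFacts := aaFacts monoC' idents' prodDom' stochDom'
theorem aaKapS' : AaKapS := aaKapS gridFacts monoC' compFacts markov' transl
theorem aaZeroS' : AaZeroS := aaZeroS aaFacts'
theorem noCross' : NoCross := noCross coupling prodDom' stochDom' idents' compFacts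
theorem bulkS' : BulkS := bulkS gridFacts monoC' markov' noCross' aaFacts' transl compFacts
theorem armLowS' : ArmLowS :=
  armLowS monoC' twoBox' idents' reachFacts prodDom' transl coupling
theorem latCircS' : LatCircS := latCircS coupling stochDom' transl compFacts
theorem uuUpS' : UuUpS :=
  uuUpS gridFacts hit' compFacts fkgIneq' idents' stochDom' reachFacts coupling
theorem joinUpS' : JoinUpS := joinUpS prodDom' stochDom' transl coupling
theorem wJoinS' : WJoinS :=
  wJoinS gridFacts hit' compFacts coupling fkgIneq' sqCond' prodDom' stochDom' idents' reachFacts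
theorem condE' : CondE := condE lEFacts
theorem tVar' : TVar := tVar markov' ratioMono' lEFacts
theorem cross' : Cross := cross markov' tVar' condE' lEFacts
theorem geoFacts' : GeoFacts := geoFacts gridFacts
theorem split' : Split := split compFacts geoFacts'
theorem tchQ' : TchQ := tchQ compFacts geoFacts'
theorem momS' : MomS := momS monoC' twoPtS' fourth' facesSimp'
theorem tchBS' : TchBS := tchBS outCond' twoPtS' facesSimp' monoC'
theorem pSumS' : PSumS := pSumS split' condE' momS' tchBS' tchQ' lEFacts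
theorem pairGeo' : PairGeo := pairGeo compFacts geoFacts' split'
theorem farPairS' : FarPairS := farPairS pairGeo' cross' momS' split' condE' lEFacts
theorem pFinS' : PFinS := pFinS pSumS' farPairS' split' lEFacts
theorem transS' : TransS := transS isingLoop' facesSimp'
theorem portS' : PortS := portS lEFacts
theorem statFacts' : StatFacts := statFacts compFacts geoFacts' fillFacts
theorem gapS' : GapS := gapS geoFacts'
theorem connS' : ConnS := connS statFacts'
theorem genS' : GenS := genS statFacts'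
theorem inGenS' : InGenS := inGenS statFacts' portS' lEFacts
theorem inE2S' : InE2S := inE2S statFacts' portS' lEFacts geoFacts'
theorem inUpS' : InUpS := inUpS fourth' facesSimp' lEFacts
theorem inLowS' : InLowS := inLowS monoC' lEFacts
theorem inCircS' : InCircS := inCircS statFacts' portS' fillFacts gapS' geoFacts' lEFacts
theorem inOddS' : InOddS :=
  inOddS statFacts' portS' fillFacts gapS' geoFacts' lEFacts connS'
theorem sfBdS' : SfBdS := sfBdS momS' split' lEFacts
theorem phiS' : PhiS := phiS statFacts' gapS' fillFacts inGenS' lEFacts compFacts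
theorem jCS' : JCS := jCS phiS' lEFacts
theorem measS' : MeasS := measS phiS'
theorem t4S' : T4S := t4S jCS' measS' lEFacts
theorem approxS' : ApproxS :=
  approxS pFinS' genS' inGenS' inE2S' statFacts' sfBdS' t4S' measS'

end Fin

/-- The complete proof. -/
theorem mainFinal : MainStmt :=
  mainS Fin.transS' Fin.inUpS' Fin.inLowS' Fin.inCircS' Fin.inOddS' Fin.mmUpS' Fin.mmLowS'
    Fin.aaKapS' Fin.aaZeroS' Fin.bulkS' Fin.armLowS' Fin.latCircS' Fin.uuUpS' Fin.joinUpS'
    Fin.wJoinS' Fin.approxS'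

end Pool.Agent.Lib.MP_6d40c9_pr
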