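import Pool.Agent.Lib.MP_6d40c9_pr.SpecK

/-!
# MP_6d40c9_pr: positive association of the random cluster measure
-/

set_option autoImplicit false

namespace Pool.Agent.Lib.MP_6d40c9_pr

open Finset
open scoped BigOperators FinsetFamily

/-- The lattice condition for the random cluster weight. -/
theorem fkgIneq_lattice (h2 : Lattice) {E G : Type} [DecidableEq E] [AddCommGroup G]
    (hG : ∀ g : G, g + g = 0) (bd : E → G) (D : Finset E) (x : E → ℝ) (hx : ∀ e ∈ D, 0 ≤ x e)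
    (hx1 : ∀ e ∈ D, x e ≤ 1) (s t : Finset E) (hs : s ⊆ D) (ht : t ⊆ D) :
    fkW bd D x s * fkW bd D x t ≤ fkW bd D x (s ∩ t) * fkW bd D x (s ∪ t) := by
  have h := h2 E G G hG hG bd bd s t (fun η _ h => h)
  have e1 : (∏ e ∈ s, x e) * ∏ e ∈ t, x e = (∏ e ∈ s ∩ t, x e) * ∏ e ∈ s ∪ t, x e := by
    rw [mul_comm (∏ e ∈ s ∩ t, x e)]
    exact (Finset.prod_union_inter).symm
  have e2 : (∏ e ∈ D \ s, (1 - x e)) * ∏ e ∈ D \ t, (1 - x e) =
      (∏ e ∈ D \ (s ∩ t), (1 - x e)) * ∏ e ∈ D \ (s ∪ t), (1 - x e) := by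
    rw [Finset.sdiff_inter_distrib_right, Finset.sdiff_union_distrib]
    exact (Finset.prod_union_inter).symm
  have n1 : ∀ u : Finset E, u ⊆ D → 0 ≤ ∏ e ∈ u, x e := fun u hu =>
    Finset.prod_nonneg fun e he => hx e (hu he)
  have n2 : ∀ u : Finset E, 0 ≤ ∏ e ∈ D \ u, (1 - x e) := fun u =>
    Finset.prod_nonneg fun e he => by linarith [hx1 e (Finset.sdiff_subset he)]
  unfold fkW
  calc evn bd s * ((∏ e ∈ s, x e) * ∏ e ∈ D \ s, (1 - x e)) *
        (evn bd t * ((∏ e ∈ t, x e) * ∏ e ∈ D \ t, (1 - x e))) =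
      (evn bd s * evn bd t) * (((∏ e ∈ s, x e) * ∏ e ∈ t, x e) *
        ((∏ e ∈ D \ s, (1 - x e)) * ∏ e ∈ D \ t, (1 - x e))) := by ring
    _ ≤ (evn bd (s ∩ t) * evn bd (s ∪ t)) * (((∏ e ∈ s, x e) * ∏ e ∈ t, x e) *
        ((∏ e ∈ D \ s, (1 - x e)) * ∏ e ∈ D \ t, (1 - x e))) := by
        apply mul_le_mul_of_nonneg_right h
        exact mul_nonneg (mul_nonneg (n1 s hs) (n1 t ht)) (mul_nonneg (n2 s) (n2 t))
    _ = evn bd (s ∩ t) * ((∏ e ∈ s ∩ t, x e) * ∏ e ∈ D \ (s ∩ t), (1 - x e)) *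
        (evn bd (s ∪ t) * ((∏ e ∈ s ∪ t, x e) * ∏ e ∈ D \ (s ∪ t), (1 - x e))) := by
        rw [e1, e2]
        ring

theorem fkgIneq (h1 : Coupling) (h2 : Lattice) : FkgIneq := by
  classical
  intro E G _ _ hG bd D x hx hx1 P Q hP hQ
  obtain ⟨hsum, -, -, -, -, ⟨hZ, hW⟩, -⟩ := h1 E G hG bd D x hx hx1
  have hZ0 : 0 < Zp bd D x 0 := by linarith
  -- the four functions
  have key := Finset.four_functions_theorem D
    (f₁ := fun ω => if ω ⊆ D ∧ P ω then fkW bd D x ω else 0)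
    (f₂ := fun ω => if ω ⊆ D ∧ Q ω then fkW bd D x ω else 0)
    (f₃ := fun ω => if ω ⊆ D then fkW bd D x ω else 0)
    (f₄ := fun ω => if ω ⊆ D ∧ (P ω ∧ Q ω) then fkW bd D x ω else 0)
    (by
      intro ω
      change 0 ≤ if ω ⊆ D ∧ P ω then fkW bd D x ω else 0
      split_ifs with h
      · exact hW ω h.1
      · exact le_rfl)
    (by
      intro ω
      change 0 ≤ if ω ⊆ D ∧ Q ω then fkW bd D x ω else 0
      split_ifs with h
      · exact hW ω h.1
      · exact le_rfl)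
    (by
      intro ω
      change 0 ≤ if ω ⊆ D then fkW bd D x ω else 0
      split_ifs with h
      · exact hW ω h
      · exact le_rfl)
    (by
      intro ω
      change 0 ≤ if ω ⊆ D ∧ (P ω ∧ Q ω) then fkW bd D x ω else 0
      split_ifs with h
      · exact hW ω h.1
      · exact le_rfl)
    (by
      intro s hs t ht
      have hst : s ∩ t ⊆ D := Finset.inter_subset_left.trans hs
      have hst' : s ∪ t ⊆ D := Finset.union_subset hs ht
      have n3 := hW _ hst
      have n4 := hW _ hst'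
      by_cases hPs : P s
      · by_cases hQt : Q t
        · have hP' : P (s ∪ t) := hP s (s ∪ t) Finset.subset_union_left hst' hPs
          have hQ' : Q (s ∪ t) := hQ t (s ∪ t) Finset.subset_union_right hst' hQt
          simp only [hs, ht, hst, hst', hPs, hQt, hP', hQ', and_self, if_true]
          exact fkgIneq_lattice h2 hG bd D x hx hx1 s t hs ht
        · simp only [hQt, and_false, if_false, mul_zero]
          split_ifs <;> positivity
      · simp only [hPs, and_false, if_false, zero_mul]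
        split_ifs <;> positivity)
    (𝒜 := D.powerset) (ℬ := D.powerset) (Finset.Subset.refl _) (Finset.Subset.refl _)
  rw [Finset.powerset_infs_powerset_self, Finset.powerset_sups_powerset_self] at key
  have e : ∀ R : Finset E → Prop, ∑ ω ∈ D.powerset, (if ω ⊆ D ∧ R ω then fkW bd D x ω else 0) =
      fkP bd D x R * Zp bd D x 0 := by
    intro R
    unfold fkP fkE
    rw [div_mul_cancel₀ _ hZ0.ne']
    refine Finset.sum_congr rfl fun ω hω => ?_
    have hω' := Finset.mem_powerset.mp hω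
    by_cases h : R ω
    · simp [h, hω']
    · simp [h]
  have e3 : ∑ ω ∈ D.powerset, (if ω ⊆ D then fkW bd D x ω else 0) = Zp bd D x 0 := by
    rw [← hsum]
    refine Finset.sum_congr rfl fun ω hω => ?_
    rw [if_pos (Finset.mem_powerset.mp hω)]
  have e4 : ∑ ω ∈ D.powerset, (if ω ⊆ D ∧ (P ω ∧ Q ω) then fkW bd D x ω else 0) =
      fkP bd D x (fun ω => P ω ∧ Q ω) * Zp bd D x 0 := by
    rw [← e (fun ω => P ω ∧ Q ω)]
    refine Finset.sum_congr rfl fun ω _ => ?_
    by_cases h : ω ⊆ D ∧ (P ω ∧ Q ω)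
    · rw [if_pos h, if_pos h]
    · rw [if_neg h, if_neg h]
  rw [e P, e Q, e4, e3] at key
  have h3 : fkP bd D x P * fkP bd D x Q * (Zp bd D x 0 * Zp bd D x 0) ≤
      fkP bd D x (fun ω => P ω ∧ Q ω) * (Zp bd D x 0 * Zp bd D x 0) := by
    calc _ = fkP bd D x P * Zp bd D x 0 * (fkP bd D x Q * Zp bd D x 0) := by ring
      _ ≤ Zp bd D x 0 * (fkP bd D x (fun ω => P ω ∧ Q ω) * Zp bd D x 0) := key
      _ = _ := by ring
  exact le_of_mul_le_mul_right h3 (mul_pos hZ0 hZ0)

end Pool.Agent.Lib.MP_6d40c9_pr
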