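import Pool.Agent.Lib.MP_6d40c9_pr.SpecL
import Pool.Agent.Lib.MP_6d40c9_pr.CompFacts

/-!
# MP_6d40c9_pr: `InOddS`

The number of walls around a small ball is odd with positive probability, with some room: input of part M from the limit.
-/

set_option autoImplicit false

namespace Pool.Agent.Lib.MP_6d40c9_pr

open Finset MeasureTheory Filter Topology TopologicalSpace Metric
open scoped BigOperators

/-- Indicator (continuous) of the loops which are large and surround `z`. -/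
noncomputable def inOddJ (z : ℝ × ℝ) (a : ℝ) (K : LoopSp) : ℝ :=
  ramp (a / 2) (3 * a / 4) (infDist z (K.2 : Set (ℝ × ℝ))) *
    (1 - ramp (a / 2) a (diam (K.1 : Set (ℝ × ℝ))))

/-- Indicator (continuous) of the loops around `z` at distance larger than `r`. -/
noncomputable def inOddPhi (z : ℝ × ℝ) (a r l : ℝ) (K : LoopSp) : ℝ :=
  inOddJ z a K * (1 - ramp (r - l) (r + l) (infDist z (K.1 : Set (ℝ × ℝ))))

/-- Indicator (continuous) of the loops around `z` at distance about `r`. -/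
noncomputable def inOddPsi (z : ℝ × ℝ) (a b r l : ℝ) (K : LoopSp) : ℝ :=
  inOddJ z a K * (1 - ramp a (r - l) (infDist z (K.1 : Set (ℝ × ℝ)))) *
    ramp (r + l) b (infDist z (K.1 : Set (ℝ × ℝ)))

private lemma inOdd_contJ (h1 : StatFacts) (z : ℝ × ℝ) {a : ℝ} (ha : 0 < a) :
    Continuous (inOddJ z a) := by
  have c1 : Continuous (ramp (a / 2) (3 * a / 4)) := (h1.2.1 _ _ (by linarith)).1
  have c2 : Continuous (ramp (a / 2) a) := (h1.2.1 _ _ (by linarith)).1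
  have d1 : Continuous fun K : LoopSp => infDist z (K.2 : Set (ℝ × ℝ)) :=
    (h1.1.1 z).comp continuous_snd
  have d2 : Continuous fun K : LoopSp => diam (K.1 : Set (ℝ × ℝ)) := h1.1.2.comp continuous_fst
  exact (c1.comp d1).mul (continuous_const.sub (c2.comp d2))

private lemma inOdd_contI (h1 : StatFacts) (z : ℝ × ℝ) :
    Continuous fun K : LoopSp => infDist z (K.1 : Set (ℝ × ℝ)) :=
  (h1.1.1 z).comp continuous_fst

private lemma inOdd_J0 (h1 : StatFacts) (z : ℝ × ℝ) {a : ℝ} (ha : 0 < a) (K : LoopSp)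
    (hK : diam (K.1 : Set (ℝ × ℝ)) < a / 2) : inOddJ z a K = 0 := by
  have := (h1.2.1 (a / 2) a (by linarith)).2.2.1 _ hK.le
  simp [inOddJ, this]

private lemma inOdd_fnPhi (h1 : StatFacts) (z : ℝ × ℝ) {a r l : ℝ} (ha : 0 < a) (hl : 0 < l) :
    LoopFn (inOddPhi z a r l) := by
  refine ⟨?_, a / 2, by linarith, ?_⟩
  · have c1 : Continuous (ramp (r - l) (r + l)) := (h1.2.1 _ _ (by linarith)).1
    exact (inOdd_contJ h1 z ha).mul (continuous_const.sub (c1.comp (inOdd_contI h1 z)))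
  · intro K hK
    simp [inOddPhi, inOdd_J0 h1 z ha K hK]

private lemma inOdd_fnPsi (h1 : StatFacts) (z : ℝ × ℝ) {a b r l : ℝ} (ha : 0 < a)
    (hr : a < r - l) (hb : r + l < b) : LoopFn (inOddPsi z a b r l) := by
  refine ⟨?_, a / 2, by linarith, ?_⟩
  · have c1 : Continuous (ramp a (r - l)) := (h1.2.1 _ _ hr).1
    have c2 : Continuous (ramp (r + l) b) := (h1.2.1 _ _ hb).1
    exact ((inOdd_contJ h1 z ha).mul (continuous_const.sub (c1.comp (inOdd_contI h1 z)))).mul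
      (c2.comp (inOdd_contI h1 z))
  · intro K hK
    simp [inOddPsi, inOdd_J0 h1 z ha K hK]

private lemma inOdd_J1 (h1 : StatFacts) (z : ℝ × ℝ) {a : ℝ} (ha : 0 < a) (K : LoopSp)
    (hd : a ≤ diam (K.1 : Set (ℝ × ℝ))) (hi : infDist z (K.2 : Set (ℝ × ℝ)) = 0) :
    inOddJ z a K = 1 := by
  have e1 := (h1.2.1 (a / 2) a (by linarith)).2.2.2.1 _ hd
  have e2 := (h1.2.1 (a / 2) (3 * a / 4) (by linarith)).2.2.1
    (infDist z (K.2 : Set (ℝ × ℝ))) (by rw [hi]; linarith)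
  simp [inOddJ, e1, e2]

private lemma inOdd_J2 (h1 : StatFacts) (z : ℝ × ℝ) {a : ℝ} (ha : 0 < a) (K : LoopSp)
    (hi : 3 * a / 4 ≤ infDist z (K.2 : Set (ℝ × ℝ))) :
    inOddJ z a K = 0 := by
  have e2 := (h1.2.1 (a / 2) (3 * a / 4) (by linarith)).2.2.2.1 _ hi
  simp [inOddJ, e2]

/-- Some loop around `z` is separated from all the others. -/
private lemma inOdd_sep (h3 : FillFacts) (G : Set (NonemptyCompacts (ℝ × ℝ))) (z : ℝ × ℝ)
    (hfin : ∀ ρ > 0, {K ∈ G | ρ ≤ diam (K : Set (ℝ × ℝ))}.Finite)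
    (hdis : ∀ K ∈ G, ∀ K' ∈ G, K ≠ K' → Disjoint (K : Set (ℝ × ℝ)) (K' : Set (ℝ × ℝ)))
    (hconn : ∀ K ∈ G, 0 < diam (K : Set (ℝ × ℝ)) → IsConnected (K : Set (ℝ × ℝ)))
    (hnest : ∃ K ∈ G, z ∉ (K : Set (ℝ × ℝ)) ∧ z ∈ fill (K : Set (ℝ × ℝ))) :
    ∃ a b : ℚ, (0 : ℝ) < a ∧ (a : ℝ) < b ∧ ∃ K₁ ∈ G, z ∈ fill (K₁ : Set (ℝ × ℝ)) ∧
      (b : ℝ) < infDist z (K₁ : Set (ℝ × ℝ)) ∧
      ∀ K ∈ G, z ∈ fill (K : Set (ℝ × ℝ)) → (a : ℝ) < infDist z (K : Set (ℝ × ℝ)) → K = K₁ := by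
  obtain ⟨K₀, hK₀, hz₀, hf₀⟩ := hnest
  have key : ∀ K : NonemptyCompacts (ℝ × ℝ), z ∈ fill (K : Set (ℝ × ℝ)) → z ∉ (K : Set (ℝ × ℝ)) →
      0 < infDist z (K : Set (ℝ × ℝ)) ∧ infDist z (K : Set (ℝ × ℝ)) ≤ diam (K : Set (ℝ × ℝ)) :=
    fun K hf hz => h3.2.2.2.1 _ _ K.isCompact K.nonempty hf hz
  have ht₀ : 0 < infDist z (K₀ : Set (ℝ × ℝ)) := (key K₀ hf₀ hz₀).1
  set t₀ := infDist z (K₀ : Set (ℝ × ℝ)) with ht₀d
  set S : Set (NonemptyCompacts (ℝ × ℝ)) := {K | K ∈ G ∧ z ∈ fill (K : Set (ℝ × ℝ)) ∧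
    z ∉ (K : Set (ℝ × ℝ)) ∧ t₀ / 2 ≤ infDist z (K : Set (ℝ × ℝ))} with hS
  have hSfin : S.Finite := by
    refine (hfin (t₀ / 2) (by linarith)).subset ?_
    rintro K ⟨hG, hf, hz, ht⟩
    exact ⟨hG, ht.trans (key K hf hz).2⟩
  have hSne : S.Nonempty := ⟨K₀, hK₀, hf₀, hz₀, by linarith⟩
  obtain ⟨K₁, hK₁, hmax⟩ := Set.exists_max_image S
    (fun K : NonemptyCompacts (ℝ × ℝ) => infDist z (K : Set (ℝ × ℝ))) hSfin hSne
  have h01 : t₀ ≤ infDist z (K₁ : Set (ℝ × ℝ)) := hmax K₀ ⟨hK₀, hf₀, hz₀, by linarith⟩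
  have hlt : ∀ K ∈ S \ {K₁}, infDist z (K : Set (ℝ × ℝ)) < infDist z (K₁ : Set (ℝ × ℝ)) := by
    rintro K ⟨hK, hne⟩
    have hne' : K ≠ K₁ := hne
    refine lt_of_le_of_ne (hmax K hK) ?_
    obtain ⟨hG, hf, hz, ht⟩ := hK
    obtain ⟨hG1, hf1, hz1, ht1⟩ := hK₁
    have kK := key K hf hz
    have kK1 := key K₁ hf1 hz1
    exact h3.2.2.2.2 _ _ z K.isCompact K₁.isCompact (hconn K hG (by linarith [kK.1, kK.2]))
      (hconn K₁ hG1 (by linarith [kK1.1, kK1.2])) (hdis K hG K₁ hG1 hne') hf hz hf1 hz1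
  have hev : ∀ᶠ t in 𝓝[<] (infDist z (K₁ : Set (ℝ × ℝ))),
      (∀ K ∈ S \ {K₁}, infDist z (K : Set (ℝ × ℝ)) < t) ∧ t₀ / 2 < t ∧
        t < infDist z (K₁ : Set (ℝ × ℝ)) := by
    refine Filter.Eventually.and ?_ (Filter.Eventually.and ?_ ?_)
    · rw [Filter.eventually_all_finite (hSfin.subset Set.sdiff_subset)]
      intro K hK
      exact mem_nhdsWithin_of_mem_nhds (lt_mem_nhds (hlt K hK))
    · exact mem_nhdsWithin_of_mem_nhds (lt_mem_nhds (by linarith))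
    · exact self_mem_nhdsWithin
  obtain ⟨t, ht1, ht2, ht3⟩ := hev.exists
  obtain ⟨a, ha1, ha2⟩ := exists_rat_btwn ht3
  obtain ⟨b, hb1, hb2⟩ := exists_rat_btwn ha2
  refine ⟨a, b, by linarith, hb1, K₁, hK₁.1, hK₁.2.1, hb2, ?_⟩
  intro K hG hf ha
  by_contra hne
  have hz : z ∉ (K : Set (ℝ × ℝ)) := by
    intro hz
    have := infDist_zero_of_mem hz
    linarith
  have := ht1 K ⟨⟨hG, hf, hz, by linarith⟩, hne⟩
  linarith

/-- The values of the statistics when a loop is separated from the others. -/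
private lemma inOdd_stat (h1 : StatFacts) (h3 : FillFacts) (G : Set (NonemptyCompacts (ℝ × ℝ)))
    (z : ℝ × ℝ) (hfin : ∀ ρ > 0, {K ∈ G | ρ ≤ diam (K : Set (ℝ × ℝ))}.Finite) {a b r l : ℝ}
    (ha : 0 < a) (hl : 0 < l) (hr : a < r - l) (hb : r + l < b) (K₁ : NonemptyCompacts (ℝ × ℝ))
    (hK₁ : K₁ ∈ G) (hf₁ : z ∈ fill (K₁ : Set (ℝ × ℝ))) (hb₁ : b < infDist z (K₁ : Set (ℝ × ℝ)))
    (huniq : ∀ K ∈ G, z ∈ fill (K : Set (ℝ × ℝ)) → a < infDist z (K : Set (ℝ × ℝ)) → K = K₁) :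
    loopStat (inOddPhi z a r l) G = 1 ∧ loopStat (inOddPsi z a b r l) G = 0 := by
  have hz₁ : z ∉ (K₁ : Set (ℝ × ℝ)) := by
    intro hz
    have := infDist_zero_of_mem hz
    linarith
  have hd₁ := (h3.2.2.2.1 _ _ K₁.isCompact K₁.nonempty hf₁ hz₁).2
  have hJ₁ : inOddJ z a (K₁, toNC (fill (K₁ : Set (ℝ × ℝ)))) = 1 := by
    apply inOdd_J1 h1 z ha
    · show a ≤ diam (K₁ : Set (ℝ × ℝ))
      linarith
    · show infDist z ((toNC (fill (K₁ : Set (ℝ × ℝ))) : NonemptyCompacts (ℝ × ℝ)) : Set (ℝ × ℝ)) = 0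
      rw [h1.2.2.2.1]
      exact infDist_zero_of_mem hf₁
  have hcase : ∀ K ∈ G, K ≠ K₁ → inOddPhi z a r l (K, toNC (fill (K : Set (ℝ × ℝ)))) = 0 ∧
      inOddPsi z a b r l (K, toNC (fill (K : Set (ℝ × ℝ)))) = 0 := by
    intro K hK hne
    by_cases hle : infDist z (K : Set (ℝ × ℝ)) ≤ a
    · have e1 := (h1.2.1 (r - l) (r + l) (by linarith)).2.2.1 (infDist z (K : Set (ℝ × ℝ)))
        (by linarith)
      have e2 := (h1.2.1 a (r - l) (by linarith)).2.2.1 (infDist z (K : Set (ℝ × ℝ))) hle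
      constructor
      · simp [inOddPhi, e1]
      · simp [inOddPsi, e2]
    · push Not at hle
      have hJ : inOddJ z a (K, toNC (fill (K : Set (ℝ × ℝ)))) = 0 := by
        apply inOdd_J2 h1 z ha
        show 3 * a / 4 ≤ infDist z
          ((toNC (fill (K : Set (ℝ × ℝ))) : NonemptyCompacts (ℝ × ℝ)) : Set (ℝ × ℝ))
        rw [h1.2.2.2.1]
        rcases h3.2.2.1 (K : Set (ℝ × ℝ)) z a K.isCompact K.nonempty ha.le hle with h | h
        · exact absurd (huniq K hK h.1 hle) hne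
        · linarith [h.2]
      constructor
      · simp [inOddPhi, hJ]
      · simp [inOddPsi, hJ]
  have e1 := (h1.2.1 (r - l) (r + l) (by linarith)).2.2.2.1 (infDist z (K₁ : Set (ℝ × ℝ)))
    (by linarith)
  have e2 := (h1.2.1 (r + l) b hb).2.2.2.1 (infDist z (K₁ : Set (ℝ × ℝ))) (by linarith)
  have hphi₁ : inOddPhi z a r l (K₁, toNC (fill (K₁ : Set (ℝ × ℝ)))) = 1 := by
    simp [inOddPhi, hJ₁, e1]
  have hpsi₁ : inOddPsi z a b r l (K₁, toNC (fill (K₁ : Set (ℝ × ℝ)))) = 0 := by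
    simp [inOddPsi, e2]
  constructor
  · have := (h1.2.2.1 G hfin (inOddPhi z a r l) (inOdd_fnPhi h1 z ha hl)).2.2 (by
      intro K hK
      by_cases hne : K = K₁
      · right; rw [hne]; exact hphi₁
      · left; exact (hcase K hK hne).1)
    rw [this]
    have hset : {K ∈ G | inOddPhi z a r l (K, toNC (fill (K : Set (ℝ × ℝ)))) = 1} = {K₁} := by
      ext K
      constructor
      · rintro ⟨hK, h⟩
        by_contra hne
        rw [(hcase K hK hne).1] at h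
        exact zero_ne_one h
      · intro h
        have h' : K = K₁ := h
        rw [h']
        exact ⟨hK₁, hphi₁⟩
    rw [hset]
    simp
  · have := (h1.2.2.1 G hfin (inOddPsi z a b r l) (inOdd_fnPsi h1 z ha hr hb)).2.2 (by
      intro K hK
      by_cases hne : K = K₁
      · left; rw [hne]; exact hpsi₁
      · left; exact (hcase K hK hne).2)
    rw [this]
    have hset : {K ∈ G | inOddPsi z a b r l (K, toNC (fill (K : Set (ℝ × ℝ)))) = 1} = ∅ := by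
      ext K
      constructor
      · rintro ⟨hK, h⟩
        by_cases hne : K = K₁
        · rw [hne, hpsi₁] at h
          exact absurd h zero_ne_one
        · rw [(hcase K hK hne).2] at h
          exact absurd h zero_ne_one
      · intro h
        exact h.elim
    rw [hset]
    simp

/-- The lattice side. -/
private lemma inOdd_lat (h1 : StatFacts) (h4 : GapS) (h5 : GeoFacts) (z : ℝ × ℝ)
    {a b r l δ : ℝ} (ha : 0 < a) (hl : 0 < l) (hr : a < r - l) (hb : r + l < b) (hδ : 0 < δ)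
    (hδa : 8 * δ ≤ a) (w : Finset Edge) (hw : Even' w)
    (hphi : |wSt δ (inOddPhi z a r l) w - 1| < 1 / 4)
    (hpsi : |wSt δ (inOddPsi z a b r l) w| < 1 / 2) :
    (∀ k ∈ comps w, Odd (cnt k (ref δ z)) →
      infDist z (K1 δ k) ≤ r - l ∨ r + l ≤ infDist z (K1 δ k)) ∧
    ∀ F : Finset (Finset Edge), (∀ k, k ∈ F ↔ k ∈ comps w ∧ (r + l ≤ infDist z (K1 δ k) ∧
      Odd (cnt k (ref δ z)))) → Odd F.card := by
  have hne : ∀ k ∈ comps w, k.Nonempty := fun k hk => ((compFacts.1 w).1 k hk).2.1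
  have hev : ∀ k ∈ comps w, Even' k := compFacts.2.1 w hw
  have hK1 : ∀ k ∈ comps w, ((toNC (K1 δ k) : NonemptyCompacts (ℝ × ℝ)) : Set (ℝ × ℝ)) = K1 δ k :=
    fun k hk => (h1.2.2.2.2 δ w hδ hw k hk).1
  have hK2 : ∀ k ∈ comps w, ((toNC (K2 δ k) : NonemptyCompacts (ℝ × ℝ)) : Set (ℝ × ℝ)) = K2 δ k :=
    fun k hk => (h1.2.2.2.2 δ w hδ hw k hk).2.1
  -- the value of `J`
  have hJodd : ∀ k ∈ comps w, a < infDist z (K1 δ k) → Odd (cnt k (ref δ z)) →
      inOddJ z a (toNC (K1 δ k), toNC (K2 δ k)) = 1 := by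
    intro k hk hlt hodd
    have hno : ∀ e ∈ k, ¬ (seg δ e ∩ closedBall z a).Nonempty := by
      intro e he hne'
      exact absurd ((h5.2.1 δ a z k hδ (hne k hk)).2 ⟨e, he, hne'⟩) (not_le.2 hlt)
    have hdiam := (h5.2.2.2.1 δ a z k hδ (by linarith) (hev k hk) hno hodd).1
    apply inOdd_J1 h1 z ha
    · show a ≤ diam ((toNC (K1 δ k) : NonemptyCompacts (ℝ × ℝ)) : Set (ℝ × ℝ))
      rw [hK1 k hk]
      linarith
    · show infDist z ((toNC (K2 δ k) : NonemptyCompacts (ℝ × ℝ)) : Set (ℝ × ℝ)) = 0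
      rw [hK2 k hk]
      rcases h4 δ a z k hδ hδa (hev k hk) (hne k hk) hlt with h | h
      · exact h.2.1
      · exact absurd hodd (by rw [Nat.not_odd_iff_even]; exact h.1)
  have hJeven : ∀ k ∈ comps w, a < infDist z (K1 δ k) → ¬ Odd (cnt k (ref δ z)) →
      inOddJ z a (toNC (K1 δ k), toNC (K2 δ k)) = 0 := by
    intro k hk hlt hodd
    apply inOdd_J2 h1 z ha
    show 3 * a / 4 ≤ infDist z ((toNC (K2 δ k) : NonemptyCompacts (ℝ × ℝ)) : Set (ℝ × ℝ))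
    rw [hK2 k hk]
    rcases h4 δ a z k hδ hδa (hev k hk) (hne k hk) hlt with h | h
    · exact absurd h.1 hodd
    · linarith [h.2]
  have hJ01 : ∀ K : LoopSp, 0 ≤ inOddJ z a K := by
    intro K
    have e1 := ((h1.2.1 (a / 2) (3 * a / 4) (by linarith)).2.1 (infDist z (K.2 : Set (ℝ × ℝ)))).1
    have e2 := ((h1.2.1 (a / 2) a (by linarith)).2.1 (diam (K.1 : Set (ℝ × ℝ)))).2
    exact mul_nonneg e1 (by linarith)
  have hpsi0 : ∀ K : LoopSp, 0 ≤ inOddPsi z a b r l K := by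
    intro K
    have e1 := ((h1.2.1 a (r - l) (by linarith)).2.1 (infDist z (K.1 : Set (ℝ × ℝ)))).2
    have e2 := ((h1.2.1 (r + l) b (by linarith)).2.1 (infDist z (K.1 : Set (ℝ × ℝ)))).1
    exact mul_nonneg (mul_nonneg (hJ01 K) (by linarith)) e2
  have first : ∀ k ∈ comps w, Odd (cnt k (ref δ z)) →
      infDist z (K1 δ k) ≤ r - l ∨ r + l ≤ infDist z (K1 δ k) := by
    intro k hk hodd
    by_contra hcon
    push Not at hcon
    have hJ := hJodd k hk (by linarith [hcon.1]) hodd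
    have e1 := (h1.2.1 a (r - l) (by linarith)).2.2.2.1 (infDist z (K1 δ k)) hcon.1.le
    have e2 := (h1.2.1 (r + l) b (by linarith)).2.2.1 (infDist z (K1 δ k)) hcon.2.le
    have hone : inOddPsi z a b r l (toNC (K1 δ k), toNC (K2 δ k)) = 1 := by
      simp only [inOddPsi, hK1 k hk, hJ, e1, e2]
      norm_num
    have hle : inOddPsi z a b r l (toNC (K1 δ k), toNC (K2 δ k)) ≤
        wSt δ (inOddPsi z a b r l) w :=
      Finset.single_le_sum (f := fun c => inOddPsi z a b r l (toNC (K1 δ c), toNC (K2 δ c)))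
        (fun c _ => hpsi0 _) hk
    have := (abs_lt.1 hpsi).2
    linarith
  refine ⟨first, ?_⟩
  intro F hF
  have hsub : F ⊆ comps w := fun k hk => ((hF k).1 hk).1
  have hval : wSt δ (inOddPhi z a r l) w = (F.card : ℝ) := by
    unfold wSt
    rw [← Finset.sum_subset hsub]
    · rw [Finset.card_eq_sum_ones, Nat.cast_sum]
      refine Finset.sum_congr rfl fun k hk => ?_
      obtain ⟨hk', h2, hodd⟩ := (hF k).1 hk
      have hJ := hJodd k hk' (by linarith) hodd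
      have e1 := (h1.2.1 (r - l) (r + l) (by linarith)).2.2.2.1 (infDist z (K1 δ k)) h2
      simp [inOddPhi, hK1 k hk', hJ, e1]
    · intro k hk hnk
      by_cases hle : infDist z (K1 δ k) ≤ r - l
      · have e1 := (h1.2.1 (r - l) (r + l) (by linarith)).2.2.1 (infDist z (K1 δ k)) hle
        simp [inOddPhi, hK1 k hk, e1]
      · push Not at hle
        by_cases hodd : Odd (cnt k (ref δ z))
        · rcases first k hk hodd with h | h
          · linarith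
          · exact absurd ((hF k).2 ⟨hk, h, hodd⟩) hnk
        · have hJ := hJeven k hk (by linarith) hodd
          simp [inOddPhi, hJ]
  rw [hval] at hphi
  have h1c := abs_lt.1 hphi
  have hc1 : F.card = 1 := by
    have ha1 : (F.card : ℝ) < 2 := by linarith [h1c.2]
    have ha2 : (0 : ℝ) < F.card := by linarith [h1c.1]
    have ha3 : F.card < 2 := by exact_mod_cast ha1
    have ha4 : 0 < F.card := by exact_mod_cast ha2
    omega
  rw [hc1]
  exact odd_one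

theorem inOddS (h1 : StatFacts) (h2 : PortS) (h3 : FillFacts) (h4 : GapS) (h5 : GeoFacts)
    (h6 : LEFacts) (h7 : ConnS) : InOddS := by
  intro X _ P _ Ω σ Γ hLim
  obtain ⟨z, hz⟩ := hLim.ne
  -- almost surely, some loop is separated
  have hae : ∀ᵐ ω ∂P, (∀ ρ > 0, {K ∈ Γ ω | ρ ≤ Metric.diam (K : Set (ℝ × ℝ))}.Finite) ∧
      ∃ a b : ℚ, (0 : ℝ) < a ∧ (a : ℝ) < b ∧ ∃ K₁ ∈ Γ ω, z ∈ fill (K₁ : Set (ℝ × ℝ)) ∧
      (b : ℝ) < infDist z (K₁ : Set (ℝ × ℝ)) ∧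
      ∀ K ∈ Γ ω, z ∈ fill (K : Set (ℝ × ℝ)) → (a : ℝ) < infDist z (K : Set (ℝ × ℝ)) →
        K = K₁ := by
    filter_upwards [hLim.nest.finite, hLim.nest.disjoint, hLim.nest.nested z hz,
      h7 X P Ω σ Γ hLim] with ω g1 g2 g3 g4
    refine ⟨g1, inOdd_sep h3 (Γ ω) z g1 g2 g4 ?_⟩
    obtain ⟨K, hK, -, hzK, hfK⟩ := g3 1 one_pos
    exact ⟨K, hK, hzK, hfK⟩
  have hex : ∃ a b : ℚ, ¬ ∀ᵐ ω ∂P, ¬ ((∀ ρ > 0,
      {K ∈ Γ ω | ρ ≤ Metric.diam (K : Set (ℝ × ℝ))}.Finite) ∧ (0 : ℝ) < a ∧ (a : ℝ) < b ∧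
      ∃ K₁ ∈ Γ ω, z ∈ fill (K₁ : Set (ℝ × ℝ)) ∧ (b : ℝ) < infDist z (K₁ : Set (ℝ × ℝ)) ∧
      ∀ K ∈ Γ ω, z ∈ fill (K : Set (ℝ × ℝ)) → (a : ℝ) < infDist z (K : Set (ℝ × ℝ)) →
        K = K₁) := by
    by_contra hcon
    push Not at hcon
    have hall : ∀ᵐ ω ∂P, ∀ a b : ℚ, ¬ ((∀ ρ > 0,
      {K ∈ Γ ω | ρ ≤ Metric.diam (K : Set (ℝ × ℝ))}.Finite) ∧ (0 : ℝ) < a ∧ (a : ℝ) < b ∧
      ∃ K₁ ∈ Γ ω, z ∈ fill (K₁ : Set (ℝ × ℝ)) ∧ (b : ℝ) < infDist z (K₁ : Set (ℝ × ℝ)) ∧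
      ∀ K ∈ Γ ω, z ∈ fill (K : Set (ℝ × ℝ)) → (a : ℝ) < infDist z (K : Set (ℝ × ℝ)) →
        K = K₁) := by
      rw [ae_all_iff]
      intro a
      rw [ae_all_iff]
      intro b
      filter_upwards [hcon a b] with ω hω
      rintro ⟨g1, g2, g3, K₁, g4, g5, g6, g7⟩
      obtain ⟨K, k1, k2, k3, k4⟩ := hω g1 g2 g3 K₁ g4 g5 g6
      exact k4 (g7 K k1 k2 k3)
    obtain ⟨ω, hω1, hω2⟩ := (hae.and hall).exists
    obtain ⟨g1, a, b, g2, g3, g4⟩ := hω1
    exact hω2 a b ⟨g1, g2, g3, g4⟩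
  obtain ⟨a, b, hab⟩ := hex
  have hpos : (0 : ℝ) < a ∧ (a : ℝ) < b := by
    by_contra hcon
    apply hab
    filter_upwards with ω
    rintro ⟨-, g2, g3, -⟩
    exact hcon ⟨g2, g3⟩
  obtain ⟨ha, hab'⟩ := hpos
  set r : ℝ := ((a : ℝ) + b) / 2 with hr
  set l : ℝ := ((b : ℝ) - a) / 4 with hl
  have hl0 : 0 < l := by rw [hl]; linarith
  have hr1 : (a : ℝ) < r - l := by rw [hr, hl]; linarith
  have hr2 : r + l < b := by rw [hr, hl]; linarith
  -- the two statistics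
  set φ : Fin 2 → LoopSp → ℝ := ![inOddPhi z a r l, inOddPsi z a b r l] with hφ
  have hφfn : ∀ j, LoopFn (φ j) := by
    intro j
    fin_cases j
    · exact inOdd_fnPhi h1 z ha hl0
    · exact inOdd_fnPsi h1 z ha hr1 hr2
  set Y : X → (Fin 2 → ℝ) := fun ω j => loopStat (φ j) (Γ ω) with hY
  have hYm : Measurable Y := measurable_pi_iff.2 fun j => hLim.measW (φ j) (hφfn j)
  set O : Set (Fin 2 → ℝ) := {y | |y 0 - 1| < 1 / 4 ∧ |y 1| < 1 / 2} with hO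
  have hOo : IsOpen O := by
    refine IsOpen.inter ?_ ?_
    · exact isOpen_lt ((continuous_apply 0).sub continuous_const).abs continuous_const
    · exact isOpen_lt (continuous_apply 1).abs continuous_const
  have hPpos : 0 < P.real {ω | Y ω ∈ O} := by
    rcases lt_or_eq_of_le (measureReal_nonneg (μ := P) (s := {ω | Y ω ∈ O})) with h | h
    · exact h
    · exfalso
      apply hab
      have h0 : P {ω | Y ω ∈ O} = 0 := by
        have := h.symm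
        rwa [measureReal_eq_zero_iff] at this
      have h0' : ∀ᵐ ω ∂P, ¬ Y ω ∈ O := by
        rw [ae_iff]
        simpa using h0
      filter_upwards [h0'] with ω hω
      rintro ⟨g1, -, -, K₁, g4, g5, g6, g7⟩
      apply hω
      have hst := inOdd_stat h1 h3 (Γ ω) z g1 ha hl0 hr1 hr2 K₁ g4 g5 g6 g7
      refine ⟨?_, ?_⟩
      · show |loopStat (inOddPhi z a r l) (Γ ω) - 1| < 1 / 4
        rw [hst.1]
        norm_num
      · show |loopStat (inOddPsi z a b r l) (Γ ω)| < 1 / 2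
        rw [hst.2]
        norm_num
  set c : ℝ := P.real {ω | Y ω ∈ O} / 2 with hc
  have hc0 : 0 < c := by rw [hc]; linarith
  obtain ⟨δ₀, hδ₀, hport⟩ := (h2 X P Ω 2 (fun δ w j => wSt δ (φ j) w) Y hYm
    (fun H hH hHb => hLim.cvW 2 φ hφfn H hH hHb)).2 O hOo c hc0
  refine ⟨z, r, l, c, min δ₀ (a / 8), hl0, by linarith, hc0, lt_min hδ₀ (by linarith), ?_⟩
  intro δ hδ hδlt
  have hd1 : δ < δ₀ := lt_of_lt_of_le hδlt (min_le_left _ _)
  have hd2 : δ < a / 8 := lt_of_lt_of_le hδlt (min_le_right _ _)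
  have hP := hport δ hδ hd1
  have hmono := (h6.2.2.2.2.2.2 (DD Ω δ)
    (fun w => (fun j => wSt δ (φ j) w) ∈ O)
    (fun w =>
      Odd ((comps w).filter fun k => r + l ≤ Metric.infDist z (K1 δ k) ∧
        Odd (cnt k (ref δ z))).card ∧
      ∀ k ∈ comps w, Odd (cnt k (ref δ z)) →
        Metric.infDist z (K1 δ k) ≤ r - l ∨ r + l ≤ Metric.infDist z (K1 δ k))
    (by
      intro w _ hw hwO
      have q1 : |wSt δ (inOddPhi z a r l) w - 1| < 1 / 4 := hwO.1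
      have q2 : |wSt δ (inOddPsi z a b r l) w| < 1 / 2 := hwO.2
      obtain ⟨g1, g2⟩ := inOdd_lat h1 h4 h5 z ha hl0 hr1 hr2 hδ (by linarith) w hw q1 q2
      refine ⟨g2 _ ?_, g1⟩
      intro k
      rw [Finset.mem_filter])).2.1
  have : c ≤ P.real {ω | Y ω ∈ O} - c := by rw [hc]; linarith
  exact this.trans (hP.trans hmono)

end Pool.Agent.Lib.MP_6d40c9_pr
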