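import Pool.Agent.Lib.MP_6d40c9_pr.SpecK

/-!
# The product of two partition functions as a sum over open sets (statement `PairSum`)
-/

set_option autoImplicit false

namespace Pool.Agent.Lib.MP_6d40c9_pr

open Finset
open scoped BigOperators symmDiff

/-- The sum over the open sets which contain both `η₁` and `η₂`. -/
private theorem pairSum_key {E : Type} [DecidableEq E] (D : Finset E) (x : E → ℝ)
    (η₁ η₂ : Finset E) (h₁ : η₁ ⊆ D) (h₂ : η₂ ⊆ D) :
    ∑ O ∈ D.powerset, (if η₁ ⊆ O ∧ η₂ ⊆ O then pW D x O (η₁ ∆ η₂) else 0) =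
      (∏ e ∈ η₁, x e) * ∏ e ∈ η₂, x e := by
  classical
  have hprod := Finset.prod_add (fun e => if e ∈ η₁ ∆ η₂ then x e else x e ^ 2)
    (fun e => if e ∈ η₁ ∨ e ∈ η₂ then (0 : ℝ) else 1 - x e ^ 2) D
  have hl : ∏ e ∈ D, ((if e ∈ η₁ ∆ η₂ then x e else x e ^ 2) +
      (if e ∈ η₁ ∨ e ∈ η₂ then (0 : ℝ) else 1 - x e ^ 2)) =
      (∏ e ∈ η₁, x e) * ∏ e ∈ η₂, x e := by
    have e1 : ∏ e ∈ η₁, x e = ∏ e ∈ D, (if e ∈ η₁ then x e else 1) := by
      rw [Finset.prod_ite_mem, Finset.inter_eq_right.mpr h₁]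
    have e2 : ∏ e ∈ η₂, x e = ∏ e ∈ D, (if e ∈ η₂ then x e else 1) := by
      rw [Finset.prod_ite_mem, Finset.inter_eq_right.mpr h₂]
    rw [e1, e2, ← Finset.prod_mul_distrib]
    refine Finset.prod_congr rfl fun e _ => ?_
    by_cases a : e ∈ η₁ <;> by_cases b : e ∈ η₂ <;>
      simp [a, b, Finset.mem_symmDiff, pow_two]
  rw [hl] at hprod
  rw [hprod]
  refine Finset.sum_congr rfl fun O _ => ?_
  by_cases hO : η₁ ⊆ O ∧ η₂ ⊆ O
  · rw [if_pos hO, pW]
    congr 1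
    refine Finset.prod_congr rfl fun e he => ?_
    have he' := (Finset.mem_sdiff.mp he).2
    have : ¬ (e ∈ η₁ ∨ e ∈ η₂) := by
      rintro (h | h)
      · exact he' (hO.1 h)
      · exact he' (hO.2 h)
    rw [if_neg this]
  · rw [if_neg hO]
    have : ∃ e ∈ D \ O, e ∈ η₁ ∨ e ∈ η₂ := by
      by_contra hcon
      push Not at hcon
      apply hO
      constructor
      · intro e he
        by_contra hne
        exact (hcon e (Finset.mem_sdiff.mpr ⟨h₁ he, hne⟩)).1 he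
      · intro e he
        by_contra hne
        exact (hcon e (Finset.mem_sdiff.mpr ⟨h₂ he, hne⟩)).2 he
    obtain ⟨e, heD, he⟩ := this
    rw [Finset.prod_eq_zero heD (by rw [if_pos he]), mul_zero]

theorem pairSum : PairSum := by
  classical
  intro E G _ _ bd D x χ f g
  have hR : ∀ O ∈ D.powerset, aO bd D x χ O f g =
      ∑ η₁ ∈ D.powerset, ∑ η₂ ∈ D.powerset,
        (if bdy bd η₁ = f ∧ bdy bd η₂ = g then (∏ e ∈ η₁, χ e) *
          (if η₁ ⊆ O ∧ η₂ ⊆ O then pW D x O (η₁ ∆ η₂) else 0) else 0) := by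
    intro O hO
    have hOD := Finset.mem_powerset.mp hO
    have hsub : O.powerset ⊆ D.powerset := Finset.powerset_mono.mpr hOD
    rw [aO]
    have step1 : ∀ η₁ ∈ O.powerset, (∑ η₂ ∈ O.powerset,
        if bdy bd η₁ = f ∧ bdy bd η₂ = g then (∏ e ∈ η₁, χ e) * pW D x O (η₁ ∆ η₂) else 0) =
        ∑ η₂ ∈ D.powerset,
        (if bdy bd η₁ = f ∧ bdy bd η₂ = g then (∏ e ∈ η₁, χ e) *
          (if η₁ ⊆ O ∧ η₂ ⊆ O then pW D x O (η₁ ∆ η₂) else 0) else 0) := by
      intro η₁ h1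
      have h1' := Finset.mem_powerset.mp h1
      rw [← Finset.sum_subset hsub]
      · refine Finset.sum_congr rfl fun η₂ h2 => ?_
        have h2' := Finset.mem_powerset.mp h2
        rw [if_pos (show η₁ ⊆ O ∧ η₂ ⊆ O from ⟨h1', h2'⟩)]
      · intro η₂ _ h2
        have : ¬ (η₁ ⊆ O ∧ η₂ ⊆ O) := fun h => h2 (Finset.mem_powerset.mpr h.2)
        simp [this]
    rw [Finset.sum_congr rfl step1]
    refine Finset.sum_subset hsub fun η₁ _ h1 => ?_
    refine Finset.sum_eq_zero fun η₂ _ => ?_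
    have : ¬ (η₁ ⊆ O ∧ η₂ ⊆ O) := fun h => h1 (Finset.mem_powerset.mpr h.1)
    simp [this]
  rw [Finset.sum_congr rfl hR, Finset.sum_comm]
  rw [Zp, Zp, Finset.sum_mul_sum]
  refine Finset.sum_congr rfl fun η₁ h1 => ?_
  rw [Finset.sum_comm]
  refine Finset.sum_congr rfl fun η₂ h2 => ?_
  have key := pairSum_key D x η₁ η₂ (Finset.mem_powerset.mp h1) (Finset.mem_powerset.mp h2)
  by_cases c1 : bdy bd η₁ = f
  · by_cases c2 : bdy bd η₂ = g
    · simp only [c1, c2, and_self, if_true]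
      rw [← Finset.mul_sum, key, Finset.prod_mul_distrib]
      ring
    · simp [c2]
  · simp [c1]

end Pool.Agent.Lib.MP_6d40c9_pr
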