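import Pool.Agent.Lib.MP_6d40c9_pr.SpecG

/-!
# Connectivity in graph terms
-/

set_option autoImplicit false

namespace Pool.Agent.Lib.MP_6d40c9_pr

open Finset
open scoped BigOperators symmDiff

namespace ReachFactsAux

theorem two (x : Pt → ZMod 2) : x + x = 0 := by
  funext v
  exact CharTwo.add_self_eq_zero (x v)

theorem bdy_symm (bd : Edge → Pt → ZMod 2) (A B : Finset Edge) :
    bdy bd (A ∆ B) = bdy bd A + bdy bd B := by
  have hA : bdy bd A = bdy bd (A \ B) + bdy bd (A ∩ B) := by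
    rw [bdy, bdy, bdy, ← sum_union (disjoint_sdiff_inter A B), sdiff_union_inter]
  have hB : bdy bd B = bdy bd (B \ A) + bdy bd (A ∩ B) := by
    rw [bdy, bdy, bdy, inter_comm, ← sum_union (disjoint_sdiff_inter B A), sdiff_union_inter]
  have hAB : bdy bd (A ∆ B) = bdy bd (A \ B) + bdy bd (B \ A) := by
    rw [symmDiff_def, sup_eq_union, bdy, bdy, bdy, sum_union]
    exact disjoint_sdiff_sdiff
  rw [hA, hB, hAB]
  have h := two (bdy bd (A ∩ B))
  calc bdy bd (A \ B) + bdy bd (B \ A) =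
      bdy bd (A \ B) + bdy bd (B \ A) + (bdy bd (A ∩ B) + bdy bd (A ∩ B)) := by rw [h, add_zero]
    _ = _ := by abel

theorem bdy_apply (bd : Edge → Pt → ZMod 2) (γ : Finset Edge) (v : Pt) :
    bdy bd γ v = ∑ e ∈ γ, bd e v := by
  rw [bdy, Finset.sum_apply]

theorem bdyR (Λ : Finset Pt) (γ : Finset Edge) (v : Pt) :
    bdy (bdR Λ) γ v = if v ∈ Λ then bdy bdV γ v else 0 := by
  rw [bdy_apply, bdy_apply]
  by_cases h : v ∈ Λ
  · simp [bdR, h]
  · simp [bdR, h]

theorem sum_pt (S : Finset Pt) (a : Pt) : ∑ v ∈ S, pt a v = if a ∈ S then 1 else 0 := by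
  simp [pt, Pi.single_apply]

theorem sum_bdy (S : Finset Pt) (γ : Finset Edge) (h : ∀ e ∈ γ, src e ∈ S ↔ tgt e ∈ S) :
    ∑ v ∈ S, bdy bdV γ v = 0 := by
  simp only [bdy_apply]
  rw [sum_comm]
  apply sum_eq_zero
  intro e he
  have h1 : ∀ v, bdV e v = pt (src e) v + pt (tgt e) v := fun v => rfl
  simp only [h1]
  rw [sum_add_distrib, sum_pt, sum_pt]
  by_cases h2 : src e ∈ S
  · rw [if_pos h2, if_pos ((h e he).1 h2)]
    rfl
  · rw [if_neg h2, if_neg (fun h3 => h2 ((h e he).2 h3))]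
    rfl

theorem reach_step {ω : Finset Edge} {a : Pt} {e : Edge} (he : e ∈ ω) :
    Reach ω a (src e) ↔ Reach ω a (tgt e) :=
  ⟨fun h => h.tail ⟨e, he, Or.inl ⟨rfl, rfl⟩⟩, fun h => h.tail ⟨e, he, Or.inr ⟨rfl, rfl⟩⟩⟩

theorem rr (ω : Finset Edge) (a : Pt) : Reach ω a a := Relation.ReflTransGen.refl

theorem reach_symm {ω : Finset Edge} {a b : Pt} (h : Reach ω a b) : Reach ω b a := by
  induction h with
  | refl => exact Relation.ReflTransGen.refl
  | tail _ hs ih =>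
    obtain ⟨e, he, hs⟩ := hs
    refine Relation.ReflTransGen.head ⟨e, he, ?_⟩ ih
    rcases hs with ⟨h1, h2⟩ | ⟨h1, h2⟩
    · exact Or.inr ⟨h1, h2⟩
    · exact Or.inl ⟨h1, h2⟩

theorem one (ω : Finset Edge) (a b : Pt) : Conn bdV ω (pt a + pt b) ↔ Reach ω a b := by
  classical
  constructor
  · rintro ⟨γ, hγ, h⟩
    set K : Finset Pt := insert a (insert b (γ.image src ∪ γ.image tgt)) with hK
    set S := K.filter (fun v => Reach ω a v) with hS
    have hmem : ∀ v, v ∈ S ↔ v ∈ K ∧ Reach ω a v := fun v => by rw [hS, mem_filter]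
    have h1 := sum_bdy S γ (fun e he => by
      have hs : src e ∈ K := by
        rw [hK]
        exact mem_insert_of_mem (mem_insert_of_mem (mem_union_left _ (mem_image_of_mem _ he)))
      have ht : tgt e ∈ K := by
        rw [hK]
        exact mem_insert_of_mem (mem_insert_of_mem (mem_union_right _ (mem_image_of_mem _ he)))
      rw [hmem, hmem, reach_step (hγ he)]
      simp [hs, ht])
    rw [h] at h1
    simp only [Pi.add_apply] at h1
    rw [sum_add_distrib, sum_pt, sum_pt, if_pos] at h1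
    · by_contra hb
      rw [if_neg, add_zero] at h1
      · exact one_ne_zero h1
      · rw [hmem]
        exact fun h2 => hb h2.2
    · rw [hmem]
      exact ⟨by rw [hK]; exact mem_insert_self _ _, Relation.ReflTransGen.refl⟩
  · intro h
    induction h with
    | refl => exact ⟨∅, empty_subset _, by rw [two]; simp [bdy]⟩
    | @tail b c _ hs ih =>
      obtain ⟨γ, hγ, h1⟩ := ih
      obtain ⟨e, he, hs⟩ := hs
      refine ⟨γ ∆ {e}, ?_, ?_⟩
      · rw [symmDiff_def, sup_eq_union]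
        exact union_subset (sdiff_subset.trans hγ) (sdiff_subset.trans (singleton_subset_iff.2 he))
      · rw [bdy_symm, h1]
        have h2 : bdy bdV {e} = pt b + pt c := by
          rw [bdy, sum_singleton]
          rcases hs with ⟨h3, h4⟩ | ⟨h3, h4⟩
          · rw [← h3, ← h4]
            rfl
          · rw [← h3, ← h4, add_comm]
            rfl
        rw [h2]
        calc pt a + pt b + (pt b + pt c) = pt a + pt c + (pt b + pt b) := by abel
          _ = pt a + pt c := by rw [two, add_zero]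

/-- Summation over a closed subset of `Λ`. -/
theorem closed {Λ : Finset Pt} {ω γ : Finset Edge} {f : Pt → ZMod 2} (hγ : γ ⊆ ω)
    (h : bdy (bdR Λ) γ = f) (C : Pt → Prop) [DecidablePred C] (hC : ∀ v, C v → v ∈ Λ)
    (hcl : ∀ e ∈ ω, C (src e) ↔ C (tgt e)) : ∑ v ∈ Λ.filter C, f v = 0 := by
  have h1 := sum_bdy (Λ.filter C) γ (fun e he => by
    rw [mem_filter, mem_filter]
    have := hcl e (hγ he)
    constructor
    · rintro ⟨_, h2⟩
      exact ⟨hC _ (this.1 h2), this.1 h2⟩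
    · rintro ⟨_, h2⟩
      exact ⟨hC _ (this.2 h2), this.2 h2⟩)
  rw [← h1, ← h]
  apply sum_congr rfl
  intro v hv
  rw [bdyR, if_pos (mem_filter.1 hv).1]

theorem sum_ptC {Λ : Finset Pt} (C : Pt → Prop) [DecidablePred C] (a : Pt) (ha : a ∈ Λ) :
    ∑ v ∈ Λ.filter C, pt a v = if C a then 1 else 0 := by
  rw [sum_pt]
  simp [ha]

theorem conn_symm {bd : Edge → Pt → ZMod 2} {ω : Finset Edge} {f g : Pt → ZMod 2}
    (hf : Conn bd ω f) (hg : Conn bd ω g) : Conn bd ω (f + g) := by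
  obtain ⟨γ, hγ, h1⟩ := hf
  obtain ⟨γ', hγ', h2⟩ := hg
  refine ⟨γ ∆ γ', ?_, ?_⟩
  · rw [symmDiff_def, sup_eq_union]
    exact union_subset (sdiff_subset.trans hγ) (sdiff_subset.trans hγ')
  · rw [bdy_symm, h1, h2]

theorem pt_out {Λ : Finset Pt} {a v : Pt} (ha : a ∉ Λ) (hv : v ∈ Λ) : pt a v = 0 := by
  rw [pt, Pi.single_eq_of_ne]
  rintro rfl
  exact ha hv

theorem pt_in {Λ : Finset Pt} {a v : Pt} (ha : a ∈ Λ) (hv : v ∉ Λ) : pt a v = 0 := by
  rw [pt, Pi.single_eq_of_ne]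
  rintro rfl
  exact hv ha

theorem out_conn {Λ : Finset Pt} {ω : Finset Edge} {a : Pt} (ha : a ∈ Λ)
    (h : ∃ b, b ∉ Λ ∧ Reach ω a b) : Conn (bdR Λ) ω (pt a) := by
  obtain ⟨b, hb, h⟩ := h
  obtain ⟨γ, hγ, h1⟩ := (one ω a b).2 h
  refine ⟨γ, hγ, ?_⟩
  funext v
  rw [bdyR]
  by_cases hv : v ∈ Λ
  · rw [if_pos hv, h1, Pi.add_apply, pt_out hb hv, add_zero]
  · rw [if_neg hv, pt_in ha hv]

theorem in_conn {Λ : Finset Pt} {ω : Finset Edge} {a b : Pt} (ha : a ∈ Λ) (hb : b ∈ Λ)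
    (h : Reach ω a b) : Conn (bdR Λ) ω (pt a + pt b) := by
  obtain ⟨γ, hγ, h1⟩ := (one ω a b).2 h
  refine ⟨γ, hγ, ?_⟩
  funext v
  rw [bdyR]
  by_cases hv : v ∈ Λ
  · rw [if_pos hv, h1]
  · rw [if_neg hv, Pi.add_apply, pt_in ha hv, pt_in hb hv, add_zero]

theorem three (Λ : Finset Pt) (ω : Finset Edge) (a b : Pt) (ha : a ∈ Λ) (hb : b ∈ Λ) :
    (Conn (bdR Λ) ω (pt a + pt b) ↔
      Reach ω a b ∨ ((∃ c, c ∉ Λ ∧ Reach ω a c) ∧ ∃ c, c ∉ Λ ∧ Reach ω b c)) := by
  classical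
  constructor
  · rintro ⟨γ, hγ, h⟩
    by_contra hcon
    push Not at hcon
    obtain ⟨h1, h2⟩ := hcon
    by_cases h3 : ∃ c, c ∉ Λ ∧ Reach ω a c
    · have h4 := h2 h3
      have h5 := closed hγ h (fun v => Reach ω b v)
        (fun v hv => by by_contra hv'; exact h4 v hv' hv) (fun e he => reach_step he)
      simp only [Pi.add_apply] at h5
      rw [sum_add_distrib, sum_ptC _ _ ha, sum_ptC _ _ hb,
        if_neg (fun h => h1 (reach_symm h)), if_pos (rr ω b), zero_add] at h5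
      exact one_ne_zero h5
    · push Not at h3
      have h5 := closed hγ h (fun v => Reach ω a v)
        (fun v hv => by by_contra hv'; exact h3 v hv' hv) (fun e he => reach_step he)
      simp only [Pi.add_apply] at h5
      rw [sum_add_distrib, sum_ptC _ _ ha, sum_ptC _ _ hb,
        if_neg h1, if_pos (rr ω a), add_zero] at h5
      exact one_ne_zero h5
  · rintro (h | ⟨h1, h2⟩)
    · exact in_conn ha hb h
    · exact conn_symm (out_conn ha h1) (out_conn hb h2)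

theorem four (Λ : Finset Pt) (ω : Finset Edge) (a₁ a₂ a₃ a₄ : Pt) (h₁ : a₁ ∈ Λ) (h₂ : a₂ ∈ Λ)
    (h₃ : a₃ ∈ Λ) (h₄ : a₄ ∈ Λ) (hc : Conn (bdR Λ) ω (pt a₁ + pt a₂ + pt a₃ + pt a₄)) :
    Conn (bdR Λ) ω (pt a₃ + pt a₄) ∨ Conn (bdR Λ) ω (pt a₂ + pt a₄) ∨
      Conn (bdR Λ) ω (pt a₁ + pt a₄) := by
  classical
  rw [three Λ ω a₃ a₄ h₃ h₄, three Λ ω a₂ a₄ h₂ h₄, three Λ ω a₁ a₄ h₁ h₄]
  by_contra hcon
  rw [not_or, not_or, not_or, not_or, not_or, not_and, not_and, not_and] at hcon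
  obtain ⟨⟨n3, o3⟩, ⟨n2, o2⟩, ⟨n1, o1⟩⟩ := hcon
  obtain ⟨γ, hγ, h⟩ := hc
  by_cases h4 : ∃ c, c ∉ Λ ∧ Reach ω a₄ c
  · have p3 : ¬ ∃ c, c ∉ Λ ∧ Reach ω a₃ c := fun hh => o3 hh h4
    have p2 : ¬ ∃ c, c ∉ Λ ∧ Reach ω a₂ c := fun hh => o2 hh h4
    have p1 : ¬ ∃ c, c ∉ Λ ∧ Reach ω a₁ c := fun hh => o1 hh h4
    have h5 := closed hγ h (fun v => Reach ω a₁ v ∨ Reach ω a₂ v ∨ Reach ω a₃ v)
      (fun v hv => by
        by_contra hv'
        rcases hv with hv | hv | hv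
        · exact p1 ⟨v, hv', hv⟩
        · exact p2 ⟨v, hv', hv⟩
        · exact p3 ⟨v, hv', hv⟩)
      (fun e he => by rw [reach_step he, reach_step he, reach_step he])
    simp only [Pi.add_apply] at h5
    rw [sum_add_distrib, sum_add_distrib, sum_add_distrib, sum_ptC _ _ h₁, sum_ptC _ _ h₂,
      sum_ptC _ _ h₃, sum_ptC _ _ h₄, if_pos (Or.inl (rr ω a₁)),
      if_pos (Or.inr (Or.inl (rr ω a₂))),
      if_pos (Or.inr (Or.inr (rr ω a₃))), if_neg] at h5
    · revert h5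
      decide
    · rintro (hh | hh | hh)
      · exact n1 hh
      · exact n2 hh
      · exact n3 hh
  · have h5 := closed hγ h (fun v => Reach ω a₄ v)
      (fun v hv => by by_contra hv'; exact h4 ⟨v, hv', hv⟩) (fun e he => reach_step he)
    simp only [Pi.add_apply] at h5
    rw [sum_add_distrib, sum_add_distrib, sum_add_distrib, sum_ptC _ _ h₁, sum_ptC _ _ h₂,
      sum_ptC _ _ h₃, sum_ptC _ _ h₄, if_neg (fun hh => n1 (reach_symm hh)),
      if_neg (fun hh => n2 (reach_symm hh)), if_neg (fun hh => n3 (reach_symm hh)),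
      if_pos (rr ω a₄)] at h5
    revert h5
    decide

end ReachFactsAux

open ReachFactsAux

theorem reachFacts : ReachFacts := by
  classical
  refine ⟨one, ?_, three, four, ?_⟩
  · intro Λ ω a ha
    constructor
    · rintro ⟨γ, hγ, h⟩
      by_contra hcon
      have h5 := closed hγ h (fun v => Reach ω a v)
        (fun v hv => by by_contra hv'; exact hcon ⟨v, hv', hv⟩) (fun e he => reach_step he)
      rw [sum_ptC _ _ ha, if_pos (rr ω a)] at h5
      exact one_ne_zero h5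
    · exact out_conn ha
  · intro Λ η hη
    funext v
    rw [bdyR]
    have h1 : bdy bdV η = 0 := hη
    rw [h1]
    simp

end Pool.Agent.Lib.MP_6d40c9_pr
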