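import Pool.Agent.Lib.MP_6d40c9_pr.SpecK

/-!
# Statements of part G (the square grid)

Conventions as in `SpecK.lean`. Corners and faces are points of `ℤ × ℤ`, the face `v` is the unit square with lower left
corner `v`.
-/

set_option autoImplicit false

namespace Pool.Agent.Lib.MP_6d40c9_pr

open Finset
open scoped BigOperators symmDiff

/-- Crossing parity. PROOF of 1. Horizontal edge `((i, j), false)`: its faces are `(i, j)` and `(i, j - 1)`, and
`cnt w (i, j - 1) - cnt w (i, j)` is `1` or `0` according to whether the edge is in `w`. Vertical edge `((i, j), true)`, faces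
`(i, j)`, `(i - 1, j)`: modulo two, evenness at the corner `(i, k)` says `h(i,k) + h(i-1,k) + v(i,k) + v(i,k-1) = 0` (`h`, `v`
the indicators of horizontal and vertical edges of `w`); sum over `k > j` (finite support): the left side gives
`cnt w (i, j) + cnt w (i - 1, j) + ∑_{k>j} (v(i,k) + v(i,k-1)) = cnt w (i, j) + cnt w (i - 1, j) + v(i,j)` modulo two.
2. `Even'`: a corner has four faces around it, and the number of the four edges between consecutive ones which separate `A` from
the complement is even; `walls A ⊆ LF A` by definition; the parity of `cnt (walls A) u` by telescoping up the column of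
`u` (far above no face is in `A`). 3. `bdy` of a symmetric difference, and `cnt (w ∆ w') u ≡ cnt w u + cnt w' u` modulo two.
4. By 1 `w` is determined by the parities. 5. As `BoxSimp`: outside the box the parity does not change between adjacent faces
(the edge between them is not in `EB (box z m)`) and it is `0` far away; faces to the right, left, above are clear
(`cnt = 0`); below the box move to the left.
THEOREM: `theorem gridFacts : GridFacts` in `GridFacts.lean`. -/
def GridFacts : Prop :=
  (∀ w : Finset Edge, Even' w → ∀ e : Edge, (Odd (cnt w (fa e) + cnt w (fb e)) ↔ e ∈ w)) ∧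
  (∀ A : Finset Pt, Even' (walls A) ∧ walls A ⊆ LF A ∧ ∀ u, (Odd (cnt (walls A) u) ↔ u ∈ A)) ∧
  (∀ w w' : Finset Edge, (Even' w → Even' w' → Even' (w ∆ w')) ∧
    ∀ u, sgn (w ∆ w') u = sgn w u * sgn w' u) ∧
  (∀ w w' : Finset Edge, Even' w → Even' w' → (∀ u, Even (cnt w u) ↔ Even (cnt w' u)) → w = w') ∧
  (∀ (w : Finset Edge) (z : Pt) (m : ℕ), Even' w → w ⊆ EB (box z m) → ∀ u, u ∉ box z m →
    Even (cnt w u))

/-- PROOF. 1. Let `w ⊆ LF (box z n)` be even and `u` a face outside the box. By `GridFacts` 1 the parity of `cnt w` is the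
same for two adjacent faces outside the box (the edge between them is not in `LF (box z n)`). Move from `u` away from the box
(to the right if `u.1 > z.1 + n`, and so on); far away `cnt w = 0` on the right, left and above; if `u` is below the box go down first
and then to the right. 2. Two boxes at distance `≥ 2`: the corners of the edges of `LF (box z n)` and of `LF (box z' n')`
are disjoint sets (first or second coordinates are separated), so `w ∩ LF (box z n)` and `w ∩ LF (box z' n')` are even and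
disjoint with union `w`; `cnt w u` is the sum of the two counts; apply 1 twice.
THEOREM: `theorem boxSimp (h : GridFacts) : BoxSimp` in `BoxSimp.lean`. -/
def BoxSimp : Prop :=
  (∀ (z : Pt) (n : ℕ), Simp (box z n)) ∧
  (∀ (z z' : Pt) (n n' : ℕ), n + n' + 2 ≤ ldist z z' → Simp (box z n ∪ box z' n') ∧
    Disjoint (LF (box z n)) (LF (box z' n')) ∧
    (∀ A ⊆ box z n, ∀ A' ⊆ box z' n', walls (A ∪ A') = walls A ∪ walls A'))

open Classical in
/-- Low temperature expansion. PROOF. `A ↦ walls A` is a bijection from the subsets of `F` to the even subsets of `LF F`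
with inverse `w ↦ {u ∈ F | Odd (cnt w u)}` (`GridFacts` 2, 4 and `Simp F`; `walls A ⊆ LF A ⊆ LF F`).
THEOREM: `theorem lowTemp (h : GridFacts) : LowTemp` in `LowTemp.lean`. -/
def LowTemp : Prop :=
  ∀ F : Finset Pt, Simp F → ∀ (y : Edge → ℝ) (g : Finset Edge → ℝ),
    ∑ A ∈ F.powerset, (∏ e ∈ walls A, y e) * g (walls A) =
      ∑ w ∈ (LF F).powerset, if Even' w then (∏ e ∈ w, y e) * g w else 0

/-- High temperature expansion with boundary condition `ζ`. PROOF. Expand the product over `D`: `∑ η ⊆ D` of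
`∏ e ∈ η, y e * s(fa e) s(fb e)`. For fixed `η` the product of all spins is `∏ e ∈ η, chiO F ζ e` times
`∏ u ∈ F, s(u) ^ (k u)` with `k u` = number of `e ∈ η` with `fa e = u` plus number with `fb e = u` plus `[u ∈ U]`
(`fa e ≠ fb e`). The sum over `A ⊆ F` factorizes over `u ∈ F` (`Finset.prod_add` or `Finset.sum_pow..`): it is `2 ^ |F|` if all
`k u` are even, that is `bdy (bdFc F) η = pts U`, and `0` otherwise.
THEOREM: `theorem highTemp : HighTemp` in `HighTemp.lean`. -/
def HighTemp : Prop :=
  ∀ (F : Finset Pt) (D : Finset Edge) (y : Edge → ℝ) (ζ : Pt → ℝ),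
    ∀ U ⊆ F,
    ∑ A ∈ F.powerset, (∏ e ∈ D, (1 + y e * (sp F A ζ (fa e) * sp F A ζ (fb e)))) *
        ∏ u ∈ U, sp F A ζ u =
      2 ^ F.card * Zp (bdFc F) D (fun e => chiO F ζ e * y e) (pts U)

/-- Duality. PROOF. Take `ζ = 1`, `D = LF F`, `y = 1` on `M` and `xc` off `M` in `HighTemp` (then `chiO = 1`). For
`A ⊆ F`: `s(fa e) s(fb e) = -1` iff `e ∈ walls A`, so the product over `LF F` is
`∏ e ∈ LF F, (1 + y e)` times `∏ e ∈ walls A, (1 - y e) / (1 + y e)`, and `(1 - y) / (1 + y)` is `0` on `M` and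
`(1 - xc) / (1 + xc) = xc` off `M` (`xc = √2 - 1`). `∏ u ∈ U, sp F A 1 u = sgs U (walls A)` (`GridFacts` 2). By `LowTemp` the left side
is the constant times `∑ over even w ⊆ LF F \ M of xc ^ |w| * sgs U w`. Divide by the case `U = ∅`.
THEOREM: `theorem dual (h1 : GridFacts) (h2 : LowTemp) (h3 : HighTemp) : Dual` in `Dual.lean`. -/
def Dual : Prop :=
  ∀ F : Finset Pt, Simp F → ∀ M ⊆ LF F, ∀ U ⊆ F,
    lE (LF F \ M) (sgs U) =
      Zp (bdFc F) (LF F) (fun e => if e ∈ M then 1 else xc) (pts U) /
        Zp (bdFc F) (LF F) (fun e => if e ∈ M then 1 else xc) 0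

/-- Griffiths inequalities for the spins of the loop model: deleting edges increases correlations. PROOF. Choose a box
`F` so large that `U, U' ⊆ F` and `D ⊆ LF F`; apply `Dual` (with `BoxSimp`) to `M = LF F \ D` and `M' = LF F \ D'`:
`Gks`, `CorrMono` part 1 (the weights `1` on `M'` are larger than those for `M`) and, for products,
`pts U + pts U' = pts (U ∆ U')`. `lE D (sgs U) ≤ 1` since `|sgs| ≤ 1`.
THEOREM: `theorem monoC (h1 : BoxSimp) (h2 : Dual) (h3 : Gks) (h4 : CorrMono) : MonoC` in `MonoC.lean`. -/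
def MonoC : Prop :=
  ∀ (D D' : Finset Edge) (U U' : Finset Pt), D' ⊆ D →
    0 ≤ lE D (sgs U) ∧ lE D (sgs U) ≤ lE D' (sgs U) ∧ lE D (sgs U) ≤ 1 ∧
    lE D (sgs U) * lE D (sgs U') ≤ lE D (sgs (U ∆ U'))

/-- Translation invariance. PROOF. `shE z` is a bijection with `src (shE z e) = src e + z` and so on; it maps `LF F`
to `LF (F + z)`, `box 0 n` to `box z n`, even sets to even sets, `cnt (w.image (shE z)) (u + z) = cnt w u`,
`Reach` to `Reach`. Reindex all sums.
THEOREM: `theorem transl : Transl` in `Transl.lean`. -/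
def Transl : Prop :=
  (∀ (z : Pt) (D : Finset Edge) (g : Finset Edge → ℝ),
    lE (D.image (shE z)) g = lE D (fun w => g (w.image (shE z)))) ∧
  (∀ (z u : Pt) (w : Finset Edge), cnt (w.image (shE z)) (u + z) = cnt w u) ∧
  (∀ (z : Pt) (n N : ℕ), c1 (LF (box z N) \ LI (box z n)) z = aa n N ∧
    c1 (LF (box z N)) z = mm N ∧
    fkB z N (fun _ => xc) (Arm (box z n) (box z N)) = uu n N) ∧
  (∀ (z z' u v : Pt) (N : ℕ), c2 (LF (box z N)) u v = c2 (LF (box z' N)) (u + z' - z) (v + z' - z)) ∧
  (∀ (z z' : Pt) (n k N : ℕ),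
    fkB z N (fun _ => xc) (Arm (box z n) (box z k)) = fkB z' N (fun _ => xc) (Arm (box z' n) (box z' k))) ∧
  (∀ (z z' : Pt) (n m N : ℕ),
    fkF (LF (box z N)) (Circ z n m) = fkF (LF (box z' N)) (Circ z' n m))

/-- Decoupling of two boxes. PROOF. `c2 D u v ≤ c2 (LF (box u k) ∪ LF (box v k)) u v` (`MonoC`; `c2 D u v = lE D (sgs {u, v})`,
`u ≠ v`). With `F₁ = box u k`, `F₂ = box v k` (`BoxSimp` 2) the even subsets of `LF F₁ ∪ LF F₂ = LF (F₁ ∪ F₂)` are the
`walls (A₁ ∪ A₂) = walls A₁ ⊔ walls A₂` (`LowTemp`), so the sums factorize, `sgn (walls A₁ ∪ walls A₂) u = sgn (walls A₁) u`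
(`u ∉ A₂`), and the value is `c1 (LF F₁) u * c1 (LF F₂) v = mm k * mm k` (`Transl` 3).
THEOREM: `theorem twoBox (h0 : GridFacts) (h1 : BoxSimp) (h2 : LowTemp) (h3 : MonoC) (h4 : Transl) : TwoBox` in `TwoBox.lean`. -/
def TwoBox : Prop :=
  ∀ (k : ℕ) (u v : Pt) (D : Finset Edge), 2 * k + 2 ≤ ldist u v →
    LF (box u k) ⊆ D → LF (box v k) ⊆ D → c2 D u v ≤ mm k * mm k

/-- Connectivity in graph terms. PROOF. 1. A path in `ω` gives by induction a `γ ⊆ ω` with boundary `pt a + pt b` (add the
edges modulo two). Conversely let `γ ⊆ ω` have boundary `pt a + pt b`, `a ≠ b`, and let `C` be the set of corners reached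
from `a` in `ω`; sum the boundary over `C`: every edge of `γ` has both or no ends in `C`, so
`∑ v ∈ C (bdy γ) v = 0`, hence `b ∈ C` (restrict `C` to the finite set of ends of edges of `γ` and `a`, `b`). 2, 3. The same with
`bdR Λ`: cut a path at its first corner outside `Λ`; conversely if the set `C` reached from `a` stays in `Λ` then the sum
over `C` of the boundary is `0`, so the number of sources in `C` is even. 4 (four sources in `Λ`, possibly equal): let `C` be the set
reached from `a₄`. If it contains a corner outside `Λ` and no further source `a₁, a₂, a₃`, consider the part `γ'` of `γ` outside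
`C`: its boundary is `pt a₁ + pt a₂ + pt a₃` (on `Λ`), so some `a_i` (one whose cluster carries an odd number of the sources)
reaches a corner outside `Λ`, and then `Conn (pt a_i + pt a₄)` holds too. In all other cases `a₄` reaches an `a_i`.
THEOREM: `theorem reachFacts : ReachFacts` in `ReachFacts.lean`. -/
def ReachFacts : Prop :=
  (∀ (ω : Finset Edge) (a b : Pt), Conn bdV ω (pt a + pt b) ↔ Reach ω a b) ∧
  (∀ (Λ : Finset Pt) (ω : Finset Edge) (a : Pt), a ∈ Λ →
    (Conn (bdR Λ) ω (pt a) ↔ ∃ b, b ∉ Λ ∧ Reach ω a b)) ∧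
  (∀ (Λ : Finset Pt) (ω : Finset Edge) (a b : Pt), a ∈ Λ → b ∈ Λ →
    (Conn (bdR Λ) ω (pt a + pt b) ↔
      Reach ω a b ∨ ((∃ c, c ∉ Λ ∧ Reach ω a c) ∧ ∃ c, c ∉ Λ ∧ Reach ω b c))) ∧
  (∀ (Λ : Finset Pt) (ω : Finset Edge) (a₁ a₂ a₃ a₄ : Pt), a₁ ∈ Λ → a₂ ∈ Λ → a₃ ∈ Λ → a₄ ∈ Λ →
    Conn (bdR Λ) ω (pt a₁ + pt a₂ + pt a₃ + pt a₄) →
    Conn (bdR Λ) ω (pt a₃ + pt a₄) ∨ Conn (bdR Λ) ω (pt a₂ + pt a₄) ∨
      Conn (bdR Λ) ω (pt a₁ + pt a₄)) ∧
  (∀ (Λ : Finset Pt) (η : Finset Edge), Even' η → bdy (bdR Λ) η = 0)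

/-- Identification of magnetizations with crossing probabilities. PROOF. `iota` is injective, maps `LF F` onto `EV F`,
`LI F` onto `EB F`, and `bdFc F e = bdR F (iota e)` (the corners of `iota e` are the faces `fb e`, `fa e`); so
`Zp (bdFc F) (LF F) (fun e => y (iota e)) f = Zp (bdR F) (EV F) y f`. Combine with `Dual` for `F = box z N`,
`M = LI (box z n)` (or `M = ∅`), `U = {z}` or `{u} ∆ {v}`, with `Coupling` 4 and with `ReachFacts` 2: this gives 1 and 3. For 2: under
the weights `xblk z n` a configuration of positive weight contains all of `EB (box z n)`, so all corners of the box are joined and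
`Arm (box z n) (box z N)` is equivalent to `Arm {z} (box z N)`.
THEOREM: `theorem idents (h0 : BoxSimp) (h1 : Dual) (h2 : Coupling) (h3 : ReachFacts) (h4 : Transl) : Idents` in
`Idents.lean`. -/
def Idents : Prop :=
  (∀ (z : Pt) (N : ℕ), fkB z N (fun _ => xc) (Arm {z} (box z N)) = mm N) ∧
  (∀ (z : Pt) (n N : ℕ), n ≤ N → fkB z N (xblk z n) (Arm (box z n) (box z N)) = aa n N) ∧
  (∀ (z : Pt) (N : ℕ) (u v : Pt), u ∈ box z N → v ∈ box z N →
    c2 (LF (box z N)) u v =
      fkB z N (fun _ => xc) (fun ω => Conn (bdR (box z N)) ω (pt u + pt v)))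

/-- Components. PROOF. `connE` restricted to `w` is an equivalence relation (`adjE` is symmetric), its classes are the
`comp w a`, `a ∈ w`. If `w` is even then each class is even: all edges of `w` at a corner are in the same class. `tc T w` is the union
of the classes which contain an edge with `T`. The last part: a path of corners in `c` gives a chain of edges and conversely.
THEOREM: `theorem compFacts : CompFacts` in `CompFacts.lean`. -/
def CompFacts : Prop :=
  (∀ w : Finset Edge, (∀ c ∈ comps w, c ⊆ w ∧ c.Nonempty ∧ (∀ a ∈ c, c = comp w a) ∧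
      (∀ a ∈ c, ∀ b ∈ c, connE c a b) ∧ (∀ a ∈ c, ∀ b ∈ w, adjE a b → b ∈ c)) ∧
    (∀ c ∈ comps w, ∀ c' ∈ comps w, c ≠ c' → Disjoint c c' ∧ ∀ a ∈ c, ∀ b ∈ c', ¬ adjE a b) ∧
    (∀ a ∈ w, ∃ c ∈ comps w, a ∈ c)) ∧
  (∀ w : Finset Edge, Even' w → ∀ c ∈ comps w, Even' c) ∧
  (∀ (w : Finset Edge) (u : Pt), sgn w u = ∏ c ∈ comps w, sgn c u) ∧
  (∀ (T : Edge → Prop) (w : Finset Edge), tc T w ⊆ w ∧ tc T (tc T w) = tc T w ∧
    (Even' w → Even' (tc T w)) ∧ (Even' w → Even' (w \ tc T w)) ∧
    (∀ c, c ∈ comps (tc T w) ↔ c ∈ comps w ∧ ∃ a ∈ c, T a) ∧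
    (∀ c, c ∈ comps (w \ tc T w) ↔ c ∈ comps w ∧ ∀ a ∈ c, ¬ T a)) ∧
  (∀ (c : Finset Edge) (a b : Edge), a ∈ c → b ∈ c → connE c a b → Reach c (src a) (src b))

open Classical in
/-- Exact spatial Markov property. PROOF of 1. `w ↦ w \ V` is a bijection from the even `w ⊆ D` with `tc T w = V` to the even
`w' ⊆ rest D V T`: if `tc T w = V` then `w \ V` has no edge with `T` and no edge sharing an end with `V`
(`CompFacts`), and it is even. Conversely for even `w' ⊆ rest D V T` the set `V ∪ w'` is even, `V` and `w'` share no corner, so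
`tc T (V ∪ w') = tc T V ∪ tc T w' = V`. 2. Group the sum over `w` by the value `V` of `tc T w` and use 1 (with `g` and with
`g = 1`).
THEOREM: `theorem markov (h : CompFacts) : Markov` in `Markov.lean`. -/
def Markov : Prop :=
  (∀ (D V : Finset Edge) (T : Edge → Prop) (g : Finset Edge → ℝ), V ⊆ D → Even' V →
    tc T V = V →
    ∑ w ∈ D.powerset, (if Even' w ∧ tc T w = V then xc ^ w.card * g w else 0) =
      xc ^ V.card * ∑ w ∈ (rest D V T).powerset, if Even' w then xc ^ w.card * g (V ∪ w) else 0) ∧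
  (∀ (D : Finset Edge) (T : Edge → Prop) (g : Finset Edge → Finset Edge → ℝ),
    lE D (fun w => g (tc T w) (w \ tc T w)) =
      lE D (fun w => lE (rest D (tc T w) T) (fun w' => g (tc T w) w')))

/-- A path from inside to outside hits the circuit. PROOF. Let `V(c)` be the set of ends of edges of `c`. If the corner `v` is
not in `V(c)` then the four faces `v, v - (1,0), v - (0,1), v - (1,1)` around it have the same parity of `cnt c`
(`GridFacts` 1 for the four edges at `v`); two adjacent corners share a face of this kind, so along a path which avoids `V(c)` the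
parity of `cnt c (·)` (at the face with that lower left corner) is constant. Induct on the path (`Relation.ReflTransGen`):
either `a ∈ V(c)`, or move to the next corner.
THEOREM: `theorem hit (h : GridFacts) : Hit` in `Hit.lean`. -/
def Hit : Prop :=
  ∀ (c ω : Finset Edge) (a b : Pt), Even' c → Reach ω a b → Odd (cnt c a) → Even (cnt c b) →
    ∃ v, (∃ e ∈ c, src e = v ∨ tgt e = v) ∧ Reach ω a v ∧ Reach ω v b

end Pool.Agent.Lib.MP_6d40c9_pr
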