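import Pool.Agent.Lib.MP_6d40c9_pr.Defs

/-!
# Statements of part K (codes with product weights)

Every statement is a `Prop` with its complete proof in the docstring; the file `X.lean` proves it, possibly from earlier
statements given as hypotheses (the theorem to prove is written at the end of each docstring).
Characteristic two: `h2 : ∀ g : G, g + g = 0`. For finite sets `bdy bd (η ∆ γ) = bdy bd η + bdy bd γ`.
-/

set_option autoImplicit false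

namespace Pool.Agent.Lib.MP_6d40c9_pr

open Finset
open scoped BigOperators symmDiff

/-- PROOF. For fixed `η₁, η₂ ⊆ D` the sum over `O` with `η₁ ∪ η₂ ⊆ O ⊆ D` of `pW D x O (η₁ ∆ η₂)` is a product over the
edges `e ∈ D`: an edge in exactly one of `η₁, η₂` must be in `O` and gives `x e`; an edge in both must be in `O` and gives
`x e ^ 2`; an edge in neither gives `x e ^ 2 + (1 - x e ^ 2) = 1`. So the sum is `(∏ e ∈ η₁, x e) * ∏ e ∈ η₂, x e`.
Exchange the sums (`Finset.sum_comm'`, or `Finset.prod_add`: `∏ (f + g) = ∑ over subsets`).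
THEOREM: `theorem pairSum : PairSum` in `PairSum.lean`. -/
def PairSum : Prop :=
  ∀ (E G : Type) [DecidableEq E] [AddCommGroup G], ∀ (bd : E → G) (D : Finset E)
    (x χ : E → ℝ) (f g : G),
    Zp bd D (fun e => χ e * x e) f * Zp bd D x g = ∑ O ∈ D.powerset, aO bd D x χ O f g

/-- PROOF. Let `γ ⊆ O` with `bdy bd γ = h`. The map `(η₁, η₂) ↦ (η₁ ∆ γ, η₂ ∆ γ)` is an involution of the pairs of subsets of
`O`; it changes the boundaries by `h` (characteristic two) and it preserves `η₁ ∆ η₂`, hence the weight. The sign of the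
first set is multiplied by `∏ e ∈ γ, χ e = ± 1` (`χ e = 1 ∨ χ e = -1` gives `χ (η ∆ γ) = χ η * χ γ`).
THEOREM: `theorem toggle : Toggle` in `Toggle.lean`. -/
def Toggle : Prop :=
  ∀ (E G : Type) [DecidableEq E] [AddCommGroup G], (∀ g : G, g + g = 0) → ∀ (bd : E → G)
    (D : Finset E) (x χ : E → ℝ) (O : Finset E), (∀ e ∈ O, χ e = 1 ∨ χ e = -1) →
    ∀ (γ : Finset E), γ ⊆ O → ∀ (f g : G),
    aO bd D x χ O f g = (∏ e ∈ γ, χ e) * aO bd D x χ O (f + bdy bd γ) (g + bdy bd γ)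

/-- PROOF. If the value is not zero some pair contributes, and then `η₁, η₂ ⊆ O` have the boundaries `f`, `g`. If
`0 ≤ x e ≤ 1` on `D` and `χ = 1` all terms are `≥ 0`. The third part: put `ν = η₁ ∆ η₂`; then
`aO = ∑ over ν ⊆ O with boundary f of pW D x O ν * ∑ over η₁ ⊆ O with boundary 0 of χ η₁`, and the last sum is `≥ 0` because it
is the sum of a `±1` valued homomorphism on a finite group (it is the order of the group or `0`: if `χ γ = -1` for some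
`γ` in the group, `η ↦ η ∆ γ` shows that the sum equals its negative).
THEOREM: `theorem aOFacts : AOFacts` in `AOFacts.lean`. -/
def AOFacts : Prop :=
  ∀ (E G : Type) [DecidableEq E] [AddCommGroup G], (∀ g : G, g + g = 0) → ∀ (bd : E → G)
    (D : Finset E) (x χ : E → ℝ) (O : Finset E), O ⊆ D → (∀ e ∈ D, 0 ≤ x e) →
    (∀ e ∈ D, x e ≤ 1) → (∀ e ∈ O, χ e = 1 ∨ χ e = -1) →
    (∀ f g : G, aO bd D x χ O f g ≠ 0 → Conn bd O f ∧ Conn bd O g) ∧
    (∀ f g : G, 0 ≤ aO bd D x (fun _ => 1) O f g) ∧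
    (∀ f : G, 0 ≤ aO bd D x χ O 0 f)

/-- Second Griffiths inequality. PROOF (`PairSum`, `Toggle`, `AOFacts` with `χ = 1`). Both sides are sums over
`O`; if `aO O f g ≠ 0` then `g = bdy bd γ` for some `γ ⊆ O` and `aO O f g = aO O (f + g) 0`; otherwise the term on the left is
`0 ≤ aO O (f + g) 0`.
THEOREM: `theorem gks (h1 : PairSum) (h2 : Toggle) (h3 : AOFacts) : Gks` in `Gks.lean`. -/
def Gks : Prop :=
  ∀ (E G : Type) [DecidableEq E] [AddCommGroup G], (∀ g : G, g + g = 0) → ∀ (bd : E → G)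
    (D : Finset E) (x : E → ℝ), (∀ e ∈ D, 0 ≤ x e) → (∀ e ∈ D, x e ≤ 1) → ∀ f g : G,
    Zp bd D x f * Zp bd D x g ≤ Zp bd D x 0 * Zp bd D x (f + g)

open Classical in
/-- A connection in the loop configuration costs the square of the correlation. PROOF. `(Zp f) ^ 2 = ∑ O, aO O f f`, and
`aO O f f = aO O 0 0` if `Conn bd O f` (`Toggle`), `= 0` otherwise. The left side is, by the computation of `PairSum`,
`∑ O, ∑ η₁ ⊆ O, η₂ ⊆ O, [bdy η₁ = 0, bdy η₂ = 0, Conn (η₁ ∪ {x = 1}) f] * pW D x O (η₁ ∆ η₂)`; here `pW D x O _ = 0` unless `O`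
contains all edges of `D` with `x e = 1` (factor `1 - x e ^ 2`), and then `Conn (η₁ ∪ {x = 1}) f` implies `Conn bd O f`.
So it is at most `∑ over O with Conn bd O f of aO O 0 0`.
THEOREM: `theorem connSq (h2 : Toggle) (h3 : AOFacts) : ConnSq` in `ConnSq.lean`. -/
def ConnSq : Prop :=
  ∀ (E G : Type) [DecidableEq E] [AddCommGroup G], (∀ g : G, g + g = 0) → ∀ (bd : E → G)
    (D : Finset E) (x : E → ℝ), (∀ e ∈ D, 0 ≤ x e) → (∀ e ∈ D, x e ≤ 1) → ∀ f : G,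
    (∑ η ∈ D.powerset, if bdy bd η = 0 ∧ Conn bd (η ∪ D.filter (fun e => x e = 1)) f
      then ∏ e ∈ η, x e else 0) * Zp bd D x 0 ≤ Zp bd D x f ^ 2

/-- Comparison with signed weights. PROOF. `Zp (χ x) f * Zp x 0 = ∑ O, aO χ O f 0`; if the term is not zero then
`f = bdy bd γ`, `γ ⊆ O`, and by `Toggle` the term is `± aO χ O 0 f`, which is `≥ 0` up to the sign by `AOFacts`; so the
absolute value is at most `∑ O, aO χ O 0 f = Zp (χ x) 0 * Zp x f`.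
THEOREM: `theorem signed (h1 : PairSum) (h2 : Toggle) (h3 : AOFacts) : Signed` in `Signed.lean`. -/
def Signed : Prop :=
  ∀ (E G : Type) [DecidableEq E] [AddCommGroup G], (∀ g : G, g + g = 0) → ∀ (bd : E → G)
    (D : Finset E) (x χ : E → ℝ), (∀ e ∈ D, 0 ≤ x e) → (∀ e ∈ D, x e ≤ 1) →
    (∀ e ∈ D, χ e = 1 ∨ χ e = -1) → ∀ f : G,
    |Zp bd D (fun e => χ e * x e) f| * Zp bd D x 0 ≤
      Zp bd D (fun e => χ e * x e) 0 * Zp bd D x f

/-- Lebowitz inequality. PROOF. With `F = f₁ + f₂ + f₃ + f₄`: `Zp F * Zp 0 = ∑ O, aO O F 0` (`χ = 1`). If the term of `O`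
is not zero then `Conn bd O F`, so one of the three cases of the hypothesis holds; in the first
`aO O F 0 = aO O (F + (f₃ + f₄)) (f₃ + f₄) = aO O (f₁ + f₂) (f₃ + f₄)`, in the second `= aO O (f₁ + f₃) (f₂ + f₄)`, in
the third `= aO O (f₂ + f₃) (f₁ + f₄)`. Sum over `O` and use that all `aO ≥ 0`.
THEOREM: `theorem leb (h1 : PairSum) (h2 : Toggle) (h3 : AOFacts) : Leb` in `Leb.lean`. -/
def Leb : Prop :=
  ∀ (E G : Type) [DecidableEq E] [AddCommGroup G], (∀ g : G, g + g = 0) → ∀ (bd : E → G)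
    (D : Finset E) (x : E → ℝ), (∀ e ∈ D, 0 ≤ x e) → (∀ e ∈ D, x e ≤ 1) →
    ∀ f₁ f₂ f₃ f₄ : G,
    (∀ O ⊆ D, Conn bd O (f₁ + f₂ + f₃ + f₄) →
      Conn bd O (f₃ + f₄) ∨ Conn bd O (f₂ + f₄) ∨ Conn bd O (f₁ + f₄)) →
    Zp bd D x (f₁ + f₂ + f₃ + f₄) * Zp bd D x 0 ≤
      Zp bd D x (f₁ + f₂) * Zp bd D x (f₃ + f₄) + Zp bd D x (f₁ + f₃) * Zp bd D x (f₂ + f₄) +
        Zp bd D x (f₁ + f₄) * Zp bd D x (f₂ + f₃)

/-- Monotonicity of the correlation in the weights. PROOF. Change one weight at a time (induction on the number of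
edges of `D` where `x` and `x'` differ, or over a `Finset`). For one edge `e`: `Zp D x f = P f + x e * P (f + bd e)` with
`P = Zp (D \ {e}) x` (characteristic two), so with `t = x e ≤ t' = x' e` the claim is
`(P f + t P (f + b)) (P 0 + t' P b) ≤ (P f + t' P (f + b)) (P 0 + t P b)`, that is
`(t' - t) (P (f + b) P 0 - P f P b) ≥ 0`: `Gks`. To chain the steps divide by `Zp 0 ≥ 1` (the empty set has weight `1`).
The second part is the first one for the weights `x` on `H` and `0` off `H`: `Zp bd H x f = Zp bd D (x 1_H) f`.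
THEOREM: `theorem corrMono (h : Gks) : CorrMono` in `CorrMono.lean`. -/
def CorrMono : Prop :=
  (∀ (E G : Type) [DecidableEq E] [AddCommGroup G], (∀ g : G, g + g = 0) → ∀ (bd : E → G)
    (D : Finset E) (x x' : E → ℝ), (∀ e ∈ D, 0 ≤ x e) → (∀ e ∈ D, x e ≤ x' e) →
    (∀ e ∈ D, x' e ≤ 1) → ∀ f : G,
    Zp bd D x f * Zp bd D x' 0 ≤ Zp bd D x' f * Zp bd D x 0) ∧
  (∀ (E G : Type) [DecidableEq E] [AddCommGroup G], (∀ g : G, g + g = 0) → ∀ (bd : E → G)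
    (D H : Finset E) (x : E → ℝ), H ⊆ D → (∀ e ∈ D, 0 ≤ x e) → (∀ e ∈ D, x e ≤ 1) → ∀ f : G,
    Zp bd H x f * Zp bd D x 0 ≤ Zp bd D x f * Zp bd H x 0)

/-- PROOF. Induction on `M ∩ D`. One edge `e`: if `e ∉ H` then `Zp H = Zp (H \ {e})` and
`Zp (D \ {e}) 0 ≤ Zp D 0`. If `e ∈ H`: `Zp H 0 = Zp (H \ {e}) 0 + x e * Zp (H \ {e}) (bd e)` and the same for `D`, so
the claim is `Zp (H \ {e}) b * Zp (D \ {e}) 0 ≤ Zp (D \ {e}) b * Zp (H \ {e}) 0` (second part of `CorrMono`). To chain divide by the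
positive numbers `Zp 0 ≥ 1`.
THEOREM: `theorem ratioMono (h : CorrMono) : RatioMono` in `RatioMono.lean`. -/
def RatioMono : Prop :=
  ∀ (E G : Type) [DecidableEq E] [AddCommGroup G], (∀ g : G, g + g = 0) → ∀ (bd : E → G)
    (D H M : Finset E) (x : E → ℝ), H ⊆ D → (∀ e ∈ D, 0 ≤ x e) → (∀ e ∈ D, x e ≤ 1) →
    Zp bd H x 0 * Zp bd (D \ M) x 0 ≤ Zp bd D x 0 * Zp bd (H \ M) x 0

open Classical in
/-- The coupling of the loop measure and the random cluster measure. PROOF. For `W ⊆ D`,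
`∑ over ω with W ⊆ ω ⊆ D of ∏ e ∈ ω, x e * ∏ e ∈ D \ ω, (1 - x e) = ∏ e ∈ W, x e` (product over the edges, `Finset.prod_add`).
This gives the first three parts (exchange the sums over `W` and `ω`). Part 4: if `Conn bd ω f`, the number of `η ⊆ ω` with
boundary `f` equals `evn bd ω` (translate by `γ`), and it is `0` otherwise; so the left side is
`∑ ω, ∑ η ⊆ ω with boundary f, ∏ e ∈ ω, x e * ∏ e ∈ D \ ω, (1 - x e) = Zp bd D x f`. Part 5: `P W` implies `P ω` for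
`W ⊆ ω ⊆ D`. Part 6: `evn ≥ 1`, so weights are `≥ 0`.
THEOREM: `theorem coupling : Coupling` in `Coupling.lean`. -/
def Coupling : Prop :=
  ∀ (E G : Type) [DecidableEq E] [AddCommGroup G], (∀ g : G, g + g = 0) → ∀ (bd : E → G)
    (D : Finset E) (x : E → ℝ), (∀ e ∈ D, 0 ≤ x e) → (∀ e ∈ D, x e ≤ 1) →
    (∑ ω ∈ D.powerset, fkW bd D x ω = Zp bd D x 0) ∧
    (∀ P : Finset E → Prop, jP bd D x (fun W _ => P W) = lpP bd D x P) ∧
    (∀ P : Finset E → Prop, jP bd D x (fun _ ω => P ω) = fkP bd D x P) ∧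
    (∀ f : G, fkP bd D x (fun ω => Conn bd ω f) = Zp bd D x f / Zp bd D x 0) ∧
    (∀ P : Finset E → Prop, Incr D P → lpP bd D x P ≤ fkP bd D x P) ∧
    (1 ≤ Zp bd D x 0 ∧ ∀ ω ⊆ D, 0 ≤ fkW bd D x ω) ∧
    (∀ P Q : Finset E → Finset E → Prop, (∀ W ω, W ⊆ ω → ω ⊆ D → bdy bd W = 0 → P W ω → Q W ω) →
      jP bd D x P ≤ jP bd D x Q)

/-- The lattice condition. PROOF. The even subsets of `ω` form a subgroup `A(ω)` of the group of finite sets under symmetric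
difference (characteristic two: `bdy bd (η ∆ η') = bdy bd η + bdy bd η'`). The map
`A(ω) × A'(ω') → A'(ω ∪ ω')`, `(a, a') ↦ a ∆ a'` (here `A'` belongs to `bd'`; `a ∈ A'` by `hker`), has fibres of size
at most `|A(ω) ∩ A'(ω')| ≤ |A(ω ∩ ω')|` (if `a ∆ a' = c ∆ c'` then `a ∆ c = a' ∆ c'` is a subset of `ω ∩ ω'` and
has `bd`-boundary `0`, being `a ∆ c`). So
`evn ω * evn' ω' ≤ evn' (ω ∪ ω') * evn (ω ∩ ω')` (a map with fibres of size at most `m` onto its image).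
THEOREM: `theorem lattice : Lattice` in `Lattice.lean`. -/
def Lattice : Prop :=
  ∀ (E G G' : Type) [DecidableEq E] [AddCommGroup G] [AddCommGroup G'], (∀ g : G, g + g = 0) →
    (∀ g : G', g + g = 0) → ∀ (bd : E → G) (bd' : E → G') (ω ω' : Finset E),
    (∀ η ⊆ ω ∪ ω', bdy bd η = 0 → bdy bd' η = 0) →
    evn bd ω * evn bd' ω' ≤ evn bd (ω ∩ ω') * evn bd' (ω ∪ ω')

/-- Positive association. PROOF. By `Lattice` (with `bd' = bd`) the weight `fkW` satisfies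
`fkW ω * fkW ω' ≤ fkW (ω ∩ ω') * fkW (ω ∪ ω')` for `ω, ω' ⊆ D` (the product part is an equality, edge by edge). Apply the
four functions theorem or the FKG inequality of Mathlib (`fkg`, for the lattice `Finset ↥D` or on
`D.powerset`: `Finset.four_functions_theorem`) with the indicators of `P` and `Q`, which are monotone on subsets of `D`.
Normalize with `∑ fkW = Zp 0` (`Coupling`).
THEOREM: `theorem fkgIneq (h1 : Coupling) (h2 : Lattice) : FkgIneq` in `FkgIneq.lean`. -/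
def FkgIneq : Prop :=
  ∀ (E G : Type) [DecidableEq E] [AddCommGroup G], (∀ g : G, g + g = 0) → ∀ (bd : E → G)
    (D : Finset E) (x : E → ℝ), (∀ e ∈ D, 0 ≤ x e) → (∀ e ∈ D, x e ≤ 1) →
    ∀ P Q : Finset E → Prop, Incr D P → Incr D Q →
    fkP bd D x P * fkP bd D x Q ≤ fkP bd D x (fun ω => P ω ∧ Q ω)

/-- Stochastic domination (more edges, larger weights, more identifications). PROOF. First extend the measure of `D` to
`D'` by the weights `0` outside `D`: for `y = x` on `D`, `0` on `D' \ D`, `fkW bd D' y ω = 0` unless `ω ⊆ D`, and then it is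
`fkW bd D x ω`; so `fkP bd D x P = fkP bd D' y P` (`Zp` too). Then Holley: for `ω, ω' ⊆ D'`
`fkW bd D' y ω * fkW bd' D' x' ω' ≤ fkW bd D' y (ω ∩ ω') * fkW bd' D' x' (ω ∪ ω')`: if the left side is not zero then
`ω ⊆ D`; the factors `evn` by the fibre argument of `Lattice` (only even subsets of `ω ⊆ D` have to be
`bd'`-even, see the variant hypothesis: the map `(a, a') ↦ a ∆ a'` uses `hker` for `a ⊆ ω ⊆ D` only), the product part edge by edge
(an edge of `ω \ ω'`: `y (1 - x') ≤ (1 - y) x'`). Four functions theorem with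
`f₁ = fkW bd D' y * 1_P`, `f₂ = fkW bd' D' x'`, `f₃ = fkW bd D' y`, `f₄ = fkW bd' D' x' * 1_P` (`P` increasing: `P ω` gives
`P (ω ∪ ω')`).
THEOREM: `theorem stochDom (h1 : Coupling) : StochDom` in `StochDom.lean`. -/
def StochDom : Prop :=
  ∀ (E G G' : Type) [DecidableEq E] [AddCommGroup G] [AddCommGroup G'], (∀ g : G, g + g = 0) →
    (∀ g : G', g + g = 0) → ∀ (bd : E → G) (bd' : E → G') (D D' : Finset E) (x x' : E → ℝ),
    D ⊆ D' → (∀ e ∈ D, 0 ≤ x e) → (∀ e ∈ D, x e ≤ x' e) → (∀ e ∈ D', 0 ≤ x' e) →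
    (∀ e ∈ D', x' e ≤ 1) → (∀ η ⊆ D, bdy bd η = 0 → bdy bd' η = 0) →
    ∀ P : Finset E → Prop, Incr D' P → fkP bd D x P ≤ fkP bd' D' x' P

/-- Domain Markov property with domination. PROOF. Write `ω = ω₁ ∪ ω₂` with `ω₁ ⊆ D₁`, `ω₂ ⊆ D₂`. It is enough that for
every `ω₁`, `∑ ω₂ ⊆ D₂, fkW bd (D₁ ∪ D₂) x (ω₁ ∪ ω₂) * 1[P₂ ω₂] ≤ (∑ ω₂, fkW bd (D₁ ∪ D₂) x (ω₁ ∪ ω₂)) * fkP bd' D₂ x P₂`.
This is Holley for the functions `ω₂ ↦ evn bd (ω₁ ∪ ω₂) * ∏..` and `ω₂ ↦ evn bd' ω₂ * ∏..` on the subsets of `D₂`; the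
lattice condition `evn bd (ω₁ ∪ ω₂) * evn bd' ω₂' ≤ evn bd (ω₁ ∪ (ω₂ ∩ ω₂')) * evn bd' (ω₂ ∪ ω₂')`: consider
`(a, a') ↦ (a ∩ D₂) ∆ a'` from (even subsets of `ω₁ ∪ ω₂`) × (`bd'`-even subsets of `ω₂'`) to the `bd'`-even subsets of
`ω₂ ∪ ω₂'` (by hypothesis `a ∩ D₂` is `bd'`-even); if two pairs have the same image then `(a ∆ c) ∩ D₂ = a' ∆ c' ⊆ ω₂ ∩ ω₂'`,
so `a ∆ c` is an even subset of `ω₁ ∪ (ω₂ ∩ ω₂')` and it determines the second pair from the first one: fibres have at most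
`evn bd (ω₁ ∪ (ω₂ ∩ ω₂'))` elements. Then four functions theorem as in `StochDom`; `P₁ ω ↔ P₁ ω₁` (`DepOn`), `P₂ ω ↔ P₂ ω₂`.
THEOREM: `theorem prodDom (h1 : Coupling) : ProdDom` in `ProdDom.lean`. -/
def ProdDom : Prop :=
  ∀ (E G G' : Type) [DecidableEq E] [AddCommGroup G] [AddCommGroup G'], (∀ g : G, g + g = 0) →
    (∀ g : G', g + g = 0) → ∀ (bd : E → G) (bd' : E → G') (D₁ D₂ : Finset E) (x : E → ℝ),
    Disjoint D₁ D₂ → (∀ e ∈ D₁ ∪ D₂, 0 ≤ x e) → (∀ e ∈ D₁ ∪ D₂, x e ≤ 1) →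
    (∀ η₁ ⊆ D₁, ∀ η₂ ⊆ D₂, bdy bd (η₁ ∪ η₂) = 0 → bdy bd' η₂ = 0) →
    ∀ P₁ P₂ : Finset E → Prop, DepOn D₁ P₁ → DepOn D₂ P₂ → Incr D₂ P₂ →
    fkP bd (D₁ ∪ D₂) x (fun ω => P₁ ω ∧ P₂ ω) ≤ fkP bd (D₁ ∪ D₂) x P₁ * fkP bd' D₂ x P₂

open Classical in
/-- Conditioning on the cluster configuration in `S`. PROOF. Group the sums by `ω₁ = ω ∩ S`. For fixed `ω₁ ⊆ S` with
`C ω₁` put `D' = ω₁ ∪ (D \ S)` and `y = 1` on `ω₁`, `y = x` on `D \ S`. Left side for this `ω₁`, divided by the constant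
`k = ∏ e ∈ ω₁, x e * ∏ e ∈ S \ ω₁, (1 - x e) ≥ 0`: `∑ ω₂ ⊆ D \ S, ∑ W ⊆ ω₁ ∪ ω₂ even with Conn (W ∪ ω₁) f, ∏ e ∈ ω₂, x e * ∏ e ∈ (D \ S) \ ω₂, (1 - x e)`
`= ∑ W ⊆ D' even, [Conn bd (W ∪ ω₁) f] * ∏ e ∈ W, y e` (sum over `ω₂ ⊇ W \ ω₁` first, as in `Coupling`), which by
`ConnSq` for `D', y` (the edges of `ω₁` have `y = 1`) is at most `(Zp bd D' y f) ^ 2 / Zp bd D' y 0 ≤ p * Zp bd D' y f`
(`Zp ≥ 0`, hypothesis). Right side for this `ω₁` divided by `k`: `p * ∑ ω₂ ⊆ D \ S, evn (ω₁ ∪ ω₂) * ∏.. * [Conn bd (ω₁ ∪ ω₂) f]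
= p * Zp bd D' y f` (`Coupling` part 4 for `D', y`: `fkW bd D' y ω = 0` unless `ω₁ ⊆ ω`).
THEOREM: `theorem sqCond (h1 : Coupling) (h2 : ConnSq) : SqCond` in `SqCond.lean`. -/
def SqCond : Prop :=
  ∀ (E G : Type) [DecidableEq E] [AddCommGroup G], (∀ g : G, g + g = 0) → ∀ (bd : E → G)
    (D S : Finset E) (x : E → ℝ), S ⊆ D → (∀ e ∈ D, 0 ≤ x e) → (∀ e ∈ D, x e ≤ 1) →
    ∀ (C : Finset E → Prop) (f : Finset E → G) (p : ℝ), 0 ≤ p →
    (∀ ω₁ ⊆ S, C ω₁ →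
      Zp bd (ω₁ ∪ (D \ S)) (fun e => if e ∈ ω₁ then 1 else x e) (f ω₁) ≤
        p * Zp bd (ω₁ ∪ (D \ S)) (fun e => if e ∈ ω₁ then 1 else x e) 0) →
    jP bd D x (fun W ω => C (ω ∩ S) ∧ Conn bd (W ∪ (ω ∩ S)) (f (ω ∩ S))) ≤
      p * fkP bd D x (fun ω => C (ω ∩ S) ∧ Conn bd ω (f (ω ∩ S)))

end Pool.Agent.Lib.MP_6d40c9_pr
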