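import Pool.Agent.Lib.MP_6d40c9_pr.SpecP

/-!
# Statements of part L (the limit)

`Lim` collects the hypotheses of the theorem, written for the loop measures on `DD Ω δ`; `LimJ` is the joint convergence along
the sequence `δs`. In the docstrings `N φ` is `loopStat φ (Γ ω)` (limit) or `wSt δ φ w` (lattice); `fill K` is the filled loop. All
limit arguments use only: bounded continuous functions of finitely many `N φ`, portmanteau (`PortS`), and the almost sure structure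
of `Γ`. The last statement, `MainS`, is the theorem.
-/

set_option autoImplicit false

namespace Pool.Agent.Lib.MP_6d40c9_pr

open Finset MeasureTheory Filter Topology TopologicalSpace Metric
open scoped BigOperators

/-- Linear statistic of the components. -/
noncomputable def wSt (δ : ℝ) (φ : LoopSp → ℝ) (w : Finset Edge) : ℝ :=
  ∑ c ∈ comps w, φ (toNC (K1 δ c), toNC (K2 δ c))

/-- The hypotheses of the theorem. -/
structure Lim {X : Type} [MeasurableSpace X] (Ω : Set (ℝ × ℝ)) (P : Measure X)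
    (σ : (ℝ × ℝ → ℝ) → X → ℝ) (Γ : X → Set (NonemptyCompacts (ℝ × ℝ))) : Prop where
  op : IsOpen Ω
  bdd : Bornology.IsBounded Ω
  ne : Ω.Nonempty
  conn : IsConnected Ωᶜ
  measS : ∀ f, TestFn Ω f → Measurable (σ f)
  measW : ∀ φ, LoopFn φ → Measurable fun ω => loopStat φ (Γ ω)
  nest : IsNested Ω P Γ
  cvS : ∀ f, TestFn Ω f → ∀ H : ℝ → ℝ, Continuous H → (∃ C, ∀ y, |H y| ≤ C) →
    Tendsto (fun δ => lE (DD Ω δ) (fun w => H (sf Ω δ f w))) (𝓝[>] 0) (𝓝 (∫ ω, H (σ f ω) ∂P))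
  cvW : ∀ (n : ℕ) (φ : Fin n → LoopSp → ℝ), (∀ j, LoopFn (φ j)) → ∀ H : (Fin n → ℝ) → ℝ,
    Continuous H → (∃ C, ∀ y, |H y| ≤ C) →
    Tendsto (fun δ => lE (DD Ω δ) (fun w => H (fun j => wSt δ (φ j) w))) (𝓝[>] 0)
      (𝓝 (∫ ω, H (fun j => loopStat (φ j) (Γ ω)) ∂P))

/-- Joint convergence along a sequence. -/
def LimJ {X : Type} [MeasurableSpace X] (Ω : Set (ℝ × ℝ)) (P : Measure X)
    (σ : (ℝ × ℝ → ℝ) → X → ℝ) (Γ : X → Set (NonemptyCompacts (ℝ × ℝ))) (δs : ℕ → ℝ) : Prop :=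
  ∀ (f : ℝ × ℝ → ℝ) (n : ℕ) (φ : Fin n → LoopSp → ℝ), TestFn Ω f → (∀ j, LoopFn (φ j)) →
    ∀ H : ℝ × (Fin n → ℝ) → ℝ, Continuous H → (∃ C, ∀ y, |H y| ≤ C) →
    Tendsto (fun k => lE (DD Ω (δs k)) (fun w =>
        H (sf Ω (δs k) f w, fun j => wSt (δs k) (φ j) w))) atTop
      (𝓝 (∫ ω, H (σ f ω, fun j => loopStat (φ j) (Γ ω)) ∂P))

/-- PROOF. For `δ > 0`, `Simp (faces Ω δ)` (`FacesSimp`), so by `IsingLoop`
`isingE (faces Ω δ) (fun A => g (walls A)) = lE (DD Ω δ) g`; `spinField .. A = sf .. (walls A)` and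
`wallStat δ φ A = wSt δ φ (walls A)`. Use `ConvLaw` with `m = 1, n = 0`, with `m = 0`, and with `m = 1`.
THEOREM: `theorem transS (h1 : IsingLoop) (h2 : FacesSimp) : TransS` in `TransS.lean`. -/
def TransS : Prop :=
  ∀ (Ω : Set (ℝ × ℝ)), IsOpen Ω → IsConnected Ω → Bornology.IsBounded Ω → IsConnected Ωᶜ →
  ∀ (X : Type) [MeasurableSpace X] (P : Measure X) [IsProbabilityMeasure P]
    (σ : (ℝ × ℝ → ℝ) → X → ℝ) (Γ : X → Set (NonemptyCompacts (ℝ × ℝ))),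
  (∀ f, TestFn Ω f → Measurable (σ f)) →
  (∀ φ, LoopFn φ → Measurable fun ω => loopStat φ (Γ ω)) →
  IsNested Ω P Γ →
  (∀ (m : ℕ) (f : Fin m → ℝ × ℝ → ℝ), (∀ i, TestFn Ω (f i)) →
    ConvLaw Ω P σ Γ (𝓝[>] 0) f (Fin.elim0 : Fin 0 → LoopSp → ℝ)) →
  (∀ (n : ℕ) (φ : Fin n → LoopSp → ℝ), (∀ j, LoopFn (φ j)) →
    ConvLaw Ω P σ Γ (𝓝[>] 0) (Fin.elim0 : Fin 0 → ℝ × ℝ → ℝ) φ) →
  Lim Ω P σ Γ ∧
  ∀ (δs : ℕ → ℝ), (∀ k, 0 < δs k) → Tendsto δs atTop (𝓝 0) →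
  (∀ (m n : ℕ) (f : Fin m → ℝ × ℝ → ℝ) (φ : Fin n → LoopSp → ℝ), (∀ i, TestFn Ω (f i)) →
    (∀ j, LoopFn (φ j)) → ConvLaw Ω P σ Γ (map δs atTop) f φ) → LimJ Ω P σ Γ δs

/-- Portmanteau. PROOF. `F` closed: the bounded continuous functions `H_k = thickenedIndicator` (or
`max 0 (1 - k * infDist · F)`, `F ≠ ∅`) decrease to the indicator of `F`, so `∫ H_k (Y ω) ≤ P.real {Y ∈ F} + ε / 2` for some `k`
(dominated convergence), and `lP (Z ∈ F) ≤ lE (H_k Z)`, which is `≤ ∫ H_k (Y ω) + ε / 2` for small `δ`. `G` open: complement.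
THEOREM: `theorem portS (h : LEFacts) : PortS` in `PortS.lean`. -/
def PortS : Prop :=
  ∀ (X : Type) [MeasurableSpace X] (P : Measure X) [IsProbabilityMeasure P] (Ω : Set (ℝ × ℝ)) (n : ℕ)
    (Z : ℝ → Finset Edge → (Fin n → ℝ)) (Y : X → (Fin n → ℝ)), Measurable Y →
    (∀ H : (Fin n → ℝ) → ℝ, Continuous H → (∃ C, ∀ y, |H y| ≤ C) →
      Tendsto (fun δ => lE (DD Ω δ) (fun w => H (Z δ w))) (𝓝[>] 0) (𝓝 (∫ ω, H (Y ω) ∂P))) →
    (∀ F : Set (Fin n → ℝ), IsClosed F → ∀ ε > 0, ∃ δ₀ > 0, ∀ δ, 0 < δ → δ < δ₀ →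
      lP (DD Ω δ) (fun w => Z δ w ∈ F) ≤ P.real {ω | Y ω ∈ F} + ε) ∧
    (∀ G : Set (Fin n → ℝ), IsOpen G → ∀ ε > 0, ∃ δ₀ > 0, ∀ δ, 0 < δ → δ < δ₀ →
      P.real {ω | Y ω ∈ G} - ε ≤ lP (DD Ω δ) (fun w => Z δ w ∈ G))

/-- Filled sets. PROOF. `K` compact and nonempty. 1: if `z ∉ fill K` then `z ∉ K` and the component of `z` in the open set `Kᶜ` is
open and unbounded, and all its points are outside `fill K`; so `fill K` is closed. If `K ⊆ closedBall x a` and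
`z ∉ closedBall x a` then the ray `x + t (z - x)`, `t ≥ 1`, is connected, unbounded and avoids `K`; so `fill K ⊆ closedBall x a`.
2: a preconnected set `C` disjoint from `K` is contained in one component of `Kᶜ` (if it is not empty). 3: `C = closedBall x ρ` in 2. 4: let
`z ∈ fill K`, `z ∉ K`, `d = diam K`, `y ∈ K`; if `d < infDist z K` the ball `closedBall z ρ` with `d < ρ < infDist z K` is in `fill K` (3), and
`fill K ⊆ closedBall y d`, so `closedBall z ρ ⊆ closedBall y d` with `ρ > d`, impossible. 5: suppose `r = infDist z K = infDist z K'`. Let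
`y' ∈ K'` with `dist z y' = r`; the set `ball z r ∪ {y'}` is connected and disjoint from `K`, so `y'` is in the component of `z` in
`Kᶜ`, which is bounded; `K'` is connected and disjoint from `K`, so `K'` is contained in this component. In the same way `K` is
contained in the component of `z` in `K'ᶜ`, which is bounded. Let `x` be a point of `K ∪ K'` with largest first coordinate, say `x ∈ K`
(the other case is symmetric): the ray `x + t (1, 0)`, `t ≥ 0`, avoids `K'`, so the component of `x` in `K'ᶜ` is unbounded: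
contradiction.
THEOREM: `theorem fillFacts : FillFacts` in `FillFacts.lean`. -/
def FillFacts : Prop :=
  (∀ K : Set (ℝ × ℝ), IsCompact K → K.Nonempty → IsCompact (fill K) ∧ K ⊆ fill K ∧
    (fill K).Nonempty ∧ ∀ (x : ℝ × ℝ) (a : ℝ), K ⊆ closedBall x a → fill K ⊆ closedBall x a) ∧
  (∀ K C : Set (ℝ × ℝ), IsCompact K → K.Nonempty → IsPreconnected C → Disjoint C K →
    C ⊆ fill K ∨ Disjoint C (fill K)) ∧
  (∀ (K : Set (ℝ × ℝ)) (z : ℝ × ℝ) (ρ : ℝ), IsCompact K → K.Nonempty → 0 ≤ ρ → ρ < infDist z K →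
    (z ∈ fill K ∧ closedBall z ρ ⊆ fill K ∧ infDist z (fill K) = 0) ∨
      (z ∉ fill K ∧ ρ ≤ infDist z (fill K))) ∧
  (∀ (K : Set (ℝ × ℝ)) (z : ℝ × ℝ), IsCompact K → K.Nonempty → z ∈ fill K → z ∉ K →
    0 < infDist z K ∧ infDist z K ≤ diam K) ∧
  (∀ (K K' : Set (ℝ × ℝ)) (z : ℝ × ℝ), IsCompact K → IsCompact K' → IsConnected K →
    IsConnected K' → Disjoint K K' → z ∈ fill K → z ∉ K → z ∈ fill K' → z ∉ K' →
    infDist z K ≠ infDist z K')

/-- Piecewise linear: `1` for `t ≤ a`, `0` for `t ≥ b`. -/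
noncomputable def ramp (a b t : ℝ) : ℝ := max 0 (min 1 ((b - t) / (b - a)))

/-- Basic facts. PROOF. 1: `infDist x`, `diam` are Lipschitz for the Hausdorff distance. 2: clear. 3: in `loopStat φ G` only the
finitely many `K ∈ G` with `diam K ≥ ρ` contribute (`LoopFn`), so the `finsum` is a finite sum. 4: `K1 δ c` is compact, nonempty and, for a
component, connected: consecutive edges share an end; `K2 δ c` is compact (`GeoFacts`); `diam K1` is what it should be.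
THEOREM: `theorem statFacts (h1 : CompFacts) (h2 : GeoFacts) (h3 : FillFacts) : StatFacts` in `StatFacts.lean`. -/
def StatFacts : Prop :=
  ((∀ x : ℝ × ℝ, Continuous fun K : NonemptyCompacts (ℝ × ℝ) => infDist x (K : Set (ℝ × ℝ))) ∧
    Continuous fun K : NonemptyCompacts (ℝ × ℝ) => diam (K : Set (ℝ × ℝ))) ∧
  (∀ a b : ℝ, a < b → Continuous (ramp a b) ∧ (∀ t, 0 ≤ ramp a b t ∧ ramp a b t ≤ 1) ∧
    (∀ t ≤ a, ramp a b t = 1) ∧ (∀ t ≥ b, ramp a b t = 0) ∧ (∀ t < b, 0 < ramp a b t) ∧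
    ∀ t > a, ramp a b t < 1) ∧
  (∀ (G : Set (NonemptyCompacts (ℝ × ℝ))),
    (∀ ρ > 0, {K ∈ G | ρ ≤ diam (K : Set (ℝ × ℝ))}.Finite) → ∀ φ : LoopSp → ℝ, LoopFn φ →
    ((loopStat φ G ≠ 0 → ∃ K ∈ G, φ (K, toNC (fill (K : Set (ℝ × ℝ)))) ≠ 0) ∧
    ((∀ K, 0 ≤ φ K) → 0 ≤ loopStat φ G ∧
      (∀ K ∈ G, φ (K, toNC (fill (K : Set (ℝ × ℝ)))) ≤ loopStat φ G) ∧
      ((∀ K, φ K ≤ 1) → 1 < loopStat φ G → ∃ K ∈ G, ∃ K' ∈ G, K ≠ K' ∧
        φ (K, toNC (fill (K : Set (ℝ × ℝ)))) ≠ 0 ∧ φ (K', toNC (fill (K' : Set (ℝ × ℝ)))) ≠ 0)) ∧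
    ((∀ K ∈ G, φ (K, toNC (fill (K : Set (ℝ × ℝ)))) = 0 ∨ φ (K, toNC (fill (K : Set (ℝ × ℝ)))) = 1) →
      loopStat φ G = (Set.ncard {K ∈ G | φ (K, toNC (fill (K : Set (ℝ × ℝ)))) = 1} : ℝ)))) ∧
  (∀ K : NonemptyCompacts (ℝ × ℝ),
    ((toNC (fill (K : Set (ℝ × ℝ))) : NonemptyCompacts (ℝ × ℝ)) : Set (ℝ × ℝ)) =
      fill (K : Set (ℝ × ℝ))) ∧
  (∀ (δ : ℝ) (w : Finset Edge), 0 < δ → Even' w → ∀ c ∈ comps w,
    ((toNC (K1 δ c) : NonemptyCompacts (ℝ × ℝ)) : Set (ℝ × ℝ)) = K1 δ c ∧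
    ((toNC (K2 δ c) : NonemptyCompacts (ℝ × ℝ)) : Set (ℝ × ℝ)) = K2 δ c ∧
    IsConnected (K1 δ c))

/-- A component does not come close to the ball from inside: if it does not meet `closedBall x ρ` then the filled component contains `x`
or has distance `≥ 3 ρ / 4`. PROOF. If `y ∈ K2 δ c` with `dist x y < 3 ρ / 4` then `y ∉ K1 δ c`, so `y` is in a cell `u` with
`cnt c u` odd; `ctr δ u` and `ctr δ (ref δ x)` are in `closedBall x ρ`, so `cnt c (ref δ x)` is odd (`GeoFacts` 3) and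
`x ∈ cell δ (ref δ x) ⊆ K2 δ c`.
THEOREM: `theorem gapS (h : GeoFacts) : GapS` in `GapS.lean`. -/
def GapS : Prop :=
  ∀ (δ ρ : ℝ) (x : ℝ × ℝ) (c : Finset Edge), 0 < δ → 8 * δ ≤ ρ → Even' c → c.Nonempty →
    ρ < infDist x (K1 δ c) →
    (Odd (cnt c (ref δ x)) ∧ infDist x (K2 δ c) = 0 ∧ x ∈ K2 δ c) ∨
      (Even (cnt c (ref δ x)) ∧ 3 / 4 * ρ ≤ infDist x (K2 δ c))

/-! ### Almost sure properties of the limit and small probabilities on the lattice -/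

/-- Connectedness passes to the limit. PROOF. The set of the `K : NonemptyCompacts (ℝ × ℝ)` which are not connected is open: if
`K = K₁ ∪ K₂` with nonempty compact sets at distance `3 l`, then every `K'` at Hausdorff distance `< l` of `K` meets the `l`-neighbourhoods
of `K₁` and of `K₂` and is contained in their union. For `K₀` not connected, `diam K₀ > 0`, take `l` such that the ball of radius
`l` around `K₀` contains no connected set, and `φ (K, L) = ramp (l / 4) (l / 2) (dist K K₀) * (1 - ramp (d / 2) d (diam K))`,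
`0 < d ≤ diam K₀`. It is a `LoopFn`, and `wSt δ φ w = 0` for even `w`, `δ > 0`, since `K1 δ c` is connected. By `cvW` with `H y = min 1 |y|`,
`N φ = 0` almost surely. By second countability countably many balls `dist K K₀ < l / 4` (with `d = 1 / (k + 1)`) cover the sets which are
not connected, and almost surely all these `N φ` vanish; then no `K ∈ Γ ω` with `diam K > 0` is disconnected
(`StatFacts`: `φ K ≤ N φ`).
THEOREM: `theorem connS (h1 : StatFacts) : ConnS` in `ConnS.lean`. -/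
def ConnS : Prop :=
  ∀ (X : Type) [MeasurableSpace X] (P : Measure X) [IsProbabilityMeasure P] (Ω : Set (ℝ × ℝ))
    (σ : (ℝ × ℝ → ℝ) → X → ℝ) (Γ : X → Set (NonemptyCompacts (ℝ × ℝ))), Lim Ω P σ Γ →
    ∀ᵐ ω ∂P, ∀ K ∈ Γ ω, 0 < diam (K : Set (ℝ × ℝ)) → IsConnected (K : Set (ℝ × ℝ))

/-- Generic thresholds. PROOF. It is enough to show that for every `d, ε > 0` the set `T` of the `t` such that the outer measure of
`B t = {ω | ∃ K ∈ Γ ω, d ≤ diam K ∧ F K = t}` is `> ε` is finite (take `d, ε = 1 / (k + 1)`). Let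
`χ (K, L) = 1 - ramp (d / 2) d (diam K)`; choose `m` with `P (N χ > m) ≤ ε / 2`. Let `t_1, .., t_k ∈ T` be different, `0 < l` less than half
of their differences, `φ_i (K, L) = χ (K, L) * max 0 (1 - |F K - t_i| / l)`. Then `B t_i ⊆ {N φ_i ≥ 1}` (almost surely, by local
finiteness; these are measurable sets), and `∑ i, 1 {N φ_i ≥ 1} ≤ ∑ i, N φ_i ≤ N χ` (the supports of the `φ_i` are disjoint, `0 ≤ φ_i ≤ χ`).
So `k ε ≤ ∑ i, P (N φ_i ≥ 1) ≤ E (N χ; N χ ≤ m) + k P (N χ > m) ≤ m + k ε / 2`, that is `k ≤ 2 m / ε`.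
THEOREM: `theorem genS (h1 : StatFacts) : GenS` in `GenS.lean`. -/
def GenS : Prop :=
  ∀ (X : Type) [MeasurableSpace X] (P : Measure X) [IsProbabilityMeasure P] (Ω : Set (ℝ × ℝ))
    (σ : (ℝ × ℝ → ℝ) → X → ℝ) (Γ : X → Set (NonemptyCompacts (ℝ × ℝ))), Lim Ω P σ Γ →
    ∀ F : NonemptyCompacts (ℝ × ℝ) → ℝ, Continuous F →
    Set.Countable {t : ℝ | ¬ ∀ᵐ ω ∂P, ∀ K ∈ Γ ω, 0 < diam (K : Set (ℝ × ℝ)) → F K ≠ t}

/-- A generic threshold is not approached on the lattice. PROOF. For `k ≥ 1` let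
`φ_k (K, L) = (1 - ramp (d / 2) d (diam K)) * ramp (1 / k) (2 / k) |F K - t|`, a `LoopFn`. On the lattice event with `l = 1 / k`
`N φ_k ≥ 1`. In the limit `N φ_k ≥ 1` implies that some `K ∈ Γ ω` has `diam K > d / 2` and `|F K - t| < 2 / k` (`StatFacts`); since there are
finitely many `K` with `diam K ≥ d / 2` and none of them has `F K = t`, almost surely this happens only for finitely many `k`. So
`P (N φ_k ≥ 1) → 0` (`tendsto_measure..` or dominated convergence for the indicators); choose `k` with `P (N φ_k ≥ 1) ≤ ε / 2` and use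
`PortS` with the closed set `{y | 1 ≤ y 0}`.
THEOREM: `theorem inGenS (h1 : StatFacts) (h2 : PortS) (h3 : LEFacts) : InGenS` in `InGenS.lean`. -/
def InGenS : Prop :=
  ∀ (X : Type) [MeasurableSpace X] (P : Measure X) [IsProbabilityMeasure P] (Ω : Set (ℝ × ℝ))
    (σ : (ℝ × ℝ → ℝ) → X → ℝ) (Γ : X → Set (NonemptyCompacts (ℝ × ℝ))), Lim Ω P σ Γ →
    ∀ (F : NonemptyCompacts (ℝ × ℝ) → ℝ) (t : ℝ), Continuous F →
    (∀ᵐ ω ∂P, ∀ K ∈ Γ ω, 0 < diam (K : Set (ℝ × ℝ)) → F K ≠ t) → ∀ d > 0, ∀ ε > 0,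
    ∃ l > 0, ∃ δ₀ > 0, ∀ δ, 0 < δ → δ < δ₀ →
      lP (DD Ω δ) (fun w => ∃ c ∈ comps w, d ≤ diam (K1 δ c) ∧ |F (toNC (K1 δ c)) - t| ≤ l) ≤ ε

/-- Large components do not come close to each other. PROOF. Let `Ω ⊆ closedBall 0 A`. For `l = 1 / (k + 1)` cover the compact set of
the `K : NonemptyCompacts (ℝ × ℝ)` contained in `closedBall 0 A` by finitely many balls of radius `l` with centres `K_i`. Let
`φ_i (K, L) = ramp l (2 l) (dist K K_i) * (1 - ramp (d / 2) d (diam K))` and `φ_ij = max φ_i φ_j` for the pairs `(i, j)` such that some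
points of `K_i` and `K_j` have distance `≤ 3 l`. On the lattice `E2 δ d l w` implies `N φ_ij ≥ 2` for some such pair (`c` in the
ball `i`, `c' ≠ c` in the ball `j`, `K1 δ c ⊆ Ω`). In the limit `N φ_ij ≥ 2` gives `K ≠ K'` in `Γ ω` with `φ_ij ≠ 0` (`StatFacts`,
`φ_ij ≤ 1`), so of diameter `> d / 2` and with points at distance `≤ 7 l` (`≤ 4 l` if both are close to the same `K_i`). By local
finiteness and disjointness (compact sets) this is impossible almost surely for `k` large. So the measurable event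
`{N φ_ij ≥ 2 for some pair}` has probability `≤ ε / 2` for large `k`; `PortS` with the closed set `{y | ∃ j, 2 ≤ y j}`.
THEOREM: `theorem inE2S (h1 : StatFacts) (h2 : PortS) (h3 : LEFacts) (h4 : GeoFacts) : InE2S` in `InE2S.lean`. -/
def InE2S : Prop :=
  ∀ (X : Type) [MeasurableSpace X] (P : Measure X) [IsProbabilityMeasure P] (Ω : Set (ℝ × ℝ))
    (σ : (ℝ × ℝ → ℝ) → X → ℝ) (Γ : X → Set (NonemptyCompacts (ℝ × ℝ))), Lim Ω P σ Γ → InE2 Ω

/-! ### The inputs of part M -/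

/-- PROOF. There is `z₀ ∈ Ω` and a smooth `g ≥ 0` with compact support in `Ω` and `g ≥ 1` on some `closedBall z₀ a` (bump function).
Let `Z = sf Ω δ g`, `m = lE Z ^ 2`; `lE Z ^ 4 ≤ 3 m ^ 2` (`Fourth`, `Simp (faces Ω δ)`, `g ≥ 0`). If `m > 0`:
`m ≤ m / 2 + lE (Z ^ 2; Z ^ 2 ≥ m / 2) ≤ m / 2 + √(3 m ^ 2) √lP (Z ^ 2 ≥ m / 2)`, so `lP (Z ^ 2 ≥ m / 2) ≥ 1 / 12`. By `cvS` with
`H y = min 1 (max 0 (|y| - k))` and `∫ H (σ g) < 1 / 24` for large `k`: `lP (|Z| ≥ k + 1) ≤ lE (H Z) < 1 / 12` for small `δ`; so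
`m ≤ 2 (k + 1) ^ 2`.
THEOREM: `theorem inUpS (h1 : Fourth) (h2 : FacesSimp) (h3 : LEFacts) : InUpS` in `InUpS.lean`. -/
def InUpS : Prop :=
  ∀ (X : Type) [MeasurableSpace X] (P : Measure X) [IsProbabilityMeasure P] (Ω : Set (ℝ × ℝ))
    (σ : (ℝ × ℝ → ℝ) → X → ℝ) (Γ : X → Set (NonemptyCompacts (ℝ × ℝ))), Lim Ω P σ Γ → InUp Ω

/-- PROOF. Let `σ f` be not almost surely `0`; `c = ∫ min 1 (σ f) ^ 2 / 2 > 0`; by `cvS`, `lE (sf f) ^ 2 ≥ lE (min 1 (sf f ^ 2)) ≥ c`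
for small `δ`. Let `g ≥ |f|` be a test function (a multiple of a smooth function which is `1` on `tsupport f`). Since
`c2 ≥ 0` (`MonoC`), `lE (sf f) ^ 2 = δ ^ (15/4) ∑ u v, f f c2 ≤ δ ^ (15/4) ∑ u v, g g c2 = lE (sf g) ^ 2`.
THEOREM: `theorem inLowS (h1 : MonoC) (h2 : LEFacts) : InLowS` in `InLowS.lean`. -/
def InLowS : Prop :=
  ∀ (X : Type) [MeasurableSpace X] (P : Measure X) [IsProbabilityMeasure P] (Ω : Set (ℝ × ℝ))
    (σ : (ℝ × ℝ → ℝ) → X → ℝ) (Γ : X → Set (NonemptyCompacts (ℝ × ℝ))), Lim Ω P σ Γ →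
    (∃ f, TestFn Ω f ∧ ¬ σ f =ᵐ[P] 0) → InLow Ω

/-- PROOF. Let `z₀ ∈ Ω`, `ρ₀ = 1`. By nestedness almost surely some `K ∈ Γ ω` has `K ⊆ ball z₀ (1 / 2)`, `z₀ ∈ fill K`, `z₀ ∉ K`; then
`0 < infDist z₀ K ≤ diam K` (`FillFacts`). So for `r₁ < 1 / 4` small the (measurable or outer) probability that there is such a `K` with
`infDist z₀ K > 2 r₁` is at least `1 - ε / 4`: for such `K` the function
`φ (K, L) = ramp (1/2) (3/4) (dist K {z₀}) * (1 - ramp r₁ (2 r₁) (infDist z₀ K)) * ramp (r₁/4) (r₁/2) (infDist z₀ L) * (1 - ramp (r₁/2) r₁ (diam K))`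
(`dist K {z₀}` = largest distance of a point of `K` from `z₀`) is `1`, so `P (N φ > 1 / 2) ≥ 1 - ε / 2`, and by `PortS`
`lP (N φ > 1 / 2) ≥ 1 - ε` for small `δ`. `N φ > 1 / 2` gives a component `c` with `K1 δ c ⊆ ball z₀ 1`, `r₁ < infDist z₀ (K1 δ c)`,
`infDist z₀ (K2 δ c) < r₁ / 2`; by `GapS` `cnt c (ref δ z₀)` is odd, and by `GeoFacts` 3 all `cnt c u` with `ctr δ u ∈ closedBall z₀ r₁` are
odd. `r₀ = r₁`.
THEOREM: `theorem inCircS (h1 : StatFacts) (h2 : PortS) (h3 : FillFacts) (h4 : GapS) (h5 : GeoFacts) (h6 : LEFacts) : InCircS` in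
`InCircS.lean`. -/
def InCircS : Prop :=
  ∀ (X : Type) [MeasurableSpace X] (P : Measure X) [IsProbabilityMeasure P] (Ω : Set (ℝ × ℝ))
    (σ : (ℝ × ℝ → ℝ) → X → ℝ) (Γ : X → Set (NonemptyCompacts (ℝ × ℝ))), Lim Ω P σ Γ → InCirc Ω

/-- PROOF. Let `z₀ ∈ Ω`. Almost surely: the loops of positive diameter are connected (`ConnS`), different loops are disjoint, local
finiteness, nestedness at `z₀`. Let `Sur` be the set of the `K ∈ Γ ω` with `z₀ ∈ fill K`, `z₀ ∉ K`; for them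
`0 < infDist z₀ K ≤ diam K`, so for every `t > 0` only finitely many have `infDist z₀ K ≥ t`, and the values `infDist z₀ K` are
different (`FillFacts` 5). `Sur` has at least two elements (take `K` in `Sur`, then one in `ball z₀ (infDist z₀ K)`). Let `r₁ > r₂` be the two
largest values, and `a < b` rational numbers in `(r₂, r₁)`. So for some rational `0 < a < b` the outer measure of the event `G` is positive:
exactly one `K₁ ∈ Γ ω` has `z₀ ∈ fill K₁` and `infDist z₀ K₁ > a`, and `infDist z₀ K₁ > b`. Put `r₀ = (a + b) / 2`, `l = (b - a) / 4`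
and `J (K, L) = ramp (a/2) (3 a/4) (infDist z₀ L) * (1 - ramp (a/2) a (diam K))`,
`φ = J * (1 - ramp (r₀ - l) (r₀ + l) (infDist z₀ K))`, `ψ = J * (1 - ramp a (r₀ - l) (infDist z₀ K)) * ramp (r₀ + l) b (infDist z₀ K)`. On
`G`: `N φ = 1`, `N ψ = 0` (`FillFacts` 3: a loop with `infDist z₀ K > a` and `z₀ ∉ fill K` has `infDist z₀ (fill K) ≥ a`). So the open event
`|N φ - 1| < 1/4`, `|N ψ| < 1/2` has probability `2 c > 0`; by `PortS` its probability on the lattice is `≥ c` for small `δ`. On the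
lattice (`8 δ ≤ a`) it implies the event of `InOdd`: a component `k` with `cnt k (ref δ z₀)` odd and `infDist z₀ (K1 δ k)` in
`(r₀ - l, r₀ + l)` would have `ψ = 1` (`GapS` with `ρ = a`; its diameter is `≥ 2 a`, `GeoFacts` 4), so `N ψ ≥ 1`; and `N φ` is
the number of the `k` with `infDist ≥ r₀ + l` and `cnt k (ref δ z₀)` odd (by `GapS` the others contribute `0`), so this number is `1`.
THEOREM: `theorem inOddS (h1 : StatFacts) (h2 : PortS) (h3 : FillFacts) (h4 : GapS) (h5 : GeoFacts) (h6 : LEFacts) (h7 : ConnS) :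
InOddS` in `InOddS.lean`. -/
def InOddS : Prop :=
  ∀ (X : Type) [MeasurableSpace X] (P : Measure X) [IsProbabilityMeasure P] (Ω : Set (ℝ × ℝ))
    (σ : (ℝ × ℝ → ℝ) → X → ℝ) (Γ : X → Set (NonemptyCompacts (ℝ × ℝ))), Lim Ω P σ Γ → InOdd Ω

/-- Bounded second moments for all test functions. PROOF. Let `Ω ⊆ closedBall 0 A`, `|f| ≤ M`. For `r > 0` small every `b` has `f = 0` on
`sq r b` or `closedBall (cen r b) (2 r) ⊆ Ω`. By `Split` (`p = ⟨Ω, A, r, 11 r / 16, r / 8, 1, 3 / 4⟩`) `sf = ∑ b ∈ Ix A r, aV b`, and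
`lE (aV b ^ 2) ≤ C M ^ 2 r ^ (15/4)` (`MomS`) or `aV b = 0`; Cauchy.
THEOREM: `theorem sfBdS (h1 : MomS) (h2 : Split) (h3 : LEFacts) : SfBdS` in `SfBdS.lean`. -/
def SfBdS : Prop :=
  MmUp → ∀ (Ω : Set (ℝ × ℝ)), IsOpen Ω → Bornology.IsBounded Ω → IsConnected Ωᶜ → ∀ f, TestFn Ω f →
    ∃ C δ₀ : ℝ, 0 < δ₀ ∧ ∀ δ, 0 < δ → δ < δ₀ → lE (DD Ω δ) (fun w => sf Ω δ f w ^ 2) ≤ C

/-! ### Convergence of the numbers of loops of each status -/

/-- The parameters are generic. -/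
def GenP {X : Type} [MeasurableSpace X] (p : Par) (P : Measure X)
    (Γ : X → Set (NonemptyCompacts (ℝ × ℝ))) : Prop :=
  (∀ b ∈ Ix p.A p.r, ∀ᵐ ω ∂P, ∀ K ∈ Γ ω, 0 < diam (K : Set (ℝ × ℝ)) →
    infDist (cen p.r b) (K : Set (ℝ × ℝ)) ≠ p.R) ∧
  (∀ β ∈ Ix p.A p.η, ∀ᵐ ω ∂P, ∀ K ∈ Γ ω, 0 < diam (K : Set (ℝ × ℝ)) →
    infDist (cen p.η β) (K : Set (ℝ × ℝ)) ≠ p.S) ∧
  (∀ᵐ ω ∂P, ∀ K ∈ Γ ω, 0 < diam (K : Set (ℝ × ℝ)) → diam (K : Set (ℝ × ℝ)) ≠ p.κ)

/-- The number of loops of diameter at least `κ` of each status. -/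
noncomputable def nG {X : Type} (p : Par) (Γ : X → Set (NonemptyCompacts (ℝ × ℝ))) (ω : X) (s : St) : ℕ :=
  Set.ncard {K | K ∈ Γ ω ∧ p.κ ≤ diam (K : Set (ℝ × ℝ)) ∧
    stat p (K : Set (ℝ × ℝ)) (fill (K : Set (ℝ × ℝ))) = s}

open Classical in
/-- Continuous approximation of the indicator of a status. -/
noncomputable def phi (p : Par) (l : ℝ) (s : St) (K : LoopSp) : ℝ :=
  (1 - ramp (p.κ - l) p.κ (diam (K.1 : Set (ℝ × ℝ)))) *
  (∏ b ∈ Ix p.A p.r, if b ∈ s.1 then ramp p.R (p.R + l) (infDist (cen p.r b) (K.1 : Set (ℝ × ℝ)))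
    else 1 - ramp p.R (p.R + l) (infDist (cen p.r b) (K.1 : Set (ℝ × ℝ)))) *
  (∏ b ∈ Ix p.A p.r, if b ∈ s.2.1
    then (1 - ramp p.R (p.R + l) (infDist (cen p.r b) (K.1 : Set (ℝ × ℝ)))) *
      ramp (p.R / 2) (3 / 4 * p.R) (infDist (cen p.r b) (K.2 : Set (ℝ × ℝ)))
    else 1 - (1 - ramp p.R (p.R + l) (infDist (cen p.r b) (K.1 : Set (ℝ × ℝ)))) *
      ramp (p.R / 2) (3 / 4 * p.R) (infDist (cen p.r b) (K.2 : Set (ℝ × ℝ)))) *
  ∏ β ∈ Ix p.A p.η, if β ∈ s.2.2 then ramp p.S (p.S + l) (infDist (cen p.η β) (K.1 : Set (ℝ × ℝ)))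
    else 1 - ramp p.S (p.S + l) (infDist (cen p.η β) (K.1 : Set (ℝ × ℝ)))

/-- `K` is close to a threshold. -/
def crit (p : Par) (l : ℝ) (K : Set (ℝ × ℝ)) : Prop :=
  p.κ / 2 ≤ diam K ∧ (|diam K - p.κ| ≤ l ∨
    (∃ b ∈ Ix p.A p.r, |infDist (cen p.r b) K - p.R| ≤ l) ∨
    ∃ β ∈ Ix p.A p.η, |infDist (cen p.η β) K - p.S| ≤ l)

/-- PROOF. 1: a product of continuous functions; it vanishes if `diam < κ / 2`. 2, 3: a loop which is not critical contributes the same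
to both sides: if `diam K < κ / 2` (or `≤ κ - l`) both are `0`; otherwise `|diam K - κ| > l`, all the ramps in `infDist (cen ..) K.1` are the
indicators of `infDist ≤ R` (`≤ S`), and if `infDist (cen r b) K.1 > R` then `infDist (cen r b) K.2` is `≤ R / 2` or
`≥ 3 R / 4` (`GapS` on the lattice, `FillFacts` 3 in the limit). If `s` is not in `Sts p` both are `0` for `nst` and `nG`; statuses are always in `Sts p`.
4: there are finitely many loops with `diam ≥ κ / 2`, and by `GenP` none of them is critical for `l = 0`; so none is for small `l`. 5: `InGenS` for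
`F = diam`, `infDist (cen r b)`, `infDist (cen η β)` with `d = κ / 2`, and a finite union.
THEOREM: `theorem phiS (h1 : StatFacts) (h2 : GapS) (h3 : FillFacts) (h4 : InGenS) (h5 : LEFacts) (h6 : CompFacts) : PhiS` in
`PhiS.lean`. -/
def PhiS : Prop :=
  ∀ (p : Par), p.Good →
    (∀ (l : ℝ) (s : St), 0 < l → l < p.κ / 2 → LoopFn (phi p l s) ∧ ∀ K, 0 ≤ phi p l s K ∧ phi p l s K ≤ 1) ∧
    (∀ (δ l : ℝ) (w : Finset Edge), 0 < δ → 16 * δ ≤ p.r → 0 < l → l < p.κ / 2 → Even' w →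
      (∀ c ∈ comps w, ¬ crit p l (K1 δ c)) → ∀ s ∈ Sts p, wSt δ (phi p l s) w = (nst p δ w s : ℝ)) ∧
    (∀ (G : Set (NonemptyCompacts (ℝ × ℝ))) (l : ℝ),
      (∀ ρ > 0, {K ∈ G | ρ ≤ diam (K : Set (ℝ × ℝ))}.Finite) → 0 < l → l < p.κ / 2 →
      (∀ K ∈ G, ¬ crit p l (K : Set (ℝ × ℝ))) → ∀ s ∈ Sts p,
      loopStat (phi p l s) G = (Set.ncard {K | K ∈ G ∧ p.κ ≤ diam (K : Set (ℝ × ℝ)) ∧
        stat p (K : Set (ℝ × ℝ)) (fill (K : Set (ℝ × ℝ))) = s} : ℝ)) ∧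
    (∀ (X : Type) [MeasurableSpace X] (P : Measure X) [IsProbabilityMeasure P]
      (σ : (ℝ × ℝ → ℝ) → X → ℝ) (Γ : X → Set (NonemptyCompacts (ℝ × ℝ))), Lim p.Ω P σ Γ → GenP p P Γ →
      (∀ᵐ ω ∂P, ∃ l₀ > 0, ∀ l, 0 < l → l < l₀ → ∀ K ∈ Γ ω, ¬ crit p l (K : Set (ℝ × ℝ))) ∧
      ∀ ε > 0, ∃ l₀ > 0, ∃ δ₀ > 0, ∀ l, 0 < l → l < l₀ → ∀ δ, 0 < δ → δ < δ₀ →
        lP (DD p.Ω δ) (fun w => ∃ c ∈ comps w, crit p l (K1 δ c)) ≤ ε)

open Classical in
/-- Joint convergence of the spin field and the numbers of loops. PROOF. If `v s ≠ 0` for some `s ∉ Sts p` both sides are `0`. Otherwise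
let `H_v y = ∏ s ∈ Sts p, max 0 (1 - |y s - v s|)`, so `H_v n = 1` if `n = v` on `Sts p` and `0` for other integer vectors. For `l`
small, `|lE (1 {nst = v} G (sf)) - lE (H_v (wSt (phi p l s))_s G (sf))| ≤ sup |G| * lP (some c critical) ≤ ε` for small `δ`
(`PhiS` 2, 5). In the same way for the limit (`PhiS` 3, 4: `H_v (N (phi p l s))_s → 1 {nG = v}` almost surely as `l → 0`, dominated
convergence; this also gives the measurability of `{nG = v}` up to null sets). For fixed `l` the expectations of `H_v * G` converge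
by `LimJ` (an enumeration of `Sts p` by `Fin n`).
THEOREM: `theorem jCS (h1 : PhiS) (h2 : LEFacts) : JCS` in `JCS.lean`. -/
def JCS : Prop :=
  ∀ (X : Type) [MeasurableSpace X] (P : Measure X) [IsProbabilityMeasure P] (p : Par)
    (σ : (ℝ × ℝ → ℝ) → X → ℝ) (Γ : X → Set (NonemptyCompacts (ℝ × ℝ))) (δs : ℕ → ℝ),
    p.Good → Lim p.Ω P σ Γ → GenP p P Γ → (∀ k, 0 < δs k) → Tendsto δs atTop (𝓝 0) →
    LimJ p.Ω P σ Γ δs → ∀ f, TestFn p.Ω f → ∀ G : ℝ → ℝ, Continuous G → (∃ C, ∀ y, |G y| ≤ C) →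
    ∀ v : St → ℕ,
    Tendsto (fun k => lE (DD p.Ω (δs k)) (fun w =>
        if nst p (δs k) w = v then G (sf p.Ω (δs k) f w) else 0)) atTop
      (𝓝 (∫ ω, (if nG p Γ ω = v then G (σ f ω) else 0) ∂P))

/-- PROOF. For `s ∈ Sts p` and `j : ℕ` let `Y j s ω = loopStat (phi p (κ / (j + 3)) s) (Γ ω)`, measurable for `sigmaLoops Γ`
(`PhiS` 1). Almost surely `Y j s ω = nG p Γ ω s` for all `s ∈ Sts p` and large `j` (`PhiS` 3, 4), and `nG p Γ ω s = 0` for `s ∉ Sts p`. So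
`nG p Γ ω s = ⌊limsup_j Y j s ω⌋₊`, and `h` is a function on a countable set (the `v` supported in the finite set `Sts p`).
THEOREM: `theorem measS (h1 : PhiS) : MeasS` in `MeasS.lean`. -/
def MeasS : Prop :=
  ∀ (X : Type) [MeasurableSpace X] (P : Measure X) [IsProbabilityMeasure P] (p : Par)
    (σ : (ℝ × ℝ → ℝ) → X → ℝ) (Γ : X → Set (NonemptyCompacts (ℝ × ℝ))),
    p.Good → Lim p.Ω P σ Γ → GenP p P Γ → ∀ h : (St → ℕ) → ℝ,
    ∃ Y : X → ℝ, Measurable[sigmaLoops Γ] Y ∧ (fun ω => h (nG p Γ ω)) =ᵐ[P] Y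

/-- The approximation passes to the limit. PROOF. Write `a_v`, `b_v`, `c_v` for the limits of (respectively for) the expectations of
`1 {n = v}`, `1 {n = v} σ`, `1 {n = v} σ ^ 2`, with `n = nG`, and `a_v^k`, `b_v^k`, `c_v^k` for the lattice (`n = nst`, `σ = sf`). By `JCS`
with `G = 1`: `a_v^k → a_v`. With `G = clp T` (truncation at `T`) and `|x - clp T x| ≤ x ^ 2 / T`, `lE (sf ^ 2) ≤ C`
and `∫ (σ f) ^ 2 ≤ C` (`JCS`-type or `LimJ` convergence of `min T (y ^ 2)` and monotone convergence): `b_v^k → b_v`. With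
`G y = min T (y ^ 2)` and `T → ∞`: `liminf c_v^k ≥ c_v`. For a finite set `V` of vectors `v` with `a_v > 0`:
`∑ v ∈ V, (c_v^k - (b_v^k) ^ 2 / a_v^k) ≤ ∑ v ∈ V, lE (1 {nst = v} (sf - h_k v) ^ 2) ≤ ε`, so in the limit
`∑ v ∈ V, ∫ 1 {nG = v} (σ f - h v) ^ 2 ≤ ε` with `h v = b_v / a_v`. The set of possible `v` (supported in `Sts p`) is countable; take the
supremum over `V`.
THEOREM: `theorem t4S (h1 : JCS) (h2 : MeasS) (h3 : LEFacts) : T4S` in `T4S.lean`. -/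
def T4S : Prop :=
  ∀ (X : Type) [MeasurableSpace X] (P : Measure X) [IsProbabilityMeasure P] (p : Par)
    (σ : (ℝ × ℝ → ℝ) → X → ℝ) (Γ : X → Set (NonemptyCompacts (ℝ × ℝ))) (δs : ℕ → ℝ),
    p.Good → Lim p.Ω P σ Γ → GenP p P Γ → (∀ k, 0 < δs k) → Tendsto δs atTop (𝓝 0) →
    LimJ p.Ω P σ Γ δs → ∀ f, TestFn p.Ω f → ∀ C ε : ℝ, 0 < ε →
    (∀ᶠ k in atTop, lE (DD p.Ω (δs k)) (fun w => sf p.Ω (δs k) f w ^ 2) ≤ C) →
    (∀ᶠ k in atTop, ∃ h : (St → ℕ) → ℝ,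
      lE (DD p.Ω (δs k)) (fun w => (sf p.Ω (δs k) f w - h (nst p (δs k) w)) ^ 2) ≤ ε) →
    ∃ h : (St → ℕ) → ℝ,
      ∫⁻ ω, ENNReal.ofReal ((σ f ω - h (nG p Γ ω)) ^ 2) ∂P ≤ ENNReal.ofReal ε

/-- Choice of generic parameters. PROOF. `Ω ⊆ closedBall 0 A` with `A > 0`. `PFinS` for `ε` gives `r₀`; take `r < r₀`. By `GenS` for
`F = infDist (cen r b)`, `b ∈ Ix A r` (finitely many), some `R ∈ (5 r / 8, 3 r / 4)` is not exceptional for any of them; then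
`InE1 Ω (cen r b) R` by `InGenS` with `F K = infDist (cen r b) K` (`toNC (K1 δ c) = K1 δ c`, `StatFacts`), `InE2 Ω` by `InE2S`. Take `κ`
smaller than `κ₀` and `r / 8`, not exceptional for `F = diam`, `η < η₀` and `S ∈ (η / 2, η)` not exceptional for `infDist (cen η β)`,
`β ∈ Ix A η`. With `p = ⟨Ω, A, r, R, κ, η, S⟩` all hypotheses of `T4S` hold (`SfBdS` for the second moments), and `MeasS` replaces `h (nG p Γ)` by a
`sigmaLoops Γ` measurable `Y` which is almost surely equal.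
THEOREM: `theorem approxS (h1 : PFinS) (h2 : GenS) (h3 : InGenS) (h4 : InE2S) (h5 : StatFacts) (h6 : SfBdS) (h7 : T4S)
(h8 : MeasS) : ApproxS` in `ApproxS.lean`. -/
def ApproxS : Prop :=
  MmUp → WJoin → ∀ (X : Type) [MeasurableSpace X] (P : Measure X) [IsProbabilityMeasure P] (Ω : Set (ℝ × ℝ))
    (σ : (ℝ × ℝ → ℝ) → X → ℝ) (Γ : X → Set (NonemptyCompacts (ℝ × ℝ))) (δs : ℕ → ℝ),
    Lim Ω P σ Γ → (∀ k, 0 < δs k) → Tendsto δs atTop (𝓝 0) → LimJ Ω P σ Γ δs → ∀ f, TestFn Ω f →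
    ∀ ε > 0, ∃ Y : X → ℝ, Measurable[sigmaLoops Γ] Y ∧
      ∫⁻ ω, ENNReal.ofReal ((σ f ω - Y ω) ^ 2) ∂P ≤ ENNReal.ofReal ε

/-- The theorem. PROOF. If `σ f = 0` almost surely for all test functions, `Y = 0`. Otherwise `InUp`, `InLow`, `InCirc`, `InOdd` hold
(`InUpS` ..), so `MmUp` (`MmUpS`), `MmLow` (`MmLowS`), `AaZero` (`AaKapS`, `AaZeroS`), `Bulk` (`BulkS`), `ArmLow` (`ArmLowS`), `LatCirc`
(`LatCircS`), `UuUp` (`UuUpS`), `JoinUp` (`JoinUpS`), `WJoin` (`WJoinS`). By `ApproxS` with `ε = 4 ^ (-k)` there are `sigmaLoops Γ` measurable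
`Y_k` with `∫ (σ f - Y_k) ^ 2 ≤ 4 ^ (-k)`; so `∑ k, ∫ (σ f - Y_k) ^ 2 < ∞`, hence `Y_k → σ f` almost surely, and
`Y = limsup Y_k` is `sigmaLoops Γ` measurable. (`Ω` is nonempty because it is connected.)
THEOREM: `theorem mainS (h1 : TransS) (h2 : InUpS) (h3 : InLowS) (h4 : InCircS) (h5 : InOddS) (h6 : MmUpS) (h7 : MmLowS) (h8 : AaKapS)
(h9 : AaZeroS) (h10 : BulkS) (h11 : ArmLowS) (h12 : LatCircS) (h13 : UuUpS) (h14 : JoinUpS) (h15 : WJoinS) (h16 : ApproxS) : MainS` in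
`MainS.lean`. -/
def MainS : Prop := MainStmt

end Pool.Agent.Lib.MP_6d40c9_pr
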