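import Pool.Agent.Lib.MP_6d40c9_pr.Defs

/-!
# MP_6d40c9_pr: the statement

The plane is `ℝ × ℝ`. At mesh `δ` the faces are the closed squares `cell δ u`, `u : ℤ × ℤ`; the spins live on the faces contained in
`Ω`, all other faces have spin `+`. A spin configuration is given by the finite set `A` of the faces with spin `-`.
-/

set_option autoImplicit false

namespace Pool.Agent.Lib.MP_6d40c9_pr

open Finset MeasureTheory Filter Topology TopologicalSpace
open scoped BigOperators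

/-- The closed square of side `δ` with index `u`. -/
def cell (δ : ℝ) (u : Pt) : Set (ℝ × ℝ) :=
  {p | δ * u.1 ≤ p.1 ∧ p.1 ≤ δ * (u.1 + 1) ∧ δ * u.2 ≤ p.2 ∧ p.2 ≤ δ * (u.2 + 1)}

/-- The centre of the square. -/
noncomputable def ctr (δ : ℝ) (u : Pt) : ℝ × ℝ := (δ * (u.1 + 1 / 2), δ * (u.2 + 1 / 2))

/-- The closed segment of an edge. -/
def seg (δ : ℝ) (e : Edge) : Set (ℝ × ℝ) :=
  {p | δ * (src e).1 ≤ p.1 ∧ p.1 ≤ δ * (tgt e).1 ∧ δ * (src e).2 ≤ p.2 ∧ p.2 ≤ δ * (tgt e).2}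

open Classical in
/-- The faces contained in `Ω` (finitely many if `Ω` is bounded). -/
noncomputable def faces (Ω : Set (ℝ × ℝ)) (δ : ℝ) : Finset Pt :=
  if h : {u : Pt | cell δ u ⊆ Ω}.Finite then h.toFinset else ∅

/-- The spin of the face `u` when `A` is the set of faces with spin `-`. -/
noncomputable def spin (A : Finset Pt) (u : Pt) : ℝ := if u ∈ A then -1 else 1

/-- Boltzmann weight of the critical Ising model on the faces `F` with `+` boundary condition,
`β_c = log (1 + √2) / 2`; the sum is over the pairs of adjacent faces with at least one face in `F`. -/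
noncomputable def boltz (F A : Finset Pt) : ℝ :=
  Real.exp (Real.log (1 + Real.sqrt 2) / 2 * ∑ e ∈ LF F, spin A (fa e) * spin A (fb e))

/-- Expectation for the critical Ising model on the faces `F` with `+` boundary condition. -/
noncomputable def isingE (F : Finset Pt) (g : Finset Pt → ℝ) : ℝ :=
  (∑ A ∈ F.powerset, boltz F A * g A) / ∑ A ∈ F.powerset, boltz F A

/-- The renormalized spin field tested against `f`. -/
noncomputable def spinField (Ω : Set (ℝ × ℝ)) (δ : ℝ) (f : ℝ × ℝ → ℝ) (A : Finset Pt) : ℝ :=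
  δ ^ (15 / 8 : ℝ) * ∑ u ∈ faces Ω δ, spin A u * f (ctr δ u)

/-- The point set of a set of edges. -/
def K1 (δ : ℝ) (c : Finset Edge) : Set (ℝ × ℝ) := ⋃ e ∈ c, seg δ e

/-- The same together with the faces inside `c`: a vertical ray from the face crosses `c` an odd number of times. -/
def K2 (δ : ℝ) (c : Finset Edge) : Set (ℝ × ℝ) :=
  K1 δ c ∪ ⋃ u ∈ {u : Pt | Odd (cnt c u)}, cell δ u

open Classical in
/-- A set as a nonempty compact set (`{0}` if it is not nonempty and compact). -/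
noncomputable def toNC (S : Set (ℝ × ℝ)) : NonemptyCompacts (ℝ × ℝ) :=
  if h : IsCompact S ∧ S.Nonempty then ⟨⟨S, h.1⟩, h.2⟩ else ⟨⟨{0}, isCompact_singleton⟩, ⟨0, rfl⟩⟩

/-- Loops are recorded as pairs: the loop and the filled loop. -/
abbrev LoopSp := NonemptyCompacts (ℝ × ℝ) × NonemptyCompacts (ℝ × ℝ)

/-- Linear statistic of the domain walls: the sum of `φ` over the interfaces, that is over the connected components of the
set of the edges between faces with different spins. -/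
noncomputable def wallStat (δ : ℝ) (φ : LoopSp → ℝ) (A : Finset Pt) : ℝ :=
  ∑ c ∈ comps (walls A), φ (toNC (K1 δ c), toNC (K2 δ c))

/-- The filled loop: add the bounded components of the complement. -/
def fill (K : Set (ℝ × ℝ)) : Set (ℝ × ℝ) :=
  {z | z ∈ K ∨ Bornology.IsBounded (connectedComponentIn Kᶜ z)}

/-- Linear statistic of a collection of loops in the plane. -/
noncomputable def loopStat (φ : LoopSp → ℝ) (G : Set (NonemptyCompacts (ℝ × ℝ))) : ℝ :=
  ∑ᶠ K ∈ G, φ (K, toNC (fill (K : Set (ℝ × ℝ))))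

/-- Smooth test functions with compact support in `Ω`. -/
def TestFn (Ω : Set (ℝ × ℝ)) (f : ℝ × ℝ → ℝ) : Prop :=
  ContDiff ℝ (⊤ : ℕ∞) f ∧ HasCompactSupport f ∧ tsupport f ⊆ Ω

/-- Test functions for loops: continuous, and they ignore the loops of diameter less than some `ρ > 0`. -/
def LoopFn (φ : LoopSp → ℝ) : Prop :=
  Continuous φ ∧ ∃ ρ > 0, ∀ K : LoopSp, Metric.diam (K.1 : Set (ℝ × ℝ)) < ρ → φ K = 0

/-- The almost sure structure of a nested (simple) conformal loop ensemble: locally finite, disjoint loops, every point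
of the domain is surrounded by arbitrarily small loops. -/
structure IsNested {X : Type*} [MeasurableSpace X] (Ω : Set (ℝ × ℝ)) (P : Measure X)
    (Γ : X → Set (NonemptyCompacts (ℝ × ℝ))) : Prop where
  /-- for every `ρ > 0` only finitely many loops have diameter at least `ρ` -/
  finite : ∀ᵐ ω ∂P, ∀ ρ > 0, {K ∈ Γ ω | ρ ≤ Metric.diam (K : Set (ℝ × ℝ))}.Finite
  /-- different loops are disjoint -/
  disjoint : ∀ᵐ ω ∂P, ∀ K ∈ Γ ω, ∀ K' ∈ Γ ω, K ≠ K' →
    Disjoint (K : Set (ℝ × ℝ)) (K' : Set (ℝ × ℝ))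
  /-- every point is surrounded by arbitrarily small loops -/
  nested : ∀ z ∈ Ω, ∀ᵐ ω ∂P, ∀ ρ > 0, ∃ K ∈ Γ ω,
    (K : Set (ℝ × ℝ)) ⊆ Metric.ball z ρ ∧ z ∉ (K : Set (ℝ × ℝ)) ∧ z ∈ fill (K : Set (ℝ × ℝ))

/-- Convergence in law along the filter `𝓕` of meshes: all joint laws of finitely many values of the spin field and
finitely many loop statistics converge. -/
def ConvLaw {X : Type*} [MeasurableSpace X] (Ω : Set (ℝ × ℝ)) (P : Measure X)
    (σ : (ℝ × ℝ → ℝ) → X → ℝ) (Γ : X → Set (NonemptyCompacts (ℝ × ℝ))) (𝓕 : Filter ℝ)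
    {m n : ℕ} (f : Fin m → ℝ × ℝ → ℝ) (φ : Fin n → LoopSp → ℝ) : Prop :=
  ∀ H : (Fin m → ℝ) × (Fin n → ℝ) → ℝ, Continuous H → (∃ C, ∀ y, |H y| ≤ C) →
    Tendsto (fun δ => isingE (faces Ω δ) fun A =>
        H (fun i => spinField Ω δ (f i) A, fun j => wallStat δ (φ j) A)) 𝓕
      (𝓝 (∫ ω, H (fun i => σ (f i) ω, fun j => loopStat (φ j) (Γ ω)) ∂P))

/-- The `σ`-algebra generated by the loops. -/
@[reducible] noncomputable def sigmaLoops {X : Type*} (Γ : X → Set (NonemptyCompacts (ℝ × ℝ))) : MeasurableSpace X :=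
  ⨆ φ : {φ : LoopSp → ℝ // LoopFn φ},
    MeasurableSpace.comap (fun ω => loopStat φ.1 (Γ ω)) (borel ℝ)

/-- **Theorem.** The spin field is a measurable function of the nested loops. `hspin`, `hwalls`: the spin field and the domain
walls converge in law as `δ → 0`; `hjoint`: `(σ, Γ)` is a joint limit along some sequence `δs k → 0`. -/
def MainStmt : Prop :=
  ∀ (Ω : Set (ℝ × ℝ)), IsOpen Ω → IsConnected Ω → Bornology.IsBounded Ω → IsConnected Ωᶜ →
  ∀ (X : Type) [MeasurableSpace X] (P : Measure X) [IsProbabilityMeasure P]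
    (σ : (ℝ × ℝ → ℝ) → X → ℝ) (Γ : X → Set (NonemptyCompacts (ℝ × ℝ))),
  (∀ f, TestFn Ω f → Measurable (σ f)) →
  (∀ φ, LoopFn φ → Measurable fun ω => loopStat φ (Γ ω)) →
  IsNested Ω P Γ →
  (∀ (m : ℕ) (f : Fin m → ℝ × ℝ → ℝ), (∀ i, TestFn Ω (f i)) →
    ConvLaw Ω P σ Γ (𝓝[>] 0) f (Fin.elim0 : Fin 0 → LoopSp → ℝ)) →
  (∀ (n : ℕ) (φ : Fin n → LoopSp → ℝ), (∀ j, LoopFn (φ j)) →
    ConvLaw Ω P σ Γ (𝓝[>] 0) (Fin.elim0 : Fin 0 → ℝ × ℝ → ℝ) φ) →
  ∀ (δs : ℕ → ℝ), (∀ k, 0 < δs k) → Tendsto δs atTop (𝓝 0) →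
  (∀ (m n : ℕ) (f : Fin m → ℝ × ℝ → ℝ) (φ : Fin n → LoopSp → ℝ), (∀ i, TestFn Ω (f i)) →
    (∀ j, LoopFn (φ j)) → ConvLaw Ω P σ Γ (map δs atTop) f φ) →
  ∀ f, TestFn Ω f → ∃ Y : X → ℝ, Measurable[sigmaLoops Γ] Y ∧ σ f =ᵐ[P] Y

end Pool.Agent.Lib.MP_6d40c9_pr
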