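import Pool.Agent.Lib.MP_6d40c9_pr.SpecG
import Pool.Agent.Lib.MP_6d40c9_pr.Stmt

/-!
# Statements of part M (lattice exponents, two boxes joined by a wall)

`DD Ω δ` is the set of the sides of the faces contained in `Ω`; by `IsingLoop` the domain walls of the critical Ising model with `+`
boundary condition are distributed as the loop measure on `DD Ω δ`. The inputs `InUp`, `InLow`, `InCirc`, `InOdd` come from
the convergence in law (part L). Real powers of natural numbers are `Real.rpow`.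
-/

set_option autoImplicit false

namespace Pool.Agent.Lib.MP_6d40c9_pr

open Finset MeasureTheory Filter Topology TopologicalSpace
open scoped BigOperators symmDiff

/-- The sides of the faces contained in `Ω`. -/
noncomputable def DD (Ω : Set (ℝ × ℝ)) (δ : ℝ) : Finset Edge := LF (faces Ω δ)

/-- The spin field as a function of the domain walls. -/
noncomputable def sf (Ω : Set (ℝ × ℝ)) (δ : ℝ) (f : ℝ × ℝ → ℝ) (w : Finset Edge) : ℝ :=
  δ ^ (15 / 8 : ℝ) * ∑ u ∈ faces Ω δ, f (ctr δ u) * sgn w u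

/-- The face which contains a point. -/
noncomputable def ref (δ : ℝ) (x : ℝ × ℝ) : Pt := (⌊x.1 / δ⌋, ⌊x.2 / δ⌋)

/-- PROOF. For `A ⊆ F`: `∑ e ∈ LF F, spin A (fa e) * spin A (fb e) = |LF F| - 2 * |walls A|` (`walls A ⊆ LF F`), so
`boltz F A = exp (β_c |LF F|) * exp (-2 β_c) ^ |walls A|` and `exp (-2 β_c) = 1 / (1 + √2) = √2 - 1 = xc`. Use `LowTemp` with
`y = xc`. Second part: `GridFacts` 2.
THEOREM: `theorem isingLoop (h1 : GridFacts) (h2 : LowTemp) : IsingLoop` in `IsingLoop.lean`. -/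
def IsingLoop : Prop :=
  (∀ F : Finset Pt, Simp F → ∀ g : Finset Edge → ℝ,
    isingE F (fun A => g (walls A)) = lE (LF F) g) ∧
  (∀ (A : Finset Pt) (u : Pt), spin A u = sgn (walls A) u) ∧
  (∀ (Ω : Set (ℝ × ℝ)) (δ : ℝ) (f : ℝ × ℝ → ℝ) (A : Finset Pt),
    spinField Ω δ f A = sf Ω δ f (walls A))

/-- PROOF. `{u | cell δ u ⊆ Ω}` is finite since `Ω` is bounded. Let `w ⊆ LF F` be even, `F = faces Ω δ`. Put
`U_i` = union over the `u ∉ F` with `cnt w u ≡ i` modulo two of `cell δ u ∩ Ωᶜ`, `i = 0, 1`. Both are closed (locally finite unions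
of closed sets; only finitely many `u` have `cnt w u` odd, by `GridFacts` 5), their union is `Ωᶜ` (a point outside `Ω` lies in some cell,
and such a cell is not contained in `Ω`). They are disjoint: if `p ∉ Ω` lies in `cell δ u` and `cell δ u'`, then all cells
containing `p` are not in `F`, and `u`, `u'` are linked by a chain of adjacent faces whose cells contain `p`; the edge between two
faces outside `F` is not in `LF F`, so not in `w`, and the parity does not change (`GridFacts` 1). Since `Ωᶜ` is connected and `U_0` is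
not empty (far away), `U_1 = ∅`; each `u ∉ F` has `cell δ u ∩ Ωᶜ ≠ ∅`, so its parity is even.
THEOREM: `theorem facesSimp (h : GridFacts) : FacesSimp` in `FacesSimp.lean`. -/
def FacesSimp : Prop :=
  ∀ (Ω : Set (ℝ × ℝ)) (δ : ℝ), Bornology.IsBounded Ω → IsConnected Ωᶜ → 0 < δ →
    Simp (faces Ω δ) ∧ ∀ u, u ∈ faces Ω δ ↔ cell δ u ⊆ Ω

/-- Four point function. PROOF. `Dual` with `M = ∅` (so the weights are `xc`), `U` = symmetric difference of the four singletons;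
`Leb` for `bd = bdFc F`, `f_i = pt u_i`; its hypothesis is `ReachFacts` 4 after the relabelling `iota` (`bdFc F e = bdR F (iota e)`,
`iota` injective). Non-negativity: `Zp ≥ 0`.
THEOREM: `theorem fourPt (h1 : Dual) (h2 : Leb) (h3 : ReachFacts) : FourPt` in `FourPt.lean`. -/
def FourPt : Prop :=
  ∀ F : Finset Pt, Simp F → ∀ u₁ ∈ F, ∀ u₂ ∈ F, ∀ u₃ ∈ F, ∀ u₄ ∈ F,
    0 ≤ lE (LF F) (fun w => sgn w u₁ * sgn w u₂ * sgn w u₃ * sgn w u₄) ∧
    lE (LF F) (fun w => sgn w u₁ * sgn w u₂ * sgn w u₃ * sgn w u₄) ≤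
      c2 (LF F) u₁ u₂ * c2 (LF F) u₃ u₄ + c2 (LF F) u₁ u₃ * c2 (LF F) u₂ u₄ +
        c2 (LF F) u₁ u₄ * c2 (LF F) u₂ u₃

/-- PROOF. Expand the fourth power, bound each coefficient `g g g g` by absolute values and use `FourPt`; the three sums are
equal to the square of `∑ u v, |g u| |g v| c2 u v`.
THEOREM: `theorem fourth (h : FourPt) : Fourth` in `Fourth.lean`. -/
def Fourth : Prop :=
  ∀ F : Finset Pt, Simp F → ∀ g : Pt → ℝ,
    lE (LF F) (fun w => (∑ u ∈ F, g u * sgn w u) ^ 4) ≤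
      3 * (lE (LF F) (fun w => (∑ u ∈ F, |g u| * sgn w u) ^ 2)) ^ 2

/-- Conditioning on the spins outside a box. PROOF. Let `B = box z n`. By `LowTemp` write the left side as a sum over `A ⊆ F`,
`A = A₁ ∪ A₂`, `A₁ ⊆ B`, `A₂ ⊆ F \ B`; `P (walls A)` depends only on `walls A \ LF B = walls A₂ \ LF B`, that is on `A₂`. For fixed
`A₂` let `ζ` be the spins outside `B` (`-1` on `A₂`, `1` elsewhere): the sum over `A₁` of `xc ^ |walls A| s_u s_v` is a constant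
(depending on `A₂`) times `∑ A₁ ⊆ B, ∏ e ∈ LF B, (1 + xc * s s) * s_u s_v` (since `1 - xc = xc (1 + xc)`), which by `HighTemp`
(for `B`, `D = LF B`, `ζ`, `U = {u} ∆ {v}`) is `2 ^ |B| * Zp (bdFc B) (LF B) (chiO B ζ * xc) (pts U)`. `Signed` gives
`|that| ≤ (the same with U = ∅) * Zp (bdFc B) (LF B) xc (pts U) / Zp (bdFc B) (LF B) xc 0`, and the last quotient is
`c2 (LF B) u v` (`Dual`, `BoxSimp`). Sum over `A₂` with `P`.
THEOREM: `theorem outCond (h1 : GridFacts) (h2 : LowTemp) (h3 : HighTemp) (h4 : Dual) (h5 : Signed) (h6 : BoxSimp) : OutCond` in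
`OutCond.lean`. -/
def OutCond : Prop :=
  ∀ (F : Finset Pt) (z : Pt) (n : ℕ), Simp F → box z n ⊆ F → ∀ u ∈ box z n, ∀ v ∈ box z n,
    ∀ (P : Finset Edge → Prop) [DecidablePred P], (∀ w, P w ↔ P (w \ LF (box z n))) →
    |lE (LF F) (fun w => if P w then sgn w u * sgn w v else 0)| ≤
      lP (LF F) P * c2 (LF (box z n)) u v

/-! ### Inputs from the limit -/

/-- Bounded second moments. -/
def InUp (Ω : Set (ℝ × ℝ)) : Prop :=
  ∃ (g : ℝ × ℝ → ℝ) (z₀ : ℝ × ℝ) (a C δ₀ : ℝ), TestFn Ω g ∧ (∀ p, 0 ≤ g p) ∧ 0 < a ∧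
    (∀ p ∈ Metric.closedBall z₀ a, 1 ≤ g p) ∧ 0 < δ₀ ∧
    ∀ δ, 0 < δ → δ < δ₀ → lE (DD Ω δ) (fun w => sf Ω δ g w ^ 2) ≤ C

/-- Second moments bounded from below. -/
def InLow (Ω : Set (ℝ × ℝ)) : Prop :=
  ∃ (g : ℝ × ℝ → ℝ) (c δ₀ : ℝ), TestFn Ω g ∧ (∀ p, 0 ≤ g p) ∧ 0 < c ∧ 0 < δ₀ ∧
    ∀ δ, 0 < δ → δ < δ₀ → c ≤ lE (DD Ω δ) (fun w => sf Ω δ g w ^ 2)

/-- Wall circuits at one macroscopic scale. -/
def InCirc (Ω : Set (ℝ × ℝ)) : Prop :=
  ∀ ε > 0, ∃ (z₀ : ℝ × ℝ) (r₀ ρ₀ δ₀ : ℝ), 0 < r₀ ∧ r₀ < ρ₀ ∧ 0 < δ₀ ∧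
    ∀ δ, 0 < δ → δ < δ₀ → 1 - ε ≤ lP (DD Ω δ) (fun w => ∃ c ∈ comps w,
      K1 δ c ⊆ Metric.ball z₀ ρ₀ ∧ ∀ u, ctr δ u ∈ Metric.closedBall z₀ r₀ → Odd (cnt c u))

open Classical in
/-- The number of walls around a ball is odd with positive probability, with some room. -/
def InOdd (Ω : Set (ℝ × ℝ)) : Prop :=
  ∃ (z₀ : ℝ × ℝ) (r₀ l c δ₀ : ℝ), 0 < l ∧ l < r₀ ∧ 0 < c ∧ 0 < δ₀ ∧
    ∀ δ, 0 < δ → δ < δ₀ → c ≤ lP (DD Ω δ) (fun w =>
      Odd ((comps w).filter fun k => r₀ + l ≤ Metric.infDist z₀ (K1 δ k) ∧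
        Odd (cnt k (ref δ z₀))).card ∧
      ∀ k ∈ comps w, Odd (cnt k (ref δ z₀)) →
        Metric.infDist z₀ (K1 δ k) ≤ r₀ - l ∨ r₀ + l ≤ Metric.infDist z₀ (K1 δ k))

/-! ### Exponents -/

/-- Upper bound for the magnetization. -/
def MmUp : Prop := ∃ C : ℝ, ∀ N : ℕ, 1 ≤ N → mm N ≤ C * (N : ℝ) ^ (-(1 / 8) : ℝ)

/-- Lower bound for the magnetization. -/
def MmLow : Prop :=
  ∃ c : ℝ, 0 < c ∧ ∀ N : ℕ, 1 ≤ N → c * (N : ℝ) ^ (-(1 / 8) : ℝ) ≤ mm N

/-- PROOF. Let `Ω ⊆ closedBall 0 A`, `g, z₀, a, C, δ₀` from `InUp`. For `N ≥ 2` put `δ = 4 A / N`; then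
`faces Ω δ ⊆ box u N` for `u ∈ faces Ω δ`, so `c1 (DD Ω δ) u ≥ mm N` (`MonoC`, `Transl` 3). If `δ < δ₀` is small, all `u` with
`ctr δ u ∈ closedBall z₀ a` are in `faces Ω δ` (the ball is inside the compact support of `g`, which has positive distance from the
complement of `Ω`), there are at least `(a / δ) ^ 2` of them (`δ ≤ a`). So
`C ≥ E[sf ^ 2] ≥ E[sf] ^ 2 ≥ (δ ^ (15/8) * (a / δ) ^ 2 * mm N) ^ 2` (`lE` is the expectation of a probability measure, and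
`c1 ≥ 0`), that is `mm N ≤ √C a ^ (-2) δ ^ (1/8) = C' N ^ (-1/8)`. For the finitely many remaining `N` use `mm N ≤ 1`.
THEOREM: `theorem mmUpS (h1 : MonoC) (h2 : Transl) : MmUpS` in `MmUpS.lean`. -/
def MmUpS : Prop := ∀ Ω : Set (ℝ × ℝ), IsOpen Ω → Bornology.IsBounded Ω → InUp Ω → MmUp

/-- PROOF. Let `g ≤ G`, `supp g` at distance `≥ 4 ρ` from the complement of `Ω ⊆ closedBall 0 A`,
`c ≤ E[sf ^ 2] = δ ^ (15/4) ∑ u v, g g c2 (DD Ω δ) u v`, and for `u, v` in the sum, `2 k + 2 ≤ ldist u v` and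
`(k + 1) δ ≤ 3 ρ`: `c2 (DD Ω δ) u v ≤ mm k ^ 2` (`TwoBox`: the boxes of radius `k` around `u`, `v` consist of faces in `Ω`). Let
`n = ⌈2 A / δ⌉`, so that all `u` lie in a box of radius `n`. Near pairs, `ldist u v < ε n`: by `MmUp` and the number `≤ 8 ℓ + 8` of `v`
at distance `ℓ` from `u`, their contribution is at most `C' G ^ 2 δ ^ (15/4) n ^ 2 (ε n) ^ (7/4) ≤ C'' ε ^ (7/4)`; choose `ε` with
`C'' ε ^ (7/4) ≤ c / 2` and `ε ≤ ρ / (8 A)`. Far pairs: `c2 ≤ mm k ^ 2` with `k = ⌊ε n / 2⌋ - 2` (for `δ` small), so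
`c / 2 ≤ G ^ 2 δ ^ (15/4) (2 n + 1) ^ 4 mm k ^ 2`, that is `mm k ≥ c' n ^ (-1/8) ≥ c'' k ^ (-1/8)`. Every large `k` is
obtained; small `k`: `mm` is decreasing (`MonoC`).
THEOREM: `theorem mmLowS (h1 : MonoC) (h2 : Transl) (h3 : TwoBox) : MmLowS` in `MmLowS.lean`. -/
def MmLowS : Prop :=
  ∀ Ω : Set (ℝ × ℝ), IsOpen Ω → Bornology.IsBounded Ω → InLow Ω → MmUp → MmLow

/-- Second moments in boxes. PROOF. For `u, v ∈ box z n` at distance `ℓ ≥ 4` take `k` = minimum of `⌊(ℓ - 2) / 2⌋` and `t`; then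
`c2 D u v ≤ mm k ^ 2 ≤ C (max 1 k) ^ (-1/4) ≤ C' ℓ ^ (-1/4)` because `ℓ ≤ 2 n ≤ 16 t + 16` (`TwoBox`, `MmUp`); for `ℓ < 4` use `c2 ≤ 1`.
For fixed `u` there are at most `8 ℓ + 8` faces `v` at distance `ℓ`, so the sum over `v` is at most
`C'' ∑ ℓ ≤ 2 n, (ℓ + 1) ^ (3/4) ≤ C''' n ^ (7/4)`, and there are `(2 n + 1) ^ 2` faces `u`.
THEOREM: `theorem twoPtS (h1 : MonoC) (h2 : TwoBox) : TwoPtS` in `TwoPtS.lean`. -/
def TwoPtS : Prop :=
  MmUp → ∃ C : ℝ, ∀ (n t : ℕ) (z : Pt) (D : Finset Edge), 1 ≤ n → n ≤ 8 * t + 8 →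
    LF (box z (n + t)) ⊆ D →
    ∑ u ∈ box z n, ∑ v ∈ box z n, c2 D u v ≤ C * (n : ℝ) ^ (15 / 4 : ℝ)

/-! ### The rigid block -/

/-- PROOF. Part 1: `MonoC` (`LF (box 0 N) \ LI (box 0 n')` is contained in `LF (box 0 N') \ LI (box 0 n)`, `U = {0}`). Part 2
(`Idents` 2, `ProdDom`, `StochDom`): `aa n N = fkB 0 N (xblk 0 n) (Arm (box 0 n) (box 0 N))`; put `D₂ = EV (box 0 k)`,
`D₁ = EV (box 0 N) \ D₂`, `bd' = bdR (box 0 k)` (the edges of `D₁` have no end in `box 0 k`). An arm of `ω` from `box 0 n` to the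
outside of `box 0 N` contains an arm from `box 0 n` to the outside of `box 0 k` with edges in `D₂` (stop at the first
corner outside `box 0 k`) and an arm from `box 0 (k + 1)` to the outside of `box 0 N` with edges in `D₁` (start after the last corner
in `box 0 k`). So `aa n N ≤ fkP (bdR (box 0 N)) (EV (box 0 N)) (xblk 0 n) (P₁) * fkB 0 k (xblk 0 n) (Arm (box 0 n) (box 0 k))`, the second
factor is `aa n k` and the first is at most `fkB 0 N (xblk 0 (k+1)) (Arm (box 0 (k+1)) (box 0 N)) = aa (k+1) N` (`StochDom`, larger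
weights).
THEOREM: `theorem aaFacts (h1 : MonoC) (h2 : Idents) (h3 : ProdDom) (h4 : StochDom) : AaFacts` in `AaFacts.lean`. -/
def AaFacts : Prop :=
  (∀ n n' N N' : ℕ, n ≤ n' → n' ≤ N → N ≤ N' → 0 ≤ aa n N' ∧ aa n N' ≤ aa n' N ∧ aa n N ≤ 1) ∧
  (∀ n k N : ℕ, n ≤ k → k + 1 ≤ N → aa n N ≤ aa n k * aa (k + 1) N)

/-- PROOF. Take `z₀, r₀, l, c, δ₀` from `InOdd`, `Ω ⊆ closedBall 0 A`. For large `n` put `δ = r₀ / (n + 1)`, `u₀ = ref δ z₀`,
`S = box u₀ n`, `D = DD Ω δ`, `T e := e ∈ LF S`. The union of the cells of `S` lies between `closedBall z₀ (δ n)` and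
`closedBall z₀ r₀`, and `δ n > r₀ - l`. On the event of `InOdd` the components `k` of `w` with `Odd (cnt k u₀)` which have no edge in
`LF S` are exactly those with `infDist z₀ (K1 δ k) ≥ r₀ + l` (if `infDist ≤ r₀ - l` a point of `K1 δ k` lies in the interior of the union
of the cells of `S`, and the edge through it is in `LF S`), so their number is odd. By `CompFacts`
`sgn (w \ tc T w) u₀ = (-1) ^ (number of components without edge in LF S and odd at u₀)`. Hence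
`lE D (fun w => sgn (w \ tc T w) u₀) ≤ 1 - 2 c`. By `Markov` 2 the left side is
`lE D (fun w => c1 (rest D (tc T w) T) u₀)`, and `rest D (tc T w) T ⊆ D \ LF S ⊆ LF (box u₀ N) \ LI (box u₀ n)` if
`faces Ω δ ⊆ box u₀ N`, so by `MonoC` it is at least `c1 (LF (box u₀ N) \ LI (box u₀ n)) u₀ = aa n N`. `N = R n` with `R` a constant
(depending on `A`, `|z₀|`, `r₀`) is enough. `κ = 1 - 2 c`.
THEOREM: `theorem aaKapS (h0 : GridFacts) (h1 : MonoC) (h2 : CompFacts) (h3 : Markov) (h4 : Transl) : AaKapS` in `AaKapS.lean`. -/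
def AaKapS : Prop :=
  ∀ Ω : Set (ℝ × ℝ), Bornology.IsBounded Ω → InOdd Ω →
    ∃ (R n₀ : ℕ) (κ : ℝ), κ < 1 ∧ ∀ n, n₀ ≤ n → aa n (R * n) ≤ κ

/-- The magnetization of the block tends to zero. -/
def AaZero : Prop := ∀ ε > 0, ∃ K n₀ : ℕ, ∀ n N : ℕ, n₀ ≤ n → K * n ≤ N → aa n N ≤ ε

/-- PROOF. Let `R, n₀ ≥ 1, κ` be given, `n ≥ n₀`, `n_0 = n`, `n_{i+1} = R n_i + 1 ≤ (R + 1) n_i`. By `AaFacts` 2 and 1,
`aa n N ≤ κ ^ j * aa n_j N ≤ κ ^ j` as long as `n_j ≤ N` (`aa n_i N ≤ aa n_i (R n_i) * aa n_{i+1} N`). Choose `j` with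
`(max κ 0) ^ j ≤ ε`, `K = (R + 1) ^ (j + 1)`.
THEOREM: `theorem aaZeroS (h : AaFacts) : AaZeroS` in `AaZeroS.lean`. -/
def AaZeroS : Prop :=
  (∃ (R n₀ : ℕ) (κ : ℝ), κ < 1 ∧ ∀ n, n₀ ≤ n → aa n (R * n) ≤ κ) → AaZero

/-- A wall crossing an annulus is unlikely. PROOF. The event implies `Arm (box z (n+1)) (box z (N-1)) w` (the corners of an edge of
`LF (box z n)` are in `box z (n+1)`; an edge not in `LF (box z N)` has no corner in `box z (N-1)`; use the chain of edges). This is an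
increasing event, so its probability is at most `fkF D (Arm (box z (n+1)) (box z (N-1)))` (`Coupling` 5), which by
`ProdDom` (`P₁ = True`, `D₂ = D ∩ EV (box z (N-1))`, `bd' = bdR (box z (N-1))`) and `StochDom` (`D₂ ⊆ EV (box z (N-1))`, weights
`xc ≤ xblk z (n+1)`) is at most `fkB z (N-1) (xblk z (n+1)) (Arm ..) = aa (n+1) (N-1)` (`Idents` 2).
THEOREM: `theorem noCross (h1 : Coupling) (h2 : ProdDom) (h3 : StochDom) (h4 : Idents) (h5 : CompFacts) : NoCross` in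
`NoCross.lean`. -/
def NoCross : Prop :=
  ∀ (D : Finset Edge) (z : Pt) (n N : ℕ), n + 2 ≤ N →
    lP D (fun w => ∃ a ∈ w, ∃ b ∈ w, a ∈ LF (box z n) ∧ b ∉ LF (box z N) ∧ connE w a b) ≤
      aa (n + 1) (N - 1)

/-- Lower bound for the second moment in a large box. -/
def Bulk : Prop :=
  ∃ (K n₀ : ℕ) (c : ℝ), 0 < c ∧ ∀ n N : ℕ, n₀ ≤ n → K * n ≤ N →
    c * (n : ℝ) ^ (15 / 4 : ℝ) ≤ ∑ u ∈ box 0 n, ∑ v ∈ box 0 n, c2 (LF (box 0 N)) u v

/-- PROOF. By `AaZero` choose `K₁` with `aa (n+1) (K₁ n - 1) ≤ 1/2` for large `n`. Let `N ≥ K₁ n`, `D = LF (box 0 N)`,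
`T e := e ∉ LF (box 0 (K₁ n))`, `V = tc T w`. By `NoCross` with probability at least `1/2` `V` has no edge in `LF (box 0 n)`; then
`sgn V` is constant on `box 0 n` (`GridFacts` 1), so
`(∑ u ∈ box 0 n, sgn w u) ^ 2 = (∑ u, sgn (w \ V) u) ^ 2` (`sgn w u = sgn V u * sgn (w \ V) u`), and by `Markov` 2 its conditional
expectation is `∑ u v, c2 (rest D V T) u v ≥ ∑ u v, c2 (LF (box 0 (K₁ n))) u v ≥ ∑ u v, c1 .. u * c1 .. v ≥ (2 n + 1) ^ 4 * mm (2 K₁ n) ^ 2`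
(`rest D V T ⊆ LF (box 0 (K₁ n))`; `MonoC`; `c1 (LF (box 0 (K₁ n))) u ≥ mm (2 K₁ n)`), which is at least `c n ^ (15/4)` by
`MmLow`. On the other event the square is `≥ 0`. `∑ u v c2 D u v = E (∑ sgn w u) ^ 2`.
THEOREM: `theorem bulkS (h0 : GridFacts) (h1 : MonoC) (h2 : Markov) (h3 : NoCross) (h4 : AaFacts) (h5 : Transl)
(h6 : CompFacts) : BulkS` in `BulkS.lean`. -/
def BulkS : Prop := AaZero → MmLow → Bulk

/-- Lower bound for an arm in a large wired box. -/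
def ArmLow : Prop :=
  ∃ (K k₀ : ℕ) (c : ℝ), 0 < c ∧ ∀ k N : ℕ, k₀ ≤ k → K * k ≤ N →
    c * (k : ℝ) ^ (-(1 / 8) : ℝ) ≤ fkB 0 N (fun _ => xc) (Arm {0} (box 0 k))

/-- PROOF. Let `N ≥ K n`, `u, v ∈ box 0 n`, `2 k + 2 ≤ ldist u v`, `k ≤ n`. By `Idents` 3
`c2 (LF (box 0 N)) u v = fkB 0 N (Conn (bdR ..) (pt u + pt v))`, and the event implies `Arm {u} (box u k)` and `Arm {v} (box v k)`
(`ReachFacts` 3). By `ProdDom` with `D₂ = EV (box v k)`, `bd' = bdR (box v k)`, it is at most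
`fkB 0 N (Arm {u} (box u k)) * mm k` (`Idents` 1; both events depend only on the edges of `EV (box u k)`, `EV (box v k)`, which are
disjoint). By `ProdDom` with `P₁ = True`, `D₂ = EV (box u (N - n))` and `Transl` 5 the first factor is at most
`π = fkB 0 (N - n) (Arm {0} (box 0 k))`. Fix a small `ε` and `k = ⌊ε n⌋`; pairs at distance `< 2 k + 2`: `c2 ≤ mm j ^ 2`
(`TwoBox`), as in `TwoPtS` their total is `≤ C ε ^ (7/4) n ^ (15/4)`, at most half of the bound of `Bulk` for small `ε`. The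
other pairs contribute at most `(2 n + 1) ^ 4 * π * C k ^ (-1/8)`. So `π ≥ c' n ^ (-1/8) ≥ c'' k ^ (-1/8)`. Every
large `k` is `⌊ε n⌋` for some `n`, and `N - n` is arbitrary large.
THEOREM: `theorem armLowS (h1 : MonoC) (h2 : TwoBox) (h3 : Idents) (h4 : ReachFacts) (h5 : ProdDom) (h6 : Transl)
(h7 : Coupling) : ArmLowS` in `ArmLowS.lean`. -/
def ArmLowS : Prop := Bulk → MmUp → ArmLow

/-- Circuits exist at all scales with large probability. -/
def LatCirc : Prop :=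
  ∀ ε > 0, ∃ K R n₀ : ℕ, ∀ (n : ℕ) (z : Pt) (D : Finset Edge), n₀ ≤ n →
    LF (box z (R * n)) ⊆ D → 1 - ε ≤ fkF D (Circ z n (K * n))

/-- PROOF. Take `z₀, r₀, ρ₀, δ₀` from `InCirc` for `ε`, `Ω ⊆ closedBall 0 A`. For large `n` put `δ = r₀ / (n + 1)`, `u₀ = ref δ z₀`. If
`u ∈ box u₀ n` then `ctr δ u ∈ closedBall z₀ r₀`. If `K1 δ c ⊆ ball z₀ ρ₀` then all corners `v` of edges of `c` satisfy
`ldist v u₀ ≤ ρ₀ / δ + 1 ≤ K n`. So a component `c` as in `InCirc` is a circuit `IsCirc u₀ n (K n) c` (`CompFacts`). The event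
`Circ` is increasing, so `fkF (DD Ω δ) (Circ u₀ n (K n)) ≥ 1 - ε` (`Coupling` 5), `DD Ω δ ⊆ LF (box u₀ (R n))` for a
constant `R`, and `StochDom` gives the same for `LF (box u₀ (R n))`; translate (`Transl` 6) to `z` and use `StochDom` again for
`D ⊇ LF (box z (R n))`.
THEOREM: `theorem latCircS (h1 : Coupling) (h2 : StochDom) (h3 : Transl) (h4 : CompFacts) : LatCircS` in `LatCircS.lean`. -/
def LatCircS : Prop := ∀ Ω : Set (ℝ × ℝ), Bornology.IsBounded Ω → InCirc Ω → LatCirc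

/-- One arm exponent. -/
def UuUp : Prop :=
  ∃ C : ℝ, ∀ n N : ℕ, 1 ≤ n → n ≤ N → uu n N ≤ C * ((n : ℝ) / N) ^ (1 / 8 : ℝ)

/-- PROOF. `K, R, n₀` from `LatCirc` for `ε = 1/2`, `K', k₀, c` from `ArmLow`. Let `n` be large and `N ≥ L n`, `L` large. In the
measure `fkB 0 N (fun _ => xc)` consider the increasing events `A₁ = Arm {0} (box 0 (K n))`, `A₂ = Circ 0 n (K n)`,
`A₃ = Arm (box 0 n) (box 0 N)`. If all three occur then `Arm {0} (box 0 N)`: the circuit `c` is hit by the path from `0`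
(`Odd (cnt c 0)`, and `cnt c b` is even for `b ∉ box 0 (K n)` by `GridFacts` 5, `Hit`) and by the path of `A₃`, and `c` is connected
(`CompFacts` last part). So by `FkgIneq` (twice) and `Idents` 1 `P(A₁) P(A₂) P(A₃) ≤ mm N ≤ C N ^ (-1/8)`;
`P(A₁) ≥ c (K n) ^ (-1/8)` (`ArmLow`), `P(A₂) ≥ fkF (LF (box 0 (R n))) (Circ 0 n (K n)) ≥ 1/2` (`StochDom`, `bdV` to
`bdR (box 0 N)`, `ReachFacts` 5, `LF (box 0 (R n)) ⊆ EV (box 0 N)`). Hence `uu n N = P(A₃) ≤ C' (n / N) ^ (1/8)`. If `N < L n` use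
`uu ≤ 1`. If `n` is small, `uu n N ≤ uu n' N` for `n ≤ n'` (monotone event).
THEOREM: `theorem uuUpS (h0 : GridFacts) (h1 : Hit) (h2 : CompFacts) (h3 : FkgIneq) (h4 : Idents) (h5 : StochDom)
(h6 : ReachFacts) (h7 : Coupling) : UuUpS` in `UuUpS.lean`. -/
def UuUpS : Prop := MmUp → ArmLow → LatCirc → UuUp

/-- Two boxes joined in the random cluster measure. -/
def JoinUp : Prop :=
  ∃ C : ℝ, ∀ (D : Finset Edge) (n : ℕ) (z z' : Pt), 1 ≤ n → 4 * n ≤ ldist z z' →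
    fkF D (Join (box z n) (box z' n)) ≤ C * ((n : ℝ) / ldist z z') ^ (1 / 4 : ℝ)

/-- PROOF. `k = ⌊(ldist z z' - 2) / 2⌋ ≥ n`; the sets `EV (box z k)`, `EV (box z' k)` are disjoint. `Join` implies
`Arm (box z n) (box z k)` and `Arm (box z' n) (box z' k)`, which depend only on these sets of edges. By `ProdDom` with
`D₂ = D ∩ EV (box z' k)`, `bd' = bdR (box z' k)` (`ReachFacts` 5 type argument: for even `η₁ ∪ η₂` the edges of `η₁` have no end in
`box z' k`), then `StochDom` and `Transl` 3: `fkF D (P₁ ∧ P₂) ≤ fkF D P₁ * uu n k`; in the same way `fkF D P₁ ≤ uu n k`.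
THEOREM: `theorem joinUpS (h1 : ProdDom) (h2 : StochDom) (h3 : Transl) (h4 : Coupling) : JoinUpS` in `JoinUpS.lean`. -/
def JoinUpS : Prop := UuUp → JoinUp

/-- Some component of `w` comes to both boxes. -/
def WJ (z z' : Pt) (n : ℕ) (w : Finset Edge) : Prop :=
  ∃ a ∈ w, ∃ b ∈ w, connE w a b ∧ (src a ∈ box z n ∨ tgt a ∈ box z n) ∧
    (src b ∈ box z' n ∨ tgt b ∈ box z' n)

/-- Two boxes joined by a wall. -/
def WJoin : Prop :=
  (∃ C : ℝ, ∀ (D : Finset Edge) (n : ℕ) (z z' : Pt), 1 ≤ n → 4 * n ≤ ldist z z' →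
    lP D (WJ z z' n) ≤ C * ((n : ℝ) / ldist z z') ^ (1 / 4 : ℝ)) ∧
  (∀ ε > 0, ∃ R L n₀ : ℕ, ∀ (D : Finset Edge) (n : ℕ) (z z' : Pt), n₀ ≤ n →
    LF (box z (R * n)) ⊆ D → LF (box z' (R * n)) ⊆ D → L * n ≤ ldist z z' →
    lP D (WJ z z' n) ≤ ε * ((n : ℝ) / ldist z z') ^ (1 / 4 : ℝ))

/-- PROOF. `WJ z z' n w` implies `Join (box z n) (box z' n) w` (increasing), so part 1 is `Coupling` 5 and `JoinUp`. Part 2: let
`ε' > 0` be small, `K, R, n₀` from `LatCirc` for `ε'`, `m = K n`, `k = ⌊ldist z z' / 2⌋`, `L ≥ 8 K`,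
`S = D ∩ (EB (box z m) ∪ EB (box z' m))`. Work with `jP bdV D xc` (`Coupling`: its marginals are `lP D` and `fkF D`; `W ⊆ ω`).
(a) `P (WJ W, not Circ z n m ω) ≤ fkF D (Join and not Circ z n m) ≤ ε' * fkF D (Join)` by `FkgIneq` (`Join`, `Circ` increasing) and
`LatCirc`; the same for `z'`. (b) On `C ω₁ := Circ z n m ω₁ ∧ Circ z' n m ω₁`, `ω₁ = ω ∩ S` (circuits live in `S`), choose circuits
`c, c' ⊆ ω₁` and corners `x₀, y₀` of them, `f ω₁ = pt x₀ + pt y₀` (choice depends on `ω₁` only). `WJ W` gives a path in `W` from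
`a₀ ∈ box z n` to `b₀ ∈ box z' n`; `Odd (cnt c a₀)` and `Even (cnt c b₀)` (`GridFacts` 5, `b₀ ∉ box z m`), so by `Hit` it passes
a corner `v₁` of `c`, and the part from `v₁` to `b₀` passes a corner `v₂` of `c'`; so `Reach (W ∪ ω₁) x₀ y₀`, that is
`Conn bdV (W ∪ ω₁) (f ω₁)`. Apply `SqCond` with `p = aa m k`: its hypothesis says (by `Coupling` 4 for the weights `y`, `= 1` on `ω₁` and
`xc` on `D \ S`) `fkP bdV (ω₁ ∪ (D \ S)) y (Reach x₀ y₀) ≤ aa m k`; indeed the event implies `Arm (box z m) (box z k)`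
(`x₀ ∈ box z m`, `y₀ ∉ box z k`), and `ProdDom` (`P₁ = True`, `D₂` = the edges in `EV (box z k)`) and `StochDom` bound it by
`fkB z k (xblk z m) (Arm (box z m) (box z k)) = aa m k` (an edge of `ω₁` with an end in `box z k` is in `EB (box z m)`, where `xblk = 1`).
So (b) has probability at most `aa m k * fkF D (Join (box z m) (box z' m)) ≤ aa m k * C (K n / ldist) ^ (1/4)`. Altogether
`(2 ε' C + aa (K n) k * C * K ^ (1/4)) * (n / ldist) ^ (1/4)`; choose `ε'`, then `L` large by `AaZero`.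
THEOREM: `theorem wJoinS (h0 : GridFacts) (h1 : Hit) (h2 : CompFacts) (h3 : Coupling) (h4 : FkgIneq) (h5 : SqCond)
(h6 : ProdDom) (h7 : StochDom) (h8 : Idents) (h9 : ReachFacts) : WJoinS` in `WJoinS.lean`. -/
def WJoinS : Prop := JoinUp → LatCirc → AaZero → WJoin

end Pool.Agent.Lib.MP_6d40c9_pr
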