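import Pool.Agent.Lib.MP_6d40c9_pr.SpecM

/-!
# Statements of part P (pairs of boxes)

The plane is cut into squares `sq r b` of side `r`. The part of the spin field in `sq r b` is `aV b w = ep b w * aV b (vB b w)`, where
`vB b w` is the union of the components of `w` which touch the closed ball of radius `R` around the centre of the square. It is
compared with `XB b w = ep b w * aB b (qB b w)`, where `qB b w` is the coarse information about `vB b w` (number of components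
of diameter at least `κ` of each status) and `aB` the conditional expectation. Then `sf - ∑ XB` is small in square mean: the terms
with `b, b'` touched by a common component are controlled by `WJoin`, the others are almost orthogonal by the spatial Markov
property. The final result is `PFinS`.
-/

set_option autoImplicit false

namespace Pool.Agent.Lib.MP_6d40c9_pr

open Finset MeasureTheory Filter Topology TopologicalSpace Metric
open scoped BigOperators symmDiff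

/-! ### Abstract part -/

open Classical in
/-- Conditional expectation of `F` given `q = v`. -/
noncomputable def cE {Q : Type} (D : Finset Edge) (q : Finset Edge → Q) (F : Finset Edge → ℝ)
    (v : Q) : ℝ :=
  lE D (fun w => if q w = v then F w else 0) / lP D (fun w => q w = v)

/-- `lE D` is the expectation of a probability measure on the even subsets of `D`. PROOF. The weights `xc ^ |w|` are positive
(`0 < xc < 1`), `Zp ≥ 1`. The fourth part is the Cauchy inequality.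
THEOREM: `theorem lEFacts : LEFacts` in `LEFacts.lean`. -/
def LEFacts : Prop :=
  (∀ D : Finset Edge, lE D (fun _ => 1) = 1) ∧
  (∀ (D : Finset Edge) (a b : ℝ) (g g' : Finset Edge → ℝ),
    lE D (fun w => a * g w + b * g' w) = a * lE D g + b * lE D g') ∧
  (∀ (D : Finset Edge) (g g' : Finset Edge → ℝ), (∀ w ⊆ D, Even' w → g w ≤ g' w) →
    lE D g ≤ lE D g') ∧
  (∀ (D : Finset Edge) (g g' : Finset Edge → ℝ),
    (lE D (fun w => g w * g' w)) ^ 2 ≤ lE D (fun w => g w ^ 2) * lE D (fun w => g' w ^ 2)) ∧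
  (∀ (D : Finset Edge) (J : Type) (s : Finset J) (g : J → Finset Edge → ℝ),
    lE D (fun w => ∑ i ∈ s, g i w) = ∑ i ∈ s, lE D (g i)) ∧
  (∀ (D : Finset Edge) (g : Finset Edge → ℝ), |lE D g| ≤ lE D (fun w => |g w|)) ∧
  (∀ (D : Finset Edge) (P P' : Finset Edge → Prop), (∀ w ⊆ D, Even' w → P w → P' w) →
    0 ≤ lP D P ∧ lP D P ≤ lP D P' ∧ lP D P' ≤ 1)

open Classical in
/-- PROOF. Group the even `w ⊆ D` by the value `v` of `q w`; for every such `v`, `lP D (q = v) > 0` and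
`∑ over w with q w = v of weight * (F w - cE v) = 0`. For the squares and fourth powers: `(cE v) ^ 2 ≤` the mean of `F ^ 2` on
`q = v` (Cauchy), `(cE v) ^ 4 ≤ (mean of F ^ 2) ^ 2 ≤ mean of F ^ 4`. The last part: expand the square and use the first one with
`g = cE`.
THEOREM: `theorem condE (h : LEFacts) : CondE` in `CondE.lean`. -/
def CondE : Prop :=
  ∀ (Q : Type) (D : Finset Edge) (q : Finset Edge → Q) (F : Finset Edge → ℝ),
    (∀ g : Q → ℝ, lE D (fun w => (F w - cE D q F (q w)) * g (q w)) = 0) ∧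
    (∀ C : Q → Prop, lE D (fun w => if C (q w) then cE D q F (q w) ^ 2 else 0) ≤
      lE D (fun w => if C (q w) then F w ^ 2 else 0)) ∧
    lE D (fun w => cE D q F (q w) ^ 4) ≤ lE D (fun w => F w ^ 4) ∧
    lE D (fun w => (F w - cE D q F (q w)) ^ 2) ≤ lE D (fun w => F w ^ 2)

/-- PROOF. Let `V` be even with `V ⊆ H`, `tc T V = V`. By `Markov` 1 (`g = 1`) the probability of `tc T w = V` in `H` is
`xc ^ |V| * Z (rest H V T) / Z H`, where `Z H = Zp bdV H xc 0`. If `V` does not meet `M` the probability in `H \ M` is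
`xc ^ |V| * Z (rest H V T \ M) / Z (H \ M)` (`rest (H \ M) V T = rest H V T \ M`), which is not smaller by `RatioMono`. If `V` meets
`M` the probability in `H \ M` is `0`. So the sum over `V` of the absolute values of the differences is
`2 * lP H (tc T w meets M)`.
THEOREM: `theorem tVar (h1 : Markov) (h2 : RatioMono) (h3 : LEFacts) : TVar` in `TVar.lean`. -/
def TVar : Prop :=
  ∀ (H M : Finset Edge) (T : Edge → Prop) (g : Finset Edge → ℝ) (B : ℝ), (∀ V, |g V| ≤ B) →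
    |lE H (fun w => g (tc T w)) - lE (H \ M) (fun w => g (tc T w))| ≤
      2 * B * lP H (fun w => ∃ e ∈ tc T w, e ∈ M)

open Classical in
/-- Orthogonality. PROOF. Write `V = tc T w`, `G = F V - cE .. (q V)`, `X = E G ^ 2`. Replacing `Ψ V (w \ V)` by
`Ψ' (q V) (tc (T' (q V)) (w \ V))` costs at most `E (1_OK |G| 2 B 1_{Ψ ≠ Ψ'}) ≤ 2 B √X √P(second event)`. By `Markov` 2 the new
expectation is `E (1_OK G lE (rest D V T) (fun w' => Ψ' (q V) (tc (T' (q V)) w')))`. By `TVar` with `H = rest D V T`, `M = M (q V)`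
(`H \ M = D \ M (q V)` by hypothesis and `H ⊆ D`) the inner expectation differs from
`lE (D \ M (q V)) (fun w' => Ψ' (q V) (tc (T' (q V)) w'))`, a function of `q V` only, by at most
`2 B lP (rest D V T) (∃ e ∈ tc (T' (q V)) w', e ∈ M (q V))`; with the function of `q V` the expectation is `0` by `CondE`
(function `g` = indicator of `OK` times it), and `E (1_OK |G| 2 B lP (rest ..) ..) = 2 B E (|G| 1_{first event})` (`Markov` 2)
`≤ 2 B √X √P(first event)`.
THEOREM: `theorem cross (h1 : Markov) (h2 : TVar) (h3 : CondE) (h4 : LEFacts) : Cross` in `Cross.lean`. -/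
def Cross : Prop :=
  ∀ (Q : Type) (D : Finset Edge) (T : Edge → Prop) (q : Finset Edge → Q) (F : Finset Edge → ℝ)
    (M : Q → Finset Edge) (T' : Q → Edge → Prop) (Ψ : Finset Edge → Finset Edge → ℝ)
    (Ψ' : Q → Finset Edge → ℝ) (OK : Q → Prop) (B : ℝ), 0 ≤ B →
    (∀ V w, |Ψ V w| ≤ B) → (∀ v w, |Ψ' v w| ≤ B) →
    (∀ w ⊆ D, Even' w → OK (q (tc T w)) → D \ M (q (tc T w)) ⊆ rest D (tc T w) T) →
    |lE D (fun w => if OK (q (tc T w)) then
        (F (tc T w) - cE D (fun w => q (tc T w)) (fun w => F (tc T w)) (q (tc T w))) *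
          Ψ (tc T w) (w \ tc T w) else 0)| ≤
      2 * B * Real.sqrt (lE D (fun w =>
        (F (tc T w) - cE D (fun w => q (tc T w)) (fun w => F (tc T w)) (q (tc T w))) ^ 2)) *
      (Real.sqrt (lP D (fun w => OK (q (tc T w)) ∧
          ∃ e ∈ tc (T' (q (tc T w))) (w \ tc T w), e ∈ M (q (tc T w)))) +
        Real.sqrt (lP D (fun w => OK (q (tc T w)) ∧
          Ψ (tc T w) (w \ tc T w) ≠ Ψ' (q (tc T w)) (tc (T' (q (tc T w))) (w \ tc T w)))))

/-! ### Squares, statuses -/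

/-- Parameters: the domain is in the ball of radius `A`; the squares have side `r`, the balls have radius `R`; components of
diameter at least `κ` are seen; their position is seen with precision `η`. -/
structure Par where
  /-- domain -/
  Ω : Set (ℝ × ℝ)
  /-- radius of a ball containing the domain -/
  A : ℝ
  /-- side of the squares -/
  r : ℝ
  /-- radius of the balls -/
  R : ℝ
  /-- cutoff for the diameter -/
  κ : ℝ
  /-- mesh of the position -/
  η : ℝ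
  /-- threshold for the position -/
  S : ℝ

/-- The general assumptions on the parameters. -/
structure Par.Good (p : Par) : Prop where
  hr : 0 < p.r
  hA : 0 < p.A
  hR : 5 / 8 * p.r < p.R
  hR' : p.R < 3 / 4 * p.r
  hκ : 0 < p.κ
  hκ' : p.κ ≤ p.r / 8
  hη : 0 < p.η
  hS : p.η / 2 < p.S
  hS' : p.S < p.η
  hΩ : p.Ω ⊆ closedBall 0 p.A

/-- Centre of a square. -/
noncomputable def cen (r : ℝ) (b : Pt) : ℝ × ℝ := (r * b.1, r * b.2)

/-- A square of side `r`. -/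
def sq (r : ℝ) (b : Pt) : Set (ℝ × ℝ) :=
  {x | r * (b.1 - 1 / 2) ≤ x.1 ∧ x.1 < r * (b.1 + 1 / 2) ∧
    r * (b.2 - 1 / 2) ≤ x.2 ∧ x.2 < r * (b.2 + 1 / 2)}

/-- Indices of the squares in the ball of radius `A`. -/
noncomputable def Ix (A r : ℝ) : Finset Pt := box 0 (⌈A / r⌉₊ + 2)

/-- Statuses: the balls touched, the balls surrounded, the approximate position. -/
abbrev St := Finset Pt × Finset Pt × Finset Pt

open Classical in
/-- The status of a loop `K` with filled loop `L`. -/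
noncomputable def stat (p : Par) (K L : Set (ℝ × ℝ)) : St :=
  ((Ix p.A p.r).filter fun b => infDist (cen p.r b) K ≤ p.R,
    (Ix p.A p.r).filter fun b => p.R < infDist (cen p.r b) K ∧ infDist (cen p.r b) L ≤ p.R / 2,
    (Ix p.A p.η).filter fun β => infDist (cen p.η β) K ≤ p.S)

open Classical in
/-- The number of components of diameter at least `κ` of each status. -/
noncomputable def nst (p : Par) (δ : ℝ) (w : Finset Edge) (s : St) : ℕ :=
  ((comps w).filter fun c => p.κ ≤ diam (K1 δ c) ∧ stat p (K1 δ c) (K2 δ c) = s).card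

/-- All statuses. -/
noncomputable def Sts (p : Par) : Finset St :=
  (Ix p.A p.r).powerset ×ˢ (Ix p.A p.r).powerset ×ˢ (Ix p.A p.η).powerset

open Classical in
/-- The sign given by the components around the ball `b`. -/
noncomputable def encS (p : Par) (b : Pt) (n : St → ℕ) : ℝ :=
  (-1) ^ ∑ s ∈ (Sts p).filter (fun s => b ∈ s.2.1), n s

/-- The edge touches the ball of index `b`. -/
def tB (p : Par) (δ : ℝ) (b : Pt) (e : Edge) : Prop :=
  (seg δ e ∩ closedBall (cen p.r b) p.R).Nonempty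

/-- The components which touch the ball. -/
noncomputable def vB (p : Par) (δ : ℝ) (b : Pt) (w : Finset Edge) : Finset Edge := tc (tB p δ b) w

open Classical in
/-- The part of the spin field in the square of index `b`. -/
noncomputable def aV (p : Par) (δ : ℝ) (f : ℝ × ℝ → ℝ) (b : Pt) (w : Finset Edge) : ℝ :=
  δ ^ (15 / 8 : ℝ) * ∑ u ∈ (faces p.Ω δ).filter (fun u => ctr δ u ∈ sq p.r b),
    f (ctr δ u) * sgn w u

/-- The sign of the square. -/
noncomputable def ep (p : Par) (δ : ℝ) (b : Pt) (w : Finset Edge) : ℝ :=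
  sgn (w \ vB p δ b w) (ref δ (cen p.r b))

/-- Coarse information about the components which touch the ball. -/
noncomputable def qB (p : Par) (δ : ℝ) (b : Pt) (w : Finset Edge) : St → ℕ :=
  nst p δ (vB p δ b w)

/-- Conditional expectation given the coarse information. -/
noncomputable def aB (p : Par) (δ : ℝ) (f : ℝ × ℝ → ℝ) (b : Pt) (v : St → ℕ) : ℝ :=
  cE (DD p.Ω δ) (fun w => qB p δ b w) (fun w => aV p δ f b (vB p δ b w)) v

/-- The approximation of `aV`. -/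
noncomputable def XB (p : Par) (δ : ℝ) (f : ℝ × ℝ → ℝ) (b : Pt) (w : Finset Edge) : ℝ :=
  ep p δ b w * aB p δ f b (qB p δ b w)

/-- The difference. -/
noncomputable def DB (p : Par) (δ : ℝ) (f : ℝ × ℝ → ℝ) (b : Pt) (w : Finset Edge) : ℝ :=
  aV p δ f b w - XB p δ f b w

/-- Two balls are touched by a common component. -/
def Tch (p : Par) (δ : ℝ) (b b' : Pt) (w : Finset Edge) : Prop :=
  ∃ a ∈ w, ∃ a' ∈ w, connE w a a' ∧ tB p δ b a ∧ tB p δ b' a'

/-- Geometry. PROOF. 1: finite unions of compact sets; a face `u` with `cnt c u` odd is in a fixed box (`GridFacts` 5). 2: the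
infimum distance to a nonempty compact set is attained. 3 (`Flat`): walk from `u` to `u'` horizontally and then vertically through
faces with centres in the (square, convex) ball; the segment of the edge between two adjacent faces contains the midpoint of
their centres, so the edge is not in `w` and the parity of `cnt w` does not change (`GridFacts` 1). 4 (`Surr`): `cnt c u ≥ 1` for
`u = ref δ x` gives a horizontal edge of `c` above `u` in its column; since the parity is even far below (`GridFacts` 5) there is also one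
below or at the lower side of `u` in this column (`GridFacts` 1); their points `p`, `p'` have first coordinates within `δ ≤ ρ` of `x.1`
and `p.2 ≥ x.2`, `p'.2 ≤ x.2`, and the distance from `x` is larger than `ρ`. 5 (`Ins`): if `cnt c (ref δ x)` is odd then
`x ∈ cell δ (ref δ x) ⊆ K2`. Conversely a point of `K2` at distance `≤ ρ / 2` of `x` is not in `K1`, so it is in a cell
`u` with `cnt c u` odd; `ctr δ u` and `ctr δ (ref δ x)` are in the ball of radius `ρ / 2 + δ / 2`, use 3. 6: an edge of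
`DD Ω δ` is a side of a face contained in `Ω`. 7: `|ctr δ (ref δ x) - x| ≤ δ / 2` in both coordinates, and `x ∈ cell`.
THEOREM: `theorem geoFacts (h : GridFacts) : GeoFacts` in `GeoFacts.lean`. -/
def GeoFacts : Prop :=
  (∀ (δ : ℝ) (c : Finset Edge), 0 < δ → IsCompact (K1 δ c) ∧ (c.Nonempty → (K1 δ c).Nonempty) ∧
    (Even' c → IsCompact (K2 δ c))) ∧
  (∀ (δ ρ : ℝ) (x : ℝ × ℝ) (c : Finset Edge), 0 < δ → c.Nonempty →
    (infDist x (K1 δ c) ≤ ρ ↔ ∃ e ∈ c, (seg δ e ∩ closedBall x ρ).Nonempty)) ∧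
  (∀ (δ ρ : ℝ) (x : ℝ × ℝ) (w : Finset Edge), 0 < δ → Even' w →
    (∀ e ∈ w, ¬ (seg δ e ∩ closedBall x ρ).Nonempty) → ∀ u u' : Pt, ctr δ u ∈ closedBall x ρ →
    ctr δ u' ∈ closedBall x ρ → sgn w u = sgn w u') ∧
  (∀ (δ ρ : ℝ) (x : ℝ × ℝ) (c : Finset Edge), 0 < δ → δ ≤ ρ → Even' c →
    (∀ e ∈ c, ¬ (seg δ e ∩ closedBall x ρ).Nonempty) → Odd (cnt c (ref δ x)) →
    2 * ρ ≤ diam (K1 δ c) ∧
    ∃ y ∈ K1 δ c, ∃ y' ∈ K1 δ c, |y.1 - x.1| ≤ δ ∧ |y'.1 - x.1| ≤ δ ∧ x.2 + ρ < y.2 ∧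
      y'.2 < x.2 - ρ) ∧
  (∀ (δ ρ : ℝ) (x : ℝ × ℝ) (c : Finset Edge), 0 < δ → 4 * δ ≤ ρ → Even' c → c.Nonempty →
    (∀ e ∈ c, ¬ (seg δ e ∩ closedBall x ρ).Nonempty) →
    (infDist x (K2 δ c) ≤ ρ / 2 ↔ Odd (cnt c (ref δ x)))) ∧
  (∀ (Ω : Set (ℝ × ℝ)) (δ : ℝ), Bornology.IsBounded Ω → 0 < δ → ∀ e ∈ DD Ω δ, seg δ e ⊆ Ω) ∧
  (∀ (δ : ℝ) (x : ℝ × ℝ), 0 < δ → x ∈ cell δ (ref δ x) ∧ ctr δ (ref δ x) ∈ closedBall x (δ / 2))

/-- PROOF. `sf = ∑ aV`: every point of the plane is in exactly one `sq r b`, and `b ∈ Ix A r` if the point is in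
`closedBall 0 A`; the centre of a face contained in `Ω` is in `Ω`. For `Even' w`, `b ∈ Ix A r`, `V = vB b w`: `w \ V` has no edge
touching the ball of radius `R > r / 2 + δ`, so `sgn (w \ V) u = ep b w` for all faces `u` with centre in `sq r b` (`GeoFacts` 3),
and `sgn w u = sgn V u * sgn (w \ V) u` (`CompFacts`). The components of `w \ V` are those of `w` not touching the ball; such a
component `c` has `cnt c (ref ..)` odd iff `b` is in the second entry of its status (`GeoFacts` 2, 5), and then its diameter is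
`≥ 2 R ≥ κ` (`GeoFacts` 4); so `ep b w = encS p b (nst p δ w)`. A component touches the ball iff `b` is in the first
entry of its status: the third part.
THEOREM: `theorem split (h1 : CompFacts) (h2 : GeoFacts) : Split` in `Split.lean`. -/
def Split : Prop :=
  ∀ (p : Par) (δ : ℝ) (f : ℝ × ℝ → ℝ), p.Good → 0 < δ → 16 * δ ≤ p.r →
    (∀ w, sf p.Ω δ f w = ∑ b ∈ Ix p.A p.r, aV p δ f b w) ∧
    ∀ b ∈ Ix p.A p.r, ∀ w, Even' w →
      aV p δ f b w = ep p δ b w * aV p δ f b (vB p δ b w) ∧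
      ep p δ b w = encS p b (nst p δ w) ∧
      (∀ s, (b ∈ s.1 → qB p δ b w s = nst p δ w s) ∧ (b ∉ s.1 → qB p δ b w s = 0)) ∧
      (ep p δ b w = 1 ∨ ep p δ b w = -1)

/-- PROOF. If `Tch b b' w` the common component `c` has diameter at least `2 r - 2 R ≥ r / 2 ≥ κ` and is a component
of `vB b w`, and both `b, b'` are in the first entry of its status. Conversely a component of `vB b w` with such a status touches both
balls (`GeoFacts` 2).
THEOREM: `theorem tchQ (h1 : CompFacts) (h2 : GeoFacts) : TchQ` in `TchQ.lean`. -/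
def TchQ : Prop :=
  ∀ (p : Par) (δ : ℝ), p.Good → 0 < δ → 16 * δ ≤ p.r → ∀ b ∈ Ix p.A p.r, ∀ b' ∈ Ix p.A p.r,
    2 ≤ ldist b b' → ∀ w, Even' w →
    (Tch p δ b b' w ↔ ∃ s : St, b ∈ s.1 ∧ b' ∈ s.1 ∧ qB p δ b w s ≠ 0)

/-! ### Moments and common components -/

/-- PROOF. Let `z = ref δ (cen r b)`, `n = ⌈r / (2 δ)⌉₊ + 1`. The faces with centre in `sq r b` are in `box z n`, and
`box z (2 n) ⊆ faces Ω δ` because `δ (2 n + 1) ≤ 2 r`. So `E (aV ^ 2) ≤ M ^ 2 δ ^ (15/4) ∑ u v ∈ box z n, c2 (DD Ω δ) u v`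
(`c2 ≥ 0`: `MonoC` or `FourPt`), which is at most `C M ^ 2 (δ n) ^ (15/4)` (`TwoPtS` with `t = n`). The fourth moment: `Fourth`
(`Simp (faces Ω δ)`: `FacesSimp`), `|g| ≤ M` on `box z n`.
THEOREM: `theorem momS (h1 : MonoC) (h2 : TwoPtS) (h3 : Fourth) (h4 : FacesSimp) : MomS` in `MomS.lean`. -/
def MomS : Prop :=
  MmUp → ∃ C : ℝ, 0 ≤ C ∧ ∀ (p : Par) (δ : ℝ) (f : ℝ × ℝ → ℝ) (M : ℝ) (b : Pt), p.Good →
    IsConnected p.Ωᶜ → 0 < δ → 16 * δ ≤ p.r → closedBall (cen p.r b) (2 * p.r) ⊆ p.Ω →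
    (∀ x, |f x| ≤ M) →
    lE (DD p.Ω δ) (fun w => aV p δ f b w ^ 2) ≤ C * M ^ 2 * p.r ^ (15 / 4 : ℝ) ∧
    lE (DD p.Ω δ) (fun w => aV p δ f b w ^ 4) ≤ C * M ^ 4 * p.r ^ (15 / 2 : ℝ)

open Classical in
/-- PROOF. Let `z, z', n` be as in `MomS` for `b, b'` and `N = 2 n = 2 ⌈r / (2 δ)⌉₊ + 2`, `P w := WJ z z' (N + 1) (w \ LF (box z N))`;
`P` depends only on `w \ LF (box z N)`, and `P w` implies `WJ z z' (N + 1) w`. `Tch b b' w` implies `P w`: let `a`, `a'` be edges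
of the common component touching the two balls; `a' ∉ LF (box z N)` (`|cen b - cen b'| ≥ 4 r`) has its ends in `box z' (N + 1)`, and `a`
is in `LF (box z N)`; follow the chain from `a'` to `a` until just before it enters `LF (box z N)`: the last edge shares an end with
an edge of `LF (box z N)`, so it has an end in `box z (N + 1)`. Then `E (aV b ^ 2; Tch) ≤ E (aV b ^ 2; P) ≤
M ^ 2 δ ^ (15/4) ∑ u v ∈ box z n, |E (sgn u sgn v; P)|`, and `OutCond` (for the box `box z N ⊆ faces Ω δ`) with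
`TwoPtS` (`D = LF (box z N)`, `t = n`) gives the claim.
THEOREM: `theorem tchBS (h1 : OutCond) (h2 : TwoPtS) (h3 : FacesSimp) (h4 : MonoC) : TchBS` in `TchBS.lean`. -/
def TchBS : Prop :=
  MmUp → ∃ C : ℝ, 0 ≤ C ∧ ∀ (p : Par) (δ : ℝ) (f : ℝ × ℝ → ℝ) (M : ℝ) (b b' : Pt), p.Good →
    IsConnected p.Ωᶜ → 0 < δ → 16 * δ ≤ p.r → closedBall (cen p.r b) (2 * p.r) ⊆ p.Ω →
    (∀ x, |f x| ≤ M) → 4 ≤ ldist b b' →
    lE (DD p.Ω δ) (fun w => if Tch p δ b b' w then aV p δ f b w ^ 2 else 0) ≤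
      C * M ^ 2 * p.r ^ (15 / 4 : ℝ) *
        lP (DD p.Ω δ) (WJ (ref δ (cen p.r b)) (ref δ (cen p.r b')) (2 * ⌈p.r / (2 * δ)⌉₊ + 3))

open Classical in
/-- Near pairs and pairs touched by a common component. PROOF. Let `ε₁` be small (depending on `ε, M, A`), `R₁, L₁, n₀` from
`WJoin` 2 for `ε₁`, `G = 4 R₁ + 4`, `L = 8 L₁ + 8`. `f` has compact support in the open set `Ω`: for `r < r₀` every `b` has
`f = 0` on `sq r b` (then `aV b = 0`, `aB b = 0`, `DB b = 0`) or `closedBall (cen r b) (G r) ⊆ Ω`; only the latter `b` matter. By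
`Split`, `DB b w = ep b w * (aV b V - aB b (qB b w))`, `V = vB b w`, so by `CondE` `E (DB b ^ 2) ≤ E (aV b ^ 2) ≤ C M ^ 2 r ^ (15/4)`
(`MomS`). Near pairs (`ldist b b' < L`): at most `|Ix| (2 L + 1) ^ 2` pairs and `|Ix| ≤ (2 A / r + 7) ^ 2`, so their total is
at most `C' r ^ (7/4)`. Far pairs: `E (DB b ^ 2; Tch b b') ≤ 2 E (aV b ^ 2; Tch) + 2 E (XB b ^ 2; Tch) ≤ 4 E (aV b ^ 2; Tch)`
(`TchQ`: the event is a function of `qB b w`; `CondE` 2), which by `TchBS` is at most `4 C M ^ 2 r ^ (15/4) lP (WJ z z' n)`,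
`n = 2 ⌈r / (2 δ)⌉₊ + 3 ≤ 2 r / δ`, `ldist z z' ≥ ldist b b' r / δ - 1`, and for `δ` small `WJoin` 2 gives
`lP (WJ z z' n) ≤ ε₁ (4 / ldist b b') ^ (1/4)`. By Cauchy and symmetry (`Tch`, `WJ` are symmetric) the same bound holds for
`|E (DB b * DB b'; Tch)|`. Sum: for fixed `b` at most `8 ℓ + 8` indices `b'` at distance `ℓ ≤ 2 A / r + 6`, so the total is at most
`C'' ε₁ r ^ (15/4) (A / r + 3) ^ 2 (A / r + 3) ^ (7/4) ≤ C''' ε₁`.
THEOREM: `theorem pSumS (h1 : Split) (h2 : CondE) (h3 : MomS) (h4 : TchBS) (h5 : TchQ) (h6 : LEFacts) : PSumS` in `PSumS.lean`. -/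
def PSumS : Prop :=
  MmUp → WJoin → ∀ (Ω : Set (ℝ × ℝ)) (A M : ℝ) (f : ℝ × ℝ → ℝ), IsOpen Ω → IsConnected Ωᶜ →
    0 < A → Ω ⊆ closedBall 0 A → TestFn Ω f → (∀ x, |f x| ≤ M) → ∀ ε > 0,
    ∃ r₀ > 0, ∀ r, 0 < r → r < r₀ → ∃ L : ℕ, 2 ≤ L ∧ ∃ δ₀ > 0, ∀ δ, 0 < δ → δ < δ₀ →
    ∀ R κ η S : ℝ, (Par.mk Ω A r R κ η S).Good →
    ∑ b ∈ Ix A r, ∑ b' ∈ Ix A r, (if ldist b b' < L then
      |lE (DD Ω δ) (fun w => DB ⟨Ω, A, r, R, κ, η, S⟩ δ f b w * DB ⟨Ω, A, r, R, κ, η, S⟩ δ f b' w)|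
      else |lE (DD Ω δ) (fun w => if Tch ⟨Ω, A, r, R, κ, η, S⟩ δ b b' w then
        DB ⟨Ω, A, r, R, κ, η, S⟩ δ f b w * DB ⟨Ω, A, r, R, κ, η, S⟩ δ f b' w else 0)|) ≤ ε

/-! ### Pairs without common component -/

/-- Some large component comes close to the sphere of radius `R` around `x`. -/
def E1 (δ : ℝ) (x : ℝ × ℝ) (R d l : ℝ) (w : Finset Edge) : Prop :=
  ∃ c ∈ comps w, d ≤ diam (K1 δ c) ∧ |infDist x (K1 δ c) - R| ≤ l

/-- Two large components are close to each other. -/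
def E2 (δ : ℝ) (d l : ℝ) (w : Finset Edge) : Prop :=
  ∃ c ∈ comps w, ∃ c' ∈ comps w, c ≠ c' ∧ d ≤ diam (K1 δ c) ∧ d ≤ diam (K1 δ c') ∧
    ∃ y ∈ K1 δ c, ∃ y' ∈ K1 δ c', dist y y' ≤ l

/-- Input from the limit. -/
def InE1 (Ω : Set (ℝ × ℝ)) (x : ℝ × ℝ) (R : ℝ) : Prop :=
  ∀ d > 0, ∀ ε > 0, ∃ l > 0, ∃ δ₀ > 0, ∀ δ, 0 < δ → δ < δ₀ →
    lP (DD Ω δ) (E1 δ x R d l) ≤ ε

/-- Input from the limit. -/
def InE2 (Ω : Set (ℝ × ℝ)) : Prop :=
  ∀ d > 0, ∀ ε > 0, ∃ l > 0, ∃ δ₀ > 0, ∀ δ, 0 < δ → δ < δ₀ → lP (DD Ω δ) (E2 δ d l) ≤ ε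

/-- The region known to contain `vB b w` when the coarse information is `v`. -/
def Uq (p : Par) (b : Pt) (v : St → ℕ) : Set (ℝ × ℝ) :=
  closedBall (cen p.r b) (p.R + p.κ) ∪
    ⋃ s ∈ {s : St | v s ≠ 0}, ⋃ β ∈ s.2.2, closedBall (cen p.η β) (p.η / 2)

open Classical in
/-- The edges which meet this region. -/
noncomputable def Mq (p : Par) (δ : ℝ) (b : Pt) (v : St → ℕ) : Finset Edge :=
  (DD p.Ω δ).filter fun e => (seg δ e ∩ Uq p b v).Nonempty

/-- The edges which come to a distance `≥ ρ` from the region. -/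
def Tq (p : Par) (δ ρ : ℝ) (b : Pt) (v : St → ℕ) (e : Edge) : Prop :=
  ∃ x ∈ seg δ e, ρ ≤ infDist x (Uq p b v)

/-- The ball of index `b'` is at a distance `≥ ρ` from the region. -/
def OKq (p : Par) (ρ : ℝ) (b b' : Pt) (v : St → ℕ) : Prop :=
  ∀ x ∈ closedBall (cen p.r b') p.R, ρ ≤ infDist x (Uq p b v)

/-- Truncation. -/
noncomputable def clp (T x : ℝ) : ℝ := max (-T) (min T x)

/-- Function of the pair `(V, w \ V)`. -/
noncomputable def psi (p : Par) (δ : ℝ) (f : ℝ × ℝ → ℝ) (T : ℝ) (b b' : Pt) (V w' : Finset Edge) : ℝ :=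
  sgn w' (ref δ (cen p.r b)) * clp T (DB p δ f b' (V ∪ w'))

/-- Function of the coarse information and the far part. -/
noncomputable def psi' (p : Par) (δ : ℝ) (f : ℝ × ℝ → ℝ) (T : ℝ) (b b' : Pt) (v : St → ℕ)
    (w' : Finset Edge) : ℝ :=
  sgn w' (ref δ (cen p.r b)) * clp T (encS p b' v * ep p δ b' w' *
    (aV p δ f b' (vB p δ b' w') - aB p δ f b' (qB p δ b' w')))

/-- Geometry of a pair. PROOF. Write `V = vB b w`, `v = qB b w`, `U = Uq p b v`. (0) `K1 δ V ⊆ U`: let `y ∈ K1 δ c`,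
`c` a component of `V`. If `diam (K1 δ c) < κ` then `y ∈ closedBall (cen b) (R + κ)` (`c` touches the ball). Otherwise let `cen η β` be the
nearest point of the lattice, `|y - cen η β| ≤ η / 2 < S`; `y ∈ Ω ⊆ closedBall 0 A` gives `β ∈ Ix A η`, and `β` is in the third
entry of the status `s` of `c`, `v s ≠ 0`. (0') A point `y` of `⋃ s β, closedBall (cen η β) (η / 2)` is at distance
`≤ η / 2 + S ≤ 2 η` from a component `c'` of `V` with `diam ≥ κ`.
(1) If `e ∈ DD Ω δ` and `tB b e` or `adjE a e` with `a ∈ V`, then `seg δ e` meets `U` by (0), so `e ∈ Mq`.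
(2) Let `e` be an edge of `tc (Tq ..) (w \ V)` in `Mq`. Its component `c` (of `w`, not touching the ball `b`) contains a point at
distance `≥ ρ` from `U` and a point of `U`, so `diam ≥ ρ ≥ κ`; if the latter point is in `closedBall (cen b) (R + κ)` then
`R < infDist (cen b) c ≤ R + κ`: `E1 (cen b) R ρ κ`; otherwise (0') gives `E2 κ (2 η)`.
(3) `OKq` implies that `V` does not touch the ball `b'` (by (0)), so not `Tch b b' w`.
(4) If not `OKq`: some point of the ball `b'` is at distance `< ρ` from a point `y` of `U`; `y` is not in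
`closedBall (cen b) (R + κ)` because `2 R + κ + ρ < 2 r ≤ |cen b - cen b'|`; so by (0') a component `c'` of `V` has
`infDist (cen b') c' ≤ R + ρ + 2 η ≤ R + 3 ρ`, and `> R` if not `Tch b b' w`; it touches the ball `b`, so its diameter is at least
`2 r - 2 R - 3 ρ ≥ r / 4`.
(5) Let `OKq` hold and assume `psi ≠ psi'`. By `Split` for `b'`: `DB b' w = ep b' w * (aV b' (vB b' w) - aB b' (qB b' w))`. Put
`w₁ = w \ V`, `w₂ = tc (Tq ..) w₁`. `vB b' w = vB b' w₁` (`V` does not touch the ball `b'`) `= vB b' w₂` (an edge touching the ball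
`b'` satisfies `Tq` by `OKq`). `ep b' w = sgn V x' * sgn (w₁ \ vB b' w₁) x'`, `x' = ref δ (cen b')`, and `sgn V x' = encS p b' v`
(components of `V` around the ball `b'` have diameter `≥ 2 R ≥ κ` and `b'` in the second entry of the status; `GeoFacts` 2, 4, 5). So `psi ≠ psi'`
implies that one of the components `c` of `w₁` without edge satisfying `Tq` has odd `cnt` at `ref δ (cen b)`, or does not touch the ball
`b'` and has odd `cnt` at `x'`. In the first case `diam ≥ 2 R ≥ r / 2` and either `E1 (cen b) R (r / 2) (3 ρ₁)`, or all points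
`x` of `c` have distance `> R + 3 ρ₁` from `cen b`. In the second case `GeoFacts` 4 gives a point `x` of `c` with distance
`> R + 3 ρ₁` from `cen b` (the upper or the lower one; `ldist b b' ≥ 2`), and `diam ≥ 2 R`. Since `infDist x U < ρ` and
`κ + ρ < 3 ρ₁`, (0') gives a component `c'` of `V` with a point `y'` such that `|x - y'| ≤ ρ + 2 η ≤ 3 ρ`; `c'` touches the ball
`b`, so its diameter is at least `3 ρ₁ - 3 ρ ≥ ρ₁`: `E2 ρ₁ (3 ρ)` (`c ≠ c'`).
THEOREM: `theorem pairGeo (h1 : CompFacts) (h2 : GeoFacts) (h3 : Split) : PairGeo` in `PairGeo.lean`. -/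
def PairGeo : Prop :=
  ∀ (p : Par) (δ : ℝ) (f : ℝ × ℝ → ℝ) (T ρ ρ₁ : ℝ), p.Good → 0 < δ → 16 * δ ≤ p.r → 0 ≤ T →
    4 * p.η ≤ p.κ → p.κ ≤ ρ → 4 * ρ ≤ ρ₁ → 32 * ρ₁ ≤ p.r →
    ∀ b ∈ Ix p.A p.r, ∀ b' ∈ Ix p.A p.r, 2 ≤ ldist b b' → ∀ w ⊆ DD p.Ω δ, Even' w →
    (DD p.Ω δ \ Mq p δ b (qB p δ b w) ⊆ rest (DD p.Ω δ) (vB p δ b w) (tB p δ b)) ∧
    ((∃ e ∈ tc (Tq p δ ρ b (qB p δ b w)) (w \ vB p δ b w), e ∈ Mq p δ b (qB p δ b w)) →
      E1 δ (cen p.r b) p.R ρ p.κ w ∨ E2 δ p.κ (2 * p.η) w) ∧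
    (OKq p ρ b b' (qB p δ b w) → ¬ Tch p δ b b' w) ∧
    (¬ OKq p ρ b b' (qB p δ b w) → ¬ Tch p δ b b' w →
      E1 δ (cen p.r b') p.R (p.r / 4) (3 * ρ) w) ∧
    (OKq p ρ b b' (qB p δ b w) →
      psi p δ f T b b' (vB p δ b w) (w \ vB p δ b w) ≠
        psi' p δ f T b b' (qB p δ b w) (tc (Tq p δ ρ b (qB p δ b w)) (w \ vB p δ b w)) →
      E1 δ (cen p.r b) p.R (p.r / 2) (3 * ρ₁) w ∨ E2 δ ρ₁ (3 * ρ) w)

open Classical in
/-- PROOF. Let `C` be the constant of `MomS`; for `b` as in the statement `E (DB b ^ 2) ≤ E (aV b ^ 2) ≤ K₂` and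
`E (DB b ^ 4) ≤ 8 E (aV b ^ 4) + 8 E (XB b ^ 4) ≤ 16 E (aV b ^ 4) ≤ K₄` (`Split`, `CondE`). By `PairGeo` 3, 4,
`E (DB b DB b'; not Tch) = E (DB b DB b'; OKq) + E (DB b DB b'; not OKq, not Tch)`, and the second term is at most
`√K₄ * √P(E1 (cen b') R (r/4) (3 ρ))`. In the first replace `DB b'` by `clp T (DB b')`: cost `≤ √K₂ √(K₄ / T ^ 2)` because
`|x - clp T x| ≤ x ^ 2 / T`. Then `DB b * clp T (DB b') = (aV b V - aB b (qB b w)) * psi V (w \ V)` (`V = vB b w`), and `Cross` with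
`T = tB b`, `q = nst p δ`, `F = aV b`, `M = Mq`, `T' = Tq`, `Ψ = psi`, `Ψ' = psi'`, `OK = OKq`, `B = T` gives at most
`2 T √K₂ (√P(E1 (cen b) R ρ κ or E2 κ (2 η)) + √P(E1 (cen b) R (r/2) (3 ρ₁) or E2 ρ₁ (3 ρ)))` (`PairGeo` 1, 2, 5). Choose in
this order: `T`; `ρ₁ ≤ r / 32` by `InE1` for all `b ∈ Ix A r` with `d = r / 2`; `ρ ≤ ρ₁ / 4` by `InE2` with `d = ρ₁` and `InE1` with
`d = r / 4`; `κ₀ ≤ ρ` by `InE1` with `d = ρ`; for `κ < κ₀`: `η₀ ≤ κ / 4` by `InE2` with `d = κ`; then `δ₀`.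
THEOREM: `theorem farPairS (h1 : PairGeo) (h2 : Cross) (h3 : MomS) (h4 : Split) (h5 : CondE) (h6 : LEFacts) : FarPairS` in
`FarPairS.lean`. -/
def FarPairS : Prop :=
  MmUp → ∀ (Ω : Set (ℝ × ℝ)) (A M r R : ℝ) (f : ℝ × ℝ → ℝ), IsConnected Ωᶜ → 0 < A →
    Ω ⊆ closedBall 0 A → (∀ x, |f x| ≤ M) → 0 < r → 5 / 8 * r < R → R < 3 / 4 * r →
    (∀ b ∈ Ix A r, InE1 Ω (cen r b) R) → InE2 Ω → ∀ ε > 0,
    ∃ κ₀ > 0, ∀ κ, 0 < κ → κ < κ₀ → ∃ η₀ > 0, ∀ η, 0 < η → η < η₀ → ∀ S, η / 2 < S → S < η →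
    ∃ δ₀ > 0, ∀ δ, 0 < δ → δ < δ₀ → ∀ b ∈ Ix A r, ∀ b' ∈ Ix A r, 2 ≤ ldist b b' →
      closedBall (cen r b) (2 * r) ⊆ Ω → closedBall (cen r b') (2 * r) ⊆ Ω →
      |lE (DD Ω δ) (fun w => if Tch ⟨Ω, A, r, R, κ, η, S⟩ δ b b' w then 0 else
        DB ⟨Ω, A, r, R, κ, η, S⟩ δ f b w * DB ⟨Ω, A, r, R, κ, η, S⟩ δ f b' w)| ≤ ε

/-- The spin field is close to a function of the numbers of loops of each status. PROOF. `r₀` from `PSumS` for `ε / 2`, and so
small that for every `b` either `f = 0` on `sq r b` (then `DB b = 0`) or `closedBall (cen r b) (2 r) ⊆ Ω`. By `Split`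
`sf - ∑ b, XB b = ∑ b, DB b` on even sets, and `∑ b, XB b` is a function of `nst` (`Split`: `ep b w = encS p b (nst w)`, and `qB b w` is
a function of `nst w`). Expand the square: `E (∑ DB) ^ 2 = ∑ b b', E (DB b DB b')`; near pairs and the part on `Tch` are bounded by
`PSumS`, the part without `Tch` by `FarPairS` with `ε / (2 |Ix| ^ 2)`.
THEOREM: `theorem pFinS (h1 : PSumS) (h2 : FarPairS) (h3 : Split) (h4 : LEFacts) : PFinS` in `PFinS.lean`. -/
def PFinS : Prop :=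
  MmUp → WJoin → ∀ (Ω : Set (ℝ × ℝ)) (A : ℝ) (f : ℝ × ℝ → ℝ), IsOpen Ω → IsConnected Ωᶜ → 0 < A →
    Ω ⊆ closedBall 0 A → TestFn Ω f → InE2 Ω → ∀ ε > 0,
    ∃ r₀ > 0, ∀ r, 0 < r → r < r₀ → ∀ R, 5 / 8 * r < R → R < 3 / 4 * r →
    (∀ b ∈ Ix A r, InE1 Ω (cen r b) R) →
    ∃ κ₀ > 0, ∀ κ, 0 < κ → κ < κ₀ → ∃ η₀ > 0, ∀ η, 0 < η → η < η₀ → ∀ S, η / 2 < S → S < η →
    ∃ δ₀ > 0, ∀ δ, 0 < δ → δ < δ₀ → ∃ h : (St → ℕ) → ℝ,
      lE (DD Ω δ) (fun w => (sf Ω δ f w - h (nst ⟨Ω, A, r, R, κ, η, S⟩ δ w)) ^ 2) ≤ ε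

end Pool.Agent.Lib.MP_6d40c9_pr
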