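import Pool.Agent.Lib.MP_6d40c9_pr.SpecL

/-!
# From the Ising model to the loop measure: `TransS` (MP_6d40c9_pr)
-/

set_option autoImplicit false

namespace Pool.Agent.Lib.MP_6d40c9_pr

open Finset MeasureTheory Filter Topology TopologicalSpace Metric
open scoped BigOperators

theorem transS_E (h1 : IsingLoop) (h2 : FacesSimp) {Ω : Set (ℝ × ℝ)} (hb : Bornology.IsBounded Ω)
    (hc : IsConnected Ωᶜ) {δ : ℝ} (hδ : 0 < δ) {m n : ℕ} (f : Fin m → ℝ × ℝ → ℝ)
    (φ : Fin n → LoopSp → ℝ) (H : (Fin m → ℝ) × (Fin n → ℝ) → ℝ) :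
    isingE (faces Ω δ)
        (fun A => H (fun i => spinField Ω δ (f i) A, fun j => wallStat δ (φ j) A)) =
      lE (DD Ω δ) (fun w => H (fun i => sf Ω δ (f i) w, fun j => wSt δ (φ j) w)) := by
  have e1 : (fun A => H (fun i => spinField Ω δ (f i) A, fun j => wallStat δ (φ j) A)) =
      (fun A => (fun w => H (fun i => sf Ω δ (f i) w, fun j => wSt δ (φ j) w)) (walls A)) := by
    funext A
    have e2 : (fun i => spinField Ω δ (f i) A) = fun i => sf Ω δ (f i) (walls A) := by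
      funext i
      exact h1.2.2 Ω δ (f i) A
    rw [e2]
    rfl
  rw [e1]
  exact h1.1 _ (h2 Ω δ hb hc hδ).1 (fun w => H (fun i => sf Ω δ (f i) w, fun j => wSt δ (φ j) w))

theorem transS (h1 : IsingLoop) (h2 : FacesSimp) : TransS := by
  intro Ω hO hC hB hCc X _ P _ σ Γ hmS hmW hN hcS hcW
  refine ⟨⟨hO, hB, hC.nonempty, hCc, hmS, hmW, hN, ?_, ?_⟩, ?_⟩
  · intro f hf H hH hHb
    obtain ⟨C, hHC⟩ := hHb
    have h3 := hcS 1 (fun _ => f) (fun _ => hf) (fun y => H (y.1 0))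
      (hH.comp ((continuous_apply 0).comp continuous_fst)) ⟨C, fun y => hHC _⟩
    refine h3.congr' ?_
    filter_upwards [self_mem_nhdsWithin] with δ hδ
    exact transS_E h1 h2 hB hCc hδ (fun _ : Fin 1 => f) (Fin.elim0 : Fin 0 → LoopSp → ℝ)
      (fun y => H (y.1 0))
  · intro n φ hφ H hH hHb
    obtain ⟨C, hHC⟩ := hHb
    have h3 := hcW n φ hφ (fun y => H y.2) (hH.comp continuous_snd) ⟨C, fun y => hHC _⟩
    refine h3.congr' ?_
    filter_upwards [self_mem_nhdsWithin] with δ hδ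
    exact transS_E h1 h2 hB hCc hδ (Fin.elim0 : Fin 0 → ℝ × ℝ → ℝ) φ (fun y => H y.2)
  · intro δs hpos _ hj f n φ hf hφ H hH hHb
    obtain ⟨C, hHC⟩ := hHb
    have h3 := hj 1 n (fun _ => f) φ (fun _ => hf) hφ (fun y => H (y.1 0, y.2))
      (hH.comp (((continuous_apply 0).comp continuous_fst).prodMk continuous_snd))
      ⟨C, fun y => hHC _⟩
    rw [tendsto_map'_iff] at h3
    refine h3.congr' ?_
    filter_upwards with k
    exact transS_E h1 h2 hB hCc (hpos k) (fun _ : Fin 1 => f) φ (fun y => H (y.1 0, y.2))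

end Pool.Agent.Lib.MP_6d40c9_pr
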