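import Pool.Agent.Lib.MP_6d40c9_pr.SpecM

/-!
# Second moments in boxes
-/

set_option autoImplicit false

namespace Pool.Agent.Lib.MP_6d40c9_pr

open Finset
open scoped BigOperators symmDiff

private lemma twoPtS_LF_mono {F F' : Finset Pt} (h : F ⊆ F') : LF F ⊆ LF F' :=
  Finset.biUnion_subset_biUnion_of_subset_left _ h

private lemma twoPtS_mem_box {z u : Pt} {n : ℕ} :
    u ∈ box z n ↔ (z.1 - n ≤ u.1 ∧ u.1 ≤ z.1 + n) ∧ (z.2 - n ≤ u.2 ∧ u.2 ≤ z.2 + n) := by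
  unfold box
  rw [Finset.mem_product, Finset.mem_Icc, Finset.mem_Icc]

private lemma twoPtS_box_sub {z u : Pt} {n t k : ℕ} (hu : u ∈ box z n) (hk : k ≤ t) :
    box u k ⊆ box z (n + t) := by
  intro x hx
  rw [twoPtS_mem_box] at hu hx ⊢
  push_cast
  omega

private lemma twoPtS_c2_le_one (h1 : MonoC) (D : Finset Edge) (u v : Pt) : c2 D u v ≤ 1 := by
  by_cases huv : u = v
  · have e : c2 D u v = lE D (sgs ∅) := by
      unfold c2
      congr 1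
      funext w
      rw [huv]
      simp only [sgs, Finset.prod_empty, sgn, ← pow_add, ← two_mul]
      exact Even.neg_one_pow (even_two_mul _)
    rw [e]
    exact (h1 D D ∅ ∅ (Finset.Subset.refl _)).2.2.1
  · have e : c2 D u v = lE D (sgs {u, v}) := by
      unfold c2
      congr 1
      funext w
      simp only [sgs, Finset.prod_pair huv]
    rw [e]
    exact (h1 D D {u, v} ∅ (Finset.Subset.refl _)).2.2.1

private lemma twoPtS_mm_nonneg (h1 : MonoC) (k : ℕ) : 0 ≤ mm k := by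
  have e : mm k = lE (LF (box 0 k)) (sgs {0}) := by
    unfold mm c1
    congr 1
    funext w
    simp only [sgs, Finset.prod_singleton]
  rw [e]
  exact (h1 _ _ {0} ∅ (Finset.Subset.refl _)).1

private lemma twoPtS_ldist_le {z u v : Pt} {n : ℕ} (hu : u ∈ box z n) (hv : v ∈ box z n) :
    ldist u v ≤ 2 * n := by
  rw [twoPtS_mem_box] at hu hv
  unfold ldist
  refine max_le ?_ ?_ <;> omega

private lemma twoPtS_rpow {k l : ℕ} (hk : 1 ≤ k) (hl : l + 1 ≤ 33 * k) :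
    (k : ℝ) ^ (-(1 / 4) : ℝ) ≤ 33 ^ (1 / 4 : ℝ) * ((l : ℝ) + 1) ^ (-(1 / 4) : ℝ) := by
  have h0 : (0 : ℝ) < ((l : ℝ) + 1) / 33 := by positivity
  have h1 : ((l : ℝ) + 1) / 33 ≤ k := by
    rw [div_le_iff₀ (by norm_num)]
    have : ((l + 1 : ℕ) : ℝ) ≤ ((33 * k : ℕ) : ℝ) := by exact_mod_cast hl
    push_cast at this
    linarith
  have h2 := Real.rpow_le_rpow_of_nonpos h0 h1 (by norm_num : (-(1 / 4) : ℝ) ≤ 0)
  refine h2.trans (le_of_eq ?_)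
  rw [Real.div_rpow (by positivity) (by norm_num), Real.rpow_neg (by norm_num : (0:ℝ) ≤ 33)]
  rw [div_inv_eq_mul, mul_comm]

private lemma twoPtS_one_le {l : ℕ} (hl : l + 1 ≤ 33) :
    1 ≤ 33 ^ (1 / 4 : ℝ) * ((l : ℝ) + 1) ^ (-(1 / 4) : ℝ) := by
  have := twoPtS_rpow (k := 1) (l := l) le_rfl (by omega)
  simpa using this

private lemma twoPtS_key (h1 : MonoC) (h2 : TwoBox) {C : ℝ}
    (hC : ∀ N : ℕ, 1 ≤ N → mm N ≤ C * (N : ℝ) ^ (-(1 / 8) : ℝ)) {n t : ℕ} {z : Pt}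
    {D : Finset Edge} (hnt : n ≤ 8 * t + 8)
    (hD : LF (box z (n + t)) ⊆ D) {u v : Pt} (hu : u ∈ box z n) (hv : v ∈ box z n) :
    c2 D u v ≤ (1 + C ^ 2) * (33 ^ (1 / 4 : ℝ) * ((ldist u v : ℝ) + 1) ^ (-(1 / 4) : ℝ)) := by
  have hl := twoPtS_ldist_le hu hv
  have hpos : 0 ≤ 33 ^ (1 / 4 : ℝ) * ((ldist u v : ℝ) + 1) ^ (-(1 / 4) : ℝ) := by positivity
  by_cases hk : 1 ≤ min ((ldist u v - 2) / 2) t
  · obtain ⟨k, hkdef⟩ : ∃ k, k = min ((ldist u v - 2) / 2) t := ⟨_, rfl⟩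
    rw [← hkdef] at hk
    have hkt : k ≤ t := by rw [hkdef]; exact min_le_right _ _
    have hkl : k ≤ (ldist u v - 2) / 2 := by rw [hkdef]; exact min_le_left _ _
    have h33 : ldist u v + 1 ≤ 33 * k := by
      rcases min_choice ((ldist u v - 2) / 2) t with h | h
      · rw [← hkdef] at h; omega
      · rw [← hkdef] at h; omega
    have h3 := h2 k u v D (by omega) ((twoPtS_LF_mono (twoPtS_box_sub hu hkt)).trans hD)
      ((twoPtS_LF_mono (twoPtS_box_sub hv hkt)).trans hD)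
    have h4 := hC k hk
    have h5 := twoPtS_mm_nonneg h1 k
    have hk0 : (0 : ℝ) < k := by exact_mod_cast hk
    have h6 : mm k * mm k ≤ C ^ 2 * (k : ℝ) ^ (-(1 / 4) : ℝ) := by
      calc mm k * mm k ≤ (C * (k : ℝ) ^ (-(1 / 8) : ℝ)) * (C * (k : ℝ) ^ (-(1 / 8) : ℝ)) :=
            mul_le_mul h4 h4 h5 (h5.trans h4)
        _ = C ^ 2 * ((k : ℝ) ^ (-(1 / 8) : ℝ) * (k : ℝ) ^ (-(1 / 8) : ℝ)) := by ring
        _ = C ^ 2 * (k : ℝ) ^ (-(1 / 4) : ℝ) := by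
            rw [← Real.rpow_add hk0]; norm_num
    have h7 := twoPtS_rpow hk h33
    calc c2 D u v ≤ C ^ 2 * (k : ℝ) ^ (-(1 / 4) : ℝ) := h3.trans h6
      _ ≤ C ^ 2 * (33 ^ (1 / 4 : ℝ) * ((ldist u v : ℝ) + 1) ^ (-(1 / 4) : ℝ)) :=
          mul_le_mul_of_nonneg_left h7 (sq_nonneg C)
      _ ≤ (1 + C ^ 2) * (33 ^ (1 / 4 : ℝ) * ((ldist u v : ℝ) + 1) ^ (-(1 / 4) : ℝ)) := by
          refine mul_le_mul_of_nonneg_right ?_ hpos
          linarith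
  · have h33 : ldist u v + 1 ≤ 33 := by
      rcases min_choice ((ldist u v - 2) / 2) t with h | h
      · rw [h] at hk; omega
      · rw [h] at hk; omega
    have h3 := twoPtS_one_le h33
    have h4 := twoPtS_c2_le_one h1 D u v
    calc c2 D u v ≤ 1 := h4
      _ ≤ 33 ^ (1 / 4 : ℝ) * ((ldist u v : ℝ) + 1) ^ (-(1 / 4) : ℝ) := h3
      _ ≤ (1 + C ^ 2) * (33 ^ (1 / 4 : ℝ) * ((ldist u v : ℝ) + 1) ^ (-(1 / 4) : ℝ)) := by
          nlinarith [mul_nonneg (sq_nonneg C) hpos]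

private lemma twoPtS_sphere (B : Finset Pt) (u : Pt) (l : ℕ) :
    (B.filter fun v => ldist u v = l).card ≤ 8 * l + 8 := by
  classical
  let S : Finset Pt :=
    (({u.1 - (l : ℤ), u.1 + (l : ℤ)} : Finset ℤ) ×ˢ Finset.Icc (u.2 - (l : ℤ)) (u.2 + l)) ∪
      (Finset.Icc (u.1 - (l : ℤ)) (u.1 + l) ×ˢ ({u.2 - (l : ℤ), u.2 + (l : ℤ)} : Finset ℤ))
  have hsub : (B.filter fun v => ldist u v = l) ⊆ S := by
    intro v hv
    have hv2 := (Finset.mem_filter.1 hv).2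
    unfold ldist at hv2
    simp only [S, Finset.mem_union, Finset.mem_product, Finset.mem_insert, Finset.mem_singleton,
      Finset.mem_Icc]
    rcases max_choice (u.1 - v.1).natAbs (u.2 - v.2).natAbs with h | h
    · left
      have h' : (u.2 - v.2).natAbs ≤ (u.1 - v.1).natAbs := by
        rw [← h]; exact le_max_right _ _
      rw [h] at hv2
      omega
    · right
      have h' : (u.1 - v.1).natAbs ≤ (u.2 - v.2).natAbs := by
        rw [← h]; exact le_max_left _ _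
      rw [h] at hv2
      omega
  refine (Finset.card_le_card hsub).trans ?_
  refine (Finset.card_union_le _ _).trans ?_
  rw [Finset.card_product, Finset.card_product]
  have h1 : ({u.1 - (l : ℤ), u.1 + (l : ℤ)} : Finset ℤ).card ≤ 2 := Finset.card_le_two
  have h2 : ({u.2 - (l : ℤ), u.2 + (l : ℤ)} : Finset ℤ).card ≤ 2 := Finset.card_le_two
  have h3 : (Finset.Icc (u.2 - (l : ℤ)) (u.2 + l)).card = 2 * l + 1 := by
    rw [Int.card_Icc]; omega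
  have h4 : (Finset.Icc (u.1 - (l : ℤ)) (u.1 + l)).card = 2 * l + 1 := by
    rw [Int.card_Icc]; omega
  rw [h3, h4]
  nlinarith

private lemma twoPtS_card_box (z : Pt) (n : ℕ) : (box z n).card = (2 * n + 1) ^ 2 := by
  unfold box
  rw [Finset.card_product, Int.card_Icc, Int.card_Icc]
  have h1 : (z.1 + (n : ℤ) + 1 - (z.1 - n)).toNat = 2 * n + 1 := by omega
  have h2 : (z.2 + (n : ℤ) + 1 - (z.2 - n)).toNat = 2 * n + 1 := by omega
  rw [h1, h2]; ring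

private lemma twoPtS_row {z u : Pt} {n : ℕ} (hu : u ∈ box z n) :
    ∑ v ∈ box z n, ((ldist u v : ℝ) + 1) ^ (-(1 / 4) : ℝ) ≤
      8 * ((2 * n + 1 : ℕ) : ℝ) * ((2 * n + 1 : ℕ) : ℝ) ^ (3 / 4 : ℝ) := by
  classical
  have hmap : ∀ v ∈ box z n, ldist u v ∈ Finset.range (2 * n + 1) := fun v hv => by
    rw [Finset.mem_range]
    have := twoPtS_ldist_le hu hv
    omega
  rw [← Finset.sum_fiberwise_of_maps_to hmap]
  calc ∑ l ∈ Finset.range (2 * n + 1), ∑ v ∈ (box z n).filter (fun v => ldist u v = l),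
        ((ldist u v : ℝ) + 1) ^ (-(1 / 4) : ℝ)
      ≤ ∑ l ∈ Finset.range (2 * n + 1), 8 * ((2 * n + 1 : ℕ) : ℝ) ^ (3 / 4 : ℝ) := by
        refine Finset.sum_le_sum fun l hl => ?_
        have e1 : ∑ v ∈ (box z n).filter (fun v => ldist u v = l),
            ((ldist u v : ℝ) + 1) ^ (-(1 / 4) : ℝ) =
            ∑ v ∈ (box z n).filter (fun v => ldist u v = l), ((l : ℝ) + 1) ^ (-(1 / 4) : ℝ) := by
          refine Finset.sum_congr rfl fun v hv => ?_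
          rw [(Finset.mem_filter.1 hv).2]
        rw [e1, Finset.sum_const, nsmul_eq_mul]
        have h1 : (((box z n).filter (fun v => ldist u v = l)).card : ℝ) ≤ 8 * ((l : ℝ) + 1) := by
          have := twoPtS_sphere (box z n) u l
          have h : (((box z n).filter (fun v => ldist u v = l)).card : ℝ) ≤ ((8 * l + 8 : ℕ) : ℝ) := by
            exact_mod_cast this
          push_cast at h
          linarith
        have hl0 : (0 : ℝ) < (l : ℝ) + 1 := by positivity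
        have h2 : 0 ≤ ((l : ℝ) + 1) ^ (-(1 / 4) : ℝ) := by positivity
        have h3 : ((l : ℝ) + 1) * ((l : ℝ) + 1) ^ (-(1 / 4) : ℝ) = ((l : ℝ) + 1) ^ (3 / 4 : ℝ) := by
          nth_rewrite 1 [← Real.rpow_one ((l : ℝ) + 1)]
          rw [← Real.rpow_add hl0]; norm_num
        have h4 : ((l : ℝ) + 1) ^ (3 / 4 : ℝ) ≤ ((2 * n + 1 : ℕ) : ℝ) ^ (3 / 4 : ℝ) := by
          refine Real.rpow_le_rpow hl0.le ?_ (by norm_num)
          have := Finset.mem_range.1 hl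
          have : ((l + 1 : ℕ) : ℝ) ≤ ((2 * n + 1 : ℕ) : ℝ) := by exact_mod_cast this
          push_cast at this ⊢
          exact this
        calc (((box z n).filter (fun v => ldist u v = l)).card : ℝ) *
              ((l : ℝ) + 1) ^ (-(1 / 4) : ℝ)
            ≤ (8 * ((l : ℝ) + 1)) * ((l : ℝ) + 1) ^ (-(1 / 4) : ℝ) :=
              mul_le_mul_of_nonneg_right h1 h2
          _ = 8 * (((l : ℝ) + 1) * ((l : ℝ) + 1) ^ (-(1 / 4) : ℝ)) := by ring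
          _ = 8 * ((l : ℝ) + 1) ^ (3 / 4 : ℝ) := by rw [h3]
          _ ≤ 8 * ((2 * n + 1 : ℕ) : ℝ) ^ (3 / 4 : ℝ) := by linarith
    _ = 8 * ((2 * n + 1 : ℕ) : ℝ) * ((2 * n + 1 : ℕ) : ℝ) ^ (3 / 4 : ℝ) := by
        rw [Finset.sum_const, Finset.card_range, nsmul_eq_mul]; ring

private lemma twoPtS_final {n : ℕ} (hn : 1 ≤ n) :
    ((2 * n + 1 : ℕ) : ℝ) ^ 2 * (8 * ((2 * n + 1 : ℕ) : ℝ) * ((2 * n + 1 : ℕ) : ℝ) ^ (3 / 4 : ℝ)) ≤
      8 * 3 ^ (15 / 4 : ℝ) * (n : ℝ) ^ (15 / 4 : ℝ) := by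
  have hm0 : (0 : ℝ) < ((2 * n + 1 : ℕ) : ℝ) := by positivity
  have hm : ((2 * n + 1 : ℕ) : ℝ) ≤ 3 * (n : ℝ) := by
    have : ((2 * n + 1 : ℕ) : ℝ) ≤ ((3 * n : ℕ) : ℝ) := by exact_mod_cast (by omega)
    push_cast at this ⊢
    linarith
  have e : ((2 * n + 1 : ℕ) : ℝ) ^ 2 *
      (8 * ((2 * n + 1 : ℕ) : ℝ) * ((2 * n + 1 : ℕ) : ℝ) ^ (3 / 4 : ℝ)) =
      8 * ((2 * n + 1 : ℕ) : ℝ) ^ (15 / 4 : ℝ) := by
    generalize ((2 * n + 1 : ℕ) : ℝ) = m at hm0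
    have : m ^ (15 / 4 : ℝ) = m ^ (3 : ℝ) * m ^ (3 / 4 : ℝ) := by
      rw [← Real.rpow_add hm0]; norm_num
    rw [this]
    have h3 : m ^ (3 : ℝ) = m ^ 3 := by
      rw [← Real.rpow_natCast]; norm_num
    rw [h3]; ring
  rw [e]
  have h1 : ((2 * n + 1 : ℕ) : ℝ) ^ (15 / 4 : ℝ) ≤ (3 * (n : ℝ)) ^ (15 / 4 : ℝ) :=
    Real.rpow_le_rpow hm0.le hm (by norm_num)
  rw [Real.mul_rpow (by norm_num) (by positivity)] at h1
  calc 8 * ((2 * n + 1 : ℕ) : ℝ) ^ (15 / 4 : ℝ) ≤ 8 * (3 ^ (15 / 4 : ℝ) * (n : ℝ) ^ (15 / 4 : ℝ)) := by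
        linarith
    _ = 8 * 3 ^ (15 / 4 : ℝ) * (n : ℝ) ^ (15 / 4 : ℝ) := by ring

theorem twoPtS (h1 : MonoC) (h2 : TwoBox) : TwoPtS := by
  rintro ⟨C, hC⟩
  refine ⟨(1 + C ^ 2) * 33 ^ (1 / 4 : ℝ) * (8 * 3 ^ (15 / 4 : ℝ)), ?_⟩
  intro n t z D hn hnt hD
  have hK : 0 ≤ (1 + C ^ 2) * (33 : ℝ) ^ (1 / 4 : ℝ) := by positivity
  calc ∑ u ∈ box z n, ∑ v ∈ box z n, c2 D u v
      ≤ ∑ u ∈ box z n, ∑ v ∈ box z n,
          (1 + C ^ 2) * 33 ^ (1 / 4 : ℝ) * ((ldist u v : ℝ) + 1) ^ (-(1 / 4) : ℝ) := by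
        refine Finset.sum_le_sum fun u hu => Finset.sum_le_sum fun v hv => ?_
        refine (twoPtS_key h1 h2 hC hnt hD hu hv).trans (le_of_eq ?_)
        ring
    _ = (1 + C ^ 2) * 33 ^ (1 / 4 : ℝ) *
          ∑ u ∈ box z n, ∑ v ∈ box z n, ((ldist u v : ℝ) + 1) ^ (-(1 / 4) : ℝ) := by
        rw [Finset.mul_sum]
        refine Finset.sum_congr rfl fun u _ => ?_
        rw [Finset.mul_sum]
    _ ≤ (1 + C ^ 2) * 33 ^ (1 / 4 : ℝ) *
          ∑ u ∈ box z n, 8 * ((2 * n + 1 : ℕ) : ℝ) * ((2 * n + 1 : ℕ) : ℝ) ^ (3 / 4 : ℝ) := by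
        refine mul_le_mul_of_nonneg_left ?_ hK
        exact Finset.sum_le_sum fun u hu => twoPtS_row hu
    _ = (1 + C ^ 2) * 33 ^ (1 / 4 : ℝ) * (((2 * n + 1 : ℕ) : ℝ) ^ 2 *
          (8 * ((2 * n + 1 : ℕ) : ℝ) * ((2 * n + 1 : ℕ) : ℝ) ^ (3 / 4 : ℝ))) := by
        rw [Finset.sum_const, twoPtS_card_box, nsmul_eq_mul]
        push_cast
        ring
    _ ≤ (1 + C ^ 2) * 33 ^ (1 / 4 : ℝ) * (8 * 3 ^ (15 / 4 : ℝ) * (n : ℝ) ^ (15 / 4 : ℝ)) :=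
        mul_le_mul_of_nonneg_left (twoPtS_final hn) hK
    _ = (1 + C ^ 2) * 33 ^ (1 / 4 : ℝ) * (8 * 3 ^ (15 / 4 : ℝ)) * (n : ℝ) ^ (15 / 4 : ℝ) := by
        ring

end Pool.Agent.Lib.MP_6d40c9_pr
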